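import Pool.Agent.Lib_MP_638f75_lc.GDefs

/-!
# Walls: basic facts (piece WBASE)
-/

namespace Pool.Agent.RAC

theorem dot_comm (a b : Pt) : dot a b = dot b a := by simp [dot]; ring
theorem dot_add (a b c : Pt) : dot (a + b) c = dot a c + dot b c := by simp [dot]; ring
theorem dot_sub (a b c : Pt) : dot (a - b) c = dot a c - dot b c := by simp [dot]; ring
theorem dot_smul (r : ℝ) (a c : Pt) : dot (r • a) c = r * dot a c := by simp [dot]; ring
theorem dot_neg (a c : Pt) : dot (-a) c = - dot a c := by simp [dot]; ring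
theorem dot_add' (a b c : Pt) : dot c (a + b) = dot c a + dot c b := by simp [dot]; ring
theorem dot_sub' (a b c : Pt) : dot c (a - b) = dot c a - dot c b := by simp [dot]; ring
theorem dot_smul' (r : ℝ) (a c : Pt) : dot c (r • a) = r * dot c a := by simp [dot]; ring
theorem dot_neg' (a c : Pt) : dot c (-a) = - dot c a := by simp [dot]; ring

theorem st_st (m : Fin 4) : st (st m) = m := by fin_cases m <;> rfl
theorem op_op (m : Fin 4) : op (op m) = m := by fin_cases m <;> rfl
theorem st_ne (m : Fin 4) : st m ≠ m := by fin_cases m <;> decide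

theorem prec_st {m : Fin 4} {t u : ℕ} : prec (st m) t u ↔ prec m u t := by
  fin_cases m <;> simp [prec, st]

theorem prec_op {m : Fin 4} {t u : ℕ} : prec (op m) t u ↔ prec m t u := by
  fin_cases m <;> simp [prec, op]

theorem lat_st (m : Fin 4) (s u : ℕ) : lat (st m) s u = lat m u s := by
  fin_cases m <;> simp [lat, st]

theorem lat_op (m : Fin 4) (s u : ℕ) : lat (op m) s u = lat m s u := by
  fin_cases m <;> simp [lat, op]

/-- linear functionals on segments -/
theorem dot_segment_le {P Q z v : Pt} {r : ℝ} (hz : z ∈ segment ℝ P Q) (h1 : dot P v ≤ r)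
    (h2 : dot Q v ≤ r) : dot z v ≤ r := by
  obtain ⟨a, b, ha, hb, hab, rfl⟩ := hz
  rw [dot_add, dot_smul, dot_smul]
  have : a * r + b * r = r := by rw [← add_mul, hab, one_mul]
  nlinarith [mul_le_mul_of_nonneg_left h1 ha, mul_le_mul_of_nonneg_left h2 hb]

/-- linear functionals on segments -/
theorem dot_segment_lt {P Q z v : Pt} {r : ℝ} (hz : z ∈ segment ℝ P Q) (h1 : dot P v < r)
    (h2 : dot Q v < r) : dot z v < r := by
  obtain ⟨a, b, ha, hb, hab, rfl⟩ := hz
  rw [dot_add, dot_smul, dot_smul]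
  have : a * r + b * r = r := by rw [← add_mul, hab, one_mul]
  rcases ha.eq_or_lt with h | h
  · subst h
    have hb1 : b = 1 := by linarith
    subst hb1
    linarith
  · nlinarith [mul_lt_mul_of_pos_left h1 h, mul_le_mul_of_nonneg_left h2.le hb]

namespace Walls

variable {n : ℕ} {x : ℕ → Pt} {d : Fin 4 → Pt} {e : ℕ → Fin 4 → Pt}

/-- partner directions are perpendicular -/
theorem perp (W : Walls n x d e) (m : Fin 4) : dot (d m) (d (st m)) = 0 := by
  have h1 := W.rot1
  have h3 := W.rot3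
  fin_cases m
  · show dot (d 0) (d 1) = 0
    rw [h1]; simp only [dot, J]; ring
  · show dot (d 1) (d 0) = 0
    rw [h1]; simp only [dot, J]; ring
  · show dot (d 2) (d 3) = 0
    rw [h3]; simp only [dot, J, Prod.fst_neg, Prod.snd_neg]; ring
  · show dot (d 3) (d 2) = 0
    rw [h3]; simp only [dot, J, Prod.fst_neg, Prod.snd_neg]; ring

/-- the coordinates with respect to the frame `d m`, `d (st m)` -/
theorem expand (W : Walls n x d e) (m : Fin 4) (v : Pt) :
    v = dot v (d m) • d m + dot v (d (st m)) • d (st m) := by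
  have h1 := W.rot1
  have h3 := W.rot3
  have u0 : (d 0).1 * (d 0).1 + (d 0).2 * (d 0).2 = 1 := W.unit 0
  have u2 : (d 2).1 * (d 2).1 + (d 2).2 * (d 2).2 = 1 := W.unit 2
  fin_cases m
  · show v = dot v (d 0) • d 0 + dot v (d 1) • d 1
    rw [h1]
    refine Prod.ext ?_ ?_
    · simp only [dot, J, Prod.fst_add, Prod.smul_fst, smul_eq_mul]
      linear_combination (-v.1) * u0
    · simp only [dot, J, Prod.snd_add, Prod.smul_snd, smul_eq_mul]
      linear_combination (-v.2) * u0
  · show v = dot v (d 1) • d 1 + dot v (d 0) • d 0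
    rw [h1]
    refine Prod.ext ?_ ?_
    · simp only [dot, J, Prod.fst_add, Prod.smul_fst, smul_eq_mul]
      linear_combination (-v.1) * u0
    · simp only [dot, J, Prod.snd_add, Prod.smul_snd, smul_eq_mul]
      linear_combination (-v.2) * u0
  · show v = dot v (d 2) • d 2 + dot v (d 3) • d 3
    rw [h3]
    refine Prod.ext ?_ ?_
    · simp only [dot, J, Prod.fst_add, Prod.smul_fst, smul_eq_mul, Prod.fst_neg, Prod.snd_neg]
      linear_combination (-v.1) * u2
    · simp only [dot, J, Prod.snd_add, Prod.smul_snd, smul_eq_mul, Prod.fst_neg, Prod.snd_neg]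
      linear_combination (-v.2) * u2
  · show v = dot v (d 3) • d 3 + dot v (d 2) • d 2
    rw [h3]
    refine Prod.ext ?_ ?_
    · simp only [dot, J, Prod.fst_add, Prod.smul_fst, smul_eq_mul, Prod.fst_neg, Prod.snd_neg]
      linear_combination (-v.1) * u2
    · simp only [dot, J, Prod.snd_add, Prod.smul_snd, smul_eq_mul, Prod.fst_neg, Prod.snd_neg]
      linear_combination (-v.2) * u2

private theorem wbase_ob (W : Walls n x d e) (hn : 2 ≤ n) : dot (d 0) (d 3) < 0 := by
  have h1 := W.rot1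
  have h3 := W.rot3
  have m0 := W.mono 0 0 1 (by omega) (by omega) (by simp [prec])
  have m1 := W.mono 1 1 0 (by omega) (by omega) (by simp [prec])
  have m2 := W.mono 2 0 1 (by omega) (by omega) (by simp [prec])
  have m3 := W.mono 3 1 0 (by omega) (by omega) (by simp [prec])
  rw [h1] at m1
  rw [h3] at m3 ⊢
  simp only [dot, J, Prod.fst_neg, Prod.snd_neg] at m0 m1 m2 m3 ⊢
  generalize (d 0).1 = a1 at *
  generalize (d 0).2 = a2 at *
  generalize (d 2).1 = b1 at *
  generalize (d 2).2 = b2 at *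
  have p : 0 < ((x 1).1 - (x 0).1) * a1 + ((x 1).2 - (x 0).2) * a2 := by linarith
  have q : 0 < ((x 1).1 - (x 0).1) * a2 - ((x 1).2 - (x 0).2) * a1 := by linarith
  have r : 0 < ((x 1).1 - (x 0).1) * b1 + ((x 1).2 - (x 0).2) * b2 := by linarith
  have s : 0 < ((x 1).2 - (x 0).2) * b1 - ((x 1).1 - (x 0).1) * b2 := by linarith
  generalize (x 1).1 - (x 0).1 = v1 at *
  generalize (x 1).2 - (x 0).2 = v2 at *
  by_contra hc
  have hc' : 0 ≤ a1 * b2 - a2 * b1 := by linarith [not_lt.mp hc]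
  have k1 : 0 ≤ (a1 * b2 - a2 * b1) * (v1 * v1 + v2 * v2) :=
    mul_nonneg hc' (add_nonneg (mul_self_nonneg v1) (mul_self_nonneg v2))
  have k2 := mul_pos p s
  have k3 := mul_pos q r
  have k4 : (a1 * b2 - a2 * b1) * (v1 * v1 + v2 * v2) =
      -((v1 * a1 + v2 * a2) * (v2 * b1 - v1 * b2)) - (v1 * a2 - v2 * a1) * (v1 * b1 + v2 * b2) := by
    ring
  linarith

private theorem wbase_eq (W : Walls n x d e) : dot (d 1) (d 2) = dot (d 0) (d 3) := by
  rw [W.rot1, W.rot3]
  simp only [dot, J, Prod.fst_neg, Prod.snd_neg]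
  ring

/-- The angle between `d m` and `d (op (st m))` is obtuse: `d 0 · d 3 = d 1 · d 2 < 0`.
Proof: let `v = x 1 - x 0`, so `v·d0 > 0`, `v·d1 < 0`, `v·d2 > 0`, `v·d3 < 0` (mono). With
`v = p d0 - q d1`, `p, q > 0`, `a = d0·d3`, `b = d1·d3`: `d3 = a d0 + b d1`, `d2 = J d3` (rot3)
`= a d1 - b d0`. `v·d3 = p a - q b < 0`, `v·d2 = - p b - q a > 0`. Hence `p² a < p q b < - q² a`,
so `a < 0`, and `d1·d2 = a`. -/
theorem obtuse (W : Walls n x d e) (hn : 2 ≤ n) (m : Fin 4) : dot (d m) (d (op (st m))) < 0 := by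
  have h := wbase_ob W hn
  have h' := wbase_eq W
  fin_cases m
  · exact h
  · show dot (d 1) (d 2) < 0
    rw [h']; exact h
  · show dot (d 2) (d 1) < 0
    rw [dot_comm, h']; exact h
  · show dot (d 3) (d 0) < 0
    rw [dot_comm]; exact h

/-- two unit vectors of the four are different -/
theorem d_inj (W : Walls n x d e) (hn : 2 ≤ n) : Function.Injective d := by
  have h03 : dot (d 0) (d 3) < 0 := wbase_ob W hn
  have h12 : dot (d 1) (d 2) < 0 := by rw [wbase_eq W]; exact h03
  have h01 : dot (d 0) (d 1) = 0 := perp W 0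
  have h23 : dot (d 2) (d 3) = 0 := perp W 2
  have k01 : d 0 ≠ d 1 := fun h => by
    rw [h] at h01
    have := W.unit 1
    linarith
  have k23 : d 2 ≠ d 3 := fun h => by
    rw [h] at h23
    have := W.unit 3
    linarith
  have k03 : d 0 ≠ d 3 := fun h => by
    rw [h] at h03
    have := W.unit 3
    linarith
  have k12 : d 1 ≠ d 2 := fun h => by
    rw [h] at h12
    have := W.unit 2
    linarith
  have k02 : d 0 ≠ d 2 := fun h => by
    rw [h] at h03
    linarith
  have k13 : d 1 ≠ d 3 := fun h => by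
    rw [h, dot_comm] at h12
    linarith
  intro i j h
  fin_cases i <;> fin_cases j
  · rfl
  · exact absurd h k01
  · exact absurd h k02
  · exact absurd h k03
  · exact absurd h.symm k01
  · rfl
  · exact absurd h k12
  · exact absurd h k13
  · exact absurd h.symm k02
  · exact absurd h.symm k12
  · rfl
  · exact absurd h k23
  · exact absurd h.symm k03
  · exact absurd h.symm k13
  · exact absurd h.symm k23
  · rfl

end Walls

end Pool.Agent.RAC

/-!
# Cells (piece WCELL)
-/

namespace Pool.Agent.RAC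
namespace Walls

variable {n : ℕ} {x : ℕ → Pt} {d : Fin 4 → Pt} {e : ℕ → Fin 4 → Pt}

/-- `x t` lies in the cells around it -/
theorem x_mem_K (W : Walls n x d e) {s t u : ℕ} (h1 : s < t) (h2 : t < u) (h3 : u < n) :
    x t ∈ K x d s u := by
  intro m
  apply W.mono m t (lat m s u) (by omega)
  · unfold lat; split_ifs <;> omega
  · unfold prec lat; split_ifs <;> omega

/-- the walls of `x s` and `x u` do not meet the open cell -/
theorem wall_notMem_K (W : Walls n x d e) {s u v : ℕ} (h1 : s < u) (h2 : u < n)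
    (hv : v = s ∨ v = u) (m : Fin 4) {z : Pt} (hz : z ∈ segment ℝ (x v) (e v m)) :
    z ∉ K x d s u := by
  intro hK
  have hvn : v < n := by omega
  obtain ⟨l, hl, he⟩ := W.wall v hvn m
  obtain ⟨α, β, hα, hβ, hαβ, hz'⟩ := hz
  have hzz : z = x v + (β * l) • d m := by
    rw [← hz', he, smul_add, smul_smul, ← add_assoc, ← add_smul, hαβ, one_smul]
  have hbl : 0 ≤ β * l := mul_nonneg hβ hl.le
  have key : ∀ m', lat m' s u = v → 0 ≤ dot (d m) (d m') → False := by
    intro m' h3 h4
    have h5 := hK m'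
    rw [h3, hzz, dot_add, dot_smul] at h5
    have := mul_nonneg hbl h4
    linarith
  have hcase : lat m s u = v ∨ lat (st m) s u = v := by
    rcases hv with rfl | rfl
    · by_cases h : m = 0 ∨ m = 2
      · right; rw [lat_st]; unfold lat; rw [if_pos h]
      · left; unfold lat; rw [if_neg h]
    · by_cases h : m = 0 ∨ m = 2
      · left; unfold lat; rw [if_pos h]
      · right; rw [lat_st]; unfold lat; rw [if_neg h]
  rcases hcase with h | h
  · exact key m h (by rw [W.unit]; norm_num)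
  · exact key (st m) h (by rw [W.perp])

/-- the cells are convex -/
theorem K_convex {s u : ℕ} {P Q z : Pt} (hP : P ∈ K x d s u) (hQ : Q ∈ K x d s u)
    (hz : z ∈ segment ℝ P Q) : z ∈ K x d s u := fun m => dot_segment_lt hz (hP m) (hQ m)

/-- cells of separated pairs are disjoint: `c_0 < c_0 (x u)`, `c_2 < c_2 (x u)` contradict
`c_1 < c_1 (x s')`, `c_3 < c_3 (x s')` for `u ≤ s'`. (With `w = z - x u`: `w·d0 < 0`, `w·d2 < 0`
and, `x s' - x u` having `c_1, c_3` coordinates `≤ 0`, `w·d1 < 0`, `w·d3 < 0`. Write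
`w = p d0 + q d1`, `p, q < 0`; with `a = d0·d3 < 0`, `b = d1·d3`: `w·d3 = p a + q b < 0`,
`w·d2 = -p b + q a < 0` (`d2 = a d1 - b d0`); as `p a > 0` and `q a > 0`: `q b < 0`, `- p b < 0`, so
`b > 0` and `b < 0`.) -/
theorem K_disjoint (W : Walls n x d e) {s u s' u' : ℕ} (h1 : s < u) (h2 : u ≤ s') (h3 : s' < u')
    (h4 : u' < n) {z : Pt} (hz : z ∈ K x d s u) (hz' : z ∈ K x d s' u') : False := by
  have hle : ∀ m : Fin 4, ¬ (m = 0 ∨ m = 2) → dot (x s') (d m) ≤ dot (x u) (d m) := by
    intro m hm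
    rcases h2.eq_or_lt with h | h
    · rw [h]
    · exact (W.mono m s' u (by omega) (by omega) (by unfold prec; rw [if_neg hm]; exact h)).le
  have g0 : dot z (d 0) < dot (x u) (d 0) := hz 0
  have g2 : dot z (d 2) < dot (x u) (d 2) := hz 2
  have g1 : dot z (d 1) < dot (x u) (d 1) := (hz' 1).trans_le (hle 1 (by decide))
  have g3 : dot z (d 3) < dot (x u) (d 3) := (hz' 3).trans_le (hle 3 (by decide))
  have hob : dot (d 0) (d 3) < 0 := W.obtuse (by omega) 0
  obtain ⟨w, hw⟩ : ∃ w, w = z - x u := ⟨_, rfl⟩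
  obtain ⟨p, hp⟩ : ∃ p, p = dot w (d 0) := ⟨_, rfl⟩
  obtain ⟨q, hq⟩ : ∃ q, q = dot w (d 1) := ⟨_, rfl⟩
  obtain ⟨a, ha⟩ : ∃ a, a = dot (d 0) (d 3) := ⟨_, rfl⟩
  obtain ⟨b, hb⟩ : ∃ b, b = dot (d 1) (d 3) := ⟨_, rfl⟩
  have hexp : w = p • d 0 + q • d 1 := by
    rw [hp, hq]
    exact W.expand 0 w
  have f0 : p < 0 := by rw [hp, hw, dot_sub]; linarith
  have f1 : q < 0 := by rw [hq, hw, dot_sub]; linarith
  have f2 : dot w (d 2) < 0 := by rw [hw, dot_sub]; linarith
  have f3 : dot w (d 3) < 0 := by rw [hw, dot_sub]; linarith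
  have hb2 : dot (d 0) (d 2) = - b := by
    rw [hb, W.rot1, W.rot3]; simp [dot, J]
  have ha2 : dot (d 1) (d 2) = a := by
    rw [ha, W.rot1, W.rot3]; simp [dot, J]; ring
  have f3' : p * a + q * b < 0 := by
    rw [hexp, dot_add, dot_smul, dot_smul, ← ha, ← hb] at f3
    exact f3
  have f2' : p * (-b) + q * a < 0 := by
    rw [hexp, dot_add, dot_smul, dot_smul, hb2, ha2] at f2
    exact f2
  have ha0 : a < 0 := by rw [ha]; exact hob
  have e1 : 0 < p * a := mul_pos_of_neg_of_neg f0 ha0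
  have e2 : 0 < q * a := mul_pos_of_neg_of_neg f1 ha0
  rcases le_or_gt b 0 with h | h
  · have : 0 ≤ q * b := mul_nonneg_of_nonpos_of_nonpos f1.le h
    linarith
  · have : p * b < 0 := mul_neg_of_neg_of_pos f0 h
    linarith

/-- larger cells -/
theorem K_mono (W : Walls n x d e) {s u s' u' : ℕ} (h1 : s' ≤ s) (h2 : s < u) (h3 : u ≤ u')
    (h4 : u' < n) {z : Pt} (hz : z ∈ K x d s u) : z ∈ K x d s' u' := by
  intro m
  refine (hz m).trans_le ?_
  by_cases h : m = 0 ∨ m = 2
  · have e1 : lat m s u = u := by unfold lat; rw [if_pos h]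
    have e2 : lat m s' u' = u' := by unfold lat; rw [if_pos h]
    rw [e1, e2]
    rcases h3.eq_or_lt with h5 | h5
    · rw [h5]
    · exact (W.mono m u u' (by omega) h4 (by unfold prec; rw [if_pos h]; exact h5)).le
  · have e1 : lat m s u = s := by unfold lat; rw [if_neg h]
    have e2 : lat m s' u' = s' := by unfold lat; rw [if_neg h]
    rw [e1, e2]
    rcases h1.eq_or_lt with h5 | h5
    · rw [h5]
    · exact (W.mono m s s' (by omega) (by omega) (by unfold prec; rw [if_neg h]; exact h5)).le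

end Walls

end Pool.Agent.RAC

/-!
# Leaving a cell (piece EXIT)
-/

namespace Pool.Agent.RAC

private theorem exit_seg {P Q z : Pt} (hz : z ∈ segment ℝ P Q) (v : Pt) :
    ∃ r : ℝ, z = P + r • (Q - P) ∧ dot z v = dot P v + r * (dot Q v - dot P v) := by
  obtain ⟨a, b, ha, hb, hab, rfl⟩ := hz
  refine ⟨b, ?_, ?_⟩
  · have h1 : a = 1 - b := by linarith
    rw [h1]
    module
  · rw [dot_add, dot_smul, dot_smul]
    have h1 : a = 1 - b := by linarith
    rw [h1]
    ring

/-- legality is inherited by parts of a segment -/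
theorem Lg.mono {P Q P' Q' a b : Pt} (h : Lg P Q a b) (hP : P' ∈ segment ℝ P Q)
    (hQ : Q' ∈ segment ℝ P Q) : Lg P' Q' a b := by
  intro z hz hz'
  have h1 : z ∈ segment ℝ P Q := (convex_segment P Q).segment_subset hP hQ hz
  obtain ⟨h2, h3⟩ := h z h1 hz'
  refine ⟨h2, ?_⟩
  obtain ⟨p, _, hp⟩ := exit_seg hP (b - a)
  obtain ⟨q, _, hq⟩ := exit_seg hQ (b - a)
  rw [dot_sub] at h3 ⊢
  rw [hp, hq, h3]
  ring

namespace Walls

variable {n : ℕ} {x : ℕ → Pt} {d : Fin 4 → Pt} {e : ℕ → Fin 4 → Pt}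

private theorem exit_wall (W : Walls n x d e) {v : ℕ} (hv : v < n) (m : Fin 4) {z : Pt}
    (h1 : dot z (d (st m)) = dot (x v) (d (st m))) (h2 : dot (x v) (d m) ≤ dot z (d m))
    (h3 : dot z (d m) < dot (e v m) (d m)) : z ∈ segment ℝ (x v) (e v m) := by
  obtain ⟨l, hl, he⟩ := W.wall v hv m
  have h4 := W.expand m (z - x v)
  rw [dot_sub, dot_sub, h1, sub_self, zero_smul, add_zero] at h4
  set μ := dot z (d m) - dot (x v) (d m) with hμ
  have h5 : dot (e v m) (d m) = dot (x v) (d m) + l := by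
    rw [he, dot_add, dot_smul, W.unit m, mul_one]
  have h6 : μ < l := by
    rw [hμ]
    linarith
  have h7 : 0 ≤ μ := by
    rw [hμ]
    linarith
  refine ⟨1 - μ / l, μ / l, ?_, by positivity, by ring, ?_⟩
  · rw [sub_nonneg, div_le_one hl]
    exact h6.le
  · have h8 : z = x v + μ • d m := by
      rw [← h4]
      abel
    have h9 : μ • d m = (μ / l) • (l • d m) := by
      rw [smul_smul]
      congr 1
      field_simp
    rw [h8, h9, he]
    module

private theorem exit_open (W : Walls n x d e) {v : ℕ} (hv : v < n) (m : Fin 4) {z : Pt}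
    (hz : z ∈ openSegment ℝ (x v) (e v m)) : dot (x v) (d m) < dot z (d m) := by
  obtain ⟨l, hl, he⟩ := W.wall v hv m
  obtain ⟨a, b, ha, hb, hab, rfl⟩ := hz
  rw [he, dot_add, dot_smul, dot_smul, dot_add, dot_smul, W.unit m, mul_one]
  have h1 : a = 1 - b := by linarith
  rw [h1]
  have := mul_pos hb hl
  nlinarith

private theorem exit_perp (W : Walls n x d e) {v : ℕ} (hv : v < n) (m : Fin 4) {w : Pt}
    (h : dot w (e v m - x v) = 0) : dot w (d m) = 0 := by
  obtain ⟨l, hl, he⟩ := W.wall v hv m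
  rw [he, add_sub_cancel_left, dot_smul'] at h
  exact (mul_eq_zero.mp h).resolve_left hl.ne'

private theorem exit_lat (m : Fin 4) {s u : ℕ} (hsu : s < u) : prec m (lat m u s) (lat m s u) := by
  fin_cases m <;> simpa [prec, lat] using hsu

private theorem exit_latc (m : Fin 4) (s u : ℕ) : lat m s u = s ∨ lat m s u = u := by
  fin_cases m <;> simp [lat]

/-- A legal segment `P Q` which starts in the cell `K s u` and does not end there leaves it
through one of the four walls which bound the cell, in one of the four directions.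

Proof. For every `m` with `c_m Q ≥ c_m (x (lat m s u)) =: b_m` let
`r_m = (b_m - c_m P) / (c_m Q - c_m P) ∈ (0, 1]`. Choose `m` with `r_m` minimal (there is one,
as `Q ∉ K`), `z = P + r_m (Q - P)`. Then `c_m z = b_m` and `c_k z ≤ b_k` for all `k`. Let
`v = lat m s u ∈ {s, u}`. Then `c_m z = c_m (x v)`, so `z = x v + μ d (st m)` (`expand`) with
`μ = c_(st m) z - c_(st m) (x v)`. `μ ≥ 0`: `c_(op m) z = c_(op m) (x v) + μ d(st m)·d(op m)`,
where `d(st m)·d(op m) < 0` (`obtuse`, `op m = op (st (st m))`), and `lat (op m) s u = v`, so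
`c_(op m) z ≤ c_(op m) (x v)`, so `μ ≥ 0`. `c_(st m) z ≤ b_(st m) = c_(st m) (x (lat m u s))`
(`lat_st`), which is less than `c_(st m) (e v (st m))` (`long`). So `z` lies on the wall `st m` of
`x v`: `z ∈ segment (x v) (e v (st m))`. By `hw`, `z` is an interior point of it (so `μ > 0`) and
`dot (Q - P) (d (st m)) = 0` (divide by the length). Hence `Q - P = l d m` (`expand`), and
`l > 0` as `c_m P < b_m ≤ c_m Q`. The level `c_(st m) P = c_(st m) z` satisfies
`c_(st m) (x v) < c_(st m) z ≤ c_(st m) (x (lat m u s))`; equality on the right: then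
`c_(st m) z = c_(st m) (x v')`, `v' = lat m u s`, and `z` lies on the wall `m` of `x v'`
(`z = x v' + ν d m`, `ν = c_m (x v) - c_m (x v') > 0` by mono, and
`c_m z = c_m (x v) < c_m (e v' m)`), so by `hw` also `dot (Q - P) (d m) = 0`, so `Q = P`,
contradiction (`P ∈ K`, `Q ∉ K`). -/
theorem exit (W : Walls n x d e) {s u : ℕ} (hsu : s < u) (hu : u < n) {P Q : Pt}
    (hP : P ∈ K x d s u) (hQ : Q ∉ K x d s u)
    (hw : ∀ v, v = s ∨ v = u → ∀ m, Lg P Q (x v) (e v m)) :
    ∃ m, (∃ l : ℝ, 0 < l ∧ Q - P = l • d m) ∧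
      dot (x (lat m s u)) (d m) ≤ dot Q (d m) ∧
      dot (x (lat m s u)) (d (st m)) < dot P (d (st m)) ∧
      dot P (d (st m)) < dot (x (lat m u s)) (d (st m)) ∧
      ∃ z, z ∈ segment ℝ P Q ∧ z ∈ openSegment ℝ (x (lat m s u)) (e (lat m s u) (st m)) ∧
        dot z (d m) = dot (x (lat m s u)) (d m) := by
  classical
  have hn : 2 ≤ n := by omega
  have hs : s < n := by omega
  have hP' : ∀ m, dot P (d m) < dot (x (lat m s u)) (d m) := hP
  have hQ' : ∃ m, dot (x (lat m s u)) (d m) ≤ dot Q (d m) := by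
    by_contra h
    push Not at h
    exact hQ h
  set M : Finset (Fin 4) := Finset.univ.filter
    (fun m => dot (x (lat m s u)) (d m) ≤ dot Q (d m)) with hM
  have hMne : M.Nonempty := by
    obtain ⟨m, hm⟩ := hQ'
    exact ⟨m, Finset.mem_filter.mpr ⟨Finset.mem_univ m, hm⟩⟩
  set r : Fin 4 → ℝ := fun m =>
    (dot (x (lat m s u)) (d m) - dot P (d m)) / (dot Q (d m) - dot P (d m)) with hr
  obtain ⟨m, hmM, hmin⟩ := Finset.exists_min_image M r hMne
  have hmQ : dot (x (lat m s u)) (d m) ≤ dot Q (d m) := (Finset.mem_filter.mp hmM).2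
  have hmP := hP' m
  have hden : 0 < dot Q (d m) - dot P (d m) := by linarith
  have hrm0 : 0 < r m := div_pos (by linarith) hden
  have hrm1 : r m ≤ 1 := by
    rw [hr]
    show _ / _ ≤ (1 : ℝ)
    rw [div_le_one hden]
    linarith
  have hlvn : lat m s u < n := by
    rcases exit_latc m s u with h | h <;> rw [h] <;> assumption
  have hlvn' : lat m u s < n := by
    rcases exit_latc m u s with h | h <;> rw [h] <;> assumption
  set z : Pt := P + r m • (Q - P) with hzdef
  have hz : z ∈ segment ℝ P Q := by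
    refine ⟨1 - r m, r m, by linarith, hrm0.le, by ring, ?_⟩
    rw [hzdef]
    module
  have hcz : ∀ k, dot z (d k) = dot P (d k) + r m * (dot Q (d k) - dot P (d k)) := by
    intro k
    rw [hzdef, dot_add, dot_smul, dot_sub]
  have hzm : dot z (d m) = dot (x (lat m s u)) (d m) := by
    rw [hcz]
    have : r m * (dot Q (d m) - dot P (d m)) = dot (x (lat m s u)) (d m) - dot P (d m) := by
      rw [hr]
      show _ / _ * _ = _
      exact div_mul_cancel₀ _ hden.ne'
    rw [this]
    ring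
  have hzk : ∀ k, dot z (d k) ≤ dot (x (lat k s u)) (d k) := by
    intro k
    by_cases hk : k ∈ M
    · have h1 : dot (x (lat k s u)) (d k) ≤ dot Q (d k) := (Finset.mem_filter.mp hk).2
      have h2 := hP' k
      have h3 : 0 < dot Q (d k) - dot P (d k) := by linarith
      have h4 := hmin k hk
      have h5 : r k * (dot Q (d k) - dot P (d k)) = dot (x (lat k s u)) (d k) - dot P (d k) := by
        rw [hr]
        show _ / _ * _ = _
        exact div_mul_cancel₀ _ h3.ne'
      rw [hcz]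
      have h6 := mul_le_mul_of_nonneg_right h4 h3.le
      linarith
    · have h1 : dot Q (d k) < dot (x (lat k s u)) (d k) := by
        by_contra h2
        exact hk (Finset.mem_filter.mpr ⟨Finset.mem_univ k, not_lt.mp h2⟩)
      exact dot_segment_le hz (hP' k).le h1.le
  -- the coordinate in the direction `st m`
  have hexp := W.expand m (z - x (lat m s u))
  rw [dot_sub, dot_sub, hzm, sub_self, zero_smul, zero_add] at hexp
  set μ := dot z (d (st m)) - dot (x (lat m s u)) (d (st m)) with hμ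
  have hobt : dot (d (st m)) (d (op m)) < 0 := by
    have := W.obtuse hn (st m)
    rwa [st_st] at this
  have hμ0 : 0 ≤ μ := by
    have h1 := hzk (op m)
    rw [lat_op] at h1
    have h2 : dot z (d (op m)) - dot (x (lat m s u)) (d (op m)) =
        μ * dot (d (st m)) (d (op m)) := by
      rw [← dot_sub, hexp, dot_smul]
    by_contra h3
    push Not at h3
    have h4 := mul_pos_of_neg_of_neg h3 hobt
    linarith
  have hst : dot z (d (st m)) ≤ dot (x (lat m u s)) (d (st m)) := by
    have := hzk (st m)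
    rwa [lat_st] at this
  have hzw : z ∈ segment ℝ (x (lat m s u)) (e (lat m s u) (st m)) := by
    refine exit_wall W hlvn (st m) ?_ (by linarith) ?_
    · rw [st_st]
      exact hzm
    · exact lt_of_le_of_lt hst (W.long _ _ hlvn hlvn' (st m))
  obtain ⟨hzo, hperp⟩ := hw (lat m s u) (exit_latc m s u) (st m) z hz hzw
  have hperp' := exit_perp W hlvn (st m) hperp
  have hQP := W.expand m (Q - P)
  rw [hperp', zero_smul, add_zero] at hQP
  have hPz : dot P (d (st m)) = dot z (d (st m)) := by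
    rw [hcz, ← dot_sub, hperp', mul_zero, add_zero]
  have hopen := exit_open W hlvn (st m) hzo
  refine ⟨m, ⟨dot (Q - P) (d m), by rw [dot_sub]; exact hden, hQP⟩, hmQ, by rw [hPz]; exact hopen, ?_,
    z, hz, hzo, hzm⟩
  rw [hPz]
  refine lt_of_le_of_ne hst (fun heq => ?_)
  have hmono := W.mono m (lat m u s) (lat m s u) hlvn' hlvn (exit_lat m hsu)
  have hzw' : z ∈ segment ℝ (x (lat m u s)) (e (lat m u s) m) := by
    refine exit_wall W hlvn' m heq ?_ ?_
    · rw [hzm]
      exact hmono.le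
    · rw [hzm]
      exact W.long _ _ hlvn' hlvn m
  obtain ⟨_, h2⟩ := hw (lat m u s) ((exit_latc m u s).symm) m z hz hzw'
  have h3 := exit_perp W hlvn' m h2
  rw [dot_sub] at h3
  linarith

/-- A legal segment does not meet two cells `K s u`, `K s' u'` with `u ≤ s'`.

Proof: `Q ∉ K s u` (`K_disjoint`). By `exit` there is `m` with `Q - P = l d m`, `l > 0`,
`c_(st m) Q = c_(st m) P > c_(st m) (x (lat m s u))` and `c_m (x (lat m s u)) ≤ c_m Q`.
If `m` is `0` or `2`: `lat m s u = u`, and `Q ∈ K s' u'` gives `c_(st m) Q < c_(st m) (x s')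
≤ c_(st m) (x u)` (`lat (st m) s' u' = s'`, mono), contradiction. If `m` is `1` or `3`:
`lat m s u = s`, `Q ∈ K s' u'` gives `c_m Q < c_m (x s') < c_m (x s)` (mono: `prec m s' s`),
contradiction. -/
theorem notwo (W : Walls n x d e) {s u s' u' : ℕ} (h1 : s < u) (h2 : u ≤ s') (h3 : s' < u')
    (h4 : u' < n) {P Q : Pt} (hP : P ∈ K x d s u) (hQ : Q ∈ K x d s' u')
    (hw : ∀ v, v = s ∨ v = u → ∀ m, Lg P Q (x v) (e v m)) : False := by
  have hQn : Q ∉ K x d s u := fun h => W.K_disjoint h1 h2 h3 h4 h hQ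
  obtain ⟨m, ⟨l, hl, hQP⟩, hm1, hm2, _, _⟩ := W.exit h1 (by omega) hP hQn hw
  by_cases hm : m = 0 ∨ m = 2
  · have e1 : lat m s u = u := if_pos hm
    have e2 : lat (st m) s' u' = s' := by
      rw [lat_st]
      exact if_pos hm
    rw [e1] at hm2
    have h5 : dot Q (d (st m)) = dot P (d (st m)) := by
      have h6 : dot (Q - P) (d (st m)) = 0 := by
        rw [hQP, dot_smul, W.perp m, mul_zero]
      rw [dot_sub] at h6
      linarith
    have h6 := hQ (st m)
    rw [e2] at h6
    rcases h2.eq_or_lt with h7 | h7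
    · subst h7
      linarith
    · have h8 := W.mono (st m) s' u (by omega) (by omega) (by
        rw [prec_st]
        unfold prec
        rw [if_pos hm]
        exact h7)
      linarith
  · have e1 : lat m s u = s := if_neg hm
    have e2 : lat m s' u' = s' := if_neg hm
    rw [e1] at hm1
    have h6 := hQ m
    rw [e2] at h6
    have h8 := W.mono m s' s (by omega) (by omega) (by
      unfold prec
      rw [if_neg hm]
      omega)
    linarith

end Walls
end Pool.Agent.RAC

/-!
# Quadrants and sectors (piece QUAD1)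
-/

namespace Pool.Agent.RAC

private theorem quad1_alg {A B C D P0 P1 Q2 Q3 : ℝ} (hP0 : 0 ≤ P0) (hP1 : 0 ≤ P1) (hQ2 : 0 ≤ Q2)
    (hQ3 : 0 ≤ Q3) (h : A * P1 + B * P0 + C * Q3 + D * Q2 = 0)
    (hs : (0 < A ∧ 0 < B ∧ 0 < C ∧ 0 < D) ∨ (A < 0 ∧ B < 0 ∧ C < 0 ∧ D < 0)) :
    P0 = 0 ∧ P1 = 0 ∧ Q2 = 0 ∧ Q3 = 0 := by
  rcases hs with ⟨hA, hB, hC, hD⟩ | ⟨hA, hB, hC, hD⟩
  · have a1 := mul_nonneg hA.le hP1
    have a2 := mul_nonneg hB.le hP0
    have a3 := mul_nonneg hC.le hQ3
    have a4 := mul_nonneg hD.le hQ2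
    have b1 : A * P1 = 0 := by linarith
    have b2 : B * P0 = 0 := by linarith
    have b3 : C * Q3 = 0 := by linarith
    have b4 : D * Q2 = 0 := by linarith
    exact ⟨(mul_eq_zero.1 b2).resolve_left hB.ne', (mul_eq_zero.1 b1).resolve_left hA.ne',
      (mul_eq_zero.1 b4).resolve_left hD.ne', (mul_eq_zero.1 b3).resolve_left hC.ne'⟩
  · have a1 := mul_nonpos_of_nonpos_of_nonneg hA.le hP1
    have a2 := mul_nonpos_of_nonpos_of_nonneg hB.le hP0
    have a3 := mul_nonpos_of_nonpos_of_nonneg hC.le hQ3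
    have a4 := mul_nonpos_of_nonpos_of_nonneg hD.le hQ2
    have b1 : A * P1 = 0 := by linarith
    have b2 : B * P0 = 0 := by linarith
    have b3 : C * Q3 = 0 := by linarith
    have b4 : D * Q2 = 0 := by linarith
    exact ⟨(mul_eq_zero.1 b2).resolve_left hB.ne, (mul_eq_zero.1 b1).resolve_left hA.ne,
      (mul_eq_zero.1 b4).resolve_left hD.ne, (mul_eq_zero.1 b3).resolve_left hC.ne⟩

private theorem quad1_core {a b c s v1 v2 p1 p2 : ℝ} (h0 : a * a + b * b = 1)
    (h2 : c * c + s * s = 1)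
    (hs : (0 < v1 * a + v2 * b ∧ v1 * -b + v2 * a < 0 ∧ 0 < v1 * c + v2 * s ∧
        v1 * s + v2 * -c < 0) ∨
      (v1 * a + v2 * b < 0 ∧ 0 < v1 * -b + v2 * a ∧ v1 * c + v2 * s < 0 ∧
        0 < v1 * s + v2 * -c))
    (hP0 : 0 ≤ p1 * a + p2 * b) (hP1 : 0 ≤ p1 * -b + p2 * a)
    (hQ2 : 0 ≤ (p1 - v1) * c + (p2 - v2) * s) (hQ3 : 0 ≤ (p1 - v1) * s + (p2 - v2) * -c) :
    False := by
  have key : (v1 * a + v2 * b) * (p1 * -b + p2 * a) + (-(v1 * -b + v2 * a)) * (p1 * a + p2 * b)
      + (v1 * c + v2 * s) * ((p1 - v1) * s + (p2 - v2) * -c)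
      + (-(v1 * s + v2 * -c)) * ((p1 - v1) * c + (p2 - v2) * s) = 0 := by
    linear_combination (v1 * p2 - v2 * p1) * h0 - (v1 * p2 - v2 * p1) * h2
  obtain ⟨e0, e1, e2, e3⟩ := quad1_alg hP0 hP1 hQ2 hQ3 key (by
    rcases hs with ⟨x0, x1, x2, x3⟩ | ⟨x0, x1, x2, x3⟩
    · exact Or.inl ⟨x0, by linarith, x2, by linarith⟩
    · exact Or.inr ⟨x0, by linarith, x2, by linarith⟩)
  have f1 : p1 = 0 := by linear_combination a * e0 - b * e1 - p1 * h0
  have f2 : p2 = 0 := by linear_combination b * e0 + a * e1 - p2 * h0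
  have f3 : p1 - v1 = 0 := by linear_combination c * e2 + s * e3 - (p1 - v1) * h2
  have f4 : p2 - v2 = 0 := by linear_combination s * e2 - c * e3 - (p2 - v2) * h2
  have g1 : v1 = 0 := by linarith
  have g2 : v2 = 0 := by linarith
  subst g1 g2
  rcases hs with ⟨x0, -⟩ | ⟨x0, -⟩ <;> linarith

private theorem quad1_sec {p q a b : ℝ} (ha : a < 0) :
    (0 ≤ p ∧ 0 ≤ q) ∨ (0 ≤ q * a - p * b ∧ 0 ≤ p * a + q * b) ∨
    (p < 0 ∧ q * a - p * b < 0) ∨ (q < 0 ∧ p * a + q * b < 0) := by
  by_contra hcon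
  push Not at hcon
  obtain ⟨c1, c2, c3, c4⟩ := hcon
  rcases le_or_gt 0 p with hp | hp
  · have hq := c1 hp
    have h4 := c4 hq
    have h5 : q * a - p * b < 0 := by
      by_contra h
      exact absurd (c2 (not_lt.1 h)) (not_lt.2 h4)
    have hqa : 0 < q * a := mul_pos_of_neg_of_neg hq ha
    have hpb : 0 < p * b := by linarith
    have hp0 : 0 < p := by
      rcases hp.eq_or_lt with h | h
      · rw [← h] at hpb; simp at hpb
      · exact h
    have hb : 0 < b := by
      by_contra h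
      have := mul_nonpos_of_nonneg_of_nonpos hp0.le (not_lt.1 h)
      linarith
    have : p * a < 0 := mul_neg_of_pos_of_neg hp0 ha
    have : q * b < 0 := mul_neg_of_neg_of_pos hq hb
    linarith
  · have h3 := c3 hp
    have h5 := c2 h3
    have hq : 0 ≤ q := by
      by_contra h
      exact absurd (c4 (not_le.1 h)) (not_le.2 h5)
    have hpa : 0 < p * a := mul_pos_of_neg_of_neg hp ha
    have hqb : q * b < 0 := by linarith
    have hq0 : 0 < q := by
      rcases hq.eq_or_lt with h | h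
      · rw [← h] at hqb; simp at hqb
      · exact h
    have hb : b < 0 := by
      by_contra h
      have := mul_nonneg hq0.le (not_lt.1 h)
      linarith
    have : q * a < 0 := mul_neg_of_pos_of_neg hq0 ha
    have : 0 < p * b := mul_pos_of_neg_of_neg hp hb
    linarith

namespace Walls

variable {n : ℕ} {x : ℕ → Pt} {d : Fin 4 → Pt} {e : ℕ → Fin 4 → Pt}

/-- The closed left quadrant `w + cone (d 0) (d 1)` of a point `w` and the closed right quadrant
`w' + cone (d 2) (d 3)` of a point `w'` are disjoint, if `w' - w` has the coordinate signs of the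
chain (or the opposite ones).

Proof. `z - w` has `c_0, c_1 ≥ 0` and `z - w'` has `c_2, c_3 ≥ 0`. For `v = w' - w` with
`v·d0 > 0 > v·d1`, `v·d2 > 0 > v·d3`: `crs v (z - w) = (v·d0) ((z-w)·d1) - (v·d1) ((z-w)·d0) ≥ 0`
(`d 0`, `d 1` is a positively oriented orthonormal frame), and in the frame `d 2`, `-d 3`
(positively oriented, as `d 3 = - J (d 2)`):
`crs v (z - w') = - (v·d2) ((z-w')·d3) + (v·d3) ((z-w')·d2) ≤ 0`. But
`crs v (z - w) = crs v (z - w') + crs v v`, so both are `0`, hence `(z-w)·d0 = (z-w)·d1 = 0`,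
`z = w`, and `z = w'` in the same way, contradiction. The other case by symmetry. -/
theorem lr_disj (W : Walls n x d e) {w w' z : Pt}
    (hv : (0 < dot (w' - w) (d 0) ∧ dot (w' - w) (d 1) < 0 ∧ 0 < dot (w' - w) (d 2) ∧
        dot (w' - w) (d 3) < 0) ∨
      (dot (w' - w) (d 0) < 0 ∧ 0 < dot (w' - w) (d 1) ∧ dot (w' - w) (d 2) < 0 ∧
        0 < dot (w' - w) (d 3)))
    (h0 : dot w (d 0) ≤ dot z (d 0)) (h1 : dot w (d 1) ≤ dot z (d 1))
    (h2 : dot w' (d 2) ≤ dot z (d 2)) (h3 : dot w' (d 3) ≤ dot z (d 3)) : False := by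
  have u0 := W.unit 0
  have u2 := W.unit 2
  have r1 := W.rot1
  have r3 := W.rot3
  rw [r1] at h1 hv
  rw [r3] at h3 hv
  simp only [dot, J, Prod.fst_sub, Prod.snd_sub, Prod.fst_neg, Prod.snd_neg, neg_neg] at *
  exact quad1_core (v1 := w'.1 - w.1) (v2 := w'.2 - w.2) (p1 := z.1 - w.1) (p2 := z.2 - w.2)
    u0 u2 hv (by linarith) (by linarith) (by linarith) (by linarith)

/-- the special case of two points of the chain -/
theorem lr_disj_x (W : Walls n x d e) {i j : ℕ} (hi : i < n) (hj : j < n) (hij : i ≠ j) {z : Pt}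
    (h0 : dot (x i) (d 0) ≤ dot z (d 0)) (h1 : dot (x i) (d 1) ≤ dot z (d 1))
    (h2 : dot (x j) (d 2) ≤ dot z (d 2)) (h3 : dot (x j) (d 3) ≤ dot z (d 3)) : False := by
  refine lr_disj W (w := x i) (w' := x j) ?_ h0 h1 h2 h3
  simp only [dot_sub, sub_pos, sub_neg]
  rcases Nat.lt_or_gt_of_ne hij with h | h
  · exact Or.inl ⟨W.mono 0 i j hi hj (by simpa [prec] using h),
      W.mono 1 j i hj hi (by simpa [prec] using h),
      W.mono 2 i j hi hj (by simpa [prec] using h),
      W.mono 3 j i hj hi (by simpa [prec] using h)⟩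
  · exact Or.inr ⟨W.mono 0 j i hj hi (by simpa [prec] using h),
      W.mono 1 i j hi hj (by simpa [prec] using h),
      W.mono 2 j i hj hi (by simpa [prec] using h),
      W.mono 3 i j hi hj (by simpa [prec] using h)⟩

private theorem quad1_a (W : Walls n x d e) (hn : 2 ≤ n) : dot (d 0) (d 3) < 0 := by
  have h := W.obtuse hn 0
  have : op (st 0) = 3 := by decide
  rwa [this] at h

private theorem quad1_d2 (W : Walls n x d e) (v : Pt) :
    dot v (d 2) = dot v (d 1) * dot (d 0) (d 3) - dot v (d 0) * dot (d 1) (d 3) := by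
  have u0 := W.unit 0
  have r1 := W.rot1
  have r3 := W.rot3
  rw [r3, r1]
  simp only [dot, J, Prod.fst_neg, Prod.snd_neg, neg_neg] at *
  linear_combination (-(v.1 * (d 2).1 + v.2 * (d 2).2)) * u0

private theorem quad1_d3 (W : Walls n x d e) (v : Pt) :
    dot v (d 3) = dot v (d 0) * dot (d 0) (d 3) + dot v (d 1) * dot (d 1) (d 3) := by
  have u0 := W.unit 0
  have r1 := W.rot1
  rw [r1]
  simp only [dot, J, Prod.fst_neg, Prod.snd_neg, neg_neg] at *
  linear_combination (-(v.1 * (d 3).1 + v.2 * (d 3).2)) * u0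

/-- The closed left and right quadrants and the open forward and backward sectors of a point `w`
cover the plane. (With `v = z - w = p d0 + q d1`, `a = d0·d3 < 0`, `b = d1·d3`, `a² + b² = 1`:
`v·d3 = p a + q b`, `v·d2 = q a - p b`.) -/
theorem sectors (W : Walls n x d e) (hn : 2 ≤ n) (w z : Pt) :
    (dot w (d 0) ≤ dot z (d 0) ∧ dot w (d 1) ≤ dot z (d 1)) ∨
    (dot w (d 2) ≤ dot z (d 2) ∧ dot w (d 3) ≤ dot z (d 3)) ∨
    (dot z (d 0) < dot w (d 0) ∧ dot z (d 2) < dot w (d 2)) ∨
    (dot z (d 1) < dot w (d 1) ∧ dot z (d 3) < dot w (d 3)) := by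
  have ha := quad1_a W hn
  have e2 := quad1_d2 W (z - w)
  have e3 := quad1_d3 W (z - w)
  have h := quad1_sec (p := dot (z - w) (d 0)) (q := dot (z - w) (d 1)) (b := dot (d 1) (d 3)) ha
  rw [← e2, ← e3] at h
  simpa only [dot_sub, sub_nonneg, sub_neg] using h

/-- no point is both in the forward and in the backward open sector -/
theorem fb_disj (W : Walls n x d e) (hn : 2 ≤ n) {w z : Pt}
    (h0 : dot z (d 0) < dot w (d 0)) (h2 : dot z (d 2) < dot w (d 2))
    (h1 : dot z (d 1) < dot w (d 1)) (h3 : dot z (d 3) < dot w (d 3)) : False := by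
  have ha := quad1_a W hn
  have e2 := quad1_d2 W (z - w)
  have e3 := quad1_d3 W (z - w)
  have k0 : dot (z - w) (d 0) < 0 := by rw [dot_sub]; linarith
  have k1 : dot (z - w) (d 1) < 0 := by rw [dot_sub]; linarith
  have k2 : dot (z - w) (d 2) < 0 := by rw [dot_sub]; linarith
  have k3 : dot (z - w) (d 3) < 0 := by rw [dot_sub]; linarith
  have m1 := mul_pos_of_neg_of_neg k1 ha
  have m2 := mul_pos_of_neg_of_neg k0 ha
  have m3 : 0 < dot (z - w) (d 0) * dot (d 1) (d 3) := by linarith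
  have m4 : dot (z - w) (d 1) * dot (d 1) (d 3) < 0 := by linarith
  rcases lt_trichotomy (dot (d 1) (d 3)) 0 with h | h | h
  · have := mul_pos_of_neg_of_neg k1 h
    linarith
  · rw [h] at m3; simp at m3
  · have := mul_neg_of_neg_of_pos k0 h
    linarith

end Walls
end Pool.Agent.RAC

/-!
# Leaving a sector (piece QUAD2)
-/

namespace Pool.Agent.RAC
namespace Walls

variable {n : ℕ} {x : ℕ → Pt} {d : Fin 4 → Pt} {e : ℕ → Fin 4 → Pt}

/-- two affine functions, the first zero -/
theorem quad2_real {p q p' q' : ℝ} (hp : p < 0) (hq : 0 ≤ q) (hp' : p' < 0) :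
    (∃ t : ℝ, 0 ≤ t ∧ t ≤ 1 ∧ p + t * (q - p) = 0 ∧ p' + t * (q' - p') ≤ 0) ∨
    (0 ≤ q' ∧ ∃ t : ℝ, 0 ≤ t ∧ t ≤ 1 ∧ p' + t * (q' - p') = 0 ∧ p + t * (q - p) ≤ 0) := by
  have h1 : 0 < q - p := by linarith
  have ht0 : (-p) / (q - p) * (q - p) = -p := div_mul_cancel₀ _ h1.ne'
  have ht1 : 0 ≤ (-p) / (q - p) := div_nonneg (by linarith) h1.le
  have ht2 : (-p) / (q - p) ≤ 1 := by
    rw [div_le_one h1]
    linarith
  set t := (-p) / (q - p) with ht
  by_cases h : p' + t * (q' - p') ≤ 0
  · exact Or.inl ⟨t, ht1, ht2, by linarith, h⟩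
  · right
    push Not at h
    have h2 : 0 < t * (q' - p') := by linarith
    have h3 : 0 < q' - p' := by
      by_contra h4
      push Not at h4
      have := mul_nonpos_of_nonneg_of_nonpos ht1 h4
      linarith
    have h4 : t * (q' - p') ≤ 1 * (q' - p') := mul_le_mul_of_nonneg_right ht2 h3.le
    have hu0 : (-p') / (q' - p') * (q' - p') = -p' := div_mul_cancel₀ _ h3.ne'
    have hu1 : 0 ≤ (-p') / (q' - p') := div_nonneg (by linarith) h3.le
    have hu2 : (-p') / (q' - p') ≤ 1 := by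
      rw [div_le_one h3]
      linarith
    set u := (-p') / (q' - p') with hu
    refine ⟨by linarith, u, hu1, hu2, by linarith, ?_⟩
    have h5 : u < t := by
      by_contra h6
      push Not at h6
      have := mul_le_mul_of_nonneg_right h6 h3.le
      linarith
    have h6 : u * (q - p) ≤ t * (q - p) := mul_le_mul_of_nonneg_right h5.le h1.le
    linarith

theorem quad2_op {b : Bool} {m : Fin 4} (h : (m = 0 ∨ m = 2 ↔ b = true)) :
    (op m = 0 ∨ op m = 2 ↔ b = true) := by
  rw [← h]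
  fin_cases m <;> simp [op]

/-- Leaving a sector. Let `w` be a point with walls `g m = w + l m • d m`. `b = true`: the open
backward sector `{c_0 < c_0 w, c_2 < c_2 w}`, bounded by the rays `d 1`, `d 3`; `b = false`: the
open forward sector `{c_1 < c_1 w, c_3 < c_3 w}`, bounded by the rays `d 0`, `d 2`. If a segment
`P Q` starts in the sector, does not end in it, is legal with respect to the walls, and its points
do not reach beyond the ends of the walls (`hr`), then it leaves the sector in the direction of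
`d m`, crossing the wall `st m` of `w`, where `m ∈ {0, 2}` for `b = true`, `m ∈ {1, 3}` for
`b = false`; so its end `Q` satisfies `c_m Q ≥ c_m w` and `c_(st m) Q > c_(st m) w`.

Proof (b = true). The two functions `c_0 - c_0 w`, `c_2 - c_2 w` are negative at `P`, and one is
`≥ 0` at `Q`; take the first parameter where one of them vanishes, point `z`, say `c_m z = c_m w`,
`m ∈ {0, 2}`, `c_(op m) z ≤ c_(op m) w`. `z = w + μ d (st m)`; `c_(op m) z - c_(op m) w =
μ d(st m)·d(op m)` and `d(st m)·d(op m) < 0` (`obtuse`), so `μ ≥ 0`; and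
`μ ≤ l (st m)` as `c_(st m) z ≤ c_(st m) (g (st m))` (`hr`). So `z` is on the wall `st m`, interior
and `Q - P ⟂ d (st m)` by legality, etc. `c_(st m) Q = c_(st m) z > c_(st m) w`. -/
theorem exit_sector (W : Walls n x d e) (hn : 2 ≤ n) (b : Bool) {w : Pt} {g : Fin 4 → Pt}
    (hg : ∀ m, ∃ l : ℝ, 0 < l ∧ g m = w + l • d m) {P Q : Pt}
    (hP : ∀ m, (m = 0 ∨ m = 2 ↔ b = true) → dot P (d m) < dot w (d m))
    (hQ : ¬ ∀ m, (m = 0 ∨ m = 2 ↔ b = true) → dot Q (d m) < dot w (d m))
    (hr : ∀ m, dot P (d m) < dot (g m) (d m) ∧ dot Q (d m) < dot (g m) (d m))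
    (hw : ∀ m, Lg P Q w (g m)) :
    ∃ m, (m = 0 ∨ m = 2 ↔ b = true) ∧ (∃ l : ℝ, 0 < l ∧ Q - P = l • d m) ∧
      dot w (d m) ≤ dot Q (d m) ∧ dot w (d (st m)) < dot Q (d (st m)) := by
  -- the values along the segment
  have hpar : ∀ (t : ℝ) (m : Fin 4), dot (P + t • (Q - P)) (d m) =
      dot P (d m) + t * (dot Q (d m) - dot P (d m)) := by
    intro t m
    rw [dot_add, dot_smul, dot_sub]
  obtain ⟨m, hm, hQm, t, ht0, ht1, hz1, hz2⟩ : ∃ m, (m = 0 ∨ m = 2 ↔ b = true) ∧
      dot w (d m) ≤ dot Q (d m) ∧ ∃ t : ℝ, 0 ≤ t ∧ t ≤ 1 ∧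
      dot (P + t • (Q - P)) (d m) = dot w (d m) ∧
      dot (P + t • (Q - P)) (d (op m)) ≤ dot w (d (op m)) := by
    push Not at hQ
    obtain ⟨m, hm, hQm⟩ := hQ
    have h1 := hP m hm
    have h2 := hP (op m) (quad2_op hm)
    have h3 := quad2_real (p := dot P (d m) - dot w (d m)) (q := dot Q (d m) - dot w (d m))
      (p' := dot P (d (op m)) - dot w (d (op m))) (q' := dot Q (d (op m)) - dot w (d (op m)))
      (by linarith) (by linarith) (by linarith)
    rcases h3 with ⟨t, ht0, ht1, h4, h5⟩ | ⟨h6, t, ht0, ht1, h4, h5⟩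
    · refine ⟨m, hm, hQm, t, ht0, ht1, ?_, ?_⟩
      · rw [hpar]
        linarith
      · rw [hpar]
        linarith
    · refine ⟨op m, quad2_op hm, by linarith, t, ht0, ht1, ?_, ?_⟩
      · rw [hpar]
        linarith
      · rw [hpar, op_op]
        linarith
  obtain ⟨z, hz⟩ : ∃ z : Pt, z = P + t • (Q - P) := ⟨_, rfl⟩
  rw [← hz] at hz1 hz2
  have hzs : z ∈ segment ℝ P Q := by
    rw [segment_eq_image', hz]
    exact ⟨t, ⟨ht0, ht1⟩, rfl⟩
  have hPm := hP m hm
  -- the point on the wall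
  obtain ⟨l, hl, hgl⟩ := hg (st m)
  have hu1 := W.unit (st m)
  have hperp := W.perp m
  have hzw : z - w = (dot z (d (st m)) - dot w (d (st m))) • d (st m) := by
    have h1 := W.expand m (z - w)
    rw [dot_sub, dot_sub, hz1, sub_self, zero_smul, zero_add] at h1
    exact h1
  obtain ⟨μ, hμ⟩ : ∃ μ : ℝ, μ = dot z (d (st m)) - dot w (d (st m)) := ⟨_, rfl⟩
  rw [← hμ] at hzw
  have hob := W.obtuse hn (st m)
  rw [st_st] at hob
  have hμ0 : 0 ≤ μ := by
    by_contra h
    push Not at h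
    have h1 : dot (z - w) (d (op m)) = μ * dot (d (st m)) (d (op m)) := by
      rw [hzw, dot_smul]
    rw [dot_sub] at h1
    have h2 : 0 < μ * dot (d (st m)) (d (op m)) := mul_pos_of_neg_of_neg h hob
    linarith
  have hμl : μ < l := by
    have h1 := dot_segment_lt hzs (hr (st m)).1 (hr (st m)).2
    rw [hgl, dot_add, dot_smul, hu1, mul_one] at h1
    linarith
  have hzg : z ∈ segment ℝ w (g (st m)) := by
    rw [segment_eq_image']
    refine ⟨μ / l, ⟨div_nonneg hμ0 hl.le, ?_⟩, ?_⟩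
    · rw [div_le_one hl]
      exact hμl.le
    · simp only [hgl, add_sub_cancel_left, smul_smul]
      rw [div_mul_cancel₀ _ hl.ne', ← hzw]
      abel
  obtain ⟨ho, hd⟩ := hw (st m) z hzs hzg
  have hd' : dot Q (d (st m)) = dot P (d (st m)) := by
    rw [hgl, add_sub_cancel_left, dot_smul', dot_sub] at hd
    rcases mul_eq_zero.1 hd with h | h
    · exact absurd h hl.ne'
    · linarith
  refine ⟨m, hm, ⟨dot Q (d m) - dot P (d m), by linarith, ?_⟩, hQm, ?_⟩
  · have h1 := W.expand m (Q - P)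
    rw [dot_sub, dot_sub, hd', sub_self, zero_smul, add_zero] at h1
    exact h1
  · have h1 : dot z (d (st m)) = dot Q (d (st m)) := by
      rw [hz, hpar, hd']
      ring
    rw [← h1]
    rw [openSegment_eq_image'] at ho
    obtain ⟨s, ⟨hs0, -⟩, hs⟩ := ho
    simp only [hgl, add_sub_cancel_left, smul_smul] at hs
    rw [← hs, dot_add, dot_smul, hu1, mul_one]
    have := mul_pos hs0 hl
    linarith

end Walls
end Pool.Agent.RAC

/-!
# Fenced arms on the same side are perpendicular (piece LONE)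
-/

namespace Pool.Agent.RAC

theorem LONE_crs_add (a b c : Pt) : crs (a + b) c = crs a c + crs b c := by simp [crs]; ring
theorem LONE_crs_sub (a b c : Pt) : crs (a - b) c = crs a c - crs b c := by simp [crs]; ring
theorem LONE_crs_smul (r : ℝ) (a c : Pt) : crs (r • a) c = r * crs a c := by simp [crs]; ring
theorem LONE_crs_self (a : Pt) : crs a a = 0 := by simp [crs]; ring

theorem LONE_ext {δ z w : Pt} (hu : dot δ δ = 1) (h1 : dot z δ = dot w δ)
    (h2 : crs z δ = crs w δ) : z = w := by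
  have e : ∀ u : Pt, u.1 = dot u δ * δ.1 + crs u δ * δ.2 ∧
      u.2 = dot u δ * δ.2 - crs u δ * δ.1 := by
    intro u
    unfold dot at hu
    unfold dot crs
    constructor
    · linear_combination (-u.1) * hu
    · linear_combination (-u.2) * hu
  refine Prod.ext ?_ ?_
  · rw [(e z).1, (e w).1, h1, h2]
  · rw [(e z).2, (e w).2, h1, h2]

theorem LONE_r1 {δ δ' : Pt} (hu : dot δ δ = 1) (z : Pt) :
    crs δ δ' * dot z δ = crs z δ' - dot δ δ' * crs z δ := by
  unfold dot at hu
  unfold dot crs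
  linear_combination (z.1 * δ'.2 - z.2 * δ'.1) * hu

theorem LONE_r2 {δ δ' : Pt} (hu' : dot δ' δ' = 1) (z : Pt) :
    crs δ δ' * dot z δ' = dot δ δ' * crs z δ' - crs z δ := by
  unfold dot at hu'
  unfold dot crs
  linear_combination (-(z.1 * δ.2 - z.2 * δ.1)) * hu'

theorem LONE_r3 {δ δ' : Pt} (hu : dot δ δ = 1) (hu' : dot δ' δ' = 1) :
    crs δ δ' ^ 2 + dot δ δ' ^ 2 = 1 := by
  unfold dot at hu hu'
  unfold dot crs
  linear_combination (δ'.1 ^ 2 + δ'.2 ^ 2) * hu + hu'

/-- the point with given coordinates -/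
theorem LONE_pt {δ δ' : Pt} (hσ : crs δ δ' ≠ 0) (x y : ℝ) :
    ∃ z : Pt, crs z δ = x ∧ crs z δ' = y := by
  refine ⟨(y / crs δ δ') • δ - (x / crs δ δ') • δ', ?_, ?_⟩
  · rw [LONE_crs_sub, LONE_crs_smul, LONE_crs_smul, LONE_crs_self]
    have h : crs δ' δ = - crs δ δ' := by unfold crs; ring
    rw [h]
    field_simp
    ring
  · rw [LONE_crs_sub, LONE_crs_smul, LONE_crs_smul, LONE_crs_self]
    field_simp
    ring

theorem LONE_side {a e : Fin 3 → Pt} {δ f1 f2 : Pt} (hu : dot δ δ = 1)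
    (hs : ∀ i j, i < j → 0 < crs (a j - a i) δ)
    (he : ∀ i, ∃ l : ℝ, 0 < l ∧ e i = a i + l • δ)
    (hf : ∀ i, Xx (f1, f2) (a i, e i)) (hfp : dot (f2 - f1) δ = 0) :
    (∀ i, dot (a i) δ < dot f1 δ) ∧
    (∀ i z, crs z δ = crs (a i) δ → dot (a i) δ ≤ dot z δ → dot z δ ≤ dot f1 δ →
      z ∈ segment ℝ (a i) (e i)) ∧
    (∀ i j z, i < j → crs (a i) δ ≤ crs z δ → crs z δ ≤ crs (a j) δ → dot z δ = dot f1 δ →
      z ∈ segment ℝ f1 f2) ∧ crs (f2 - f1) δ ≠ 0 := by
  have hfp' : dot f2 δ = dot f1 δ := by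
    rw [dot_sub] at hfp
    linarith
  have hY : ∀ i, ∃ Y : Pt, ∃ l : ℝ, 0 < l ∧ e i = a i + l • δ ∧ Y ∈ openSegment ℝ f1 f2 ∧
      crs Y δ = crs (a i) δ ∧ dot Y δ = dot f1 δ ∧ dot (a i) δ < dot f1 δ ∧
      dot f1 δ < dot (a i) δ + l := by
    intro i
    obtain ⟨l, hl, hel⟩ := he i
    obtain ⟨Y, h1, h2⟩ := hf i
    have h3 : dot Y δ = dot f1 δ := by
      obtain ⟨α, β, hα, hβ, hαβ, rfl⟩ := h1
      show dot (α • f1 + β • f2) δ = _
      rw [dot_add, dot_smul, dot_smul, hfp', ← add_mul, hαβ, one_mul]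
    refine ⟨Y, l, hl, hel, h1, ?_, h3, ?_, ?_⟩
    all_goals
      obtain ⟨α, β, hα, hβ, hαβ, hY⟩ := h2
      have hY' : Y = a i + (β * l) • δ := by
        rw [← hY]
        show α • a i + β • e i = _
        rw [hel, smul_add, smul_smul, ← add_assoc, ← add_smul, hαβ, one_smul]
    · rw [hY', LONE_crs_add, LONE_crs_smul, LONE_crs_self, mul_zero, add_zero]
    · rw [← h3, hY', dot_add, dot_smul, hu, mul_one]
      linarith [mul_pos hβ hl]
    · rw [← h3, hY', dot_add, dot_smul, hu, mul_one]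
      have h5 : β < 1 := by linarith
      nlinarith
  refine ⟨fun i => ?_, fun i z h1 h2 h3 => ?_, fun i j z hij h1 h2 h3 => ?_, fun h => ?_⟩
  · obtain ⟨_, _, _, _, _, _, _, h, _⟩ := hY i
    exact h
  · obtain ⟨Y, l, hl, hel, _, _, _, _, h4⟩ := hY i
    have hz : z = a i + (dot z δ - dot (a i) δ) • δ := by
      refine LONE_ext hu ?_ ?_
      · rw [dot_add, dot_smul, hu]
        ring
      · rw [LONE_crs_add, LONE_crs_smul, LONE_crs_self, h1]
        ring
    refine ⟨1 - (dot z δ - dot (a i) δ) / l, (dot z δ - dot (a i) δ) / l, ?_, ?_, by ring, ?_⟩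
    · rw [sub_nonneg, div_le_one hl]
      linarith
    · exact div_nonneg (by linarith) hl.le
    · conv_rhs => rw [hz]
      rw [hel, smul_add, smul_smul, div_mul_cancel₀ _ hl.ne', ← add_assoc, ← add_smul,
        sub_add_cancel, one_smul]
  · obtain ⟨Y, _, _, _, hYi, hc, hd, _, _⟩ := hY i
    obtain ⟨Y', _, _, _, hYj, hc', hd', _, _⟩ := hY j
    have hlt : 0 < crs (a j) δ - crs (a i) δ := by
      have h4 := hs i j hij
      rw [LONE_crs_sub] at h4
      exact h4
    set t : ℝ := (crs z δ - crs (a i) δ) / (crs (a j) δ - crs (a i) δ) with ht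
    have ht0 : 0 ≤ t := div_nonneg (by linarith) hlt.le
    have ht1 : t ≤ 1 := by
      rw [ht, div_le_one hlt]
      linarith
    have hz : z = (1 - t) • Y + t • Y' := by
      refine LONE_ext hu ?_ ?_
      · rw [dot_add, dot_smul, dot_smul, hd, hd', h3]
        ring
      · rw [LONE_crs_add, LONE_crs_smul, LONE_crs_smul, hc, hc']
        have h5 : t * (crs (a j) δ - crs (a i) δ) = crs z δ - crs (a i) δ := by
          rw [ht, div_mul_cancel₀ _ hlt.ne']
        linear_combination -h5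
    rw [hz]
    exact (convex_segment f1 f2) (openSegment_subset_segment ℝ _ _ hYi)
      (openSegment_subset_segment ℝ _ _ hYj) (by linarith) ht0 (by ring)
  · have hff : f2 = f1 := by
      have h6 : f2 - f1 = 0 := by
        refine LONE_ext (w := 0) hu ?_ ?_
        · rw [hfp]
          simp [dot]
        · rw [h]
          simp [crs]
      exact sub_eq_zero.mp h6
    obtain ⟨Y, _, _, _, hYi, hc, _, _, _⟩ := hY 0
    obtain ⟨Y', _, _, _, hYj, hc', _, _, _⟩ := hY 1
    rw [hff, openSegment_same] at hYi hYj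
    have h4 := hs 0 1 (by decide)
    rw [LONE_crs_sub, ← hc, ← hc', Set.mem_singleton_iff.mp hYi, Set.mem_singleton_iff.mp hYj,
      sub_self] at h4
    exact lt_irrefl _ h4

theorem LONE_star {xi xj yj A B k : ℝ} (hk : 0 < k) (hA : yj < A + k * xj)
    (α : ¬ (yj ≤ A + k * xi ∧ k * yj - B ≤ xi))
    (β : ∀ x, A + k * x = yj → xi ≤ x → x ≤ xj → k * yj - B ≤ x → False) :
    xi < k * yj - B ∧ yj < A + k * (k * yj - B) := by
  by_cases h : yj ≤ A + k * xi
  · have h1 : xi < k * yj - B := by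
      by_contra h2
      exact α ⟨h, not_lt.mp h2⟩
    exact ⟨h1, by nlinarith⟩
  · rw [not_le] at h
    have e : k * ((yj - A) / k) = yj - A := mul_div_cancel₀ _ hk.ne'
    have h1 : xi < (yj - A) / k := by
      rw [lt_div_iff₀ hk]
      linarith
    have h2 : (yj - A) / k < xj := by
      rw [div_lt_iff₀ hk]
      linarith
    have h3 : (yj - A) / k < k * yj - B := by
      by_contra h4
      exact β _ (by rw [e]; ring) h1.le h2.le (not_lt.mp h4)
    refine ⟨h1.trans h3, ?_⟩
    nlinarith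

theorem LONE_core {x y : Fin 3 → ℝ} {A B k : ℝ} (hk : k ≠ 0) (hx : ∀ i j, i < j → x i < x j)
    (hy : ∀ i j, i < j → y i < y j) (hA : ∀ i, y i < A + k * x i)
    (hB : ∀ i, k * y i - B < x i)
    (α : ∀ i j, i < j → ¬ (y j ≤ A + k * x i ∧ k * y j - B ≤ x i))
    (β : ∀ i j, i < j → ∀ u, A + k * u = y j → x i ≤ u → u ≤ x j → k * y j - B ≤ u → False)
    (γ : ∀ i j, i < j → ∀ v, k * v - B = x i → y i ≤ v → v ≤ y j → v ≤ A + k * x i → False) :
    False := by
  have hx01 := hx 0 1 (by decide)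
  have hx12 := hx 1 2 (by decide)
  have hy01 := hy 0 1 (by decide)
  have hy12 := hy 1 2 (by decide)
  rcases lt_or_gt_of_ne hk with hk | hk
  · refine α 0 1 (by decide) ⟨?_, ?_⟩
    · nlinarith [hA 1]
    · nlinarith [hB 0]
  · obtain ⟨h1, h2⟩ := LONE_star hk (hA 1) (α 0 1 (by decide)) (β 0 1 (by decide))
    obtain ⟨h3, h4⟩ := LONE_star hk (hA 2) (α 1 2 (by decide)) (β 1 2 (by decide))
    have e : k * ((x 1 + B) / k) = x 1 + B := mul_div_cancel₀ _ hk.ne'
    set v : ℝ := (x 1 + B) / k with hv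
    have h5 : y 1 < v := by
      rw [hv, lt_div_iff₀ hk]
      linarith [hB 1]
    have h6 : v < y 2 := by
      rw [hv, div_lt_iff₀ hk]
      linarith
    refine γ 1 2 (by decide) v (by linarith) h5.le h6.le ?_
    have h7 : k * v - B = x 1 := by linarith
    rw [← h7]
    by_contra h8
    rw [not_le] at h8
    have h9 : 0 < (y 2 - v) * (v - A - k * (k * v - B)) := by
      apply mul_pos <;> linarith
    have h10 : 0 < (v - y 1) * (A + k * (k * y 2 - B) - y 2) := by
      apply mul_pos <;> linarith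
    have h11 : 0 < (y 2 - v) * (A + k * (k * y 1 - B) - y 1) := by
      apply mul_pos <;> linarith
    have h12 : 0 < (v - y 1) * (v - A - k * (k * v - B)) := by
      apply mul_pos <;> linarith
    nlinarith

theorem LONE_main {a e e' : Fin 3 → Pt} {δ δ' f1 f2 f1' f2' : Pt}
    (hu : dot δ δ = 1) (hu' : dot δ' δ' = 1)
    (hs : ∀ i j, i < j → 0 < crs (a j - a i) δ) (hs' : ∀ i j, i < j → 0 < crs (a j - a i) δ')
    (he : ∀ i, ∃ l : ℝ, 0 < l ∧ e i = a i + l • δ)
    (he' : ∀ i, ∃ l : ℝ, 0 < l ∧ e' i = a i + l • δ')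
    (hf : ∀ i, Xx (f1, f2) (a i, e i)) (hf' : ∀ i, Xx (f1', f2') (a i, e' i))
    (hfp : dot (f2 - f1) δ = 0) (hfp' : dot (f2' - f1') δ' = 0)
    (h1 : ∀ i j, i ≠ j → Ok (a i, e i) (a j, e' j))
    (h2 : ∀ i, Ok (f1, f2) (a i, e' i)) (h3 : ∀ i, Ok (f1', f2') (a i, e i))
    (hσ : 0 < crs δ δ') (hk : dot δ δ' ≠ 0) : False := by
  obtain ⟨p1, p2, p3, p4⟩ := LONE_side hu hs he hf hfp
  obtain ⟨q1, q2, q3, q4⟩ := LONE_side hu' hs' he' hf' hfp'
  have r1 := fun z => LONE_r1 (δ' := δ') hu z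
  have r2 := fun z => LONE_r2 (δ := δ) hu' z
  have r3 := LONE_r3 hu hu'
  have hcomm : dot δ' δ = dot δ δ' := dot_comm _ _
  set k := dot δ δ' with hkdef
  set σ := crs δ δ' with hσdef
  have fence : ∀ v : Pt, dot v δ = 0 → dot v δ' = 0 → crs v δ = 0 ∧ crs v δ' = 0 := by
    intro v hv hv'
    have e1 := r1 v
    have e2 := r2 v
    rw [hv, mul_zero] at e1
    rw [hv', mul_zero] at e2
    have e3 : σ ^ 2 * crs v δ = 0 := by linear_combination (crs v δ) * r3 - k * e1 + e2
    have e4 : crs v δ = 0 := by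
      rcases mul_eq_zero.mp e3 with h | h
      · exact absurd (pow_eq_zero_iff (two_ne_zero)|>.mp h) hσ.ne'
      · exact h
    refine ⟨e4, ?_⟩
    rw [e4] at e1
    linarith
  have cs : ∀ (i j : Fin 3) (d : Pt), crs (a j - a i) d = crs (a j) d - crs (a i) d :=
    fun i j d => LONE_crs_sub _ _ _
  have arm : ∀ i z, crs z δ = crs (a i) δ → crs (a i) δ' ≤ crs z δ' →
      crs z δ' ≤ σ * dot f1 δ + k * crs (a i) δ → z ∈ segment ℝ (a i) (e i) := by
    intro i z ha hb hc
    refine p2 i z ha ?_ ?_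
    · refine le_of_mul_le_mul_left ?_ hσ
      rw [r1, r1, ha]
      linarith
    · refine le_of_mul_le_mul_left ?_ hσ
      rw [r1 z, ha]
      linarith
  have arm' : ∀ j z, crs z δ' = crs (a j) δ' → crs z δ ≤ crs (a j) δ →
      k * crs (a j) δ' - σ * dot f1' δ' ≤ crs z δ → z ∈ segment ℝ (a j) (e' j) := by
    intro j z ha hb hc
    refine q2 j z ha ?_ ?_
    · refine le_of_mul_le_mul_left ?_ hσ
      rw [r2, r2, ha]
      linarith
    · refine le_of_mul_le_mul_left ?_ hσ
      rw [r2 z, ha]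
      linarith
  refine LONE_core (x := fun i => crs (a i) δ) (y := fun i => crs (a i) δ')
    (A := σ * dot f1 δ) (B := σ * dot f1' δ') hk ?_ ?_ ?_ ?_ ?_ ?_ ?_
  · intro i j hij
    have h := hs i j hij
    rw [cs] at h
    exact sub_pos.mp h
  · intro i j hij
    have h := hs' i j hij
    rw [cs] at h
    exact sub_pos.mp h
  · intro i
    have h := mul_lt_mul_of_pos_left (p1 i) hσ
    rw [r1] at h
    show crs (a i) δ' < σ * dot f1 δ + k * crs (a i) δ
    linarith
  · intro i
    have h := mul_lt_mul_of_pos_left (q1 i) hσ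
    rw [r2] at h
    show k * crs (a i) δ' - σ * dot f1' δ' < crs (a i) δ
    linarith
  · rintro i j hij ⟨ha, hb⟩
    obtain ⟨z, hz, hz'⟩ := LONE_pt hσ.ne' (crs (a i) δ) (crs (a j) δ')
    have h4 := hs i j hij
    have h5 := hs' i j hij
    rw [cs] at h4 h5
    have m1 : z ∈ segment ℝ (a i) (e i) := by
      refine arm i z hz ?_ ?_
      · rw [hz']
        linarith
      · rw [hz']
        exact ha
    have m2 : z ∈ segment ℝ (a j) (e' j) := by
      refine arm' j z hz' ?_ ?_
      · rw [hz]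
        linarith
      · rw [hz]
        exact hb
    have h6 := (h1 i j hij.ne z m1 m2).2.2
    obtain ⟨l, hl, hel⟩ := he i
    obtain ⟨l', hl', hel'⟩ := he' j
    have h7 : dot (e i - a i) (e' j - a j) = 0 := h6
    rw [hel, hel', add_sub_cancel_left, add_sub_cancel_left, dot_smul, dot_smul'] at h7
    have h8 : l * (l' * k) = 0 := h7
    exact (mul_pos hl hl').ne' ((mul_eq_zero.mp (by linarith : l * l' * k = 0)).resolve_right hk)
  · intro i j hij u hu1 hu2 hu3 hu4
    obtain ⟨z, hz, hz'⟩ := LONE_pt hσ.ne' u (crs (a j) δ')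
    have m1 : z ∈ segment ℝ f1 f2 := by
      refine p3 i j z hij ?_ ?_ ?_
      · rw [hz]
        exact hu2
      · rw [hz]
        exact hu3
      · refine mul_left_cancel₀ hσ.ne' ?_
        rw [r1, hz, hz']
        have h9 : σ * dot f1 δ + k * u = crs (a j) δ' := hu1
        linarith
    have m2 : z ∈ segment ℝ (a j) (e' j) := by
      refine arm' j z hz' ?_ ?_
      · rw [hz]
        exact hu3
      · rw [hz]
        exact hu4
    have h6 : dot (f2 - f1) (e' j - a j) = 0 := (h2 j z m1 m2).2.2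
    obtain ⟨l', hl', hel'⟩ := he' j
    rw [hel', add_sub_cancel_left, dot_smul'] at h6
    exact p4 (fence _ hfp ((mul_eq_zero.mp h6).resolve_left hl'.ne')).1
  · intro i j hij v hv1 hv2 hv3 hv4
    obtain ⟨z, hz, hz'⟩ := LONE_pt hσ.ne' (crs (a i) δ) v
    have m1 : z ∈ segment ℝ f1' f2' := by
      refine q3 i j z hij ?_ ?_ ?_
      · rw [hz']
        exact hv2
      · rw [hz']
        exact hv3
      · refine mul_left_cancel₀ hσ.ne' ?_
        rw [r2, hz, hz']
        have h9 : k * v - σ * dot f1' δ' = crs (a i) δ := hv1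
        linarith
    have m2 : z ∈ segment ℝ (a i) (e i) := by
      refine arm i z hz ?_ ?_
      · rw [hz']
        exact hv2
      · rw [hz']
        exact hv4
    have h6 : dot (f2' - f1') (e i - a i) = 0 := (h3 i z m1 m2).2.2
    obtain ⟨l', hl', hel'⟩ := he i
    rw [hel', add_sub_cancel_left, dot_smul'] at h6
    exact q4 (fence _ ((mul_eq_zero.mp h6).resolve_left hl'.ne') hfp').2

theorem LONE_symm {s t : Pt × Pt} (h : Ok s t) : Ok t s := by
  intro z h1 h2
  obtain ⟨a, b, c⟩ := h z h2 h1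
  refine ⟨b, a, ?_⟩
  unfold dot at *
  linarith

/-- Three points `a 0, a 1, a 2`. From every `a i` there are two arms, `(a i, e i)` in the
direction `δ` and `(a i, e' i)` in the direction `δ'`; all arms `(a i, e i)` are crossed at a
right angle by the segment `(f1, f2)`, all arms `(a i, e' i)` by `(f1', f2')`. The chain `a` moves
to the right of both directions. All these segments of different points are disjoint or cross at
right angles. Then `δ ⟂ δ'`.

Proof. Suppose `dot δ δ' ≠ 0`. The hypotheses are symmetric in the two families; if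
`crs δ δ' = 0` then (unit vectors, both with positive `crs (a 1 - a 0) ·`) `δ = δ'`,
contradiction to `hne`. By symmetry let `crs δ δ' > 0` (the case `< 0` is obtained by exchanging the
roles). Write `c = dot · δ`, `r = crs · δ`, `c' = dot · δ'`, `r' = crs · δ'`; the fence `(f1,f2)` lies
on the line `c = H`, `H > c (a i)` for all `i`, and it contains the points
`Y i = a i + (H - c (a i)) δ`, which lie in the open arm `(a i, e i)`; the same with primes. `r (a i)`
and `r' (a i)` are increasing in `i`. Moving along `δ'` decreases `r` (by `crs δ' δ < 0` per unit),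
moving along `δ` increases `r'`. As `dot δ δ' ≠ 0`, arms of different points in different
directions do not meet, and the fence `f` does not meet the arms `(a i, e' i)` (it would be
perpendicular to `δ` and `δ'`), and `f'` does not meet the arms `(a i, e i)`.

For `i < j` the lines of the arm `δ` of `a i` and of the arm `δ'` of `a j` meet in
`X = a i + λ δ = a j + μ δ'` with `λ = crs (a j - a i) δ' / crs δ δ' > 0`,
`μ = crs (a j - a i) δ / crs δ δ' > 0`.

Case `dot δ δ' < 0`: `c X = c (a j) + μ dot δ δ' < c (a j) < H` so `X` is on the arm `(a i, e i)`;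
`c' X = c' (a i) + λ dot δ δ' < c' (a i) < H'` so `X` is on the arm `(a j, e' j)`: contradiction.

Case `dot δ δ' > 0`. Claim (*): for `i < j` every point `Z` of the arm `(a j, e' j)` satisfies
`c Z < H` and `r Z > r (a i)`. Otherwise take the first point `Z` of the arm with `c Z = H` or
`r Z = r (a i)` (at `a j` we have `c < H` and `r > r (a i)`; along the arm `c` increases and `r`
decreases). If `r Z = r (a i)`, `c Z ≤ H`: `Z = X`, on the line of the arm of `a i`, with
`c Z = c (a i) + λ`, `λ > 0`, so `Z` is on the arm `(a i, e i)`: contradiction. If `c Z = H`,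
`r (a i) < r Z < r (a j)`: `Z` lies between `Y i` and `Y j`, so on the fence: contradiction.
Now consider `j = 1` and the fence `f'`: `Y' 1` is on the arm of `a 1`, so `c (Y' 1) < H` (by (*)
with `i = 0`) and `r (Y' 1) < r (a 1)`; `Y' 2` satisfies `c (Y' 2) < H`, `r (Y' 2) > r (a 1)` by (*)
with `i = 1`, `j = 2`. So the fence `f'` contains a point `w` (between `Y' 1` and `Y' 2`) with
`r w = r (a 1)`, `c w < H`. If `c w ≥ c (a 1)` then `w` is on the arm `(a 1, e 1)`:
contradiction. So `w = a 1 - ω δ` with `ω > 0`, and `H' = c' w = c' (a 1) - ω dot δ δ' < c' (a 1)`,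
contradiction. -/
theorem lone (a e e' : Fin 3 → Pt) (δ δ' f1 f2 f1' f2' : Pt)
    (hu : dot δ δ = 1) (hu' : dot δ' δ' = 1)
    (hs : ∀ i j, i < j → 0 < crs (a j - a i) δ) (hs' : ∀ i j, i < j → 0 < crs (a j - a i) δ')
    (he : ∀ i, ∃ l : ℝ, 0 < l ∧ e i = a i + l • δ)
    (he' : ∀ i, ∃ l : ℝ, 0 < l ∧ e' i = a i + l • δ')
    (hf : ∀ i, Xx (f1, f2) (a i, e i)) (hf' : ∀ i, Xx (f1', f2') (a i, e' i))
    (hfp : dot (f2 - f1) δ = 0) (hfp' : dot (f2' - f1') δ' = 0)
    (h1 : ∀ i j, i ≠ j → Ok (a i, e i) (a j, e' j))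
    (h2 : ∀ i, Ok (f1, f2) (a i, e' i)) (h3 : ∀ i, Ok (f1', f2') (a i, e i))
    (hne : δ ≠ δ') : dot δ δ' = 0 := by
  by_contra hk
  rcases lt_trichotomy (crs δ δ') 0 with hσ | hσ | hσ
  · have hσ' : 0 < crs δ' δ := by
      have h : crs δ' δ = - crs δ δ' := by unfold crs; ring
      linarith
    refine LONE_main hu' hu hs' hs he' he hf' hf hfp' hfp
      (fun i j hij => LONE_symm (h1 j i hij.symm)) h3 h2 hσ' ?_
    rw [dot_comm]
    exact hk
  · have r3 := LONE_r3 hu hu'
    rw [hσ] at r3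
    have h4 : dot δ δ' = 1 ∨ dot δ δ' = -1 := by
      have h5 : (dot δ δ' - 1) * (dot δ δ' + 1) = 0 := by linear_combination r3
      rcases mul_eq_zero.mp h5 with h6 | h6
      · exact Or.inl (by linarith)
      · exact Or.inr (by linarith)
    rcases h4 with h4 | h4
    · refine hne (LONE_ext hu ?_ ?_)
      · rw [hu, dot_comm, h4]
      · rw [LONE_crs_self]
        have h : crs δ' δ = - crs δ δ' := by unfold crs; ring
        linarith
    · have h5 : δ' = (-1 : ℝ) • δ := by
        refine LONE_ext hu ?_ ?_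
        · rw [dot_smul, hu, dot_comm, h4]
          ring
        · rw [LONE_crs_smul, LONE_crs_self]
          have h : crs δ' δ = - crs δ δ' := by unfold crs; ring
          linarith
      have h6 := hs 0 1 (by decide)
      have h7 := hs' 0 1 (by decide)
      rw [h5] at h7
      have h8 : crs (a 1 - a 0) ((-1 : ℝ) • δ) = - crs (a 1 - a 0) δ := by
        simp [crs]
        ring
      linarith
  · exact LONE_main hu hu' hs hs' he he' hf hf' hfp hfp' h1 h2 h3 hσ hk

end Pool.Agent.RAC
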