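import Pool.Agent.Lib_MP_638f75_lc.GDefs

/-!
# Crossing parity (piece PARA)
-/

namespace Pool.Agent.RAC

/-- the lexicographic order of the points -/
def lx (a b : Pt) : Prop := a.1 < b.1 ∨ (a.1 = b.1 ∧ a.2 < b.2)

theorem lx_trichotomy (a b : Pt) : lx a b ∨ a = b ∨ lx b a := by
  rcases lt_trichotomy a.1 b.1 with h | h | h
  · exact Or.inl (Or.inl h)
  · rcases lt_trichotomy a.2 b.2 with h' | h' | h'
    · exact Or.inl (Or.inr ⟨h, h'⟩)
    · exact Or.inr (Or.inl (Prod.ext h h'))
    · exact Or.inr (Or.inr (Or.inr ⟨h.symm, h'⟩))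
  · exact Or.inr (Or.inr (Or.inl h))

theorem lx_irrefl (a : Pt) : ¬ lx a a := by rintro (h | ⟨-, h⟩) <;> exact lt_irrefl _ h

theorem lx_asymm {a b : Pt} (h : lx a b) : ¬ lx b a := by
  rintro (h' | ⟨h', h''⟩) <;> rcases h with h | ⟨h, h3⟩ <;> linarith

theorem lx_trans {a b c : Pt} (h : lx a b) (h' : lx b c) : lx a c := by
  rcases h with h | ⟨h, h1⟩ <;> rcases h' with h' | ⟨h', h2⟩
  · exact Or.inl (h.trans h')
  · exact Or.inl (h' ▸ h)
  · exact Or.inl (h ▸ h')
  · exact Or.inr ⟨h.trans h', h1.trans h2⟩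

open Classical in
/-- `1` if `z` is (lexicographically) between the ends of the segment `s` and below it -/
noncomputable def below (s : Pt × Pt) (z : Pt) : ZMod 2 :=
  if (lx s.1 z ∧ lx z s.2 ∧ crs (s.2 - s.1) (z - s.1) < 0) ∨
    (lx s.2 z ∧ lx z s.1 ∧ crs (s.1 - s.2) (z - s.2) < 0) then 1 else 0

open Classical in
/-- `1` if `z` is (lexicographically) between the ends of the segment `s` and above it -/
noncomputable def above (s : Pt × Pt) (z : Pt) : ZMod 2 :=
  if (lx s.1 z ∧ lx z s.2 ∧ 0 < crs (s.2 - s.1) (z - s.1)) ∨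
    (lx s.2 z ∧ lx z s.1 ∧ 0 < crs (s.1 - s.2) (z - s.2)) then 1 else 0

open Classical in
/-- `1` if `z` is (lexicographically) between `a` and `b` -/
noncomputable def btw (a b z : Pt) : ZMod 2 :=
  if (lx a z ∧ lx z b) ∨ (lx b z ∧ lx z a) then 1 else 0

theorem para_lx_ne {a b : Pt} (h : lx a b) : a ≠ b := fun e => lx_irrefl b (e ▸ h)

theorem para_open {a b z : Pt} (hab : lx a b) (hz : z ∈ openSegment ℝ a b) :
    lx a z ∧ lx z b ∧ crs (b - a) (z - a) = 0 := by
  obtain ⟨u, v, hu, hv, huv, rfl⟩ := hz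
  have hu1 : u = 1 - v := by linarith
  subst hu1
  have hv1 : v < 1 := by linarith
  unfold lx crs at *
  simp only [Prod.fst_add, Prod.snd_add, Prod.smul_fst, Prod.smul_snd, Prod.fst_sub, Prod.snd_sub, smul_eq_mul]
  refine ⟨?_, ?_, by ring⟩
  · rcases hab with h | ⟨h, h'⟩
    · left
      nlinarith
    · right
      refine ⟨by rw [h]; ring, by nlinarith⟩
  · rcases hab with h | ⟨h, h'⟩
    · left
      nlinarith
    · right
      refine ⟨by rw [h]; ring, by nlinarith⟩

theorem para_mem {a b z : Pt} (h1 : lx a z) (h2 : lx z b) (h3 : crs (b - a) (z - a) = 0) :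
    z ∈ openSegment ℝ a b := by
  unfold lx crs at *
  simp only [Prod.fst_sub, Prod.snd_sub] at h3
  by_cases hx : a.1 < b.1
  · have hx' : b.1 - a.1 ≠ 0 := by linarith
    have h4 : a.1 < z.1 := by
      rcases h1 with h | ⟨h, h'⟩
      · exact h
      · exfalso
        have : (b.1 - a.1) * (z.2 - a.2) = 0 := by rw [h] at h3 ⊢; linarith
        rcases mul_eq_zero.1 this with h5 | h5 <;> linarith
    have h5 : z.1 < b.1 := by
      rcases h2 with h | ⟨h, h'⟩
      · exact h
      · exfalso
        have : (b.1 - a.1) * (z.2 - b.2) = 0 := by rw [h] at h3; linarith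
        rcases mul_eq_zero.1 this with h5 | h5 <;> linarith
    refine ⟨1 - (z.1 - a.1) / (b.1 - a.1), (z.1 - a.1) / (b.1 - a.1), ?_, ?_, by ring, ?_⟩
    · rw [sub_pos, div_lt_one (by linarith)]
      linarith
    · exact div_pos (by linarith) (by linarith)
    · apply Prod.ext
      · simp only [Prod.fst_add, Prod.smul_fst, smul_eq_mul]
        field_simp
        ring
      · simp only [Prod.snd_add, Prod.smul_snd, smul_eq_mul]
        field_simp
        linarith
  · have ha : a.1 = z.1 := by
      rcases h1 with h | ⟨h, -⟩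
      · rcases h2 with h' | ⟨h', -⟩ <;> exfalso <;> linarith
      · exact h
    have hb : z.1 = b.1 := by
      rcases h2 with h | ⟨h, -⟩
      · exfalso
        linarith
      · exact h
    have h4 : a.2 < z.2 := by
      rcases h1 with h | ⟨-, h⟩
      · exfalso
        linarith
      · exact h
    have h5 : z.2 < b.2 := by
      rcases h2 with h | ⟨-, h⟩
      · exfalso
        linarith
      · exact h
    have hx' : b.2 - a.2 ≠ 0 := by linarith
    refine ⟨1 - (z.2 - a.2) / (b.2 - a.2), (z.2 - a.2) / (b.2 - a.2), ?_, ?_, by ring, ?_⟩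
    · rw [sub_pos, div_lt_one (by linarith)]
      linarith
    · exact div_pos (by linarith) (by linarith)
    · apply Prod.ext
      · simp only [Prod.fst_add, Prod.smul_fst, smul_eq_mul]
        rw [← hb, ← ha]
        ring
      · simp only [Prod.snd_add, Prod.smul_snd, smul_eq_mul]
        field_simp
        ring

/-- the crossing criterion -/
theorem para_xx {a b p q : Pt} (hab : a ≠ b) (hpq : p ≠ q) (h : Ok (a, b) (p, q)) :
    Xx (a, b) (p, q) ↔ crs (b - a) (p - a) * crs (b - a) (q - a) < 0 ∧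
      crs (q - p) (a - p) * crs (q - p) (b - p) < 0 := by
  constructor
  · rintro ⟨z, hz1, hz2⟩
    obtain ⟨-, -, hd⟩ := h z (openSegment_subset_segment _ _ _ hz1) (openSegment_subset_segment _ _ _ hz2)
    simp only at hd hz1 hz2
    have hc : crs (b - a) (q - p) ≠ 0 := by
      intro hc
      apply hab
      have h1 : (b.1 - a.1) ^ 2 + (b.2 - a.2) ^ 2 = 0 ∨ (q.1 - p.1) ^ 2 + (q.2 - p.2) ^ 2 = 0 := by
        rw [← mul_eq_zero]
        unfold dot crs at *
        simp only [Prod.fst_sub, Prod.snd_sub] at hd hc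
        have : ((b.1 - a.1) ^ 2 + (b.2 - a.2) ^ 2) * ((q.1 - p.1) ^ 2 + (q.2 - p.2) ^ 2) =
          ((b.1 - a.1) * (q.1 - p.1) + (b.2 - a.2) * (q.2 - p.2)) ^ 2 +
          ((b.1 - a.1) * (q.2 - p.2) - (b.2 - a.2) * (q.1 - p.1)) ^ 2 := by ring
        rw [this, hd, hc]
        ring
      rcases h1 with h1 | h1
      · apply Prod.ext <;> nlinarith [sq_nonneg (b.1 - a.1), sq_nonneg (b.2 - a.2)]
      · exact absurd (Prod.ext (by nlinarith [sq_nonneg (q.1 - p.1), sq_nonneg (q.2 - p.2)])
          (by nlinarith [sq_nonneg (q.1 - p.1), sq_nonneg (q.2 - p.2)])) hpq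
    obtain ⟨u, v, hu, hv, huv, hz3⟩ := hz1
    obtain ⟨u', v', hu', hv', huv', hz4⟩ := hz2
    have e1 : u' * crs (b - a) (p - a) + v' * crs (b - a) (q - a) = 0 := by
      have hz5 : u' • p + v' • q = u • a + v • b := hz4.trans hz3.symm
      have hz6 := congrArg Prod.fst hz5
      have hz7 := congrArg Prod.snd hz5
      simp only [Prod.fst_add, Prod.smul_fst, Prod.snd_add, Prod.smul_snd, smul_eq_mul] at hz6 hz7
      unfold crs
      simp only [Prod.fst_sub, Prod.snd_sub]
      have hu1 : u = 1 - v := by linarith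
      have hu2 : u' = 1 - v' := by linarith
      subst hu1
      subst hu2
      linear_combination (b.1 - a.1) * hz7 - (b.2 - a.2) * hz6
    have e2 : u * crs (q - p) (a - p) + v * crs (q - p) (b - p) = 0 := by
      have hz5 : u' • p + v' • q = u • a + v • b := hz4.trans hz3.symm
      have hz6 := congrArg Prod.fst hz5
      have hz7 := congrArg Prod.snd hz5
      simp only [Prod.fst_add, Prod.smul_fst, Prod.snd_add, Prod.smul_snd, smul_eq_mul] at hz6 hz7
      unfold crs
      simp only [Prod.fst_sub, Prod.snd_sub]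
      have hu1 : u = 1 - v := by linarith
      have hu2 : u' = 1 - v' := by linarith
      subst hu1
      subst hu2
      linear_combination -(q.1 - p.1) * hz7 + (q.2 - p.2) * hz6
    have e3 : crs (b - a) (q - a) - crs (b - a) (p - a) = crs (b - a) (q - p) := by
      unfold crs
      simp only [Prod.fst_sub, Prod.snd_sub]
      ring
    have e4 : crs (q - p) (a - p) - crs (q - p) (b - p) = crs (b - a) (q - p) := by
      unfold crs
      simp only [Prod.fst_sub, Prod.snd_sub]
      ring
    constructor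
    · have h1 : crs (b - a) (p - a) ≠ 0 := by
        intro h1
        rw [h1, mul_zero, zero_add] at e1
        rcases mul_eq_zero.1 e1 with h2 | h2
        · linarith
        · rw [h1, h2, sub_zero] at e3
          exact hc e3.symm
      have h2 : v' * (crs (b - a) (p - a) * crs (b - a) (q - a)) = - u' * crs (b - a) (p - a) ^ 2 := by
        linear_combination crs (b - a) (p - a) * e1
      have h3 : 0 < crs (b - a) (p - a) ^ 2 := by positivity
      by_contra h4
      push Not at h4
      nlinarith [mul_nonneg hv'.le h4, mul_pos hu' h3]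
    · have h1 : crs (q - p) (a - p) ≠ 0 := by
        intro h1
        rw [h1, mul_zero, zero_add] at e2
        rcases mul_eq_zero.1 e2 with h2 | h2
        · linarith
        · rw [h1, h2, sub_zero] at e4
          exact hc e4.symm
      have h2 : v * (crs (q - p) (a - p) * crs (q - p) (b - p)) = - u * crs (q - p) (a - p) ^ 2 := by
        linear_combination crs (q - p) (a - p) * e2
      have h3 : 0 < crs (q - p) (a - p) ^ 2 := by positivity
      by_contra h4
      push Not at h4
      nlinarith [mul_nonneg hv.le h4, mul_pos hu h3]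
  · rintro ⟨h1, h2⟩
    set o1 := crs (b - a) (p - a) with ho1
    set o2 := crs (b - a) (q - a) with ho2
    set o3 := crs (q - p) (a - p) with ho3
    set o4 := crs (q - p) (b - p) with ho4
    have e : o4 - o3 + o2 - o1 = 0 := by
      rw [ho1, ho2, ho3, ho4]
      unfold crs
      simp only [Prod.fst_sub, Prod.snd_sub]
      ring
    have hne : o1 - o2 ≠ 0 := by
      intro h3
      have : o1 = o2 := by linarith
      rw [this] at h1
      nlinarith [mul_self_nonneg o2]
    have hfr : ∀ x y : ℝ, x * y < 0 → 0 < x / (x - y) ∧ x / (x - y) < 1 := by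
      intro x y hxy
      rcases lt_trichotomy x 0 with hx | hx | hx
      · have hy : 0 < y := by
          by_contra hy
          push Not at hy
          nlinarith [mul_nonneg_of_nonpos_of_nonpos hx.le hy]
        refine ⟨div_pos_of_neg_of_neg hx (by linarith), ?_⟩
        rw [div_lt_one_of_neg (by linarith)]
        linarith
      · rw [hx, zero_mul] at hxy
        exact absurd hxy (lt_irrefl _)
      · have hy : y < 0 := by
          by_contra hy
          push Not at hy
          nlinarith [mul_nonneg hx.le hy]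
        refine ⟨div_pos hx (by linarith), ?_⟩
        rw [div_lt_one (by linarith)]
        linarith
    obtain ⟨k1, k2⟩ := hfr o1 o2 h1
    obtain ⟨k3, k4⟩ := hfr o3 o4 h2
    refine ⟨(1 - o1 / (o1 - o2)) • p + (o1 / (o1 - o2)) • q, ?_, ?_⟩
    · refine ⟨1 - o3 / (o3 - o4), o3 / (o3 - o4), by linarith, k3, by ring, ?_⟩
      have e5 : o3 - o4 = -(o1 - o2) := by linarith
      rw [e5]
      apply Prod.ext
      · simp only [Prod.fst_add, Prod.smul_fst, smul_eq_mul]
        field_simp
        rw [ho1, ho2, ho3]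
        unfold crs
        simp only [Prod.fst_sub, Prod.snd_sub]
        ring
      · simp only [Prod.snd_add, Prod.smul_snd, smul_eq_mul]
        field_simp
        rw [ho1, ho2, ho3]
        unfold crs
        simp only [Prod.fst_sub, Prod.snd_sub]
        ring
    · exact ⟨1 - o1 / (o1 - o2), o1 / (o1 - o2), by linarith, k1, by ring, rfl⟩

open Filter Topology in
theorem para_ev (u v : Pt) : ∀ᶠ e : ℝ in 𝓝[>] 0, lx u v → u.1 + e * u.2 < v.1 + e * v.2 := by
  by_cases h : lx u v
  · rcases h with h | ⟨h, h'⟩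
    · have h1 : Tendsto (fun e : ℝ => u.1 + e * u.2) (𝓝 0) (𝓝 (u.1 + 0 * u.2)) :=
        (Continuous.tendsto (by fun_prop) 0)
      have h2 : Tendsto (fun e : ℝ => v.1 + e * v.2) (𝓝 0) (𝓝 (v.1 + 0 * v.2)) :=
        (Continuous.tendsto (by fun_prop) 0)
      have h3 := h1.eventually_lt h2 (by simpa using h)
      exact (h3.filter_mono nhdsWithin_le_nhds).mono fun e he _ => he
    · filter_upwards [self_mem_nhdsWithin] with e he _
      rw [h]
      have : (0 : ℝ) < e := he
      nlinarith
  · exact Eventually.of_forall fun e h1 => absurd h1 h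

theorem para_ind (R P Q : Prop) [Decidable R] [Decidable P] [Decidable Q]
    (h : R ↔ (P ∧ ¬ Q) ∨ (¬ P ∧ Q)) :
    (if R then (1 : ZMod 2) else 0) = (if P then 1 else 0) + (if Q then 1 else 0) := by
  by_cases hP : P <;> by_cases hQ : Q
  · have hR : ¬ R := by tauto
    simp only [hP, hQ, hR, if_true, if_false]
    decide
  · have hR : R := by tauto
    simp [hP, hQ, hR]
  · have hR : R := by tauto
    simp [hP, hQ, hR]
  · have hR : ¬ R := by tauto
    simp [hP, hQ, hR]

theorem para_below {a b : Pt} (hab : lx a b) (z : Pt) [Decidable (lx a z ∧ lx z b ∧ crs (b - a) (z - a) < 0)] :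
    below (a, b) z = if lx a z ∧ lx z b ∧ crs (b - a) (z - a) < 0 then 1 else 0 := by
  unfold below
  have : ((lx a z ∧ lx z b ∧ crs (b - a) (z - a) < 0) ∨ (lx b z ∧ lx z a ∧ crs (a - b) (z - b) < 0)) ↔
      (lx a z ∧ lx z b ∧ crs (b - a) (z - a) < 0) := by
    constructor
    · rintro (h | ⟨h1, h2, -⟩)
      · exact h
      · exact absurd (lx_trans h1 h2) (lx_asymm hab)
    · exact Or.inl
  simp only [this]

theorem para_above {a b : Pt} (hab : lx a b) (z : Pt) [Decidable (lx a z ∧ lx z b ∧ 0 < crs (b - a) (z - a))] :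
    above (a, b) z = if lx a z ∧ lx z b ∧ 0 < crs (b - a) (z - a) then 1 else 0 := by
  unfold above
  have : ((lx a z ∧ lx z b ∧ 0 < crs (b - a) (z - a)) ∨ (lx b z ∧ lx z a ∧ 0 < crs (a - b) (z - b))) ↔
      (lx a z ∧ lx z b ∧ 0 < crs (b - a) (z - a)) := by
    constructor
    · rintro (h | ⟨h1, h2, -⟩)
      · exact h
      · exact absurd (lx_trans h1 h2) (lx_asymm hab)
    · exact Or.inl
  simp only [this]

/-- the real numbers behind the four sign conditions -/
theorem para_real {x y : ℝ} (h : x * y < 0) : (x < 0 ∧ 0 < y) ∨ (0 < x ∧ y < 0) := by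
  rcases lt_trichotomy x 0 with hx | hx | hx
  · left
    refine ⟨hx, ?_⟩
    by_contra hy
    push Not at hy
    nlinarith [mul_nonneg_of_nonpos_of_nonpos hx.le hy]
  · rw [hx, zero_mul] at h
    exact absurd h (lt_irrefl _)
  · right
    refine ⟨hx, ?_⟩
    by_contra hy
    push Not at hy
    nlinarith [mul_nonneg hx.le hy]

theorem para_pos {c x : ℝ} (hc : 0 < c) (h : 0 < c * x) : 0 < x := (mul_pos_iff_of_pos_left hc).1 h

theorem para_r1 {o1 o2 o3 o4 : ℝ} (e1 : o4 - o3 + o2 - o1 = 0) (h : o1 * o2 < 0 ∧ o3 * o4 < 0) :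
    (o1 < 0 ∧ 0 < o2 ∧ 0 < o3 ∧ o4 < 0) ∨ (0 < o1 ∧ o2 < 0 ∧ o3 < 0 ∧ 0 < o4) := by
  rcases para_real h.1 with ⟨h3, h4⟩ | ⟨h3, h4⟩ <;> rcases para_real h.2 with ⟨h5, h6⟩ | ⟨h5, h6⟩
  · exfalso
    linarith
  · exact Or.inl ⟨h3, h4, h5, h6⟩
  · exact Or.inr ⟨h3, h4, h5, h6⟩
  · exfalso
    linarith

section real
variable {fa fb fp fq o1 o2 o3 o4 : ℝ}

theorem para_La (e1 : o4 - o3 + o2 - o1 = 0) (e2 : fa * o4 - fb * o3 + fp * o2 - fq * o1 = 0)
    (f1 : fa < fp) (f2 : fp < fq) (f3 : fq < fb) (h1 : o1 < 0) (h2 : 0 < o2) : 0 < o3 ∧ 0 < -o4 := by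
  have k1 := mul_pos (sub_pos.2 f1) h2
  have k2 := mul_pos (sub_pos.2 (f1.trans f2)) (neg_pos.2 h1)
  have k3 := mul_pos (sub_pos.2 (f2.trans f3)) h2
  have k4 := mul_pos (sub_pos.2 f3) (neg_pos.2 h1)
  refine ⟨para_pos (c := fb - fa) (by linarith) ?_, para_pos (c := fb - fa) (by linarith) ?_⟩
  · have : (fb - fa) * o3 = (fp - fa) * o2 + (fq - fa) * -o1 := by linear_combination fa * e1 - e2
    rw [this]
    linarith
  · have : (fb - fa) * -o4 = (fb - fp) * o2 + (fb - fq) * -o1 := by linear_combination e2 - fb * e1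
    rw [this]
    linarith

theorem para_Lb (e1 : o4 - o3 + o2 - o1 = 0) (e2 : fa * o4 - fb * o3 + fp * o2 - fq * o1 = 0)
    (f1 : fp < fa) (f2 : fa < fb) (f3 : fb < fq) (h1 : o3 < 0) (h2 : 0 < o4) : 0 < o1 ∧ 0 < -o2 := by
  have k1 := mul_pos (sub_pos.2 f1) h2
  have k2 := mul_pos (sub_pos.2 (f1.trans f2)) (neg_pos.2 h1)
  have k3 := mul_pos (sub_pos.2 (f2.trans f3)) h2
  have k4 := mul_pos (sub_pos.2 f3) (neg_pos.2 h1)
  refine ⟨para_pos (c := fq - fp) (by linarith) ?_, para_pos (c := fq - fp) (by linarith) ?_⟩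
  · have : (fq - fp) * o1 = (fa - fp) * o4 + (fb - fp) * -o3 := by linear_combination fp * e1 - e2
    rw [this]
    linarith
  · have : (fq - fp) * -o2 = (fq - fa) * o4 + (fq - fb) * -o3 := by linear_combination e2 - fq * e1
    rw [this]
    linarith

theorem para_Lc (e1 : o4 - o3 + o2 - o1 = 0) (e2 : fa * o4 - fb * o3 + fp * o2 - fq * o1 = 0)
    (f1 : fa < fp) (f2 : fp < fb) (f3 : fb < fq) (h1 : 0 < o1) (h2 : 0 < o4) : 0 < -o2 ∧ 0 < -o3 := by
  have k1 := mul_pos (sub_pos.2 f1) h2
  have k2 := mul_pos (sub_pos.2 (f1.trans f2)) h2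
  have k3 := mul_pos (sub_pos.2 (f2.trans f3)) h1
  have k4 := mul_pos (sub_pos.2 f3) h1
  refine ⟨para_pos (c := fb - fp) (by linarith) ?_, para_pos (c := fb - fp) (by linarith) ?_⟩
  · have : (fb - fp) * -o2 = (fb - fa) * o4 + (fq - fb) * o1 := by linear_combination e2 - fb * e1
    rw [this]
    linarith
  · have : (fb - fp) * -o3 = (fp - fa) * o4 + (fq - fp) * o1 := by linear_combination e2 - fp * e1
    rw [this]
    linarith

theorem para_Ld (e1 : o4 - o3 + o2 - o1 = 0) (e2 : fa * o4 - fb * o3 + fp * o2 - fq * o1 = 0)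
    (f1 : fp < fa) (f2 : fa < fq) (f3 : fq < fb) (h1 : o2 < 0) (h2 : o3 < 0) : 0 < o1 ∧ 0 < o4 := by
  have k1 := mul_pos (sub_pos.2 f1) (neg_pos.2 h1)
  have k2 := mul_pos (sub_pos.2 (f1.trans f2)) (neg_pos.2 h1)
  have k3 := mul_pos (sub_pos.2 (f2.trans f3)) (neg_pos.2 h2)
  have k4 := mul_pos (sub_pos.2 f3) (neg_pos.2 h2)
  refine ⟨para_pos (c := fq - fa) (by linarith) ?_, para_pos (c := fq - fa) (by linarith) ?_⟩
  · have : (fq - fa) * o1 = (fb - fa) * -o3 + (fa - fp) * -o2 := by linear_combination fa * e1 - e2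
    rw [this]
    linarith
  · have : (fq - fa) * o4 = (fb - fq) * -o3 + (fq - fp) * -o2 := by linear_combination fq * e1 - e2
    rw [this]
    linarith

theorem para_Le (e1 : o4 - o3 + o2 - o1 = 0) (e2 : fa * o4 - fb * o3 + fp * o2 - fq * o1 = 0)
    (f1 : fa < fb) (f2 : fb < fp) (f3 : fp < fq) (h1 : 0 < o1) (h2 : o2 < 0) (h3 : 0 < o4) : False := by
  have k1 := mul_pos (sub_pos.2 f1) h3
  have k2 := mul_pos (sub_pos.2 f2) (neg_pos.2 h2)
  have k3 := mul_pos (sub_pos.2 (f2.trans f3)) h1
  have : (fb - fa) * o4 + (fp - fb) * -o2 + (fq - fb) * o1 = 0 := by linear_combination fb * e1 - e2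
  linarith

theorem para_Lf (e1 : o4 - o3 + o2 - o1 = 0) (e2 : fa * o4 - fb * o3 + fp * o2 - fq * o1 = 0)
    (f1 : fp < fq) (f2 : fq < fa) (f3 : fa < fb) (h1 : 0 < o1) (h2 : o2 < 0) (h3 : o3 < 0) : False := by
  have k1 := mul_pos (sub_pos.2 f3) (neg_pos.2 h3)
  have k2 := mul_pos (sub_pos.2 (f1.trans f2)) (neg_pos.2 h2)
  have k3 := mul_pos (sub_pos.2 f2) h1
  have : (fb - fa) * -o3 + (fa - fp) * -o2 + (fa - fq) * o1 = 0 := by linear_combination e2 - fa * e1
  linarith

end real

theorem para_core {a b p q : Pt} (hab : lx a b) (hpq : lx p q) (h : Ok (a, b) (p, q)) :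
    cr (a, b) (p, q) = below (a, b) p + below (a, b) q + above (p, q) a + above (p, q) b := by
  classical
  have hX := para_xx (para_lx_ne hab) (para_lx_ne hpq) h
  rw [para_below hab, para_below hab, para_above hpq, para_above hpq]
  unfold cr
  -- facts from `Ok`
  have hap : a ∉ segment ℝ p q := fun h1 => by
    have h2 := (h a (left_mem_segment _ _ _) h1).1
    exact lx_irrefl a (para_open hab h2).1
  have hbp : b ∉ segment ℝ p q := fun h1 => by
    have h2 := (h b (right_mem_segment _ _ _) h1).1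
    exact lx_irrefl b (para_open hab h2).2.1
  have hpa : p ∉ segment ℝ a b := fun h1 => by
    have h2 := (h p h1 (left_mem_segment _ _ _)).2.1
    exact lx_irrefl p (para_open hpq h2).1
  have hqa : q ∉ segment ℝ a b := fun h1 => by
    have h2 := (h q h1 (right_mem_segment _ _ _)).2.1
    exact lx_irrefl q (para_open hpq h2).2.1
  have nap : a ≠ p := fun e => hap (e ▸ left_mem_segment _ _ _)
  have naq : a ≠ q := fun e => hap (e ▸ right_mem_segment _ _ _)
  have nbp : b ≠ p := fun e => hbp (e ▸ left_mem_segment _ _ _)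
  have nbq : b ≠ q := fun e => hbp (e ▸ right_mem_segment _ _ _)
  have g1 : lx a p → lx p b → crs (b - a) (p - a) ≠ 0 := fun h1 h2 h3 =>
    hpa (openSegment_subset_segment _ _ _ (para_mem h1 h2 h3))
  have g2 : lx a q → lx q b → crs (b - a) (q - a) ≠ 0 := fun h1 h2 h3 =>
    hqa (openSegment_subset_segment _ _ _ (para_mem h1 h2 h3))
  have g3 : lx p a → lx a q → crs (q - p) (a - p) ≠ 0 := fun h1 h2 h3 =>
    hap (openSegment_subset_segment _ _ _ (para_mem h1 h2 h3))
  have g4 : lx p b → lx b q → crs (q - p) (b - p) ≠ 0 := fun h1 h2 h3 =>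
    hbp (openSegment_subset_segment _ _ _ (para_mem h1 h2 h3))
  obtain ⟨e, he⟩ := (((((para_ev a p).and (para_ev p a)).and ((para_ev a q).and (para_ev q a))).and
    (((para_ev b p).and (para_ev p b)).and ((para_ev b q).and (para_ev q b)))).and
    ((para_ev a b).and (para_ev p q))).exists
  obtain ⟨⟨⟨⟨f1, f1'⟩, ⟨f2, f2'⟩⟩, ⟨⟨f3, f3'⟩, ⟨f4, f4'⟩⟩⟩, f5, f6⟩ := he
  replace f5 := f5 hab
  replace f6 := f6 hpq
  have e1 : crs (q - p) (b - p) - crs (q - p) (a - p) + crs (b - a) (q - a) - crs (b - a) (p - a) = 0 := by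
    unfold crs
    simp only [Prod.fst_sub, Prod.snd_sub]
    ring
  have e2 : (a.1 + e * a.2) * crs (q - p) (b - p) - (b.1 + e * b.2) * crs (q - p) (a - p) +
      (p.1 + e * p.2) * crs (b - a) (q - a) - (q.1 + e * q.2) * crs (b - a) (p - a) = 0 := by
    unfold crs
    simp only [Prod.fst_sub, Prod.snd_sub]
    ring
  rw [show (if Xx (a, b) (p, q) then (1 : ZMod 2) else 0) = if crs (b - a) (p - a) * crs (b - a) (q - a) < 0 ∧
      crs (q - p) (a - p) * crs (q - p) (b - p) < 0 then 1 else 0 from if_congr hX rfl rfl]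
  generalize crs (b - a) (p - a) = o1 at *
  generalize crs (b - a) (q - a) = o2 at *
  generalize crs (q - p) (a - p) = o3 at *
  generalize crs (q - p) (b - p) = o4 at *
  generalize a.1 + e * a.2 = fa at *
  generalize b.1 + e * b.2 = fb at *
  generalize p.1 + e * p.2 = fp at *
  generalize q.1 + e * q.2 = fq at *
  have n1' : -o4 - -o3 + -o2 - -o1 = 0 := by linarith
  have n2' : fa * -o4 - fb * -o3 + fp * -o2 - fq * -o1 = 0 := by linarith
  rcases lx_trichotomy b p with k | k | k
  · -- a < b < p < q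
    have k1 : ¬ lx p b := lx_asymm k
    have k2 : ¬ lx q b := lx_asymm (lx_trans k hpq)
    have k3 : ¬ lx p a := lx_asymm (lx_trans hab k)
    have hF : ¬ (o1 * o2 < 0 ∧ o3 * o4 < 0) := by
      intro hh
      rcases para_r1 e1 hh with ⟨h1, h2, h3, h4⟩ | ⟨h1, h2, h3, h4⟩
      · exact para_Le n1' n2' f5 (f3 k) f6 (neg_pos.2 h1) (neg_neg_iff_pos.2 h2) (neg_pos.2 h4)
      · exact para_Le e1 e2 f5 (f3 k) f6 h1 h2 h4
    simp only [k1, k2, k3, hF, false_and, and_false, if_false, add_zero]
  · exact absurd k nbp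
  rcases lx_trichotomy a q with m | m | m
  rotate_left
  · exact absurd m naq
  · -- p < q < a < b
    have k1 : ¬ lx a q := lx_asymm m
    have k2 : ¬ lx a p := lx_asymm (lx_trans hpq m)
    have k3 : ¬ lx b q := lx_asymm (lx_trans m hab)
    have hF : ¬ (o1 * o2 < 0 ∧ o3 * o4 < 0) := by
      intro hh
      rcases para_r1 e1 hh with ⟨h1, h2, h3, h4⟩ | ⟨h1, h2, h3, h4⟩
      · exact para_Lf n1' n2' f6 (f2' m) f5 (neg_pos.2 h1) (neg_neg_iff_pos.2 h2) (neg_neg_iff_pos.2 h3)
      · exact para_Lf e1 e2 f6 (f2' m) f5 h1 h2 h3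
    simp only [k1, k2, k3, hF, false_and, and_false, if_false, add_zero]
  -- now p < b and a < q
  replace f3' := f3' k
  replace f2 := f2 m
  rcases lx_trichotomy a p with n | n | n
  rotate_left
  · exact absurd n nap
  · -- p < a
    replace f1' := f1' n
    have n1 : ¬ lx a p := lx_asymm n
    rcases lx_trichotomy b q with r | r | r
    rotate_left
    · exact absurd r nbq
    · -- p < a < q < b
      replace f4' := f4' r
      have r1 : ¬ lx b q := lx_asymm r
      have g2 := g2 m r
      have g3 := g3 n m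
      simp only [n1, r1, m, r, n, false_and, and_false, if_false, add_zero, zero_add, true_and]
      apply para_ind
      constructor
      · intro hh
        rcases para_r1 e1 hh with ⟨h1, h2, h3, h4⟩ | ⟨h1, h2, h3, h4⟩
        · exact Or.inr ⟨not_lt.2 h2.le, h3⟩
        · exact Or.inl ⟨h2, not_lt.2 h3.le⟩
      · rintro (⟨h1, h2⟩ | ⟨h1, h2⟩)
        · have h3 : o3 < 0 := lt_of_le_of_ne (not_lt.1 h2) g3
          obtain ⟨h4, h5⟩ := para_Ld e1 e2 f1' f2 f4' h1 h3
          exact ⟨mul_neg_of_pos_of_neg h4 h1, mul_neg_of_neg_of_pos h3 h5⟩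
        · have h3 : 0 < o2 := lt_of_le_of_ne (not_lt.1 h1) g2.symm
          obtain ⟨h4, h5⟩ := para_Ld n1' n2' f1' f2 f4' (neg_neg_iff_pos.2 h3) (neg_neg_iff_pos.2 h2)
          exact ⟨mul_neg_of_neg_of_pos (neg_pos.1 h4) h3, mul_neg_of_pos_of_neg h2 (neg_pos.1 h5)⟩
    · -- p < a < b < q
      replace f4 := f4 r
      have r1 : ¬ lx q b := lx_asymm r
      have g3 := g3 n m
      have g4 := g4 k r
      simp only [n1, r1, m, r, n, k, false_and, and_false, if_false, add_zero, zero_add, true_and]
      apply para_ind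
      constructor
      · intro hh
        rcases para_r1 e1 hh with ⟨h1, h2, h3, h4⟩ | ⟨h1, h2, h3, h4⟩
        · exact Or.inl ⟨h3, not_lt.2 h4.le⟩
        · exact Or.inr ⟨not_lt.2 h3.le, h4⟩
      · rintro (⟨h1, h2⟩ | ⟨h1, h2⟩)
        · have h3 : o4 < 0 := lt_of_le_of_ne (not_lt.1 h2) g4
          obtain ⟨h4, h5⟩ := para_Lb n1' n2' f1' f5 f4 (neg_neg_iff_pos.2 h1) (neg_pos.2 h3)
          rw [neg_neg] at h5
          exact ⟨mul_neg_of_neg_of_pos (neg_pos.1 h4) h5, mul_neg_of_pos_of_neg h1 h3⟩
        · have h3 : o3 < 0 := lt_of_le_of_ne (not_lt.1 h1) g3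
          obtain ⟨h4, h5⟩ := para_Lb e1 e2 f1' f5 f4 h3 h2
          exact ⟨mul_neg_of_pos_of_neg h4 (neg_pos.1 h5), mul_neg_of_neg_of_pos h3 h2⟩
  · -- a < p
    replace f1 := f1 n
    have n1 : ¬ lx p a := lx_asymm n
    rcases lx_trichotomy b q with r | r | r
    rotate_left
    · exact absurd r nbq
    · -- a < p < q < b
      replace f4' := f4' r
      have r1 : ¬ lx b q := lx_asymm r
      have g2 := g2 m r
      have g1 := g1 n k
      simp only [n1, r1, m, r, n, k, false_and, and_false, if_false, add_zero, zero_add, true_and]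
      apply para_ind
      constructor
      · intro hh
        rcases para_r1 e1 hh with ⟨h1, h2, h3, h4⟩ | ⟨h1, h2, h3, h4⟩
        · exact Or.inl ⟨h1, not_lt.2 h2.le⟩
        · exact Or.inr ⟨not_lt.2 h1.le, h2⟩
      · rintro (⟨h1, h2⟩ | ⟨h1, h2⟩)
        · have h3 : 0 < o2 := lt_of_le_of_ne (not_lt.1 h2) g2.symm
          obtain ⟨h4, h5⟩ := para_La e1 e2 f1 f6 f4' h1 h3
          exact ⟨mul_neg_of_neg_of_pos h1 h3, mul_neg_of_pos_of_neg h4 (neg_pos.1 h5)⟩
        · have h3 : 0 < o1 := lt_of_le_of_ne (not_lt.1 h1) g1.symm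
          obtain ⟨h4, h5⟩ := para_La n1' n2' f1 f6 f4' (neg_neg_iff_pos.2 h3) (neg_pos.2 h2)
          rw [neg_neg] at h5
          exact ⟨mul_neg_of_pos_of_neg h3 h2, mul_neg_of_neg_of_pos (neg_pos.1 h4) h5⟩
    · -- a < p < b < q
      replace f4 := f4 r
      have r1 : ¬ lx q b := lx_asymm r
      have g1 := g1 n k
      have g4 := g4 k r
      simp only [n1, r1, m, r, n, k, false_and, and_false, if_false, add_zero, zero_add, true_and]
      apply para_ind
      constructor
      · intro hh
        rcases para_r1 e1 hh with ⟨h1, h2, h3, h4⟩ | ⟨h1, h2, h3, h4⟩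
        · exact Or.inl ⟨h1, not_lt.2 h4.le⟩
        · exact Or.inr ⟨not_lt.2 h1.le, h4⟩
      · rintro (⟨h1, h2⟩ | ⟨h1, h2⟩)
        · have h3 : o4 < 0 := lt_of_le_of_ne (not_lt.1 h2) g4
          obtain ⟨h4, h5⟩ := para_Lc n1' n2' f1 f3' f4 (neg_pos.2 h1) (neg_pos.2 h3)
          rw [neg_neg] at h4 h5
          exact ⟨mul_neg_of_neg_of_pos h1 h4, mul_neg_of_pos_of_neg h5 h3⟩
        · have h3 : 0 < o1 := lt_of_le_of_ne (not_lt.1 h1) g1.symm
          obtain ⟨h4, h5⟩ := para_Lc e1 e2 f1 f3' f4 h3 h2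
          exact ⟨mul_neg_of_pos_of_neg h3 (neg_pos.1 h4), mul_neg_of_neg_of_pos (neg_pos.1 h5) h2⟩

theorem para_swap_below (a b z : Pt) : below (a, b) z = below (b, a) z := by
  unfold below
  congr 1
  exact propext or_comm

theorem para_swap_above (a b z : Pt) : above (a, b) z = above (b, a) z := by
  unfold above
  congr 1
  exact propext or_comm

theorem para_swap_cr1 (a b p q : Pt) : cr (a, b) (p, q) = cr (b, a) (p, q) := by
  classical
  unfold cr
  exact if_congr (by unfold Xx; simp only [openSegment_symm ℝ a b]) rfl rfl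

theorem para_swap_cr2 (a b p q : Pt) : cr (a, b) (p, q) = cr (a, b) (q, p) := by
  classical
  unfold cr
  exact if_congr (by unfold Xx; simp only [openSegment_symm ℝ p q]) rfl rfl

theorem para_dot_neg1 (a b v : Pt) (h : dot (b - a) v = 0) : dot (a - b) v = 0 := by
  unfold dot at *
  simp only [Prod.fst_sub, Prod.snd_sub] at *
  linarith

theorem para_dot_neg2 (a b v : Pt) (h : dot v (b - a) = 0) : dot v (a - b) = 0 := by
  unfold dot at *
  simp only [Prod.fst_sub, Prod.snd_sub] at *
  linarith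

theorem para_swap_ok1 {a b p q : Pt} (h : Ok (a, b) (p, q)) : Ok (b, a) (p, q) := by
  intro z h1 h2
  simp only at h1 h2 ⊢
  rw [segment_symm] at h1
  obtain ⟨k1, k2, k3⟩ := h z h1 h2
  exact ⟨by rw [openSegment_symm]; exact k1, k2, para_dot_neg1 _ _ _ k3⟩

theorem para_swap_ok2 {a b p q : Pt} (h : Ok (a, b) (p, q)) : Ok (a, b) (q, p) := by
  intro z h1 h2
  simp only at h1 h2 ⊢
  rw [segment_symm] at h2
  obtain ⟨k1, k2, k3⟩ := h z h1 h2
  exact ⟨k1, by rw [openSegment_symm]; exact k2, para_dot_neg2 _ _ _ k3⟩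

/-- PARA. The basic identity. `s = (a, b)`, `t = (p, q)` nondegenerate segments which are
disjoint or cross at a right angle in interior points of both.

Proof. All four end points are different (`Ok`). All four terms and `cr` are invariant under
exchanging the ends of `s` or of `t`, so let `lx a b`, `lx p q`. Points of a segment are
lexicographically between its ends. If `lx b p` or `lx q a`: everything is `0`. If
`a < p < q < b`: `cr s t = 1` iff `crs (b - a) (p - a)` and `crs (b - a) (q - a)` have different signs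
(neither is `0`, since a point lexicographically between `a` and `b` with cross product `0` lies on
`s`); the other two terms are `0`. In the same way if `p < a < b < q`. If `a < p < b < q`:
`below s p` and `above t b`: the segments cross iff (`p` below `s` and `b` below `t`) or (`p` above `s`
and `b` above `t`), i.e. iff the sum of the two indicators is odd. If `p < a < q < b`: symmetric. (A
crossing point is found as the intersection point of the lines; conversely if `z` is a common
point, compare the signs: with `z = a + l (b - a)`,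
`crs (b - a) (p - a) = crs (b - a) (p - z)`, etc.) -/
theorem below_add_above {s t : Pt × Pt} (hs : s.1 ≠ s.2) (ht : t.1 ≠ t.2) (h : Ok s t) :
    cr s t = below s t.1 + below s t.2 + above t s.1 + above t s.2 := by
  obtain ⟨a, b⟩ := s
  obtain ⟨p, q⟩ := t
  simp only at hs ht ⊢
  rcases lx_trichotomy a b with h1 | h1 | h1
  rotate_left
  · exact absurd h1 hs
  · rcases lx_trichotomy p q with h2 | h2 | h2
    rotate_left
    · exact absurd h2 ht
    · rw [para_swap_cr1, para_swap_cr2, para_swap_below a b, para_swap_below a b, para_swap_above p q,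
        para_swap_above p q, para_core h1 h2 (para_swap_ok2 (para_swap_ok1 h))]
      ring
    · rw [para_swap_cr1, para_swap_below a b, para_swap_below a b, para_core h1 h2 (para_swap_ok1 h)]
      ring
  · rcases lx_trichotomy p q with h2 | h2 | h2
    rotate_left
    · exact absurd h2 ht
    · rw [para_swap_cr2, para_swap_above p q, para_swap_above p q, para_core h1 h2 (para_swap_ok2 h)]
      ring
    · exact para_core h1 h2 h

end Pool.Agent.RAC

/-!
# Crossing parity (piece PARB)
-/

namespace Pool.Agent.RAC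

private theorem parb_on {a b z : Pt} (h1 : lx a z) (h2 : lx z b) (h : crs (b - a) (z - a) = 0) :
    z ∈ segment ℝ a b := by
  obtain ⟨a1, a2⟩ := a
  obtain ⟨b1, b2⟩ := b
  obtain ⟨z1, z2⟩ := z
  simp only [lx, crs, Prod.mk_sub_mk] at h1 h2 h
  have ha : a1 ≤ z1 := by
    rcases h1 with h1 | ⟨h1, _⟩
    · exact h1.le
    · exact h1.le
  have hb : z1 ≤ b1 := by
    rcases h2 with h2 | ⟨h2, _⟩
    · exact h2.le
    · exact h2.le
  rcases (ha.trans hb).eq_or_lt with hab | hab
  · have e1 : a1 = z1 := le_antisymm ha (by rw [hab]; exact hb)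
    have e2 : z1 = b1 := by rw [← e1, hab]
    have h3 : a2 < z2 := by
      rcases h1 with h1 | ⟨_, h1⟩
      · exact absurd e1 h1.ne
      · exact h1
    have h4 : z2 < b2 := by
      rcases h2 with h2 | ⟨_, h2⟩
      · exact absurd e2 h2.ne
      · exact h2
    have h5 : 0 < b2 - a2 := by linarith
    refine ⟨(b2 - z2) / (b2 - a2), (z2 - a2) / (b2 - a2), by
      apply div_nonneg <;> linarith, by apply div_nonneg <;> linarith, by field_simp; ring, ?_⟩
    ext
    · simp only [Prod.smul_mk, Prod.mk_add_mk, smul_eq_mul]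
      rw [e1, ← e2]
      field_simp
      ring
    · simp only [Prod.smul_mk, Prod.mk_add_mk, smul_eq_mul]
      field_simp
      ring
  · have h5 : 0 < b1 - a1 := by linarith
    refine ⟨(b1 - z1) / (b1 - a1), (z1 - a1) / (b1 - a1), by
      apply div_nonneg <;> linarith, by apply div_nonneg <;> linarith, by field_simp; ring, ?_⟩
    ext
    · simp only [Prod.smul_mk, Prod.mk_add_mk, smul_eq_mul]
      field_simp
      ring
    · simp only [Prod.smul_mk, Prod.mk_add_mk, smul_eq_mul]
      field_simp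
      linarith

private theorem parb_two (c : ℝ) (hc : c ≠ 0) :
    (if c < 0 then (1 : ZMod 2) else 0) + (if 0 < c then 1 else 0) = 1 := by
  rcases lt_or_gt_of_ne hc with h | h
  · rw [if_pos h, if_neg (not_lt.mpr h.le), add_zero]
  · rw [if_neg (not_lt.mpr h.le), if_pos h, zero_add]

/-- PARB. for a point which is not on the segment -/
theorem below_add_above_self {s : Pt × Pt} {z : Pt} (hz : z ∉ segment ℝ s.1 s.2) :
    below s z + above s z = btw s.1 s.2 z := by
  classical
  unfold below above btw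
  by_cases hA : lx s.1 z ∧ lx z s.2
  · have n1 := lx_asymm hA.1
    have n2 := lx_asymm hA.2
    have hc : crs (s.2 - s.1) (z - s.1) ≠ 0 := fun h => hz (parb_on hA.1 hA.2 h)
    have e1 : ((lx s.1 z ∧ lx z s.2 ∧ crs (s.2 - s.1) (z - s.1) < 0) ∨
        (lx s.2 z ∧ lx z s.1 ∧ crs (s.1 - s.2) (z - s.2) < 0)) ↔
        crs (s.2 - s.1) (z - s.1) < 0 :=
      ⟨fun h => h.elim (fun h => h.2.2) (fun h => absurd h.1 n2), fun h => Or.inl ⟨hA.1, hA.2, h⟩⟩
    have e2 : ((lx s.1 z ∧ lx z s.2 ∧ 0 < crs (s.2 - s.1) (z - s.1)) ∨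
        (lx s.2 z ∧ lx z s.1 ∧ 0 < crs (s.1 - s.2) (z - s.2))) ↔
        0 < crs (s.2 - s.1) (z - s.1) :=
      ⟨fun h => h.elim (fun h => h.2.2) (fun h => absurd h.1 n2), fun h => Or.inl ⟨hA.1, hA.2, h⟩⟩
    simp only [e1, e2, if_pos (Or.inl hA)]
    exact parb_two _ hc
  · by_cases hB : lx s.2 z ∧ lx z s.1
    · have n1 := lx_asymm hB.1
      have n2 := lx_asymm hB.2
      have hc : crs (s.1 - s.2) (z - s.2) ≠ 0 := fun h =>
        hz ((segment_symm ℝ s.2 s.1) ▸ parb_on hB.1 hB.2 h)
      have e1 : ((lx s.1 z ∧ lx z s.2 ∧ crs (s.2 - s.1) (z - s.1) < 0) ∨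
          (lx s.2 z ∧ lx z s.1 ∧ crs (s.1 - s.2) (z - s.2) < 0)) ↔
          crs (s.1 - s.2) (z - s.2) < 0 :=
        ⟨fun h => h.elim (fun h => absurd h.1 n2) (fun h => h.2.2),
          fun h => Or.inr ⟨hB.1, hB.2, h⟩⟩
      have e2 : ((lx s.1 z ∧ lx z s.2 ∧ 0 < crs (s.2 - s.1) (z - s.1)) ∨
          (lx s.2 z ∧ lx z s.1 ∧ 0 < crs (s.1 - s.2) (z - s.2))) ↔
          0 < crs (s.1 - s.2) (z - s.2) :=
        ⟨fun h => h.elim (fun h => absurd h.1 n2) (fun h => h.2.2),
          fun h => Or.inr ⟨hB.1, hB.2, h⟩⟩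
      simp only [e1, e2, if_pos (Or.inr hB)]
      exact parb_two _ hc
    · rw [if_neg, if_neg, if_neg, add_zero]
      · rintro (h | h)
        · exact hA h
        · exact hB h
      · rintro (h | h)
        · exact hA ⟨h.1, h.2.1⟩
        · exact hB ⟨h.1, h.2.1⟩
      · rintro (h | h)
        · exact hA ⟨h.1, h.2.1⟩
        · exact hB ⟨h.1, h.2.1⟩

open Classical in
private theorem parb_eq {a b z : Pt} (ha : a ≠ z) (hb : b ≠ z) :
    btw a b z = (if lx a z then (1 : ZMod 2) else 0) + (if lx b z then 1 else 0) := by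
  unfold btw
  have h1 : lx z a ↔ ¬ lx a z := by
    constructor
    · exact fun h => lx_asymm h
    · intro h
      rcases lx_trichotomy a z with h' | h' | h'
      · exact absurd h' h
      · exact absurd h' ha
      · exact h'
  have h2 : lx z b ↔ ¬ lx b z := by
    constructor
    · exact fun h => lx_asymm h
    · intro h
      rcases lx_trichotomy b z with h' | h' | h'
      · exact absurd h' h
      · exact absurd h' hb
      · exact h'
  rw [h1, h2]
  by_cases c1 : lx a z
  · by_cases c2 : lx b z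
    · rw [if_neg (by tauto), if_pos c1, if_pos c2]
      decide
    · rw [if_pos (by tauto), if_pos c1, if_neg c2, add_zero]
  · by_cases c2 : lx b z
    · rw [if_pos (by tauto), if_neg c1, if_pos c2, zero_add]
    · rw [if_neg (by tauto), if_neg c1, if_neg c2, add_zero]

/-- PARB. telescoping -/
theorem btw_add {a b c z : Pt} (ha : a ≠ z) (hb : b ≠ z) (hc : c ≠ z) :
    btw a b z + btw b c z = btw a c z := by
  classical
  rw [parb_eq ha hb, parb_eq hb hc, parb_eq ha hc]
  by_cases c2 : lx b z
  · simp only [if_pos c2]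
    have h1 : (1 : ZMod 2) + 1 = 0 := by decide
    generalize (if lx a z then (1 : ZMod 2) else 0) = A
    generalize (if lx c z then (1 : ZMod 2) else 0) = C
    calc A + 1 + (1 + C) = A + C + (1 + 1) := by ring
      _ = A + C := by rw [h1, add_zero]
  · simp only [if_neg c2, add_zero, zero_add]

end Pool.Agent.RAC

/-!
# Crossing parity (piece PARC)
-/

namespace Pool.Agent.RAC

/-- the parity of the number of segments of the polygonal line `Ω` above `z` -/
noncomputable def wp (Ω : List Pt) (z : Pt) : ZMod 2 := ((segs Ω).map (fun s => below s z)).sum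

/-- the number of crossings of the segment `s` and the polygonal line `Ω` -/
noncomputable def crL (s : Pt × Pt) (Ω : List Pt) : ZMod 2 := ((segs Ω).map (fun t => cr s t)).sum

theorem parC_comm (s t : Pt × Pt) : cr s t = cr t s := by
  unfold cr
  congr 1
  unfold Xx
  simp only [and_comm]

theorem parC_two (a : ZMod 2) : a + a = 0 := CharTwo.add_self_eq_zero a

theorem parC_tel (f : Pt → ZMod 2) : ∀ (l : List Pt) (a : Pt),
    ((segs (a :: l)).map (fun t => f t.1 + f t.2)).sum =
      f a + f ((a :: l).getLast (List.cons_ne_nil a l))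
  | [], a => by
    simp only [segs, List.tail_cons, List.zip_nil_right, List.map_nil, List.sum_nil,
      List.getLast_singleton]
    exact (parC_two (f a)).symm
  | b :: l, a => by
    have ih := parC_tel f l b
    have e : segs (a :: b :: l) = (a, b) :: segs (b :: l) := by
      simp [segs]
    rw [e, List.map_cons, List.sum_cons, ih, List.getLast_cons (List.cons_ne_nil b l)]
    have := parC_two (f b)
    calc f a + f b + (f b + f ((b :: l).getLast (List.cons_ne_nil b l)))
        = f a + (f b + f b) + f ((b :: l).getLast (List.cons_ne_nil b l)) := by ring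
      _ = _ := by rw [this, add_zero]

theorem parC_ok_symm {s t : Pt × Pt} (h : Ok s t) : Ok t s := by
  intro z h1 h2
  obtain ⟨h3, h4, h5⟩ := h z h2 h1
  refine ⟨h4, h3, ?_⟩
  unfold dot at h5 ⊢
  linarith

theorem parC_sum {s : Pt × Pt} (hs : s.1 ≠ s.2) : ∀ (L : List (Pt × Pt)),
    (∀ t ∈ L, t.1 ≠ t.2) → (∀ t ∈ L, Ok s t) →
    (L.map (fun t => cr s t)).sum = (L.map (fun t => below t s.1)).sum +
      (L.map (fun t => below t s.2)).sum + (L.map (fun t => above s t.1 + above s t.2)).sum
  | [], _, _ => by simp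
  | t :: L, h1, h2 => by
    have ih := parC_sum hs L (fun u hu => h1 u (List.mem_cons_of_mem _ hu))
      (fun u hu => h2 u (List.mem_cons_of_mem _ hu))
    have e := below_add_above (h1 t List.mem_cons_self) hs (parC_ok_symm (h2 t List.mem_cons_self))
    simp only [List.map_cons, List.sum_cons]
    rw [ih, parC_comm s t, e]
    ring

/-- PARC. The parity of the number of crossings of a segment and a closed polygonal line is the
difference of the parities of the ends.

Proof: sum of `below_add_above` (with `s` := the segment of `Ω`, `t := s`; `cr` is symmetric); the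
terms `above s _` of the two ends of the segments of `Ω` cancel telescopically (every point of the
list occurs twice, the first and the last one are equal). -/
theorem crL_eq {s : Pt × Pt} (hs : s.1 ≠ s.2) {Ω : List Pt} (hΩ : Ω.head? = Ω.getLast?)
    (hnd : ∀ t ∈ segs Ω, t.1 ≠ t.2) (h : ∀ t ∈ segs Ω, Ok s t) :
    crL s Ω = wp Ω s.1 + wp Ω s.2 := by
  unfold crL wp
  rw [parC_sum hs (segs Ω) hnd h]
  cases Ω with
  | nil => simp [segs]
  | cons a l =>
    rw [parC_tel (fun z => above s z) l a]
    have h1 : a = (a :: l).getLast (List.cons_ne_nil a l) := by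
      rw [List.head?_cons, List.getLast?_eq_some_getLast (List.cons_ne_nil a l)] at hΩ
      exact Option.some.inj hΩ
    rw [← h1, parC_two, add_zero]

theorem cr_comm (s t : Pt × Pt) : cr s t = cr t s := by
  unfold cr
  congr 1
  unfold Xx
  simp only [and_comm]

end Pool.Agent.RAC

/-!
# The parity of the number of crossings of K(3,3) (piece KPQ)
-/

namespace Pool.Agent.RAC

/-- the number of crossings of two polygonal lines -/
noncomputable def crLL (L M : List Pt) : ZMod 2 := ((segs L).map (fun s => crL s M)).sum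

theorem KPQ_symm {s t : Pt × Pt} (h : Ok s t) : Ok t s := by
  intro z h1 h2
  obtain ⟨a, b, c⟩ := h z h2 h1
  refine ⟨b, a, ?_⟩
  unfold dot at *
  linarith

theorem KPQ_segs_cons (a b : Pt) (l : List Pt) : segs (a :: b :: l) = (a, b) :: segs (b :: l) :=
  rfl

theorem KPQ_two (x : ZMod 2) : x + x = 0 := CharTwo.add_self_eq_zero x

theorem KPQ_tele (f : Pt → ZMod 2) : ∀ (c : List Pt) {p p' : Pt}, c.head? = some p →
    c.getLast? = some p' → ((segs c).map (fun s => f s.1 + f s.2)).sum = f p + f p'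
  | [], p, p', h, _ => by simp at h
  | [a], p, p', h, h' => by
    simp only [List.head?_cons, Option.some.injEq, List.getLast?_singleton] at h h'
    subst h
    subst h'
    rw [KPQ_two]
    rfl
  | a :: b :: l, p, p', h, h' => by
    simp only [List.head?_cons, Option.some.injEq] at h
    subst h
    rw [List.getLast?_cons_cons] at h'
    have ih := KPQ_tele f (b :: l) (p := b) (p' := p') rfl h'
    rw [KPQ_segs_cons, List.map_cons, List.sum_cons, ih]
    linear_combination KPQ_two (f b)

theorem KPQ_tele_btw {z : Pt} : ∀ (c : List Pt) {p p' : Pt}, c.head? = some p →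
    c.getLast? = some p' → (∀ x ∈ c, x ≠ z) →
    ((segs c).map (fun s => btw s.1 s.2 z)).sum = btw p p' z
  | [], p, p', h, _, _ => by simp at h
  | [a], p, p', h, h', _ => by
    simp only [List.head?_cons, Option.some.injEq, List.getLast?_singleton] at h h'
    subst h
    subst h'
    have h1 : btw a a z = 0 := by
      unfold btw
      rw [if_neg]
      rintro (⟨h1, h2⟩ | ⟨h1, h2⟩) <;> exact lx_asymm h1 h2
    rw [h1]
    rfl
  | a :: b :: l, p, p', h, h', hz => by
    simp only [List.head?_cons, Option.some.injEq] at h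
    subst h
    rw [List.getLast?_cons_cons] at h'
    have ih := KPQ_tele_btw (z := z) (b :: l) (p := b) (p' := p') rfl h'
      (fun x hx => hz x (List.mem_cons_of_mem _ hx))
    rw [KPQ_segs_cons, List.map_cons, List.sum_cons, ih]
    refine btw_add (hz a (by simp)) (hz b (by simp)) ?_
    exact hz p' (List.mem_cons_of_mem _ (List.mem_of_getLast? h'))

theorem KPQ_mem_segs_head {c : List Pt} (hc : 2 ≤ c.length) {q : Pt} (h : c.head? = some q) :
    ∃ t ∈ segs c, t.1 = q := by
  match c, hc, h with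
  | a :: b :: l, _, h =>
    simp only [List.head?_cons, Option.some.injEq] at h
    exact ⟨(a, b), by rw [KPQ_segs_cons]; exact List.mem_cons_self, h⟩

theorem KPQ_mem_segs_of_mem : ∀ (c : List Pt), 2 ≤ c.length → ∀ x ∈ c,
    ∃ t ∈ segs c, t.1 = x ∨ t.2 = x
  | [], h, _, _ => by simp at h
  | [a], h, _, _ => by simp at h
  | [a, b], _, x, hx => by
    refine ⟨(a, b), by simp [segs], ?_⟩
    simp only [List.mem_cons, List.not_mem_nil, or_false] at hx
    rcases hx with rfl | rfl
    · exact Or.inl rfl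
    · exact Or.inr rfl
  | a :: b :: c :: l, _, x, hx => by
    rcases List.mem_cons.mp hx with rfl | hx
    · exact ⟨(x, b), by rw [KPQ_segs_cons]; exact List.mem_cons_self, Or.inl rfl⟩
    · obtain ⟨t, ht, h⟩ := KPQ_mem_segs_of_mem (b :: c :: l) (by simp) x hx
      exact ⟨t, by rw [KPQ_segs_cons]; exact List.mem_cons_of_mem _ ht, h⟩

theorem KPQ_end_notMem {s : Pt × Pt} (hs : s.1 ≠ s.2) {x : Pt} (hx : s.1 = x ∨ s.2 = x) :
    x ∉ openSegment ℝ s.1 s.2 := by
  intro h
  rcases hx with rfl | rfl
  · exact hs (left_mem_openSegment_iff.mp h)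
  · exact hs (right_mem_openSegment_iff.mp h)

/-- a vertex of one of two independent polygonal lines is not on the other one -/
theorem KPQ_notMem {L M : List Pt} (hM : 2 ≤ M.length)
    (ndM : ∀ s ∈ segs M, s.1 ≠ s.2) (h : ∀ s ∈ segs L, ∀ t ∈ segs M, Ok s t) {q : Pt}
    (hq : q ∈ M) {s : Pt × Pt} (hs : s ∈ segs L) : q ∉ segment ℝ s.1 s.2 := by
  intro hqs
  obtain ⟨t, ht, hx⟩ := KPQ_mem_segs_of_mem M hM q hq
  have hqt : q ∈ segment ℝ t.1 t.2 := by
    rcases hx with rfl | rfl
    · exact left_mem_segment ℝ _ _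
    · exact right_mem_segment ℝ _ _
  exact KPQ_end_notMem (ndM t ht) hx (h s hs t ht q hqs hqt).2.1

theorem KPQ_above {L : List Pt} {p p' q : Pt} (hL : 2 ≤ L.length)
    (h1 : L.head? = some p) (h2 : L.getLast? = some p')
    (hq : ∀ s ∈ segs L, q ∉ segment ℝ s.1 s.2) :
    ((segs L).map (fun s => above s q)).sum = wp L q + btw p p' q := by
  have e1 : (segs L).map (fun s => above s q) =
      (segs L).map (fun s => below s q + btw s.1 s.2 q) := by
    refine List.map_congr_left fun s hs => ?_
    rw [← below_add_above_self (hq s hs)]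
    linear_combination -KPQ_two (below s q)
  have hv : ∀ x ∈ L, x ≠ q := by
    rintro x hx rfl
    obtain ⟨t, ht, h⟩ := KPQ_mem_segs_of_mem L hL x hx
    apply hq t ht
    rcases h with rfl | rfl
    · exact left_mem_segment ℝ _ _
    · exact right_mem_segment ℝ _ _
  rw [e1, List.sum_map_add, KPQ_tele_btw L h1 h2 hv]
  rfl

/-- KPQ. The parity of the number of crossings of two polygonal lines from `p` to `p'` and from
`q` to `q'`.

Proof: `below_add_above` (with `s` in `M`, `t` in `L`: `cr` is symmetric) summed over all pairs: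
`cr s t = below t s.1 + below t s.2 + above s t.1 + above s t.2` for `s ∈ segs L`, `t ∈ segs M`; the
sums telescope: `Σ_s (below t s.1 + below t s.2) = below t p + below t p'`, and
`Σ_t (above s t.1 + above s t.2) = above s q + above s q'`. Finally
`Σ_s above s q = Σ_s (below s q + btw s.1 s.2 q) = wp L q + btw p p' q` by
`below_add_above_self` and `btw_add` (telescoping; `q` is not on `L` by `Ok`). -/
theorem crLL_eq {L M : List Pt} {p p' q q' : Pt} (hL : 2 ≤ L.length) (hM : 2 ≤ M.length)
    (h1 : L.head? = some p) (h2 : L.getLast? = some p') (h3 : M.head? = some q)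
    (h4 : M.getLast? = some q') (ndL : ∀ s ∈ segs L, s.1 ≠ s.2) (ndM : ∀ s ∈ segs M, s.1 ≠ s.2)
    (h : ∀ s ∈ segs L, ∀ t ∈ segs M, Ok s t) :
    crLL L M = wp M p + wp M p' + wp L q + wp L q' + btw p p' q + btw p p' q' := by
  have hq : q ∈ M := List.mem_of_head? h3
  have hq' : q' ∈ M := List.mem_of_getLast? h4
  have e1 : ∀ s ∈ segs L, crL s M = (wp M s.1 + wp M s.2) + (above s q + above s q') := by
    intro s hs
    have e2 : (segs M).map (fun t => cr s t) =
        (segs M).map (fun t => (below t s.1 + below t s.2) + (above s t.1 + above s t.2)) := by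
      refine List.map_congr_left fun t ht => ?_
      rw [cr_comm, below_add_above (ndM t ht) (ndL s hs) (KPQ_symm (h s hs t ht))]
      ring
    unfold crL
    rw [e2, List.sum_map_add, List.sum_map_add, KPQ_tele (fun z => above s z) M h3 h4]
    rfl
  have e3 : (segs L).map (fun s => crL s M) =
      (segs L).map (fun s => (wp M s.1 + wp M s.2) + (above s q + above s q')) :=
    List.map_congr_left e1
  unfold crLL
  rw [e3, List.sum_map_add, KPQ_tele (fun z => wp M z) L h1 h2, List.sum_map_add,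
    KPQ_above hL h1 h2 (fun s hs => KPQ_notMem hM ndM h hq hs),
    KPQ_above hL h1 h2 (fun s hs => KPQ_notMem hM ndM h hq' hs)]
  ring

end Pool.Agent.RAC

/-!
# The parity of the number of crossings of K(3,3) (piece K33)
-/

namespace Pool.Agent.RAC

open Classical in
/-- `1` if `p` is (lexicographically) smaller than `z` -/
noncomputable def K33_x (p z : Pt) : ZMod 2 := if lx p z then 1 else 0

theorem K33_btw {p p' z : Pt} (hp : p ≠ z) (hp' : p' ≠ z) :
    btw p p' z = K33_x p z + K33_x p' z := by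
  unfold btw K33_x
  by_cases h1 : lx p z
  · have h1' := lx_asymm h1
    by_cases h2 : lx p' z
    · have h2' := lx_asymm h2
      rw [if_neg (by rintro (h | h); exacts [h2' h.2, h1' h.2]), if_pos h1, if_pos h2]
      decide
    · have h2' : lx z p' := by
        rcases lx_trichotomy p' z with h | h | h
        exacts [absurd h h2, absurd h hp', h]
      rw [if_pos (Or.inl ⟨h1, h2'⟩), if_pos h1, if_neg h2, add_zero]
  · have h1' : lx z p := by
      rcases lx_trichotomy p z with h | h | h
      exacts [absurd h h1, absurd h hp, h]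
    by_cases h2 : lx p' z
    · rw [if_pos (Or.inr ⟨h2, h1'⟩), if_neg h1, if_pos h2, zero_add]
    · rw [if_neg (by rintro (h | h); exacts [h1 h.1, h2 h.1]), if_neg h1, if_neg h2, add_zero]

theorem K33_xx {p z : Pt} (hp : p ≠ z) : K33_x p z + K33_x z p = 1 := by
  unfold K33_x
  rcases lx_trichotomy p z with h | h | h
  · rw [if_pos h, if_neg (lx_asymm h), add_zero]
  · exact absurd h hp
  · rw [if_neg (lx_asymm h), if_pos h, zero_add]

theorem K33_sum (w : Fin 3 → Fin 3 → Fin 3 → ZMod 2) (v : Fin 3 → Fin 3 → Fin 3 → ZMod 2)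
    (xa : Fin 3 → Fin 3 → ZMod 2) (xha : Fin 3 → Fin 3 → ZMod 2) (xah : Fin 3 → Fin 3 → ZMod 2)
    (xh : Fin 3 → Fin 3 → ZMod 2) (hx : ∀ j j', j ≠ j' → xh j j' + xh j' j = 1) :
    (∑ i : Fin 3, ∑ i' : Fin 3, ∑ j : Fin 3, ∑ j' : Fin 3,
      if i < i' ∧ j ≠ j' then (w i' j' i + v i' j' j + w i j i' + v i j j' +
        (xa i i' + xha j i') + (xah i j' + xh j j')) else 0) = 1 := by
  have h01 := hx 0 1 (by decide)
  have h02 := hx 0 2 (by decide)
  have h12 := hx 1 2 (by decide)
  have h2 : (2 : ZMod 2) = 0 := by decide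
  simp only [Fin.sum_univ_three, Fin.isValue, lt_self_iff_false, false_and, if_false,
    ne_eq, not_true_eq_false, and_false, add_zero, zero_add]
  simp only [show ((0 : Fin 3) < 1) = True from by simp, show ((0 : Fin 3) < 2) = True from by simp,
    show ((1 : Fin 3) < 2) = True from by simp, show ((1 : Fin 3) < 0) = False from by simp,
    show ((2 : Fin 3) < 0) = False from by simp, show ((2 : Fin 3) < 1) = False from by simp,
    show ((0 : Fin 3) = 1) = False from by simp, show ((0 : Fin 3) = 2) = False from by simp,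
    show ((1 : Fin 3) = 2) = False from by simp, show ((1 : Fin 3) = 0) = False from by simp,
    show ((2 : Fin 3) = 0) = False from by simp, show ((2 : Fin 3) = 1) = False from by simp,
    true_and, false_and, not_false_eq_true, if_true, if_false, add_zero, zero_add]
  have e0 : xh 1 0 = 1 - xh 0 1 := by rw [← h01]; ring
  have e1 : xh 2 0 = 1 - xh 0 2 := by rw [← h02]; ring
  have e2 : xh 2 1 = 1 - xh 1 2 := by rw [← h12]; ring
  rw [e0, e1, e2]
  ring_nf
  reduce_mod_char

/-- K33. The number of crossings of independent edges in a drawing of `K(3,3)` is odd.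

Proof. Sum of `crLL_eq` over `i < i'` and `j ≠ j'`. The term `wp (P i' j') (a i)` (`i ≠ i'`) occurs for
the two values of `j ≠ j'`, the term `wp (P i' j') (h j)` (`j ≠ j'`) for the two values of `i ≠ i'`; so
these terms cancel. The vertices are different points (ends of segments which are `Ok`), and
`btw p p' z = [lx p z] + [lx p' z]` if `p, p' ≠ z`. So the rest is the sum over `i < i'`, `j ≠ j'` of
`[a i < a i'] + [h j < a i'] + [a i < h j'] + [h j < h j']`. The first summand does not depend on
`(j, j')` (6 pairs), the second one not on `j'` (2 values), the third one not on `j` (2 values):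
these cancel. The fourth: for every `i < i'` (3 pairs) the sum over `j ≠ j'` is 3 (exactly one of
`h j < h j'`, `h j' < h j`). So the total is `9 = 1`. -/
theorem k33 (a h : Fin 3 → Pt) (P : Fin 3 → Fin 3 → List Pt)
    (hlen : ∀ i j, 2 ≤ (P i j).length)
    (hh : ∀ i j, (P i j).head? = some (a i)) (hl : ∀ i j, (P i j).getLast? = some (h j))
    (nd : ∀ i j, ∀ s ∈ segs (P i j), s.1 ≠ s.2)
    (ok : ∀ i i' j j', i ≠ i' → j ≠ j' → ∀ s ∈ segs (P i j), ∀ t ∈ segs (P i' j'), Ok s t) :
    (∑ i : Fin 3, ∑ i' : Fin 3, ∑ j : Fin 3, ∑ j' : Fin 3,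
      if i < i' ∧ j ≠ j' then crLL (P i j) (P i' j') else 0) = 1 := by
  have dist : ∀ i i' j j', i ≠ i' → j ≠ j' → ∀ x ∈ P i j, ∀ y ∈ P i' j', x ≠ y := by
    rintro i i' j j' hi hj x hx y hy rfl
    obtain ⟨s, hs, h⟩ := KPQ_mem_segs_of_mem (P i j) (hlen i j) x hx
    refine KPQ_notMem (L := P i j) (M := P i' j') (hlen i' j') (nd i' j')
      (ok i i' j j' hi hj) hy hs ?_
    rcases h with rfl | rfl
    · exact left_mem_segment ℝ _ _
    · exact right_mem_segment ℝ _ _
  have ma : ∀ i j, a i ∈ P i j := fun i j => List.mem_of_head? (hh i j)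
  have mh : ∀ i j, h j ∈ P i j := fun i j => List.mem_of_getLast? (hl i j)
  have oth : ∀ j : Fin 3, ∃ j', j ≠ j' := by decide
  have daa : ∀ i i', i ≠ i' → a i ≠ a i' := fun i i' hi =>
    dist i i' 0 1 hi (by decide) _ (ma i 0) _ (ma i' 1)
  have dhh : ∀ j j', j ≠ j' → h j ≠ h j' := fun j j' hj =>
    dist 0 1 j j' (by decide) hj _ (mh 0 j) _ (mh 1 j')
  have dah : ∀ i j, a i ≠ h j := fun i j => by
    obtain ⟨i', hi'⟩ := oth i
    obtain ⟨j', hj'⟩ := oth j
    exact dist i i' j' j hi' hj'.symm _ (ma i j') _ (mh i' j)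
  have key : ∀ i i' j j', i ≠ i' → j ≠ j' → crLL (P i j) (P i' j') =
      wp (P i' j') (a i) + wp (P i' j') (h j) + wp (P i j) (a i') + wp (P i j) (h j') +
      (K33_x (a i) (a i') + K33_x (h j) (a i')) + (K33_x (a i) (h j') + K33_x (h j) (h j')) := by
    intro i i' j j' hi hj
    rw [crLL_eq (hlen i j) (hlen i' j') (hh i j) (hl i j) (hh i' j') (hl i' j') (nd i j)
      (nd i' j') (ok i i' j j' hi hj), K33_btw (daa i i' hi) (dah i' j).symm,
      K33_btw (dah i j') (dhh j j' hj)]
  rw [← K33_sum (fun i j i' => wp (P i j) (a i')) (fun i j j' => wp (P i j) (h j'))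
    (fun i i' => K33_x (a i) (a i')) (fun j i' => K33_x (h j) (a i'))
    (fun i j' => K33_x (a i) (h j')) (fun j j' => K33_x (h j) (h j'))
    (fun j j' hj => K33_xx (dhh j j' hj))]
  refine Finset.sum_congr rfl fun i _ => Finset.sum_congr rfl fun i' _ =>
    Finset.sum_congr rfl fun j _ => Finset.sum_congr rfl fun j' _ => ?_
  by_cases hc : i < i' ∧ j ≠ j'
  · rw [if_pos hc, if_pos hc, key i i' j j' hc.1.ne hc.2]
  · rw [if_neg hc, if_neg hc]

end Pool.Agent.RAC

/-!
# Two disjoint polylines which reach from left to right (piece ORDL)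
-/

namespace Pool.Agent.RAC

/-- The set of the points of the polyline `A`, extended by horizontal rays (direction `g`) to the left
up to the abscissa `xw` and to the right up to `xe`. -/
def OnL (g : Pt) (xw xe : ℝ) (A : List Pt) (z : Pt) : Prop :=
  (∃ a, A.head? = some a ∧ xw ≤ dot z g ∧ dot z g ≤ dot a g ∧ dot z (J g) = dot a (J g)) ∨
  (∃ s ∈ segs A, z ∈ segment ℝ s.1 s.2) ∨
  (∃ a, A.getLast? = some a ∧ dot a g ≤ dot z g ∧ dot z g ≤ xe ∧ dot z (J g) = dot a (J g))

/-- the coordinates with respect to `g`, `J g` -/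
noncomputable def ordlR (g z : Pt) : Pt := (dot z g, dot z (J g))

/-- the inverse of `ordlR` -/
noncomputable def ordlS (g w : Pt) : Pt := (w.1 * g.1 - w.2 * g.2, w.1 * g.2 + w.2 * g.1)

theorem ordl_dotS {g : Pt} (hg : dot g g = 1) (w : Pt) : dot (ordlS g w) g = w.1 := by
  unfold dot ordlS at *
  linear_combination w.1 * hg

theorem ordl_dotSJ {g : Pt} (hg : dot g g = 1) (w : Pt) : dot (ordlS g w) (J g) = w.2 := by
  unfold dot ordlS J at *
  linear_combination w.2 * hg

theorem ordl_SR {g : Pt} (hg : dot g g = 1) (z : Pt) : ordlS g (ordlR g z) = z := by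
  apply Prod.ext
  · unfold ordlS ordlR dot J at *
    linear_combination z.1 * hg
  · unfold ordlS ordlR dot J at *
    linear_combination z.2 * hg

theorem ordl_R_inj {g : Pt} (hg : dot g g = 1) {a b : Pt} (h : ordlR g a = ordlR g b) : a = b := by
  rw [← ordl_SR hg a, ← ordl_SR hg b, h]

theorem ordl_S_lin (g : Pt) (u v : ℝ) (a b : Pt) :
    ordlS g (u • a + v • b) = u • ordlS g a + v • ordlS g b := by
  apply Prod.ext
  · simp only [ordlS, Prod.fst_add, Prod.snd_add, Prod.smul_fst, Prod.smul_snd, smul_eq_mul]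
    ring
  · simp only [ordlS, Prod.fst_add, Prod.snd_add, Prod.smul_fst, Prod.smul_snd, smul_eq_mul]
    ring

theorem ordl_S_mem {g : Pt} (hg : dot g g = 1) {a b z : Pt}
    (hz : z ∈ segment ℝ (ordlR g a) (ordlR g b)) : ordlS g z ∈ segment ℝ a b := by
  obtain ⟨u, v, hu, hv, huv, rfl⟩ := hz
  refine ⟨u, v, hu, hv, huv, ?_⟩
  rw [ordl_S_lin, ordl_SR hg, ordl_SR hg]

/-- the extended polygonal line in the new coordinates -/
noncomputable def ordlE (g : Pt) (xw xe : ℝ) (A : List Pt) (a0 ar : Pt) : List Pt :=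
  (xw, dot a0 (J g)) :: (A.map (ordlR g) ++ [(xe, dot ar (J g))])

theorem ordl_segs_map (f : Pt → Pt) (A : List Pt) :
    segs (A.map f) = (segs A).map (Prod.map f f) := by
  unfold segs
  rw [← List.map_tail, List.zip_map]

theorem ordl_segs_app (p : Pt) : ∀ (A : List Pt) (a : Pt), A.getLast? = some a →
    segs (A ++ [p]) = segs A ++ [(a, p)]
  | [], a, h => by simp at h
  | [b], a, h => by
    simp only [List.getLast?_singleton, Option.some.injEq] at h
    subst h
    rfl
  | b :: c :: l, a, h => by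
    rw [List.getLast?_cons_cons] at h
    have ih := ordl_segs_app p (c :: l) a h
    rw [KPQ_segs_cons]
    show segs (b :: c :: (l ++ [p])) = (b, c) :: (segs (c :: l) ++ [(a, p)])
    rw [KPQ_segs_cons, ← ih]
    rfl

theorem ordl_segs_cons {p a : Pt} {A : List Pt} (h : A.head? = some a) :
    segs (p :: A) = (p, a) :: segs A := by
  match A, h with
  | b :: l, h =>
    simp only [List.head?_cons, Option.some.injEq] at h
    subst h
    rfl

theorem ordl_segs {g : Pt} {xw xe : ℝ} {A : List Pt} {a0 ar : Pt} (hA : A.head? = some a0)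
    (hA' : A.getLast? = some ar) :
    segs (ordlE g xw xe A a0 ar) = ((xw, dot a0 (J g)), ordlR g a0) ::
      ((segs A).map (Prod.map (ordlR g) (ordlR g)) ++ [(ordlR g ar, (xe, dot ar (J g)))]) := by
  unfold ordlE
  have h1 : (A.map (ordlR g) ++ [(xe, dot ar (J g))]).head? = some (ordlR g a0) := by
    match A, hA with
    | b :: l, h =>
      simp only [List.head?_cons, Option.some.injEq] at h
      subst h
      rfl
  have h2 : (A.map (ordlR g)).getLast? = some (ordlR g ar) := by
    rw [List.getLast?_map, hA']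
    rfl
  rw [ordl_segs_cons h1, ordl_segs_app _ _ _ h2, ordl_segs_map]

theorem ordl_mem_of_segs : ∀ (A : List Pt) (s : Pt × Pt), s ∈ segs A → s.1 ∈ A ∧ s.2 ∈ A
  | [], s, h => by simp [segs] at h
  | [a], s, h => by simp [segs] at h
  | a :: b :: l, s, h => by
    rw [KPQ_segs_cons] at h
    rcases List.mem_cons.1 h with rfl | h
    · exact ⟨List.mem_cons_self, List.mem_cons_of_mem _ List.mem_cons_self⟩
    · have := ordl_mem_of_segs (b :: l) s h
      exact ⟨List.mem_cons_of_mem _ this.1, List.mem_cons_of_mem _ this.2⟩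

/-- the point `z` is to the left of both ends of `s` -/
theorem ordl_below_left {s : Pt × Pt} {z : Pt} (h1 : z.1 < s.1.1) (h2 : z.1 < s.2.1) :
    below s z = 0 := by
  unfold below
  rw [if_neg]
  rintro (⟨h, -⟩ | ⟨h, -⟩)
  · rcases h with h | ⟨h, -⟩ <;> linarith
  · rcases h with h | ⟨h, -⟩ <;> linarith

/-- the point `z` is to the right of both ends of `s` -/
theorem ordl_below_right {s : Pt × Pt} {z : Pt} (h1 : s.1.1 < z.1) (h2 : s.2.1 < z.1) :
    below s z = 0 := by
  unfold below
  rw [if_neg]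
  rintro (⟨-, h, -⟩ | ⟨-, h, -⟩)
  · rcases h with h | ⟨h, -⟩ <;> linarith
  · rcases h with h | ⟨h, -⟩ <;> linarith

theorem ordl_sum_zero {l : List (Pt × Pt)} {z : Pt} (h : ∀ s ∈ l, below s z = 0) :
    (l.map (fun s => below s z)).sum = 0 := by
  apply List.sum_eq_zero
  intro x hx
  obtain ⟨s, hs, rfl⟩ := List.mem_map.1 hx
  exact h s hs

theorem ordl_wp {g : Pt} {xw xe : ℝ} {A : List Pt} {a0 ar : Pt} (hA : A.head? = some a0)
    (hA' : A.getLast? = some ar) (z : Pt) :
    wp (ordlE g xw xe A a0 ar) z = below ((xw, dot a0 (J g)), ordlR g a0) z +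
      (((segs A).map (Prod.map (ordlR g) (ordlR g))).map (fun s => below s z)).sum +
      below (ordlR g ar, (xe, dot ar (J g))) z := by
  unfold wp
  rw [ordl_segs hA hA', List.map_cons, List.sum_cons, List.map_append, List.sum_append]
  simp only [List.map_cons, List.map_nil, List.sum_cons, List.sum_nil, add_zero]
  ring

theorem ordl_wp_w {g : Pt} {xw xe : ℝ} {A : List Pt} {a0 ar : Pt} (hA : A.head? = some a0)
    (hA' : A.getLast? = some ar) (hAr : ∀ z ∈ A, xw < dot z g ∧ dot z g < xe) {z : Pt}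
    (hz : z.1 = xw) : wp (ordlE g xw xe A a0 ar) z = 0 := by
  have m0 := hAr a0 (List.mem_of_head? hA)
  have mr := hAr ar (List.mem_of_getLast? hA')
  have e1 : below ((xw, dot a0 (J g)), ordlR g a0) z = 0 := by
    unfold below
    rw [if_neg]
    rintro (⟨h1, -, h3⟩ | ⟨h1, -⟩)
    · have h4 : dot a0 (J g) < z.2 := by
        rcases h1 with h1 | ⟨-, h1⟩
        · simp only at h1
          linarith
        · exact h1
      unfold crs ordlR at h3
      simp only [Prod.fst_sub, Prod.snd_sub] at h3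
      nlinarith [mul_pos (sub_pos.2 m0.1) (sub_pos.2 h4)]
    · unfold lx ordlR at h1
      simp only at h1
      rcases h1 with h1 | ⟨h1, -⟩ <;> linarith [m0.1]
  have e2 : (((segs A).map (Prod.map (ordlR g) (ordlR g))).map (fun s => below s z)).sum = 0 := by
    apply ordl_sum_zero
    intro s hs
    obtain ⟨t, ht, rfl⟩ := List.mem_map.1 hs
    have hm := ordl_mem_of_segs A t ht
    apply ordl_below_left
    · show z.1 < dot t.1 g
      rw [hz]
      exact (hAr _ hm.1).1
    · show z.1 < dot t.2 g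
      rw [hz]
      exact (hAr _ hm.2).1
  have e3 : below (ordlR g ar, (xe, dot ar (J g))) z = 0 := by
    apply ordl_below_left
    · show z.1 < dot ar g
      rw [hz]
      exact mr.1
    · show z.1 < xe
      rw [hz]
      linarith [mr.1, mr.2]
  rw [ordl_wp hA hA', e1, e2, e3]
  simp

open Classical in
theorem ordl_wp_e {g : Pt} {xw xe : ℝ} {A : List Pt} {a0 ar : Pt} (hA : A.head? = some a0)
    (hA' : A.getLast? = some ar) (hAr : ∀ z ∈ A, xw < dot z g ∧ dot z g < xe) {z : Pt}
    (hz : z.1 = xe) :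
    wp (ordlE g xw xe A a0 ar) z = if z.2 < dot ar (J g) then 1 else 0 := by
  have m0 := hAr a0 (List.mem_of_head? hA)
  have mr := hAr ar (List.mem_of_getLast? hA')
  have e1 : below ((xw, dot a0 (J g)), ordlR g a0) z = 0 := by
    apply ordl_below_right
    · show xw < z.1
      rw [hz]
      linarith [m0.1, m0.2]
    · show dot a0 g < z.1
      rw [hz]
      exact m0.2
  have e2 : (((segs A).map (Prod.map (ordlR g) (ordlR g))).map (fun s => below s z)).sum = 0 := by
    apply ordl_sum_zero
    intro s hs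
    obtain ⟨t, ht, rfl⟩ := List.mem_map.1 hs
    have hm := ordl_mem_of_segs A t ht
    apply ordl_below_right
    · show dot t.1 g < z.1
      rw [hz]
      exact (hAr _ hm.1).2
    · show dot t.2 g < z.1
      rw [hz]
      exact (hAr _ hm.2).2
  have e3 : below (ordlR g ar, (xe, dot ar (J g))) z = if z.2 < dot ar (J g) then 1 else 0 := by
    unfold below
    apply if_congr _ rfl rfl
    constructor
    · rintro (⟨-, h2, -⟩ | ⟨-, h2, -⟩)
      · rcases h2 with h2 | ⟨-, h2⟩
        · simp only at h2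
          linarith
        · exact h2
      · unfold lx ordlR at h2
        simp only at h2
        rcases h2 with h2 | ⟨h2, -⟩ <;> linarith [mr.2]
    · intro h
      left
      refine ⟨Or.inl ?_, Or.inr ⟨hz, h⟩, ?_⟩
      · show dot ar g < z.1
        rw [hz]
        exact mr.2
      · unfold crs ordlR
        simp only [Prod.fst_sub, Prod.snd_sub]
        nlinarith [mul_pos (sub_pos.2 mr.2) (sub_pos.2 h)]
  rw [ordl_wp hA hA', e1, e2, e3]
  simp

theorem ordl_on {g : Pt} (hg : dot g g = 1) {xw xe : ℝ} {A : List Pt} {a0 ar : Pt}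
    (hA : A.head? = some a0) (hA' : A.getLast? = some ar)
    (hAr : ∀ z ∈ A, xw < dot z g ∧ dot z g < xe) {s : Pt × Pt}
    (hs : s ∈ segs (ordlE g xw xe A a0 ar)) {z : Pt} (hz : z ∈ segment ℝ s.1 s.2) :
    OnL g xw xe A (ordlS g z) := by
  have m0 := hAr a0 (List.mem_of_head? hA)
  have mr := hAr ar (List.mem_of_getLast? hA')
  rw [ordl_segs hA hA'] at hs
  rcases List.mem_cons.1 hs with rfl | hs
  · left
    obtain ⟨u, v, hu, hv, huv, rfl⟩ := hz
    refine ⟨a0, hA, ?_, ?_, ?_⟩
    · rw [ordl_dotS hg]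
      simp only [ordlR, Prod.fst_add, Prod.smul_fst, smul_eq_mul]
      have : u = 1 - v := by linarith
      subst this
      nlinarith [mul_nonneg hv (sub_nonneg.2 m0.1.le)]
    · rw [ordl_dotS hg]
      simp only [ordlR, Prod.fst_add, Prod.smul_fst, smul_eq_mul]
      have : v = 1 - u := by linarith
      subst this
      nlinarith [mul_nonneg hu (sub_nonneg.2 m0.1.le)]
    · rw [ordl_dotSJ hg]
      simp only [ordlR, Prod.snd_add, Prod.smul_snd, smul_eq_mul]
      have : u = 1 - v := by linarith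
      subst this
      ring
  · rcases List.mem_append.1 hs with hs | hs
    · right
      left
      obtain ⟨t, ht, rfl⟩ := List.mem_map.1 hs
      exact ⟨t, ht, ordl_S_mem hg hz⟩
    · right
      right
      rw [List.mem_singleton] at hs
      subst hs
      obtain ⟨u, v, hu, hv, huv, rfl⟩ := hz
      refine ⟨ar, hA', ?_, ?_, ?_⟩
      · rw [ordl_dotS hg]
        simp only [ordlR, Prod.fst_add, Prod.smul_fst, smul_eq_mul]
        have : u = 1 - v := by linarith
        subst this
        nlinarith [mul_nonneg hv (sub_nonneg.2 mr.2.le)]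
      · rw [ordl_dotS hg]
        simp only [ordlR, Prod.fst_add, Prod.smul_fst, smul_eq_mul]
        have : v = 1 - u := by linarith
        subst this
        nlinarith [mul_nonneg hu (sub_nonneg.2 mr.2.le)]
      · rw [ordl_dotSJ hg]
        simp only [ordlR, Prod.snd_add, Prod.smul_snd, smul_eq_mul]
        have : u = 1 - v := by linarith
        subst this
        ring

theorem ordl_nd {g : Pt} (hg : dot g g = 1) {xw xe : ℝ} {A : List Pt} {a0 ar : Pt}
    (hA : A.head? = some a0) (hA' : A.getLast? = some ar)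
    (hAr : ∀ z ∈ A, xw < dot z g ∧ dot z g < xe) (ndA : ∀ s ∈ segs A, s.1 ≠ s.2) :
    ∀ s ∈ segs (ordlE g xw xe A a0 ar), s.1 ≠ s.2 := by
  have m0 := hAr a0 (List.mem_of_head? hA)
  have mr := hAr ar (List.mem_of_getLast? hA')
  intro s hs
  rw [ordl_segs hA hA'] at hs
  rcases List.mem_cons.1 hs with rfl | hs
  · intro h
    have h1 : xw = dot a0 g := congrArg Prod.fst h
    linarith [m0.1]
  · rcases List.mem_append.1 hs with hs | hs
    · obtain ⟨t, ht, rfl⟩ := List.mem_map.1 hs
      intro h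
      exact ndA t ht (ordl_R_inj hg h)
    · rw [List.mem_singleton] at hs
      subst hs
      intro h
      have h1 : dot ar g = xe := congrArg Prod.fst h
      linarith [mr.2]

theorem ordl_len (g : Pt) (xw xe : ℝ) (A : List Pt) (a0 ar : Pt) :
    2 ≤ (ordlE g xw xe A a0 ar).length := by
  unfold ordlE
  simp only [List.length_cons, List.length_append, List.length_map, List.length_nil]
  omega

theorem ordl_last (g : Pt) (xw xe : ℝ) (A : List Pt) (a0 ar : Pt) :
    (ordlE g xw xe A a0 ar).getLast? = some (xe, dot ar (J g)) := by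
  unfold ordlE
  rw [← List.cons_append, List.getLast?_append]
  rfl

/-- ORDL. Two disjoint extended polylines have the same order at both ends.

Proof. Let `R z = (dot z g, dot z (J g))`, an isometry (`dot (R a) (R b) = dot a b`, linear,
bijective since `dot g g = 1`). Let `L = (xw, Y a0) :: A.map R ++ [(xe, Y ar)]`, `M` alike for `B`
(`Y = dot · (J g)`, `X = dot · g`). All segments are nondegenerate (`ndA`; the first and last one
since `xw < X a0`, `X ar < xe`). The segments of `L` and of `M` are disjoint: a common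
point is `R z` with `OnL … A z` and `OnL … B z`. So they are `Ok`, all `cr` are `0`, and
`crLL L M = 0` (`Xx` is impossible). By `crLL_eq` with `p = (xw, Y a0)`, `p' = (xe, Y ar)`,
`q = (xw, Y b0)`, `q' = (xe, Y bs)`:
`0 = wp M p + wp M p' + wp L q + wp L q' + btw p p' q + btw p p' q'`. Now all points of `M` except `q`
have an abscissa `> xw`, those except `q'` an abscissa `< xe`. `wp M p`: `p` is lexicographically before
both ends of each segment except possibly the first one `(q, b)`, `b = R b0`, which is horizontal: if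
`lx q p` then `crs (b - q) (p - q) = (b.1 - q.1) (p.2 - q.2) > 0`, so `below = 0`. So `wp M p = 0`,
`wp L q = 0`. `wp M p'`: only the last segment `(b, q')`: `below = 1` iff `p'.2 < q'.2`. So
`wp M p' = [Y ar < Y bs]`, `wp L q' = [Y bs < Y ar]`. `btw p p' q = [Y a0 < Y b0]`,
`btw p p' q' = [Y bs < Y ar]`. `Y a0 ≠ Y b0`, `Y ar ≠ Y bs` (the rays are disjoint). Hence
`[Y ar < Y bs] + [Y a0 < Y b0] = 0`. -/
theorem ordl {g : Pt} (hg : dot g g = 1) {xw xe : ℝ} {A B : List Pt} {a0 ar b0 bs : Pt}
    (hA : A.head? = some a0) (hA' : A.getLast? = some ar) (hB : B.head? = some b0)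
    (hB' : B.getLast? = some bs) (hAr : ∀ z ∈ A, xw < dot z g ∧ dot z g < xe)
    (hBr : ∀ z ∈ B, xw < dot z g ∧ dot z g < xe) (ndA : ∀ s ∈ segs A, s.1 ≠ s.2)
    (ndB : ∀ s ∈ segs B, s.1 ≠ s.2) (h : ∀ z, OnL g xw xe A z → ¬ OnL g xw xe B z) :
    (dot a0 (J g) < dot b0 (J g) ↔ dot ar (J g) < dot bs (J g)) ∧
      dot a0 (J g) ≠ dot b0 (J g) := by
  classical
  have ma0 := hAr a0 (List.mem_of_head? hA)
  have mb0 := hBr b0 (List.mem_of_head? hB)
  have hwe : xw < xe := by linarith [ma0.1, ma0.2]
  have hne : dot a0 (J g) ≠ dot b0 (J g) := by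
    intro he
    refine h (ordlS g (xw, dot a0 (J g))) (Or.inl ⟨a0, hA, ?_, ?_, ?_⟩)
      (Or.inl ⟨b0, hB, ?_, ?_, ?_⟩)
    · rw [ordl_dotS hg]
    · rw [ordl_dotS hg]
      exact ma0.1.le
    · rw [ordl_dotSJ hg]
    · rw [ordl_dotS hg]
    · rw [ordl_dotS hg]
      exact mb0.1.le
    · rw [ordl_dotSJ hg]
      exact he
  refine ⟨?_, hne⟩
  have hdis : ∀ s ∈ segs (ordlE g xw xe A a0 ar), ∀ t ∈ segs (ordlE g xw xe B b0 bs),
      ∀ z, z ∈ segment ℝ s.1 s.2 → z ∉ segment ℝ t.1 t.2 := by
    intro s hs t ht z hz hz'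
    exact h _ (ordl_on hg hA hA' hAr hs hz) (ordl_on hg hB hB' hBr ht hz')
  have hok : ∀ s ∈ segs (ordlE g xw xe A a0 ar), ∀ t ∈ segs (ordlE g xw xe B b0 bs), Ok s t := by
    intro s hs t ht z hz hz'
    exact absurd hz' (hdis s hs t ht z hz)
  have hcr : crLL (ordlE g xw xe A a0 ar) (ordlE g xw xe B b0 bs) = 0 := by
    unfold crLL
    apply List.sum_eq_zero
    intro x hx
    obtain ⟨s, hs, rfl⟩ := List.mem_map.1 hx
    unfold crL
    apply List.sum_eq_zero
    intro y hy
    obtain ⟨t, ht, rfl⟩ := List.mem_map.1 hy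
    unfold cr
    rw [if_neg]
    rintro ⟨z, hz, hz'⟩
    exact hdis s hs t ht z (openSegment_subset_segment _ _ _ hz)
      (openSegment_subset_segment _ _ _ hz')
  have key := crLL_eq (ordl_len g xw xe A a0 ar) (ordl_len g xw xe B b0 bs)
    (p := (xw, dot a0 (J g))) (q := (xw, dot b0 (J g))) rfl (ordl_last g xw xe A a0 ar) rfl
    (ordl_last g xw xe B b0 bs) (ordl_nd hg hA hA' hAr ndA) (ordl_nd hg hB hB' hBr ndB) hok
  rw [hcr, ordl_wp_w hB hB' hBr (z := (xw, dot a0 (J g))) rfl,
    ordl_wp_e hB hB' hBr (z := (xe, dot ar (J g))) rfl,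
    ordl_wp_w hA hA' hAr (z := (xw, dot b0 (J g))) rfl,
    ordl_wp_e hA hA' hAr (z := (xe, dot bs (J g))) rfl] at key
  have b1 : btw (xw, dot a0 (J g)) (xe, dot ar (J g)) (xw, dot b0 (J g)) =
      if dot a0 (J g) < dot b0 (J g) then 1 else 0 := by
    unfold btw
    apply if_congr _ rfl rfl
    unfold lx
    simp only
    constructor
    · rintro (⟨h1 | ⟨-, h1⟩, -⟩ | ⟨h1 | ⟨h1, -⟩, -⟩)
      · linarith
      · exact h1
      · linarith
      · linarith
    · intro h1
      exact Or.inl ⟨Or.inr ⟨trivial, h1⟩, Or.inl hwe⟩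
  have b2 : btw (xw, dot a0 (J g)) (xe, dot ar (J g)) (xe, dot bs (J g)) =
      if dot bs (J g) < dot ar (J g) then 1 else 0 := by
    unfold btw
    apply if_congr _ rfl rfl
    unfold lx
    simp only
    constructor
    · rintro (⟨-, h1 | ⟨-, h1⟩⟩ | ⟨-, h1 | ⟨h1, -⟩⟩)
      · linarith
      · exact h1
      · linarith
      · linarith
    · intro h1
      exact Or.inl ⟨Or.inl hwe, Or.inr ⟨trivial, h1⟩⟩
  rw [b1, b2] at key
  simp only at key
  have two : (1 : ZMod 2) + 1 = 0 := by decide
  have one : (1 : ZMod 2) ≠ 0 := by decide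
  by_cases c1 : dot a0 (J g) < dot b0 (J g) <;> by_cases c2 : dot ar (J g) < dot bs (J g)
  · exact ⟨fun _ => c2, fun _ => c1⟩
  · exfalso
    rw [if_pos c1, if_neg c2] at key
    have k2 := KPQ_two (if dot bs (J g) < dot ar (J g) then (1 : ZMod 2) else 0)
    apply one
    linear_combination -key - k2
  · exfalso
    rw [if_neg c1, if_pos c2] at key
    have k2 := KPQ_two (if dot bs (J g) < dot ar (J g) then (1 : ZMod 2) else 0)
    apply one
    linear_combination -key - k2
  · exact ⟨fun h => absurd h c1, fun h => absurd h c2⟩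

end Pool.Agent.RAC
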