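import Pool.Agent.Lib_MP_638f75_lc.H.HA
import Pool.Agent.Lib_MP_638f75_lc.H.HB

/-!
# Homogeneous families: basic facts (piece FBA)
-/

namespace Pool.Agent.RAC
namespace Fam

variable {n : ℕ} {P S E : Type} (F : Fam n P S E)

/-- FBA. segments of different clusters which have no common hub are `Ok` -/
theorem ok_diff {t u : ℕ} (ht : t < n) (hu : u < n) (htu : t ≠ u) {σ τ : S}
    (h : ∀ p, F.hub p → (p = F.e1 σ ∨ p = F.e2 σ) → ¬ (p = F.e1 τ ∨ p = F.e2 τ)) :
    Ok (F.sg t σ) (F.sg u τ) := by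
  intro z h1 h2
  rcases F.diff t u ht hu htu σ τ z h1 h2 with ⟨p, hp, h3, h4, -⟩ | h3
  · exact absurd h4 (h p hp h3)
  · exact h3

theorem Xx_symm {s t : Pt × Pt} : Xx s t ↔ Xx t s := by
  unfold Xx
  simp only [and_comm]

/-- FBA. crossings are perpendicular -/
theorem perp_of_Xx {t u : ℕ} (ht : t < n) (hu : u < n) (htu : t ≠ u) {σ τ : S}
    (h : Xx (F.sg t σ) (F.sg u τ)) : dot (F.dir t σ) (F.dir u τ) = 0 := by
  obtain ⟨z, h1, h2⟩ := h
  simp only [sg] at h1 h2
  rcases F.diff t u ht hu htu σ τ z (openSegment_subset_segment ℝ _ _ h1)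
    (openSegment_subset_segment ℝ _ _ h2) with ⟨p, -, h3, -, h4⟩ | ⟨-, -, h3⟩
  · exfalso
    rw [h4] at h1
    rcases h3 with h3 | h3
    · rw [h3] at h1
      exact F.nd t ht σ (left_mem_openSegment_iff.1 h1)
    · rw [h3] at h1
      exact F.nd t ht σ (right_mem_openSegment_iff.1 h1)
  · exact h3

/-- FBA. homogeneity of the crossing relation in the order of a direction -/
theorem homXp (k : Fin 4) {σ τ : S} {t u t' u' : ℕ} (ht : t < n) (hu : u < n) (ht' : t' < n)
    (hu' : u' < n) (h : prec k t u) (h' : prec k t' u') :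
    Xx (F.sg t σ) (F.sg u τ) ↔ Xx (F.sg t' σ) (F.sg u' τ) := by
  unfold prec at h h'
  by_cases hk : k = 0 ∨ k = 2
  · rw [if_pos hk] at h h'
    exact F.homX σ τ t u t' u' h hu h' hu'
  · rw [if_neg hk] at h h'
    rw [Xx_symm, Xx_symm (s := F.sg t' σ)]
    exact F.homX τ σ u t u' t' h ht h' ht' 

end Fam
end Pool.Agent.RAC

/-!
# Hub segments (piece FBB)
-/

namespace Pool.Agent.RAC
namespace Fam

variable {n : ℕ} {P S E : Type} (F : Fam n P S E)

theorem fbb_sub_ne {a b : Pt} (h : a ≠ b) : 0 < dot (b - a) (b - a) := by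
  unfold dot
  rcases lt_or_eq_of_le (add_nonneg (mul_self_nonneg (b - a).1) (mul_self_nonneg (b - a).2))
    with h1 | h1
  · exact h1
  · exfalso
    apply h
    have h2 : (b - a).1 = 0 := by nlinarith [mul_self_nonneg (b - a).1, mul_self_nonneg (b - a).2]
    have h3 : (b - a).2 = 0 := by nlinarith [mul_self_nonneg (b - a).1, mul_self_nonneg (b - a).2]
    apply Prod.ext
    · simp only [Prod.fst_sub] at h2; linarith
    · simp only [Prod.snd_sub] at h3; linarith

/-- two vectors perpendicular to a third one are not perpendicular -/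
theorem fbb_perp {a b w : Pt} (ha : 0 < dot a a) (hb : 0 < dot b b) (hw : 0 < dot w w)
    (h1 : dot a w = 0) (h2 : dot b w = 0) (h3 : dot a b = 0) : False := by
  unfold dot at *
  have h4 : (a.1 * b.2 - a.2 * b.1) * (w.1 * w.1 + w.2 * w.2) = 0 := by
    linear_combination (w.1 * b.2 - w.2 * b.1) * h1 -
      (w.1 * a.2 - w.2 * a.1) * h2
  have h5 : a.1 * b.2 - a.2 * b.1 = 0 := by
    rcases mul_eq_zero.1 h4 with h | h
    · exact h
    · linarith
  have h6 : (a.1 * a.1 + a.2 * a.2) * (b.1 * b.1 + b.2 * b.2) = 0 := by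
    linear_combination (a.1 * b.1 + a.2 * b.2) * h3 + (a.1 * b.2 - a.2 * b.1) * h5
  have := mul_pos ha hb
  linarith

theorem fbb_no {t1 t2 u : ℕ} (ht1 : t1 < n) (ht2 : t2 < n) (hu : u < n) (h12 : t1 ≠ t2)
    (h1u : t1 ≠ u) (h2u : t2 ≠ u) {σ τ : S} (h : F.hub (F.e2 σ))
    (hx1 : Xx (F.sg t1 σ) (F.sg u τ)) (hx2 : Xx (F.sg t2 σ) (F.sg u τ)) : False := by
  have p1 := F.perp_of_Xx ht1 hu h1u hx1
  have p2 := F.perp_of_Xx ht2 hu h2u hx2
  have d1 : 0 < dot (F.dir t1 σ) (F.dir t1 σ) := fbb_sub_ne (F.nd t1 ht1 σ)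
  have d2 : 0 < dot (F.dir t2 σ) (F.dir t2 σ) := fbb_sub_ne (F.nd t2 ht2 σ)
  have d3 : 0 < dot (F.dir u τ) (F.dir u τ) := fbb_sub_ne (F.nd u hu τ)
  have hh : F.pt t1 (F.e2 σ) = F.pt t2 (F.e2 σ) := F.hubc _ h _ _
  obtain ⟨z, hz1, hz2⟩ := hx1
  obtain ⟨z', hz1', hz2'⟩ := hx2
  have hzz : z = z' := by
    obtain ⟨a, b, ha, hb, hab, rfl⟩ := id hz1
    obtain ⟨c, e, hc, he, hce, hz⟩ := id hz2
    obtain ⟨a', b', ha', hb', hab', rfl⟩ := id hz1'
    obtain ⟨c', e', hc', he', hce', hz'⟩ := id hz2'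
    simp only [sg] at *
    unfold dir at p1 p2 d3
    set P1 := F.pt t1 (F.e1 σ)
    set Q1 := F.pt t1 (F.e2 σ)
    set P2 := F.pt t2 (F.e1 σ)
    set Q2 := F.pt t2 (F.e2 σ)
    set A := F.pt u (F.e1 τ)
    set B := F.pt u (F.e2 τ)
    unfold dot at p1 p2 d3
    simp only [Prod.fst_sub, Prod.snd_sub] at p1 p2 d3
    have x1 := congrArg Prod.fst hz
    have x2 := congrArg Prod.snd hz
    have x1' := congrArg Prod.fst hz'
    have x2' := congrArg Prod.snd hz'
    have q1 := congrArg Prod.fst hh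
    have q2 := congrArg Prod.snd hh
    simp only [Prod.fst_add, Prod.snd_add, Prod.smul_fst, Prod.smul_snd, smul_eq_mul] at x1 x2 x1' x2'
    -- r = e - e'
    have hc1 : c = 1 - e := by linarith
    have hc2 : c' = 1 - e' := by linarith
    have hb1 : b = 1 - a := by linarith
    have hb2 : b' = 1 - a' := by linarith
    subst hc1 hc2 hb1 hb2
    have key : (e - e') * ((B.1 - A.1) * (B.1 - A.1) + (B.2 - A.2) * (B.2 - A.2)) = 0 := by
      linear_combination (B.1 - A.1) * x1 + (B.2 - A.2) * x2 - (B.1 - A.1) * x1' -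
        (B.2 - A.2) * x2' + (-a) * p1 + a' * p2 + (B.1 - A.1) * q1 + (B.2 - A.2) * q2
    have he0 : e - e' = 0 := by
      rcases mul_eq_zero.1 key with h | h
      · exact h
      · linarith
    have he1 : e = e' := by linarith
    subst he1
    rw [← hz, ← hz']
  subst hzz
  rcases F.diff t1 t2 ht1 ht2 h12 σ σ z (openSegment_subset_segment ℝ _ _ hz1)
    (openSegment_subset_segment ℝ _ _ hz1') with ⟨p, hp, hpe, -, hzp⟩ | ⟨-, -, h3⟩
  · have hne := F.nd t1 ht1 σ
    rcases hpe with rfl | rfl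
    · rw [hzp] at hz1
      exact hne ((left_mem_openSegment_iff).1 hz1)
    · rw [hzp] at hz1
      exact hne ((right_mem_openSegment_iff).1 hz1)
  · exact fbb_perp d1 d2 d3 p1 p2 h3

/-- FBB. hub segments are never crossed by segments of other clusters.

Proof. Let `Xx (sg t σ) (sg u τ)`, `t < u` (the other case is similar). By homogeneity
`Xx (sg 0 σ) (sg 2 τ)` and `Xx (sg 1 σ) (sg 2 τ)` (if `t > u` use `sg 1 σ`, `sg 2 σ`, `sg 0 τ`). Let `h` be
the common position of the hub `e2 σ`. The crossing points `z`, `z'` are on the line of `τ`, which is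
perpendicular to both `sg 0 σ`, `sg 1 σ`, so `z - h`, `z' - h` are both perpendicular to the line of
`τ`: `z = z'` (foot of the perpendicular). So `z` is an interior point of `sg 0 σ` and of `sg 1 σ`, two
segments of different clusters: `diff` gives that either `z` is the position of a common hub (a
common end point label `p`; then `z = pt 0 p` is an end point of `sg 0 σ`, not an interior point), or the
segments are perpendicular, but both are perpendicular to `τ`, hence parallel, contradiction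
(`nd`). -/
theorem hub_inert (hn : 3 ≤ n) {σ : S} (h : F.hub (F.e2 σ)) : F.Inert σ := by
  intro t u ht hu htu τ hX
  rcases lt_or_gt_of_ne htu with hlt | hlt
  · have h1 := (F.homX σ τ t u 0 2 hlt hu (by omega) (by omega)).1 hX
    have h2 := (F.homX σ τ t u 1 2 hlt hu (by omega) (by omega)).1 hX
    exact F.fbb_no (t1 := 0) (t2 := 1) (u := 2) (by omega) (by omega) (by omega) (by omega)
      (by omega) (by omega) h h1 h2
  · have hX' := Xx_symm.1 hX
    have h1 := (F.homX τ σ u t 0 1 hlt ht (by omega) (by omega)).1 hX'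
    have h2 := (F.homX τ σ u t 0 2 hlt ht (by omega) (by omega)).1 hX'
    exact F.fbb_no (t1 := 1) (t2 := 2) (u := 0) (by omega) (by omega) (by omega) (by omega)
      (by omega) (by omega) h (Xx_symm.1 h1) (Xx_symm.1 h2)

/-- FBB. an arm which is not inert is crossed by one segment of an extreme cluster -/
theorem fence_of_not_inert (hn : 3 ≤ n) {σ : S} (h : ¬ F.Inert σ) :
    ∃ ε τ, (ε = 0 ∨ ε = n - 1) ∧ ∀ t, 1 ≤ t → t ≤ n - 2 → Xx (F.sg t σ) (F.sg ε τ) := by
  unfold Inert at h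
  push Not at h
  obtain ⟨t, u, ht, hu, htu, τ, hX⟩ := h
  rcases lt_or_gt_of_ne htu with hlt | hlt
  · refine ⟨n - 1, τ, Or.inr rfl, fun s hs1 hs2 => ?_⟩
    exact (F.homX σ τ t u s (n - 1) hlt hu (by omega) (by omega)).1 hX
  · refine ⟨0, τ, Or.inl rfl, fun s hs1 hs2 => ?_⟩
    exact Xx_symm.1 ((F.homX τ σ u t 0 s hlt ht (by omega) (by omega)).1 (Xx_symm.1 hX))

end Fam
end Pool.Agent.RAC

/-!
# Fenced arms (piece FBC)
-/

namespace Pool.Agent.RAC
namespace Fam

variable {n : ℕ} {P S E : Type} (F : Fam n P S E)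

theorem fbc_par {w v f : Pt} (hf : f ≠ 0) (h1 : dot w f = 0) (h2 : dot v f = 0) :
    crs w v = 0 := by
  obtain ⟨w1, w2⟩ := w
  obtain ⟨v1, v2⟩ := v
  obtain ⟨f1, f2⟩ := f
  simp only [dot, crs] at *
  have e1 : (w1 * v2 - w2 * v1) * f1 = 0 := by linear_combination v2 * h1 - w2 * h2
  have e2 : (w1 * v2 - w2 * v1) * f2 = 0 := by linear_combination w1 * h2 - v1 * h1
  rcases mul_eq_zero.1 e1 with h | h
  · exact h
  · rcases mul_eq_zero.1 e2 with h' | h'
    · exact h'
    · exact absurd (by rw [h, h']; rfl) hf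

theorem fbc_pos {v : Pt} (hv : v ≠ 0) : 0 < dot v v := by
  obtain ⟨v1, v2⟩ := v
  simp only [dot]
  by_contra h
  have h1 : v1 = 0 := by nlinarith [mul_self_nonneg v1, mul_self_nonneg v2]
  have h2 : v2 = 0 := by nlinarith [mul_self_nonneg v1, mul_self_nonneg v2]
  exact hv (by rw [h1, h2]; rfl)

theorem fbc_smul {w v : Pt} (hv : v ≠ 0) (h : crs w v = 0) :
    w = (dot w v / dot v v) • v := by
  have hp := fbc_pos hv
  obtain ⟨w1, w2⟩ := w
  obtain ⟨v1, v2⟩ := v
  simp only [dot, crs] at *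
  have hp' : v1 * v1 + v2 * v2 ≠ 0 := hp.ne'
  ext
  · show w1 = (w1 * v1 + w2 * v2) / (v1 * v1 + v2 * v2) * v1
    rw [div_mul_eq_mul_div, eq_div_iff hp']
    linear_combination v2 * h
  · show w2 = (w1 * v1 + w2 * v2) / (v1 * v1 + v2 * v2) * v2
    rw [div_mul_eq_mul_div, eq_div_iff hp']
    linear_combination (-v1) * h

theorem fbc_seg {P Q z v : Pt} (hz : z ∈ segment ℝ P Q) (h : dot (Q - P) v = 0) :
    dot z v = dot P v := by
  obtain ⟨a, b, ha, hb, hab, rfl⟩ := hz
  rw [dot_sub] at h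
  rw [dot_add, dot_smul, dot_smul]
  have : dot Q v = dot P v := by linarith
  rw [this]
  have : a * dot P v + b * dot P v = dot P v := by rw [← add_mul, hab, one_mul]
  linarith

theorem fbc_open {P z δ : Pt} {l : ℝ} (hz : z ∈ openSegment ℝ P (P + l • δ)) :
    ∃ b : ℝ, 0 < b ∧ b < 1 ∧ z = P + (b * l) • δ := by
  obtain ⟨a, b, ha, hb, hab, rfl⟩ := hz
  refine ⟨b, hb, by linarith, ?_⟩
  have ha' : a = 1 - b := by linarith
  subst ha'
  ext
  · simp; ring
  · simp; ring

/-- FBC. Fenced arms. Let `σ` be a segment label which starts at the vertex label `a` and is not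
inert. Then all arms `sg t σ`, `1 ≤ t ≤ n - 2`, have the same direction `δ`, they reach farther in this
direction than all points `pt u a`, and all vectors `pt u a - pt t a`, `t < u`, are on the same side of `δ`.

Proof. Let `sg ε τ` be the fence (`fence_of_not_inert`). All arms are perpendicular to it, so
`dir t σ = ± l δ` with a unit vector `δ`. The sign is the same for all `t` by `homD` (the sign of
`dot (dir t σ) (dir u σ)` is the same for all pairs `t < u`; it cannot be negative for three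
pairs of parallel vectors; `n - 2 ≥ 3`). The fence lies on a line `dot · δ = H`, and crosses the open arm,
so `dot (pt t a) δ < H < dot (pt t (e2 σ)) δ` for all `t`. `crs (pt u a - pt t a) δ` has the same sign for
all `t < u` by `homC`. If it is `0` then the arms of `t` and `u` lie on the same line and both contain
the point of the fence: contradiction to `diff` (the common point would have to be a crossing at a
right angle, or a hub: `e2 σ` is not a hub and `a` is not a hub). -/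
theorem fenced (hn : 5 ≤ n) {a : P} {σ : S} (hva : ¬ F.hub a) (h1 : F.e1 σ = a)
    (h2 : ¬ F.hub (F.e2 σ)) (hin : ¬ F.Inert σ) :
    ∃ δ : Pt, dot δ δ = 1 ∧
      (∀ t, 1 ≤ t → t ≤ n - 2 → ∃ l : ℝ, 0 < l ∧ F.pt t (F.e2 σ) = F.pt t a + l • δ) ∧
      (∀ t u, 1 ≤ t → t ≤ n - 2 → 1 ≤ u → u ≤ n - 2 →
        dot (F.pt u a) δ < dot (F.pt t (F.e2 σ)) δ) ∧
      ((∀ t u, 1 ≤ t → t < u → u ≤ n - 2 → 0 < crs (F.pt u a - F.pt t a) δ) ∨
        (∀ t u, 1 ≤ t → t < u → u ≤ n - 2 → crs (F.pt u a - F.pt t a) δ < 0)) := by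
  obtain ⟨ε, τ, hε, hX⟩ := F.fence_of_not_inert (by omega) hin
  have hεn : ε < n := by rcases hε with h | h <;> omega
  have hne : ∀ t, 1 ≤ t → t ≤ n - 2 → t ≠ ε := by
    intro t ht1 ht2
    rcases hε with h | h <;> omega
  have hnd : ∀ t, t < n → ∀ ρ, F.dir t ρ ≠ 0 := by
    intro t ht ρ h
    exact F.nd t ht ρ (sub_eq_zero.1 h).symm
  set f := F.dir ε τ with hf
  have hf0 : f ≠ 0 := hnd ε hεn τ
  have hperp : ∀ t, 1 ≤ t → t ≤ n - 2 → dot (F.dir t σ) f = 0 := by
    intro t ht1 ht2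
    exact F.perp_of_Xx (by omega) hεn (hne t ht1 ht2) (hX t ht1 ht2)
  set v := F.dir 1 σ with hv
  have hv0 : v ≠ 0 := hnd 1 (by omega) σ
  have hvf : dot v f = 0 := hperp 1 le_rfl (by omega)
  have hvv := fbc_pos hv0
  -- coefficients
  have hc : ∀ t, 1 ≤ t → t ≤ n - 2 → F.dir t σ = (dot (F.dir t σ) v / dot v v) • v := by
    intro t ht1 ht2
    exact fbc_smul hv0 (fbc_par hf0 (hperp t ht1 ht2) hvf)
  have hsgn : ∀ t u t' u', t < u → u < n → t' < u' → u' < n →
      SignType.sign (dot (F.dir t σ) (F.dir u σ)) =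
        SignType.sign (dot (F.dir t' σ) (F.dir u' σ)) := by
    intro t u t' u' h3 h4 h5 h6
    exact F.homD (false, F.e1 σ) (false, F.e2 σ) (true, F.e1 σ) (true, F.e2 σ) t u t' u' h3 h4 h5 h6
  -- the sign is positive
  have hpos : ∀ t, 1 ≤ t → t ≤ n - 2 → 0 < dot (F.dir t σ) v := by
    have key : 0 < dot v (F.dir 2 σ) := by
      have hc2 := hc 2 (by omega) (by omega)
      have hc3 := hc 3 (by omega) (by omega)
      set c2 := dot (F.dir 2 σ) v / dot v v with hc2'
      set c3 := dot (F.dir 3 σ) v / dot v v with hc3'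
      have e12 : dot v (F.dir 2 σ) = c2 * dot v v := by rw [hc2, dot_smul']
      have e13 : dot v (F.dir 3 σ) = c3 * dot v v := by rw [hc3, dot_smul']
      have e23 : dot (F.dir 2 σ) (F.dir 3 σ) = c2 * c3 * dot v v := by
        rw [hc2, hc3, dot_smul, dot_smul']; ring
      have hc20 : c2 ≠ 0 := by
        intro h
        rw [h, zero_smul] at hc2
        exact hnd 2 (by omega) σ hc2
      have s1 := hsgn 1 2 1 3 (by omega) (by omega) (by omega) (by omega)
      have s2 := hsgn 1 2 2 3 (by omega) (by omega) (by omega) (by omega)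
      rw [← hv, e12, e13] at s1
      rw [← hv, e12, e23] at s2
      rcases lt_or_gt_of_ne hc20 with h | h
      · exfalso
        have h12 : c2 * dot v v < 0 := mul_neg_of_neg_of_pos h hvv
        rw [sign_neg h12] at s1 s2
        have h13 := sign_eq_neg_one_iff.1 s1.symm
        have h23 := sign_eq_neg_one_iff.1 s2.symm
        have hc3n : c3 < 0 := by
          by_contra h'
          push Not at h'
          exact absurd h13 (not_lt.2 (mul_nonneg h' hvv.le))
        have : 0 < c2 * c3 := mul_pos_of_neg_of_neg h hc3n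
        exact absurd h23 (not_lt.2 (mul_pos this hvv).le)
      · rw [e12]; exact mul_pos h hvv
    intro t ht1 ht2
    rcases Nat.lt_or_ge 1 t with h | h
    · have s := hsgn 1 2 1 t (by omega) (by omega) h (by omega)
      rw [← hv, sign_pos key] at s
      have := sign_eq_one_iff.1 s.symm
      rwa [dot_comm] at this
    · have : t = 1 := le_antisymm h ht1
      rw [this]
      exact hvv
  set r := Real.sqrt (dot v v) with hr
  have hr0 : 0 < r := Real.sqrt_pos.2 hvv
  have hrr : r * r = dot v v := Real.mul_self_sqrt hvv.le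
  set δ : Pt := r⁻¹ • v with hδ
  have hvδ : v = r • δ := by rw [hδ, smul_smul, mul_inv_cancel₀ hr0.ne', one_smul]
  have hδδ : dot δ δ = 1 := by
    rw [hδ, dot_smul, dot_smul', ← hrr]
    field_simp
  have hl : ∀ t, 1 ≤ t → t ≤ n - 2 → ∃ l : ℝ, 0 < l ∧ F.pt t (F.e2 σ) = F.pt t a + l • δ := by
    intro t ht1 ht2
    refine ⟨dot (F.dir t σ) v / dot v v * r, mul_pos (div_pos (hpos t ht1 ht2) hvv) hr0, ?_⟩
    rw [mul_smul, ← hvδ, ← hc t ht1 ht2]
    show _ = F.pt t a + (F.pt t (F.e2 σ) - F.pt t (F.e1 σ))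
    rw [h1]
    abel
  have hfδ : dot (F.pt ε (F.e2 τ) - F.pt ε (F.e1 τ)) δ = 0 := by
    have : dot f v = 0 := by rw [dot_comm]; exact hvf
    show dot f δ = 0
    rw [hδ, dot_smul', this, mul_zero]
  set H := dot (F.pt ε (F.e1 τ)) δ with hH
  -- the crossing points
  have hz : ∀ t, 1 ≤ t → t ≤ n - 2 → ∃ k l : ℝ, 0 < k ∧ k < l ∧
      F.pt t (F.e2 σ) = F.pt t a + l • δ ∧ dot (F.pt t a) δ + k = H ∧
      F.pt t a + k • δ ∈ segment ℝ (F.pt t (F.e1 σ)) (F.pt t (F.e2 σ)) := by
    intro t ht1 ht2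
    obtain ⟨l, hl0, hle⟩ := hl t ht1 ht2
    obtain ⟨z, hz1, hz2⟩ := hX t ht1 ht2
    have hz1' : z ∈ openSegment ℝ (F.pt t (F.e1 σ)) (F.pt t (F.e2 σ)) := hz1
    have hz1s := openSegment_subset_segment ℝ _ _ hz1'
    rw [h1, hle] at hz1'
    obtain ⟨b, hb0, hb1, hzb⟩ := fbc_open hz1'
    have hz2' : z ∈ segment ℝ (F.pt ε (F.e1 τ)) (F.pt ε (F.e2 τ)) :=
      openSegment_subset_segment ℝ _ _ hz2
    have hzH : dot z δ = H := fbc_seg hz2' hfδ
    refine ⟨b * l, l, mul_pos hb0 hl0, by nlinarith, hle, ?_, ?_⟩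
    · rw [hzb, dot_add, dot_smul, hδδ, mul_one] at hzH
      exact hzH
    · rw [← hzb]; exact hz1s
  refine ⟨δ, hδδ, hl, ?_, ?_⟩
  · intro t u ht1 ht2 hu1 hu2
    obtain ⟨k, l, hk0, hkl, hle, hkH, -⟩ := hz t ht1 ht2
    obtain ⟨k', l', hk0', hkl', hle', hkH', -⟩ := hz u hu1 hu2
    rw [hle, dot_add, dot_smul, hδδ, mul_one]
    linarith
  · have hcs : ∀ t u, 1 ≤ t → t < u → u ≤ n - 2 →
        SignType.sign (crs (F.pt u a - F.pt t a) δ) =
          SignType.sign (crs (F.pt 2 a - F.pt 1 a) δ) := by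
      intro t u ht1 htu hu2
      have h3 := F.homC (false, a) (true, a) (false, F.e1 σ) (false, F.e2 σ) t u 1 2 htu (by omega)
        (by omega) (by omega)
      simp only [cond_true, cond_false] at h3
      obtain ⟨l, hl0, hle⟩ := hl t ht1 (by omega)
      obtain ⟨l', hl0', hle'⟩ := hl 1 le_rfl (by omega)
      have e1 : F.pt t (F.e2 σ) - F.pt t (F.e1 σ) = l • δ := by rw [hle, h1]; abel
      have e2 : F.pt 1 (F.e2 σ) - F.pt 1 (F.e1 σ) = l' • δ := by rw [hle', h1]; abel
      rw [e1, e2] at h3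
      have hcr : ∀ (w : Pt) (m : ℝ), crs w (m • δ) = m * crs w δ := by
        intro w m; simp [crs]; ring
      rw [hcr, hcr, sign_mul, sign_mul, sign_pos hl0, sign_pos hl0', one_mul, one_mul] at h3
      exact h3
    have hne0 : crs (F.pt 2 a - F.pt 1 a) δ ≠ 0 := by
      intro h0
      obtain ⟨k, l, hk0, hkl, hle, hkH, hks⟩ := hz 1 le_rfl (by omega)
      obtain ⟨k', l', hk0', hkl', hle', hkH', hks'⟩ := hz 2 (by omega) (by omega)
      have hδ0 : δ ≠ 0 := by
        intro h
        rw [h] at hδδ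
        simp [dot] at hδδ
      have e := fbc_smul hδ0 h0
      rw [hδδ, div_one, dot_sub] at e
      have e' : F.pt 1 a + k • δ = F.pt 2 a + k' • δ := by
        have : F.pt 2 a = F.pt 1 a + (dot (F.pt 2 a) δ - dot (F.pt 1 a) δ) • δ := by
          rw [← e]; abel
        have hk : dot (F.pt 2 a) δ - dot (F.pt 1 a) δ + k' = k := by linarith
        rw [this, add_assoc, ← add_smul, hk]
      rw [e'] at hks
      rcases F.diff 1 2 (by omega) (by omega) (by omega) σ σ _ hks hks' with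
        ⟨p, hp, hpe, -⟩ | ⟨-, -, hd⟩
      · rcases hpe with rfl | rfl
        · rw [h1] at hp; exact hva hp
        · exact h2 hp
      · have := hpos 2 (by omega) (by omega)
        rw [dot_comm] at this
        exact this.ne' hd
    rcases lt_or_gt_of_ne hne0 with h | h
    · right
      intro t u ht1 htu hu2
      have := hcs t u ht1 htu hu2
      rw [sign_neg h] at this
      exact sign_eq_neg_one_iff.1 this
    · left
      intro t u ht1 htu hu2
      have := hcs t u ht1 htu hu2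
      rw [sign_pos h] at this
      exact sign_eq_one_iff.1 this

end Fam
end Pool.Agent.RAC

/-!
# Fenced arms on the same side (piece FBD)
-/

namespace Pool.Agent.RAC
namespace Fam

variable {n : ℕ} {P S E : Type} (F : Fam n P S E)

theorem fbd_aux (hn : 6 ≤ n) {a : P} {σ σ' : S} (hva : ¬ F.hub a) (h1 : F.e1 σ = a)
    (h1' : F.e1 σ' = a) (h2 : ¬ F.ver (F.e2 σ)) (h2' : ¬ F.ver (F.e2 σ'))
    (he : F.ed σ ≠ F.ed σ') (hin : ¬ F.Inert σ) (hin' : ¬ F.Inert σ') {δ δ' : Pt}
    (hδ : dot δ δ = 1) (hδ' : dot δ' δ' = 1)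
    (hd : ∀ t, 1 ≤ t → t ≤ n - 2 → ∃ l : ℝ, 0 < l ∧ F.pt t (F.e2 σ) = F.pt t a + l • δ)
    (hd' : ∀ t, 1 ≤ t → t ≤ n - 2 → ∃ l : ℝ, 0 < l ∧ F.pt t (F.e2 σ') = F.pt t a + l • δ')
    (ix : Fin 3 → ℕ) (hi1 : ∀ i, 1 ≤ ix i) (hi2 : ∀ i, ix i ≤ 3) (hinj : ∀ i j, i ≠ j → ix i ≠ ix j)
    (hs : ∀ i j, i < j → 0 < crs (F.pt (ix j) a - F.pt (ix i) a) δ)
    (hs' : ∀ i j, i < j → 0 < crs (F.pt (ix j) a - F.pt (ix i) a) δ') :
    dot δ δ' = 0 := by
  obtain ⟨ε, τ, hε, hX⟩ := F.fence_of_not_inert (by omega) hin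
  obtain ⟨ε', τ', hε', hX'⟩ := F.fence_of_not_inert (by omega) hin'
  have hεn : ε < n := by rcases hε with h | h <;> omega
  have hεn' : ε' < n := by rcases hε' with h | h <;> omega
  have hne : ∀ i, ix i ≠ ε := by
    intro i
    have := hi1 i
    have := hi2 i
    rcases hε with h | h <;> omega
  have hne' : ∀ i, ix i ≠ ε' := by
    intro i
    have := hi1 i
    have := hi2 i
    rcases hε' with h | h <;> omega
  have hin2 : ∀ i, ix i ≤ n - 2 := fun i => (hi2 i).trans (by omega)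
  have hlt : ∀ i, ix i < n := fun i => lt_of_le_of_lt (hi2 i) (by omega)
  have nhub : ∀ p, F.hub p → ¬ (p = F.e1 σ ∨ p = F.e2 σ) := by
    rintro p hp (rfl | rfl)
    · rw [h1] at hp; exact hva hp
    · exact h2 (F.hub_ver _ hp)
  have nhub' : ∀ p, F.hub p → ¬ (p = F.e1 σ' ∨ p = F.e2 σ') := by
    rintro p hp (rfl | rfl)
    · rw [h1'] at hp; exact hva hp
    · exact h2' (F.hub_ver _ hp)
  have hperp : ∀ (ρ : S) (ζ : Pt) (η : ℕ) (ω : S), η < n → ix 0 ≠ η → F.e1 ρ = a →
      (∃ l : ℝ, 0 < l ∧ F.pt (ix 0) (F.e2 ρ) = F.pt (ix 0) a + l • ζ) →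
      Xx (F.sg (ix 0) ρ) (F.sg η ω) → dot (F.pt η (F.e2 ω) - F.pt η (F.e1 ω)) ζ = 0 := by
    rintro ρ ζ η ω hη hne2 hρ ⟨l, hl0, hle⟩ hx
    have h := F.perp_of_Xx (hlt 0) hη hne2 hx
    have e : F.dir (ix 0) ρ = l • ζ := by
      show F.pt (ix 0) (F.e2 ρ) - F.pt (ix 0) (F.e1 ρ) = _
      rw [hle, hρ]; abel
    rw [e, dot_smul] at h
    rcases mul_eq_zero.1 h with h | h
    · exact absurd h hl0.ne'
    · rw [dot_comm]; exact h
  refine lone (fun i => F.pt (ix i) a) (fun i => F.pt (ix i) (F.e2 σ))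
    (fun i => F.pt (ix i) (F.e2 σ')) δ δ' (F.pt ε (F.e1 τ)) (F.pt ε (F.e2 τ)) (F.pt ε' (F.e1 τ'))
    (F.pt ε' (F.e2 τ')) hδ hδ' hs hs' (fun i => hd _ (hi1 i) (hin2 i))
    (fun i => hd' _ (hi1 i) (hin2 i)) ?_ ?_ ?_ ?_ ?_ ?_ ?_ ?_
  · intro i
    have := hX (ix i) (hi1 i) (hin2 i)
    rw [Xx_symm] at this
    rw [← h1]
    exact this
  · intro i
    have := hX' (ix i) (hi1 i) (hin2 i)
    rw [Xx_symm] at this
    rw [← h1']
    exact this
  · exact hperp σ δ ε τ hεn (hne 0) h1 (hd _ (hi1 0) (hin2 0)) (hX _ (hi1 0) (hin2 0))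
  · exact hperp σ' δ' ε' τ' hεn' (hne' 0) h1' (hd' _ (hi1 0) (hin2 0)) (hX' _ (hi1 0) (hin2 0))
  · intro i j hij
    have := F.ok_diff (hlt i) (hlt j) (hinj i j hij) (σ := σ) (τ := σ')
      (fun p hp _ => nhub' p hp)
    have e1 : F.sg (ix i) σ = (F.pt (ix i) a, F.pt (ix i) (F.e2 σ)) := by rw [← h1]; rfl
    have e2 : F.sg (ix j) σ' = (F.pt (ix j) a, F.pt (ix j) (F.e2 σ')) := by rw [← h1']; rfl
    rwa [e1, e2] at this
  · intro i
    have := F.ok_diff hεn (hlt i) (hne i).symm (σ := τ) (τ := σ') (fun p hp _ => nhub' p hp)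
    have e2 : F.sg (ix i) σ' = (F.pt (ix i) a, F.pt (ix i) (F.e2 σ')) := by rw [← h1']; rfl
    rwa [e2] at this
  · intro i
    have := F.ok_diff hεn' (hlt i) (hne' i).symm (σ := τ') (τ := σ) (fun p hp _ => nhub p hp)
    have e2 : F.sg (ix i) σ = (F.pt (ix i) a, F.pt (ix i) (F.e2 σ)) := by rw [← h1]; rfl
    rwa [e2] at this
  · rintro rfl
    obtain ⟨l, hl0, hle⟩ := hd 1 le_rfl (by omega)
    obtain ⟨l', hl0', hle'⟩ := hd' 1 le_rfl (by omega)
    have hseg : ∀ (ρ : S) (k m : ℝ), F.e1 ρ = a → 0 < m → 0 ≤ k → k ≤ m →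
        F.pt 1 (F.e2 ρ) = F.pt 1 a + m • δ →
        F.pt 1 a + k • δ ∈ segment ℝ (F.pt 1 (F.e1 ρ)) (F.pt 1 (F.e2 ρ)) := by
      intro ρ k m hρ hm hk hkm hme
      refine ⟨1 - k / m, k / m, by rw [sub_nonneg, div_le_one hm]; exact hkm, by positivity,
        by ring, ?_⟩
      rw [hme, hρ]
      have e : k = k / m * m := by field_simp
      ext
      · simp only [Prod.fst_add, Prod.smul_fst, smul_eq_mul]
        linear_combination (-δ.1) * e
      · simp only [Prod.snd_add, Prod.smul_snd, smul_eq_mul]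
        linear_combination (-δ.2) * e
    have hm0 : 0 < min l l' / 2 := by positivity
    have z1 := hseg σ (min l l' / 2) l h1 hl0 hm0.le (by linarith [min_le_left l l']) hle
    have z2 := hseg σ' (min l l' / 2) l' h1' hl0' hm0.le (by linarith [min_le_right l l']) hle'
    rcases F.same 1 (by omega) σ σ' he _ z1 z2 with ⟨p, hp, hp1, -, hz⟩ | ⟨-, -, hz⟩
    · have hpa : p = a := by
        rcases hp1 with h | h
        · rw [h, h1]
        · rw [h] at hp; exact absurd hp h2
      rw [hpa] at hz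
      have h0 : (min l l' / 2) • δ = 0 := by
        have := sub_eq_zero.2 hz
        rwa [add_sub_cancel_left] at this
      have : dot ((min l l' / 2) • δ) δ = 0 := by rw [h0]; simp [dot]
      rw [dot_smul, hδ, mul_one] at this
      exact hm0.ne' this
    · rw [hle, hle', h1, h1', add_sub_cancel_left, add_sub_cancel_left, dot_smul, dot_smul', hδ]
        at hz
      have : 0 < l * (l' * 1) := by positivity
      exact this.ne' hz

/-- FBD. Two fenced arms on the same side are perpendicular: `lone` for the clusters `1, 2, 3` (in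
the order `3, 2, 1` for the other side). Different directions: at the cluster `1` the two arms
start at the same vertex and belong to different edges, so by `same` they cannot overlap. The
fences belong to the extreme clusters `0`, `n - 1`, so that they are `Ok` with the arms (the arms have
no hub end). -/
theorem side_perp (hn : 6 ≤ n) {a : P} {σ σ' : S} (hva : ¬ F.hub a) (h1 : F.e1 σ = a)
    (h1' : F.e1 σ' = a) (h2 : ¬ F.ver (F.e2 σ)) (h2' : ¬ F.ver (F.e2 σ'))
    (he : F.ed σ ≠ F.ed σ') (hin : ¬ F.Inert σ) (hin' : ¬ F.Inert σ') {δ δ' : Pt}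
    (hδ : dot δ δ = 1) (hδ' : dot δ' δ' = 1)
    (hd : ∀ t, 1 ≤ t → t ≤ n - 2 → ∃ l : ℝ, 0 < l ∧ F.pt t (F.e2 σ) = F.pt t a + l • δ)
    (hd' : ∀ t, 1 ≤ t → t ≤ n - 2 → ∃ l : ℝ, 0 < l ∧ F.pt t (F.e2 σ') = F.pt t a + l • δ')
    (hs : ((∀ t u, 1 ≤ t → t < u → u ≤ n - 2 → 0 < crs (F.pt u a - F.pt t a) δ) ∧
        (∀ t u, 1 ≤ t → t < u → u ≤ n - 2 → 0 < crs (F.pt u a - F.pt t a) δ')) ∨
      ((∀ t u, 1 ≤ t → t < u → u ≤ n - 2 → crs (F.pt u a - F.pt t a) δ < 0) ∧
        (∀ t u, 1 ≤ t → t < u → u ≤ n - 2 → crs (F.pt u a - F.pt t a) δ' < 0))) :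
    dot δ δ' = 0 := by
  rcases hs with ⟨hs, hs'⟩ | ⟨hs, hs'⟩
  · refine F.fbd_aux hn hva h1 h1' h2 h2' he hin hin' hδ hδ' hd hd' ![1, 2, 3] ?_ ?_ ?_ ?_ ?_
    · intro i; fin_cases i <;> simp
    · intro i; fin_cases i <;> simp
    · intro i j hij
      fin_cases i <;> fin_cases j <;> simp at hij ⊢
    · intro i j hij
      refine hs _ _ ?_ ?_ ?_ <;> fin_cases i <;> fin_cases j <;> simp at hij ⊢ <;> omega
    · intro i j hij
      refine hs' _ _ ?_ ?_ ?_ <;> fin_cases i <;> fin_cases j <;> simp at hij ⊢ <;> omega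
  · have hrev : ∀ (u w ζ : Pt), crs (u - w) ζ < 0 → 0 < crs (w - u) ζ := by
      intro u w ζ h
      have : crs (w - u) ζ = - crs (u - w) ζ := by simp [crs]; ring
      rw [this]; linarith
    refine F.fbd_aux hn hva h1 h1' h2 h2' he hin hin' hδ hδ' hd hd' ![3, 2, 1] ?_ ?_ ?_ ?_ ?_
    · intro i; fin_cases i <;> simp
    · intro i; fin_cases i <;> simp
    · intro i j hij
      fin_cases i <;> fin_cases j <;> simp at hij ⊢
    · intro i j hij
      refine hrev _ _ _ (hs _ _ ?_ ?_ ?_) <;> fin_cases i <;> fin_cases j <;> simp at hij ⊢ <;>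
        omega
    · intro i j hij
      refine hrev _ _ _ (hs' _ _ ?_ ?_ ?_) <;> fin_cases i <;> fin_cases j <;> simp at hij ⊢ <;>
        omega

end Fam
end Pool.Agent.RAC

/-!
# Four fenced arms give the walls (piece FOUA)
-/

namespace Pool.Agent.RAC

/-- three pairwise perpendicular unit vectors of the plane do not exist -/
theorem FOUA_three {a b c : Pt} (ha : dot a a = 1) (hb : dot b b = 1) (hc : dot c c = 1)
    (hab : dot a b = 0) (hac : dot a c = 0) (hbc : dot b c = 0) : False := by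
  unfold dot at *
  have h1 : a.1 * (b.1 * c.2 - b.2 * c.1) = 0 := by
    linear_combination c.2 * hab - b.2 * hac
  have h2 : a.2 * (b.1 * c.2 - b.2 * c.1) = 0 := by
    linear_combination b.1 * hac - c.1 * hab
  have h3 : b.1 * c.2 - b.2 * c.1 = 0 := by
    linear_combination a.1 * h1 + a.2 * h2 - (b.1 * c.2 - b.2 * c.1) * ha
  have h4 : (b.1 * c.1 + b.2 * c.2) ^ 2 + (b.1 * c.2 - b.2 * c.1) ^ 2 =
      (b.1 * b.1 + b.2 * b.2) * (c.1 * c.1 + c.2 * c.2) := by ring
  rw [h3, hbc, hb, hc] at h4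
  norm_num at h4

theorem FOUA_pigeon : ∀ f : Fin 5 → Bool, ∃ i j k, i < j ∧ j < k ∧ f i = f j ∧ f j = f k := by
  decide

namespace Fam

variable {n : ℕ} {P S E : Type} (F : Fam n P S E)

/-- `σ` is an arm of the vertex label `a`: it starts there and ends in a bend -/
structure Arm (a : P) (σ : S) : Prop where
  na : ¬ F.hub a
  va : F.ver a
  e1 : F.e1 σ = a
  e2 : ¬ F.ver (F.e2 σ)

/-- FOUA. A vertex label has at most four arms (of different edges) which are not inert: among five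
of them three would be on the same side (`fenced`) and so pairwise perpendicular (`side_perp`):
three pairwise perpendicular unit vectors of the plane do not exist. -/
theorem no_five (hn : 6 ≤ n) {a : P} (w : Fin 5 → S) (hw : ∀ i, F.Arm a (w i))
    (he : ∀ i j, F.ed (w i) = F.ed (w j) → i = j) (hin : ∀ i, ¬ F.Inert (w i)) : False := by
  classical
  have hf := fun i => F.fenced (by omega) (hw i).na (hw i).e1
    (fun h => (hw i).e2 (F.hub_ver _ h)) (hin i)
  choose δ hδ hd _ hs using hf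
  let f : Fin 5 → Bool := fun i =>
    decide (∀ t u, 1 ≤ t → t < u → u ≤ n - 2 → 0 < crs (F.pt u a - F.pt t a) (δ i))
  have hf : ∀ i, f i = true ↔
      (∀ t u, 1 ≤ t → t < u → u ≤ n - 2 → 0 < crs (F.pt u a - F.pt t a) (δ i)) :=
    fun i => decide_eq_true_iff
  have key : ∀ i j, i ≠ j → f i = f j → dot (δ i) (δ j) = 0 := by
    intro i j hij h
    refine F.side_perp hn (hw i).na (hw i).e1 (hw j).e1 (hw i).e2 (hw j).e2
      (fun h' => hij (he i j h')) (hin i) (hin j) (hδ i) (hδ j) (hd i) (hd j) ?_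
    by_cases hi : f i = true
    · left
      exact ⟨(hf i).1 hi, (hf j).1 (h ▸ hi)⟩
    · right
      refine ⟨(hs i).resolve_left (fun h' => hi ((hf i).2 h')),
        (hs j).resolve_left (fun h' => hi (h ▸ (hf j).2 h'))⟩
  obtain ⟨i, j, k, hij, hjk, h1, h2⟩ := FOUA_pigeon f
  exact FOUA_three (hδ i) (hδ j) (hδ k) (key i j hij.ne h1) (key i k (hij.trans hjk).ne (h1.trans h2))
    (key j k hjk.ne h2)

end Fam
end Pool.Agent.RAC

/-!
# Four fenced arms give the walls (piece FOUB)
-/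

namespace Pool.Agent.RAC
namespace Fam

variable {n : ℕ} {P S E : Type} (F : Fam n P S E)

theorem four_crs_J (v w : Pt) : crs v (J w) = dot v w := by simp [crs, J, dot]

theorem four_dot_J (v w : Pt) : dot v (J w) = - crs v w := by simp [crs, J, dot]; ring

theorem four_J_J (w : Pt) : J (J w) = -w := by ext <;> simp [J]

/-- perpendicular unit vectors -/
theorem four_perp {u v : Pt} (hu : dot u u = 1) (hv : dot v v = 1) (h : dot u v = 0) :
    v = J u ∨ u = J v := by
  obtain ⟨a, b⟩ := u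
  obtain ⟨c, e⟩ := v
  simp only [dot, J, Prod.mk.injEq] at *
  have h1 : (a * e - b * c) * (a * e - b * c) = 1 := by
    linear_combination (c * c + e * e) * hu + hv - (a * c + b * e) * h
  have h2 : a * e - b * c = 1 ∨ a * e - b * c = -1 := by
    have : (a * e - b * c - 1) * (a * e - b * c + 1) = 0 := by linarith
    rcases mul_eq_zero.1 this with h | h
    · left; linarith
    · right; linarith
  rcases h2 with h2 | h2
  · left
    constructor
    · linear_combination c * (-hu) + a * h - b * h2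
    · linear_combination e * (-hu) + b * h + a * h2
  · right
    constructor
    · linear_combination (-a) * hv + e * h2 + c * h
    · linear_combination (-b) * hv - c * h2 + e * h

/-- three pairwise perpendicular unit vectors do not exist -/
theorem four_three {u v w : Pt} (hu : dot u u = 1) (hv : dot v v = 1) (hw : dot w w = 1)
    (h1 : dot u v = 0) (h2 : dot u w = 0) (h3 : dot v w = 0) : False := by
  rcases four_perp hu hv h1 with h | h
  · subst h
    rcases four_perp hu hw h2 with h | h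
    · subst h
      rw [hv] at h3
      exact one_ne_zero h3
    · subst h
      rw [four_J_J] at h3
      have : dot (-w) w = - dot w w := by simp [dot]; ring
      rw [this, hw] at h3
      norm_num at h3
  · subst h
    rcases four_perp hv hw h3 with h | h
    · subst h
      rw [hu] at h2
      exact one_ne_zero h2
    · subst h
      rw [four_J_J] at h2
      have : dot (-w) w = - dot w w := by simp [dot]; ring
      rw [this, hw] at h2
      norm_num at h2

/-- two and two -/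
theorem four_split (s : Fin 4 → Bool)
    (h : ∀ i j k : Fin 4, i ≠ j → i ≠ k → j ≠ k → s i = s j → s i = s k → False) :
    ∃ i j k l : Fin 4, s i = true ∧ s j = true ∧ s k = false ∧ s l = false ∧
      i ≠ j ∧ k ≠ l := by
  rcases h0 : s 0 with _ | _ <;> rcases h1 : s 1 with _ | _ <;>
    rcases h2 : s 2 with _ | _ <;> rcases h3 : s 3 with _ | _
  all_goals first
    | exact ⟨0, 1, 2, 3, h0, h1, h2, h3, by decide, by decide⟩
    | exact ⟨0, 2, 1, 3, h0, h2, h1, h3, by decide, by decide⟩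
    | exact ⟨0, 3, 1, 2, h0, h3, h1, h2, by decide, by decide⟩
    | exact ⟨1, 2, 0, 3, h1, h2, h0, h3, by decide, by decide⟩
    | exact ⟨1, 3, 0, 2, h1, h3, h0, h2, by decide, by decide⟩
    | exact ⟨2, 3, 0, 1, h2, h3, h0, h1, by decide, by decide⟩
    | exact (h 0 1 2 (by decide) (by decide) (by decide) (h0.trans h1.symm)
        (h0.trans h2.symm)).elim
    | exact (h 0 1 3 (by decide) (by decide) (by decide) (h0.trans h1.symm)
        (h0.trans h3.symm)).elim
    | exact (h 0 2 3 (by decide) (by decide) (by decide) (h0.trans h2.symm)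
        (h0.trans h3.symm)).elim
    | exact (h 1 2 3 (by decide) (by decide) (by decide) (h1.trans h2.symm)
        (h1.trans h3.symm)).elim

theorem four_inj {i j k l : Fin 4} (h1 : i ≠ j) (h2 : i ≠ k) (h3 : i ≠ l) (h4 : j ≠ k)
    (h5 : j ≠ l) (h6 : k ≠ l) : Function.Injective ![i, j, k, l] := by
  intro p q hpq
  fin_cases p <;> fin_cases q
  all_goals first
    | rfl
    | exact absurd hpq h1
    | exact absurd hpq h2
    | exact absurd hpq h3
    | exact absurd hpq h4
    | exact absurd hpq h5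
    | exact absurd hpq h6
    | exact absurd hpq h1.symm
    | exact absurd hpq h2.symm
    | exact absurd hpq h3.symm
    | exact absurd hpq h4.symm
    | exact absurd hpq h5.symm
    | exact absurd hpq h6.symm

/-- FOUB. Four arms of a vertex label which are not inert are the walls of the points `pt t a`,
`1 ≤ t ≤ n - 2` (numbering of the clusters shifted by one).

Proof. By `fenced`, `side_perp` (and since three pairwise perpendicular vectors do not exist) two
arms `w i, w i'` are on the left side (`crs (pt u a - pt t a) δ > 0`) and perpendicular and two,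
`w j, w j'`, are on the right side and perpendicular. Two perpendicular unit vectors are `d`, `J d` in
a suitable order. Left: `D 0, D 1` such that `d 1 = J (d 0)`, right: `D 2, D 3` such that
`d 2 = J (d 3)`, i.e. `d 3 = - J (d 2)`. mono: with `v = pt u a - pt t a`, `t < u`:
`crs v (d 0) = - dot v (J (d 0)) = - dot v (d 1) > 0`; `crs v (d 1) = dot v (d 0) > 0`; on the right
`crs v (d 2) = - dot v (J (d 2)) = dot v (d 3) < 0`, `crs v (d 3) = - crs v (J (d 2)) = - dot v (d 2) < 0`.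
wall and long are in `fenced`. -/
theorem walls_of_four (hn : 6 ≤ n) {a : P} (w : Fin 4 → S) (hw : ∀ i, F.Arm a (w i))
    (he : ∀ i j, F.ed (w i) = F.ed (w j) → i = j) (hin : ∀ i, ¬ F.Inert (w i)) :
    ∃ (D : Fin 4 → Fin 4) (d : Fin 4 → Pt), Function.Bijective D ∧
      Walls (n - 2) (fun t => F.pt (t + 1) a) d (fun t m => F.pt (t + 1) (F.e2 (w (D m)))) := by
  have hf := fun i => F.fenced (by omega) (hw i).na (hw i).e1
    (fun h => (hw i).e2 (F.hub_ver _ h)) (hin i)
  choose δ hδ hdir hlong hside using hf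
  set Lf : Fin 4 → Prop := fun i =>
    ∀ t u, 1 ≤ t → t < u → u ≤ n - 2 → 0 < crs (F.pt u a - F.pt t a) (δ i) with hLf
  set Rt : Fin 4 → Prop := fun i =>
    ∀ t u, 1 ≤ t → t < u → u ≤ n - 2 → crs (F.pt u a - F.pt t a) (δ i) < 0 with hRt
  -- perpendicular on the same side
  have hperp : ∀ i j, i ≠ j → ((Lf i ∧ Lf j) ∨ (Rt i ∧ Rt j)) → dot (δ i) (δ j) = 0 := by
    intro i j hij h
    exact F.side_perp hn (hw i).na (hw i).e1 (hw j).e1 (hw i).e2 (hw j).e2
      (fun h' => hij (he i j h')) (hin i) (hin j) (hδ i) (hδ j) (hdir i) (hdir j) h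
  classical
  set s : Fin 4 → Bool := fun i => decide (Lf i) with hs
  have hs1 : ∀ i, s i = true → Lf i := fun i h => of_decide_eq_true h
  have hs0 : ∀ i, s i = false → Rt i := fun i h => by
    rcases hside i with h' | h'
    · exact absurd h' (of_decide_eq_false h)
    · exact h'
  have hsame : ∀ i j, s i = s j → (Lf i ∧ Lf j) ∨ (Rt i ∧ Rt j) := by
    intro i j h
    rcases hb : s i with _ | _
    · right
      exact ⟨hs0 i hb, hs0 j (h ▸ hb)⟩
    · left
      exact ⟨hs1 i hb, hs1 j (h ▸ hb)⟩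
  obtain ⟨i, j, k, l, hi, hj, hk, hl, hij, hkl⟩ := four_split s (by
    intro i j k hij hik hjk h1 h2
    exact four_three (hδ i) (hδ j) (hδ k) (hperp i j hij (hsame i j h1))
      (hperp i k hik (hsame i k h2)) (hperp j k hjk (hsame j k (h1.symm.trans h2))))
  -- order the pairs
  obtain ⟨i, j, hi, hj, hij, hJ⟩ : ∃ i j, s i = true ∧ s j = true ∧ i ≠ j ∧ δ j = J (δ i) := by
    rcases four_perp (hδ i) (hδ j) (hperp i j hij (hsame i j (hi.trans hj.symm))) with h | h
    · exact ⟨i, j, hi, hj, hij, h⟩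
    · exact ⟨j, i, hj, hi, hij.symm, h⟩
  obtain ⟨k, l, hk, hl, hkl, hJ'⟩ : ∃ k l, s k = false ∧ s l = false ∧ k ≠ l ∧ δ k = J (δ l) := by
    rcases four_perp (hδ k) (hδ l) (hperp k l hkl (hsame k l (hk.trans hl.symm))) with h | h
    · exact ⟨l, k, hl, hk, hkl.symm, h⟩
    · exact ⟨k, l, hk, hl, hkl, h⟩
  have hne : ∀ p q, s p = true → s q = false → p ≠ q := by
    intro p q hp hq h
    rw [h, hq] at hp
    exact absurd hp (by decide)
  refine ⟨![i, j, k, l], fun m => δ (![i, j, k, l] m), ?_, ?_⟩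
  · exact (Finite.injective_iff_bijective).1 (four_inj hij (hne i k hi hk) (hne i l hi hl)
      (hne j k hj hk) (hne j l hj hl) hkl)
  · refine ⟨fun m => hδ _, ?_, ?_, ?_, ?_, ?_⟩
    · exact hJ
    · show δ l = - J (δ k)
      rw [hJ', four_J_J, neg_neg]
    · intro m t u ht hu hm
      have key : ∀ t' u', t' < n - 2 → u' < n - 2 → t' < u' →
          (dot (F.pt (t' + 1) a) (δ i) < dot (F.pt (u' + 1) a) (δ i)) ∧
          (dot (F.pt (u' + 1) a) (δ j) < dot (F.pt (t' + 1) a) (δ j)) ∧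
          (dot (F.pt (t' + 1) a) (δ k) < dot (F.pt (u' + 1) a) (δ k)) ∧
          (dot (F.pt (u' + 1) a) (δ l) < dot (F.pt (t' + 1) a) (δ l)) := by
        intro t' u' ht' hu' htu
        have e1 := hs1 i hi (t' + 1) (u' + 1) (by omega) (by omega) (by omega)
        have e2 := hs1 j hj (t' + 1) (u' + 1) (by omega) (by omega) (by omega)
        have e3 := hs0 k hk (t' + 1) (u' + 1) (by omega) (by omega) (by omega)
        have e4 := hs0 l hl (t' + 1) (u' + 1) (by omega) (by omega) (by omega)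
        rw [hJ, four_crs_J, dot_sub] at e2
        rw [hJ', four_crs_J, dot_sub] at e3
        refine ⟨by linarith, ?_, ?_, by linarith⟩
        · rw [hJ]
          have : dot (F.pt (u' + 1) a - F.pt (t' + 1) a) (J (δ i)) < 0 := by
            rw [four_dot_J]; linarith
          rw [dot_sub] at this
          linarith
        · rw [hJ']
          have : 0 < dot (F.pt (u' + 1) a - F.pt (t' + 1) a) (J (δ l)) := by
            rw [four_dot_J]; linarith
          rw [dot_sub] at this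
          linarith
      fin_cases m
      · have hm' : t < u := by simpa [prec] using hm
        exact (key t u ht hu hm').1
      · have hm' : u < t := by simpa [prec] using hm
        exact (key u t hu ht hm').2.1
      · have hm' : t < u := by simpa [prec] using hm
        exact (key t u ht hu hm').2.2.1
      · have hm' : u < t := by simpa [prec] using hm
        exact (key u t hu ht hm').2.2.2
    · intro t ht m
      exact hdir _ (t + 1) (by omega) (by omega)
    · intro t u ht hu m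
      exact hlong _ (t + 1) (u + 1) (by omega) (by omega) (by omega) (by omega)

end Fam
end Pool.Agent.RAC

/-!
# The structure theorem for one bend (piece STRA)
-/

namespace Pool.Agent.RAC
namespace Fam

variable {n : ℕ} {P S E : Type} (F : Fam n P S E)

/-- the vertex label `a` is joined to four hubs by edges with two segments `A i`, `B i` -/
structure Legs1 (a : P) (A B : Fin 4 → S) : Prop where
  na : ¬ F.hub a
  va : F.ver a
  A1 : ∀ i, F.e1 (A i) = a
  A2 : ∀ i, ¬ F.ver (F.e2 (A i))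
  B1 : ∀ i, F.e1 (B i) = F.e2 (A i)
  B2 : ∀ i, F.hub (F.e2 (B i))
  Bi : ∀ i j, F.e2 (B i) = F.e2 (B j) → i = j
  eA : ∀ i j, F.ed (A i) = F.ed (A j) → i = j

theorem STRA_cr_zero {s t : Pt × Pt} (h : ¬ Xx s t) : cr s t = 0 := by
  unfold cr
  rw [if_neg h]

theorem STRA_cr_congr {s t s' t' : Pt × Pt} (h : Xx s t ↔ Xx s' t') : cr s t = cr s' t' := by
  unfold cr
  by_cases h1 : Xx s t
  · rw [if_pos h1, if_pos (h.1 h1)]
  · rw [if_neg h1, if_neg (fun h2 => h1 (h.2 h2))]

theorem STRA_crLL (s1 s2 s3 t1 t2 t3 : Pt) :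
    crLL [s1, s2, s3] [t1, t2, t3] =
      (cr (s1, s2) (t1, t2) + cr (s1, s2) (t2, t3)) +
        (cr (s2, s3) (t1, t2) + cr (s2, s3) (t2, t3)) := by
  simp [crLL, crL, segs]

theorem STRA_term (hn : 6 ≤ n) {a : P} {A B : Fin 4 → S} (h : F.Legs1 a A B) {t u : ℕ}
    (htu : t < u) (hu : u < n) (i j : Fin 4) :
    crLL [F.pt t a, F.pt t (F.e2 (A i)), F.pt 0 (F.e2 (B i))]
      [F.pt u a, F.pt u (F.e2 (A j)), F.pt 0 (F.e2 (B j))] =
      cr (F.sg 0 (A i)) (F.sg 1 (A j)) := by
  have hsA : ∀ (t : ℕ) (i : Fin 4), (F.pt t a, F.pt t (F.e2 (A i))) = F.sg t (A i) := by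
    intro t i
    unfold sg
    rw [h.A1]
  have hsB : ∀ (t : ℕ) (i : Fin 4),
      (F.pt t (F.e2 (A i)), F.pt 0 (F.e2 (B i))) = F.sg t (B i) := by
    intro t i
    unfold sg
    rw [h.B1, F.hubc _ (h.B2 i) 0 t]
  rw [STRA_crLL]
  rw [hsA t i, hsA u j, hsB t i, hsB u j]
  have hinB : ∀ i, F.Inert (B i) := fun i => F.hub_inert (by omega) (h.B2 i)
  have h1 : cr (F.sg t (A i)) (F.sg u (B j)) = 0 := by
    rw [cr_comm]
    exact STRA_cr_zero (hinB j u t hu (by omega) (by omega) (A i))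
  have h2 : cr (F.sg t (B i)) (F.sg u (A j)) = 0 :=
    STRA_cr_zero (hinB i t u (by omega) hu (by omega) (A j))
  have h3 : cr (F.sg t (B i)) (F.sg u (B j)) = 0 :=
    STRA_cr_zero (hinB i t u (by omega) hu (by omega) (B j))
  rw [h1, h2, h3]
  have h4 : cr (F.sg t (A i)) (F.sg u (A j)) = cr (F.sg 0 (A i)) (F.sg 1 (A j)) :=
    STRA_cr_congr (F.homX (A i) (A j) t u 0 1 htu hu (by omega) (by omega))
  rw [h4]
  ring

theorem STRA_sum3 (X : Fin 3 → Fin 3 → ZMod 2) :
    (∑ i : Fin 3, ∑ i' : Fin 3, ∑ j : Fin 3, ∑ j' : Fin 3,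
      if i < i' ∧ j ≠ j' then X j j' else 0) =
    (X 0 1 + X 1 0) + (X 1 2 + X 2 1) + (X 0 2 + X 2 0) := by
  simp only [Fin.sum_univ_three]
  have h2 : (2 : ZMod 2) = 0 := by decide
  simp (decide := true)
  linear_combination (X 0 1 + X 0 2 + X 1 0 + X 1 2 + X 2 0 + X 2 1) * h2

/-- STRA. Parity. For three different hubs `i, j, l` the number of ordered pairs of different
elements `i', j'` of `{i, j, l}` such that `A i'` of the cluster `0` crosses `A j'` of the cluster `1` is
odd.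

Proof. `k33` for the points `pt 0 a, pt 1 a, pt 2 a` and the hubs, with the polygonal lines
`[pt t a, pt t (e2 (A i)), hub i]`. All hub segments are inert (`hub_inert`), so in `crLL (P t i) (P u j)`,
`t < u`, only the term `cr (sg t (A i)) (sg u (A j))` can be nonzero, and by `homX` it does not depend on
`t < u`. So the sum over the three pairs `t < u` is three times the sum over `i' ≠ j'`. `Ok` of the
segments: `ok_diff` (for `i ≠ j` there is no common hub). -/
theorem parity1 (hn : 6 ≤ n) {a : P} {A B : Fin 4 → S} (h : F.Legs1 a A B) {i j l : Fin 4}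
    (hij : i ≠ j) (hjl : j ≠ l) (hil : i ≠ l) :
    (cr (F.sg 0 (A i)) (F.sg 1 (A j)) + cr (F.sg 0 (A j)) (F.sg 1 (A i))) +
    (cr (F.sg 0 (A j)) (F.sg 1 (A l)) + cr (F.sg 0 (A l)) (F.sg 1 (A j))) +
    (cr (F.sg 0 (A i)) (F.sg 1 (A l)) + cr (F.sg 0 (A l)) (F.sg 1 (A i))) = 1 := by
  classical
  have hc : ∀ x y : Fin 3, x ≠ y → (![i, j, l] : Fin 3 → Fin 4) x ≠ ![i, j, l] y := by
    intro x y hxy
    fin_cases x <;> fin_cases y <;> simp_all [Ne.symm]
  have hsA : ∀ (t : ℕ) (i : Fin 4), (F.pt t a, F.pt t (F.e2 (A i))) = F.sg t (A i) := by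
    intro t i
    unfold sg
    rw [h.A1]
  have hsB : ∀ (t : ℕ) (i : Fin 4),
      (F.pt t (F.e2 (A i)), F.pt 0 (F.e2 (B i))) = F.sg t (B i) := by
    intro t i
    unfold sg
    rw [h.B1, F.hubc _ (h.B2 i) 0 t]
  have hsegs : ∀ (t : ℕ) (i : Fin 4),
      segs [F.pt t a, F.pt t (F.e2 (A i)), F.pt 0 (F.e2 (B i))] = [F.sg t (A i), F.sg t (B i)] := by
    intro t i
    rw [← hsA, ← hsB]
    rfl
  have hnA2 : ∀ i, ¬ F.hub (F.e2 (A i)) := fun i hh => h.A2 i (F.hub_ver _ hh)
  have key := k33 (fun t : Fin 3 => F.pt (t : ℕ) a)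
    (fun x : Fin 3 => F.pt 0 (F.e2 (B ((![i, j, l] : Fin 3 → Fin 4) x))))
    (fun t x => [F.pt (t : ℕ) a, F.pt (t : ℕ) (F.e2 (A ((![i, j, l] : Fin 3 → Fin 4) x))),
      F.pt 0 (F.e2 (B ((![i, j, l] : Fin 3 → Fin 4) x)))])
    (fun _ _ => by simp) (fun _ _ => rfl) (fun _ _ => rfl)
    (by
      intro t x s hs
      rw [hsegs] at hs
      have ht : (t : ℕ) < n := by have := t.isLt; omega
      simp only [List.mem_cons, List.not_mem_nil, or_false] at hs
      rcases hs with hs | hs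
      · rw [hs]; exact F.nd _ ht _
      · rw [hs]; exact F.nd _ ht _)
    (by
      intro t u x y htu hxy s hs s' hs'
      have ht : (t : ℕ) < n := by have := t.isLt; omega
      have hu : (u : ℕ) < n := by have := u.isLt; omega
      have htu' : (t : ℕ) ≠ (u : ℕ) := fun hh => htu (Fin.ext hh)
      have hcxy := hc x y hxy
      rw [hsegs] at hs hs'
      simp only [List.mem_cons, List.not_mem_nil, or_false] at hs hs'
      rcases hs with hs | hs <;> rcases hs' with hs' | hs' <;> rw [hs, hs']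
      · apply F.ok_diff ht hu htu'
        intro p hp hp1 _
        rcases hp1 with hp1 | hp1
        · rw [hp1, h.A1] at hp; exact h.na hp
        · rw [hp1] at hp; exact hnA2 _ hp
      · apply F.ok_diff ht hu htu'
        intro p hp hp1 _
        rcases hp1 with hp1 | hp1
        · rw [hp1, h.A1] at hp; exact h.na hp
        · rw [hp1] at hp; exact hnA2 _ hp
      · apply F.ok_diff ht hu htu'
        intro p hp _ hp1
        rcases hp1 with hp1 | hp1
        · rw [hp1, h.A1] at hp; exact h.na hp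
        · rw [hp1] at hp; exact hnA2 _ hp
      · apply F.ok_diff ht hu htu'
        intro p hp hp1 hp2
        rcases hp1 with hp1 | hp1
        · rw [hp1, h.B1] at hp; exact hnA2 _ hp
        · rcases hp2 with hp2 | hp2
          · rw [hp2, h.B1] at hp; exact hnA2 _ hp
          · exact hcxy (h.Bi _ _ (hp1.symm.trans hp2)))
  have key2 : (∑ t : Fin 3, ∑ u : Fin 3, ∑ x : Fin 3, ∑ y : Fin 3,
      if t < u ∧ x ≠ y then
        cr (F.sg 0 (A ((![i, j, l] : Fin 3 → Fin 4) x)))
          (F.sg 1 (A ((![i, j, l] : Fin 3 → Fin 4) y))) else 0) = 1 := by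
    rw [← key]
    apply Finset.sum_congr rfl
    intro t _
    apply Finset.sum_congr rfl
    intro u _
    apply Finset.sum_congr rfl
    intro x _
    apply Finset.sum_congr rfl
    intro y _
    by_cases hcond : t < u ∧ x ≠ y
    · rw [if_pos hcond, if_pos hcond]
      have htu : (t : ℕ) < (u : ℕ) := hcond.1
      have hu : (u : ℕ) < n := by have := u.isLt; omega
      exact (F.STRA_term hn h htu hu _ _).symm
    · rw [if_neg hcond, if_neg hcond]
  rw [STRA_sum3 (fun x y => cr (F.sg 0 (A ((![i, j, l] : Fin 3 → Fin 4) x)))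
          (F.sg 1 (A ((![i, j, l] : Fin 3 → Fin 4) y))))] at key2
  exact key2

theorem STRA_sq_ne {q : Pt} (hq : q ≠ 0) : q.1 * q.1 + q.2 * q.2 ≠ 0 := by
  intro h0
  apply hq
  have h1 : q.1 = 0 := by nlinarith [mul_self_nonneg q.1, mul_self_nonneg q.2]
  have h2 : q.2 = 0 := by nlinarith [mul_self_nonneg q.1, mul_self_nonneg q.2]
  exact Prod.ext h1 h2

theorem STRA_dot_zero {p q v w : Pt} (hw : w ≠ 0) (hq : q ≠ 0) (h1 : dot p w = 0)
    (h2 : dot q w = 0) (h3 : dot q v = 0) : dot p v = 0 := by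
  have hq' := STRA_sq_ne hq
  have hw' := STRA_sq_ne hw
  unfold dot at *
  have e1 : (q.1 * p.2 - q.2 * p.1) * (w.1 * w.1 + w.2 * w.2) = 0 := by
    linear_combination (w.1 * p.2 - w.2 * p.1) * h2 - (w.1 * q.2 - w.2 * q.1) * h1
  have e2 : q.1 * p.2 - q.2 * p.1 = 0 := (mul_eq_zero.1 e1).resolve_right hw'
  have e3 : (p.1 * v.1 + p.2 * v.2) * (q.1 * q.1 + q.2 * q.2) = 0 := by
    linear_combination (q.1 * p.1 + q.2 * p.2) * h3 + (q.1 * v.2 - q.2 * v.1) * e2
  exact (mul_eq_zero.1 e3).resolve_right hq'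

theorem STRA_perp (hn : 6 ≤ n) {σ τ : S} (hx : Xx (F.sg 0 σ) (F.sg 1 τ)) {t u : ℕ}
    (ht : t ≤ n - 2) (hu : 1 ≤ u) (hu' : u < n) : dot (F.dir t σ) (F.dir u τ) = 0 := by
  have key : ∀ t u, t < u → u < n → dot (F.dir t σ) (F.dir u τ) = 0 := by
    intro t u htu hu
    exact F.perp_of_Xx (by omega) hu (by omega)
      ((F.homX σ τ 0 1 t u (by omega) (by omega) htu hu).1 hx)
  have hw : F.dir (n - 1) τ ≠ 0 := by
    intro h0
    exact F.nd (n - 1) (by omega) τ (sub_eq_zero.1 h0).symm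
  have hq : F.dir 0 σ ≠ 0 := by
    intro h0
    exact F.nd 0 (by omega) σ (sub_eq_zero.1 h0).symm
  exact STRA_dot_zero hw hq (key t (n - 1) (by omega) (by omega))
    (key 0 (n - 1) (by omega) (by omega)) (key 0 u (by omega) hu')

theorem STRA_dot_comm (p q : Pt) : dot p q = dot q p := by
  unfold dot
  ring

/-- STRA. Three arms cannot be pairwise crossing: if `cr (sg 0 (A i)) (sg 1 (A j)) ≠ 0` or
`cr (sg 0 (A j)) (sg 1 (A i)) ≠ 0` then (by homogeneity and `perp_of_Xx`)
`dot (dir t (A i)) (dir u (A j)) = 0` for all `1 ≤ t, u ≤ n - 2`. -/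
theorem perp1 (hn : 6 ≤ n) {A : Fin 4 → S} {i j : Fin 4}
    (h : cr (F.sg 0 (A i)) (F.sg 1 (A j)) + cr (F.sg 0 (A j)) (F.sg 1 (A i)) ≠ 0) :
    ∀ t u, 1 ≤ t → t ≤ n - 2 → 1 ≤ u → u ≤ n - 2 → dot (F.dir t (A i)) (F.dir u (A j)) = 0 := by
  intro t u ht ht' hu hu'
  by_cases h1 : Xx (F.sg 0 (A i)) (F.sg 1 (A j))
  · exact F.STRA_perp hn h1 ht' hu (by omega)
  · by_cases h2 : Xx (F.sg 0 (A j)) (F.sg 1 (A i))
    · rw [STRA_dot_comm]
      exact F.STRA_perp hn h2 hu' ht (by omega)
    · exact absurd (by rw [STRA_cr_zero h1, STRA_cr_zero h2, add_zero]) h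

end Fam
end Pool.Agent.RAC

/-!
# The structure theorem for one bend (piece STRB)
-/

namespace Pool.Agent.RAC
namespace Fam

variable {n : ℕ} {P S E : Type} (F : Fam n P S E)

private theorem strb_three {a b c : Pt} (ha : a ≠ 0) (hb : b ≠ 0) (hc : c ≠ 0)
    (hab : dot a b = 0) (hbc : dot b c = 0) (hac : dot a c = 0) : False := by
  obtain ⟨a1, a2⟩ := a
  obtain ⟨b1, b2⟩ := b
  obtain ⟨c1, c2⟩ := c
  simp only [dot] at hab hbc hac
  have h1 : (b1 * c2 - b2 * c1) * a1 = 0 := by linear_combination c2 * hab - b2 * hac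
  have h2 : (b1 * c2 - b2 * c1) * a2 = 0 := by linear_combination (-c1) * hab + b1 * hac
  have h3 : b1 * c2 - b2 * c1 = 0 := by
    by_contra h
    have h4 := (mul_eq_zero.mp h1).resolve_left h
    have h5 := (mul_eq_zero.mp h2).resolve_left h
    exact ha (by rw [h4, h5]; rfl)
  have h4 : (b1 * b1 + b2 * b2) * (c1 * c1 + c2 * c2) = 0 := by
    linear_combination (b1 * c2 - b2 * c1) * h3 + (b1 * c1 + b2 * c2) * hbc
  rcases mul_eq_zero.mp h4 with h5 | h5
  · have h6 : b1 = 0 := by nlinarith [mul_self_nonneg b1, mul_self_nonneg b2]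
    have h7 : b2 = 0 := by nlinarith [mul_self_nonneg b1, mul_self_nonneg b2]
    exact hb (by rw [h6, h7]; rfl)
  · have h6 : c1 = 0 := by nlinarith [mul_self_nonneg c1, mul_self_nonneg c2]
    have h7 : c2 = 0 := by nlinarith [mul_self_nonneg c1, mul_self_nonneg c2]
    exact hc (by rw [h6, h7]; rfl)

private theorem strb_y (hn : 6 ≤ n) {a : P} {A B : Fin 4 → S} (h : F.Legs1 a A B) {i j l : Fin 4}
    (hij : i ≠ j) (hjl : j ≠ l) (hil : i ≠ l) (hi : F.Inert (A i)) :
    dot (F.dir 1 (A j)) (F.dir 1 (A l)) = 0 := by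
  have hz : ∀ k, cr (F.sg 0 (A i)) (F.sg 1 (A k)) + cr (F.sg 0 (A k)) (F.sg 1 (A i)) = 0 := by
    intro k
    have h1 : ¬ Xx (F.sg 0 (A i)) (F.sg 1 (A k)) := hi 0 1 (by omega) (by omega) (by omega) _
    have h2 : ¬ Xx (F.sg 0 (A k)) (F.sg 1 (A i)) := by
      rw [Xx_symm]
      exact hi 1 0 (by omega) (by omega) (by omega) _
    unfold cr
    rw [if_neg h1, if_neg h2, add_zero]
  have hp := F.parity1 hn h hij hjl hil
  rw [hz j, hz l, zero_add, add_zero] at hp
  exact F.perp1 hn (A := A) (i := j) (j := l) (by rw [hp]; exact one_ne_zero) 1 1 (le_refl _)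
    (by omega) (le_refl _) (by omega)

/-- STRB. No arm is inert.

Proof. Write `y i j` for the symmetric sum `cr (sg 0 (A i)) (sg 1 (A j)) + cr (sg 0 (A j)) (sg 1 (A i))`.
If `A i` is inert then `y i j = 0` for all `j`. For `j, l ≠ i`, `parity1` gives `y j l = 1`. So for the three
other hubs all `y` are `1`, so the three directions `dir 1 (A j)` are pairwise perpendicular
(`perp1`), which is impossible for three nonzero vectors of the plane. -/
theorem not_inert1 (hn : 6 ≤ n) {a : P} {A B : Fin 4 → S} (h : F.Legs1 a A B) (i : Fin 4) :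
    ¬ F.Inert (A i) := by
  intro hi
  have hnz : ∀ j, F.dir 1 (A j) ≠ 0 := by
    intro j h0
    exact F.nd 1 (by omega) (A j) (sub_eq_zero.mp h0).symm
  have key : ∃ j l k : Fin 4, i ≠ j ∧ i ≠ l ∧ i ≠ k ∧ j ≠ l ∧ l ≠ k ∧ j ≠ k := by
    revert i
    intro i _
    fin_cases i
    · exact ⟨1, 2, 3, by decide⟩
    · exact ⟨0, 2, 3, by decide⟩
    · exact ⟨0, 1, 3, by decide⟩
    · exact ⟨0, 1, 2, by decide⟩
  obtain ⟨j, l, k, h1, h2, h3, h4, h5, h6⟩ := key
  exact strb_three (hnz j) (hnz l) (hnz k) (F.strb_y hn h h1 h4 h2 hi) (F.strb_y hn h h2 h5 h3 hi)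
    (F.strb_y hn h h1 h6 h3 hi)

/-- STRB. The structured label (one bend): walls = strands = arms. -/
theorem lb1 (hn : 6 ≤ n) {a : P} {A B : Fin 4 → S} (h : F.Legs1 a A B) :
    ∃ (L : Lb (F.shift (by omega))) (D : Fin 4 → Fin 4), Function.Bijective D ∧ L.a = a ∧
      (∀ m, L.w m = A (D m)) ∧ (∀ m, L.sd m = A (D m)) ∧ (∀ m, L.bs m = B (D m)) := by
  obtain ⟨D, d, hD, W⟩ := F.walls_of_four hn A (fun i => ⟨h.na, h.va, h.A1 i, h.A2 i⟩) h.eA
    (F.not_inert1 hn h)
  refine ⟨{ a := a, d := d, w := fun m => A (D m), sd := fun m => A (D m), bs := fun m => B (D m)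
            va := h.va
            na := h.na
            w1 := fun m => h.A1 _
            w2 := fun m => h.A2 _
            wi := fun m m' hm => hD.1 (h.eA _ _ hm)
            W := W
            s0 := ?_, s1 := ?_, sK := ?_, slev := ?_, slong := ?_
            b1 := fun m => h.B1 _
            bh := fun m => h.B2 _
            bi := fun m m' hm => hD.1 (h.Bi _ _ hm)
            pre := fun m => Or.inl (h.A1 _) }, D, hD, rfl, fun _ => rfl, fun _ => rfl, fun _ => rfl⟩
  · intro m
    refine ⟨?_, h.A2 _⟩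
    show ¬ F.hub (F.e1 (A (D m)))
    rw [h.A1]
    exact h.na
  · intro t ht m
    show ∃ l : ℝ, 0 < l ∧ F.pt (t + 1) (F.e2 (A (D m))) =
      F.pt (t + 1) (F.e1 (A (D m))) + l • d m
    rw [h.A1]
    exact W.wall t ht m
  · intro m s t u h1 h2 h3
    show F.pt (t + 1) (F.e1 (A (D m))) ∈ K (fun t => F.pt (t + 1) a) d s u
    rw [h.A1]
    exact W.x_mem_K h1 h2 h3
  · intro m t v ht hv hp
    show dot (F.pt (v + 1) a) (d (st m)) < dot (F.pt (t + 1) (F.e1 (A (D m)))) (d (st m)) ∧
      dot (F.pt (v + 1) (F.e1 (A (D m)))) (d (st m)) < dot (F.pt (t + 1) a) (d (st m))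
    rw [h.A1]
    have := W.mono (st m) v t hv ht (prec_st.mpr hp)
    exact ⟨this, this⟩
  · intro t u ht hu m
    exact W.long t u ht hu m

end Fam
end Pool.Agent.RAC
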