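import Pool.Agent.Lib_MP_638f75_lc.H.HC

/-!
# Structured labels: confinement, cells (piece LABA)
-/

namespace Pool.Agent.RAC
namespace Lb

variable {n : ℕ} {P S E : Type} {F : Fam n P S E} (L : Lb F)

/-- LABA. A segment of another cluster is legal with respect to the walls. (`diff`; the ends of the
walls are not hubs.) -/
theorem legal {t v : ℕ} (ht : t < n) (hv : v < n) (htv : t ≠ v) (σ : S) (m : Fin 4) :
    Lg (F.pt t (F.e1 σ)) (F.pt t (F.e2 σ)) (F.pt v L.a) (F.pt v (F.e2 (L.w m))) := by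
  intro z h1 h2
  rcases F.diff t v ht hv htv σ (L.w m) z h1 (by rw [L.w1 m]; exact h2) with
    ⟨p, hp, -, h4, -⟩ | ⟨-, h4, h5⟩
  · exfalso
    rcases h4 with rfl | rfl
    · rw [L.w1 m] at hp; exact L.na hp
    · exact L.w2 m (F.hub_ver _ hp)
  · rw [L.w1 m] at h4 h5
    exact ⟨h4, h5⟩

/-- LABA. legality of the reversed segment -/
theorem legal' {t v : ℕ} (ht : t < n) (hv : v < n) (htv : t ≠ v) (σ : S) (m : Fin 4) :
    Lg (F.pt t (F.e2 σ)) (F.pt t (F.e1 σ)) (F.pt v L.a) (F.pt v (F.e2 (L.w m))) := by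
  intro z h1 h2
  rw [segment_symm] at h1
  have h := L.legal ht hv htv σ m z h1 h2
  refine ⟨h.1, ?_⟩
  have e : F.pt t (F.e1 σ) - F.pt t (F.e2 σ) = -(F.pt t (F.e2 σ) - F.pt t (F.e1 σ)) := by abel
  rw [e, dot_neg, h.2, neg_zero]

/-- LABA. homogeneity of the coordinates: `p` of cluster `t` against `q` of cluster `u`, in the
direction `d m`. (`L.d m` is a positive multiple of `pt u (e2 (w m)) - pt u a`; `homD`.) -/
theorem hom_lt (m : Fin 4) (p q : P) (k : Fin 4) {t u t' u' : ℕ} (ht : t < n) (hu : u < n)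
    (ht' : t' < n) (hu' : u' < n) (h : prec k t u) (h' : prec k t' u') :
    dot (F.pt t p) (L.d m) < dot (F.pt u q) (L.d m) ↔
      dot (F.pt t' p) (L.d m) < dot (F.pt u' q) (L.d m) := by
  obtain ⟨l, hl0, hl⟩ := L.W.wall u hu m
  obtain ⟨l', hl0', hl'⟩ := L.W.wall u' hu' m
  have e : F.pt u (F.e2 (L.w m)) - F.pt u L.a = l • L.d m := by
    have : F.pt u (F.e2 (L.w m)) = F.pt u L.a + l • L.d m := hl
    rw [this]; abel
  have e' : F.pt u' (F.e2 (L.w m)) - F.pt u' L.a = l' • L.d m := by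
    have : F.pt u' (F.e2 (L.w m)) = F.pt u' L.a + l' • L.d m := hl'
    rw [this]; abel
  have key : SignType.sign (dot (F.pt u q - F.pt t p) (F.pt u (F.e2 (L.w m)) - F.pt u L.a)) =
      SignType.sign (dot (F.pt u' q - F.pt t' p)
        (F.pt u' (F.e2 (L.w m)) - F.pt u' L.a)) := by
    unfold prec at h h'
    by_cases hk : k = 0 ∨ k = 2
    · rw [if_pos hk] at h h'
      exact F.homD (false, p) (true, q) (true, L.a) (true, F.e2 (L.w m)) t u t' u' h hu h' hu'
    · rw [if_neg hk] at h h'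
      exact F.homD (true, p) (false, q) (false, L.a) (false, F.e2 (L.w m)) u t u' t' h ht h' ht'
  rw [e, e', dot_smul', dot_smul', sign_mul, sign_mul, sign_pos hl0, sign_pos hl0', one_mul,
    one_mul, dot_sub, dot_sub] at key
  constructor
  · intro h1
    rw [sign_pos (sub_pos.2 h1)] at key
    exact sub_pos.1 (sign_eq_one_iff.1 key.symm)
  · intro h1
    rw [sign_pos (sub_pos.2 h1)] at key
    exact sub_pos.1 (sign_eq_one_iff.1 key)

/-- LABA. homogeneity of signs of scalar products inside one cluster -/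
theorem laba_homD (hn : 3 ≤ n) (m : Fin 4) (p q : P) {t t' : ℕ} (ht : t < n) (ht' : t' < n) :
    SignType.sign (dot (F.pt t q - F.pt t p) (L.d m)) =
      SignType.sign (dot (F.pt t' q - F.pt t' p) (L.d m)) := by
  have hw : ∀ t, t < n → ∃ l : ℝ, 0 < l ∧ F.pt t (F.e2 (L.w m)) - F.pt t L.a = l • L.d m := by
    intro t ht
    obtain ⟨l, hl0, hl⟩ := L.W.wall t ht m
    refine ⟨l, hl0, ?_⟩
    have : F.pt t (F.e2 (L.w m)) = F.pt t L.a + l • L.d m := hl
    rw [this]; abel
  have hred : ∀ t, t < n → SignType.sign (dot (F.pt t q - F.pt t p)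
      (F.pt t (F.e2 (L.w m)) - F.pt t L.a)) =
      SignType.sign (dot (F.pt t q - F.pt t p) (L.d m)) := by
    intro t ht
    obtain ⟨l, hl0, hl⟩ := hw t ht
    rw [hl, dot_smul', sign_mul, sign_pos hl0, one_mul]
  have h1 : ∀ t, t < n → SignType.sign (dot (F.pt t q - F.pt t p) (L.d m)) =
      SignType.sign (dot (F.pt 1 q - F.pt 1 p) (L.d m)) := by
    intro t ht
    rw [← hred t ht, ← hred 1 (by omega)]
    rcases Nat.lt_or_ge t 1 with h | h
    · exact F.homD (false, p) (false, q) (false, L.a) (false, F.e2 (L.w m)) t 1 1 2 h (by omega)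
        (by omega) (by omega)
    · exact F.homD (true, p) (true, q) (true, L.a) (true, F.e2 (L.w m)) 0 t 0 1 (by omega) ht
        (by omega) (by omega)
  rw [h1 t ht, h1 t' ht']

/-- LABA. homogeneity of signs of cross products inside one cluster -/
theorem laba_homC (hn : 3 ≤ n) (m : Fin 4) (p q : P) {t t' : ℕ} (ht : t < n) (ht' : t' < n) :
    SignType.sign (crs (F.pt t q - F.pt t p) (L.d m)) =
      SignType.sign (crs (F.pt t' q - F.pt t' p) (L.d m)) := by
  have hw : ∀ t, t < n → ∃ l : ℝ, 0 < l ∧ F.pt t (F.e2 (L.w m)) - F.pt t L.a = l • L.d m := by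
    intro t ht
    obtain ⟨l, hl0, hl⟩ := L.W.wall t ht m
    refine ⟨l, hl0, ?_⟩
    have : F.pt t (F.e2 (L.w m)) = F.pt t L.a + l • L.d m := hl
    rw [this]; abel
  have hred : ∀ t, t < n → SignType.sign (crs (F.pt t q - F.pt t p)
      (F.pt t (F.e2 (L.w m)) - F.pt t L.a)) =
      SignType.sign (crs (F.pt t q - F.pt t p) (L.d m)) := by
    intro t ht
    obtain ⟨l, hl0, hl⟩ := hw t ht
    have hcr : ∀ (w v : Pt) (k : ℝ), crs w (k • v) = k * crs w v := by
      intro w v k; simp [crs]; ring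
    rw [hl, hcr, sign_mul, sign_pos hl0, one_mul]
  have h1 : ∀ t, t < n → SignType.sign (crs (F.pt t q - F.pt t p) (L.d m)) =
      SignType.sign (crs (F.pt 1 q - F.pt 1 p) (L.d m)) := by
    intro t ht
    rw [← hred t ht, ← hred 1 (by omega)]
    rcases Nat.lt_or_ge t 1 with h | h
    · exact F.homC (false, p) (false, q) (false, L.a) (false, F.e2 (L.w m)) t 1 1 2 h (by omega)
        (by omega) (by omega)
    · exact F.homC (true, p) (true, q) (true, L.a) (true, F.e2 (L.w m)) 0 t 0 1 (by omega) ht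
        (by omega) (by omega)
  rw [h1 t ht, h1 t' ht']

/-- LABA. homogeneity of the direction of the vector between two points of a cluster -/
theorem hom_dir (hn : 3 ≤ n) (m : Fin 4) (p q : P) {t t' : ℕ} (ht : t < n) (ht' : t' < n)
    (h : ∃ l : ℝ, 0 < l ∧ F.pt t q - F.pt t p = l • L.d m) :
    ∃ l : ℝ, 0 < l ∧ F.pt t' q - F.pt t' p = l • L.d m := by
  obtain ⟨l, hl0, hl⟩ := h
  have hu := L.W.unit m
  have hD := L.laba_homD hn m p q ht ht'
  have hC := L.laba_homC hn m p q ht ht'
  have hc0 : crs (F.pt t q - F.pt t p) (L.d m) = 0 := by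
    rw [hl]; simp [crs]; ring
  have hd0 : 0 < dot (F.pt t q - F.pt t p) (L.d m) := by
    rw [hl, dot_smul, hu, mul_one]; exact hl0
  rw [hc0, sign_zero] at hC
  rw [sign_pos hd0] at hD
  have hc1 : crs (F.pt t' q - F.pt t' p) (L.d m) = 0 := sign_eq_zero_iff.1 hC.symm
  have hd1 : 0 < dot (F.pt t' q - F.pt t' p) (L.d m) := sign_eq_one_iff.1 hD.symm
  refine ⟨_, hd1, ?_⟩
  have hne : L.d m ≠ 0 := by
    intro h
    rw [h] at hu
    simp [dot] at hu
  have := Fam.fbc_smul hne hc1
  rwa [hu, div_one] at this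

/-- LABA. homogeneity of perpendicularity -/
theorem hom_perp (hn : 3 ≤ n) (m : Fin 4) (p q : P) {t t' : ℕ} (ht : t < n) (ht' : t' < n)
    (h : dot (F.pt t q - F.pt t p) (L.d m) = 0) : dot (F.pt t' q - F.pt t' p) (L.d m) = 0 := by
  have hD := L.laba_homD hn m p q ht ht'
  rw [h, sign_zero] at hD
  exact sign_eq_zero_iff.1 hD.symm

/-- LABA. `L.IN` can be tested with far neighbours: by homogeneity it suffices that for every
direction `m` there is a pair `t, v` with `prec m t v` and `c_m (pt t p) < c_m (x v)`. -/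
theorem IN_iff (hn : 3 ≤ n) (p : P) :
    L.IN p ↔ ∀ m, ∃ t v, t < n ∧ v < n ∧ prec m t v ∧
      dot (F.pt t p) (L.d m) < dot (F.pt v L.a) (L.d m) := by
  constructor
  · intro h m
    have h1 := h 0 1 2 (by omega) (by omega) (by omega)
    have h2 : dot (F.pt 1 p) (L.d m) < dot (F.pt (lat m 0 2) L.a) (L.d m) := h1 m
    refine ⟨1, lat m 0 2, by omega, ?_, ?_, h2⟩
    · unfold lat; split_ifs <;> omega
    · unfold lat prec; split_ifs <;> omega
  · intro h s t u h1 h2 h3 m
    obtain ⟨t0, v0, h4, h5, h6, h7⟩ := h m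
    show dot (F.pt t p) (L.d m) < dot (F.pt (lat m s u) L.a) (L.d m)
    refine (L.hom_lt m p L.a m (by omega) ?_ h4 h5 ?_ h6).2 h7
    · unfold lat; split_ifs <;> omega
    · unfold lat prec; split_ifs <;> omega

/-- LABA. -/
theorem IN_lt {p : P} (hn : 3 ≤ n) (h : L.IN p) (m : Fin 4) {t v : ℕ} (ht : t < n) (hv : v < n)
    (htv : prec m t v) : dot (F.pt t p) (L.d m) < dot (F.pt v L.a) (L.d m) := by
  obtain ⟨t0, v0, h4, h5, h6, h7⟩ := (L.IN_iff hn p).1 h m
  exact (L.hom_lt m p L.a m ht hv h4 h5 htv h6).2 h7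

theorem IN_self : L.IN L.a := fun _ _ _ h1 h2 h3 => L.W.x_mem_K h1 h2 h3

end Lb
end Pool.Agent.RAC

/-!
# Structured labels: confinement (piece LABB)
-/

namespace Pool.Agent.RAC
namespace Lb

variable {n : ℕ} {P S E : Type} {F : Fam n P S E} (L : Lb F)

/-- LABB. Confined segments are never crossed by segments of other clusters.

Proof. Suppose `Xx (sg t σ) (sg u τ)`. If `t < u`: by homogeneity `sg (n-1) τ` crosses `sg 1 σ`, which is
contained in the convex cell `C 0 2`, and `sg 3 σ ⊂ C 2 4`; `n - 1 > 4`. The part of the segment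
`sg (n-1) τ` between the two crossing points is legal with respect to the walls of the clusters
`0, 2` (`legal`, `Lg.mono`): contradiction to `notwo`. If `u < t`: the same with `sg 0 τ`, `sg 2 σ ⊂ C 1 3`,
`sg 4 σ ⊂ C 3 5`. -/
theorem conf_inert (hn : 6 ≤ n) {σ : S} (h1 : L.IN (F.e1 σ)) (h2 : L.IN (F.e2 σ)) :
    F.Inert σ := by
  intro t u ht hu htu τ hX
  rcases lt_or_gt_of_ne htu with h | h
  · have key : ∀ t' u' : ℕ, t' < u' → u' < n →
        Xx (F.pt t' (F.e1 σ), F.pt t' (F.e2 σ)) (F.pt u' (F.e1 τ), F.pt u' (F.e2 τ)) :=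
      fun t' u' h3 h4 => (F.homX σ τ t u t' u' h hu h3 h4).1 hX
    obtain ⟨z1, hz1, hz1'⟩ := key 1 (n - 1) (by omega) (by omega)
    obtain ⟨z3, hz3, hz3'⟩ := key 3 (n - 1) (by omega) (by omega)
    have hc1 : z1 ∈ K (fun t => F.pt t L.a) L.d 0 2 :=
      Walls.K_convex (h1 0 1 2 (by omega) (by omega) (by omega))
        (h2 0 1 2 (by omega) (by omega) (by omega)) (openSegment_subset_segment ℝ _ _ hz1)
    have hc3 : z3 ∈ K (fun t => F.pt t L.a) L.d 2 4 :=
      Walls.K_convex (h1 2 3 4 (by omega) (by omega) (by omega))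
        (h2 2 3 4 (by omega) (by omega) (by omega)) (openSegment_subset_segment ℝ _ _ hz3)
    refine L.W.notwo (s := 0) (u := 2) (s' := 2) (u' := 4) (by omega) le_rfl (by omega) (by omega)
      hc1 hc3 ?_
    intro v hv m
    refine (L.legal (t := n - 1) (v := v) (by omega) (by omega) (by omega) τ m).mono
      (openSegment_subset_segment ℝ _ _ hz1') (openSegment_subset_segment ℝ _ _ hz3')
  · have key : ∀ t' u' : ℕ, t' < u' → u' < n →
        Xx (F.pt t' (F.e1 τ), F.pt t' (F.e2 τ)) (F.pt u' (F.e1 σ), F.pt u' (F.e2 σ)) := by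
      intro t' u' h3 h4
      refine (F.homX τ σ u t t' u' h ht h3 h4).1 ?_
      obtain ⟨z, hz, hz'⟩ := hX
      exact ⟨z, hz', hz⟩
    obtain ⟨z1, hz1', hz1⟩ := key 0 2 (by omega) (by omega)
    obtain ⟨z3, hz3', hz3⟩ := key 0 4 (by omega) (by omega)
    have hc1 : z1 ∈ K (fun t => F.pt t L.a) L.d 1 3 :=
      Walls.K_convex (h1 1 2 3 (by omega) (by omega) (by omega))
        (h2 1 2 3 (by omega) (by omega) (by omega)) (openSegment_subset_segment ℝ _ _ hz1)
    have hc3 : z3 ∈ K (fun t => F.pt t L.a) L.d 3 5 :=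
      Walls.K_convex (h1 3 4 5 (by omega) (by omega) (by omega))
        (h2 3 4 5 (by omega) (by omega) (by omega)) (openSegment_subset_segment ℝ _ _ hz3)
    refine L.W.notwo (s := 1) (u := 3) (s' := 3) (u' := 5) (by omega) le_rfl (by omega) (by omega)
      hc1 hc3 ?_
    intro v hv m
    refine (L.legal (t := 0) (v := v) (by omega) (by omega) (by omega) τ m).mono
      (openSegment_subset_segment ℝ _ _ hz1') (openSegment_subset_segment ℝ _ _ hz3')

/-- one step of `IN_of_Conn` -/
theorem LABB_step {p q : P} {σ : S} (hσ : F.Inert σ)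
    (hpq : (F.e1 σ = p ∧ F.e2 σ = q) ∨ (F.e1 σ = q ∧ F.e2 σ = p)) (h : L.IN p) : L.IN q := by
  intro s t u hst htu hu
  by_contra hq
  have hleg : ∀ v, v = s ∨ v = u → ∀ m, Lg (F.pt t p) (F.pt t q) (F.pt v L.a)
      (F.pt v (F.e2 (L.w m))) := by
    intro v hv m
    rcases hpq with ⟨h1, h2⟩ | ⟨h1, h2⟩
    · have := L.legal (t := t) (v := v) (by omega) (by omega) (by omega) σ m
      rwa [h1, h2] at this
    · have := L.legal' (t := t) (v := v) (by omega) (by omega) (by omega) σ m
      rwa [h1, h2] at this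
  obtain ⟨m, -, -, -, -, z, hz1, hz2, -⟩ :=
    L.W.exit (hst.trans htu) hu (h s t u hst htu hu) hq hleg
  have hv : lat m s u = s ∨ lat m s u = u := by
    unfold lat; split_ifs
    · exact Or.inr rfl
    · exact Or.inl rfl
  have hzσ : z ∈ segment ℝ (F.pt t (F.e1 σ)) (F.pt t (F.e2 σ)) := by
    rcases hpq with ⟨h1, h2⟩ | ⟨h1, h2⟩
    · rw [h1, h2]; exact hz1
    · rw [h1, h2, segment_symm]; exact hz1
  have hz2' : z ∈ segment ℝ (F.pt (lat m s u) (F.e1 (L.w (st m))))
      (F.pt (lat m s u) (F.e2 (L.w (st m)))) := by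
    rw [L.w1]
    exact openSegment_subset_segment ℝ _ _ hz2
  have hlt : lat m s u < n := by rcases hv with h | h <;> rw [h] <;> omega
  have hne : t ≠ lat m s u := by rcases hv with h | h <;> rw [h] <;> omega
  rcases F.diff t (lat m s u) (by omega) hlt hne σ (L.w (st m)) z hzσ hz2' with
    ⟨p', hp', -, hp2, -⟩ | ⟨ho1, ho2, -⟩
  · rcases hp2 with hp2 | hp2
    · rw [L.w1] at hp2
      exact L.na (hp2 ▸ hp')
    · exact L.w2 (st m) (hp2 ▸ F.hub_ver _ hp')
  · exact hσ t (lat m s u) (by omega) hlt hne (L.w (st m)) ⟨z, ho1, ho2⟩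

/-- LABB. Inert segments do not leave the cells. (If `pt t p ∈ C s u`, `pt t q ∉ C s u` then by `exit`
the segment crosses a wall of `s` or of `u` in an interior point of the wall; by `diff` it is a
crossing `Xx`, contradiction to inertness.) Induction on the path. -/
theorem IN_of_Conn {p q : P} (h : L.IN p) (hc : F.Conn p q) : L.IN q := by
  induction hc with
  | refl => exact h
  | tail _ hb ih =>
    obtain ⟨σ, hσ, hpq⟩ := hb
    exact L.LABB_step hσ hpq ih

/-- LABB. A hub is never confined: it would be a common point of disjoint cells (`n ≥ 5`: `C 0 2`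
and `C 2 4`). -/
theorem not_IN_hub (hn : 5 ≤ n) {p : P} (h : F.hub p) : ¬ L.IN p := by
  intro hin
  have h1 := hin 0 1 2 (by omega) (by omega) (by omega)
  have h3 := hin 2 3 4 (by omega) (by omega) (by omega)
  rw [F.hubc p h 3 1] at h3
  exact L.W.K_disjoint (s := 0) (u := 2) (s' := 2) (u' := 4) (by omega) le_rfl (by omega) (by omega)
    h1 h3

end Lb
end Pool.Agent.RAC

/-!
# Structured labels: end segments (piece LABC)
-/

namespace Pool.Agent.RAC
namespace Lb

variable {n : ℕ} {P S E : Type} {F : Fam n P S E} (L : Lb F)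

private theorem labc_mem {x v : Pt} {l k : ℝ} (hl : 0 < l) (hk : 0 ≤ k) (hkl : k ≤ l) :
    x + k • v ∈ segment ℝ x (x + l • v) := by
  refine ⟨1 - k / l, k / l, ?_, by positivity, by ring, ?_⟩
  · rw [sub_nonneg, div_le_one hl]
    exact hkl
  · have h9 : k • v = (k / l) • (l • v) := by
      rw [smul_smul]
      congr 1
      field_simp
    rw [h9]
    module

private theorem labc_core {p q : P} {σ : S} (hp : p = L.a)
    (hs : (F.e1 σ = p ∧ F.e2 σ = q) ∨ (F.e1 σ = q ∧ F.e2 σ = p))
    (he : ∀ m, F.ed σ ≠ F.ed (L.w m)) {t : ℕ} (ht : t < n)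
    (m : Fin 4) {l : ℝ} (hl : 0 < l) : F.pt t q - F.pt t L.a ≠ l • L.d m := by
  intro h
  subst hp
  obtain ⟨l', hl', he'⟩ := L.W.wall t ht m
  have he2 : F.pt t (F.e2 (L.w m)) = F.pt t L.a + l' • L.d m := he'
  have hq : F.pt t q = F.pt t L.a + l • L.d m := by
    rw [← h]
    abel
  have hun : dot (L.d m) (L.d m) = 1 := L.W.unit m
  have hmin : 0 < min l l' := lt_min hl hl'
  have z1 : F.pt t L.a + (min l l') • L.d m ∈ segment ℝ (F.pt t L.a) (F.pt t q) := by
    rw [hq]
    exact labc_mem hl hmin.le (min_le_left _ _)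
  have z1' : F.pt t L.a + (min l l') • L.d m ∈
      segment ℝ (F.pt t (F.e1 σ)) (F.pt t (F.e2 σ)) := by
    rcases hs with ⟨h1, h2⟩ | ⟨h1, h2⟩
    · rw [h1, h2]
      exact z1
    · rw [h1, h2, segment_symm]
      exact z1
  have z2 : F.pt t L.a + (min l l') • L.d m ∈
      segment ℝ (F.pt t (F.e1 (L.w m))) (F.pt t (F.e2 (L.w m))) := by
    rw [L.w1 m, he2]
    exact labc_mem hl' hmin.le (min_le_right _ _)
  rcases F.same t ht σ (L.w m) (he m) _ z1' z2 with ⟨r, hr, -, h4, h5⟩ | ⟨-, -, h5⟩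
  · rcases h4 with h4 | h4
    · rw [h4, L.w1 m] at h5
      have h6 : (min l l') • L.d m = 0 := by
        have := sub_eq_zero.mpr h5
        rwa [add_sub_cancel_left] at this
      have h7 : dot ((min l l') • L.d m) (L.d m) = 0 := by
        rw [h6]
        simp [dot]
      rw [dot_smul, hun, mul_one] at h7
      exact hmin.ne' h7
    · rw [h4] at hr
      exact L.w2 m hr
  · have h6 : F.pt t (F.e2 (L.w m)) - F.pt t (F.e1 (L.w m)) = l' • L.d m := by
      rw [L.w1 m, he2, add_sub_cancel_left]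
    have h7 : F.pt t (F.e2 σ) - F.pt t (F.e1 σ) = l • L.d m ∨
        F.pt t (F.e2 σ) - F.pt t (F.e1 σ) = (-l) • L.d m := by
      rcases hs with ⟨h1, h2⟩ | ⟨h1, h2⟩
      · left
        rw [h1, h2, h]
      · right
        rw [h1, h2, neg_smul, ← h]
        abel
    rcases h7 with h7 | h7
    · rw [h6, h7, dot_smul, dot_smul', hun, mul_one] at h5
      exact (mul_pos hl hl').ne' h5
    · rw [h6, h7, dot_smul, dot_smul', hun, mul_one] at h5
      have := mul_pos hl hl'
      linarith

/-- LABC. End segments at the vertex which are not walls are confined.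

Proof. If `pt t (e2 σ) ∉ C s u` then by `exit` `dir t σ = l d m`, `l > 0`; the wall `w m` of the cluster `t`
starts at the same point in the same direction, and belongs to another edge: take a common point
near (but different from) `pt t a` and apply `same`: contradiction (`e2 (w m)` is not a vertex; the
only possible common vertex is `a`; and parallel segments are not perpendicular). -/
theorem end_conf {σ : S} (h1 : F.e1 σ = L.a) (he : ∀ m, F.ed σ ≠ F.ed (L.w m)) :
    L.IN (F.e2 σ) := by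
  intro s t u h2 h3 h4
  by_contra hc
  have hP : F.pt t L.a ∈ K (fun t => F.pt t L.a) L.d s u := L.W.x_mem_K h2 h3 h4
  obtain ⟨m, ⟨l, hl, h5⟩, -⟩ := L.W.exit (h2.trans h3) h4 hP hc (by
    intro v hv m
    have h6 := L.legal (t := t) (v := v) (by omega) (by omega) (by omega) σ m
    rw [h1] at h6
    exact h6)
  exact L.labc_core rfl (Or.inl ⟨h1, rfl⟩) he (by omega) m hl h5

/-- LABC. the same for a segment which ends at the vertex -/
theorem end_conf' {σ : S} (h1 : F.e2 σ = L.a) (he : ∀ m, F.ed σ ≠ F.ed (L.w m)) :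
    L.IN (F.e1 σ) := by
  intro s t u h2 h3 h4
  by_contra hc
  have hP : F.pt t L.a ∈ K (fun t => F.pt t L.a) L.d s u := L.W.x_mem_K h2 h3 h4
  obtain ⟨m, ⟨l, hl, h5⟩, -⟩ := L.W.exit (h2.trans h3) h4 hP hc (by
    intro v hv m
    have h6 := L.legal' (t := t) (v := v) (by omega) (by omega) (by omega) σ m
    rw [h1] at h6
    exact h6)
  exact L.labc_core rfl (Or.inr ⟨rfl, h1⟩) he (by omega) m hl h5

/-- LABC. End segments are not in the direction of the walls. -/
theorem end_dir {σ : S} (h1 : F.e1 σ = L.a) (he : ∀ m, F.ed σ ≠ F.ed (L.w m)) {t : ℕ} (ht : t < n)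
    (m : Fin 4) {l : ℝ} (hl : 0 < l) : F.pt t (F.e2 σ) - F.pt t L.a ≠ l • L.d m := by
  exact L.labc_core rfl (Or.inl ⟨h1, rfl⟩) he ht m hl

theorem end_dir' {σ : S} (h1 : F.e2 σ = L.a) (he : ∀ m, F.ed σ ≠ F.ed (L.w m)) {t : ℕ} (ht : t < n)
    (m : Fin 4) {l : ℝ} (hl : 0 < l) : F.pt t (F.e1 σ) - F.pt t L.a ≠ l • L.d m := by
  exact L.labc_core rfl (Or.inr ⟨rfl, h1⟩) he ht m hl

/-- LABC. the strand is connected with the label by inert segments (or starts there) -/
theorem conn_strand (hn : 6 ≤ n) (m : Fin 4) : F.Conn L.a (F.e1 (L.sd m)) := by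
  rcases L.pre m with h | ⟨σ, h1, h2⟩
  · rw [h]
    exact Relation.ReflTransGen.refl
  · refine Relation.ReflTransGen.single ⟨σ, L.conf_inert hn ?_ ?_, Or.inl ⟨h1, h2⟩⟩
    · rw [h1]
      exact L.IN_self
    · rw [h2]
      intro s t u h3 h4 h5
      exact L.sK m s t u h3 h4 h5

end Lb
end Pool.Agent.RAC

/-!
# Labels with the same cells (piece SCA)
-/

namespace Pool.Agent.RAC
namespace Lb

variable {n : ℕ} {P S E : Type} {F : Fam n P S E}

theorem sca_prec_lat (m : Fin 4) {s t u : ℕ} (h1 : s < t) (h2 : t < u) :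
    prec m t (lat m s u) := by
  unfold prec lat
  by_cases h : m = 0 ∨ m = 2
  · rw [if_pos h, if_pos h]; exact h2
  · rw [if_neg h, if_neg h]; exact h1

theorem sca_lat_lt (m : Fin 4) {s u n : ℕ} (h1 : s < n) (h2 : u < n) : lat m s u < n := by
  unfold lat
  split_ifs
  · exact h2
  · exact h1

/-- SCA. the walls `m` of `x t` and `st m` of `x v`, `prec m t v`, cross -/
theorem walls_cross (L : Lb F) {m : Fin 4} {t v : ℕ} (ht : t < n) (hv : v < n) (h : prec m t v) :
    Xx (F.sg t (L.w m)) (F.sg v (L.w (st m))) := by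
  obtain ⟨l, hl, he⟩ := L.W.wall t ht m
  obtain ⟨l', hl', he'⟩ := L.W.wall v hv (st m)
  have h1 : dot (F.pt t L.a) (L.d m) < dot (F.pt v L.a) (L.d m) := L.W.mono m t v ht hv h
  have h2 : dot (F.pt v L.a) (L.d (st m)) < dot (F.pt t L.a) (L.d (st m)) :=
    L.W.mono (st m) v t hv ht (prec_st.2 h)
  have h3 : dot (F.pt v L.a) (L.d m) < dot (F.pt t (F.e2 (L.w m))) (L.d m) :=
    L.W.long t v ht hv m
  have h4 : dot (F.pt t L.a) (L.d (st m)) < dot (F.pt v (F.e2 (L.w (st m)))) (L.d (st m)) :=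
    L.W.long v t hv ht (st m)
  have he1 : F.pt t (F.e2 (L.w m)) = F.pt t L.a + l • L.d m := he
  have he2 : F.pt v (F.e2 (L.w (st m))) = F.pt v L.a + l' • L.d (st m) := he'
  have hx := L.W.expand m (F.pt v L.a - F.pt t L.a)
  have e1 : F.sg t (L.w m) = (F.pt t L.a, F.pt t L.a + l • L.d m) := by
    unfold Fam.sg
    rw [L.w1 m, he1]
  have e2 : F.sg v (L.w (st m)) = (F.pt v L.a, F.pt v L.a + l' • L.d (st m)) := by
    unfold Fam.sg
    rw [L.w1 (st m), he2]
  rw [e1, e2]
  rw [he1, dot_add, dot_smul, L.W.unit m] at h3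
  rw [he2, dot_add, dot_smul, L.W.unit (st m)] at h4
  rw [dot_sub, dot_sub] at hx
  generalize F.pt t L.a = X at *
  generalize F.pt v L.a = Y at *
  obtain ⟨μ, hμ⟩ : ∃ μ, dot Y (L.d m) - dot X (L.d m) = μ := ⟨_, rfl⟩
  obtain ⟨ν, hν⟩ : ∃ ν, dot Y (L.d (st m)) - dot X (L.d (st m)) = -ν := ⟨_, (neg_neg _).symm⟩
  rw [hμ, hν] at hx
  have m1 : 0 < μ := by linarith
  have m2 : μ < l := by linarith
  have n1 : 0 < ν := by linarith
  have n2 : ν < l' := by linarith
  refine ⟨X + μ • L.d m, ⟨1 - μ / l, μ / l, ?_, div_pos m1 hl, by ring, ?_⟩,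
    ⟨1 - ν / l', ν / l', ?_, div_pos n1 hl', by ring, ?_⟩⟩
  · rw [sub_pos, div_lt_one hl]; exact m2
  · simp only
    rw [smul_add, smul_smul, div_mul_cancel₀ _ hl.ne']
    module
  · rw [sub_pos, div_lt_one hl']; exact n2
  · simp only
    rw [smul_add, smul_smul, div_mul_cancel₀ _ hl'.ne']
    have e3 : Y = X + (μ • L.d m + -ν • L.d (st m)) := by
      rw [← hx]; abel
    have e4 : (1 - ν / l') • Y + ((ν / l') • Y + ν • L.d (st m)) = Y + ν • L.d (st m) := by
      module
    rw [e4]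
    nth_rewrite 1 [e3]
    module

/-- the walls of `L'` have the directions of walls of `L` -/
theorem sca_dir (hn : 8 ≤ n) (L L' : Lb F) (h : L.IN L'.a) (m' : Fin 4) : ∃ m : Fin 4,
    L'.d m' = L.d m ∧ ∀ v t, v < n → t < n → prec (st m) v t →
      dot (F.pt v L.a) (L.d (st m)) < dot (F.pt t L'.a) (L.d (st m)) := by
  -- the far end is not confined
  have hnot : ¬ L.IN (F.e2 (L'.w m')) := by
    intro h2
    have hin := L.conf_inert (by omega) (σ := L'.w m') (by rw [L'.w1]; exact h) h2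
    by_cases hm : m' = 0 ∨ m' = 2
    · have hp : prec m' 0 1 := by unfold prec; rw [if_pos hm]; exact zero_lt_one
      exact hin 0 1 (by omega) (by omega) (by omega) _ (L'.walls_cross (by omega) (by omega) hp)
    · have hp : prec m' 1 0 := by unfold prec; rw [if_neg hm]; exact zero_lt_one
      exact hin 1 0 (by omega) (by omega) (by omega) _ (L'.walls_cross (by omega) (by omega) hp)
  rw [L.IN_iff (by omega)] at hnot
  push Not at hnot
  obtain ⟨k, hk⟩ := hnot
  have hQ : F.pt 2 (F.e2 (L'.w m')) ∉ K (fun t => F.pt t L.a) L.d 1 3 := by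
    intro hmem
    have h1 := hmem k
    have h2 := hk 2 (lat k 1 3) (by omega) (sca_lat_lt k (by omega) (by omega))
      (sca_prec_lat k (by omega) (by omega))
    exact absurd h1 (not_lt.2 h2)
  have hP : F.pt 2 L'.a ∈ K (fun t => F.pt t L.a) L.d 1 3 :=
    h 1 2 3 (by omega) (by omega) (by omega)
  obtain ⟨m, ⟨l, hl, hlm⟩, -, hlev, -⟩ := L.W.exit (s := 1) (u := 3) (by omega) (by omega) hP hQ
    (by
      intro v hv m
      have h1 := L.legal (t := 2) (v := v) (by omega) (by omega) (by omega) (L'.w m') m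
      rw [L'.w1] at h1
      exact h1)
  refine ⟨m, ?_, ?_⟩
  · obtain ⟨l', hl', he'⟩ := L'.W.wall 2 (by omega) m'
    have he2 : F.pt 2 (F.e2 (L'.w m')) = F.pt 2 L'.a + l' • L'.d m' := he'
    rw [he2, add_sub_cancel_left] at hlm
    have h1 : l' * l' = l * l := by
      have h2 := congrArg (fun v => dot v v) hlm
      simp only [dot_smul, dot_smul'] at h2
      rw [L'.W.unit m', L.W.unit m] at h2
      linarith
    have h3 : l' = l := by nlinarith
    rw [h3] at hlm
    exact smul_right_injective Pt hl.ne' hlm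
  · intro v t hv ht hvt
    have h1 : prec (st m) (lat m 1 3) 2 := prec_st.2 (sca_prec_lat m (by omega) (by omega))
    exact (L.hom_lt (st m) L.a L'.a (st m) (sca_lat_lt m (by omega) (by omega)) (by omega) hv ht
      h1 hvt).1 hlev

/-- SCA. A label which is confined in the cells of `L` has the same directions, and its points are
interleaved with those of `L`.

Proof. Let `h : L.IN L'.a`. Claim 1: the far ends of the walls of `L'` are not confined:
`¬ L.IN (e2 (L'.w m'))`; else the wall would be inert (`conf_inert`), but it crosses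
(`walls_cross`). By homogeneity (`IN_iff`) the end `pt t (e2 (L'.w m'))` is then outside of *every* cell
`C s u` with `s < t < u`: there is `m` such that `c_m (x v) ≤ c_m (pt t (e2 (w' m')))` for all
`prec m t v`. Take `t = 2`, the cell `C 1 3`: `exit` (the start `pt 2 L'.a` is in the cell, `legal`) gives
`m = π m'` with `L'.d m' = L.d m` (unit vectors, `Walls.wall` of `L'`), and the level
`c_(st m) (x (lat m s u)) < c_(st m) (pt t L'.a)`. As `L'.d` is injective (`Walls.d_inj`), `π` is a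
permutation of `Fin 4`. By homogeneity of the level inequality, for all `prec (st m) v t`:
`c_(st m) (x v) < c_(st m) (x' t)`; as `π` is onto this holds for all `st m`, i.e. all `k`:
(1) `prec k v t → c_k (x v) < c_k (x' t)`. From `L.IN L'.a`: (2) `prec k t v → c_k (x' t) < c_k (x v)`.
Claim 2: `π = id`. By (1), (2) `c_k` is increasing along `x'` for indices of distance `≥ 2` in the
order `prec k`; by `mono` of `L'`, `dot · (L'.d m')` is increasing in the order `prec m'`. So with
`k = π m'` the orders agree: `π m'` is even (0 or 2) iff `m'` is. `L'.d 1 = J (L'.d 0)`: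
`L.d (π 1) = J (L.d (π 0))`. If `π 0 = 2`: `L.d (π 1) = J (L.d 2) = - L.d 3`, `π 1 ∈ {1, 3}`;
`π 1 = 3` is impossible (`d 3 = - d 3`), `π 1 = 1`: `d 1 = - d 3`, but then `J (d 0) = d 1 = - d 3 = J (d 2)`,
so `d 0 = d 2`, contradiction to `d_inj`. So `π 0 = 0`, `L.d (π 1) = J (L.d 0) = L.d 1`, `π 1 = 1`, and
`π 2 = 2`, `π 3 = 3`. -/
theorem sc_of_IN (hn : 8 ≤ n) (L L' : Lb F) (h : L.IN L'.a) : L.SC L' := by
  choose π hπ hlev using L.sca_dir hn L' h
  have hinj : Function.Injective π := by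
    intro a b hab
    apply L'.W.d_inj (by omega)
    rw [hπ a, hπ b, hab]
  have hsurj : Function.Surjective π := Finite.surjective_of_injective hinj
  have one : ∀ k v t, v < n → t < n → prec k v t →
      dot (F.pt v L.a) (L.d k) < dot (F.pt t L'.a) (L.d k) := by
    intro k v t hv ht hvt
    obtain ⟨m', hm'⟩ := hsurj (st k)
    have h1 := hlev m' v t hv ht
    rw [hm', st_st] at h1
    exact h1 hvt
  have two : ∀ k t v, t < n → v < n → prec k t v →
      dot (F.pt t L'.a) (L.d k) < dot (F.pt v L.a) (L.d k) :=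
    fun k t v ht hv htv => L.IN_lt (by omega) h k ht hv htv
  -- the orders agree
  have hpar : ∀ m', (π m' = 0 ∨ π m' = 2) ↔ (m' = 0 ∨ m' = 2) := by
    intro m'
    by_contra hcon
    by_cases hk : π m' = 0 ∨ π m' = 2
    · have hm : ¬ (m' = 0 ∨ m' = 2) := fun h => hcon ⟨fun _ => h, fun _ => hk⟩
      have p1 : prec (π m') 0 1 := by unfold prec; rw [if_pos hk]; exact zero_lt_one
      have p2 : prec (π m') 1 2 := by unfold prec; rw [if_pos hk]; exact one_lt_two
      have p3 : prec m' 2 0 := by unfold prec; rw [if_neg hm]; exact zero_lt_two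
      have q1 := two (π m') 0 1 (by omega) (by omega) p1
      have q2 := one (π m') 1 2 (by omega) (by omega) p2
      have q3 : dot (F.pt 2 L'.a) (L'.d m') < dot (F.pt 0 L'.a) (L'.d m') :=
        L'.W.mono m' 2 0 (by omega) (by omega) p3
      rw [hπ m'] at q3
      linarith
    · have hm : m' = 0 ∨ m' = 2 := by
        by_contra hm
        exact hcon ⟨fun h => absurd h hk, fun h => absurd h hm⟩
      have p1 : prec (π m') 2 1 := by unfold prec; rw [if_neg hk]; exact one_lt_two
      have p2 : prec (π m') 1 0 := by unfold prec; rw [if_neg hk]; exact zero_lt_one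
      have p3 : prec m' 0 2 := by unfold prec; rw [if_pos hm]; exact zero_lt_two
      have q1 := two (π m') 2 1 (by omega) (by omega) p1
      have q2 := one (π m') 1 0 (by omega) (by omega) p2
      have q3 : dot (F.pt 0 L'.a) (L'.d m') < dot (F.pt 2 L'.a) (L'.d m') :=
        L'.W.mono m' 0 2 (by omega) (by omega) p3
      rw [hπ m'] at q3
      linarith
  have r1 : L.d (π 1) = J (L.d (π 0)) := by
    rw [← hπ 1, ← hπ 0]
    exact L'.W.rot1
  have hdinj := L.W.d_inj (by omega)
  have J_inj : ∀ a b : Pt, J a = J b → a = b := by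
    intro a b hab
    have h1 := congrArg Prod.fst hab
    have h2 := congrArg Prod.snd hab
    simp only [J] at h1 h2
    exact Prod.ext h2 (neg_injective h1)
  have hodd : ∀ k : Fin 4, ¬ (k = 0 ∨ k = 2) → k = 1 ∨ k = 3 := by decide
  have p0 := (hpar 0).2 (Or.inl rfl)
  have p1 := hodd _ (mt (hpar 1).1 (by decide))
  have p2 := (hpar 2).2 (Or.inr rfl)
  have p3 := hodd _ (mt (hpar 3).1 (by decide))
  have z0 : π 0 = 0 := by
    rcases p0 with p0 | p0
    · exact p0
    · exfalso
      rw [p0] at r1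
      have h3 : J (L.d 2) = - L.d 3 := by rw [L.W.rot3, neg_neg]
      rcases p1 with p1 | p1
      · rw [p1, L.W.rot1] at r1
        have h4 := hdinj (J_inj _ _ r1)
        exact absurd h4 (by decide)
      · rw [p1, h3] at r1
        have h4 := L.W.unit 3
        have h5 : L.d 3 = 0 := self_eq_neg.1 r1
        rw [h5] at h4
        simp [dot] at h4
  have z1 : π 1 = 1 := by
    rw [z0, ← L.W.rot1] at r1
    exact hdinj r1
  have z2 : π 2 = 2 := by
    rcases p2 with p2 | p2
    · have := hinj (p2.trans z0.symm)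
      exact absurd this (by decide)
    · exact p2
  have z3 : π 3 = 3 := by
    rcases p3 with p3 | p3
    · have := hinj (p3.trans z1.symm)
      exact absurd this (by decide)
    · exact p3
  refine ⟨?_, ?_⟩
  · intro m
    rw [hπ m]
    congr 1
    fin_cases m
    · exact z0.symm
    · exact z1.symm
    · exact z2.symm
    · exact z3.symm
  · intro m s t hs ht hst
    exact ⟨one m s t hs ht hst, two m s t hs ht hst⟩

end Lb
end Pool.Agent.RAC

/-!
# Labels with the same cells (piece SCT)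
-/

namespace Pool.Agent.RAC
namespace Lb

variable {n : ℕ} {P S E : Type} {F : Fam n P S E}

/-- three indices in the order `prec m` -/
theorem sct_three (hn : 3 ≤ n) (m : Fin 4) : ∃ s v t : ℕ, s < n ∧ v < n ∧ t < n ∧ prec m s v ∧
    prec m v t ∧ prec m s t := by
  by_cases h : m = 0 ∨ m = 2
  · refine ⟨0, 1, 2, by omega, by omega, by omega, ?_, ?_, ?_⟩ <;>
      · unfold prec
        rw [if_pos h]
        omega
  · refine ⟨2, 1, 0, by omega, by omega, by omega, ?_, ?_, ?_⟩ <;>
      · unfold prec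
        rw [if_neg h]
        omega

theorem SC.symm {L L' : Lb F} (h : L.SC L') : L'.SC L := by
  refine ⟨fun m => (h.1 m).symm, ?_⟩
  intro m s t hs ht hp
  rw [← h.1 m]
  exact ⟨(h.2 m s t hs ht hp).2, (h.2 m s t hs ht hp).1⟩

/-- by homogeneity (`hom_lt`; for a pair `prec m s t` use indices with one in between) -/
theorem SC.trans (hn : 4 ≤ n) {L L' L'' : Lb F} (h : L.SC L') (h' : L'.SC L'') : L.SC L'' := by
  refine ⟨fun m => (h.1 m).trans (h'.1 m), ?_⟩
  intro m s t hs ht hp
  obtain ⟨s', v', t', hs', hv', ht', h1, h2, h3⟩ := sct_three (n := n) (by omega) m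
  constructor
  · rw [L.hom_lt m L.a L''.a m hs ht hs' ht' hp h3]
    have a := (h.2 m s' v' hs' hv' h1).1
    have b := (h'.2 m v' t' hv' ht' h2).1
    rw [← h.1 m] at b
    exact a.trans b
  · rw [L.hom_lt m L''.a L.a m hs ht hs' ht' hp h3]
    have a := (h'.2 m s' v' hs' hv' h1).2
    have b := (h.2 m v' t' hv' ht' h2).2
    rw [← h.1 m] at a
    exact a.trans b

theorem SC.refl (L : Lb F) : L.SC L :=
  ⟨fun _ => rfl, fun m s t hs ht hp => ⟨L.W.mono m s t hs ht hp, L.W.mono m s t hs ht hp⟩⟩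

theorem SC.IN {L L' : Lb F} (hn : 4 ≤ n) (h : L.SC L') {p : P} (hp : L.IN p) : L'.IN p := by
  rw [L'.IN_iff (by omega)]
  intro m
  obtain ⟨s', v', t', hs', hv', ht', h1, h2, h3⟩ := sct_three (n := n) (by omega) m
  refine ⟨s', t', hs', ht', h3, ?_⟩
  have a := L.IN_lt (by omega) hp m hs' hv' h1
  have b := (h.2 m v' t' hv' ht' h2).1
  rw [← h.1 m]
  exact a.trans b

theorem SC.IN_a {L L' : Lb F} (h : L.SC L') (hn : 4 ≤ n) : L.IN L'.a := by
  rw [L.IN_iff (by omega)]
  intro m
  obtain ⟨s', v', t', hs', hv', ht', h1, h2, h3⟩ := sct_three (n := n) (by omega) m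
  exact ⟨s', t', hs', ht', h3, (h.2 m s' t' hs' ht' h3).2⟩

end Lb
end Pool.Agent.RAC

/-!
# The link dichotomy (piece SCB)
-/

namespace Pool.Agent.RAC
namespace Lb

variable {n : ℕ} {P S E : Type} {F : Fam n P S E}

/-- SCB. The link between two labels: an inert path from `L` to `p`, a segment `μ` between `p` and
`q`, an inert path from `q` to `L'`. -/
structure Lk (L L' : Lb F) (μ : S) (p q : P) : Prop where
  ends : (F.e1 μ = p ∧ F.e2 μ = q) ∨ (F.e1 μ = q ∧ F.e2 μ = p)
  p1 : L.IN p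
  q1 : L'.IN q
  cp : F.Conn L.a p
  cq : F.Conn q L'.a

theorem SCB_conn_symm {p q : P} (h : F.Conn p q) : F.Conn q p := by
  induction h with
  | refl => exact Relation.ReflTransGen.refl
  | tail _ hab ih =>
    obtain ⟨σ, h1, h2⟩ := hab
    exact Relation.ReflTransGen.head ⟨σ, h1, h2.symm⟩ ih

theorem Lk.symm {L L' : Lb F} {μ : S} {p q : P} (h : Lk L L' μ p q) : Lk L' L μ q p :=
  ⟨h.ends.symm, h.q1, h.p1, SCB_conn_symm h.cq, SCB_conn_symm h.cp⟩

/-- The middle segment from `p` to `q` leaves the cells of `L` in the direction `m`. -/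
structure Out (L : Lb F) (p q : P) (m : Fin 4) : Prop where
  dir : ∀ t, t < n → ∃ l : ℝ, 0 < l ∧ F.pt t q - F.pt t p = l • L.d m
  far : ∀ t v, t < n → v < n → prec m t v →
    dot (F.pt v L.a) (L.d m) < dot (F.pt t q) (L.d m)
  lo : ∀ t v, t < n → v < n → prec m t v →
    dot (F.pt v L.a) (L.d (st m)) < dot (F.pt t p) (L.d (st m))
  hi : ∀ t v, t < n → v < n → prec m v t →
    dot (F.pt t p) (L.d (st m)) < dot (F.pt v L.a) (L.d (st m))

theorem SCB_prec_lat (m : Fin 4) : prec m 2 (lat m 1 3) := by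
  fin_cases m <;> simp [prec, lat]

theorem SCB_prec_lat' (m : Fin 4) : prec m (lat m 3 1) 2 := by
  fin_cases m <;> simp [prec, lat]

theorem SCB_lat_or (m : Fin 4) (s u : ℕ) : lat m s u = s ∨ lat m s u = u := by
  unfold lat
  split_ifs <;> simp

/-- a point of a segment in a given direction -/
theorem SCB_open {A B v z : Pt} {c l : ℝ} (hc : 0 < c) (hcl : c < l) (hB : B = A + l • v)
    (hz : z = A + c • v) : z ∈ openSegment ℝ A B := by
  have hl : 0 < l := hc.trans hcl
  refine ⟨1 - c / l, c / l, ?_, div_pos hc hl, by ring, ?_⟩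
  · rw [sub_pos, div_lt_one hl]
    exact hcl
  · rw [hB, hz]
    have h1 : c / l * l = c := div_mul_cancel₀ c hl.ne'
    ext
    · simp only [Prod.fst_add, Prod.smul_fst, smul_eq_mul]
      linear_combination v.1 * h1
    · simp only [Prod.snd_add, Prod.smul_snd, smul_eq_mul]
      linear_combination v.2 * h1

/-- a segment which starts in the cells and does not end there leaves them -/
theorem SCB_out (hn : 8 ≤ n) {L : Lb F} {μ : S} {p q : P}
    (he : (F.e1 μ = p ∧ F.e2 μ = q) ∨ (F.e1 μ = q ∧ F.e2 μ = p)) (hp : L.IN p) (hq : ¬ L.IN q) :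
    ∃ m, Out L p q m := by
  have hq' := hq
  rw [L.IN_iff (by omega)] at hq'
  push Not at hq'
  obtain ⟨m0, hm0⟩ := hq'
  have hQ : F.pt 2 q ∉ K (fun t => F.pt t L.a) L.d 1 3 := by
    intro hc
    have h1 := hc m0
    have h2 := hm0 2 (lat m0 1 3) (by omega) (by rcases SCB_lat_or m0 1 3 with h | h <;> omega)
      (SCB_prec_lat m0)
    simp only at h1
    linarith
  have hP : F.pt 2 p ∈ K (fun t => F.pt t L.a) L.d 1 3 := hp 1 2 3 (by omega) (by omega) (by omega)
  have hne : F.pt 2 p ≠ F.pt 2 q := by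
    have h1 := F.nd 2 (by omega) μ
    rcases he with ⟨h2, h3⟩ | ⟨h2, h3⟩
    · rwa [h2, h3] at h1
    · rw [h2, h3] at h1
      exact h1.symm
  obtain ⟨m, ⟨l, hl, hd⟩, h1, h2, h3, z, hz1, hz2, hz3⟩ := L.W.exit (s := 1) (u := 3) (by omega)
    (by omega) hP hQ (by
      intro v hv m
      have hv2 : v < n := by omega
      have hv3 : 2 ≠ v := by omega
      rcases he with ⟨h2, h3⟩ | ⟨h2, h3⟩
      · have := L.legal (t := 2) (by omega) hv2 hv3 μ m
        rwa [h2, h3] at this
      · have := L.legal' (t := 2) (by omega) hv2 hv3 μ m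
        rwa [h2, h3] at this)
  set v := lat m 1 3 with hv
  have hv' : v < n := by
    rcases SCB_lat_or m 1 3 with h | h
    · rw [hv, h]; omega
    · rw [hv, h]; omega
  have hv2 : (2 : ℕ) ≠ v := by
    rcases SCB_lat_or m 1 3 with h | h
    · rw [hv, h]; omega
    · rw [hv, h]; omega
  have hlt : dot (F.pt v L.a) (L.d m) < dot (F.pt 2 q) (L.d m) := by
    refine lt_of_le_of_ne h1 fun heq => ?_
    -- then `z` is the end `pt 2 q`
    have hPm : dot (F.pt 2 p) (L.d m) < dot (F.pt 2 q) (L.d m) := by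
      have h4 := hP m
      simp only at h4
      exact h4.trans_le h1
    have hzq : z = F.pt 2 q := by
      obtain ⟨a, b, ha, hb, hab, rfl⟩ := hz1
      rw [dot_add, dot_smul, dot_smul, heq] at hz3
      have h5 : a * (dot (F.pt 2 q) (L.d m) - dot (F.pt 2 p) (L.d m)) = 0 := by
        have : b = 1 - a := by linarith
        rw [this] at hz3
        linarith
      have h6 : a = 0 := by
        rcases mul_eq_zero.1 h5 with h | h
        · exact h
        · linarith
      have h7 : b = 1 := by linarith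
      rw [h6, h7, zero_smul, one_smul, zero_add]
    have hzs : z ∈ segment ℝ (F.pt 2 (F.e1 μ)) (F.pt 2 (F.e2 μ)) := by
      rcases he with ⟨h2, h3⟩ | ⟨h2, h3⟩
      · rw [h2, h3]; exact hz1
      · rw [h2, h3, segment_symm]; exact hz1
    have hzw : z ∈ segment ℝ (F.pt v (F.e1 (L.w (st m)))) (F.pt v (F.e2 (L.w (st m)))) := by
      rw [L.w1]
      exact openSegment_subset_segment _ _ _ hz2
    rcases F.diff 2 v (by omega) hv' hv2 μ (L.w (st m)) z hzs hzw with
      ⟨p', hp', -, hp'', -⟩ | ⟨h8, -, -⟩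
    · rcases hp'' with h9 | h9
      · rw [L.w1] at h9
        exact L.na (h9 ▸ hp')
      · exact L.w2 (st m) (h9 ▸ F.hub_ver _ hp')
    · have h9 : F.pt 2 q ∈ openSegment ℝ (F.pt 2 p) (F.pt 2 q) := by
        rw [hzq] at h8
        rcases he with ⟨h2, h3⟩ | ⟨h2, h3⟩
        · rwa [h2, h3] at h8
        · rwa [h2, h3, openSegment_symm] at h8
      rw [right_mem_openSegment_iff] at h9
      exact hne h9
  have hn3 : 3 ≤ n := by omega
  have hpl : prec m 2 v := SCB_prec_lat m
  have hpl' : prec m (lat m 3 1) 2 := SCB_prec_lat' m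
  have hv31 : lat m 3 1 < n := by
    rcases SCB_lat_or m 3 1 with h | h <;> rw [h] <;> omega
  refine ⟨m, fun t ht => ?_, fun t w ht hw htw => ?_, fun t w ht hw htw => ?_,
    fun t w ht hw htw => ?_⟩
  · exact L.hom_dir hn3 m p q (t := 2) (by omega) ht ⟨l, hl, hd⟩
  · exact (L.hom_lt m L.a q (st m) hv' (by omega) hw ht (prec_st.2 hpl) (prec_st.2 htw)).1 hlt
  · exact (L.hom_lt (st m) L.a p (st m) hv' (by omega) hw ht (prec_st.2 hpl) (prec_st.2 htw)).1 h2
  · exact (L.hom_lt (st m) p L.a (st m) (t := 2) (by omega) hv31 ht hw (prec_st.2 hpl')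
      (prec_st.2 htw)).1 h3

/-- SCB. Two linked labels have the same cells, or the middle segment leaves the cells of both.

Proof. If `L.IN q` then `L.IN L'.a` (`IN_of_Conn`), so `SC` (`sc_of_IN`). If `L'.IN p` then
`L'.IN L.a`, so `L'.SC L`. Otherwise: `¬ L.IN q`: by `IN_iff` there is `m0` such that
`c_(m0) (x v) ≤ c_(m0) (pt t q)` for all `prec m0 t v`, so `pt t q ∉ C s u` for all `s < t < u`. `exit` for
`t = 2`, `C 1 3` gives `m` and the direction, and the strict inequalities: the crossing point with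
the wall is not the end `pt t q` (`diff`), so `c_m (pt t q) > c_m (x (lat m s u))`. All are homogeneous
(`hom_dir`, `hom_lt`). The same for `L'`, with the reversed segment; the directions are opposite. -/
theorem Lk.dich (hn : 8 ≤ n) {L L' : Lb F} {μ : S} {p q : P} (h : Lk L L' μ p q) :
    L.SC L' ∨ ∃ m m', Out L p q m ∧ Out L' q p m' ∧ L'.d m' = - L.d m := by
  by_cases h1 : L.IN q
  · exact Or.inl (sc_of_IN hn L L' (L.IN_of_Conn h1 h.cq))
  by_cases h2 : L'.IN p
  · exact Or.inl (sc_of_IN hn L' L (L'.IN_of_Conn h2 (SCB_conn_symm h.cp))).symm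
  right
  obtain ⟨m, hm⟩ := SCB_out hn h.ends h.p1 h1
  obtain ⟨m', hm'⟩ := SCB_out hn h.ends.symm h.q1 h2
  refine ⟨m, m', hm, hm', ?_⟩
  obtain ⟨l, hl, hd⟩ := hm.dir 2 (by omega)
  obtain ⟨l', hl', hd'⟩ := hm'.dir 2 (by omega)
  have h3 : l' • L'.d m' = - (l • L.d m) := by rw [← hd', ← hd]; abel
  have h4 : dot (l' • L'.d m') (l' • L'.d m') = dot (- (l • L.d m)) (- (l • L.d m)) := by rw [h3]
  rw [dot_neg, dot_neg', dot_smul, dot_smul', dot_smul, dot_smul', L.W.unit, L'.W.unit] at h4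
  have h5 : l' = l := by nlinarith
  rw [h5] at h3
  have h6 : l • (L'.d m' + L.d m) = 0 := by rw [smul_add, h3]; abel
  rcases smul_eq_zero.1 h6 with h7 | h7
  · exact absurd h7 hl.ne'
  · exact eq_neg_of_add_eq_zero_left h7

/-- SCB. The middle segment which leaves the cells crosses the walls `st m` of all later points. -/
theorem Out.cross {L L' : Lb F} {μ : S} {p q : P} {m : Fin 4} (h : Lk L L' μ p q)
    (ho : Out L p q m) {t v : ℕ} (ht : t < n) (hv : v < n) (htv : prec m t v) (hn : 8 ≤ n) :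
    Xx (F.sg t μ) (F.sg v (L.w (st m))) := by
  have hn3 : 3 ≤ n := by omega
  obtain ⟨l, hl, hd⟩ := ho.dir t ht
  obtain ⟨l', hl', he'⟩ := L.W.wall v hv (st m)
  have hunit := L.W.unit m
  have hunit' := L.W.unit (st m)
  have hperp := L.W.perp m
  have hperp' : dot (L.d (st m)) (L.d m) = 0 := by rw [dot_comm]; exact hperp
  have hq : F.pt t q = F.pt t p + l • L.d m := by rw [← hd]; abel
  -- the four inequalities
  have i1 : dot (F.pt t p) (L.d m) < dot (F.pt v L.a) (L.d m) := L.IN_lt hn3 h.p1 m ht hv htv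
  have i2 : dot (F.pt v L.a) (L.d m) < dot (F.pt t q) (L.d m) := ho.far t v ht hv htv
  have i3 : dot (F.pt v L.a) (L.d (st m)) < dot (F.pt t p) (L.d (st m)) := ho.lo t v ht hv htv
  have i4 : dot (F.pt t p) (L.d (st m)) < dot (F.pt v (F.e2 (L.w (st m)))) (L.d (st m)) := by
    have hv' : lat m 1 3 < n := by rcases SCB_lat_or m 1 3 with h | h <;> rw [h] <;> omega
    have hv31 : lat m 3 1 < n := by rcases SCB_lat_or m 3 1 with h | h <;> rw [h] <;> omega
    refine (L.hom_lt (st m) p (F.e2 (L.w (st m))) m (t := 2) (u := lat m 1 3) (by omega) hv' ht hv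
      (SCB_prec_lat m) htv).1 ?_
    exact (ho.hi 2 (lat m 3 1) (by omega) hv31 (SCB_prec_lat' m)).trans
      (L.W.long (lat m 1 3) (lat m 3 1) hv' hv31 (st m))
  have hq' : dot (F.pt t q) (L.d m) = dot (F.pt t p) (L.d m) + l := by
    rw [hq, dot_add, dot_smul, hunit, mul_one]
  have he2 : dot (F.pt v (F.e2 (L.w (st m)))) (L.d (st m)) = dot (F.pt v L.a) (L.d (st m)) + l' := by
    rw [he', dot_add, dot_smul, hunit', mul_one]
  set c := dot (F.pt v L.a) (L.d m) - dot (F.pt t p) (L.d m) with hc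
  set c' := dot (F.pt t p) (L.d (st m)) - dot (F.pt v L.a) (L.d (st m)) with hc'
  have hz : F.pt t p + c • L.d m = F.pt v L.a + c' • L.d (st m) := by
    have h1 := L.W.expand m (F.pt t p + c • L.d m - F.pt v L.a)
    have h2 : dot (F.pt t p + c • L.d m - F.pt v L.a) (L.d m) = 0 := by
      rw [dot_sub, dot_add, dot_smul, hunit, hc]
      ring
    have h3 : dot (F.pt t p + c • L.d m - F.pt v L.a) (L.d (st m)) = c' := by
      rw [dot_sub, dot_add, dot_smul, hperp, hc']
      ring
    rw [h2, h3, zero_smul, zero_add] at h1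
    rw [← h1]
    abel
  refine ⟨F.pt t p + c • L.d m, ?_, ?_⟩
  · have h1 : F.pt t p + c • L.d m ∈ openSegment ℝ (F.pt t p) (F.pt t q) :=
      SCB_open (v := L.d m) (c := c) (l := l) (by linarith) (by linarith) hq rfl
    unfold Fam.sg
    rcases h.ends with ⟨h2, h3⟩ | ⟨h2, h3⟩
    · simp only [h2, h3]
      exact h1
    · simp only [h2, h3]
      rw [openSegment_symm]
      exact h1
  · unfold Fam.sg
    simp only [L.w1]
    exact SCB_open (v := L.d (st m)) (c := c') (l := l') (by linarith) (by linarith) he' hz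

end Lb
end Pool.Agent.RAC
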