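import Pool.Agent.Lib_MP_638f75_lc.H.HD

/-!
# The closed curves Ω (piece OMA)
-/

namespace Pool.Agent.RAC

/-- the last index in the order `prec m` -/
def eps (n : ℕ) (m : Fin 4) : ℕ := if m = 0 ∨ m = 2 then n - 1 else 0

/-- `t` is not the first, and not one of the last two indices in the order `prec m` -/
def In3 (n : ℕ) (m : Fin 4) (t : ℕ) : Prop :=
  if m = 0 ∨ m = 2 then 1 ≤ t ∧ t + 2 < n else 2 ≤ t ∧ t + 1 < n

open Classical in
/-- `1` if `t` is between `s` and `w` -/
noncomputable def btwn (s w t : ℕ) : ZMod 2 := if (s < t ∧ t < w) ∨ (w < t ∧ t < s) then 1 else 0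

namespace Lb

variable {n : ℕ} {P S E : Type} {F : Fam n P S E} (L : Lb F)

/-- the crossing point of the strand `m` of `s` and the wall `st m` of the last point -/
noncomputable def cor (m : Fin 4) (s : ℕ) : Pt :=
  F.pt s (F.e1 (L.sd m)) +
    (dot (F.pt (eps n m) L.a) (L.d m) - dot (F.pt s (F.e1 (L.sd m))) (L.d m)) • L.d m

/-- the closed curve: the strands `m` of `s` and of `w`, from the wall `st m` of the last point to the
common hub, and the part of this wall between them -/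
noncomputable def Om (m : Fin 4) (s w : ℕ) : List Pt :=
  [L.cor m s, F.pt s (F.e2 (L.sd m)), F.pt 0 (F.e2 (L.bs m)), F.pt w (F.e2 (L.sd m)),
    L.cor m w, L.cor m s]

/-- OMA. the levels of the strands decrease -/
theorem lev_lt (hn : 3 ≤ n) {m : Fin 4} {s w : ℕ} (hs : s < n) (hw : w < n) (h : prec m s w) :
    dot (F.pt w (F.e1 (L.sd m))) (L.d (st m)) < dot (F.pt s (F.e1 (L.sd m))) (L.d (st m)) := by
  have key : ∀ s0 v0 w0 : ℕ, s0 < n → v0 < n → w0 < n → prec m s0 v0 → prec m v0 w0 →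
      dot (F.pt w0 (F.e1 (L.sd m))) (L.d (st m)) < dot (F.pt s0 (F.e1 (L.sd m))) (L.d (st m)) := by
    intro s0 v0 w0 h1 h2 h3 h4 h5
    exact (L.slev m v0 w0 h2 h3 h5).2.trans (L.slev m s0 v0 h1 h2 h4).1
  by_cases hm : m = 0 ∨ m = 2
  · have h02 : prec m 0 2 := by simp [prec, hm]
    refine (L.hom_lt (st m) (F.e1 (L.sd m)) (F.e1 (L.sd m)) (st m) (t := 2) (u := 0) (by omega)
      (by omega) hw hs (prec_st.2 h02) (prec_st.2 h)).1 ?_
    exact key 0 1 2 (by omega) (by omega) (by omega) (by simp [prec, hm]) (by simp [prec, hm])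
  · have h20 : prec m 2 0 := by simp [prec, hm]
    refine (L.hom_lt (st m) (F.e1 (L.sd m)) (F.e1 (L.sd m)) (st m) (t := 0) (u := 2) (by omega)
      (by omega) hw hs (prec_st.2 h20) (prec_st.2 h)).1 ?_
    exact key 2 1 0 (by omega) (by omega) (by omega) (by simp [prec, hm]) (by simp [prec, hm])

theorem OMA_bnd {m : Fin 4} {s : ℕ} (hs : In3 n m s) :
    s < n ∧ 1 ≤ s ∧ s + 1 < n ∧ eps n m < n ∧ prec m s (eps n m) ∧
      (∃ s0 u0, s0 < s ∧ s < u0 ∧ u0 < n ∧ lat m s0 u0 = eps n m) := by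
  unfold In3 at hs
  unfold eps prec lat
  by_cases hm : m = 0 ∨ m = 2
  · simp only [hm, if_true] at hs ⊢
    exact ⟨by omega, by omega, by omega, by omega, by omega, 0, n - 1, by omega, by omega,
      by omega, rfl⟩
  · simp only [hm, if_false] at hs ⊢
    exact ⟨by omega, by omega, by omega, by omega, by omega, 0, s + 1, by omega, by omega,
      by omega, rfl⟩

/-- OMA. the corner is an interior point of the strand -/
theorem cor_mem_strand (hn : 6 ≤ n) {m : Fin 4} {s : ℕ} (hs : In3 n m s) :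
    L.cor m s ∈ openSegment ℝ (F.pt s (F.e1 (L.sd m))) (F.pt s (F.e2 (L.sd m))) := by
  obtain ⟨h1, h2, h3, h4, h5, s0, u0, h6, h7, h8, h9⟩ := OMA_bnd hs
  obtain ⟨l, hl, he⟩ := L.s1 s h1 m
  have k1 : dot (F.pt s (F.e1 (L.sd m))) (L.d m) < dot (F.pt (eps n m) L.a) (L.d m) := by
    have := L.sK m s0 s u0 h6 h7 h8 m
    rw [h9] at this
    exact this
  have k2 : dot (F.pt (eps n m) L.a) (L.d m) < dot (F.pt s (F.e2 (L.sd m))) (L.d m) :=
    L.slong s (eps n m) h1 h4 m
  have k3 : dot (F.pt s (F.e2 (L.sd m))) (L.d m) = dot (F.pt s (F.e1 (L.sd m))) (L.d m) + l := by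
    rw [he, dot_add, dot_smul, L.W.unit, mul_one]
  exact SCB_open (v := L.d m)
    (c := dot (F.pt (eps n m) L.a) (L.d m) - dot (F.pt s (F.e1 (L.sd m))) (L.d m)) (l := l)
    (by linarith) (by linarith) he rfl

/-- OMA. the corner is an interior point of the wall of the last point -/
theorem cor_mem_wall (hn : 6 ≤ n) {m : Fin 4} {s : ℕ} (hs : In3 n m s) :
    L.cor m s ∈ openSegment ℝ (F.pt (eps n m) L.a) (F.pt (eps n m) (F.e2 (L.w (st m)))) := by
  obtain ⟨h1, h2, h3, h4, h5, s0, u0, h6, h7, h8, h9⟩ := OMA_bnd hs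
  obtain ⟨l, hl, he⟩ := L.W.wall (eps n m) h4 (st m)
  have k1 : dot (F.pt (eps n m) L.a) (L.d (st m)) < dot (F.pt s (F.e1 (L.sd m))) (L.d (st m)) :=
    (L.slev m s (eps n m) h1 h4 h5).1
  have k2 : dot (F.pt s (F.e1 (L.sd m))) (L.d (st m)) <
      dot (F.pt (eps n m) (F.e2 (L.w (st m)))) (L.d (st m)) := by
    have h10 := L.sK m s0 s u0 h6 h7 h8 (st m)
    refine lt_trans h10 (L.W.long (eps n m) _ h4 ?_ (st m))
    rcases SCB_lat_or (st m) s0 u0 with h | h <;> rw [h] <;> omega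
  have k3 : dot (F.pt (eps n m) (F.e2 (L.w (st m)))) (L.d (st m)) =
      dot (F.pt (eps n m) L.a) (L.d (st m)) + l := by
    rw [he, dot_add, dot_smul, L.W.unit, mul_one]
  refine SCB_open (v := L.d (st m))
    (c := dot (F.pt s (F.e1 (L.sd m))) (L.d (st m)) - dot (F.pt (eps n m) L.a) (L.d (st m)))
    (l := l) (by linarith) (by linarith) he ?_
  have h10 := L.W.expand m (L.cor m s - F.pt (eps n m) L.a)
  have h11 : dot (L.cor m s - F.pt (eps n m) L.a) (L.d m) = 0 := by
    unfold cor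
    rw [dot_sub, dot_add, dot_smul, L.W.unit]
    ring
  have h12 : dot (L.cor m s - F.pt (eps n m) L.a) (L.d (st m)) =
      dot (F.pt s (F.e1 (L.sd m))) (L.d (st m)) - dot (F.pt (eps n m) L.a) (L.d (st m)) := by
    unfold cor
    rw [dot_sub, dot_add, dot_smul, L.W.perp m]
    ring
  rw [h11, h12, zero_smul, zero_add] at h10
  rw [← h10]
  abel

end Lb
end Pool.Agent.RAC

/-!
# The closed curves Ω (piece OMB)
-/

namespace Pool.Agent.RAC
theorem omb_cr_rev (s : Pt × Pt) (p q : Pt) : cr s (p, q) = cr s (q, p) := by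
  have e : ∀ p q : Pt, Xx s (p, q) → Xx s (q, p) := by
    rintro p q ⟨z, h1, h2⟩
    refine ⟨z, h1, ?_⟩
    have h2' : z ∈ openSegment ℝ p q := h2
    rw [openSegment_symm] at h2'
    exact h2'
  have e' : Xx s (p, q) ↔ Xx s (q, p) := ⟨e p q, e q p⟩
  unfold cr
  by_cases h : Xx s (p, q)
  · rw [if_pos h, if_pos (e'.1 h)]
  · rw [if_neg h, if_neg (fun h' => h (e'.2 h'))]

theorem omb_ok_rev {s : Pt × Pt} {p q : Pt} (h : Ok s (p, q)) : Ok s (q, p) := by
  intro z h1 h2
  have h2' : z ∈ segment ℝ p q := by rw [segment_symm]; exact h2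
  obtain ⟨h3, h4, h5⟩ := h z h1 h2'
  refine ⟨h3, ?_, ?_⟩
  · show z ∈ openSegment ℝ q p
    rw [openSegment_symm]; exact h4
  · show dot (s.2 - s.1) (p - q) = 0
    have e : p - q = -(q - p) := by abel
    have h5' : dot (s.2 - s.1) (q - p) = 0 := h5
    rw [e, dot_neg', h5', neg_zero]

theorem omb_ok_sub {s : Pt × Pt} {a b x y : Pt} (h : Ok s (a, b)) (hx : x ∈ segment ℝ a b)
    (hy : y ∈ segment ℝ a b) (hxy : ∃ r : ℝ, y - x = r • (b - a))
    (nx : x ∉ segment ℝ s.1 s.2) (ny : y ∉ segment ℝ s.1 s.2) : Ok s (x, y) := by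
  intro z h1 h2
  have h2' : z ∈ segment ℝ a b := (convex_segment a b).segment_subset hx hy h2
  obtain ⟨h3, h4, h5⟩ := h z h1 h2'
  refine ⟨h3, ?_, ?_⟩
  · refine mem_openSegment_of_ne_left_right ?_ ?_ h2
    · rintro rfl; exact nx h1
    · rintro rfl; exact ny h1
  · obtain ⟨r, hr⟩ := hxy
    show dot (s.2 - s.1) (y - x) = 0
    have h5' : dot (s.2 - s.1) (b - a) = 0 := h5
    rw [hr, dot_smul', h5', mul_zero]

theorem omb_open {a b x y z : Pt} (hx : x ∈ openSegment ℝ a b) (hy : y ∈ segment ℝ a b)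
    (hz : z ∈ openSegment ℝ x y) : z ∈ openSegment ℝ a b := by
  obtain ⟨p, q, hp, hq, hpq, rfl⟩ := hx
  obtain ⟨p', q', hp', hq', hpq', rfl⟩ := hy
  obtain ⟨u, v, hu, hv, huv, rfl⟩ := hz
  refine ⟨u * p + v * p', u * q + v * q', by positivity, by positivity, ?_, ?_⟩
  · have : u * p + v * p' + (u * q + v * q') = u * (p + q) + v * (p' + q') := by ring
    rw [this, hpq, hpq', mul_one, mul_one, huv]
  · ext
    · simp; ring
    · simp; ring

theorem omb_ray {P δ z w : Pt} {l : ℝ} (hz : z ∈ segment ℝ P (P + l • δ))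
    (hw : w ∈ segment ℝ P (P + l • δ)) :
    ∃ r : ℝ, w - z = r • (P + l • δ - P) := by
  obtain ⟨a, b, -, -, hab, rfl⟩ := hz
  obtain ⟨a', b', -, -, hab', rfl⟩ := hw
  refine ⟨b' - b, ?_⟩
  have e1 : a = 1 - b := by linarith
  have e2 : a' = 1 - b' := by linarith
  subst e1 e2
  ext
  · simp; ring
  · simp; ring

namespace Lb

variable {n : ℕ} {P S E : Type} {F : Fam n P S E} (L : Lb F)

theorem omb_In3 {m : Fin 4} {t : ℕ} (hn : 6 ≤ n) (ht : In3 n m t) :
    t < n ∧ t ≠ eps n m ∧ eps n m < n := by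
  unfold In3 at ht
  unfold eps
  split_ifs at ht ⊢ <;> omega

include L in
theorem omb_strand {m : Fin 4} {v : ℕ} (hv : v < n) :
    ∃ l : ℝ, 0 < l ∧ F.pt v (F.e2 (L.sd m)) = F.pt v (F.e1 (L.sd m)) + l • L.d m := L.s1 v hv m

theorem omb_ok_strand {m : Fin 4} {v t : ℕ} (hv : v < n) (ht : t < n) (htv : t ≠ v) (σ : S) :
    Ok (F.sg t σ) (F.pt v (F.e1 (L.sd m)), F.pt v (F.e2 (L.sd m))) := by
  refine F.ok_diff ht hv htv (τ := L.sd m) ?_
  rintro p hp - (rfl | rfl)
  · exact (L.s0 m).1 hp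
  · exact (L.s0 m).2 (F.hub_ver _ hp)

theorem omb_ok_wall {m : Fin 4} {v t : ℕ} (hv : v < n) (ht : t < n) (htv : t ≠ v) (σ : S) :
    Ok (F.sg t σ) (F.pt v L.a, F.pt v (F.e2 (L.w m))) := by
  have h : Ok (F.sg t σ) (F.sg v (L.w m)) := by
    refine F.ok_diff ht hv htv ?_
    rintro p hp - (rfl | rfl)
    · rw [L.w1] at hp; exact L.na hp
    · exact L.w2 m (F.hub_ver _ hp)
  have e : F.sg v (L.w m) = (F.pt v L.a, F.pt v (F.e2 (L.w m))) := by
    show (F.pt v (F.e1 (L.w m)), F.pt v (F.e2 (L.w m))) = _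
    rw [L.w1]
  rwa [e] at h

/-- the corners are not on the segments of other clusters -/
theorem omb_cor (hn : 6 ≤ n) {m : Fin 4} {v t : ℕ} (hv : In3 n m v) (ht : In3 n m t)
    (htv : t ≠ v) (σ : S) : L.cor m v ∉ segment ℝ (F.sg t σ).1 (F.sg t σ).2 := by
  intro h
  obtain ⟨hvn, hve, hen⟩ := omb_In3 hn hv
  obtain ⟨htn, hte, -⟩ := omb_In3 hn ht
  have hs := openSegment_subset_segment ℝ _ _ (L.cor_mem_strand hn hv)
  have hw := openSegment_subset_segment ℝ _ _ (L.cor_mem_wall hn hv)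
  have h1 := (L.omb_ok_strand (m := m) hvn htn htv σ _ h hs).2.2
  have h2 := (L.omb_ok_wall (m := st m) hen htn hte σ _ h hw).2.2
  obtain ⟨l, hl0, hl⟩ := L.s1 v hvn m
  obtain ⟨k, hk0, hk⟩ := L.W.wall (eps n m) hen (st m)
  have hk' : F.pt (eps n m) (F.e2 (L.w (st m))) = F.pt (eps n m) L.a + k • L.d (st m) := hk
  have h1' : dot ((F.sg t σ).2 - (F.sg t σ).1) (L.d m) = 0 := by
    have : dot ((F.sg t σ).2 - (F.sg t σ).1)
        (F.pt v (F.e2 (L.sd m)) - F.pt v (F.e1 (L.sd m))) = 0 := h1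
    rw [hl, add_sub_cancel_left, dot_smul'] at this
    exact (mul_eq_zero.1 this).resolve_left hl0.ne'
  have h2' : dot ((F.sg t σ).2 - (F.sg t σ).1) (L.d (st m)) = 0 := by
    have : dot ((F.sg t σ).2 - (F.sg t σ).1)
        (F.pt (eps n m) (F.e2 (L.w (st m))) - F.pt (eps n m) L.a) = 0 := h2
    rw [hk', add_sub_cancel_left, dot_smul'] at this
    exact (mul_eq_zero.1 this).resolve_left hk0.ne'
  have e := L.W.expand m ((F.sg t σ).2 - (F.sg t σ).1)
  rw [h1', h2', zero_smul, zero_smul, add_zero] at e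
  exact F.nd t htn σ (sub_eq_zero.1 e).symm

theorem omb_strand_part (hn : 6 ≤ n) {m : Fin 4} {v t : ℕ} (hv : In3 n m v) (ht : In3 n m t)
    (htv : t ≠ v) (σ : S) : Ok (F.sg t σ) (L.cor m v, F.pt v (F.e2 (L.sd m))) := by
  obtain ⟨hvn, hve, hen⟩ := omb_In3 hn hv
  obtain ⟨htn, hte, -⟩ := omb_In3 hn ht
  have hok := L.omb_ok_strand (m := m) hvn htn htv σ
  have hs := openSegment_subset_segment ℝ _ _ (L.cor_mem_strand hn hv)
  refine omb_ok_sub hok hs (right_mem_segment ℝ _ _) ?_ (L.omb_cor hn hv ht htv σ) ?_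
  · obtain ⟨l, hl0, hl⟩ := L.s1 v hvn m
    rw [hl] at hs ⊢
    exact omb_ray hs (right_mem_segment ℝ _ _)
  · intro h
    have := (hok _ h (right_mem_segment ℝ _ _)).2.1
    exact F.nd v hvn (L.sd m) (right_mem_openSegment_iff.1 this)

theorem omb_cor_ne (hn : 6 ≤ n) {m : Fin 4} {v : ℕ} (hv : In3 n m v) :
    L.cor m v ≠ F.pt v (F.e2 (L.sd m)) := by
  intro h
  have := L.cor_mem_strand hn hv
  rw [h] at this
  exact F.nd v (omb_In3 hn hv).1 (L.sd m) (right_mem_openSegment_iff.1 this)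

theorem omb_hub {m : Fin 4} {v : ℕ} :
    F.sg v (L.bs m) = (F.pt v (F.e2 (L.sd m)), F.pt 0 (F.e2 (L.bs m))) := by
  show (F.pt v (F.e1 (L.bs m)), F.pt v (F.e2 (L.bs m))) = _
  rw [L.b1, F.hubc _ (L.bh m) v 0]

theorem omb_hub_ok {m : Fin 4} {v t : ℕ} (hv : v < n) (ht : t < n) (htv : t ≠ v) {σ : S}
    (h1 : F.e1 σ ≠ F.e2 (L.bs m)) (h2 : F.e2 σ ≠ F.e2 (L.bs m)) :
    Ok (F.sg t σ) (F.pt v (F.e2 (L.sd m)), F.pt 0 (F.e2 (L.bs m))) := by
  rw [← L.omb_hub]
  refine F.ok_diff ht hv htv ?_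
  rintro p hp h (rfl | rfl)
  · rw [L.b1] at hp
    exact (L.s0 m).2 (F.hub_ver _ hp)
  · rcases h with h | h
    · exact h1 h.symm
    · exact h2 h.symm

theorem omb_hub_cr (hn : 6 ≤ n) {m : Fin 4} {v t : ℕ} (hv : v < n) (ht : t < n) (htv : t ≠ v)
    (σ : S) : cr (F.sg t σ) (F.pt v (F.e2 (L.sd m)), F.pt 0 (F.e2 (L.bs m))) = 0 := by
  rw [← L.omb_hub]
  unfold cr
  refine if_neg ?_
  intro h
  rw [Fam.Xx_symm] at h
  exact F.hub_inert (by omega) (L.bh m) v t hv ht (Ne.symm htv) σ h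

theorem omb_cor_cor (hn : 6 ≤ n) {m : Fin 4} {s w : ℕ} (hs : In3 n m s) (hw : In3 n m w)
    (hsw : s ≠ w) : L.cor m w ≠ L.cor m s := by
  intro h
  have key : ∀ v, dot (L.cor m v) (L.d (st m)) = dot (F.pt v (F.e1 (L.sd m))) (L.d (st m)) := by
    intro v
    unfold cor
    rw [dot_add, dot_smul, L.W.perp m, mul_zero, add_zero]
  have h1 := congrArg (fun z => dot z (L.d (st m))) h
  simp only [key] at h1
  have hsn := (omb_In3 hn hs).1
  have hwn := (omb_In3 hn hw).1
  have : prec m s w ∨ prec m w s := by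
    unfold prec
    split_ifs <;> omega
  rcases this with h2 | h2
  · exact (L.lev_lt (by omega) hsn hwn h2).ne h1
  · exact (L.lev_lt (by omega) hwn hsn h2).ne h1.symm

theorem omb_wall_part (hn : 6 ≤ n) {m : Fin 4} {s w t : ℕ} (hs : In3 n m s) (hw : In3 n m w)
    (ht : In3 n m t) (hts : t ≠ s) (htw : t ≠ w) (σ : S) :
    Ok (F.sg t σ) (L.cor m w, L.cor m s) := by
  obtain ⟨htn, hte, hen⟩ := omb_In3 hn ht
  have h1 := openSegment_subset_segment ℝ _ _ (L.cor_mem_wall hn hw)
  have h2 := openSegment_subset_segment ℝ _ _ (L.cor_mem_wall hn hs)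
  refine omb_ok_sub (L.omb_ok_wall (m := st m) hen htn hte σ) h1 h2 ?_
    (L.omb_cor hn hw ht htw σ) (L.omb_cor hn hs ht hts σ)
  obtain ⟨k, hk0, hk⟩ := L.W.wall (eps n m) hen (st m)
  have hk' : F.pt (eps n m) (F.e2 (L.w (st m))) = F.pt (eps n m) L.a + k • L.d (st m) := hk
  rw [hk'] at h1 h2 ⊢
  exact omb_ray h1 h2

/-- OMB. The parity of the crossings with `Om` of a segment of a cluster `t` (different from `s`,
`w` and the last cluster), whose ends are not the hub of the strand.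

Proof: `crL_eq` for `Om`. The five segments of `Om` are parts of `sg s (sd m)`, `sg s (bs m)`,
`sg w (bs m)`, `sg w (sd m)`, `sg (eps n m) (w (st m))` (some reversed). `sg t σ` is `Ok` with these
five (`ok_diff`; the hub segments `bs m` have the hub end `e2 (bs m)`, which is not an end of `σ`), and
with the parts: a common point is interior to the full segment and the crossing is perpendicular;
it is not a corner `cor m s`, since otherwise `σ` would be perpendicular to the strand and to the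
wall; so it is interior to the part. The hub segments are not crossed (`hub_inert`). -/
theorem omega_eq (hn : 6 ≤ n) {m : Fin 4} {s w t : ℕ} (hs : In3 n m s) (hw : In3 n m w)
    (ht : In3 n m t) (hsw : s ≠ w) (hts : t ≠ s) (htw : t ≠ w) {σ : S}
    (h1 : F.e1 σ ≠ F.e2 (L.bs m)) (h2 : F.e2 σ ≠ F.e2 (L.bs m)) :
    wp (L.Om m s w) (F.pt t (F.e1 σ)) + wp (L.Om m s w) (F.pt t (F.e2 σ)) =
      cr (F.sg t σ) (L.cor m s, F.pt s (F.e2 (L.sd m))) +
      cr (F.sg t σ) (L.cor m w, F.pt w (F.e2 (L.sd m))) +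
      cr (F.sg t σ) (L.cor m w, L.cor m s) := by
  obtain ⟨hsn, hse, hen⟩ := omb_In3 hn hs
  obtain ⟨hwn, hwe, -⟩ := omb_In3 hn hw
  obtain ⟨htn, hte, -⟩ := omb_In3 hn ht
  have hsegs : segs (L.Om m s w) = [(L.cor m s, F.pt s (F.e2 (L.sd m))),
      (F.pt s (F.e2 (L.sd m)), F.pt 0 (F.e2 (L.bs m))),
      (F.pt 0 (F.e2 (L.bs m)), F.pt w (F.e2 (L.sd m))),
      (F.pt w (F.e2 (L.sd m)), L.cor m w), (L.cor m w, L.cor m s)] := rfl
  have hhub : ∀ v, v < n → F.pt v (F.e2 (L.sd m)) ≠ F.pt 0 (F.e2 (L.bs m)) := by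
    intro v hv h
    have := F.nd v hv (L.bs m)
    rw [L.b1, F.hubc _ (L.bh m) v 0] at this
    exact this h
  have h := crL_eq (s := F.sg t σ) (F.nd t htn σ) (Ω := L.Om m s w) rfl ?_ ?_
  · unfold crL at h
    rw [hsegs] at h
    simp only [List.map_cons, List.map_nil, List.sum_cons, List.sum_nil] at h
    rw [omb_cr_rev _ (F.pt 0 (F.e2 (L.bs m))) (F.pt w (F.e2 (L.sd m))),
      omb_cr_rev _ (F.pt w (F.e2 (L.sd m))) (L.cor m w),
      L.omb_hub_cr hn hsn htn hts σ, L.omb_hub_cr hn hwn htn htw σ] at h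
    have e1 : (F.sg t σ).1 = F.pt t (F.e1 σ) := rfl
    have e2 : (F.sg t σ).2 = F.pt t (F.e2 σ) := rfl
    rw [e1, e2] at h
    rw [← h]
    ring
  · rw [hsegs]
    intro x hx
    simp only [List.mem_cons, List.not_mem_nil, or_false] at hx
    rcases hx with rfl | rfl | rfl | rfl | rfl
    · exact L.omb_cor_ne hn hs
    · exact hhub s hsn
    · exact (hhub w hwn).symm
    · exact (L.omb_cor_ne hn hw).symm
    · exact L.omb_cor_cor hn hs hw hsw
  · rw [hsegs]
    intro x hx
    simp only [List.mem_cons, List.not_mem_nil, or_false] at hx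
    rcases hx with rfl | rfl | rfl | rfl | rfl
    · exact L.omb_strand_part hn hs ht hts σ
    · exact L.omb_hub_ok hsn htn hts h1 h2
    · exact omb_ok_rev (L.omb_hub_ok hwn htn htw h1 h2)
    · exact omb_ok_rev (L.omb_strand_part hn hw ht htw σ)
    · exact L.omb_wall_part hn hs hw ht hts htw σ

/-- OMB. inert segments -/
theorem omega_inert (hn : 6 ≤ n) {m : Fin 4} {s w t : ℕ} (hs : In3 n m s) (hw : In3 n m w)
    (ht : In3 n m t) (hsw : s ≠ w) (hts : t ≠ s) (htw : t ≠ w) {σ : S}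
    (h1 : F.e1 σ ≠ F.e2 (L.bs m)) (h2 : F.e2 σ ≠ F.e2 (L.bs m)) (hi : F.Inert σ) :
    wp (L.Om m s w) (F.pt t (F.e1 σ)) = wp (L.Om m s w) (F.pt t (F.e2 σ)) := by
  obtain ⟨hsn, hse, hen⟩ := omb_In3 hn hs
  obtain ⟨hwn, hwe, -⟩ := omb_In3 hn hw
  obtain ⟨htn, hte, -⟩ := omb_In3 hn ht
  have h := L.omega_eq hn hs hw ht hsw hts htw h1 h2
  have hst : ∀ v, In3 n m v → t ≠ v →
      cr (F.sg t σ) (L.cor m v, F.pt v (F.e2 (L.sd m))) = 0 := by
    intro v hv htv
    refine if_neg ?_
    rintro ⟨z, hz1, hz2⟩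
    exact hi t v htn (omb_In3 hn hv).1 htv (L.sd m)
      ⟨z, hz1, omb_open (L.cor_mem_strand hn hv) (right_mem_segment ℝ _ _) hz2⟩
  have hwl : cr (F.sg t σ) (L.cor m w, L.cor m s) = 0 := by
    refine if_neg ?_
    rintro ⟨z, hz1, hz2⟩
    refine hi t (eps n m) htn hen hte (L.w (st m)) ⟨z, hz1, ?_⟩
    have := omb_open (L.cor_mem_wall hn hw)
      (openSegment_subset_segment ℝ _ _ (L.cor_mem_wall hn hs)) hz2
    show z ∈ openSegment ℝ (F.pt (eps n m) (F.e1 (L.w (st m)))) _
    rw [L.w1]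
    exact this
  rw [hst s hs hts, hst w hw htw, hwl, add_zero, add_zero] at h
  exact CharTwo.add_eq_zero.1 h

end Lb
end Pool.Agent.RAC

/-!
# The closed curves Ω (piece OMC)
-/

namespace Pool.Agent.RAC

/-- lower bound of a linear functional on a segment -/
theorem omc_segment_ge {P Q z v : Pt} {r : ℝ} (hz : z ∈ segment ℝ P Q) (h1 : r ≤ dot P v)
    (h2 : r ≤ dot Q v) : r ≤ dot z v := by
  obtain ⟨a, b, ha, hb, hab, rfl⟩ := hz
  rw [dot_add, dot_smul, dot_smul]
  have : a * r + b * r = r := by rw [← add_mul, hab, one_mul]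
  nlinarith [mul_le_mul_of_nonneg_left h1 ha, mul_le_mul_of_nonneg_left h2 hb]

/-- a linear functional which is constant at the ends -/
theorem omc_segment_eq {P Q z v : Pt} {r : ℝ} (hz : z ∈ segment ℝ P Q) (h1 : dot P v = r)
    (h2 : dot Q v = r) : dot z v = r :=
  le_antisymm (dot_segment_le hz h1.le h2.le) (omc_segment_ge hz h1.ge h2.ge)

/-- strict bounds on an open segment -/
theorem omc_open_lt {P Q z v : Pt} (hz : z ∈ openSegment ℝ P Q) (h : dot P v < dot Q v) :
    dot P v < dot z v ∧ dot z v < dot Q v := by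
  obtain ⟨a, b, ha, hb, hab, rfl⟩ := hz
  rw [dot_add, dot_smul, dot_smul]
  obtain rfl : a = 1 - b := by linarith
  constructor <;> nlinarith

/-- parts of open segments -/
theorem omc_open_sub {P Q R z : Pt} (hR : R ∈ openSegment ℝ P Q) (hz : z ∈ openSegment ℝ R Q) :
    z ∈ openSegment ℝ P Q := by
  obtain ⟨a, b, ha, hb, hab, rfl⟩ := hR
  obtain ⟨c, e, hc, he, hce, rfl⟩ := hz
  refine ⟨c * a, c * b + e, by positivity, by positivity, ?_, ?_⟩
  · have : c * (a + b) + e = 1 := by rw [hab, mul_one, hce]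
    linarith
  · rw [smul_add, add_assoc, smul_smul, smul_smul, add_smul]

theorem omc_eps_lt {n : ℕ} (hn : 1 ≤ n) (m : Fin 4) : eps n m < n := by
  unfold eps
  split_ifs <;> omega

theorem omc_in3_bd {n : ℕ} {m : Fin 4} {t : ℕ} (h : In3 n m t) : 1 ≤ t ∧ t + 1 < n := by
  unfold In3 at h
  split_ifs at h <;> omega

theorem omc_prec_eps {n : ℕ} {m : Fin 4} {t : ℕ} (h : In3 n m t) : prec m t (eps n m) := by
  unfold In3 at h
  unfold prec eps
  split_ifs at h ⊢ <;> omega

theorem omc_lat_eps {n : ℕ} {m : Fin 4} {t : ℕ} (h : In3 n m t) :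
    prec m (lat m (t - 1) (t + 1)) (eps n m) ∧ lat m (t - 1) (t + 1) < n ∧
      lat m (t - 1) (t + 1) ≠ eps n m := by
  unfold In3 at h
  unfold prec eps lat
  split_ifs at h ⊢ <;> omega

theorem omc_zmod2 {a b : ZMod 2} (h : a + b = 0) : a = b := by
  revert a b
  decide

namespace Lb

variable {n : ℕ} {P S E : Type} {F : Fam n P S E} (L : Lb F)

/-- the constant -/
noncomputable def kap (m : Fin 4) (s w : ℕ) : ZMod 2 :=
  wp (L.Om m s w) (F.pt 0 (F.e2 (L.bs (op m))))

/-- the point label `p` is outside of all curves -/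
def Alt0 (m : Fin 4) (p : P) : Prop :=
  ∀ s w t, In3 n m s → In3 n m w → In3 n m t → s ≠ w → t ≠ s → t ≠ w →
    wp (L.Om m s w) (F.pt t p) = L.kap m s w

/-- the point `p` of the cluster `t` is inside of the curve of `s`, `w` iff `t` is between them -/
def Alt (m : Fin 4) (p : P) : Prop :=
  ∀ s w t, In3 n m s → In3 n m w → In3 n m t → s ≠ w → t ≠ s → t ≠ w →
    wp (L.Om m s w) (F.pt t p) = L.kap m s w + btwn s w t

theorem omc_cor_m (m : Fin 4) (s : ℕ) :
    dot (L.cor m s) (L.d m) = dot (F.pt (eps n m) L.a) (L.d m) := by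
  unfold cor
  rw [dot_add, dot_smul, L.W.unit m]
  ring

theorem omc_cor_st (m : Fin 4) (s : ℕ) :
    dot (L.cor m s) (L.d (st m)) = dot (F.pt s (F.e1 (L.sd m))) (L.d (st m)) := by
  unfold cor
  rw [dot_add, dot_smul, L.W.perp m]
  ring

theorem omc_end_st {m : Fin 4} {s : ℕ} (hs : s < n) :
    dot (F.pt s (F.e2 (L.sd m))) (L.d (st m)) = dot (F.pt s (F.e1 (L.sd m))) (L.d (st m)) := by
  obtain ⟨l, -, hl⟩ := L.s1 s hs m
  rw [hl, dot_add, dot_smul, L.W.perp m]
  ring

/-- the quadrant at the last point is not met by the opposite strand -/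
theorem omc_key (hn : 6 ≤ n) {m : Fin 4} {t : ℕ} (ht : In3 n m t) {z : Pt}
    (hz : z ∈ segment ℝ (F.pt t (F.e1 (L.sd (op m)))) (F.pt t (F.e2 (L.sd (op m)))))
    (h1 : dot (F.pt (eps n m) L.a) (L.d m) ≤ dot z (L.d m))
    (h2 : dot (F.pt (eps n m) L.a) (L.d (st m)) ≤ dot z (L.d (st m))) : False := by
  obtain ⟨ht1, ht2⟩ := omc_in3_bd ht
  obtain ⟨hlat, hlatn, hlatne⟩ := omc_lat_eps ht
  have hεn : eps n m < n := omc_eps_lt (by omega) m
  have hP : F.pt t (F.e1 (L.sd (op m))) ∈ K (fun t => F.pt t L.a) L.d (t - 1) (t + 1) :=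
    L.sK (op m) (t - 1) t (t + 1) (by omega) (by omega) ht2
  have hQ : z ∉ K (fun t => F.pt t L.a) L.d (t - 1) (t + 1) := by
    intro h
    have e1 := h m
    have e2 := L.W.mono m _ _ hlatn hεn hlat
    simp only at e1 e2
    linarith
  have hw : ∀ v, v = t - 1 ∨ v = t + 1 → ∀ m', Lg (F.pt t (F.e1 (L.sd (op m)))) z
      ((fun t => F.pt t L.a) v) ((fun t m => F.pt t (F.e2 (L.w m))) v m') := by
    intro v hv m'
    exact (L.legal (t := t) (v := v) (by omega) (by omega) (by omega) (L.sd (op m)) m').mono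
      (left_mem_segment ℝ _ _) hz
  obtain ⟨m', ⟨l, hl, hle⟩, ha, hb, -, -⟩ := L.W.exit (by omega) ht2 hP hQ hw
  obtain ⟨l', hl', he'⟩ := L.s1 t (by omega) (op m)
  have hd : L.d m' = L.d (op m) := by
    obtain ⟨a, b, ha', hb', hab, hz'⟩ := hz
    have e1 : z - F.pt t (F.e1 (L.sd (op m))) = (b * l') • L.d (op m) := by
      rw [← hz', he']
      obtain rfl : a = 1 - b := by linarith
      module
    rw [hle] at e1
    have e2 : dot (l • L.d m') (l • L.d m') = dot ((b * l') • L.d (op m)) ((b * l') • L.d (op m)) := by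
      rw [e1]
    rw [dot_smul, dot_smul', dot_smul, dot_smul', L.W.unit, L.W.unit] at e2
    have e3 : l = b * l' := by
      have e4 : 0 ≤ b * l' := by positivity
      nlinarith
    rw [← e3] at e1
    exact smul_right_injective _ hl.ne' e1
  have hm' : m' = op m := L.W.d_inj (by omega) hd
  subst hm'
  rw [lat_op] at ha hb
  have hb' : dot (F.pt (lat m (t - 1) (t + 1)) L.a) (L.d (st (op m))) ≤ dot z (L.d (st (op m))) := by
    have e1 : z = F.pt t (F.e1 (L.sd (op m))) + l • L.d (op m) := by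
      rw [← hle]
      abel
    have e2 : dot z (L.d (st (op m))) = dot (F.pt t (F.e1 (L.sd (op m)))) (L.d (st (op m))) := by
      rw [e1, dot_add, dot_smul, L.W.perp (op m)]
      ring
    rw [e2]
    exact hb.le
  have hm : m = 0 ∨ m = 1 ∨ m = 2 ∨ m = 3 := by
    fin_cases m <;> simp
  rcases hm with rfl | rfl | rfl | rfl
  · exact L.W.lr_disj_x (z := z) hεn hlatn (Ne.symm hlatne) h1 h2 ha hb'
  · exact L.W.lr_disj_x (z := z) hεn hlatn (Ne.symm hlatne) h2 h1 hb' ha
  · exact L.W.lr_disj_x (z := z) hlatn hεn hlatne ha hb' h1 h2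
  · exact L.W.lr_disj_x (z := z) hlatn hεn hlatne hb' ha h2 h1

theorem omc_strand_part (hn : 6 ≤ n) {m : Fin 4} {s t : ℕ} (hs : In3 n m s) (ht : In3 n m t) :
    cr (F.sg t (L.sd (op m))) (L.cor m s, F.pt s (F.e2 (L.sd m))) = 0 := by
  unfold cr
  rw [if_neg]
  rintro ⟨z, hz1, hz2⟩
  have hz1' := openSegment_subset_segment ℝ _ _ hz1
  have hz2' := openSegment_subset_segment ℝ _ _ hz2
  have hsn : s < n := by have := omc_in3_bd hs; omega
  have hεn : eps n m < n := omc_eps_lt (by omega) m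
  refine L.omc_key hn ht hz1' ?_ ?_
  · refine omc_segment_ge hz2' (L.omc_cor_m m s).ge ?_
    exact (L.slong s (eps n m) hsn hεn m).le
  · have e1 := (L.slev m s (eps n m) hsn hεn (omc_prec_eps hs)).1
    refine omc_segment_ge hz2' ?_ ?_
    · simp only
      rw [L.omc_cor_st]
      exact e1.le
    · simp only
      rw [L.omc_end_st hsn]
      exact e1.le

/-- OMC. The strand `op m` of the cluster `t` does not meet the curve.

Proof. Let `z` be a point of the strand `sg t (sd (op m))` and of one of the three parts. In all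
cases `c_m z ≥ c_m (x ε)` and `c_(st m) z ≥ c_(st m) (x ε)`, `ε = eps n m` (`slev`). The start `p` of the
strand is in the cell `C (t-1) (t+1)`; `z` is not in this cell, since `c_m z ≥ c_m (x ε)`. By `exit`
(from `p` to `z`, `Lg.mono`) the direction is `d m'` with `m' = op m` (`d_inj`), and
`c_(op m) z ≥ c_(op m) (x v)`, `c_(st (op m)) z > c_(st (op m)) (x v)`, where `v` is the neighbour of `t` which is
later in the order `prec m` (`lat_op`); `v ≠ ε` by `In3`. Contradiction to `lr_disj_x` (the side of `m`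
at `x ε`, the other side at `x v`). -/
theorem strand_op (hn : 6 ≤ n) {m : Fin 4} {s w t : ℕ} (hs : In3 n m s) (hw : In3 n m w)
    (ht : In3 n m t) (hsw : s ≠ w) (hts : t ≠ s) (htw : t ≠ w) :
    cr (F.sg t (L.sd (op m))) (L.cor m s, F.pt s (F.e2 (L.sd m))) = 0 ∧
    cr (F.sg t (L.sd (op m))) (L.cor m w, F.pt w (F.e2 (L.sd m))) = 0 ∧
    cr (F.sg t (L.sd (op m))) (L.cor m w, L.cor m s) = 0 := by
  refine ⟨L.omc_strand_part hn hs ht, L.omc_strand_part hn hw ht, ?_⟩
  unfold cr
  rw [if_neg]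
  rintro ⟨z, hz1, hz2⟩
  have hz1' := openSegment_subset_segment ℝ _ _ hz1
  have hz2' := openSegment_subset_segment ℝ _ _ hz2
  have hsn : s < n := by have := omc_in3_bd hs; omega
  have hwn : w < n := by have := omc_in3_bd hw; omega
  have hεn : eps n m < n := omc_eps_lt (by omega) m
  refine L.omc_key hn ht hz1' ?_ ?_
  · exact omc_segment_ge hz2' (L.omc_cor_m m w).ge (L.omc_cor_m m s).ge
  · have e1 := (L.slev m s (eps n m) hsn hεn (omc_prec_eps hs)).1
    have e2 := (L.slev m w (eps n m) hwn hεn (omc_prec_eps hw)).1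
    refine omc_segment_ge hz2' ?_ ?_
    · simp only
      rw [L.omc_cor_st]
      exact e2.le
    · simp only
      rw [L.omc_cor_st]
      exact e1.le

theorem omc_not_hub (hn : 5 ≤ n) {p : P} (h : L.IN p) (m : Fin 4) (L₀ : Lb F) :
    p ≠ F.e2 (L₀.bs m) := by
  rintro rfl
  exact L.not_IN_hub hn (L₀.bh m) h

/-- the parity is constant along inert paths which start in a confined point -/
theorem omc_conn (hn : 6 ≤ n) {m : Fin 4} {s w t : ℕ} (hs : In3 n m s) (hw : In3 n m w)
    (ht : In3 n m t) (hsw : s ≠ w) (hts : t ≠ s) (htw : t ≠ w) (L' : Lb F) {p q : P}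
    (hp : L'.IN p) (hc : F.Conn p q) :
    wp (L.Om m s w) (F.pt t p) = wp (L.Om m s w) (F.pt t q) := by
  induction hc with
  | refl => rfl
  | @tail b c hab hbc ih =>
    rw [ih]
    have hb : L'.IN b := L'.IN_of_Conn hp hab
    have hcc : L'.IN c := L'.IN_of_Conn hp (Relation.ReflTransGen.tail hab hbc)
    obtain ⟨σ, hi, hσ⟩ := hbc
    have hb' := L'.omc_not_hub (by omega) hb m L
    have hc' := L'.omc_not_hub (by omega) hcc m L
    rcases hσ with ⟨e1, e2⟩ | ⟨e1, e2⟩
    · have := L.omega_inert hn hs hw ht hsw hts htw (σ := σ) (by rw [e1]; exact hb')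
        (by rw [e2]; exact hc') hi
      rwa [e1, e2] at this
    · have := L.omega_inert hn hs hw ht hsw hts htw (σ := σ) (by rw [e1]; exact hc')
        (by rw [e2]; exact hb') hi
      rw [e1, e2] at this
      exact this.symm

/-- OMC. The label itself is outside: path through the strand `op m` and the hub segment
(`conn_strand`, `omega_inert`, `strand_op`, `hub_inert`); the hub of `op m` is not the hub of `m`
(`bi`), its position does not depend on the cluster (`hubc`). -/
theorem alt0_self (hn : 6 ≤ n) (m : Fin 4) : L.Alt0 m L.a := by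
  intro s w t hs hw ht hsw hts htw
  rw [L.omc_conn hn hs hw ht hsw hts htw L L.IN_self (L.conn_strand hn (op m))]
  have hsd1 : F.e1 (L.sd (op m)) ≠ F.e2 (L.bs m) := by
    intro h
    exact (L.s0 (op m)).1 (h ▸ L.bh m)
  have hsd2 : F.e2 (L.sd (op m)) ≠ F.e2 (L.bs m) := by
    intro h
    exact (L.s0 (op m)).2 (h ▸ F.hub_ver _ (L.bh m))
  have h1 := L.omega_eq hn hs hw ht hsw hts htw (σ := L.sd (op m)) hsd1 hsd2
  obtain ⟨e1, e2, e3⟩ := L.strand_op hn hs hw ht hsw hts htw
  rw [e1, e2, e3, add_zero, add_zero] at h1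
  rw [omc_zmod2 h1]
  have hne : F.e2 (L.bs (op m)) ≠ F.e2 (L.bs m) := by
    intro h
    have h2 := L.bi _ _ h
    have h3 : op m ≠ m := by fin_cases m <;> decide
    exact h3 h2
  have h2 := L.omega_inert hn hs hw ht hsw hts htw (σ := L.bs (op m)) (by rw [L.b1]; exact hsd2) hne
    (F.hub_inert (by omega) (L.bh (op m)))
  rw [L.b1] at h2
  rw [h2]
  unfold kap
  rw [F.hubc _ (L.bh (op m)) t 0]

/-- OMC. the properties are inherited along inert paths which start in a confined point -/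
theorem Alt0.conn {L : Lb F} (hn : 6 ≤ n) {m : Fin 4} {p q : P} (h : L.Alt0 m p) (L' : Lb F)
    (hp : L'.IN p) (hc : F.Conn p q) : L.Alt0 m q := by
  intro s w t hs hw ht hsw hts htw
  rw [← L.omc_conn hn hs hw ht hsw hts htw L' hp hc]
  exact h s w t hs hw ht hsw hts htw

theorem Alt.conn {L : Lb F} (hn : 6 ≤ n) {m : Fin 4} {p q : P} (h : L.Alt m p) (L' : Lb F)
    (hp : L'.IN p) (hc : F.Conn p q) : L.Alt m q := by
  intro s w t hs hw ht hsw hts htw
  rw [← L.omc_conn hn hs hw ht hsw hts htw L' hp hc]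
  exact h s w t hs hw ht hsw hts htw

/-- indices for homogeneity arguments -/
theorem omc_three (m : Fin 4) : ∃ i j k : ℕ, i < 3 ∧ j < 3 ∧ k < 3 ∧ prec m i j ∧ prec m j k ∧
    prec m i k := by
  by_cases h : m = 0 ∨ m = 2
  · refine ⟨0, 1, 2, by omega, by omega, by omega, ?_, ?_, ?_⟩ <;> simp [prec, h]
  · refine ⟨2, 1, 0, by omega, by omega, by omega, ?_, ?_, ?_⟩ <;> simp [prec, h]

/-- the level of the segment which leaves the cells, compared with the levels of the strands -/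
theorem omc_level (hn : 8 ≤ n) {p q : P} {m : Fin 4} (ho : Out L p q m) {s t : ℕ} (hs : s < n)
    (ht : t < n) :
    (prec m s t → dot (F.pt t p) (L.d (st m)) < dot (F.pt s (F.e1 (L.sd m))) (L.d (st m))) ∧
    (prec m t s → dot (F.pt s (F.e1 (L.sd m))) (L.d (st m)) < dot (F.pt t p) (L.d (st m))) := by
  obtain ⟨i, j, k, hi, hj, hk, hij, hjk, hik⟩ := omc_three m
  constructor
  · intro h
    refine (L.hom_lt (st m) p (F.e1 (L.sd m)) (st m) (t := k) (u := i) (t' := t) (u' := s)
      (by omega) (by omega) ht hs (prec_st.2 hik) (prec_st.2 h)).1 ?_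
    have e1 := ho.hi k j (by omega) (by omega) hjk
    have e2 := (L.slev m i j (by omega) (by omega) hij).1
    linarith
  · intro h
    refine (L.hom_lt (st m) (F.e1 (L.sd m)) p (st m) (t := k) (u := i) (t' := s) (u' := t)
      (by omega) (by omega) hs ht (prec_st.2 hik) (prec_st.2 h)).1 ?_
    have e1 := ho.lo i j (by omega) (by omega) hij
    have e2 := (L.slev m j k (by omega) (by omega) hjk).2
    linarith

theorem omc_prec_or (m : Fin 4) {s t : ℕ} (h : s ≠ t) : prec m s t ∨ prec m t s := by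
  unfold prec
  split_ifs <;> omega

theorem omc_btwn_iff (m : Fin 4) (s w t : ℕ) : ((s < t ∧ t < w) ∨ (w < t ∧ t < s)) ↔
    ((prec m s t ∧ prec m t w) ∨ (prec m w t ∧ prec m t s)) := by
  unfold prec
  split_ifs <;> constructor <;> intro h <;> omega

/-- the segment which leaves the cells does not cross the strands -/
theorem omc_par (hn : 8 ≤ n) {L L' : Lb F} {μ : S} {p q : P} {m : Fin 4}
    (h : Lk L L' μ p q) (ho : Out L p q m) {s t : ℕ} (hs : In3 n m s) (ht : t < n) (hts : t ≠ s) :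
    cr (F.sg t μ) (L.cor m s, F.pt s (F.e2 (L.sd m))) = 0 := by
  unfold cr
  rw [if_neg]
  rintro ⟨z, hz1, hz2⟩
  have hsn : s < n := by have := omc_in3_bd hs; omega
  have hz2' : z ∈ openSegment ℝ (F.pt s (F.e1 (L.sd m))) (F.pt s (F.e2 (L.sd m))) :=
    omc_open_sub (L.cor_mem_strand (by omega) hs) hz2
  have hperp := F.perp_of_Xx ht hsn hts (σ := μ) (τ := L.sd m) ⟨z, hz1, hz2'⟩
  obtain ⟨l, hl, hle⟩ := ho.dir t ht
  obtain ⟨l', hl', hle'⟩ := L.s1 s hsn m
  have e1 : F.dir s (L.sd m) = l' • L.d m := by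
    unfold Fam.dir
    rw [hle']
    abel
  rcases h.ends with ⟨e2, e3⟩ | ⟨e2, e3⟩
  · have e4 : F.dir t μ = l • L.d m := by
      unfold Fam.dir
      rw [e2, e3, hle]
    rw [e1, e4, dot_smul, dot_smul', L.W.unit] at hperp
    have : 0 < l * (l' * 1) := by positivity
    linarith
  · have e4 : F.dir t μ = (-l) • L.d m := by
      unfold Fam.dir
      rw [e2, e3, neg_smul, ← hle]
      abel
    rw [e1, e4, dot_smul, dot_smul', L.W.unit] at hperp
    have : 0 < l * (l' * 1) := by positivity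
    linarith

/-- points with given coordinates -/
theorem omc_mem_open (m : Fin 4) {A B z : Pt} (h1 : dot z (L.d m) = dot A (L.d m))
    (h1' : dot B (L.d m) = dot A (L.d m)) (h2 : dot A (L.d (st m)) < dot z (L.d (st m)))
    (h3 : dot z (L.d (st m)) < dot B (L.d (st m))) : z ∈ openSegment ℝ A B := by
  set cA := dot A (L.d (st m)) with hcA
  set cB := dot B (L.d (st m)) with hcB
  set cz := dot z (L.d (st m)) with hcz
  have hAB : 0 < cB - cA := by linarith
  refine ⟨1 - (cz - cA) / (cB - cA), (cz - cA) / (cB - cA), ?_, ?_, by ring, ?_⟩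
  · have : (cz - cA) / (cB - cA) < 1 := by
      rw [div_lt_one hAB]
      linarith
    linarith
  · exact div_pos (by linarith) hAB
  · set τ := (cz - cA) / (cB - cA) with hτ
    have e0 : τ * (cB - cA) = cz - cA := div_mul_cancel₀ _ hAB.ne'
    have e1 := L.W.expand m ((1 - τ) • A + τ • B - z)
    have e2 : dot ((1 - τ) • A + τ • B - z) (L.d m) = 0 := by
      rw [dot_sub, dot_add, dot_smul, dot_smul, h1, h1']
      ring
    have e3 : dot ((1 - τ) • A + τ • B - z) (L.d (st m)) = 0 := by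
      rw [dot_sub, dot_add, dot_smul, dot_smul, ← hcA, ← hcB, ← hcz]
      linarith
    rw [e2, e3, zero_smul, zero_smul, add_zero] at e1
    exact sub_eq_zero.1 e1

theorem omc_zmod2' {a b c : ZMod 2} (h : a + b = c) : b = a + c := by
  revert a b c
  decide

/-- the crossings of the segment which leaves the cells and the part of the wall -/
theorem omc_wall_part (hn : 8 ≤ n) {L L' : Lb F} {μ : S} {p q : P} {m : Fin 4}
    (h : Lk L L' μ p q) (ho : Out L p q m) {s w t : ℕ} (hs : In3 n m s) (hw : In3 n m w)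
    (ht : In3 n m t) (hsw : s ≠ w) (hts : t ≠ s) (htw : t ≠ w) :
    cr (F.sg t μ) (L.cor m w, L.cor m s) = btwn s w t := by
  have hsn : s < n := by have := omc_in3_bd hs; omega
  have hwn : w < n := by have := omc_in3_bd hw; omega
  have htn : t < n := by have := omc_in3_bd ht; omega
  have hεn : eps n m < n := omc_eps_lt (by omega) m
  obtain ⟨hls1, hls2⟩ := omc_level (L := L) hn ho hsn htn
  obtain ⟨hlw1, hlw2⟩ := omc_level (L := L) hn ho hwn htn
  have hlev : ∀ z, z ∈ segment ℝ (F.sg t μ).1 (F.sg t μ).2 →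
      dot z (L.d (st m)) = dot (F.pt t p) (L.d (st m)) := by
    intro z hz
    obtain ⟨l, hl, hle⟩ := ho.dir t htn
    have e1 : dot (F.pt t q) (L.d (st m)) = dot (F.pt t p) (L.d (st m)) := by
      have : F.pt t q = F.pt t p + l • L.d m := by
        rw [← hle]
        abel
      rw [this, dot_add, dot_smul, L.W.perp m]
      ring
    refine omc_segment_eq hz ?_ ?_
    · rcases h.ends with ⟨e2, e3⟩ | ⟨e2, e3⟩
      · simp only [Fam.sg, e2]
      · simp only [Fam.sg, e2, e1]
    · rcases h.ends with ⟨e2, e3⟩ | ⟨e2, e3⟩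
      · simp only [Fam.sg, e3, e1]
      · simp only [Fam.sg, e3]
  unfold cr btwn
  by_cases hb : (s < t ∧ t < w) ∨ (w < t ∧ t < s)
  · rw [if_pos hb, if_pos]
    obtain ⟨z, hz1, hz2⟩ := Out.cross h ho htn hεn (omc_prec_eps ht) hn
    refine ⟨z, hz1, ?_⟩
    have hz : dot z (L.d (st m)) = dot (F.pt t p) (L.d (st m)) :=
      hlev z (openSegment_subset_segment ℝ _ _ hz1)
    have hzm : dot z (L.d m) = dot (F.pt (eps n m) L.a) (L.d m) := by
      refine omc_segment_eq (openSegment_subset_segment ℝ _ _ hz2) ?_ ?_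
      · simp only [Fam.sg, L.w1]
      · obtain ⟨l, hl, hle⟩ := L.W.wall (eps n m) hεn (st m)
        have hp := L.W.perp (st m)
        rw [st_st] at hp
        simp only [Fam.sg]
        rw [hle, dot_add, dot_smul, hp]
        ring
    rcases (omc_btwn_iff m s w t).1 hb with ⟨h1, h2⟩ | ⟨h1, h2⟩
    · refine L.omc_mem_open m ?_ ?_ ?_ ?_
      · rw [L.omc_cor_m, hzm]
      · rw [L.omc_cor_m, L.omc_cor_m]
      · rw [L.omc_cor_st, hz]
        exact hlw2 h2
      · rw [L.omc_cor_st, hz]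
        exact hls1 h1
    · show z ∈ openSegment ℝ (L.cor m w) (L.cor m s)
      rw [openSegment_symm]
      refine L.omc_mem_open m ?_ ?_ ?_ ?_
      · rw [L.omc_cor_m, hzm]
      · rw [L.omc_cor_m, L.omc_cor_m]
      · rw [L.omc_cor_st, hz]
        exact hls2 h2
      · rw [L.omc_cor_st, hz]
        exact hlw1 h1
  · rw [if_neg hb, if_neg]
    rintro ⟨z, hz1, hz2⟩
    apply hb
    rw [omc_btwn_iff m]
    have hz : dot z (L.d (st m)) = dot (F.pt t p) (L.d (st m)) :=
      hlev z (openSegment_subset_segment ℝ _ _ hz1)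
    simp only at hz2
    rcases omc_prec_or m hsw with h1 | h1
    · have h2 := L.lev_lt (by omega) hsn hwn h1
      rw [← L.omc_cor_st, ← L.omc_cor_st] at h2
      obtain ⟨h3, h4⟩ := omc_open_lt hz2 h2
      rw [L.omc_cor_st, hz] at h3 h4
      left
      constructor
      · rcases omc_prec_or m (Ne.symm hts) with h5 | h5
        · exact h5
        · have := hls2 h5
          linarith
      · rcases omc_prec_or m htw with h5 | h5
        · exact h5
        · have := hlw1 h5
          linarith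
    · have h2 := L.lev_lt (by omega) hwn hsn h1
      rw [← L.omc_cor_st, ← L.omc_cor_st] at h2
      rw [openSegment_symm] at hz2
      obtain ⟨h3, h4⟩ := omc_open_lt hz2 h2
      rw [L.omc_cor_st, hz] at h3 h4
      right
      constructor
      · rcases omc_prec_or m (Ne.symm htw) with h5 | h5
        · exact h5
        · have := hlw2 h5
          linarith
      · rcases omc_prec_or m hts with h5 | h5
        · exact h5
        · have := hls1 h5
          linarith

/-- OMC. The label at the other end of a middle segment which leaves the cells is alternately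
inside and outside.

Proof. `p` is outside (`alt0_self`, `Alt0.conn` along the path from `L.a` to `p`). The segment `μ` of `t` is
parallel to `d m`, so it does not cross the parts of the strands (`perp_of_Xx`), and it crosses the
wall `st m` of the last cluster (`Out.cross`); the crossing point has the level `c_(st m) (pt t p)`, and
it lies between the corners iff the level is between the levels of the strands of `s` and `w`.
By `lo`, `hi`, `slev` and homogeneity (`hom_lt` for `p` and `e1 (sd m)`), this holds iff `t` is between `s` and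
`w`. So `q` is in the alternating position (`omega_eq`), and so is `L'.a` (`Alt.conn`). -/
theorem alt_of_out (hn : 8 ≤ n) {L L' : Lb F} {μ : S} {p q : P} {m : Fin 4}
    (h : Lk L L' μ p q) (ho : Out L p q m) : L.Alt m L'.a := by
  have hp : L.Alt0 m p := Alt0.conn (by omega) (L.alt0_self (by omega) m) L L.IN_self h.cp
  refine Alt.conn (by omega) ?_ L' h.q1 h.cq
  intro s w t hs hw ht hsw hts htw
  have hpn := L.omc_not_hub (by omega) h.p1 m L
  have hqn := L'.omc_not_hub (by omega) h.q1 m L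
  have htn : t < n := by have := omc_in3_bd ht; omega
  have hpq : wp (L.Om m s w) (F.pt t p) + wp (L.Om m s w) (F.pt t q) =
      cr (F.sg t μ) (L.cor m s, F.pt s (F.e2 (L.sd m))) +
      cr (F.sg t μ) (L.cor m w, F.pt w (F.e2 (L.sd m))) +
      cr (F.sg t μ) (L.cor m w, L.cor m s) := by
    rcases h.ends with ⟨e1, e2⟩ | ⟨e1, e2⟩
    · have := L.omega_eq (by omega) hs hw ht hsw hts htw (σ := μ) (by rw [e1]; exact hpn)
        (by rw [e2]; exact hqn)
      rwa [e1, e2] at this
    · have := L.omega_eq (by omega) hs hw ht hsw hts htw (σ := μ) (by rw [e1]; exact hqn)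
        (by rw [e2]; exact hpn)
      rw [e1, e2] at this
      rw [← this, add_comm]
  rw [omc_par hn h ho hs htn hts, omc_par hn h ho hw htn htw,
    omc_wall_part hn h ho hs hw ht hsw hts htw, zero_add, zero_add,
    hp s w t hs hw ht hsw hts htw] at hpq
  exact omc_zmod2' hpq

end Lb
end Pool.Agent.RAC

/-!
# Interleaved labels, frames: definitions
-/

namespace Pool.Agent.RAC

/-- `v` is one of the four vectors of the frame of `f` -/
def ax (f v : Pt) : Prop := v = f ∨ v = J f ∨ v = -f ∨ v = - J f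

namespace Fam

variable {n : ℕ} {P S E : Type} (F : Fam n P S E)

/-- The point labels `p`, `q` are interleaved and increasing in the direction `g`. -/
def Il (g : Pt) (p q : P) : Prop := ∀ t u, t < u → u < n →
  dot (F.pt t p) g < dot (F.pt u q) g ∧ dot (F.pt t q) g < dot (F.pt u p) g

/-- The comparison of the coordinates in the direction `g` is homogeneous. -/
def Hg (g : Pt) : Prop := ∀ p q : P, ∀ t u t' u', t < u → u < n → t' < u' → u' < n →
  ((dot (F.pt t p) g < dot (F.pt u q) g ↔ dot (F.pt t' p) g < dot (F.pt u' q) g) ∧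
    (dot (F.pt u p) g < dot (F.pt t q) g ↔ dot (F.pt u' p) g < dot (F.pt t' q) g))

end Fam

namespace Lb

variable {n : ℕ} {P S E : Type} {F : Fam n P S E}

/-- the vector `± d k` in whose direction the chain of the label increases -/
def inc (L : Lb F) (k : Fin 4) : Pt := if k = 0 ∨ k = 2 then L.d k else - L.d k

/-- A step of a path which stays in the strip of the label `L` of the direction `d m`: along an
inert segment or along a segment parallel to `d m`. -/
def HStep (L : Lb F) (m : Fin 4) (p q : P) : Prop :=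
  ¬ F.hub q ∧ F.Il (L.inc (st m)) L.a q ∧
    (F.Adj1 p q ∨ ∃ σ, ((F.e1 σ = p ∧ F.e2 σ = q) ∨ (F.e1 σ = q ∧ F.e2 σ = p)) ∧
      ∀ t, t < n → dot (F.dir t σ) (L.d (st m)) = 0)

end Lb
end Pool.Agent.RAC

/-!
# Interleaved labels (piece ILA)
-/

namespace Pool.Agent.RAC
namespace Fam

variable {n : ℕ} {P S E : Type} {F : Fam n P S E}

/-- ILA. from `Lb.hom_lt` (for `k = 0`) -/
theorem _root_.Pool.Agent.RAC.Lb.Hg_d (L : Lb F) (m : Fin 4) : F.Hg (L.d m) := by
  intro p q t u t' u' h1 h2 h3 h4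
  refine ⟨?_, ?_⟩
  · exact L.hom_lt m p q 0 (by omega) h2 (by omega) h4 (by simpa [prec] using h1)
      (by simpa [prec] using h3)
  · exact L.hom_lt m p q 1 h2 (by omega) h4 (by omega) (by simpa [prec] using h1)
      (by simpa [prec] using h3)

theorem Hg.neg {g : Pt} (h : F.Hg g) : F.Hg (-g) := by
  intro p q t u t' u' h1 h2 h3 h4
  have h5 := h q p t u t' u' h1 h2 h3 h4
  simp only [dot_neg', neg_lt_neg_iff]
  exact ⟨h5.2, h5.1⟩

theorem Il.symm {g : Pt} {p q : P} (h : F.Il g p q) : F.Il g q p :=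
  fun t u h1 h2 => ⟨(h t u h1 h2).2, (h t u h1 h2).1⟩

/-- ILA. `p 0 < q 1 < r 2` and homogeneity -/
theorem Il.trans {g : Pt} (hg : F.Hg g) (hn : 3 ≤ n) {p q r : P} (h : F.Il g p q)
    (h' : F.Il g q r) : F.Il g p r := by
  intro t u h1 h2
  refine ⟨?_, ?_⟩
  · exact (hg p r 0 2 t u (by omega) (by omega) h1 h2).1.1
      ((h 0 1 (by omega) (by omega)).1.trans (h' 1 2 (by omega) (by omega)).1)
  · exact (hg r p 0 2 t u (by omega) (by omega) h1 h2).1.1
      ((h' 0 1 (by omega) (by omega)).2.trans (h 1 2 (by omega) (by omega)).2)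

/-- ILA. one comparison of each kind is enough -/
theorem Il.of {g : Pt} (hg : F.Hg g) {p q : P}
    (h1 : ∃ t u, t < u ∧ u < n ∧ dot (F.pt t p) g < dot (F.pt u q) g)
    (h2 : ∃ t u, t < u ∧ u < n ∧ dot (F.pt t q) g < dot (F.pt u p) g) : F.Il g p q := by
  obtain ⟨t1, u1, a1, b1, c1⟩ := h1
  obtain ⟨t2, u2, a2, b2, c2⟩ := h2
  intro t u h3 h4
  exact ⟨(hg p q t1 u1 t u a1 b1 h3 h4).1.1 c1, (hg q p t2 u2 t u a2 b2 h3 h4).1.1 c2⟩

/-- ILA. -/
theorem Il.self {g : Pt} (hg : F.Hg g) (hn : 3 ≤ n) {p q : P} (h : F.Il g p q) : F.Il g p p :=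
  h.trans hg hn h.symm

/-- ILA. two labels are not interleaved in opposite directions -/
theorem Il.not_neg {g : Pt} (hn : 2 ≤ n) {p q r : P} (h : F.Il g p p) (h' : F.Il (-g) p p) :
    False := by
  have h1 := (h 0 1 (by omega) (by omega)).1
  have h2 := (h' 0 1 (by omega) (by omega)).1
  rw [dot_neg', dot_neg', neg_lt_neg_iff] at h2
  exact lt_asymm h1 h2

/-- ILA. points with the same coordinate -/
theorem Il.congr {g : Pt} {p q r : P} (h : F.Il g p q)
    (e : ∀ t, t < n → dot (F.pt t q) g = dot (F.pt t r) g) : F.Il g p r := by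
  intro t u h1 h2
  rw [← e t (by omega), ← e u h2]
  exact h t u h1 h2

end Fam

namespace Lb

variable {n : ℕ} {P S E : Type} {F : Fam n P S E} (L : Lb F)

/-- ILA. the chain of the label increases in the direction `inc k` (`Walls.mono`) -/
theorem il_inc (k : Fin 4) : F.Il (L.inc k) L.a L.a := by
  intro t u h1 h2
  unfold inc
  by_cases hk : k = 0 ∨ k = 2
  · rw [if_pos hk]
    have h3 := L.W.mono k t u (by omega) h2 (by unfold prec; rw [if_pos hk]; exact h1)
    exact ⟨h3, h3⟩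
  · rw [if_neg hk, dot_neg', dot_neg', neg_lt_neg_iff]
    have h3 := L.W.mono k u t h2 (by omega) (by unfold prec; rw [if_neg hk]; exact h1)
    exact ⟨h3, h3⟩

theorem Hg_inc (k : Fin 4) : F.Hg (L.inc k) := by
  unfold inc
  split_ifs
  · exact L.Hg_d k
  · exact (L.Hg_d k).neg

/-- ILA. the definition of `inc` in the form of levels -/
theorem il_inc_iff (m : Fin 4) (p : P) : F.Il (L.inc (st m)) L.a p ↔
    ∀ t v, t < n → v < n → prec m t v →
      dot (F.pt v L.a) (L.d (st m)) < dot (F.pt t p) (L.d (st m)) ∧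
      dot (F.pt v p) (L.d (st m)) < dot (F.pt t L.a) (L.d (st m)) := by
  have hst : (st m = 0 ∨ st m = 2) ↔ ¬ (m = 0 ∨ m = 2) := by
    fin_cases m <;> simp [st]
  unfold Fam.Il inc prec
  by_cases hm : m = 0 ∨ m = 2
  · have h1 : ¬ (st m = 0 ∨ st m = 2) := fun h => hst.1 h hm
    simp only [if_pos hm, if_neg h1, dot_neg', neg_lt_neg_iff]
    constructor
    · intro h t v _ hv htv
      exact ⟨(h t v htv hv).2, (h t v htv hv).1⟩
    · intro h t u htu hu
      exact ⟨(h t u (by omega) hu htu).2, (h t u (by omega) hu htu).1⟩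
  · have h1 : st m = 0 ∨ st m = 2 := hst.2 hm
    simp only [if_neg hm, if_pos h1]
    constructor
    · intro h t v ht _ htv
      exact h v t htv ht
    · intro h t u htu hu
      exact h u t hu (by omega) htu

/-- ILA. the start of the strand `m` is interleaved in the direction of its level (`slev`) -/
theorem il_strand (m : Fin 4) : F.Il (L.inc (st m)) L.a (F.e1 (L.sd m)) := by
  rw [il_inc_iff]
  intro t v ht hv htv
  exact L.slev m t v ht hv htv

end Lb
end Pool.Agent.RAC

/-!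
# Labels whose walls are parallel to the axes of a frame (piece PLU)
-/

namespace Pool.Agent.RAC

theorem J_J (v : Pt) : J (J v) = - v := by ext <;> simp [J]

theorem dot_J (v : Pt) : dot v (J v) = 0 := by simp [dot, J]; ring

theorem plu_J_neg (v : Pt) : J (-v) = - J v := by ext <;> simp [J]

theorem plu_dot_J_J (v w : Pt) : dot (J v) (J w) = dot v w := by simp [dot, J]; ring

theorem plu_dot_neg_neg (v w : Pt) : dot (-v) (-w) = dot v w := by simp [dot]

theorem plu_dot_unit {f v : Pt} (h : ax f v) : dot v v = dot f f := by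
  rcases h with rfl | rfl | rfl | rfl
  · rfl
  · exact plu_dot_J_J f f
  · exact plu_dot_neg_neg f f
  · rw [plu_dot_neg_neg, plu_dot_J_J]

theorem ax.rot {f v : Pt} (h : ax f v) : ax f (J v) := by
  rcases h with rfl | rfl | rfl | rfl
  · exact Or.inr (Or.inl rfl)
  · exact Or.inr (Or.inr (Or.inl (J_J f)))
  · exact Or.inr (Or.inr (Or.inr (plu_J_neg f)))
  · refine Or.inl ?_
    rw [plu_J_neg, J_J, neg_neg]

theorem ax.neg {f v : Pt} (h : ax f v) : ax f (-v) := by
  rcases h with rfl | rfl | rfl | rfl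
  · exact Or.inr (Or.inr (Or.inl rfl))
  · exact Or.inr (Or.inr (Or.inr rfl))
  · exact Or.inl (neg_neg f)
  · exact Or.inr (Or.inl (neg_neg (J f)))

theorem ax.symm {f v : Pt} (h : ax f v) : ax v f := by
  rcases h with rfl | rfl | rfl | rfl
  · exact Or.inl rfl
  · refine Or.inr (Or.inr (Or.inr ?_))
    rw [J_J, neg_neg]
  · exact Or.inr (Or.inr (Or.inl (neg_neg f).symm))
  · refine Or.inr (Or.inl ?_)
    rw [plu_J_neg, J_J, neg_neg]

theorem ax.trans {f v w : Pt} (h : ax f v) (h' : ax v w) : ax f w := by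
  rcases h' with rfl | rfl | rfl | rfl
  · exact h
  · exact h.rot
  · exact h.neg
  · exact h.rot.neg

/-- PLU. perpendicular vectors of a frame -/
theorem ax.perp {f v w : Pt} (hf : dot f f = 1) (h : ax f v) (h' : ax f w) (h0 : dot v w = 0) :
    w = J v ∨ w = - J v := by
  have hv : dot v v = 1 := (plu_dot_unit h).trans hf
  rcases h.symm.trans h' with rfl | rfl | rfl | rfl
  · exact absurd (h0.symm.trans hv) zero_ne_one
  · exact Or.inl rfl
  · rw [dot_neg', hv] at h0
    exact absurd h0 (by norm_num)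
  · exact Or.inr rfl

/-- PLU. a unit vector which is perpendicular to a vector of a frame belongs to the frame -/
theorem ax.of_perp {f v w : Pt} (hf : dot f f = 1) (hw : dot w w = 1) (h : ax f v)
    (h0 : dot w v = 0) : ax f w := by
  have hv : dot v v = 1 := (plu_dot_unit h).trans hf
  obtain ⟨v1, v2⟩ := v
  obtain ⟨w1, w2⟩ := w
  simp only [dot] at hv hw h0
  have e1 : w1 = -((w2 * v1 - w1 * v2) * v2) := by linear_combination w1 * (-hv) + v1 * h0
  have e2 : w2 = (w2 * v1 - w1 * v2) * v1 := by linear_combination w2 * (-hv) + v2 * h0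
  have e3 : (w2 * v1 - w1 * v2) * (w2 * v1 - w1 * v2) = 1 := by
    linear_combination (w1 * w1 + w2 * w2) * hv + hw - (w1 * v1 + w2 * v2) * h0
  have e4 : w2 * v1 - w1 * v2 = 1 ∨ w2 * v1 - w1 * v2 = -1 := mul_self_eq_one_iff.1 e3
  refine h.trans ?_
  rcases e4 with e4 | e4
  · refine Or.inr (Or.inl ?_)
    rw [e4] at e1 e2
    rw [e1, e2]
    simp [J]
  · refine Or.inr (Or.inr (Or.inr ?_))
    rw [e4] at e1 e2
    rw [e1, e2]
    simp [J]

namespace Lb

variable {n : ℕ} {P S E : Type} {F : Fam n P S E} (L : Lb F)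

theorem unit (m : Fin 4) : dot (L.d m) (L.d m) = 1 := L.W.unit m

/-- PLU. -/
theorem d_st (m : Fin 4) : L.d (st m) = J (L.d m) ∨ L.d (st m) = - J (L.d m) := by
  have h1 := L.W.rot1
  have h3 := L.W.rot3
  have hm : m = 0 ∨ m = 1 ∨ m = 2 ∨ m = 3 := by
    fin_cases m <;> simp
  rcases hm with rfl | rfl | rfl | rfl
  · exact Or.inl h1
  · refine Or.inr ?_
    change L.d 0 = - J (L.d 1)
    rw [h1, J_J, neg_neg]
  · exact Or.inr h3
  · refine Or.inl ?_
    change L.d 2 = J (L.d 3)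
    rw [h3, plu_J_neg, J_J, neg_neg]

variable {L} {f : Pt}

theorem Plus.mem (h : L.Plus f) (m : Fin 4) : ax f (L.d m) := by
  exact h m

/-- PLU. -/
theorem Plus.unit (h : L.Plus f) : dot f f = 1 := by
  rw [← plu_dot_unit (h.mem 0)]
  exact L.unit 0

theorem plu_opp_of {v w : Pt} (hv : dot v v = 1) (h : ax v w) (h0 : dot v w < 0) : w = -v := by
  rcases h with rfl | rfl | rfl | rfl
  · rw [hv] at h0
    exact absurd h0 (by norm_num)
  · rw [dot_J] at h0
    exact absurd h0 (lt_irrefl _)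
  · rfl
  · rw [dot_neg', dot_J, neg_zero] at h0
    exact absurd h0 (lt_irrefl _)

/-- PLU. `dot (d 0) (d 3) < 0` and `dot (d 1) (d 2) < 0` by `obtuse` -/
theorem Plus.opp (h : L.Plus f) (hn : 2 ≤ n) : L.d 3 = - L.d 0 ∧ L.d 2 = - L.d 1 := by
  refine ⟨plu_opp_of (L.unit 0) ((h.mem 0).symm.trans (h.mem 3)) (L.W.obtuse hn 0), ?_⟩
  exact plu_opp_of (L.unit 1) ((h.mem 1).symm.trans (h.mem 2)) (L.W.obtuse hn 1)

/-- PLU. every vector of the frame is the direction of a wall -/
theorem Plus.exists_m (h : L.Plus f) (hn : 2 ≤ n) {v : Pt} (hv : ax f v) :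
    ∃ m, L.d m = v := by
  obtain ⟨h3, h2⟩ := h.opp hn
  have h1 := L.W.rot1
  rcases (h.mem 0).symm.trans hv with e | e | e | e
  · exact ⟨0, e.symm⟩
  · exact ⟨1, h1.trans e.symm⟩
  · exact ⟨3, h3.trans e.symm⟩
  · refine ⟨2, ?_⟩
    rw [h2, h1, e]

/-- PLU. change of the frame vector -/
theorem Plus.of_ax (h : L.Plus f) {v : Pt} (hv : ax f v) : L.Plus v := by
  intro m
  exact hv.symm.trans (h.mem m)

/-- PLU. -/
theorem plus_iff (hn : 2 ≤ n) : L.Plus (L.d 0) ↔ dot (L.d 1) (L.d 3) = 0 := by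
  have h1 := L.W.rot1
  have h3 := L.W.rot3
  constructor
  · intro h
    rw [(h.opp hn).1, h1, dot_neg', dot_comm, dot_J, neg_zero]
  · intro h
    have a0 : ax (L.d 0) (L.d 0) := Or.inl rfl
    have a1 : ax (L.d 0) (L.d 1) := Or.inr (Or.inl h1)
    have a3 : ax (L.d 0) (L.d 3) := by
      refine ax.of_perp (L.unit 0) (L.unit 3) a1 ?_
      rw [dot_comm]
      exact h
    have a2 : ax (L.d 0) (L.d 2) := by
      have e : L.d 2 = J (L.d 3) := by
        rw [h3, plu_J_neg, J_J, neg_neg]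
      rw [e]
      exact a3.rot
    intro m
    have hm : m = 0 ∨ m = 1 ∨ m = 2 ∨ m = 3 := by
      fin_cases m <;> simp
    rcases hm with rfl | rfl | rfl | rfl
    · exact a0
    · exact a1
    · exact a2
    · exact a3

/-- PLU. a label with walls in some frame has walls in the frame of `d 0` -/
theorem Plus.d0 (h : L.Plus f) : L.Plus (L.d 0) := h.of_ax (h.mem 0)

/-- PLU. for each vector of the frame the chain increases in this or in the opposite direction -/
theorem Plus.il (h : L.Plus f) (hn : 2 ≤ n) {v : Pt} (hv : ax f v) :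
    F.Il v L.a L.a ∨ F.Il (-v) L.a L.a := by
  obtain ⟨m, rfl⟩ := h.exists_m hn hv
  have h1 := L.il_inc m
  unfold inc at h1
  split_ifs at h1
  · exact Or.inl h1
  · exact Or.inr h1

/-- PLU. -/
theorem Plus.hg (h : L.Plus f) (hn : 2 ≤ n) {v : Pt} (hv : ax f v) : F.Hg v := by
  obtain ⟨m, rfl⟩ := h.exists_m hn hv
  exact L.Hg_d m

end Lb
end Pool.Agent.RAC

/-!
# Cells of labels in a frame (piece INIL)
-/

namespace Pool.Agent.RAC
namespace Lb

variable {n : ℕ} {P S E : Type} {F : Fam n P S E} {L L' : Lb F} {f : Pt}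

theorem inil_d1 (h : L.Plus f) (hn : 2 ≤ n) : L.d 1 = - L.d 2 := by
  rw [(h.opp hn).2, neg_neg]

theorem inil_il0 (L : Lb F) : F.Il (L.d 0) L.a L.a := by
  have h := L.il_inc 0
  rwa [inc, if_pos (Or.inl rfl)] at h

theorem inil_il2 (L : Lb F) : F.Il (L.d 2) L.a L.a := by
  have h := L.il_inc 2
  rwa [inc, if_pos (Or.inr rfl)] at h

/-- INIL. For a label in a frame: confinement means interleaving in the two increasing directions
`d 0 = - d 3` and `d 2 = - d 1`.

Proof. `→`: `IN_lt` for `m = 0` gives `c_0 (pt t p) < c_0 (x u)`, `t < u` (`prec 0 t u`), and for `m = 3`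
(`d 3 = - d 0`, `prec 3 t v ↔ v < t`) `c_0 (x v) < c_0 (pt t p)`, `v < t`. The same with `2`, `1`.
`←`: `IN_iff`. -/
theorem Plus.IN_iff_il (h : L.Plus f) (hn : 3 ≤ n) (p : P) :
    L.IN p ↔ F.Il (L.d 0) L.a p ∧ F.Il (L.d 2) L.a p := by
  obtain ⟨h3, -⟩ := h.opp (by omega)
  have h1 := inil_d1 h (by omega)
  constructor
  · intro hp
    refine ⟨fun t u htu hu => ⟨?_, ?_⟩, fun t u htu hu => ⟨?_, ?_⟩⟩
    · have e := L.IN_lt hn hp 3 hu (show t < n by omega) (by simpa [prec] using htu)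
      rw [h3, dot_neg', dot_neg', neg_lt_neg_iff] at e
      exact e
    · exact L.IN_lt hn hp 0 (show t < n by omega) hu (by simpa [prec] using htu)
    · have e := L.IN_lt hn hp 1 hu (show t < n by omega) (by simpa [prec] using htu)
      rw [h1, dot_neg', dot_neg', neg_lt_neg_iff] at e
      exact e
    · exact L.IN_lt hn hp 2 (show t < n by omega) hu (by simpa [prec] using htu)
  · rintro ⟨i0, i2⟩
    rw [L.IN_iff hn]
    have j0 := i0 0 1 (by omega) (by omega)
    have j2 := i2 0 1 (by omega) (by omega)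
    intro m
    have hm : m = 0 ∨ m = 1 ∨ m = 2 ∨ m = 3 := by
      fin_cases m <;> simp
    rcases hm with rfl | rfl | rfl | rfl
    · exact ⟨0, 1, by omega, by omega, by simp [prec], j0.2⟩
    · refine ⟨1, 0, by omega, by omega, by simp [prec], ?_⟩
      rw [h1, dot_neg', dot_neg', neg_lt_neg_iff]
      exact j2.1
    · exact ⟨0, 1, by omega, by omega, by simp [prec], j2.2⟩
    · refine ⟨1, 0, by omega, by omega, by simp [prec], ?_⟩
      rw [h3, dot_neg', dot_neg', neg_lt_neg_iff]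
      exact j0.1

/-- INIL. an increasing vector of the frame is `d 0` or `d 2` -/
theorem Plus.inc_eq (h : L.Plus f) (hn : 2 ≤ n) {v : Pt} (hv : ax f v) (hI : F.Il v L.a L.a) :
    v = L.d 0 ∨ v = L.d 2 := by
  obtain ⟨h3, -⟩ := h.opp hn
  have h1 := inil_d1 h hn
  obtain ⟨m, rfl⟩ := h.exists_m hn hv
  have hm : m = 0 ∨ m = 1 ∨ m = 2 ∨ m = 3 := by
    fin_cases m <;> simp
  rcases hm with rfl | rfl | rfl | rfl
  · exact Or.inl rfl
  · rw [h1] at hI
    exact (Fam.Il.not_neg hn (q := L.a) (r := L.a) (inil_il2 L) hI).elim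
  · exact Or.inr rfl
  · rw [h3] at hI
    exact (Fam.Il.not_neg hn (q := L.a) (r := L.a) (inil_il0 L) hI).elim

/-- INIL. -/
theorem Plus.il_of_IN (h : L.Plus f) (hn : 3 ≤ n) {p : P} (hp : L.IN p) {v : Pt} (hv : ax f v)
    (hI : F.Il v L.a L.a) : F.Il v L.a p := by
  have h1 := (h.IN_iff_il hn p).1 hp
  rcases h.inc_eq (by omega) hv hI with rfl | rfl
  · exact h1.1
  · exact h1.2

/-- INIL. -/
theorem Plus.IN_of_il (h : L.Plus f) (hn : 3 ≤ n) {p : P} {v w : Pt} (hv : ax f v) (hw : ax f w)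
    (hvw : dot v w = 0) (hI : F.Il v L.a p) (hI' : F.Il w L.a p) : L.IN p := by
  have e1 := h.inc_eq (by omega) hv (Fam.Il.self (h.hg (by omega) hv) hn hI)
  have e2 := h.inc_eq (by omega) hw (Fam.Il.self (h.hg (by omega) hw) hn hI')
  rw [h.IN_iff_il hn]
  rcases e1 with rfl | rfl <;> rcases e2 with rfl | rfl
  · rw [L.unit] at hvw
    exact absurd hvw one_ne_zero
  · exact ⟨hI, hI'⟩
  · exact ⟨hI', hI⟩
  · rw [L.unit] at hvw
    exact absurd hvw one_ne_zero

theorem inil_d2 (h : L.Plus f) (hn : 2 ≤ n) : L.d 2 = - J (L.d 0) := by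
  rw [(h.opp hn).2, L.W.rot1]

theorem inil_ord (h : L.Plus f) (hn : 2 ≤ n) {v w : Pt} (hvw : dot v w = 0)
    (e1 : v = L.d 0 ∨ v = L.d 2) (e2 : w = L.d 0 ∨ w = L.d 2) :
    (v = L.d 0 ∧ w = L.d 2 ∧ w = - J v) ∨ (v = L.d 2 ∧ w = L.d 0 ∧ w = J v) := by
  have h2 := inil_d2 h hn
  rcases e1 with rfl | rfl <;> rcases e2 with rfl | rfl
  · rw [L.unit] at hvw
    exact absurd hvw one_ne_zero
  · exact Or.inl ⟨rfl, rfl, h2⟩
  · refine Or.inr ⟨rfl, rfl, ?_⟩
    rw [h2, plu_J_neg, J_J, neg_neg]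
  · rw [L.unit] at hvw
    exact absurd hvw one_ne_zero

theorem inil_rot_ne {v : Pt} (hv : dot v v = 1) (h : - J v = J v) : False := by
  have h1 : dot (- J v) (J v) = dot (J v) (J v) := by rw [h]
  rw [dot_neg, plu_dot_J_J, hv] at h1
  norm_num at h1

/-- INIL. two labels in the same frame which are interleaved in two perpendicular directions have the
same cells: `{d 0, d 2} = {v, w} = {d' 0, d' 2}` and `d 2 = - J (d 0)` determine the order; `d 1 = - d 2`,
`d 3 = - d 0`. -/
theorem Plus.sc_of_il (h : L.Plus f) (h' : L'.Plus f) (hn : 3 ≤ n) {v w : Pt} (hv : ax f v)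
    (hw : ax f w) (hvw : dot v w = 0) (hI : F.Il v L.a L'.a) (hI' : F.Il w L.a L'.a) :
    L.SC L' := by
  have a1 := h.inc_eq (by omega) hv (Fam.Il.self (h.hg (by omega) hv) hn hI)
  have a2 := h.inc_eq (by omega) hw (Fam.Il.self (h.hg (by omega) hw) hn hI')
  have b1 := h'.inc_eq (by omega) hv (Fam.Il.self (h.hg (by omega) hv) hn hI.symm)
  have b2 := h'.inc_eq (by omega) hw (Fam.Il.self (h.hg (by omega) hw) hn hI'.symm)
  have hvv : dot v v = 1 := by
    rcases a1 with rfl | rfl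
    · exact L.unit 0
    · exact L.unit 2
  have hww : dot w w = 1 := by
    rcases a2 with rfl | rfl
    · exact L.unit 0
    · exact L.unit 2
  have key : (v = L.d 0 ∧ w = L.d 2 ∧ v = L'.d 0 ∧ w = L'.d 2) ∨
      (v = L.d 2 ∧ w = L.d 0 ∧ v = L'.d 2 ∧ w = L'.d 0) := by
    rcases inil_ord h (by omega) hvw a1 a2 with ⟨c1, c2, c3⟩ | ⟨c1, c2, c3⟩ <;>
      rcases inil_ord h' (by omega) hvw b1 b2 with ⟨e1, e2, e3⟩ | ⟨e1, e2, e3⟩
    · exact Or.inl ⟨c1, c2, e1, e2⟩
    · exact (inil_rot_ne hvv (c3.symm.trans e3)).elim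
    · exact (inil_rot_ne hvv (e3.symm.trans c3)).elim
    · exact Or.inr ⟨c1, c2, e1, e2⟩
  have i0 : L.d 0 = L'.d 0 ∧ F.Il (L.d 0) L.a L'.a := by
    rcases key with ⟨c1, c2, c3, c4⟩ | ⟨c1, c2, c3, c4⟩
    · exact ⟨c1.symm.trans c3, c1 ▸ hI⟩
    · exact ⟨c2.symm.trans c4, c2 ▸ hI'⟩
  have i2 : L.d 2 = L'.d 2 ∧ F.Il (L.d 2) L.a L'.a := by
    rcases key with ⟨c1, c2, c3, c4⟩ | ⟨c1, c2, c3, c4⟩
    · exact ⟨c2.symm.trans c4, c2 ▸ hI'⟩
    · exact ⟨c1.symm.trans c3, c1 ▸ hI⟩
  obtain ⟨h3, -⟩ := h.opp (by omega)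
  obtain ⟨h3', -⟩ := h'.opp (by omega)
  have h1 := inil_d1 h (by omega)
  have h1' := inil_d1 h' (by omega)
  refine ⟨?_, ?_⟩
  · intro m
    have hm : m = 0 ∨ m = 1 ∨ m = 2 ∨ m = 3 := by
      fin_cases m <;> simp
    rcases hm with rfl | rfl | rfl | rfl
    · exact i0.1
    · rw [h1, h1', i2.1]
    · exact i2.1
    · rw [h3, h3', i0.1]
  · intro m s t hs ht hst
    have hm : m = 0 ∨ m = 1 ∨ m = 2 ∨ m = 3 := by
      fin_cases m <;> simp
    rcases hm with rfl | rfl | rfl | rfl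
    · exact i0.2 s t (by simpa [prec] using hst) ht
    · have e := i2.2 t s (by simpa [prec] using hst) hs
      rw [h1, dot_neg', dot_neg', dot_neg', dot_neg', neg_lt_neg_iff, neg_lt_neg_iff]
      exact ⟨e.2, e.1⟩
    · exact i2.2 s t (by simpa [prec] using hst) ht
    · have e := i0.2 t s (by simpa [prec] using hst) hs
      rw [h3, dot_neg', dot_neg', dot_neg', dot_neg', neg_lt_neg_iff, neg_lt_neg_iff]
      exact ⟨e.2, e.1⟩

/-- INIL. -/
theorem SC.il (h : L.SC L') (hL : L.Plus f) (hn : 3 ≤ n) {v : Pt} (hv : ax f v)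
    (hI : F.Il v L.a L.a) : F.Il v L.a L'.a := by
  have key : ∀ m, (m = 0 ∨ m = 2) → F.Il (L.d m) L.a L'.a := by
    intro m hm t u htu hu
    exact h.2 m t u (by omega) hu (by unfold prec; rw [if_pos hm]; exact htu)
  rcases hL.inc_eq (by omega) hv hI with rfl | rfl
  · exact key 0 (Or.inl rfl)
  · exact key 2 (Or.inr rfl)

/-- INIL. -/
theorem SC.plus (h : L.SC L') (hL : L.Plus f) : L'.Plus f := by
  intro m
  rw [← h.1 m]
  exact hL m

end Lb
end Pool.Agent.RAC

/-!
# Interleaved labels of a frame (piece XDI)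
-/

namespace Pool.Agent.RAC
namespace Lb

variable {n : ℕ} {P S E : Type} {F : Fam n P S E} {L L' : Lb F} {f : Pt}

private theorem xdi_core {n : ℕ} (hn : 3 ≤ n) {a b : ℕ → ℝ}
    (HA1 : ∀ t u t' u', t < u → u < n → t' < u' → u' < n → (a t < b u ↔ a t' < b u'))
    (HA2 : ∀ t u t' u', t < u → u < n → t' < u' → u' < n → (b u < a t ↔ b u' < a t'))
    (HB1 : ∀ t u t' u', t < u → u < n → t' < u' → u' < n → (a u < b t ↔ a u' < b t'))
    (HB2 : ∀ t u t' u', t < u → u < n → t' < u' → u' < n → (b t < a u ↔ b t' < a u'))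
    (hm : (∀ t u, t < u → u < n → b t < b u) ∨ (∀ t u, t < u → u < n → b u < b t)) :
    (∀ t u, t < n → u < n → t ≠ u → a t < b u) ∨ (∀ t u, t < n → u < n → t ≠ u → b u < a t) ∨
      (∀ t u, t < u → u < n → a t < b u ∧ b t < a u) ∨
      (∀ t u, t < u → u < n → b u < a t ∧ a u < b t) := by
  have hb01 : b 0 ≠ b 1 := by
    rcases hm with hm | hm
    · exact (hm 0 1 (by omega) (by omega)).ne
    · exact (hm 0 1 (by omega) (by omega)).ne'
  have hb12 : b 1 ≠ b 2 := by
    rcases hm with hm | hm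
    · exact (hm 1 2 (by omega) (by omega)).ne
    · exact (hm 1 2 (by omega) (by omega)).ne'
  have hA : (∀ t u, t < u → u < n → a t < b u) ∨ (∀ t u, t < u → u < n → b u < a t) := by
    rcases lt_trichotomy (a 0) (b 1) with h | h | h
    · left
      intro t u h1 h2
      exact (HA1 0 1 t u (by omega) (by omega) h1 h2).1 h
    · exfalso
      have e1 : ¬ a 0 < b 2 := fun h' =>
        absurd ((HA1 0 1 0 2 (by omega) (by omega) (by omega) (by omega)).2 h') (by rw [h]; exact lt_irrefl _)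
      have e2 : ¬ b 2 < a 0 := fun h' =>
        absurd ((HA2 0 1 0 2 (by omega) (by omega) (by omega) (by omega)).2 h') (by rw [h]; exact lt_irrefl _)
      exact hb12 (h.symm.trans (le_antisymm (not_lt.1 e2) (not_lt.1 e1)))
    · right
      intro t u h1 h2
      exact (HA2 0 1 t u (by omega) (by omega) h1 h2).1 h
  have hB : (∀ t u, t < u → u < n → a u < b t) ∨ (∀ t u, t < u → u < n → b t < a u) := by
    rcases lt_trichotomy (a 2) (b 1) with h | h | h
    · left
      intro t u h1 h2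
      exact (HB1 1 2 t u (by omega) (by omega) h1 h2).1 h
    · exfalso
      have e1 : ¬ a 2 < b 0 := fun h' =>
        absurd ((HB1 1 2 0 2 (by omega) (by omega) (by omega) (by omega)).2 h') (by rw [h]; exact lt_irrefl _)
      have e2 : ¬ b 0 < a 2 := fun h' =>
        absurd ((HB2 1 2 0 2 (by omega) (by omega) (by omega) (by omega)).2 h') (by rw [h]; exact lt_irrefl _)
      exact hb01 ((le_antisymm (not_lt.1 e1) (not_lt.1 e2)).trans h)
    · right
      intro t u h1 h2
      exact (HB2 1 2 t u (by omega) (by omega) h1 h2).1 h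
  rcases hA with hA | hA <;> rcases hB with hB | hB
  · left
    intro t u ht hu htu
    rcases lt_or_gt_of_ne htu with h | h
    · exact hA t u h hu
    · exact hB u t h ht
  · right; right; left
    exact fun t u h1 h2 => ⟨hA t u h1 h2, hB t u h1 h2⟩
  · right; right; right
    exact fun t u h1 h2 => ⟨hA t u h1 h2, hB t u h1 h2⟩
  · right; left
    intro t u ht hu htu
    rcases lt_or_gt_of_ne htu with h | h
    · exact hA t u h hu
    · exact hB u t h ht

private theorem xdi_neg (x v : Pt) : dot x (-v) = - dot x v := by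
  simp [dot]; ring

/-- XDI. Two labels in the same frame which are interleaved in the direction `g` have the same cells
or are separated in the perpendicular direction `k`.

Proof. By `hg` (homogeneity of `k`) the comparisons of `pt t L.a` and `pt u L'.a`, `t < u`, and of
`pt u L.a` and `pt t L'.a`, `t < u`, in the direction `k` do not depend on `t < u`; neither of them is an
equality (`L'` is strictly monotone in the direction `k` by `Plus.il`; compare `t = 0`, `u = 1, 2`
(or `t = 0, 1`, `u = 2`)). Signs `(<, <)` and `(>, >)`: separated.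
Signs `(<, >)`: `pt t L.a < pt u L'.a` and `pt u L.a > pt t L'.a` for `t < u`: `Il k L.a L'.a`, so
`SC` (`sc_of_il`). Signs `(>, <)`: `Il (-k) L.a L'.a`. -/
theorem xd (hn : 3 ≤ n) (h : L.Plus f) (h' : L'.Plus f) {g k : Pt} (hg : ax f g) (hk : ax f k)
    (hgk : dot g k = 0) (hI : F.Il g L.a L'.a) :
    L.SC L' ∨
      (∀ t u, t < n → u < n → t ≠ u → dot (F.pt t L.a) k < dot (F.pt u L'.a) k) ∨
      (∀ t u, t < n → u < n → t ≠ u → dot (F.pt u L'.a) k < dot (F.pt t L.a) k) := by
  have hG : F.Hg k := h.hg (by omega) hk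
  have hm : (∀ t u, t < u → u < n → dot (F.pt t L'.a) k < dot (F.pt u L'.a) k) ∨
      (∀ t u, t < u → u < n → dot (F.pt u L'.a) k < dot (F.pt t L'.a) k) := by
    rcases h'.il (by omega) hk with h1 | h1
    · left
      exact fun t u h2 h3 => (h1 t u h2 h3).1
    · right
      intro t u h2 h3
      have h4 := (h1 t u h2 h3).1
      rw [xdi_neg, xdi_neg] at h4
      exact neg_lt_neg_iff.1 h4
  rcases xdi_core hn (a := fun t => dot (F.pt t L.a) k) (b := fun t => dot (F.pt t L'.a) k)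
    (fun t u t' u' h1 h2 h3 h4 => (hG L.a L'.a t u t' u' h1 h2 h3 h4).1)
    (fun t u t' u' h1 h2 h3 h4 => (hG L'.a L.a t u t' u' h1 h2 h3 h4).2)
    (fun t u t' u' h1 h2 h3 h4 => (hG L.a L'.a t u t' u' h1 h2 h3 h4).2)
    (fun t u t' u' h1 h2 h3 h4 => (hG L'.a L.a t u t' u' h1 h2 h3 h4).1) hm with H | H | H | H
  · exact Or.inr (Or.inl H)
  · exact Or.inr (Or.inr H)
  · left
    exact h.sc_of_il h' hn hg hk hgk hI (fun t u h1 h2 => H t u h1 h2)
  · left
    refine h.sc_of_il h' hn hg hk.neg (by rw [xdi_neg, hgk, neg_zero]) hI (fun t u h1 h2 => ?_)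
    have h3 := H t u h1 h2
    simp only [xdi_neg, neg_lt_neg_iff]
    exact h3

/-- XDI. The case `t = u` for inner indices: if `0 < t` and `t + 1 < n` then one of the indices
`v = t - 1, t + 1` satisfies `pt t L.a < pt v L.a` (in the direction `k`), and
`pt v L.a < pt t L'.a`. -/
theorem xd_self (h : L.Plus f) {k : Pt} (hk : ax f k)
    (hs : ∀ t u, t < n → u < n → t ≠ u → dot (F.pt t L.a) k < dot (F.pt u L'.a) k) {t : ℕ}
    (h0 : 0 < t) (h1 : t + 1 < n) : dot (F.pt t L.a) k < dot (F.pt t L'.a) k := by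
  rcases h.il (by omega) hk with h2 | h2
  · exact ((h2 t (t + 1) (by omega) h1).1).trans (hs (t + 1) t h1 (by omega) (by omega))
  · have h3 := (h2 (t - 1) t (by omega) (by omega)).1
    rw [xdi_neg, xdi_neg, neg_lt_neg_iff] at h3
    exact h3.trans (hs (t - 1) t (by omega) (by omega) (by omega))

end Lb
end Pool.Agent.RAC
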