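import Pool.Agent.Lib_MP_638f75_lc.H.HE

/-!
# Alternating position implies a common frame (piece PALT)
-/

namespace Pool.Agent.RAC
namespace Lb

variable {n : ℕ} {P S E : Type} {F : Fam n P S E} {L L' : Lb F}

theorem palt_Xx_of_cr {s t : Pt × Pt} (h : cr s t ≠ 0) : Xx s t := by
  unfold cr at h
  by_contra hX
  exact h (if_neg hX)

/-- a crossing with the part of a strand -/
theorem palt_strand (hn : 8 ≤ n) {m : Fin 4} {v t : ℕ} (hv : In3 n m v) (ht : t < n)
    (htv : t ≠ v) {σ : S} (h : cr (F.sg t σ) (L.cor m v, F.pt v (F.e2 (L.sd m))) ≠ 0) :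
    dot (F.dir t σ) (L.d m) = 0 := by
  obtain ⟨z, hz1, hz2⟩ := palt_Xx_of_cr h
  have hvn : v < n := by have := omc_in3_bd hv; omega
  have hz2' : z ∈ openSegment ℝ (F.pt v (F.e1 (L.sd m))) (F.pt v (F.e2 (L.sd m))) :=
    omc_open_sub (L.cor_mem_strand (by omega) hv) hz2
  have hperp := F.perp_of_Xx ht hvn htv (σ := σ) (τ := L.sd m) ⟨z, hz1, hz2'⟩
  obtain ⟨l, hl, hle⟩ := L.s1 v hvn m
  have e1 : F.dir v (L.sd m) = l • L.d m := by
    unfold Fam.dir
    rw [hle]
    abel
  rw [e1, dot_smul'] at hperp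
  exact (mul_eq_zero.1 hperp).resolve_left hl.ne'

/-- a crossing with the part of the wall -/
theorem palt_wall (hn : 8 ≤ n) {m : Fin 4} {s w t : ℕ} (hs : In3 n m s) (hw : In3 n m w)
    (ht : In3 n m t) {σ : S} (h : cr (F.sg t σ) (L.cor m w, L.cor m s) ≠ 0) :
    dot (F.dir t σ) (L.d (st m)) = 0 := by
  obtain ⟨z, hz1, hz2⟩ := palt_Xx_of_cr h
  obtain ⟨htn, hte, hen⟩ := omb_In3 (by omega) ht
  have hz2' := omb_open (L.cor_mem_wall (by omega) hw)
    (openSegment_subset_segment ℝ _ _ (L.cor_mem_wall (by omega) hs)) hz2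
  have hX : Xx (F.sg t σ) (F.sg (eps n m) (L.w (st m))) := by
    refine ⟨z, hz1, ?_⟩
    show z ∈ openSegment ℝ (F.pt (eps n m) (F.e1 (L.w (st m)))) _
    rw [L.w1]
    exact hz2'
  have hperp := F.perp_of_Xx htn hen hte hX
  obtain ⟨l, hl, hle⟩ := L.W.wall (eps n m) hen (st m)
  have e1 : F.dir (eps n m) (L.w (st m)) = l • L.d (st m) := by
    unfold Fam.dir
    have hle' : F.pt (eps n m) (F.e2 (L.w (st m))) = F.pt (eps n m) L.a + l • L.d (st m) := hle
    rw [L.w1, hle']
    abel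
  rw [e1, dot_smul'] at hperp
  exact (mul_eq_zero.1 hperp).resolve_left hl.ne'

/-- a strand of `L'` which leads to another hub is perpendicular to a vector of the frame -/
theorem palt_perp (hn : 8 ≤ n) {m : Fin 4} (h : L.Alt m L'.a) {m' : Fin 4}
    (hb : F.e2 (L'.bs m') ≠ F.e2 (L.bs m)) :
    dot (L'.d m') (L.d m) = 0 ∨ dot (L'.d m') (L.d (st m)) = 0 := by
  have hI : ∀ t, 2 ≤ t → t ≤ 5 → In3 n m t := by
    intro t h1 h2
    unfold In3
    split_ifs <;> omega
  have hsd1 : F.e1 (L'.sd m') ≠ F.e2 (L.bs m) := by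
    intro h
    exact (L'.s0 m').1 (h ▸ L.bh m)
  have hsd2 : F.e2 (L'.sd m') ≠ F.e2 (L.bs m) := by
    intro h
    exact (L'.s0 m').2 (h ▸ F.hub_ver _ (L.bh m))
  have h1 : L.Alt m (F.e1 (L'.sd m')) :=
    Alt.conn (by omega) h L' L'.IN_self (L'.conn_strand (by omega) m')
  have hdir : ∀ t, t < n → ∀ k : Fin 4, dot (F.dir t (L'.sd m')) (L.d k) = 0 →
      dot (L'.d m') (L.d k) = 0 := by
    intro t ht k hk
    obtain ⟨l, hl, hle⟩ := L'.s1 t ht m'
    have e1 : F.dir t (L'.sd m') = l • L'.d m' := by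
      unfold Fam.dir
      rw [hle]
      abel
    rw [e1, dot_smul] at hk
    exact (mul_eq_zero.1 hk).resolve_left hl.ne'
  by_contra hcon
  push Not at hcon
  obtain ⟨hc1, hc2⟩ := hcon
  have key : ∀ t, t = 3 ∨ t = 5 → wp (L.Om m 2 4) (F.pt t (F.e1 (L'.sd m'))) =
      wp (L.Om m 2 4) (F.pt 0 (F.e2 (L'.bs m'))) := by
    intro t ht
    have ht2 : t ≠ 2 := by omega
    have ht4 : t ≠ 4 := by omega
    have htn : t < n := by omega
    have i2 := hI 2 (by omega) (by omega)
    have i4 := hI 4 (by omega) (by omega)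
    have it := hI t (by omega) (by omega)
    have e := L.omega_eq (by omega) i2 i4 it (by omega) ht2 ht4 (σ := L'.sd m') hsd1 hsd2
    have c1 : cr (F.sg t (L'.sd m')) (L.cor m 2, F.pt 2 (F.e2 (L.sd m))) = 0 := by
      by_contra hc
      exact hc1 (hdir t htn m (palt_strand hn i2 htn ht2 hc))
    have c2 : cr (F.sg t (L'.sd m')) (L.cor m 4, F.pt 4 (F.e2 (L.sd m))) = 0 := by
      by_contra hc
      exact hc1 (hdir t htn m (palt_strand hn i4 htn ht4 hc))
    have c3 : cr (F.sg t (L'.sd m')) (L.cor m 4, L.cor m 2) = 0 := by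
      by_contra hc
      exact hc2 (hdir t htn (st m) (palt_wall hn i2 i4 it hc))
    rw [c1, c2, c3, add_zero, add_zero] at e
    rw [omc_zmod2 e]
    have e2 := L.omega_inert (by omega) i2 i4 it (by omega) ht2 ht4 (σ := L'.bs m')
      (by rw [L'.b1]; exact hsd2) hb (F.hub_inert (by omega) (L'.bh m'))
    rw [L'.b1] at e2
    rw [e2, F.hubc _ (L'.bh m') t 0]
  have k3 := key 3 (Or.inl rfl)
  have k5 := key 5 (Or.inr rfl)
  rw [h1 2 4 3 (hI 2 (by omega) (by omega)) (hI 4 (by omega) (by omega))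
    (hI 3 (by omega) (by omega)) (by omega) (by omega) (by omega)] at k3
  rw [h1 2 4 5 (hI 2 (by omega) (by omega)) (hI 4 (by omega) (by omega))
    (hI 5 (by omega) (by omega)) (by omega) (by omega) (by omega)] at k5
  have b3 : btwn 2 4 3 = 1 := if_pos (by omega)
  have b5 : btwn 2 4 5 = 0 := if_neg (by omega)
  rw [b3] at k3
  rw [b5, add_zero] at k5
  rw [k5] at k3
  generalize wp (L.Om m 2 4) (F.pt 0 (F.e2 (L'.bs m'))) = x at k3
  revert x
  decide

theorem palt_ax (hn : 8 ≤ n) {m : Fin 4} (h : L.Alt m L'.a) {m' : Fin 4}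
    (hb : F.e2 (L'.bs m') ≠ F.e2 (L.bs m)) : ax (L.d m) (L'.d m') := by
  have hax : ax (L.d m) (L.d (st m)) := by
    rcases L.d_st m with h | h
    · exact Or.inr (Or.inl h)
    · exact Or.inr (Or.inr (Or.inr h))
  rcases palt_perp hn h hb with h1 | h1
  · exact ax.of_perp (L.W.unit m) (L'.W.unit m') (Or.inl rfl) h1
  · exact ax.of_perp (L.W.unit m) (L'.W.unit m') hax h1

/-- PALT. If the label `L'` is in the alternating position with respect to the curves of `L` then the
walls of `L'` are parallel to the axes of the frame of `d m`.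

Proof. Let `m'` be a direction such that the hubs `e2 (L'.bs m')` and `h = e2 (L.bs m)` are different
(all `m'` except at most one, by `L'.bi`). Indices in `In3 n m`: choose four of them (`n ≥ 8`), two of
them `s`, `w` and `t`, `t'` different from `s`, `w` such that `btwn s w t = 1`, `btwn s w t' = 0`. The path
from `L'.a` (of the cluster `t`) through inert segments to `e1 (L'.sd m')` (`conn_strand`; all its points
are confined in `L'`, so they are not hubs, and `omega_inert` applies: use `Alt.conn`), then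
the strand `sg t (L'.sd m')`, then the hub segment `bs m'`, ends in a hub whose position does not depend
on `t` (`hubc`). By `omega_inert` (hub segment: `hub_inert`) `wp (Om m s w)` at `pt t (e2 (L'.sd m'))`
is the same for `t` and `t'`, and at `pt t (e1 (L'.sd m'))` it is different for `t` and `t'`. So for `t` or for
`t'` the right side of `omega_eq` for `σ = L'.sd m'` is not `0`, so one of the three numbers `cr` is not
`0`: the strand crosses a part of `sg s (L.sd m)`, of `sg w (L.sd m)` or of `sg (eps n m) (L.w (st m))` (in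
an interior point of the part, hence of the whole segment). By `perp_of_Xx` `dir t (L'.sd m')` (a
multiple of `L'.d m'`) is perpendicular to `L.d m` or to `L.d (st m)`, so
`ax (L.d m) (L'.d m')` (`ax.of_perp`). For the exceptional `m'`: its partner `st m'` is not
exceptional, and `L'.d m' ⟂ L'.d (st m')` (`ax.of_perp` again, `Walls.perp`). -/
theorem plus_of_alt (hn : 8 ≤ n) {m : Fin 4} (h : L.Alt m L'.a) : L'.Plus (L.d m) := by
  intro m'
  show ax (L.d m) (L'.d m')
  by_cases hb : F.e2 (L'.bs m') = F.e2 (L.bs m)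
  · have hb' : F.e2 (L'.bs (st m')) ≠ F.e2 (L.bs m) := by
      intro h'
      exact st_ne m' (L'.bi _ _ (h'.trans hb.symm))
    exact ax.of_perp (L.W.unit m) (L'.W.unit m') (palt_ax hn h hb') (L'.W.perp m')
  · exact palt_ax hn h hb

end Lb
end Pool.Agent.RAC

/-!
# Linked labels: a common frame (piece PALF)
-/

namespace Pool.Agent.RAC
namespace Lb

variable {n : ℕ} {P S E : Type} {F : Fam n P S E} {L L' : Lb F}

/-- PALF. Two linked labels have the same cells, or both are in the frame of the middle segment: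
`Lk.dich`, `alt_of_out` for `L, L'` and for `L', L` (`Lk.symm`), `plus_of_alt` twice,
`L'.d m' = - L.d m` and `Plus.of_ax`. -/
theorem Lk.frame (hn : 8 ≤ n) {μ : S} {p q : P} (h : Lk L L' μ p q) :
    L.SC L' ∨ ∃ m m', Out L p q m ∧ Out L' q p m' ∧ L'.d m' = - L.d m ∧
      L.Plus (L.d m) ∧ L'.Plus (L.d m) := by
  rcases h.dich hn with h1 | ⟨m, m', ho, ho', hd⟩
  · exact Or.inl h1
  · refine Or.inr ⟨m, m', ho, ho', hd, ?_, plus_of_alt hn (alt_of_out hn h ho)⟩
    have h2 : L.Plus (L'.d m') := plus_of_alt hn (alt_of_out hn h.symm ho')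
    refine h2.of_ax ?_
    rw [hd]
    refine Or.inr (Or.inr (Or.inl ?_))
    rw [neg_neg]

/-- PALF. If one of two linked labels is in a frame then the other one is in the same frame.
(`SC`: same directions. Otherwise `L.Plus (L.d m)` and `L'.Plus (L.d m)`; from `L.Plus f`:
`ax f (L.d m)`, so `ax (L.d m) f` and `L'.Plus f` by `Plus.of_ax`.) -/
theorem Lk.plus (hn : 8 ≤ n) {μ : S} {p q : P} (h : Lk L L' μ p q) {f : Pt} (hf : L.Plus f) :
    L'.Plus f := by
  rcases h.frame hn with h1 | ⟨m, m', -, -, -, -, h2⟩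
  · exact h1.plus hf
  · exact h2.of_ax (hf.mem m).symm

/-- PALF. Levels along a middle segment which leaves the cells of both labels: both labels and both ends
of the segment are interleaved in the direction perpendicular to the segment.

Proof. `g = L.inc (st m)`. `F.Il g L.a p` by `Out.lo`, `Out.hi` (`il_inc_iff`). The segment from `p` to `q` is
parallel to `L.d m`, so `dot (pt t p) g = dot (pt t q) g` (`Walls.perp`): `F.Il g L.a q`. In the same way
with `g' = L'.inc (st m')`: `F.Il g' L'.a q`. `g'` is `g` or `- g` (`d_st`: `L'.d (st m') = ± J (L'.d m')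
= ± J (L.d m)`). `F.Il g q q` and `F.Il g' q q` (`Il.self`), so `g' = g` (`Il.not_neg`), and
`F.Il g L.a L'.a` (`Il.trans`). -/
theorem Out.il (hn : 8 ≤ n) {μ : S} {p q : P} {m m' : Fin 4} (h : Lk L L' μ p q)
    (ho : Out L p q m) (ho' : Out L' q p m') (hd : L'.d m' = - L.d m) :
    F.Il (L.inc (st m)) L.a p ∧ F.Il (L.inc (st m)) L.a q ∧ F.Il (L.inc (st m)) L.a L'.a := by
  have h1 : F.Il (L.inc (st m)) L.a p := (L.il_inc_iff m p).2 fun t v ht hv hp =>
    ⟨ho.lo t v ht hv hp, ho.hi v t hv ht hp⟩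
  have h1' : F.Il (L'.inc (st m')) L'.a q := (L'.il_inc_iff m' q).2 fun t v ht hv hp =>
    ⟨ho'.lo t v ht hv hp, ho'.hi v t hv ht hp⟩
  have h2 : F.Il (L.inc (st m)) L.a q := by
    refine h1.congr fun t ht => ?_
    obtain ⟨l, hl, hle⟩ := ho.dir t ht
    have e1 : F.pt t q = F.pt t p + l • L.d m := by rw [← hle]; abel
    have e2 : dot (L.d m) (L.inc (st m)) = 0 := by
      unfold inc
      split_ifs
      · exact L.W.perp m
      · rw [dot_neg', L.W.perp m, neg_zero]
    rw [e1, dot_add, dot_smul, e2, mul_zero, add_zero]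
  have hg : F.Hg (L.inc (st m)) := L.Hg_inc (st m)
  have hq : F.Il (L.inc (st m)) q q := h2.symm.trans hg (by omega) h2
  have hg' : F.Hg (L'.inc (st m')) := L'.Hg_inc (st m')
  have hq' : F.Il (L'.inc (st m')) q q := h1'.symm.trans hg' (by omega) h1'
  have key : L'.inc (st m') = L.inc (st m) ∨ L'.inc (st m') = - L.inc (st m) := by
    have hJ : J (-L.d m) = - J (L.d m) := by ext <;> simp [J]
    have e1 : L'.inc (st m') = J (L.d m) ∨ L'.inc (st m') = - J (L.d m) := by
      unfold inc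
      rcases L'.d_st m' with h3 | h3 <;> rw [h3, hd, hJ] <;> split_ifs <;> simp
    have e2 : L.inc (st m) = J (L.d m) ∨ L.inc (st m) = - J (L.d m) := by
      unfold inc
      rcases L.d_st m with h3 | h3 <;> rw [h3] <;> split_ifs <;> simp
    rcases e1 with e1 | e1 <;> rcases e2 with e2 | e2 <;> rw [e1, e2] <;> simp
  have hgg : L'.inc (st m') = L.inc (st m) := by
    rcases key with h3 | h3
    · exact h3
    · exfalso
      rw [h3] at hq'
      have h4 := (hq 0 1 (by omega) (by omega)).1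
      have h5 := (hq' 0 1 (by omega) (by omega)).1
      rw [dot_neg', dot_neg'] at h5
      linarith
  refine ⟨h1, h2, ?_⟩
  rw [hgg] at h1'
  exact h2.trans hg (by omega) h1'.symm

end Lb
end Pool.Agent.RAC

/-!
# Paths in a strip (piece COVL)
-/

namespace Pool.Agent.RAC
namespace Lb

variable {n : ℕ} {P S E : Type} {F : Fam n P S E} {L : Lb F}

/-- a point of an open segment with a given coordinate -/
theorem covl_mid {A B v : Pt} {r : ℝ} (h1 : dot A v < r) (h2 : r < dot B v) :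
    ∃ y, y ∈ openSegment ℝ A B ∧ dot y v = r := by
  have h3 : 0 < dot B v - dot A v := by linarith
  have h4 : (r - dot A v) / (dot B v - dot A v) < 1 := by
    rw [div_lt_one h3]
    linarith
  have h5 : 0 < (r - dot A v) / (dot B v - dot A v) := div_pos (by linarith) h3
  refine ⟨(1 - (r - dot A v) / (dot B v - dot A v)) • A +
    ((r - dot A v) / (dot B v - dot A v)) • B,
    ⟨_, _, by linarith, h5, by ring, rfl⟩, ?_⟩
  have h6 : (r - dot A v) / (dot B v - dot A v) * (dot B v - dot A v) = r - dot A v :=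
    div_mul_cancel₀ _ h3.ne'
  rw [dot_add, dot_smul, dot_smul]
  linarith

/-- a point of an open segment with a given coordinate which is between those of the ends -/
theorem covl_mid' {A B v : Pt} {r : ℝ}
    (h : (dot A v < r ∧ r < dot B v) ∨ (r < dot A v ∧ dot B v < r)) :
    ∃ y, y ∈ openSegment ℝ A B ∧ dot y v = r := by
  rcases h with ⟨h1, h2⟩ | ⟨h1, h2⟩
  · exact covl_mid h1 h2
  · obtain ⟨y, h3, h4⟩ := covl_mid h2 h1
    rw [openSegment_symm] at h3
    exact ⟨y, h3, h4⟩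

/-- interleaved labels in the form of levels -/
theorem covl_il (L : Lb F) (m : Fin 4) {p q : P} (h : F.Il (L.inc (st m)) p q) {t v : ℕ}
    (ht : t < n) (hv : v < n) (htv : prec m t v) :
    dot (F.pt v p) (L.d (st m)) < dot (F.pt t q) (L.d (st m)) ∧
      dot (F.pt v q) (L.d (st m)) < dot (F.pt t p) (L.d (st m)) := by
  have e1 := htv
  unfold prec at e1
  unfold inc at h
  by_cases hm : m = 0 ∨ m = 2
  · rw [if_pos hm] at e1
    rw [if_neg (by rcases hm with rfl | rfl <;> simp [st])] at h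
    obtain ⟨h1, h2⟩ := h t v e1 hv
    rw [dot_neg', dot_neg'] at h1 h2
    exact ⟨by linarith, by linarith⟩
  · rw [if_neg hm] at e1
    have hm' : st m = 0 ∨ st m = 2 := by
      fin_cases m
      · exact absurd (Or.inl rfl) hm
      · exact Or.inl rfl
      · exact absurd (Or.inr rfl) hm
      · exact Or.inr rfl
    rw [if_pos hm'] at h
    obtain ⟨h1, h2⟩ := h v t e1 ht
    exact ⟨h1, h2⟩

/-- there is an earlier index -/
theorem covl_prev {m : Fin 4} {t : ℕ} (h : In3 n m t) : ∃ v, v < n ∧ prec m v t := by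
  unfold In3 at h
  unfold prec
  by_cases hm : m = 0 ∨ m = 2
  · rw [if_pos hm] at h
    refine ⟨0, by omega, ?_⟩
    rw [if_pos hm]
    omega
  · rw [if_neg hm] at h
    refine ⟨t + 1, by omega, ?_⟩
    rw [if_neg hm]
    omega

/-- an index -/
theorem covl_idx (hn : 8 ≤ n) (m : Fin 4) : In3 n m 3 := by
  unfold In3
  split_ifs <;> omega

/-- the levels of an interleaved label are between those of the ends of the wall -/
theorem covl_lev (hn : 8 ≤ n) (L : Lb F) {m : Fin 4} {q : P} (h : F.Il (L.inc (st m)) L.a q) {t : ℕ}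
    (ht : In3 n m t) :
    dot (F.pt (eps n m) L.a) (L.d (st m)) < dot (F.pt t q) (L.d (st m)) ∧
      dot (F.pt t q) (L.d (st m)) <
        dot (F.pt (eps n m) (F.e2 (L.w (st m)))) (L.d (st m)) := by
  have htn : t < n := by have := omc_in3_bd ht; omega
  have hεn : eps n m < n := omc_eps_lt (by omega) m
  obtain ⟨v, hv, hvt⟩ := covl_prev ht
  refine ⟨(covl_il L m h htn hεn (omc_prec_eps ht)).1, ?_⟩
  refine (covl_il L m h hv htn hvt).2.trans ?_
  exact L.W.long (eps n m) v hεn hv (st m)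

/-- the end of the wall -/
theorem covl_end (L : Lb F) (m : Fin 4) (hn : 1 ≤ n) :
    dot (F.pt (eps n m) (F.e2 (L.w (st m)))) (L.d m) =
      dot (F.pt (eps n m) L.a) (L.d m) := by
  obtain ⟨l, hl, hle⟩ := L.W.wall (eps n m) (omc_eps_lt hn m) (st m)
  have hle' : F.pt (eps n m) (F.e2 (L.w (st m))) = F.pt (eps n m) L.a + l • L.d (st m) := hle
  have hp := L.W.perp (st m)
  rw [st_st] at hp
  rw [hle', dot_add, dot_smul, hp]
  ring

/-- a point of the line of the wall `st m` of the last point with a level between the levels of two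
interleaved labels belongs to the wall -/
theorem covl_wall (hn : 8 ≤ n) (L : Lb F) {m : Fin 4} {p q : P}
    (hp : F.Il (L.inc (st m)) L.a p) (hq : F.Il (L.inc (st m)) L.a q) {t : ℕ}
    (ht : In3 n m t) {y : Pt} (hy : y ∈ segment ℝ (F.pt t p) (F.pt t q))
    (hc : dot y (L.d m) = dot (F.pt (eps n m) L.a) (L.d m)) :
    y ∈ openSegment ℝ (F.pt (eps n m) L.a) (F.pt (eps n m) (F.e2 (L.w (st m)))) := by
  obtain ⟨h1, h2⟩ := covl_lev hn L hp ht
  obtain ⟨h3, h4⟩ := covl_lev hn L hq ht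
  refine L.omc_mem_open m hc (covl_end L m (by omega)) ?_ ?_
  · rw [segment_symm] at hy
    have h5 := dot_segment_lt (v := -L.d (st m)) hy
      (r := - dot (F.pt (eps n m) L.a) (L.d (st m)))
      (by rw [dot_neg']; linarith) (by rw [dot_neg']; linarith)
    rw [dot_neg'] at h5
    linarith
  · exact dot_segment_lt hy h2 h4

/-- (1): the end of a segment is not on the line of the wall -/
theorem covl_ne (hn : 8 ≤ n) (L : Lb F) {m : Fin 4} {q : P}
    (hq : F.Il (L.inc (st m)) L.a q) {σ : S} (hσ : F.e1 σ = q ∨ F.e2 σ = q) {t : ℕ}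
    (ht : In3 n m t) : dot (F.pt t q) (L.d m) ≠ dot (F.pt (eps n m) L.a) (L.d m) := by
  intro hc
  obtain ⟨htn, hte, hen⟩ := omb_In3 (by omega) ht
  have h1 := covl_wall hn L hq hq ht (left_mem_segment ℝ _ _) hc
  have h2 : F.pt t q ∈ segment ℝ (F.sg t σ).1 (F.sg t σ).2 := by
    rcases hσ with rfl | rfl
    · exact left_mem_segment ℝ _ _
    · exact right_mem_segment ℝ _ _
  have h3 := (L.omb_ok_wall (m := st m) hen htn hte σ _ h2
    (openSegment_subset_segment ℝ _ _ h1)).1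
  have h4 := F.nd t htn σ
  rcases hσ with rfl | rfl
  · exact h4 (left_mem_openSegment_iff.1 h3)
  · exact h4 (right_mem_openSegment_iff.1 h3)

/-- (2): inert segments do not cross the line of the wall -/
theorem covl_inert (hn : 8 ≤ n) (L : Lb F) {m : Fin 4} {σ : S} (hi : F.Inert σ)
    (h1 : F.Il (L.inc (st m)) L.a (F.e1 σ)) (h2 : F.Il (L.inc (st m)) L.a (F.e2 σ)) {t : ℕ}
    (ht : In3 n m t)
    (hc : (dot (F.pt t (F.e1 σ)) (L.d m) < dot (F.pt (eps n m) L.a) (L.d m) ∧
        dot (F.pt (eps n m) L.a) (L.d m) < dot (F.pt t (F.e2 σ)) (L.d m)) ∨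
      (dot (F.pt (eps n m) L.a) (L.d m) < dot (F.pt t (F.e1 σ)) (L.d m) ∧
        dot (F.pt t (F.e2 σ)) (L.d m) < dot (F.pt (eps n m) L.a) (L.d m))) : False := by
  obtain ⟨htn, hte, hen⟩ := omb_In3 (by omega) ht
  obtain ⟨y, hy, hyc⟩ := covl_mid' hc
  have h3 := covl_wall hn L h1 h2 ht (openSegment_subset_segment ℝ _ _ hy) hyc
  refine hi t (eps n m) htn hen hte (L.w (st m)) ⟨y, hy, ?_⟩
  show y ∈ openSegment ℝ (F.pt (eps n m) (F.e1 (L.w (st m)))) _
  rw [L.w1]
  exact h3

/-- (3): segments parallel to the strands do not cross them -/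
theorem covl_par (L : Lb F) (hn : 8 ≤ n) {m : Fin 4} {σ : S} {s t : ℕ} (hs : In3 n m s)
    (ht : t < n) (hts : t ≠ s) (h : dot (F.dir t σ) (L.d (st m)) = 0) :
    cr (F.sg t σ) (L.cor m s, F.pt s (F.e2 (L.sd m))) = 0 := by
  unfold cr
  rw [if_neg]
  rintro ⟨z, hz1, hz2⟩
  have hsn : s < n := by have := omc_in3_bd hs; omega
  have hz2' : z ∈ openSegment ℝ (F.pt s (F.e1 (L.sd m))) (F.pt s (F.e2 (L.sd m))) :=
    omc_open_sub (L.cor_mem_strand (by omega) hs) hz2
  have hperp := F.perp_of_Xx ht hsn hts (σ := σ) (τ := L.sd m) ⟨z, hz1, hz2'⟩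
  obtain ⟨l', hl', hle'⟩ := L.s1 s hsn m
  have e1 : F.dir s (L.sd m) = l' • L.d m := by
    unfold Fam.dir
    rw [hle']
    abel
  rw [e1, dot_smul'] at hperp
  have e2 : dot (F.dir t σ) (L.d m) = 0 := (mul_eq_zero.1 hperp).resolve_left hl'.ne'
  have e3 := L.W.expand m (F.dir t σ)
  rw [e2, h, zero_smul, zero_smul, add_zero] at e3
  exact F.nd t ht σ (sub_eq_zero.1 e3).symm

/-- the levels of the strands and of an interleaved label -/
theorem covl_level (hn : 8 ≤ n) (L : Lb F) {m : Fin 4} {p : P} (hp : F.Il (L.inc (st m)) L.a p)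
    {s t : ℕ} (hs : s < n) (ht : t < n) :
    (prec m s t → dot (F.pt t p) (L.d (st m)) < dot (F.pt s (F.e1 (L.sd m))) (L.d (st m))) ∧
    (prec m t s → dot (F.pt s (F.e1 (L.sd m))) (L.d (st m)) < dot (F.pt t p) (L.d (st m))) := by
  have h : F.Il (L.inc (st m)) (F.e1 (L.sd m)) p :=
    (L.il_strand m).symm.trans (L.Hg_inc (st m)) (by omega) hp
  exact ⟨fun h1 => (covl_il L m h hs ht h1).2, fun h1 => (covl_il L m h ht hs h1).1⟩

/-- (3): the crossings with the part of the wall -/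
theorem covl_part (hn : 8 ≤ n) (L : Lb F) {m : Fin 4} {σ : S}
    (h1 : F.Il (L.inc (st m)) L.a (F.e1 σ)) {s w t : ℕ} (hs : In3 n m s) (hw : In3 n m w)
    (ht : In3 n m t) (hsw : s ≠ w) (hts : t ≠ s) (htw : t ≠ w)
    (hσ : dot (F.dir t σ) (L.d (st m)) = 0)
    (hc : (dot (F.pt t (F.e1 σ)) (L.d m) < dot (F.pt (eps n m) L.a) (L.d m) ∧
        dot (F.pt (eps n m) L.a) (L.d m) < dot (F.pt t (F.e2 σ)) (L.d m)) ∨
      (dot (F.pt (eps n m) L.a) (L.d m) < dot (F.pt t (F.e1 σ)) (L.d m) ∧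
        dot (F.pt t (F.e2 σ)) (L.d m) < dot (F.pt (eps n m) L.a) (L.d m))) :
    cr (F.sg t σ) (L.cor m w, L.cor m s) = btwn s w t := by
  have hsn : s < n := by have := omc_in3_bd hs; omega
  have hwn : w < n := by have := omc_in3_bd hw; omega
  have htn : t < n := by have := omc_in3_bd ht; omega
  obtain ⟨hls1, hls2⟩ := covl_level hn L h1 hsn htn
  obtain ⟨hlw1, hlw2⟩ := covl_level hn L h1 hwn htn
  have hlev : ∀ z, z ∈ segment ℝ (F.sg t σ).1 (F.sg t σ).2 →
      dot z (L.d (st m)) = dot (F.pt t (F.e1 σ)) (L.d (st m)) := by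
    intro z hz
    refine omc_segment_eq hz rfl ?_
    have e1 : dot (F.pt t (F.e2 σ) - F.pt t (F.e1 σ)) (L.d (st m)) = 0 := hσ
    rw [dot_sub] at e1
    show dot (F.pt t (F.e2 σ)) (L.d (st m)) = _
    linarith
  unfold cr btwn
  by_cases hb : (s < t ∧ t < w) ∨ (w < t ∧ t < s)
  · rw [if_pos hb, if_pos]
    obtain ⟨z, hz1, hzm⟩ := covl_mid' hc
    refine ⟨z, hz1, ?_⟩
    have hz : dot z (L.d (st m)) = dot (F.pt t (F.e1 σ)) (L.d (st m)) :=
      hlev z (openSegment_subset_segment ℝ _ _ hz1)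
    rcases (omc_btwn_iff m s w t).1 hb with ⟨h1, h2⟩ | ⟨h1, h2⟩
    · refine L.omc_mem_open m ?_ ?_ ?_ ?_
      · rw [L.omc_cor_m, hzm]
      · rw [L.omc_cor_m, L.omc_cor_m]
      · rw [L.omc_cor_st, hz]
        exact hlw2 h2
      · rw [L.omc_cor_st, hz]
        exact hls1 h1
    · show z ∈ openSegment ℝ (L.cor m w) (L.cor m s)
      rw [openSegment_symm]
      refine L.omc_mem_open m ?_ ?_ ?_ ?_
      · rw [L.omc_cor_m, hzm]
      · rw [L.omc_cor_m, L.omc_cor_m]
      · rw [L.omc_cor_st, hz]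
        exact hls2 h2
      · rw [L.omc_cor_st, hz]
        exact hlw1 h1
  · rw [if_neg hb, if_neg]
    rintro ⟨z, hz1, hz2⟩
    apply hb
    rw [omc_btwn_iff m]
    have hz : dot z (L.d (st m)) = dot (F.pt t (F.e1 σ)) (L.d (st m)) :=
      hlev z (openSegment_subset_segment ℝ _ _ hz1)
    simp only at hz2
    rcases omc_prec_or m hsw with h1 | h1
    · have h2 := L.lev_lt (by omega) hsn hwn h1
      rw [← L.omc_cor_st, ← L.omc_cor_st] at h2
      obtain ⟨h3, h4⟩ := omc_open_lt hz2 h2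
      rw [L.omc_cor_st, hz] at h3 h4
      left
      constructor
      · rcases omc_prec_or m (Ne.symm hts) with h5 | h5
        · exact h5
        · have := hls2 h5
          linarith
      · rcases omc_prec_or m htw with h5 | h5
        · exact h5
        · have := hlw1 h5
          linarith
    · have h2 := L.lev_lt (by omega) hwn hsn h1
      rw [← L.omc_cor_st, ← L.omc_cor_st] at h2
      rw [openSegment_symm] at hz2
      obtain ⟨h3, h4⟩ := omc_open_lt hz2 h2
      rw [L.omc_cor_st, hz] at h3 h4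
      right
      constructor
      · rcases omc_prec_or m (Ne.symm htw) with h5 | h5
        · exact h5
        · have := hlw2 h5
          linarith
      · rcases omc_prec_or m hts with h5 | h5
        · exact h5
        · have := hls1 h5
          linarith

/-- (3): no crossing with the part of the wall, if the ends are on the same side -/
theorem covl_part0 (L : Lb F) {m : Fin 4} {σ : S} {s w t : ℕ}
    (hc : (dot (F.pt t (F.e1 σ)) (L.d m) < dot (F.pt (eps n m) L.a) (L.d m) ∧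
        dot (F.pt t (F.e2 σ)) (L.d m) < dot (F.pt (eps n m) L.a) (L.d m)) ∨
      (dot (F.pt (eps n m) L.a) (L.d m) < dot (F.pt t (F.e1 σ)) (L.d m) ∧
        dot (F.pt (eps n m) L.a) (L.d m) < dot (F.pt t (F.e2 σ)) (L.d m))) :
    cr (F.sg t σ) (L.cor m w, L.cor m s) = 0 := by
  unfold cr
  rw [if_neg]
  rintro ⟨z, hz1, hz2⟩
  have hz1' := openSegment_subset_segment ℝ _ _ hz1
  have h1 : dot z (L.d m) = dot (F.pt (eps n m) L.a) (L.d m) :=
    omc_segment_eq (openSegment_subset_segment ℝ _ _ hz2) (L.omc_cor_m m w) (L.omc_cor_m m s)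
  rcases hc with ⟨h2, h3⟩ | ⟨h2, h3⟩
  · exact absurd h1 (dot_segment_lt hz1' h2 h3).ne
  · have h4 := dot_segment_lt (v := -L.d m) hz1'
      (r := - dot (F.pt (eps n m) L.a) (L.d m))
      (by rw [dot_neg']; exact neg_lt_neg h2) (by rw [dot_neg']; exact neg_lt_neg h3)
    rw [dot_neg'] at h4
    linarith

/-- the parity does not change on the same side -/
theorem covl_same (hn : 8 ≤ n) (L : Lb F) {m : Fin 4} {σ : S} (n1 : ¬ F.hub (F.e1 σ))
    (n2 : ¬ F.hub (F.e2 σ))
    (hσ : F.Inert σ ∨ ∀ t, t < n → dot (F.dir t σ) (L.d (st m)) = 0)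
    {s w t : ℕ} (hs : In3 n m s) (hw : In3 n m w) (ht : In3 n m t) (hsw : s ≠ w) (hts : t ≠ s)
    (htw : t ≠ w)
    (hc : (dot (F.pt t (F.e1 σ)) (L.d m) < dot (F.pt (eps n m) L.a) (L.d m) ∧
        dot (F.pt t (F.e2 σ)) (L.d m) < dot (F.pt (eps n m) L.a) (L.d m)) ∨
      (dot (F.pt (eps n m) L.a) (L.d m) < dot (F.pt t (F.e1 σ)) (L.d m) ∧
        dot (F.pt (eps n m) L.a) (L.d m) < dot (F.pt t (F.e2 σ)) (L.d m))) :
    wp (L.Om m s w) (F.pt t (F.e1 σ)) = wp (L.Om m s w) (F.pt t (F.e2 σ)) := by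
  have m1 : F.e1 σ ≠ F.e2 (L.bs m) := fun h => n1 (h ▸ L.bh m)
  have m2 : F.e2 σ ≠ F.e2 (L.bs m) := fun h => n2 (h ▸ L.bh m)
  rcases hσ with hσ | hσ
  · exact L.omega_inert (by omega) hs hw ht hsw hts htw m1 m2 hσ
  · have htn : t < n := by have := omc_in3_bd ht; omega
    have h := L.omega_eq (by omega) hs hw ht hsw hts htw m1 m2
    rw [covl_par L hn hs htn hts (hσ t htn), covl_par L hn hw htn htw (hσ t htn),
      covl_part0 L hc, add_zero, add_zero] at h
    exact omc_zmod2 h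

/-- the change of the parity -/
theorem covl_diff (hn : 8 ≤ n) (L : Lb F) {m : Fin 4} {σ : S} (n1 : ¬ F.hub (F.e1 σ))
    (n2 : ¬ F.hub (F.e2 σ)) (h1 : F.Il (L.inc (st m)) L.a (F.e1 σ))
    (h2 : F.Il (L.inc (st m)) L.a (F.e2 σ))
    (hσ : F.Inert σ ∨ ∀ t, t < n → dot (F.dir t σ) (L.d (st m)) = 0)
    {s w t : ℕ} (hs : In3 n m s) (hw : In3 n m w) (ht : In3 n m t) (hsw : s ≠ w) (hts : t ≠ s)
    (htw : t ≠ w)
    (hc : (dot (F.pt t (F.e1 σ)) (L.d m) < dot (F.pt (eps n m) L.a) (L.d m) ∧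
        dot (F.pt (eps n m) L.a) (L.d m) < dot (F.pt t (F.e2 σ)) (L.d m)) ∨
      (dot (F.pt (eps n m) L.a) (L.d m) < dot (F.pt t (F.e1 σ)) (L.d m) ∧
        dot (F.pt t (F.e2 σ)) (L.d m) < dot (F.pt (eps n m) L.a) (L.d m))) :
    wp (L.Om m s w) (F.pt t (F.e1 σ)) + wp (L.Om m s w) (F.pt t (F.e2 σ)) = btwn s w t := by
  have m1 : F.e1 σ ≠ F.e2 (L.bs m) := fun h => n1 (h ▸ L.bh m)
  have m2 : F.e2 σ ≠ F.e2 (L.bs m) := fun h => n2 (h ▸ L.bh m)
  rcases hσ with hσ | hσ
  · exact (covl_inert hn L hσ h1 h2 ht hc).elim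
  · have htn : t < n := by have := omc_in3_bd ht; omega
    have h := L.omega_eq (by omega) hs hw ht hsw hts htw m1 m2
    rw [covl_par L hn hs htn hts (hσ t htn), covl_par L hn hw htn htw (hσ t htn),
      covl_part hn L h1 hs hw ht hsw hts htw (hσ t htn) hc, zero_add, zero_add] at h
    exact h

theorem covl_z {a b k : ZMod 2} (h : a + b = k) (e : a = b) : k = 0 := by
  revert a b k
  decide

theorem covl_z2 {a b k c : ZMod 2} (h : a + b = c) (e : a = k) : b = k + c := by
  revert a b k c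
  decide

theorem covl_z3 {a b k c : ZMod 2} (h : a + b = c) (e : a = k + c) : b = k := by
  revert a b k c
  decide

/-- the side of a label -/
theorem covl_side (hn : 8 ≤ n) (L : Lb F) {m : Fin 4} {q : P}
    (hne : ∀ t, In3 n m t → dot (F.pt t q) (L.d m) ≠ dot (F.pt (eps n m) L.a) (L.d m)) :
    (∀ t, In3 n m t → dot (F.pt t q) (L.d m) < dot (F.pt (eps n m) L.a) (L.d m)) ∨
      (∀ t, In3 n m t → dot (F.pt (eps n m) L.a) (L.d m) < dot (F.pt t q) (L.d m)) := by
  have hεn : eps n m < n := omc_eps_lt (by omega) m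
  have key : ∀ t u, In3 n m t → In3 n m u →
      dot (F.pt t q) (L.d m) < dot (F.pt (eps n m) L.a) (L.d m) →
      dot (F.pt u q) (L.d m) < dot (F.pt (eps n m) L.a) (L.d m) := by
    intro t u ht hu h
    have htn : t < n := by have := omc_in3_bd ht; omega
    have hun : u < n := by have := omc_in3_bd hu; omega
    exact (L.hom_lt m q L.a m htn hεn hun hεn (omc_prec_eps ht) (omc_prec_eps hu)).1 h
  by_cases h : dot (F.pt 3 q) (L.d m) < dot (F.pt (eps n m) L.a) (L.d m)
  · left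
    intro t ht
    exact key 3 t (covl_idx hn m) ht h
  · right
    intro t ht
    rcases lt_or_gt_of_ne (hne t ht) with h1 | h1
    · exact absurd (key t 3 ht (covl_idx hn m) h1) h
    · exact h1

/-- one step, for both orientations of the segment -/
theorem covl_step (hn : 8 ≤ n) (L : Lb F) {m : Fin 4} {σ : S} {p q : P}
    (hpq : (F.e1 σ = p ∧ F.e2 σ = q) ∨ (F.e1 σ = q ∧ F.e2 σ = p)) (n1 : ¬ F.hub p)
    (n2 : ¬ F.hub q) (h1 : F.Il (L.inc (st m)) L.a p)
    (h2 : F.Il (L.inc (st m)) L.a q)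
    (hσ : F.Inert σ ∨ ∀ t, t < n → dot (F.dir t σ) (L.d (st m)) = 0)
    {s w t : ℕ} (hs : In3 n m s) (hw : In3 n m w) (ht : In3 n m t) (hsw : s ≠ w) (hts : t ≠ s)
    (htw : t ≠ w) :
    ((dot (F.pt t p) (L.d m) < dot (F.pt (eps n m) L.a) (L.d m) ∧
        dot (F.pt t q) (L.d m) < dot (F.pt (eps n m) L.a) (L.d m)) ∨
      (dot (F.pt (eps n m) L.a) (L.d m) < dot (F.pt t p) (L.d m) ∧
        dot (F.pt (eps n m) L.a) (L.d m) < dot (F.pt t q) (L.d m)) →
      wp (L.Om m s w) (F.pt t p) = wp (L.Om m s w) (F.pt t q)) ∧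
    ((dot (F.pt t p) (L.d m) < dot (F.pt (eps n m) L.a) (L.d m) ∧
        dot (F.pt (eps n m) L.a) (L.d m) < dot (F.pt t q) (L.d m)) ∨
      (dot (F.pt (eps n m) L.a) (L.d m) < dot (F.pt t p) (L.d m) ∧
        dot (F.pt t q) (L.d m) < dot (F.pt (eps n m) L.a) (L.d m)) →
      wp (L.Om m s w) (F.pt t p) + wp (L.Om m s w) (F.pt t q) = btwn s w t) := by
  rcases hpq with ⟨rfl, rfl⟩ | ⟨rfl, rfl⟩
  · exact ⟨fun h => covl_same hn L n1 n2 hσ hs hw ht hsw hts htw h,
      fun h => covl_diff hn L n1 n2 h1 h2 hσ hs hw ht hsw hts htw h⟩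
  · refine ⟨fun h => (covl_same hn L n2 n1 hσ hs hw ht hsw hts htw ?_).symm, fun h => ?_⟩
    · rcases h with ⟨a, b⟩ | ⟨a, b⟩
      · exact Or.inl ⟨b, a⟩
      · exact Or.inr ⟨b, a⟩
    · rw [add_comm]
      refine covl_diff hn L n2 n1 h2 h1 hσ hs hw ht hsw hts htw ?_
      rcases h with ⟨a, b⟩ | ⟨a, b⟩
      · exact Or.inr ⟨b, a⟩
      · exact Or.inl ⟨b, a⟩

/-- the induction step of COVL -/
theorem covl_next (hn : 8 ≤ n) {m : Fin 4} {p q : P} (n1 : ¬ F.hub p)
    (h1 : F.Il (L.inc (st m)) L.a p) (hst : HStep L m p q)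
    (h : ((∀ t, In3 n m t → dot (F.pt t p) (L.d m) < dot (F.pt (eps n m) L.a) (L.d m)) ∧
        L.Alt0 m p) ∨
      ((∀ t, In3 n m t → dot (F.pt (eps n m) L.a) (L.d m) < dot (F.pt t p) (L.d m)) ∧
        L.Alt m p)) :
    ((∀ t, In3 n m t → dot (F.pt t q) (L.d m) < dot (F.pt (eps n m) L.a) (L.d m)) ∧
        L.Alt0 m q) ∨
      ((∀ t, In3 n m t → dot (F.pt (eps n m) L.a) (L.d m) < dot (F.pt t q) (L.d m)) ∧
        L.Alt m q) := by
  obtain ⟨n2, h2, h3⟩ := hst
  obtain ⟨σ, hσ, hi⟩ : ∃ σ, ((F.e1 σ = p ∧ F.e2 σ = q) ∨ (F.e1 σ = q ∧ F.e2 σ = p)) ∧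
      (F.Inert σ ∨ ∀ t, t < n → dot (F.dir t σ) (L.d (st m)) = 0) := by
    rcases h3 with ⟨σ, hi, hσ⟩ | ⟨σ, hσ, hi⟩
    · exact ⟨σ, hσ, Or.inl hi⟩
    · exact ⟨σ, hσ, Or.inr hi⟩
  have hne : ∀ t, In3 n m t → dot (F.pt t q) (L.d m) ≠ dot (F.pt (eps n m) L.a) (L.d m) := by
    intro t ht
    refine covl_ne hn L h2 (σ := σ) ?_ ht
    rcases hσ with ⟨-, e⟩ | ⟨e, -⟩
    · exact Or.inr e
    · exact Or.inl e
  rcases covl_side hn L hne with hq | hq
  · refine Or.inl ⟨hq, ?_⟩
    intro s w t hs hw ht hsw hts htw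
    obtain ⟨k1, k2⟩ := covl_step hn L hσ n1 n2 h1 h2 hi hs hw ht hsw hts htw
    rcases h with ⟨hp, hA⟩ | ⟨hp, hA⟩
    · rw [← k1 (Or.inl ⟨hp t ht, hq t ht⟩)]
      exact hA s w t hs hw ht hsw hts htw
    · exact covl_z3 (k2 (Or.inr ⟨hp t ht, hq t ht⟩)) (hA s w t hs hw ht hsw hts htw)
  · refine Or.inr ⟨hq, ?_⟩
    intro s w t hs hw ht hsw hts htw
    obtain ⟨k1, k2⟩ := covl_step hn L hσ n1 n2 h1 h2 hi hs hw ht hsw hts htw
    rcases h with ⟨hp, hA⟩ | ⟨hp, hA⟩
    · exact covl_z2 (k2 (Or.inl ⟨hp t ht, hq t ht⟩)) (hA s w t hs hw ht hsw hts htw)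
    · rw [← k1 (Or.inr ⟨hp t ht, hq t ht⟩)]
      exact hA s w t hs hw ht hsw hts htw

/-- COVL. A path in the strip of `L` of the direction `d m` which starts in the label: its points before
the wall of the last cluster are outside of the curves, its points beyond this wall are in the
alternating position.

Proof. Induction on the path. Let `ε = eps n m`, `c = dot · (d m)`, `l = dot · (d (st m))`.
Start `z = L.a`: `c (x t) < c (x ε)` (`Walls.mono`, `prec m t ε` for `In3 n m t`), `alt0_self`.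
Step from `p` to `q` with the segment `σ` (`e1 σ, e2 σ` are `p, q` or `q, p`). `p`, `q` are not hubs.
For `In3 n m t` the levels of `pt t p`, `pt t q` are between `l (x ε)` and `l (e)`, `e` the end of the wall
`st m` of `x ε`: `il_inc_iff` (`prec m t ε`; and `prec m v t` for some `v`, `l (pt t p) < l (x v) <
l e` by `Walls.long`).
(1) `c (pt t q) ≠ c (x ε)`: otherwise `pt t q` lies on the wall `st m` of `x ε`, and on `sg t σ`, as an end
point. `F.diff` (`t ≠ ε`): the ends of the wall are not hubs, so it would be an interior point of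
`sg t σ`: contradiction (`nd`).
(2) `σ` inert. `c (pt t p)`, `c (pt t q)` are on the same side of `c (x ε)`: otherwise `sg t σ` crosses the
line `c = c (x ε)` in a point of the wall `st m` of `x ε` (the level of the point is between the
levels of `p` and `q`); by `F.diff` this is a crossing `Xx`, contradiction to `Inert`. And `wp` does not
change (`omega_inert`).
(3) `σ` parallel to `d m`. `sg t σ` does not cross the strands (`perp_of_Xx` would give
`dir t σ ⟂ d m`, but also `dir t σ ⟂ d (st m)`, `nd`). If `p`, `q` are on the same side of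
`c = c (x ε)` then `sg t σ` does not cross the part of the wall either, and `wp` does not change
(`omega_eq`). If they are on different sides then `sg t σ` crosses the line `c = c (x ε)` in a point `z`
with the level `l z = l (pt t p)`, and `z` is an interior point of `[cor m w, cor m s]` iff `l z` is between the
levels `l (pt s (e1 (sd m)))` and `l (pt w (e1 (sd m)))`, iff `t` is between `s` and `w`, since `p` and
`e1 (sd m)` are interleaved (`Il.trans` of `F.Il (L.inc (st m)) L.a p` and `il_strand`).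
So `wp` changes by `btwn s w t`.
The side of `pt t q` is the same for all `In3 n m t` by homogeneity (`Hg_d`, pairs `t, ε`). -/
theorem covl (hn : 8 ≤ n) {m : Fin 4} {z : P}
    (h : Relation.ReflTransGen (HStep L m) L.a z) :
    ((∀ t, In3 n m t → dot (F.pt t z) (L.d m) < dot (F.pt (eps n m) L.a) (L.d m)) ∧
        L.Alt0 m z) ∨
      ((∀ t, In3 n m t → dot (F.pt (eps n m) L.a) (L.d m) < dot (F.pt t z) (L.d m)) ∧
        L.Alt m z) := by
  have key : ¬ F.hub z ∧ F.Il (L.inc (st m)) L.a z ∧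
      (((∀ t, In3 n m t → dot (F.pt t z) (L.d m) < dot (F.pt (eps n m) L.a) (L.d m)) ∧
        L.Alt0 m z) ∨
      ((∀ t, In3 n m t → dot (F.pt (eps n m) L.a) (L.d m) < dot (F.pt t z) (L.d m)) ∧
        L.Alt m z)) := by
    induction h with
    | refl =>
      refine ⟨L.na, L.il_inc (st m), Or.inl ⟨fun t ht => ?_, L.alt0_self (by omega) m⟩⟩
      have htn : t < n := by have := omc_in3_bd ht; omega
      exact L.W.mono m t (eps n m) htn (omc_eps_lt (by omega) m) (omc_prec_eps ht)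
    | tail _ hb ih =>
      exact ⟨hb.1, hb.2.1, covl_next hn ih.1 ih.2.1 hb ih.2.2⟩
  exact key.2.2

end Lb
end Pool.Agent.RAC

/-!
# Strands of separated labels lead to the same hub (piece HEQ)
-/

namespace Pool.Agent.RAC

theorem heq_btwn1 : btwn 2 4 3 = 1 := by
  unfold btwn
  rw [if_pos]
  left
  omega

theorem heq_btwn0 : btwn 2 4 5 = 0 := by
  unfold btwn
  rw [if_neg]
  omega

theorem heq_in3 {n : ℕ} (hn : 8 ≤ n) (m : Fin 4) {t : ℕ} (h1 : 2 ≤ t) (h2 : t ≤ 5) : In3 n m t := by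
  unfold In3
  split_ifs <;> omega

theorem heq_next {n : ℕ} (hn : 8 ≤ n) (m m2 : Fin 4) {t : ℕ} (h1 : 2 ≤ t) (h2 : t ≤ 5) :
    ∃ v, v < n ∧ prec m2 t v ∧ eps n m ≠ v := by
  by_cases h : m2 = 0 ∨ m2 = 2
  · refine ⟨t + 1, by omega, ?_, ?_⟩
    · unfold prec
      rw [if_pos h]
      omega
    · unfold eps
      split_ifs <;> omega
  · refine ⟨t - 1, by omega, ?_, ?_⟩
    · unfold prec
      rw [if_neg h]
      omega
    · unfold eps
      split_ifs <;> omega

namespace Lb

variable {n : ℕ} {P S E : Type} {F : Fam n P S E} {L L' : Lb F}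

/-- parallel strands do not cross -/
theorem heq_par (hn : 8 ≤ n) {m m1 : Fin 4} (hd : L'.d m1 = L.d m) {s t : ℕ} (hs : In3 n m s) (ht : t < n)
    (hts : t ≠ s) : cr (F.sg t (L'.sd m1)) (L.cor m s, F.pt s (F.e2 (L.sd m))) = 0 := by
  unfold cr
  rw [if_neg]
  rintro ⟨z, hz1, hz2⟩
  have hsn : s < n := by have := omc_in3_bd hs; omega
  have hz2' : z ∈ openSegment ℝ (F.pt s (F.e1 (L.sd m))) (F.pt s (F.e2 (L.sd m))) :=
    omc_open_sub (L.cor_mem_strand (by omega) hs) hz2
  have hperp := F.perp_of_Xx ht hsn hts (σ := L'.sd m1) (τ := L.sd m) ⟨z, hz1, hz2'⟩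
  obtain ⟨l, hl, hle⟩ := L'.s1 t ht m1
  obtain ⟨l', hl', hle'⟩ := L.s1 s hsn m
  have e1 : F.dir s (L.sd m) = l' • L.d m := by
    unfold Fam.dir
    rw [hle']
    abel
  have e2 : F.dir t (L'.sd m1) = l • L.d m := by
    unfold Fam.dir
    rw [hle, hd]
    abel
  rw [e1, e2, dot_smul, dot_smul', L.W.unit] at hperp
  have : 0 < l * (l' * 1) := by positivity
  linarith

/-- the strand is beyond the wall of the last cluster -/
theorem heq_wall (hn : 8 ≤ n) {m m1 : Fin 4} (hd : L'.d m1 = L.d m)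
    (hp : L'.Plus (L.d m)) (hx : ∀ t u, t < n → u < n → t ≠ u →
      dot (F.pt t L.a) (L.d m) < dot (F.pt u L'.a) (L.d m)) {s w t : ℕ} (h1 : 2 ≤ t) (h2 : t ≤ 5) :
    cr (F.sg t (L'.sd m1)) (L.cor m w, L.cor m s) = 0 := by
  unfold cr
  rw [if_neg]
  rintro ⟨z, hz1, hz2⟩
  have hz1' := openSegment_subset_segment ℝ _ _ hz1
  have hz2' := openSegment_subset_segment ℝ _ _ hz2
  have hε : eps n m < n := omc_eps_lt (by omega) m
  have hzε : dot z (L.d m) = dot (F.pt (eps n m) L.a) (L.d m) :=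
    omc_segment_eq hz2' (L.omc_cor_m m w) (L.omc_cor_m m s)
  obtain ⟨m2, hm2⟩ := hp.exists_m (by omega) (v := - L.d m) (Or.inr (Or.inr (Or.inl rfl)))
  obtain ⟨v, hv, hpv, hve⟩ := heq_next hn m m2 h1 h2
  have hIN : L'.IN (F.e1 (L'.sd m1)) := L'.IN_of_Conn L'.IN_self (L'.conn_strand (by omega) m1)
  have h3 := L'.IN_lt (by omega) hIN m2 (t := t) (v := v) (by omega) hv hpv
  rw [hm2, dot_neg', dot_neg'] at h3
  have h4 := hx (eps n m) v hε hv hve
  have h5 : dot (F.pt (eps n m) L.a) (L.d m) < dot (F.pt t (F.e1 (L'.sd m1))) (L.d m) := by linarith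
  obtain ⟨l, hl, hle⟩ := L'.s1 t (by omega) m1
  have h6 : dot (F.pt t (F.e2 (L'.sd m1))) (L.d m) =
      dot (F.pt t (F.e1 (L'.sd m1))) (L.d m) + l := by
    rw [hle, dot_add, dot_smul, hd, L.W.unit, mul_one]
  have h7 := omc_segment_ge (v := L.d m) (r := dot (F.pt t (F.e1 (L'.sd m1))) (L.d m)) hz1'
    (le_refl _) (by
      show _ ≤ dot (F.pt t (F.e2 (L'.sd m1))) (L.d m)
      rw [h6]
      linarith)
  rw [hzε] at h7
  linarith

/-- the parity at the hub -/
theorem heq_key (hn : 8 ≤ n) {m m1 : Fin 4} (hA : L.Alt m L'.a) (hd : L'.d m1 = L.d m)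
    (hp : L'.Plus (L.d m)) (hx : ∀ t u, t < n → u < n → t ≠ u →
      dot (F.pt t L.a) (L.d m) < dot (F.pt u L'.a) (L.d m))
    (hne : F.e2 (L'.bs m1) ≠ F.e2 (L.bs m)) {t : ℕ} (h1 : 2 ≤ t) (h2 : t ≤ 5) (h3 : t ≠ 2)
    (h4 : t ≠ 4) : wp (L.Om m 2 4) (F.pt 0 (F.e2 (L'.bs m1))) = L.kap m 2 4 + btwn 2 4 t := by
  have hs : In3 n m 2 := heq_in3 hn m (le_refl _) (by omega)
  have hw : In3 n m 4 := heq_in3 hn m (by omega) (by omega)
  have ht : In3 n m t := heq_in3 hn m h1 h2
  have htn : t < n := by omega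
  have e0 := hA 2 4 t hs hw ht (by omega) h3 h4
  rw [L.omc_conn (by omega) hs hw ht (by omega) h3 h4 L' L'.IN_self
    (L'.conn_strand (by omega) m1)] at e0
  have hsd1 : F.e1 (L'.sd m1) ≠ F.e2 (L.bs m) := by
    intro h
    exact (L'.s0 m1).1 (h ▸ L.bh m)
  have hsd2 : F.e2 (L'.sd m1) ≠ F.e2 (L.bs m) := by
    intro h
    exact (L'.s0 m1).2 (h ▸ F.hub_ver _ (L.bh m))
  have e1 := L.omega_eq (by omega) hs hw ht (by omega) h3 h4 (σ := L'.sd m1) hsd1 hsd2
  rw [heq_par hn hd hs htn h3, heq_par hn hd hw htn h4, heq_wall hn hd hp hx h1 h2, add_zero,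
    add_zero] at e1
  rw [omc_zmod2 e1] at e0
  have e2 := L.omega_inert (by omega) hs hw ht (by omega) h3 h4 (σ := L'.bs m1)
    (by rw [L'.b1]; exact hsd2) hne (F.hub_inert (by omega) (L'.bh m1))
  rw [L'.b1] at e2
  rw [e2, F.hubc _ (L'.bh m1) t 0] at e0
  exact e0

/-- HEQ. Let `L'` be beyond `L` in the direction `d m`, in the alternating position. The strands of `L`
and of `L'` in this direction lead to the same hub.

Proof. Otherwise choose `s, w, t, t'` as in the proof of `plus_of_alt` and consider the path from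
`L'.a` through `e1 (L'.sd m1)`, the strand, `e2 (L'.sd m1)` and the hub segment to the hub. The strand
of `t` is parallel to `d m`, so it does not cross the strands of `s` and `w`; it does not cross the
wall `st m` of `x ε` (`ε = eps n m`): all its points satisfy `dot · (d m) > dot (x ε) (d m)`. (The
start `e1 (L'.sd m1)` is confined in `L'` (`sK`); with `m2` such that `L'.d m2 = - L.d m`
(`Plus.exists_m`) `IN_lt` gives `dot (pt v L'.a) (d m) < dot (start of t) (d m)` for
`prec m2 t v`; such `v` exists for `In3 n m t`; and `dot (x ε) (d m) < dot (pt v L'.a) (d m)`. Along the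
strand the coordinate increases (`s1`).) So by `omega_eq`, `omega_inert` `wp` is the same at `L'.a` and at
the hub, whose position does not depend on the cluster, contradiction to `Alt`. -/
theorem hubeq (hn : 8 ≤ n) {m m1 : Fin 4} (hA : L.Alt m L'.a) (hd : L'.d m1 = L.d m)
    (hp : L'.Plus (L.d m)) (hx : ∀ t u, t < n → u < n → t ≠ u →
      dot (F.pt t L.a) (L.d m) < dot (F.pt u L'.a) (L.d m)) :
    F.e2 (L'.bs m1) = F.e2 (L.bs m) := by
  by_contra hne
  have h1 := heq_key hn hA hd hp hx hne (t := 3) (by omega) (by omega) (by omega) (by omega)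
  have h2 := heq_key hn hA hd hp hx hne (t := 5) (by omega) (by omega) (by omega) (by omega)
  rw [h1, heq_btwn1, heq_btwn0] at h2
  have h3 : (1 : ZMod 2) = 0 := add_left_cancel h2
  exact one_ne_zero h3

end Lb
end Pool.Agent.RAC

/-!
# Crossing strands of separated labels (piece CRS)
-/

namespace Pool.Agent.RAC
namespace Lb

variable {n : ℕ} {P S E : Type} {F : Fam n P S E} {L L' : Lb F}

/-- the points which are confined in a label beyond `L` are beyond the wall of the last point -/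
theorem crs_beyond (hn : 8 ≤ n) {m : Fin 4} (hp : L'.Plus (L.d m))
    (hx : ∀ t u, t < n → u < n → t ≠ u →
      dot (F.pt t L.a) (L.d m) < dot (F.pt u L'.a) (L.d m)) {p : P} (hin : L'.IN p) {t : ℕ}
    (ht : In3 n m t) : dot (F.pt (eps n m) L.a) (L.d m) < dot (F.pt t p) (L.d m) := by
  have hεn : eps n m < n := omc_eps_lt (by omega) m
  obtain ⟨m2, hm2⟩ := hp.exists_m (v := - L.d m) (by omega) (Or.inr (Or.inr (Or.inl rfl)))
  obtain ⟨v, hv, htv, hvε⟩ : ∃ v, v < n ∧ prec m2 t v ∧ v ≠ eps n m := by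
    unfold In3 at ht
    unfold prec eps
    by_cases h2 : m2 = 0 ∨ m2 = 2
    · refine ⟨t + 1, ?_, ?_, ?_⟩
      · split_ifs at ht <;> omega
      · rw [if_pos h2]; omega
      · split_ifs at ht ⊢ <;> omega
    · refine ⟨t - 1, ?_, ?_, ?_⟩
      · split_ifs at ht <;> omega
      · rw [if_neg h2]
        split_ifs at ht <;> omega
      · split_ifs at ht ⊢ <;> omega
  have htn : t < n := by have := omc_in3_bd ht; omega
  have h1 := L'.IN_lt (by omega) hin m2 htn hv htv
  rw [hm2, dot_neg', dot_neg'] at h1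
  have h2 := hx (eps n m) v hεn hv (Ne.symm hvε)
  linarith

/-- vectors of the other axis -/
theorem crs_perp {m m3 : Fin 4} (h3 : L'.d m3 = L.d (st m) ∨ L'.d m3 = - L.d (st m)) :
    dot (L'.d m3) (L.d m) = 0 := by
  have hp := L.W.perp (st m)
  rw [st_st] at hp
  rcases h3 with h | h
  · rw [h, hp]
  · rw [h, dot_neg, hp, neg_zero]

/-- the coordinate `d m` on the strand `m3` -/
theorem crs_const {m m3 : Fin 4} (h3 : L'.d m3 = L.d (st m) ∨ L'.d m3 = - L.d (st m)) {t : ℕ}
    (ht : t < n) {z : Pt} (hz : z ∈ segment ℝ (F.sg t (L'.sd m3)).1 (F.sg t (L'.sd m3)).2) :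
    dot z (L.d m) = dot (F.pt t (F.e1 (L'.sd m3))) (L.d m) := by
  obtain ⟨l, hl, hle⟩ := L'.s1 t ht m3
  refine omc_segment_eq hz rfl ?_
  show dot (F.pt t (F.e2 (L'.sd m3))) (L.d m) = _
  rw [hle, dot_add, dot_smul, crs_perp h3]
  ring

/-- the strand `m3` crosses a part of the strand of `L` iff it crosses the strand -/
theorem crs_part (hn : 8 ≤ n) {m m3 : Fin 4} (hp : L'.Plus (L.d m))
    (hx : ∀ t u, t < n → u < n → t ≠ u →
      dot (F.pt t L.a) (L.d m) < dot (F.pt u L'.a) (L.d m))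
    (h3 : L'.d m3 = L.d (st m) ∨ L'.d m3 = - L.d (st m)) {s t : ℕ} (hs : In3 n m s)
    (ht : In3 n m t) :
    cr (F.sg t (L'.sd m3)) (L.cor m s, F.pt s (F.e2 (L.sd m))) =
      cr (F.sg t (L'.sd m3)) (F.sg s (L.sd m)) := by
  have hsn : s < n := by have := omc_in3_bd hs; omega
  have htn : t < n := by have := omc_in3_bd ht; omega
  have hb := crs_beyond hn hp hx (p := F.e1 (L'.sd m3))
    (fun s t u h1 h2 h3 => L'.sK m3 s t u h1 h2 h3) ht
  have hcor := L.cor_mem_strand (by omega) hs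
  have e : Xx (F.sg t (L'.sd m3)) (L.cor m s, F.pt s (F.e2 (L.sd m))) ↔
      Xx (F.sg t (L'.sd m3)) (F.sg s (L.sd m)) := by
    constructor
    · rintro ⟨z, hz1, hz2⟩
      exact ⟨z, hz1, omc_open_sub hcor hz2⟩
    · rintro ⟨z, hz1, hz2⟩
      refine ⟨z, hz1, ?_⟩
      have h1 := crs_const h3 htn (openSegment_subset_segment ℝ _ _ hz1)
      have h2 : dot (F.pt (eps n m) L.a) (L.d m) < dot z (L.d m) := by rw [h1]; exact hb
      obtain ⟨l, hl, hle⟩ := L.s1 s hsn m
      have hz2' : z ∈ openSegment ℝ (F.pt s (F.e1 (L.sd m))) (F.pt s (F.e2 (L.sd m))) := hz2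
      have hlt : dot (F.pt s (F.e1 (L.sd m))) (L.d m) <
          dot (F.pt s (F.e2 (L.sd m))) (L.d m) := by
        rw [hle, dot_add, dot_smul, L.W.unit m]
        linarith
      have h4 := omc_open_lt hz2' hlt
      have h5 : dot z (L.d (st m)) = dot (F.pt s (F.e1 (L.sd m))) (L.d (st m)) :=
        omc_segment_eq (openSegment_subset_segment ℝ _ _ hz2') rfl (L.omc_end_st hsn)
      show z ∈ openSegment ℝ (L.cor m s) (F.pt s (F.e2 (L.sd m)))
      have h6 := L.omc_cor_m m s
      have h7 := L.omc_cor_st m s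
      have h8 := L.omc_end_st (m := m) hsn
      refine L.omc_mem_open (st m) ?_ ?_ ?_ ?_
      · rw [h5, h7]
      · rw [h8, h7]
      · rw [st_st, h6]
        exact h2
      · rw [st_st]
        exact h4.2
  unfold cr
  by_cases h : Xx (F.sg t (L'.sd m3)) (F.sg s (L.sd m))
  · rw [if_pos h, if_pos (e.2 h)]
  · rw [if_neg h, if_neg (fun h' => h (e.1 h'))]

/-- no crossing with the part of the wall -/
theorem crs_wall (hn : 8 ≤ n) {m m3 : Fin 4} (hp : L'.Plus (L.d m))
    (hx : ∀ t u, t < n → u < n → t ≠ u →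
      dot (F.pt t L.a) (L.d m) < dot (F.pt u L'.a) (L.d m))
    (h3 : L'.d m3 = L.d (st m) ∨ L'.d m3 = - L.d (st m)) {s w t : ℕ}
    (ht : In3 n m t) : cr (F.sg t (L'.sd m3)) (L.cor m w, L.cor m s) = 0 := by
  have htn : t < n := by have := omc_in3_bd ht; omega
  have hb := crs_beyond hn hp hx (p := F.e1 (L'.sd m3))
    (fun s t u h1 h2 h3 => L'.sK m3 s t u h1 h2 h3) ht
  unfold cr
  rw [if_neg]
  rintro ⟨z, hz1, hz2⟩
  have h1 := crs_const h3 htn (openSegment_subset_segment ℝ _ _ hz1)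
  have h2 : dot z (L.d m) = dot (F.pt (eps n m) L.a) (L.d m) :=
    omc_segment_eq (openSegment_subset_segment ℝ _ _ hz2) (L.omc_cor_m m w) (L.omc_cor_m m s)
  linarith

/-- the path from `L'.a` through the strand `m3` to its hub -/
theorem crs_path (hn : 8 ≤ n) {m m3 : Fin 4} (hA : L.Alt m L'.a) (hp : L'.Plus (L.d m))
    (hx : ∀ t u, t < n → u < n → t ≠ u →
      dot (F.pt t L.a) (L.d m) < dot (F.pt u L'.a) (L.d m))
    (h3 : L'.d m3 = L.d (st m) ∨ L'.d m3 = - L.d (st m)) {s w t : ℕ} (hs : In3 n m s)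
    (hw : In3 n m w) (ht : In3 n m t) (hsw : s ≠ w) (hts : t ≠ s) (htw : t ≠ w) :
    L.kap m s w + btwn s w t + wp (L.Om m s w) (F.pt 0 (F.e2 (L'.bs m3))) =
      cr (F.sg t (L'.sd m3)) (F.sg s (L.sd m)) + cr (F.sg t (L'.sd m3)) (F.sg w (L.sd m)) := by
  obtain ⟨m1, hm1⟩ := hp.exists_m (v := L.d m) (by omega) (Or.inl rfl)
  have hhub := hubeq hn hA hm1 hp hx
  have hne : F.e2 (L'.bs m3) ≠ F.e2 (L.bs m) := by
    intro h
    have h1 : m3 = m1 := L'.bi _ _ (h.trans hhub.symm)
    subst h1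
    have h2 := crs_perp h3
    rw [hm1, L.W.unit m] at h2
    exact one_ne_zero h2
  have n1 : F.e1 (L'.sd m3) ≠ F.e2 (L.bs m) := by
    intro h
    exact (L'.s0 m3).1 (h ▸ L.bh m)
  have n2 : F.e2 (L'.sd m3) ≠ F.e2 (L.bs m) := by
    intro h
    exact (L'.s0 m3).2 (h ▸ F.hub_ver _ (L.bh m))
  have hA1 : L.Alt m (F.e1 (L'.sd m3)) :=
    Alt.conn (by omega) hA L' L'.IN_self (L'.conn_strand (by omega) m3)
  have e1 := L.omega_eq (by omega) hs hw ht hsw hts htw (σ := L'.sd m3) n1 n2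
  rw [hA1 s w t hs hw ht hsw hts htw, crs_part hn hp hx h3 hs ht, crs_part hn hp hx h3 hw ht,
    crs_wall hn hp hx h3 ht, add_zero] at e1
  have e2 := L.omega_inert (by omega) hs hw ht hsw hts htw (σ := L'.bs m3)
    (by rw [L'.b1]; exact n2) hne (F.hub_inert (by omega) (L'.bh m3))
  rw [L'.b1, F.hubc _ (L'.bh m3) t 0] at e2
  rw [e2] at e1
  exact e1

theorem crs_z {a b c e k : ZMod 2} (h1 : a + b = c + c) (h2 : a + 1 + b = e + k) (h : e = 0) :
    k = 1 := by
  revert a b c e k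
  decide

theorem crs_z' {a b c e k : ZMod 2} (h1 : a + b = c + c) (h2 : a + 1 + b = e + k) (h : k = 0) :
    e = 1 := by
  revert a b c e k
  decide

theorem crs_cr {s t s' t' : Pt × Pt} (h : Xx s t ↔ Xx s' t') : cr s t = cr s' t' := by
  unfold cr
  by_cases h1 : Xx s t
  · rw [if_pos h1, if_pos (h.1 h1)]
  · rw [if_neg h1, if_neg (fun h2 => h1 (h.2 h2))]

theorem crs_one {s t : Pt × Pt} (h : cr s t = 1) : Xx s t := by
  unfold cr at h
  by_contra h1
  rw [if_neg h1] at h
  exact zero_ne_one h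

theorem crs_zero {s t : Pt × Pt} (h : ¬ Xx s t) : cr s t = 0 := by
  unfold cr
  rw [if_neg h]

/-- five indices -/
theorem crs_idx (hn : 8 ≤ n) (m : Fin 4) : ∃ a b c e : ℕ, In3 n m a ∧ In3 n m b ∧ In3 n m c ∧
    In3 n m e ∧ prec m a b ∧ prec m b c ∧ prec m c e ∧ prec m a c ∧ prec m a e ∧ prec m b e := by
  by_cases h : m = 0 ∨ m = 2
  · refine ⟨1, 2, 3, 4, ?_, ?_, ?_, ?_, ?_, ?_, ?_, ?_, ?_, ?_⟩ <;>
      simp only [In3, prec, h, if_true] <;> omega
  · refine ⟨5, 4, 3, 2, ?_, ?_, ?_, ?_, ?_, ?_, ?_, ?_, ?_, ?_⟩ <;>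
      simp only [In3, prec, h, if_false] <;> omega

theorem crs_prec_ne {m : Fin 4} {s t : ℕ} (h : prec m s t) : s ≠ t := by
  unfold prec at h
  split_ifs at h <;> omega

/-- the start of the strand `m3` is interleaved with `L` -/
theorem crs_il (hn : 8 ≤ n) {m : Fin 4} (hp : L'.Plus (L.d m))
    (hI : F.Il (L.inc (st m)) L.a L'.a) {p : P} (hin : L'.IN p) :
    F.Il (L.inc (st m)) L.a p := by
  have hax : ax (L.d m) (L.inc (st m)) := by
    have h1 : ax (L.d m) (L.d (st m)) := by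
      rcases L.d_st m with h | h
      · exact Or.inr (Or.inl h)
      · exact Or.inr (Or.inr (Or.inr h))
    unfold inc
    split_ifs
    · exact h1
    · exact h1.neg
  have hg := L.Hg_inc (st m)
  have h2 := hp.il_of_IN (by omega) hin hax (hI.symm.self hg (by omega))
  exact hI.trans hg (by omega) h2

/-- the strand `m3` of `t` does not cross the strand of `s`, if it goes away from it -/
theorem crs_away (hn : 8 ≤ n) {m m3 : Fin 4} (hp : L'.Plus (L.d m))
    (hI : F.Il (L.inc (st m)) L.a L'.a) {s t : ℕ} (hs : s < n) (ht : t < n)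
    (h3 : (L'.d m3 = L.d (st m) ∧ prec m t s) ∨ (L'.d m3 = - L.d (st m) ∧ prec m s t)) :
    cr (F.sg t (L'.sd m3)) (F.sg s (L.sd m)) = 0 := by
  refine crs_zero ?_
  rintro ⟨z, hz1, hz2⟩
  obtain ⟨l, hl, hle⟩ := L'.s1 t ht m3
  have h0 := covl_level hn L (crs_il hn hp hI (p := F.e1 (L'.sd m3))
    (fun s t u h1 h2 h3 => L'.sK m3 s t u h1 h2 h3)) hs ht
  have hu : dot (L.d (st m)) (L.d (st m)) = 1 := L.W.unit (st m)
  have h5 : dot z (L.d (st m)) = dot (F.pt s (F.e1 (L.sd m))) (L.d (st m)) :=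
    omc_segment_eq (openSegment_subset_segment ℝ _ _ hz2) rfl (L.omc_end_st hs)
  have hz1' : z ∈ openSegment ℝ (F.pt t (F.e1 (L'.sd m3))) (F.pt t (F.e2 (L'.sd m3))) := hz1
  rcases h3 with ⟨h3, h4⟩ | ⟨h3, h4⟩
  · have h6 := h0.2 h4
    have h7 : dot (F.pt t (F.e1 (L'.sd m3))) (L.d (st m)) <
        dot (F.pt t (F.e2 (L'.sd m3))) (L.d (st m)) := by
      rw [hle, h3, dot_add, dot_smul, hu]
      linarith
    have h8 := (omc_open_lt hz1' h7).1
    linarith
  · have h6 := h0.1 h4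
    have h7 : dot (F.pt t (F.e2 (L'.sd m3))) (L.d (st m)) <
        dot (F.pt t (F.e1 (L'.sd m3))) (L.d (st m)) := by
      rw [hle, h3, dot_add, dot_smul, dot_neg, hu]
      linarith
    rw [openSegment_symm] at hz1'
    have h8 := (omc_open_lt hz1' h7).2
    linarith

/-- CRS. The vertical strands of `L'` cross the strands of `L`. Let `L'.d m3 = L.d (st m)`. If
`prec m s t` then the strand `m3` of `L'` of the cluster `t` crosses the strand `m` of `L` of the
cluster `s`. If `L'.d m3 = - L.d (st m)` the same for `prec m t s`.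

Proof. `hubeq` and `L'.bi`: the hub of `m3` is not the hub of `L.bs m` (there is `m1` with
`L'.d m1 = L.d m`, `m1 ≠ m3`). For `In3` indices `s, w, t` (`t ≠ s, w`, `s ≠ w`) consider the path from `L'.a`
through the strand `m3` to its hub: `omega_eq`; the strand is parallel to the wall `st m` of `x ε`, so
it does not cross it; it lies beyond this wall (`dot · (d m) > dot (x ε) (d m)` as in `hubeq`), so
it crosses the part of the strand of `s` between the corner and the end iff it crosses the strand.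
Let `U(t,s) = cr (sg t (L'.sd m3)) (sg s (L.sd m))`; by `homX` it depends only on whether `t < s` or
`s < t`. `Alt`: `U(t,s) + U(t,w) = kap m s w + btwn s w t + κ'(s,w)` with `κ'(s,w) = wp (Om m s w) hub`.
For fixed `s < w` take `t' < s` (or `t' > w`, what exists in `In3`; `n ≥ 8` gives 5 indices) and `t` between `s`
and `w`: `U(t',s) + U(t',w) = 0` (equal by homogeneity), so `kap = κ'`, and
`U(t,s) + U(t,w) = 1`. So exactly one of the two values of `U` is `1`. If `prec m t s` then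
the level `dot · (d (st m))` of the strand of `s` (`il_strand`) is less than the level of the start of the
strand `m3` of `t` (the start is confined in `L'`: `Plus.il_of_IN` and
`Il.trans` with `F.Il (L.inc (st m)) L.a L'.a` and `il_strand`), and along the strand
`m3` the level increases (`L'.d m3 = L.d (st m)`), so `U(t,s) = 0`. So `U(t,s) = 1` for
`prec m s t`. For `- L.d (st m)` symmetric. -/
theorem cross_strand (hn : 8 ≤ n) {m : Fin 4} (hA : L.Alt m L'.a)
    (hp : L'.Plus (L.d m)) (hI : F.Il (L.inc (st m)) L.a L'.a) (hx : ∀ t u, t < n → u < n → t ≠ u →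
      dot (F.pt t L.a) (L.d m) < dot (F.pt u L'.a) (L.d m)) {m3 : Fin 4} {t s : ℕ} (ht : t < n)
    (hs : s < n)
    (h3 : (L'.d m3 = L.d (st m) ∧ prec m s t) ∨ (L'.d m3 = - L.d (st m) ∧ prec m t s)) :
    Xx (F.sg t (L'.sd m3)) (F.sg s (L.sd m)) := by
  have hd : L'.d m3 = L.d (st m) ∨ L'.d m3 = - L.d (st m) := by
    rcases h3 with ⟨h, -⟩ | ⟨h, -⟩
    · exact Or.inl h
    · exact Or.inr h
  obtain ⟨a, b, c, e, ha, hb, hc, he, hab, hbc, hce, hac, hae, hbe⟩ := crs_idx hn m
  have han : a < n := by have := omc_in3_bd ha; omega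
  have hbn : b < n := by have := omc_in3_bd hb; omega
  have hcn : c < n := by have := omc_in3_bd hc; omega
  have hen : e < n := by have := omc_in3_bd he; omega
  have p1 := crs_path hn hA hp hx hd hb he ha (crs_prec_ne hbe) (crs_prec_ne hab)
    (crs_prec_ne hae)
  have p2 := crs_path hn hA hp hx hd hb he hc (crs_prec_ne hbe) (crs_prec_ne hbc).symm
    (crs_prec_ne hce)
  have b1 : btwn b e a = 0 := by
    unfold btwn
    rw [if_neg]
    rw [omc_btwn_iff m]
    rintro (⟨h, -⟩ | ⟨h, -⟩)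
    · unfold prec at h hab
      split_ifs at h hab <;> omega
    · unfold prec at h hae
      split_ifs at h hae <;> omega
  have b2 : btwn b e c = 1 := by
    unfold btwn
    rw [if_pos]
    rw [omc_btwn_iff m]
    exact Or.inl ⟨hbc, hce⟩
  rw [b1, add_zero, crs_cr (F.homXp m (σ := L'.sd m3) (τ := L.sd m) han hen han hbn hae hab)] at p1
  rw [b2] at p2
  refine crs_one ?_
  rcases h3 with ⟨h3, h4⟩ | ⟨h3, h4⟩
  · have h5 : cr (F.sg c (L'.sd m3)) (F.sg e (L.sd m)) = 0 :=
      crs_away hn hp hI hen hcn (Or.inl ⟨h3, hce⟩)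
    have h6 := crs_z' p1 p2 h5
    have h7 : Xx (F.sg c (L'.sd m3)) (F.sg b (L.sd m)) := crs_one h6
    rw [Fam.Xx_symm] at h7
    have h8 := (F.homXp m (σ := L.sd m) (τ := L'.sd m3) hbn hcn hs ht hbc h4).1 h7
    rw [Fam.Xx_symm] at h8
    unfold cr
    rw [if_pos h8]
  · have h5 : cr (F.sg c (L'.sd m3)) (F.sg b (L.sd m)) = 0 :=
      crs_away hn hp hI hbn hcn (Or.inr ⟨h3, hbc⟩)
    have h6 := crs_z p1 p2 h5
    have h7 : Xx (F.sg c (L'.sd m3)) (F.sg e (L.sd m)) := crs_one h6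
    have h8 := (F.homXp m (σ := L'.sd m3) (τ := L.sd m) hcn hen ht hs hce h4).1 h7
    unfold cr
    rw [if_pos h8]

end Lb
end Pool.Agent.RAC

/-!
# Coverage (piece COV)
-/

namespace Pool.Agent.RAC
namespace Lb

variable {n : ℕ} {P S E : Type} {F : Fam n P S E} {L L' : Lb F}

theorem cov_prec_or (m : Fin 4) {s t : ℕ} (h : t ≠ s) : prec m s t ∨ prec m t s := by
  unfold prec
  split_ifs <;> omega

/-- one vertical strand of `L'` lies before the end of the strand of `L` -/
theorem cov_aux (hn : 8 ≤ n) {m : Fin 4} (hA : L.Alt m L'.a)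
    (hp : L'.Plus (L.d m)) (hI : F.Il (L.inc (st m)) L.a L'.a) (hx : ∀ t u, t < n → u < n → t ≠ u →
      dot (F.pt t L.a) (L.d m) < dot (F.pt u L'.a) (L.d m)) {t s : ℕ} (ht : t < n) (hs : s < n)
    (hts : t ≠ s) :
    ∃ m3, dot (F.pt t (F.e1 (L'.sd m3))) (L.d m) < dot (F.pt s (F.e2 (L.sd m))) (L.d m) := by
  have hax : ax (L.d m) (L.d (st m)) := by
    rcases L.d_st m with h | h
    · exact Or.inr (Or.inl h)
    · exact Or.inr (Or.inr (Or.inr h))
  have hperp : dot (L.d (st m)) (L.d m) = 0 := by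
    rw [dot_comm]
    exact L.W.perp m
  obtain ⟨m3, h3, hd⟩ : ∃ m3, ((L'.d m3 = L.d (st m) ∧ prec m s t) ∨
      (L'.d m3 = - L.d (st m) ∧ prec m t s)) ∧ dot (L'.d m3) (L.d m) = 0 := by
    rcases cov_prec_or m hts with h | h
    · obtain ⟨m3, h3⟩ := hp.exists_m (by omega) hax
      exact ⟨m3, Or.inl ⟨h3, h⟩, by rw [h3, hperp]⟩
    · obtain ⟨m3, h3⟩ := hp.exists_m (by omega) hax.neg
      exact ⟨m3, Or.inr ⟨h3, h⟩, by rw [h3, dot_neg, hperp, neg_zero]⟩
  obtain ⟨z, hz1, hz2⟩ := cross_strand hn hA hp hI hx ht hs h3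
  refine ⟨m3, ?_⟩
  obtain ⟨l, -, hl⟩ := L'.s1 t ht m3
  obtain ⟨l', hl'0, hl'⟩ := L.s1 s hs m
  have e1 : dot z (L.d m) = dot (F.pt t (F.e1 (L'.sd m3))) (L.d m) := by
    refine omc_segment_eq (openSegment_subset_segment ℝ _ _ hz1) rfl ?_
    show dot (F.pt t (F.e2 (L'.sd m3))) (L.d m) = _
    rw [hl, dot_add, dot_smul, hd, mul_zero, add_zero]
  have e2 : dot (F.pt s (F.e1 (L.sd m))) (L.d m) < dot (F.pt s (F.e2 (L.sd m))) (L.d m) := by
    rw [hl', dot_add, dot_smul, L.W.unit, mul_one]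
    linarith
  have e3 := (omc_open_lt hz2 e2).2
  rw [← e1]
  exact e3

/-- COV. Coverage: the strands of `L` reach beyond the points of `L'`.

Proof. Let `t ≠ s`. By `cross_strand` (with `m3`: `L'.d m3 = ± L.d (st m)`, which exist by
`Plus.exists_m`) one of the vertical strands of `L'` of the cluster `t` crosses the strand `m` of `s`; the
crossing point has the coordinate `dot · (d m)` of the start `p' = e1 (L'.sd m3)` and lies on the strand
of `s`, so `dot (pt t p') (d m) < dot (pt s (e2 (L.sd m))) (d m)` for all `t ≠ s`. `p'` is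
confined in `L'`: with the vector `k ∈ {d m, - d m}` in which `L'` increases:
`F.Il k L'.a p'` (`Plus.il_of_IN`). Choose `t'` with `dot (pt t L'.a) (d m) < dot (pt t' p') (d m)`
(`t' > t` if `k = d m`, `t' < t` if `k = - d m`), `t' ≠ s`. This proves the claim for some pair
`t < s` and for some pair `t > s`, so by homogeneity (`Hg_d`) for all. -/
theorem cov (hn : 8 ≤ n) {m : Fin 4} (hA : L.Alt m L'.a)
    (hp : L'.Plus (L.d m)) (hI : F.Il (L.inc (st m)) L.a L'.a) (hx : ∀ t u, t < n → u < n → t ≠ u →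
      dot (F.pt t L.a) (L.d m) < dot (F.pt u L'.a) (L.d m)) {t s : ℕ} (ht : t < n) (hs : s < n)
    (hts : t ≠ s) :
    dot (F.pt t L'.a) (L.d m) < dot (F.pt s (F.e2 (L.sd m))) (L.d m) := by
  have hIN : ∀ m3, L'.IN (F.e1 (L'.sd m3)) := fun m3 a b c h1 h2 h3 => L'.sK m3 a b c h1 h2 h3
  have haux : ∀ a b : ℕ, a < n → b < n → a ≠ b →
      ∃ m3, dot (F.pt a (F.e1 (L'.sd m3))) (L.d m) < dot (F.pt b (F.e2 (L.sd m))) (L.d m) :=
    fun a b h1 h2 h3 => cov_aux hn hA hp hI hx h1 h2 h3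
  have hax : ax (L.d m) (L.d m) := Or.inl rfl
  have key : (∃ a b, a < b ∧ b < n ∧
      dot (F.pt a L'.a) (L.d m) < dot (F.pt b (F.e2 (L.sd m))) (L.d m)) ∧
      (∃ a b, b < a ∧ a < n ∧
        dot (F.pt a L'.a) (L.d m) < dot (F.pt b (F.e2 (L.sd m))) (L.d m)) := by
    rcases hp.il (by omega) hax with hk | hk
    · have hk' : ∀ m3 a b, a < b → b < n →
          dot (F.pt a L'.a) (L.d m) < dot (F.pt b (F.e1 (L'.sd m3))) (L.d m) :=
        fun m3 a b h1 h2 => ((hp.il_of_IN (by omega) (hIN m3) hax hk) a b h1 h2).1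
      obtain ⟨m3, h3⟩ := haux 1 2 (by omega) (by omega) (by omega)
      obtain ⟨m4, h4⟩ := haux 2 0 (by omega) (by omega) (by omega)
      exact ⟨⟨0, 2, by omega, by omega, (hk' m3 0 1 (by omega) (by omega)).trans h3⟩,
        ⟨1, 0, by omega, by omega, (hk' m4 1 2 (by omega) (by omega)).trans h4⟩⟩
    · have hk' : ∀ m3 a b, a < b → b < n →
          dot (F.pt b L'.a) (L.d m) < dot (F.pt a (F.e1 (L'.sd m3))) (L.d m) := by
        intro m3 a b h1 h2
        have := ((hp.il_of_IN (by omega) (hIN m3) hax.neg hk) a b h1 h2).2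
        rw [dot_neg', dot_neg'] at this
        linarith
      obtain ⟨m3, h3⟩ := haux 0 2 (by omega) (by omega) (by omega)
      obtain ⟨m4, h4⟩ := haux 1 0 (by omega) (by omega) (by omega)
      exact ⟨⟨1, 2, by omega, by omega, (hk' m3 0 1 (by omega) (by omega)).trans h3⟩,
        ⟨2, 0, by omega, by omega, (hk' m4 1 2 (by omega) (by omega)).trans h4⟩⟩
  obtain ⟨⟨a, b, hab, hb, h1⟩, ⟨a', b', hab', hb', h2⟩⟩ := key
  rcases Nat.lt_or_gt_of_ne hts with h | h
  · exact ((L.Hg_d m) L'.a (F.e2 (L.sd m)) a b t s hab hb h hs).1.1 h1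
  · exact ((L.Hg_d m) L'.a (F.e2 (L.sd m)) b' a' s t hab' hb' h ht).2.1 h2

end Lb
end Pool.Agent.RAC
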