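import Pool.Agent.Lib_MP_638f75_lc.H.HF

/-!
# Paths between linked labels (piece HPA)
-/

namespace Pool.Agent.RAC
namespace Lb

variable {n : ℕ} {P S E : Type} {F : Fam n P S E} {f : Pt}

/-- an inert path which starts in the cells of an interleaved label is a path in the strip -/
theorem hpa_conn (hn : 8 ≤ n) {L0 M : Lb F} (h0 : L0.Plus f) (hM : M.Plus f) {m : Fin 4}
    (hI : F.Il (L0.inc (st m)) L0.a M.a) {p q : P} (hp : M.IN p) (hc : F.Conn p q) :
    Relation.ReflTransGen (HStep L0 m) p q := by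
  have hg : F.Hg (L0.inc (st m)) := L0.Hg_inc (st m)
  have hax : ax f (L0.inc (st m)) := by
    unfold inc
    split_ifs
    · exact h0.mem (st m)
    · exact (h0.mem (st m)).neg
  have hself : F.Il (L0.inc (st m)) M.a M.a := hI.symm.self hg (by omega)
  induction hc with
  | refl => exact Relation.ReflTransGen.refl
  | @tail b c hab hbc ih =>
    refine ih.tail ?_
    have hc' : M.IN c := M.IN_of_Conn hp (Relation.ReflTransGen.tail hab hbc)
    refine ⟨fun hh => M.not_IN_hub (by omega) hh hc', ?_, Or.inl hbc⟩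
    exact hI.trans hg (by omega) (hM.il_of_IN (by omega) hc' hax hself)

/-- the direction vectors of a frame which are not perpendicular are parallel -/
theorem hpa_par {v w : Pt} (h : ax v w) (hd : dot w v ≠ 0) : w = v ∨ w = - v := by
  rcases h with h | h | h | h
  · exact Or.inl h
  · exfalso
    apply hd
    rw [h]
    simp [dot, J]
    ring
  · exact Or.inr h
  · exfalso
    apply hd
    rw [h]
    simp [dot, J]
    ring

theorem hpa_inc (L : Lb F) (k : Fin 4) : L.inc k = L.d k ∨ L.inc k = - L.d k := by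
  unfold inc
  split_ifs
  · exact Or.inl rfl
  · exact Or.inr rfl

theorem hpa_J_neg (v : Pt) : J (-v) = - J v := by ext <;> simp [J]

/-- the direction of the levels is determined up to the sign -/
theorem hpa_lev {L0 L : Lb F} {m m1 : Fin 4} (h : L.d m1 = L0.d m ∨ L.d m1 = - L0.d m) :
    L.inc (st m1) = L0.inc (st m) ∨ L.inc (st m1) = - L0.inc (st m) := by
  have key : L.d (st m1) = L0.d (st m) ∨ L.d (st m1) = - L0.d (st m) := by
    rcases L.d_st m1 with h1 | h1 <;> rcases L0.d_st m with h2 | h2 <;> rcases h with h3 | h3 <;>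
      rw [h1, h2, h3] <;> simp [hpa_J_neg]
  rcases hpa_inc L (st m1) with h1 | h1 <;> rcases hpa_inc L0 (st m) with h2 | h2 <;>
    rcases key with h3 | h3 <;> rw [h1, h2, h3] <;> simp

/-- HPA. A link whose middle segment is not perpendicular to `L0.d m` continues a path in the strip of
`L0` of the direction `m`.

Proof. `g = L0.inc (st m)`. `F.Il g L.a L.a` (`Il.self`). If `L.SC L'` (`Lk.frame`): `μ` has both ends
confined in `L'` (`SC.IN`), so it is inert (`conf_inert`); all points of the path `L.a → p → q → L'.a` are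
confined in `L` or in `L'` (`IN_of_Conn` for the initial parts; for the last part from `q`), so not
hubs (`not_IN_hub`), and interleaved with `L.a` resp. `L'.a` in the direction `g`
(`Plus.il_of_IN`), hence with `L0.a` (`Il.trans`; `SC.il` for `L'`). Otherwise `Out L p q m1`, `Out L' q p m1'`; `μ` is
parallel to `L.d m1`, which is a vector of the frame and not perpendicular to `L0.d m`, so
`L.d m1 = ± L0.d m`, and `μ` is perpendicular to `L0.d (st m)` in every cluster. By `Out.il` with
`L.inc (st m1)`, which is `± g`, and `= g` by `Il.not_neg` (`il_inc`): `F.Il g L.a p`, `F.Il g L.a q`,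
`F.Il g L.a L'.a`. The other points are confined in `L` or `L'` as before. (`L'.Plus f` by `Lk.plus`.) -/
theorem Lk.hpath (hn : 8 ≤ n) {L0 L L' : Lb F} {μ : S} {p q : P} (h : Lk L L' μ p q)
    (h0 : L0.Plus f) (hL : L.Plus f) {m : Fin 4} (hI : F.Il (L0.inc (st m)) L0.a L.a)
    (hμ : ∃ t, t < n ∧ dot (F.dir t μ) (L0.d m) ≠ 0) :
    Relation.ReflTransGen (HStep L0 m) L.a L'.a ∧ F.Il (L0.inc (st m)) L0.a L'.a := by
  have hn3 : 3 ≤ n := by omega
  have hg : F.Hg (L0.inc (st m)) := L0.Hg_inc (st m)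
  have hax : ax f (L0.inc (st m)) := by
    rcases hpa_inc L0 (st m) with h1 | h1 <;> rw [h1]
    · exact h0.mem (st m)
    · exact (h0.mem (st m)).neg
  have hself : F.Il (L0.inc (st m)) L.a L.a := hI.symm.self hg hn3
  have hL' : L'.Plus f := h.plus hn hL
  have hpath1 : Relation.ReflTransGen (HStep L0 m) L.a p :=
    hpa_conn hn h0 hL hI L.IN_self h.cp
  have hqh : ¬ F.hub q := fun hh => L'.not_IN_hub (by omega) hh h.q1
  rcases h.frame hn with hs | ⟨m1, m1', ho, ho', hd, -, -⟩
  · have hI' : F.Il (L0.inc (st m)) L0.a L'.a := hI.trans hg hn3 (hs.il hL hn3 hax hself)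
    refine ⟨?_, hI'⟩
    have hself' : F.Il (L0.inc (st m)) L'.a L'.a := hI'.symm.self hg hn3
    have hp' : L'.IN p := hs.IN (by omega) h.p1
    have hin : F.Inert μ := by
      rcases h.ends with ⟨h1, h2⟩ | ⟨h1, h2⟩
      · exact L'.conf_inert (by omega) (h1 ▸ hp') (h2 ▸ h.q1)
      · exact L'.conf_inert (by omega) (h1 ▸ h.q1) (h2 ▸ hp')
    have hst : HStep L0 m p q :=
      ⟨hqh, hI'.trans hg hn3 (hL'.il_of_IN hn3 h.q1 hax hself'), Or.inl ⟨μ, hin, h.ends⟩⟩
    exact (hpath1.tail hst).trans (hpa_conn hn h0 hL' hI' h.q1 h.cq)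
  · -- the middle segment is parallel to `L.d m1`
    have hdir : ∀ t, t < n → ∃ l : ℝ, F.dir t μ = l • L.d m1 := by
      intro t ht
      obtain ⟨l, -, hl⟩ := ho.dir t ht
      rcases h.ends with ⟨h1, h2⟩ | ⟨h1, h2⟩
      · exact ⟨l, by rw [Fam.dir, h1, h2, hl]⟩
      · refine ⟨-l, ?_⟩
        rw [Fam.dir, h1, h2, neg_smul, ← hl]
        abel
    have hne : dot (L.d m1) (L0.d m) ≠ 0 := by
      intro h1
      obtain ⟨t, ht, h2⟩ := hμ
      obtain ⟨l, hl⟩ := hdir t ht
      apply h2
      rw [hl, dot_smul, h1, mul_zero]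
    have hpar : L.d m1 = L0.d m ∨ L.d m1 = - L0.d m :=
      hpa_par ((h0.mem m).symm.trans (hL.mem m1)) hne
    have hperp : dot (L0.d m) (L0.d (st m)) = 0 := L0.W.perp m
    have hperp' : dot (L.d m1) (L0.d (st m)) = 0 := by
      rcases hpar with h1 | h1 <;> rw [h1]
      · exact hperp
      · rw [dot_neg, hperp, neg_zero]
    have hlev : L.inc (st m1) = L0.inc (st m) := by
      rcases hpa_lev hpar with h1 | h1
      · exact h1
      · exfalso
        have h2 := L.il_inc (st m1)
        rw [h1] at h2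
        have h3 := (hself 0 1 (by omega) (by omega)).1
        have h4 := (h2 0 1 (by omega) (by omega)).1
        rw [dot_neg', dot_neg'] at h4
        linarith
    obtain ⟨h1, h2, h3⟩ := Out.il hn h ho ho' hd
    rw [hlev] at h1 h2 h3
    have hI' : F.Il (L0.inc (st m)) L0.a L'.a := hI.trans hg hn3 h3
    refine ⟨?_, hI'⟩
    have hst : HStep L0 m p q := by
      refine ⟨hqh, hI.trans hg hn3 h2, Or.inr ⟨μ, h.ends, fun t ht => ?_⟩⟩
      obtain ⟨l, hl⟩ := hdir t ht
      rw [hl, dot_smul, hperp', mul_zero]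
    exact (hpath1.tail hst).trans (hpa_conn hn h0 hL' hI' h.q1 h.cq)

end Lb
end Pool.Agent.RAC

/-!
# Coverage along a path (piece RNG)
-/

namespace Pool.Agent.RAC
namespace Lb

variable {n : ℕ} {P S E : Type} {F : Fam n P S E} {f : Pt}

/-- The strands of `L` in the directions `g`, `- g` reach beyond all confined points of `L'` of the
same cluster (inner clusters only). -/
def Rg (g : Pt) (L L' : Lb F) : Prop := ∀ m, (L.d m = g ∨ L.d m = - g) → ∀ p, L'.IN p →
  ∀ t, 0 < t → t + 1 < n → dot (F.pt t p) (L.d m) < dot (F.pt t (F.e2 (L.sd m))) (L.d m)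

/-- RNG. Coverage along a path.

Proof. `F.Il (L.inc (st m)) L.a L'.a` (last step of the path, or `il_inc`). `xd` with
`g := L.inc (st m)`, `k := L.d m`. (a) `SC`: `L.IN p`, choose `v` with `prec m t v`; `IN_lt`, `slong`.
(b) `L'` is beyond `L`: `covl`: the first alternative contradicts the separation (`t ≠ eps n m`), so
`Alt`, and `cov`: `dot (pt v L'.a) (d m) < dot (pt t (e2 (sd m))) (d m)` for `v ≠ t`; with `m2` such that
`L'.d m2 = L.d m` (`exists_m`), `prec m2 t v`: `dot (pt t p) (d m) < dot (pt v L'.a) (d m)`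
(`IN_lt`). (c) `L'` is before `L`: `dot (pt t p) (d m) < dot (pt v L'.a) (d m) < dot (pt t L.a) (d m)`
and `slong`. -/
theorem range (hn : 8 ≤ n) {L L' : Lb F} (h : L.Plus f) (h' : L'.Plus f) {m : Fin 4}
    (hpath : Relation.ReflTransGen (HStep L m) L.a L'.a) {p : P} (hp : L'.IN p) {t : ℕ}
    (h0 : 0 < t) (h1 : t + 1 < n) :
    dot (F.pt t p) (L.d m) < dot (F.pt t (F.e2 (L.sd m))) (L.d m) := by
  have hprec : ∀ m : Fin 4, ∃ v, v < n ∧ v ≠ t ∧ prec m t v := by
    intro m
    by_cases hm : m = 0 ∨ m = 2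
    · exact ⟨t + 1, h1, by omega, by unfold prec; rw [if_pos hm]; omega⟩
    · exact ⟨t - 1, by omega, by omega, by unfold prec; rw [if_neg hm]; omega⟩
  have htn : t < n := by omega
  have hI : F.Il (L.inc (st m)) L.a L'.a := by
    rcases hpath.cases_tail with h2 | ⟨c, -, h2⟩
    · rw [h2]; exact L.il_inc (st m)
    · exact h2.2.1
  have hg : ax f (L.inc (st m)) := by
    unfold inc
    split_ifs
    · exact h.mem (st m)
    · exact (h.mem (st m)).neg
  have hk : ax f (L.d m) := h.mem m
  have hgk : dot (L.inc (st m)) (L.d m) = 0 := by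
    unfold inc
    split_ifs
    · rw [dot_comm]; exact L.W.perp m
    · rw [dot_neg, dot_comm, L.W.perp m, neg_zero]
  obtain ⟨m2, hm2⟩ := h'.exists_m (by omega) hk
  obtain ⟨v2, hv2, hv2t, hp2⟩ := hprec m2
  have hlt2 := L'.IN_lt (by omega) hp m2 htn hv2 hp2
  rw [hm2] at hlt2
  rcases xd (by omega) h h' hg hk hgk hI with hs | hs | hs
  · have hpL : L.IN p := SC.IN (by omega) hs.symm hp
    obtain ⟨v, hv, -, hpv⟩ := hprec m
    exact (L.IN_lt (by omega) hpL m htn hv hpv).trans (L.slong t v htn hv m)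
  · have hA : L.Alt m L'.a := by
      rcases covl hn hpath with ⟨h2, -⟩ | ⟨-, h2⟩
      · exfalso
        obtain ⟨u, hu3, hu⟩ : ∃ u, In3 n m u ∧ u < n := by
          by_cases hm : m = 0 ∨ m = 2
          · exact ⟨3, by unfold In3; split_ifs <;> omega, by omega⟩
          · exact ⟨4, by unfold In3; split_ifs <;> omega, by omega⟩
        have h3 := h2 u hu3
        have h4 := hs (eps n m) u (omc_eps_lt (by omega) m) hu
          (by unfold eps; unfold In3 at hu3; split_ifs at hu3 ⊢ <;> omega)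
        linarith
      · exact h2
    exact hlt2.trans (cov hn hA (h'.of_ax hk) hI hs hv2 htn hv2t)
  · have h2 := hs t v2 htn hv2 (Ne.symm hv2t)
    exact (hlt2.trans h2).trans (L.slong t t htn htn m)

end Lb
end Pool.Agent.RAC

/-!
# Three linked labels (piece TRI)
-/

namespace Pool.Agent.RAC
namespace Lb

variable {n : ℕ} {P S E : Type} {F : Fam n P S E} {f : Pt}

/-- Three labels `u, w, c` in the frame of `g`, interleaved in the direction perpendicular to `g`, whose
strands in the directions `± g` cover each other. -/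
structure Tri (g : Pt) (u w c : Lb F) : Prop where
  pu : u.Plus g
  pw : w.Plus g
  pc : c.Plus g
  il : ∃ e, (e = J g ∨ e = - J g) ∧ F.Il e u.a w.a ∧ F.Il e u.a c.a
  rg : ∀ x y : Lb F, (x = u ∨ x = w ∨ x = c) → (y = u ∨ y = w ∨ y = c) → Rg g x y

theorem tri_dot_ne {g v a : Pt} (h : a = g ∨ a = - g) (hv : dot v g ≠ 0) : dot v a ≠ 0 := by
  rcases h with h | h
  · rwa [h]
  · rw [h, dot_neg']
    exact neg_ne_zero.2 hv

/-- one link -/
theorem tri_link1 (hn : 8 ≤ n) {x y : Lb F} {μ : S} {p q : P} {g : Pt} (h : Lk x y μ p q)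
    (hx : x.Plus g) (hμ : ∃ t, t < n ∧ dot (F.dir t μ) g ≠ 0) (m : Fin 4)
    (hm : x.d m = g ∨ x.d m = - g) :
    Relation.ReflTransGen (HStep x m) x.a y.a ∧ F.Il (x.inc (st m)) x.a y.a := by
  obtain ⟨t, ht, hne⟩ := hμ
  exact Lk.hpath hn h hx hx (x.il_inc (st m)) ⟨t, ht, tri_dot_ne hm hne⟩

/-- two links -/
theorem tri_link2 (hn : 8 ≤ n) {x y z : Lb F} {μ μ' : S} {p q p' q' : P} {g : Pt}
    (h : Lk x y μ p q) (h' : Lk y z μ' p' q') (hx : x.Plus g)
    (hμ : ∃ t, t < n ∧ dot (F.dir t μ) g ≠ 0) (hμ' : ∃ t, t < n ∧ dot (F.dir t μ') g ≠ 0)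
    (m : Fin 4) (hm : x.d m = g ∨ x.d m = - g) :
    Relation.ReflTransGen (HStep x m) x.a z.a := by
  obtain ⟨h1, h2⟩ := tri_link1 hn h hx hμ m hm
  obtain ⟨t, ht, hne⟩ := hμ'
  exact h1.trans (Lk.hpath hn h' hx (Lk.plus hn h hx) h2 ⟨t, ht, tri_dot_ne hm hne⟩).1

theorem tri_rg (hn : 8 ≤ n) {x y : Lb F} {g : Pt} (hx : x.Plus g) (hy : y.Plus g)
    (hp : ∀ m, (x.d m = g ∨ x.d m = - g) → Relation.ReflTransGen (HStep x m) x.a y.a) :
    Rg g x y :=
  fun m hm _ hq _ h0 h1 => range hn hx hy (hp m hm) hq h0 h1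

/-- TRI. Two links with middle segments which are not perpendicular to `g`.

Proof. All three are in the frame of `f` (`Lk.plus`), hence of `g` (`Plus.of_ax`). For `x, y` in
`{u, w, c}` and `m` with `x.d m = ± g`: there is a path `HStep x m` from `x.a` to `y.a`: `Lk.hpath` for the
links (or `Lk.symm`) on the way from `x` to `y` (the path is empty if `x = y`, one link if `x` or `y` is
`u`, else two links through `u`); start with `F.Il (x.inc (st m)) x.a x.a` (`il_inc`). Then `range`. `il`:
`e = u.inc (st m)` for `u.d m = g` (`d_st`). -/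
theorem tri (hn : 8 ≤ n) {u w c : Lb F} {μ μ' : S} {p q p' q' : P} (h : Lk u w μ p q)
    (h' : Lk u c μ' p' q') (hf : u.Plus f) {g : Pt} (hg : ax f g)
    (hμ : ∃ t, t < n ∧ dot (F.dir t μ) g ≠ 0) (hμ' : ∃ t, t < n ∧ dot (F.dir t μ') g ≠ 0) :
    Tri g u w c := by
  have pu : u.Plus g := hf.of_ax hg
  have pw : w.Plus g := Lk.plus hn h pu
  have pc : c.Plus g := Lk.plus hn h' pu
  refine ⟨pu, pw, pc, ?_, ?_⟩
  · obtain ⟨m, hm⟩ := pu.exists_m (by omega) (v := g) (Or.inl rfl)
    refine ⟨u.inc (st m), ?_, (tri_link1 hn h pu hμ m (Or.inl hm)).2,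
      (tri_link1 hn h' pu hμ' m (Or.inl hm)).2⟩
    have h1 := u.d_st m
    rw [hm] at h1
    unfold inc
    split_ifs
    · exact h1
    · rcases h1 with h1 | h1
      · right; rw [h1]
      · left; rw [h1, neg_neg]
  · rintro x y (rfl | rfl | rfl) (rfl | rfl | rfl)
    · exact tri_rg hn pu pu fun m hm => Relation.ReflTransGen.refl
    · exact tri_rg hn pu pw fun m hm => (tri_link1 hn h pu hμ m hm).1
    · exact tri_rg hn pu pc fun m hm => (tri_link1 hn h' pu hμ' m hm).1
    · exact tri_rg hn pw pu fun m hm => (tri_link1 hn h.symm pw hμ m hm).1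
    · exact tri_rg hn pw pw fun m hm => Relation.ReflTransGen.refl
    · exact tri_rg hn pw pc fun m hm => tri_link2 hn h.symm h' pw hμ hμ' m hm
    · exact tri_rg hn pc pu fun m hm => (tri_link1 hn h'.symm pc hμ' m hm).1
    · exact tri_rg hn pc pw fun m hm => tri_link2 hn h'.symm h pc hμ' hμ m hm
    · exact tri_rg hn pc pc fun m hm => Relation.ReflTransGen.refl

theorem tri_idx {m m' : Fin 4} {t : ℕ} (h0 : 1 < t) (h1 : t + 2 < n) :
    ∃ v v', v < n ∧ v' < n ∧ prec m t v ∧ prec m' t v' ∧ v ≠ v' := by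
  by_cases hm : m = 0 ∨ m = 2
  · by_cases hm' : m' = 0 ∨ m' = 2
    · refine ⟨t + 1, t + 2, by omega, by omega, ?_, ?_, by omega⟩
      · unfold prec; rw [if_pos hm]; omega
      · unfold prec; rw [if_pos hm']; omega
    · refine ⟨t + 1, t - 1, by omega, by omega, ?_, ?_, by omega⟩
      · unfold prec; rw [if_pos hm]; omega
      · unfold prec; rw [if_neg hm']; omega
  · by_cases hm' : m' = 0 ∨ m' = 2
    · refine ⟨t - 1, t + 1, by omega, by omega, ?_, ?_, by omega⟩
      · unfold prec; rw [if_neg hm]; omega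
      · unfold prec; rw [if_pos hm']; omega
    · refine ⟨t - 1, t - 2, by omega, by omega, ?_, ?_, by omega⟩
      · unfold prec; rw [if_neg hm]; omega
      · unfold prec; rw [if_neg hm']; omega

theorem tri_sep (hn : 8 ≤ n) {x y : Lb F} {g : Pt} (hx : x.Plus g) (hy : y.Plus g)
    (hs : ∀ t u, t < n → u < n → t ≠ u → dot (F.pt t x.a) g < dot (F.pt u y.a) g) {t : ℕ}
    (h0 : 1 < t) (h1 : t + 2 < n) {p q : P} (hp : x.IN p) (hq : y.IN q) :
    dot (F.pt t p) g < dot (F.pt t q) g := by
  obtain ⟨m, hm⟩ := hx.exists_m (by omega) (v := g) (Or.inl rfl)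
  obtain ⟨m', hm'⟩ := hy.exists_m (by omega) (v := - g) (Or.inr (Or.inr (Or.inl rfl)))
  obtain ⟨v, v', hv, hv', h2, h3, h4⟩ := tri_idx (n := n) (m := m) (m' := m') h0 h1
  have e1 := x.IN_lt (by omega) hp m (by omega) hv h2
  have e2 := y.IN_lt (by omega) hq m' (by omega) hv' h3
  rw [hm] at e1
  rw [hm', dot_neg', dot_neg'] at e2
  have e3 := hs v v' hv hv' h4
  linarith

/-- TRI. separation of the confined points of two labels of the frame: same cells or disjoint ranges of
the coordinate in the direction `g`, in the same (inner) cluster.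

Proof. `xd` for the directions `e` (`il`) and `g`. If `∀ t ≠ u, pt t x.a < pt u y.a` in the
direction `g`: `p` confined in `x`: with `m` such that `x.d m = g` and `prec m t v`:
`pt t p < pt v x.a`; with `y.d m' = - g` and `prec m' t v'`: `pt v' y.a < pt t q`; choose
`v ≠ v'` if possible (`v, v' ∈ {t-1, t+1}`); if `v = v'` use `xd_self` for ... : choose `v'` two steps away
instead: `0 < t - 1` etc.; the hypotheses `1 < t`, `t + 2 < n` give two indices on both sides, so `v ≠ v'`
can be chosen. -/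
theorem Tri.sep (hn : 8 ≤ n) {g : Pt} {u w c : Lb F} (h : Tri g u w c) {x y : Lb F}
    (hx : x = u ∨ x = w ∨ x = c) (hy : y = u ∨ y = w ∨ y = c) {t : ℕ} (h0 : 1 < t)
    (h1 : t + 2 < n) :
    x.SC y ∨ (∀ p q, x.IN p → y.IN q → dot (F.pt t p) g < dot (F.pt t q) g) ∨
      (∀ p q, x.IN p → y.IN q → dot (F.pt t q) g < dot (F.pt t p) g) := by
  obtain ⟨e, he, i1, i2⟩ := h.il
  have hpl : ∀ x : Lb F, (x = u ∨ x = w ∨ x = c) → x.Plus g := by
    rintro x (rfl | rfl | rfl)
    · exact h.pu
    · exact h.pw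
    · exact h.pc
  have hae : ax g e := by
    rcases he with he | he
    · exact Or.inr (Or.inl he)
    · exact Or.inr (Or.inr (Or.inr he))
  have hge : dot e g = 0 := by
    rcases he with he | he
    · rw [he, dot_comm, dot_J]
    · rw [he, dot_neg, dot_comm, dot_J, neg_zero]
  have hHg : F.Hg e := h.pu.hg (by omega) hae
  have hu : ∀ x : Lb F, (x = u ∨ x = w ∨ x = c) → F.Il e u.a x.a := by
    rintro x (rfl | rfl | rfl)
    · exact i1.self hHg (by omega)
    · exact i1
    · exact i2
  have hI : F.Il e x.a y.a := (hu x hx).symm.trans hHg (by omega) (hu y hy)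
  rcases xd (by omega) (hpl x hx) (hpl y hy) hae (Or.inl rfl) hge hI with h2 | h2 | h2
  · exact Or.inl h2
  · exact Or.inr (Or.inl fun p q hp hq =>
      tri_sep hn (hpl x hx) (hpl y hy) h2 h0 h1 hp hq)
  · exact Or.inr (Or.inr fun p q hp hq =>
      tri_sep hn (hpl y hy) (hpl x hx) (fun t u ht hu htu => h2 u t hu ht (Ne.symm htu)) h0 h1
        hq hp)

/-- TRI. permutations -/
theorem Tri.swap {g : Pt} {u w c : Lb F} (hn : 3 ≤ n) (h : Tri g u w c) : Tri g u c w := by
  refine ⟨h.pu, h.pc, h.pw, ?_, fun x y hx hy => h.rg x y ?_ ?_⟩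
  · obtain ⟨e, he, i1, i2⟩ := h.il
    exact ⟨e, he, i2, i1⟩
  · tauto
  · tauto

end Lb
end Pool.Agent.RAC

/-!
# The line through a point of a label (piece SID)
-/

namespace Pool.Agent.RAC
namespace Lb

variable {n : ℕ} {P S E : Type} {F : Fam n P S E} {f : Pt}

theorem sid_ivt {A B c0 : ℝ} (h : (A - c0) * (B - c0) ≤ 0) :
    ∃ s : ℝ, 0 ≤ s ∧ s ≤ 1 ∧ (1 - s) * A + s * B = c0 := by
  by_cases hAB : A = B
  · subst hAB
    have h0 : (A - c0) * (A - c0) = 0 := le_antisymm h (mul_self_nonneg _)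
    have h1 : A - c0 = 0 := mul_self_eq_zero.1 h0
    exact ⟨0, le_rfl, zero_le_one, by linarith⟩
  · have hne : B - A ≠ 0 := fun h0 => hAB (by linarith)
    have key : (c0 - A) / (B - A) * (B - A) = c0 - A := div_mul_cancel₀ _ hne
    refine ⟨(c0 - A) / (B - A), ?_, ?_, by linarith⟩
    · rcases lt_or_gt_of_ne hAB with hlt | hlt
      · apply div_nonneg _ (by linarith)
        by_contra hc
        have h1 : c0 < A := by linarith [not_le.1 hc]
        nlinarith
      · apply div_nonneg_of_nonpos _ (by linarith)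
        by_contra hc
        have h1 : A < c0 := by linarith [not_le.1 hc]
        nlinarith
    · rcases lt_or_gt_of_ne hAB with hlt | hlt
      · rw [div_le_one (by linarith)]
        by_contra hc
        have h1 : B < c0 := by linarith [not_le.1 hc]
        nlinarith
      · rw [div_le_one_of_neg (by linarith)]
        by_contra hc
        have h1 : c0 < B := by linarith [not_le.1 hc]
        nlinarith

/-- a vector without component in the direction `J g` is a multiple of `g` -/
theorem sid_par {g v : Pt} (hg : dot g g = 1) (hv : dot v (J g) = 0) : v = dot v g • g := by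
  simp only [dot, J] at hg hv
  refine Prod.ext ?_ ?_
  · simp only [dot, Prod.smul_fst, smul_eq_mul]
    linear_combination (-v.1) * hg - g.2 * hv
  · simp only [dot, Prod.smul_snd, smul_eq_mul]
    linear_combination (-v.2) * hg + g.1 * hv

/-- SID. A segment of the same cluster which is not perpendicular to `g` does not cross the line
through the point of `c` in the direction `g`, as far as this line is covered by the walls.

Proof. Otherwise there is a point `z` of the segment with `dot z (J g) = dot (pt t c.a) (J g)`, and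
`z = pt t c.a + l • g`; choose `m` with `c.d m = g` if `l ≥ 0`, `c.d m = - g` if `l < 0` (`exists_m`). By
the range hypothesis (`dot_segment_lt`) `z` lies on the wall `m`. `F.same`: `c.a` is not an end
point of `σ`, `e2 (c.w m)` is not a vertex, so the segments are perpendicular, contradiction. -/
theorem side {c : Lb F} (hn : 2 ≤ n) {g : Pt} (hc : c.Plus g) {σ : S}
    (he : ∀ m, F.ed σ ≠ F.ed (c.w m))
    (h1 : F.e1 σ ≠ c.a) (h2 : F.e2 σ ≠ c.a) {t : ℕ} (ht : t < n)
    (hr1 : ∀ m, (c.d m = g ∨ c.d m = -g) →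
      dot (F.pt t (F.e1 σ)) (c.d m) < dot (F.pt t (F.e2 (c.w m))) (c.d m))
    (hr2 : ∀ m, (c.d m = g ∨ c.d m = -g) →
      dot (F.pt t (F.e2 σ)) (c.d m) < dot (F.pt t (F.e2 (c.w m))) (c.d m))
    (hv : dot (F.dir t σ) g ≠ 0) :
    0 < (dot (F.pt t (F.e1 σ)) (J g) - dot (F.pt t c.a) (J g)) *
      (dot (F.pt t (F.e2 σ)) (J g) - dot (F.pt t c.a) (J g)) := by
  by_contra hcon
  obtain ⟨s, hs0, hs1, hs⟩ := sid_ivt (not_lt.1 hcon)
  have hgg : dot g g = 1 := hc.unit
  set x : Pt := F.pt t c.a with hx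
  set z : Pt := (1 - s) • F.pt t (F.e1 σ) + s • F.pt t (F.e2 σ) with hz
  have hzs : z ∈ segment ℝ (F.pt t (F.e1 σ)) (F.pt t (F.e2 σ)) :=
    ⟨1 - s, s, by linarith, hs0, by ring, rfl⟩
  have hzJ : dot z (J g) = dot x (J g) := by
    rw [hz, dot_add, dot_smul, dot_smul]
    exact hs
  have hzx : dot (z - x) (J g) = 0 := by
    rw [dot_sub, hzJ, sub_self]
  have hpar := sid_par hgg hzx
  -- the main step for a wall
  have main : ∀ (m : Fin 4) (l : ℝ), 0 ≤ l → (c.d m = g ∨ c.d m = -g) → z = x + l • c.d m → False := by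
    intro m l hl hm hzl
    obtain ⟨L, hL, hLe⟩ := c.W.wall t ht m
    have hun : dot (c.d m) (c.d m) = 1 := c.W.unit m
    have hlt := dot_segment_lt hzs (hr1 m hm) (hr2 m hm)
    have hLe' : F.pt t (F.e2 (c.w m)) = x + L • c.d m := hLe
    rw [hLe', hzl, dot_add, dot_add, dot_smul, dot_smul, hun] at hlt
    have hlL : l < L := by linarith
    have hzw : z ∈ segment ℝ (F.pt t (F.e1 (c.w m))) (F.pt t (F.e2 (c.w m))) := by
      rw [c.w1 m, hLe', ← hx]
      refine ⟨1 - l / L, l / L, ?_, by positivity, by ring, ?_⟩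
      · rw [sub_nonneg, div_le_one hL]
        exact hlL.le
      · rw [hzl]
        have e : l / L * L = l := div_mul_cancel₀ _ hL.ne'
        refine Prod.ext ?_ ?_
        · simp only [Prod.fst_add, Prod.smul_fst, smul_eq_mul]
          linear_combination (c.d m).1 * e
        · simp only [Prod.snd_add, Prod.smul_snd, smul_eq_mul]
          linear_combination (c.d m).2 * e
    rcases F.same t ht σ (c.w m) (he m) z hzs hzw with ⟨p, hp, hp1, hp2, -⟩ | ⟨-, -, hperp⟩
    · rcases hp2 with h | h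
      · rw [c.w1 m] at h
        rcases hp1 with h' | h'
        · exact h1 (h' ▸ h)
        · exact h2 (h' ▸ h)
      · rw [h] at hp
        exact c.w2 m hp
    · rw [c.w1 m, hLe', ← hx, add_sub_cancel_left, dot_smul'] at hperp
      have hp3 : dot (F.pt t (F.e2 σ) - F.pt t (F.e1 σ)) (c.d m) = 0 := by
        rcases mul_eq_zero.1 hperp with h | h
        · exact absurd h hL.ne'
        · exact h
      apply hv
      rcases hm with h | h
      · rw [h] at hp3
        exact hp3
      · rw [h, dot_neg'] at hp3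
        exact neg_eq_zero.1 hp3
  rcases le_or_gt 0 (dot (z - x) g) with hl | hl
  · obtain ⟨m, hm⟩ := hc.exists_m hn (v := g) (Or.inl rfl)
    refine main m (dot (z - x) g) hl (Or.inl hm) ?_
    rw [hm, ← hpar]
    abel
  · obtain ⟨m, hm⟩ := hc.exists_m hn (v := -g) (Or.inr (Or.inr (Or.inl rfl)))
    refine main m (-dot (z - x) g) (by linarith) (Or.inr hm) ?_
    rw [hm, smul_neg, neg_smul, neg_neg, ← hpar]
    abel

end Lb
end Pool.Agent.RAC
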