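import Pool.Agent.Lib_MP_638f75_lc.H.HF

/-!
# Forward and backward sectors inside a cell (piece SECA)
-/

namespace Pool.Agent.RAC

private theorem seca_d2 {n : ℕ} {x : ℕ → Pt} {d : Fin 4 → Pt} {e : ℕ → Fin 4 → Pt}
    (W : Walls n x d e) (v : Pt) :
    dot v (d 2) = dot v (d 1) * dot (d 0) (d 3) - dot v (d 0) * dot (d 1) (d 3) := by
  have u0 := W.unit 0
  have r1 := W.rot1
  have r3 := W.rot3
  rw [r3, r1]
  simp only [dot, J, Prod.fst_neg, Prod.snd_neg, neg_neg] at *
  linear_combination (-(v.1 * (d 2).1 + v.2 * (d 2).2)) * u0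

private theorem seca_d3 {n : ℕ} {x : ℕ → Pt} {d : Fin 4 → Pt} {e : ℕ → Fin 4 → Pt}
    (W : Walls n x d e) (v : Pt) :
    dot v (d 3) = dot v (d 0) * dot (d 0) (d 3) + dot v (d 1) * dot (d 1) (d 3) := by
  have u0 := W.unit 0
  have r1 := W.rot1
  rw [r1]
  simp only [dot, J, Prod.fst_neg, Prod.snd_neg, neg_neg] at *
  linear_combination (-(v.1 * (d 3).1 + v.2 * (d 3).2)) * u0

/-- SECA. The closed left and right quadrants of a point have only this point in common.
(`v = z - w = p d0 + q d1`, `p, q ≥ 0`, `a = d0·d3 < 0`, `b = d1·d3`: `v·d3 = p a + q b ≥ 0`,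
`v·d2 = q a - p b ≥ 0`; `p` times the first plus `q` times the second: `(p² + q²) a ≥ 0`.) -/
theorem Walls.lr_self {n : ℕ} {x : ℕ → Pt} {d : Fin 4 → Pt} {e : ℕ → Fin 4 → Pt}
    (W : Walls n x d e) (hn : 2 ≤ n) {w z : Pt} (h : ∀ m, dot w (d m) ≤ dot z (d m)) : z = w := by
  have ha : dot (d 0) (d 3) < 0 := W.obtuse hn 0
  have e2 := seca_d2 W (z - w)
  have e3 := seca_d3 W (z - w)
  have h0 : 0 ≤ dot (z - w) (d 0) := by rw [dot_sub]; linarith [h 0]
  have h1 : 0 ≤ dot (z - w) (d 1) := by rw [dot_sub]; linarith [h 1]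
  have h2 : 0 ≤ dot (z - w) (d 2) := by rw [dot_sub]; linarith [h 2]
  have h3 : 0 ≤ dot (z - w) (d 3) := by rw [dot_sub]; linarith [h 3]
  rw [e2] at h2
  rw [e3] at h3
  have hx := W.expand 0 (z - w)
  have hst : st 0 = 1 := rfl
  rw [hst] at hx
  generalize dot (z - w) (d 0) = p at *
  generalize dot (z - w) (d 1) = q at *
  generalize dot (d 0) (d 3) = a at *
  generalize dot (d 1) (d 3) = b at *
  have k1 := mul_nonneg h0 h3
  have k2 := mul_nonneg h1 h2
  have k3 : 0 ≤ (p * p + q * q) * a := by nlinarith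
  have k4 : p * p + q * q = 0 := by
    by_contra hc
    have : 0 < p * p + q * q :=
      lt_of_le_of_ne (add_nonneg (mul_self_nonneg p) (mul_self_nonneg q)) (Ne.symm hc)
    have := mul_neg_of_pos_of_neg this ha
    linarith
  have hp : p = 0 := by nlinarith [mul_self_nonneg p, mul_self_nonneg q]
  have hq : q = 0 := by nlinarith [mul_self_nonneg p, mul_self_nonneg q]
  rw [hp, hq, zero_smul, zero_smul, add_zero] at hx
  exact sub_eq_zero.1 hx

namespace Lb

variable {n : ℕ} {P S E : Type} {F : Fam n P S E}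

/-- the open backward (`b = true`: bounded by the walls `1`, `3`) and forward (`b = false`: bounded by
the walls `0`, `2`) sector of the point of the label in the cluster `t` -/
def Sec (L : Lb F) (b : Bool) (t : ℕ) (z : Pt) : Prop :=
  ∀ m : Fin 4, (m = 0 ∨ m = 2 ↔ b = true) → dot z (L.d m) < dot (F.pt t L.a) (L.d m)

/-- SECA. `Walls.fb_disj` -/
theorem Sec.disj (L : Lb F) (hn : 2 ≤ n) {b : Bool} {t : ℕ} {z : Pt} (h : L.Sec b t z)
    (h' : L.Sec (!b) t z) : False := by
  cases b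
  · refine L.W.fb_disj hn (w := F.pt t L.a) (z := z) ?_ ?_ ?_ ?_
    · exact h' 0 (by simp)
    · exact h' 2 (by simp)
    · exact h 1 (by simp)
    · exact h 3 (by simp)
  · refine L.W.fb_disj hn (w := F.pt t L.a) (z := z) ?_ ?_ ?_ ?_
    · exact h 0 (by simp)
    · exact h 2 (by simp)
    · exact h' 1 (by simp)
    · exact h' 3 (by simp)

/-- SECA. same directions -/
theorem Sec.asymm {L L' : Lb F} (hs : ∀ m, L.d m = L'.d m) {b : Bool} {t : ℕ}
    (h : L.Sec b t (F.pt t L'.a)) (h' : L'.Sec b t (F.pt t L.a)) : False := by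
  obtain ⟨m, hm⟩ : ∃ m : Fin 4, (m = 0 ∨ m = 2 ↔ b = true) := by
    cases b
    · exact ⟨1, by simp⟩
    · exact ⟨0, by simp⟩
  have a := h m hm
  have c := h' m hm
  rw [← hs m] at c
  exact lt_asymm a c

/-- SECA. same directions -/
theorem Sec.trans {L L' : Lb F} (hs : ∀ m, L.d m = L'.d m) {b : Bool} {t : ℕ} {z : Pt}
    (h : L.Sec b t (F.pt t L'.a)) (h' : L'.Sec b t z) : L.Sec b t z := by
  intro m hm
  have a := h m hm
  have c := h' m hm
  rw [← hs m] at c
  exact c.trans a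

/-- SECA. Leaving a sector of the label `L` of the same cluster: `Walls.exit_sector` for `w = pt t L.a`,
`g m = pt t (e2 (L.w m))`. Legality: `F.same` (the edges are different; the end `e2 (L.w m)` of a wall is
not a vertex and `L.a` is not an end of `σ`). Range: for a confined point `p`
`dot (pt t p) (d m) < dot (pt v L.a) (d m) < dot (pt t (e2 (w m))) (d m)` for a `v` with `prec m t v`
(`IN_lt`, `Walls.long`). -/
theorem exit_sec (L : Lb F) (hn : 3 ≤ n) {b : Bool} {σ : S} {p q : P}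
    (hpq : (F.e1 σ = p ∧ F.e2 σ = q) ∨ (F.e1 σ = q ∧ F.e2 σ = p)) (hp : L.IN p) (hq : L.IN q)
    (hpa : p ≠ L.a) (hqa : q ≠ L.a) (he : ∀ m, F.ed σ ≠ F.ed (L.w m)) {t : ℕ} (h0 : 0 < t)
    (h1 : t + 1 < n) (hP : L.Sec b t (F.pt t p)) (hQ : ¬ L.Sec b t (F.pt t q)) :
    ∃ m : Fin 4, (m = 0 ∨ m = 2 ↔ b = true) ∧
      (∃ l : ℝ, 0 < l ∧ F.pt t q - F.pt t p = l • L.d m) ∧
      dot (F.pt t L.a) (L.d m) ≤ dot (F.pt t q) (L.d m) ∧
      dot (F.pt t L.a) (L.d (st m)) < dot (F.pt t q) (L.d (st m)) := by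
  have ht : t < n := by omega
  have hrng : ∀ r : P, L.IN r → ∀ m, dot (F.pt t r) (L.d m) <
      dot (F.pt t (F.e2 (L.w m))) (L.d m) := by
    intro r hr m
    obtain ⟨v, hv, hpv⟩ : ∃ v, v < n ∧ prec m t v := by
      by_cases hm : m = 0 ∨ m = 2
      · exact ⟨t + 1, h1, by unfold prec; rw [if_pos hm]; omega⟩
      · exact ⟨t - 1, by omega, by unfold prec; rw [if_neg hm]; omega⟩
    exact (L.IN_lt (by omega) hr m ht hv hpv).trans (L.W.long t v ht hv m)
  refine L.W.exit_sector (by omega) b (w := F.pt t L.a) (g := fun m => F.pt t (F.e2 (L.w m)))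
    (fun m => L.W.wall t ht m) hP hQ (fun m => ⟨hrng p hp m, hrng q hq m⟩) ?_
  intro m z hz hz'
  have hz1 : z ∈ segment ℝ (F.pt t (F.e1 σ)) (F.pt t (F.e2 σ)) := by
    rcases hpq with ⟨e1, e2⟩ | ⟨e1, e2⟩
    · rw [e1, e2]; exact hz
    · rw [e1, e2, segment_symm]; exact hz
  have hz2 : z ∈ segment ℝ (F.pt t (F.e1 (L.w m))) (F.pt t (F.e2 (L.w m))) := by
    rw [L.w1 m]; exact hz'
  rcases F.same t ht σ (L.w m) (he m) z hz1 hz2 with ⟨r, hr, hr1, hr2, -⟩ | ⟨-, h4, h5⟩
  · exfalso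
    have hra : r = L.a := by
      rcases hr2 with h | h
      · rw [h, L.w1 m]
      · rw [h] at hr; exact absurd hr (L.w2 m)
    rw [hra] at hr1
    rcases hpq with ⟨e1, e2⟩ | ⟨e1, e2⟩
    · rcases hr1 with h | h
      · exact hpa (by rw [← e1, ← h])
      · exact hqa (by rw [← e2, ← h])
    · rcases hr1 with h | h
      · exact hqa (by rw [← e1, ← h])
      · exact hpa (by rw [← e2, ← h])
  · rw [L.w1 m] at h4 h5
    refine ⟨h4, ?_⟩
    rcases hpq with ⟨e1, e2⟩ | ⟨e1, e2⟩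
    · rw [e1, e2] at h5; exact h5
    · rw [e1, e2] at h5
      have e : F.pt t q - F.pt t p = -(F.pt t p - F.pt t q) := by abel
      rw [e, dot_neg, h5, neg_zero]

/-- SECA. If the frame is not rectangular then one segment cannot lead from one sector to the other
one: by `exit_sec` for `p q` and for `q p` (`Sec.disj`) its direction is `d m` and `- d m'` with
`m ∈ {0, 2}`, `m' ∈ {1, 3}` or conversely; `d m = - d m'` is impossible for `m' = st m`
(perpendicular), and for `m' = op (st m)` it gives `d 3 = - d 0` or `d 2 = - d 1` (the latter implies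
`d 3 = - J (d 2) = J (d 1) = - d 0`), so `d 1 · d 3 = 0`. -/
theorem seg_sec (L : Lb F) (hn : 3 ≤ n) (hk : dot (L.d 1) (L.d 3) ≠ 0) {b : Bool} {σ : S} {p q : P}
    (hpq : (F.e1 σ = p ∧ F.e2 σ = q) ∨ (F.e1 σ = q ∧ F.e2 σ = p)) (hp : L.IN p) (hq : L.IN q)
    (hpa : p ≠ L.a) (hqa : q ≠ L.a) (he : ∀ m, F.ed σ ≠ F.ed (L.w m)) {t : ℕ} (h0 : 0 < t)
    (h1 : t + 1 < n) (hP : L.Sec b t (F.pt t p)) (hQ : L.Sec (!b) t (F.pt t q)) : False := by
  obtain ⟨m, hm, ⟨l, hl, hl1⟩, -, -⟩ := L.exit_sec hn hpq hp hq hpa hqa he h0 h1 hP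
    (fun h => h.disj L (by omega) hQ)
  obtain ⟨m', hm', ⟨l', hl', hl1'⟩, -, -⟩ := L.exit_sec hn (Or.symm hpq) hq hp hqa hpa he h0 h1 hQ
    (fun h => hP.disj L (by omega) h)
  have hu := L.W.unit m
  have hu' := L.W.unit m'
  have hneg : l • L.d m = - (l' • L.d m') := by
    rw [← hl1, ← hl1']; abel
  have hll : l = - l' * dot (L.d m) (L.d m') := by
    have := congrArg (fun v => dot v (L.d m)) hneg
    simp only [dot_smul, dot_neg, hu] at this
    rw [dot_comm (L.d m) (L.d m')]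
    linarith
  have hll' : l * dot (L.d m) (L.d m') = - l' := by
    have := congrArg (fun v => dot v (L.d m')) hneg
    simp only [dot_smul, dot_neg, hu'] at this
    linarith
  have hsq : l = l' := by
    have e1 : l * l = l' * l' := by
      have : l * (l * dot (L.d m) (L.d m')) = - l * l' := by rw [hll']; ring
      have e2 : l * l = - l' * (l * dot (L.d m) (L.d m')) := by
        nth_rewrite 2 [hll]; ring
      rw [hll'] at e2
      linarith
    nlinarith
  subst hsq
  have hd : L.d m = - L.d m' := by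
    have h3 : l • L.d m = l • (- L.d m') := by rw [hneg, smul_neg]
    exact smul_right_injective Pt hl.ne' h3
  -- the possible pairs
  have hr1 := L.W.rot1
  have hr3 := L.W.rot3
  have hob : ∀ v : Pt, dot v (J v) = 0 := by intro v; simp [dot, J]; ring
  have key03 : L.d 0 ≠ - L.d 3 := by
    intro h
    apply hk
    have h3 : L.d 3 = - L.d 0 := by rw [h, neg_neg]
    rw [h3, hr1, dot_neg', dot_comm, hob, neg_zero]
  have key12 : L.d 1 ≠ - L.d 2 := by
    intro h
    apply hk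
    have h3 : L.d 3 = J (L.d 1) := by
      rw [hr3, h]
      ext <;> simp [J]
    rw [h3, hob]
  have p01 : dot (L.d 0) (L.d 1) = 0 := L.W.perp 0
  have p23 : dot (L.d 2) (L.d 3) = 0 := L.W.perp 2
  have k01 : L.d 0 ≠ - L.d 1 := by
    intro h
    rw [h, dot_neg, L.W.unit 1] at p01
    norm_num at p01
  have k23 : L.d 2 ≠ - L.d 3 := by
    intro h
    rw [h, dot_neg, L.W.unit 3] at p23
    norm_num at p23
  have neg_swap : ∀ u v : Pt, u = - v → v = - u := by
    intro u v h; rw [h, neg_neg]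
  cases b
  · fin_cases m <;> simp at hm <;> fin_cases m' <;> simp at hm'
    · exact k01 (neg_swap _ _ hd)
    · exact key12 hd
    · exact key03 (neg_swap _ _ hd)
    · exact k23 (neg_swap _ _ hd)
  · fin_cases m <;> simp at hm <;> fin_cases m' <;> simp at hm'
    · exact k01 hd
    · exact key03 hd
    · exact key12 (neg_swap _ _ hd)
    · exact k23 hd

/-- SECA. End segments of a label with the same cells do not leave the sector (`exit_sec`, `end_dir`:
the directions `L.d m = L'.d m` are not possible; `end_conf`). -/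
theorem end_sec {L L' : Lb F} (hn : 4 ≤ n) (hs : L.SC L') {b : Bool} {σ : S}
    (h1 : F.e1 σ = L'.a) (he' : ∀ m, F.ed σ ≠ F.ed (L'.w m)) (he : ∀ m, F.ed σ ≠ F.ed (L.w m))
    (hpa : L'.a ≠ L.a) (hqa : F.e2 σ ≠ L.a) {t : ℕ} (h0 : 0 < t)
    (h2 : t + 1 < n) (hP : L.Sec b t (F.pt t L'.a)) : L.Sec b t (F.pt t (F.e2 σ)) := by
  by_contra hc
  obtain ⟨m, -, ⟨l, hl, hl1⟩, -, -⟩ := L.exit_sec (by omega) (σ := σ) (p := L'.a) (q := F.e2 σ)
    (Or.inl ⟨h1, rfl⟩) (hs.IN_a hn) (hs.symm.IN hn (L'.end_conf h1 he')) hpa hqa he h0 h2 hP hc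
  rw [hs.1 m] at hl1
  exact L'.end_dir h1 he' (by omega) m hl hl1

end Lb
end Pool.Agent.RAC

/-!
# Labels with the same non-rectangular cells are linearly ordered (piece SECT)
-/

namespace Pool.Agent.RAC

theorem sect_mem {x v : Pt} {l k : ℝ} (hl : 0 < l) (hk : 0 ≤ k) (hkl : k ≤ l) :
    x + k • v ∈ segment ℝ x (x + l • v) := by
  refine ⟨1 - k / l, k / l, ?_, by positivity, by ring, ?_⟩
  · rw [sub_nonneg, div_le_one hl]
    exact hkl
  · have h9 : k • v = (k / l) • (l • v) := by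
      rw [smul_smul]
      congr 1
      field_simp
    rw [h9]
    module

theorem sect_wall {n : ℕ} {x : ℕ → Pt} {d : Fin 4 → Pt} {e : ℕ → Fin 4 → Pt}
    (W : Walls n x d e) {v : ℕ} (hv : v < n) (m : Fin 4) {z : Pt}
    (h1 : dot z (d (st m)) = dot (x v) (d (st m))) (h2 : dot (x v) (d m) ≤ dot z (d m))
    (h3 : dot z (d m) < dot (e v m) (d m)) : z ∈ segment ℝ (x v) (e v m) := by
  obtain ⟨l, hl, he⟩ := W.wall v hv m
  have h4 := W.expand m (z - x v)
  rw [dot_sub, dot_sub, h1, sub_self, zero_smul, add_zero] at h4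
  have h5 : dot (e v m) (d m) = dot (x v) (d m) + l := by
    rw [he, dot_add, dot_smul, W.unit m, mul_one]
  have h8 : z = x v + (dot z (d m) - dot (x v) (d m)) • d m := by
    rw [← h4]
    abel
  rw [h8, he]
  exact sect_mem hl (by linarith) (by linarith)

theorem sect_q {n : ℕ} {x : ℕ → Pt} {d : Fin 4 → Pt} {e : ℕ → Fin 4 → Pt} (W : Walls n x d e)
    {i v : ℕ} (hi : i < n) (hv : v < n) (hiv : i ≠ v) {k j : Fin 4} (hk1 : j ≠ k)
    (hk2 : j ≠ st k) {z : Pt} (a0 : dot (x i) (d k) ≤ dot z (d k))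
    (a1 : dot (x i) (d (st k)) ≤ dot z (d (st k))) (b0 : dot (x v) (d j) ≤ dot z (d j))
    (b1 : dot (x v) (d (st j)) ≤ dot z (d (st j))) : False := by
  have key : ((k = 0 ∨ k = 1) ∧ (j = 2 ∨ j = 3)) ∨ ((k = 2 ∨ k = 3) ∧ (j = 0 ∨ j = 1)) := by
    revert k j
    intro k j
    fin_cases k <;> fin_cases j <;> simp [st]
  have s0 : st 0 = 1 := rfl
  have s1 : st 1 = 0 := rfl
  have s2 : st 2 = 3 := rfl
  have s3 : st 3 = 2 := rfl
  rcases key with ⟨rfl | rfl, rfl | rfl⟩ | ⟨rfl | rfl, rfl | rfl⟩ <;>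
    simp only [s0, s1, s2, s3] at a0 a1 b0 b1
  · exact W.lr_disj_x hi hv hiv a0 a1 b0 b1
  · exact W.lr_disj_x hi hv hiv a0 a1 b1 b0
  · exact W.lr_disj_x hi hv hiv a1 a0 b0 b1
  · exact W.lr_disj_x hi hv hiv a1 a0 b1 b0
  · exact W.lr_disj_x hv hi hiv.symm b0 b1 a0 a1
  · exact W.lr_disj_x hv hi hiv.symm b1 b0 a0 a1
  · exact W.lr_disj_x hv hi hiv.symm b0 b1 a1 a0
  · exact W.lr_disj_x hv hi hiv.symm b1 b0 a1 a0

theorem sect_idx {n t : ℕ} (h0 : 1 < t) (h1 : t + 2 < n) (j : Fin 4) :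
    ∃ v v' : ℕ, v < n ∧ v' < n ∧ t ≠ v ∧ prec j t v ∧ prec j v v' := by
  unfold prec
  by_cases h : j = 0 ∨ j = 2
  · simp only [h, if_true]
    exact ⟨t + 1, t + 2, by omega, by omega, by omega, by omega, by omega⟩
  · simp only [h, if_false]
    exact ⟨t - 1, t - 2, by omega, by omega, by omega, by omega, by omega⟩

theorem sect_real {A B α β s : ℝ} (hA : 0 ≤ A) (hB : 0 ≤ B) (hα : α < 0) (hβ : β < 0)
    (h : A + s * α < 0 ∨ B + s * β < 0) :
    (∃ r, 0 ≤ r ∧ r ≤ s ∧ A + r * α = 0 ∧ 0 ≤ B + r * β) ∨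
      (∃ r, 0 ≤ r ∧ r ≤ s ∧ B + r * β = 0 ∧ 0 ≤ A + r * α) := by
  have e1 : A + A / (-α) * α = 0 := by
    have := div_mul_cancel₀ A (show -α ≠ 0 by linarith)
    linarith
  have e2 : B + B / (-β) * β = 0 := by
    have := div_mul_cancel₀ B (show -β ≠ 0 by linarith)
    linarith
  have p1 : 0 ≤ A / (-α) := div_nonneg hA (by linarith)
  have p2 : 0 ≤ B / (-β) := div_nonneg hB (by linarith)
  rcases le_total (A / (-α)) (B / (-β)) with hle | hle
  · left
    refine ⟨A / (-α), p1, ?_, e1, by nlinarith⟩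
    rcases h with h | h
    · by_contra hc
      push Not at hc
      nlinarith
    · by_contra hc
      push Not at hc
      nlinarith
  · right
    refine ⟨B / (-β), p2, ?_, e2, by nlinarith⟩
    rcases h with h | h
    · by_contra hc
      push Not at hc
      nlinarith
    · by_contra hc
      push Not at hc
      nlinarith

namespace Lb

variable {n : ℕ} {P S E : Type} {F : Fam n P S E}

theorem sect_hit {L L' : Lb F} (hs : L.SC L') (hne : L.a ≠ L'.a)
    (he : ∀ m m', F.ed (L.w m) ≠ F.ed (L'.w m')) {t : ℕ} (h0 : 1 < t) (h1 : t + 2 < n)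
    {k j : Fin 4} (hj : dot (L.d j) (L.d (st k)) < 0) {s l : ℝ} (hs0 : 0 ≤ s) (hsl : s ≤ l)
    (hl : 0 < l) (hw : F.pt t (F.e2 (L'.w j)) = F.pt t L'.a + l • L.d j)
    (e0 : dot (F.pt t L'.a + s • L.d j) (L.d k) = dot (F.pt t L.a) (L.d k))
    (e1 : dot (F.pt t L.a) (L.d (st k)) ≤ dot (F.pt t L'.a + s • L.d j) (L.d (st k))) :
    False := by
  have ht : t < n := by omega
  obtain ⟨v, v', hv, hv', htv, hp, hp'⟩ := sect_idx h0 h1 (st k)
  have c1 := (hs.2 (st k) t v ht hv hp).2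
  have c2 := L.W.long t v ht hv (st k)
  have c3 : dot (F.pt t L'.a + s • L.d j) (L.d (st k)) ≤ dot (F.pt t L'.a) (L.d (st k)) := by
    rw [dot_add, dot_smul]
    nlinarith
  have hz1 : F.pt t L'.a + s • L.d j ∈ segment ℝ (F.pt t L.a) (F.pt t (F.e2 (L.w (st k)))) := by
    refine sect_wall L.W ht (st k) ?_ e1 (by linarith)
    rw [st_st]
    exact e0
  have hz2 : F.pt t L'.a + s • L.d j ∈ segment ℝ (F.pt t L'.a) (F.pt t (F.e2 (L'.w j))) := by
    rw [hw]
    exact sect_mem hl hs0 hsl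
  obtain ⟨l2, hl2, hw2⟩ := L.W.wall t ht (st k)
  rcases F.same t ht (L'.w j) (L.w (st k)) (fun h => he _ _ h.symm) (F.pt t L'.a + s • L.d j)
    (by rw [L'.w1]; exact hz2) (by rw [L.w1]; exact hz1) with ⟨p, hp1, hp2, hp3, -⟩ | ⟨-, -, hd⟩
  · rcases hp2 with rfl | rfl
    · rcases hp3 with h | h
      · rw [L.w1, L'.w1] at h
        exact hne h.symm
      · exact L.w2 _ (h ▸ hp1)
    · exact L'.w2 _ hp1
  · rw [L.w1, L'.w1, hw, hw2, add_sub_cancel_left, add_sub_cancel_left, dot_smul, dot_smul'] at hd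
    rcases mul_eq_zero.1 hd with h | h
    · linarith
    · rcases mul_eq_zero.1 h with h | h
      · linarith
      · linarith

theorem sect_quad {L L' : Lb F} (hs : L.SC L') (hne : L.a ≠ L'.a)
    (he : ∀ m m', F.ed (L.w m) ≠ F.ed (L'.w m')) {t : ℕ} (h0 : 1 < t) (h1 : t + 2 < n)
    {k j : Fin 4} (hk1 : j ≠ k) (hk2 : j ≠ st k) (hj : dot (L.d j) (L.d k) < 0)
    (hj' : dot (L.d j) (L.d (st k)) < 0)
    (a0 : dot (F.pt t L.a) (L.d k) ≤ dot (F.pt t L'.a) (L.d k))
    (a1 : dot (F.pt t L.a) (L.d (st k)) ≤ dot (F.pt t L'.a) (L.d (st k))) : False := by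
  have ht : t < n := by omega
  obtain ⟨v, v', hv, hv', htv, hp, hp'⟩ := sect_idx h0 h1 j
  obtain ⟨l, hl, hw⟩ := L'.W.wall t ht j
  rw [← hs.1 j] at hw
  have b1 := (hs.2 j t v ht hv hp).2
  have b2 := (hs.2 j v v' hv hv' hp').1
  have b3 := L'.W.long t v' ht hv' j
  have b4 := (hs.2 (st j) v t hv ht (prec_st.2 hp)).1
  rw [← hs.1 j, hw, dot_add, dot_smul, L.W.unit j, mul_one] at b3
  have b5 := L.W.perp j
  -- the point with the coordinate of `v`
  set s := dot (F.pt v L.a) (L.d j) - dot (F.pt t L'.a) (L.d j) with hsd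
  have s0 : 0 < s := by linarith
  have s1 : s < l := by linarith
  have hq := fun c0 c1 => sect_q L.W ht hv htv hk1 hk2 (z := F.pt t L'.a + s • L.d j) c0 c1
    (by rw [dot_add, dot_smul, L.W.unit j]; linarith)
    (by rw [dot_add, dot_smul, b5]; linarith)
  have hor : (dot (F.pt t L'.a) (L.d k) - dot (F.pt t L.a) (L.d k)) + s * dot (L.d j) (L.d k) < 0 ∨
      (dot (F.pt t L'.a) (L.d (st k)) - dot (F.pt t L.a) (L.d (st k))) +
        s * dot (L.d j) (L.d (st k)) < 0 := by
    by_contra hc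
    push Not at hc
    refine hq ?_ ?_
    · rw [dot_add, dot_smul]; linarith [hc.1]
    · rw [dot_add, dot_smul]; linarith [hc.2]
  rcases sect_real (by linarith) (by linarith) hj hj' hor with ⟨r, r0, r1, r2, r3⟩ | ⟨r, r0, r1, r2, r3⟩
  · refine sect_hit hs hne he h0 h1 (k := k) hj' r0 (by linarith) hl hw ?_ ?_
    · rw [dot_add, dot_smul]; linarith
    · rw [dot_add, dot_smul]; linarith
  · refine sect_hit hs hne he h0 h1 (k := st k) (by rw [st_st]; exact hj) r0 (by linarith) hl hw ?_ ?_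
    · rw [dot_add, dot_smul]; linarith
    · rw [dot_add, dot_smul, st_st]; linarith

/-- SECT. Two labels with the same cells which are not rectangular: in the cluster `t` the second one
lies in the forward or in the backward sector of the first one.

Proof. By `Walls.sectors` it suffices that `x' = pt t L'.a` is not in the closed left or right quadrant of
`x = pt t L.a`. Let `a = d0·d3 = d1·d2 < 0`, `b = d1·d3 ≠ 0`, `d0·d2 = - b`. Suppose `x'` is in the closed
left quadrant. Let `j = 2` if `b > 0`, `j = 3` if `b < 0`; then `d j · d 0 < 0` and `d j · d 1 < 0`. Let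
`v` be the neighbour of `t` with `prec j t v`, and `z` the point of the wall `j` of `x'` with
`c_j z = c_j (pt v L.a)`: `c_j x' < c_j (pt v L.a)` (`SC`) and
`c_j (pt v L.a) < c_j (pt t (e2 (L'.w j)))` (`SC` and `long`: take `v'` with `prec j v v'` if it exists; if not, use that
`c_j (pt v L.a) < ...`: choose `v` to be any index with `prec j t v` such that there is one more index
beyond it, or compare in the other way: `c_j (pt v L.a) < c_j (pt v' L'.a)` for `prec j v v'`).
`z` is in the closed right quadrant of `pt v L.a` (`c_(st j) z = c_(st j) x' > c_(st j) (pt v L.a)` by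
`SC`, `prec (st j) v t`). By `lr_disj_x` (left quadrant of `x`, right quadrant of `pt v L.a`) `z` is not in
the closed left quadrant of `x`. So there is a point `z'` of the wall `j` of `x'` where the wall leaves
the closed left quadrant of `x`, i.e. `z'` is on the ray `d 0` or on the ray `d 1` from `x`
(`c_1 z' = c_1 x`, `c_0 z' ≥ c_0 x` or `c_0 z' = c_0 x`, `c_1 z' ≥ c_1 x`). Since `c_0`, `c_1` decrease
along the wall, `c_0 z' ≤ c_0 x' < c_0 (pt v0 L.a) < c_0 (pt t (e2 (L.w 0)))` (`SC`, `long`; `prec 0 t v0`),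
the same for `c_1`. So `z'` is a common point of the wall `j` of `x'` and of the wall `0` or `1` of
`x`. `F.same`: no common vertex (`L.a ≠ L'.a`; the other ends are not vertices), so the walls would
be perpendicular, but `d j · d 0 ≠ 0`, `d j · d 1 ≠ 0`. The closed right quadrant: the same with
`j = 0` if `b > 0` (`d0·d2 = - b < 0`, `d0·d3 = a < 0`), `j = 1` if `b < 0` (`d1·d2 = a`, `d1·d3 = b`). The
hypothesis `n ≥ 5`, `1 < t`, `t + 2 < n` guarantees two neighbours on both sides. -/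
theorem sect {L L' : Lb F} (hn : 5 ≤ n) (hs : L.SC L') (hk : dot (L.d 1) (L.d 3) ≠ 0)
    (hne : L.a ≠ L'.a) (he : ∀ m m', F.ed (L.w m) ≠ F.ed (L'.w m')) {t : ℕ} (h0 : 1 < t)
    (h1 : t + 2 < n) : L.Sec true t (F.pt t L'.a) ∨ L.Sec false t (F.pt t L'.a) := by
  have W := L.W
  have ha := Walls.obtuse W (by omega) 0
  have ha' := Walls.obtuse W (by omega) 1
  have o0 : op (st 0) = 3 := by decide
  have o1 : op (st 1) = 2 := by decide
  rw [o0] at ha
  rw [o1] at ha'
  have hb : dot (L.d 0) (L.d 2) = - dot (L.d 1) (L.d 3) := by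
    rw [W.rot1, W.rot3]
    simp only [dot, J, Prod.fst_neg, Prod.snd_neg]
    ring
  have s0 : st 0 = 1 := rfl
  have s2 : st 2 = 3 := rfl
  rcases Walls.sectors W (by omega) (F.pt t L.a) (F.pt t L'.a) with ⟨c0, c1⟩ | ⟨c0, c1⟩ | ⟨c0, c1⟩ | ⟨c0, c1⟩
  · exfalso
    rcases lt_or_gt_of_ne hk with h | h
    · exact sect_quad hs hne he h0 h1 (k := 0) (j := 3) (by decide) (by decide)
        (by rw [dot_comm]; exact ha) (by rw [s0, dot_comm]; exact h) c0 c1
    · exact sect_quad hs hne he h0 h1 (k := 0) (j := 2) (by decide) (by decide)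
        (by rw [dot_comm, hb]; linarith) (by rw [s0, dot_comm]; exact ha') c0 c1
  · exfalso
    rcases lt_or_gt_of_ne hk with h | h
    · exact sect_quad hs hne he h0 h1 (k := 2) (j := 1) (by decide) (by decide)
        ha' (by rw [s2]; exact h) c0 c1
    · exact sect_quad hs hne he h0 h1 (k := 2) (j := 0) (by decide) (by decide)
        (by rw [hb]; linarith) (by rw [s2]; exact ha) c0 c1
  · left
    intro m hm
    have : m = 0 ∨ m = 2 := hm.2 rfl
    rcases this with rfl | rfl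
    · exact c0
    · exact c1
  · right
    intro m hm
    have : m = 1 ∨ m = 3 := by
      have h3 : ¬ (m = 0 ∨ m = 2) := fun h => by simpa using hm.1 h
      revert h3
      fin_cases m <;> simp
    rcases this with rfl | rfl
    · exact c0
    · exact c1

/-- SECT. `sect` for `L', L`, and `Sec.asymm` -/
theorem sec_flip {L L' : Lb F} (hn : 5 ≤ n) (hs : L.SC L') (hk : dot (L.d 1) (L.d 3) ≠ 0)
    (hne : L.a ≠ L'.a) (he : ∀ m m', F.ed (L.w m) ≠ F.ed (L'.w m')) {t : ℕ} (h0 : 1 < t)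
    (h1 : t + 2 < n) {b : Bool} (h : L.Sec b t (F.pt t L'.a)) : L'.Sec (!b) t (F.pt t L.a) := by
  have hk' : dot (L'.d 1) (L'.d 3) ≠ 0 := by rw [← hs.1 1, ← hs.1 3]; exact hk
  have h2 := sect hn hs.symm hk' hne.symm (fun m m' h => he m' m h.symm) h0 h1
  have h3 : ¬ L'.Sec b t (F.pt t L.a) := fun h4 => Sec.asymm hs.1 h h4
  cases b
  · rcases h2 with h2 | h2
    · exact h2
    · exact absurd h2 h3
  · rcases h2 with h2 | h2
    · exact absurd h2 h3
    · exact h2

end Lb
end Pool.Agent.RAC
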