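import Pool.Agent.Lib_MP_638f75_lc.H.HG
import Pool.Agent.Lib_MP_638f75_lc.H.HH

/-!
# Star clusters, one bend: definitions
-/

namespace Pool.Agent.RAC

/-- A homogeneous family of star clusters (one bend). Block `0` is the center, blocks `1, 2, 3` are
the leaves; the block `x` has two vertices `(L x false).a`, `(L x true).a`, joined by the direct edge with the
segments `Z x false`, `Z x true` (from the vertices to the common bend). The vertex `fv i` of the
arc between the blocks `0` and `i + 1` is joined to both vertices of the tail block `tl i` (segments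
`T i b` from the block, `T' i b` from `fv i`) and to the vertex `po i` of the head block `hd i` (segments
`R' i` from the block, `R i` from `fv i`). -/
structure St1 {n : ℕ} {P S E : Type} (F : Fam n P S E) where
  L : Fin 4 → Bool → Lb F
  Z : Fin 4 → Bool → S
  fv : Fin 3 → P
  tl : Fin 3 → Fin 4
  hd : Fin 3 → Fin 4
  po : Fin 3 → Bool
  T : Fin 3 → Bool → S
  T' : Fin 3 → Bool → S
  R : Fin 3 → S
  R' : Fin 3 → S
  sdw : ∀ x b m, (L x b).sd m = (L x b).w m
  ends : ∀ i, (tl i = 0 ∧ hd i = i.succ) ∨ (tl i = i.succ ∧ hd i = 0)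
  ainj : ∀ x b x' b', (L x b).a = (L x' b').a → x = x' ∧ b = b'
  Z1 : ∀ x b, F.e1 (Z x b) = (L x b).a
  Z2 : ∀ x, F.e2 (Z x false) = F.e2 (Z x true)
  Z3 : ∀ x b, ¬ F.ver (F.e2 (Z x b))
  fver : ∀ i, F.ver (fv i)
  fhub : ∀ i, ¬ F.hub (fv i)
  fne : ∀ i x b, fv i ≠ (L x b).a
  T1 : ∀ i b, F.e1 (T i b) = (L (tl i) b).a
  T2 : ∀ i b, F.e2 (T i b) = F.e2 (T' i b)
  T3 : ∀ i b, ¬ F.ver (F.e2 (T i b))
  T4 : ∀ i b, F.e1 (T' i b) = fv i
  R1 : ∀ i, F.e1 (R i) = fv i
  R2 : ∀ i, F.e2 (R i) = F.e2 (R' i)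
  R3 : ∀ i, ¬ F.ver (F.e2 (R i))
  R4 : ∀ i, F.e1 (R' i) = (L (hd i) (po i)).a
  eA : ∀ x b m x' b' m', F.ed ((L x b).w m) = F.ed ((L x' b').w m') → x = x' ∧ b = b' ∧ m = m'
  eZ : ∀ x b m x' b', F.ed (Z x' b') ≠ F.ed ((L x b).w m)
  eT : ∀ x b m i b', F.ed (T i b') ≠ F.ed ((L x b).w m)
  eT' : ∀ x b m i b', F.ed (T' i b') ≠ F.ed ((L x b).w m)
  eR : ∀ x b m i, F.ed (R i) ≠ F.ed ((L x b).w m)
  eR' : ∀ x b m i, F.ed (R' i) ≠ F.ed ((L x b).w m)
  eTT : ∀ i, F.ed (T' i false) ≠ F.ed (T' i true)

end Pool.Agent.RAC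

/-!
# Star clusters, one bend: blocks (piece S1A)
-/

namespace Pool.Agent.RAC
namespace St1

variable {n : ℕ} {P S E : Type} {F : Fam n P S E} (D : St1 F)

theorem S1A_IN_beta (i : Fin 3) (b : Bool) : (D.L (D.tl i) b).IN (F.e2 (D.T i b)) :=
  (D.L (D.tl i) b).end_conf (D.T1 i b) fun m => D.eT _ _ _ _ _

theorem S1A_conn_of {p q : P} {σ : S} (hσ : F.Inert σ)
    (h : (F.e1 σ = p ∧ F.e2 σ = q) ∨ (F.e1 σ = q ∧ F.e2 σ = p)) : F.Conn p q :=
  Relation.ReflTransGen.single ⟨σ, hσ, h⟩

/-- S1A. Both vertices of a block have the same cells, and are joined by inert segments.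

Proof. The bend `β = e2 (Z x b)` is confined in `L x false` and in `L x true` (`end_conf`). So
`Z x false` is inert (`conf_inert` for `L x false`: both ends are confined); so
`(L x false).a` is confined in `L x true` (`IN_of_Conn` from `β`), `sc_of_IN`. -/
theorem direct (hn : 8 ≤ n) (x : Fin 4) :
    (D.L x false).SC (D.L x true) ∧ F.Conn (D.L x false).a (D.L x true).a ∧
      F.Conn (D.L x true).a (D.L x false).a := by
  have i0 : (D.L x false).IN (F.e2 (D.Z x false)) :=
    (D.L x false).end_conf (D.Z1 x false) fun m => D.eZ _ _ _ _ _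
  have i1 : (D.L x true).IN (F.e2 (D.Z x true)) :=
    (D.L x true).end_conf (D.Z1 x true) fun m => D.eZ _ _ _ _ _
  have n0 : F.Inert (D.Z x false) :=
    (D.L x false).conf_inert (by omega) (by rw [D.Z1]; exact Lb.IN_self _) i0
  have n1 : F.Inert (D.Z x true) :=
    (D.L x true).conf_inert (by omega) (by rw [D.Z1]; exact Lb.IN_self _) i1
  have c0 : F.Conn (D.L x false).a (F.e2 (D.Z x false)) :=
    S1A_conn_of n0 (Or.inl ⟨D.Z1 x false, rfl⟩)
  have c1 : F.Conn (F.e2 (D.Z x true)) (D.L x true).a :=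
    S1A_conn_of n1 (Or.inr ⟨D.Z1 x true, rfl⟩)
  rw [← D.Z2] at c1 i1
  have c2 : F.Conn (D.L x false).a (D.L x true).a := c0.trans c1
  exact ⟨(Lb.sc_of_IN hn _ _ (Lb.IN_of_Conn _ i1 (Lb.SCB_conn_symm c0))).symm, c2,
    Lb.SCB_conn_symm c2⟩

theorem S1A_IN_beta' (hn : 8 ≤ n) (i : Fin 3) (b : Bool) :
    (D.L (D.tl i) false).IN (F.e2 (D.T i b)) := by
  cases b
  · exact D.S1A_IN_beta i false
  · exact Lb.SC.IN (by omega) (D.direct hn _).1.symm (D.S1A_IN_beta i true)

/-- S1A. The vertex `fv i` is confined in the tail block.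

Proof. `L = L (tl i) false`. The bends `β b = e2 (T i b)` are confined in `L (tl i) b` (`end_conf`),
hence in `L` (`direct`, `SC.IN`). Suppose that `fv i` is not confined in `L`. As in the proof of `Lk.dich`,
`exit` (for the cluster `t = 2` or any inner cluster, and the cell between its neighbours) applies to
the segment from `β b` to `fv i`, for `b = false, true`: there are `m b` with
`fv i - β b = l • d (m b)`, `l > 0`, and by homogeneity (`hom_dir`, `hom_lt`), for all
`prec (m b) t v`: `c_(m b) (pt v L.a) ≤ c_(m b) (pt t (fv i))`,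
`c_(st (m b)) (pt v L.a) < c_(st (m b)) (pt t (fv i))` (the level of `β b` and of `fv i` is the same), and for
`prec (m b) v t`: `c_(st (m b)) (pt t (fv i)) < c_(st (m b)) (pt v L.a)`.
`m false ≠ m true`: otherwise the segments `T' i b` (which start at `fv i`) have the same
direction, so they overlap, contradiction to `F.same` (`eTT`, the only possible common vertex is
`fv i`, and parallel segments are not perpendicular).
If `m true = st (m false)`: `c_(st (m false)) (pt t (fv i)) < c_(st (m false)) (pt v L.a)` for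
`prec (m false) v t`, i.e. `prec (m true) t v`, but `c_(m true) (pt v L.a) ≤ c_(m true) (pt t (fv i))`:
contradiction. Otherwise `m false`, `m true` are on different sides (`{0, 1}`, `{2, 3}`); choose
`v`, `v'` different with `prec (m false) t v`, `prec (m true) t v'` (`v' = t ± 2` possible, `n ≥ 8`, `t = 3`);
then `lr_disj_x` gives a contradiction. -/
theorem anchor (hn : 8 ≤ n) (i : Fin 3) : (D.L (D.tl i) false).IN (D.fv i) := by
  by_contra hni
  set L := D.L (D.tl i) false with hL
  have hout : ∀ b, ∃ m, Lb.Out L (F.e2 (D.T i b)) (D.fv i) m := fun b =>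
    Lb.SCB_out hn (μ := D.T' i b) (Or.inr ⟨D.T4 i b, (D.T2 i b).symm⟩) (D.S1A_IN_beta' hn i b) hni
  obtain ⟨m, hm⟩ := hout false
  obtain ⟨m', hm'⟩ := hout true
  -- the level of the fan vertex
  have lev : ∀ b m, Lb.Out L (F.e2 (D.T i b)) (D.fv i) m → ∀ t, t < n →
      dot (F.pt t (F.e2 (D.T i b))) (L.d (st m)) = dot (F.pt t (D.fv i)) (L.d (st m)) := by
    intro b m ho t ht
    obtain ⟨l, -, hd⟩ := ho.dir t ht
    have h1 := congrArg (fun v => dot v (L.d (st m))) hd
    simp only [dot_sub, dot_smul, L.W.perp m, mul_zero] at h1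
    linarith
  have lm := lev false m hm
  have lm' := lev true m' hm'
  by_cases h1 : m' = m
  · -- both segments have the same direction
    subst h1
    obtain ⟨l, hl, hd⟩ := hm.dir 3 (by omega)
    obtain ⟨l', hl', hd'⟩ := hm'.dir 3 (by omega)
    have e0 : F.pt 3 (F.e2 (D.T' i false)) = F.pt 3 (D.fv i) + l • (-(L.d m')) := by
      rw [← D.T2, smul_neg, ← hd]; abel
    have e1 : F.pt 3 (F.e2 (D.T' i true)) = F.pt 3 (D.fv i) + l' • (-(L.d m')) := by
      rw [← D.T2, smul_neg, ← hd']; abel
    have hmin : 0 < min l l' := lt_min hl hl'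
    have m0 := sect_mem (x := F.pt 3 (D.fv i)) (v := -(L.d m')) hl hmin.le (min_le_left l l')
    have m1 := sect_mem (x := F.pt 3 (D.fv i)) (v := -(L.d m')) hl' hmin.le (min_le_right l l')
    rw [← e0] at m0
    rw [← e1] at m1
    rcases F.same 3 (by omega) (D.T' i false) (D.T' i true) (D.eTT i) _
      (by rw [D.T4]; exact m0) (by rw [D.T4]; exact m1) with ⟨p, hp1, hp2, -, hp4⟩ | ⟨-, -, h2⟩
    · rcases hp2 with h3 | h3
      · rw [D.T4] at h3
        rw [h3] at hp4
        have h4 := congrArg (fun v => dot v (L.d m')) hp4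
        simp only [dot_add, dot_smul, dot_neg, L.W.unit m'] at h4
        linarith
      · rw [← D.T2] at h3
        exact D.T3 i false (h3 ▸ hp1)
    · rw [e0, e1, D.T4, D.T4, add_sub_cancel_left, add_sub_cancel_left, dot_smul, dot_smul',
        dot_neg, dot_neg', L.W.unit m'] at h2
      have := mul_pos hl hl'
      linarith
  by_cases h2 : m' = st m
  · subst h2
    -- indices
    obtain ⟨v, hv, hp⟩ : ∃ v, v < n ∧ prec (st m) 3 v := by
      unfold prec
      by_cases h : st m = 0 ∨ st m = 2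
      · exact ⟨4, by omega, by simp [h]⟩
      · exact ⟨2, by omega, by simp [h]⟩
    have h3 := hm'.far 3 v (by omega) hv hp
    have h4 := hm.hi 3 v (by omega) hv (prec_st.1 hp)
    rw [lm 3 (by omega)] at h4
    linarith
  · obtain ⟨v, hv, hv3, hp⟩ : ∃ v, v < n ∧ (v = 4 ∨ v = 2) ∧ prec m 3 v := by
      unfold prec
      by_cases h : m = 0 ∨ m = 2
      · exact ⟨4, by omega, by omega, by simp [h]⟩
      · exact ⟨2, by omega, by omega, by simp [h]⟩
    obtain ⟨v', hv', hv3', hp'⟩ : ∃ v, v < n ∧ (v = 5 ∨ v = 1) ∧ prec m' 3 v := by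
      unfold prec
      by_cases h : m' = 0 ∨ m' = 2
      · exact ⟨5, by omega, by omega, by simp [h]⟩
      · exact ⟨1, by omega, by omega, by simp [h]⟩
    have a0 := hm.far 3 v (by omega) hv hp
    have a1 := hm.lo 3 v (by omega) hv hp
    have b0 := hm'.far 3 v' (by omega) hv' hp'
    have b1 := hm'.lo 3 v' (by omega) hv' hp'
    rw [lm 3 (by omega)] at a1
    rw [lm' 3 (by omega)] at b1
    exact sect_q L.W hv hv' (by omega) h1 h2 a0.le a1.le b0.le b1.le

/-- S1A. `T i b`, `T' i b` have confined ends, so they are inert (`conf_inert`). -/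
theorem conn_fv (hn : 8 ≤ n) (i : Fin 3) (b : Bool) :
    F.Conn (D.L (D.tl i) b).a (D.fv i) ∧ F.Conn (D.fv i) (D.L (D.tl i) b).a := by
  have n0 : F.Inert (D.T i b) :=
    (D.L (D.tl i) b).conf_inert (by omega) (by rw [D.T1]; exact Lb.IN_self _) (D.S1A_IN_beta i b)
  have n1 : F.Inert (D.T' i b) :=
    (D.L (D.tl i) false).conf_inert (by omega) (by rw [D.T4]; exact D.anchor hn i)
      (by rw [← D.T2]; exact D.S1A_IN_beta' hn i b)
  have c0 : F.Conn (D.L (D.tl i) b).a (F.e2 (D.T i b)) :=
    S1A_conn_of n0 (Or.inl ⟨D.T1 i b, rfl⟩)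
  have c1 : F.Conn (F.e2 (D.T i b)) (D.fv i) :=
    S1A_conn_of n1 (Or.inr ⟨D.T4 i b, (D.T2 i b).symm⟩)
  exact ⟨c0.trans c1, Lb.SCB_conn_symm (c0.trans c1)⟩

end St1
end Pool.Agent.RAC

/-!
# Star clusters, one bend: links (piece S1L)
-/

namespace Pool.Agent.RAC
namespace St1

variable {n : ℕ} {P S E : Type} {F : Fam n P S E} (D : St1 F)

/-- S1L. both vertices of a block -/
theorem S1L_sc (hn : 8 ≤ n) (x : Fin 4) (b : Bool) : (D.L x false).SC (D.L x b) := by
  cases b
  · exact Lb.SC.refl _
  · exact (D.direct hn x).1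

/-- S1L. paths between the vertices of a block -/
theorem S1L_conn (hn : 8 ≤ n) (x : Fin 4) (b : Bool) :
    F.Conn (D.L x b).a (D.L x false).a := by
  cases b
  · exact Relation.ReflTransGen.refl
  · exact (D.direct hn x).2.2

/-- S1L. The link between the tail block and the head block: middle segment `R i` from `fv i` to the
bend. (`anchor`, `conn_fv`; `end_conf` for `R' i` and `SC.IN` with `direct` for the head block; the
path from the bend to `(L (hd i) false).a`: `R' i`, `direct`.) -/
theorem link (hn : 8 ≤ n) (i : Fin 3) :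
    Lb.Lk (D.L (D.tl i) false) (D.L (D.hd i) false) (D.R i) (D.fv i) (F.e2 (D.R i)) := by
  have h1 : (D.L (D.hd i) (D.po i)).IN (F.e2 (D.R' i)) :=
    (D.L (D.hd i) (D.po i)).end_conf (D.R4 i) (fun m => D.eR' _ _ m i)
  refine ⟨Or.inl ⟨D.R1 i, rfl⟩, D.anchor hn i, ?_, (D.conn_fv hn i false).1, ?_⟩
  · rw [D.R2 i]
    exact (D.S1L_sc hn (D.hd i) (D.po i)).symm.IN (by omega) h1
  · rw [D.R2 i]
    refine Relation.ReflTransGen.head ?_ (D.S1L_conn hn (D.hd i) (D.po i))
    refine ⟨D.R' i, ?_, Or.inr ⟨D.R4 i, rfl⟩⟩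
    refine (D.L (D.hd i) (D.po i)).conf_inert (by omega) ?_ h1
    rw [D.R4 i]
    exact (D.L (D.hd i) (D.po i)).IN_self

/-- S1L. `link` or its symmetric form. -/
theorem link0 (hn : 8 ≤ n) (i : Fin 3) :
    ∃ p q, Lb.Lk (D.L 0 false) (D.L i.succ false) (D.R i) p q := by
  rcases D.ends i with ⟨h1, h2⟩ | ⟨h1, h2⟩
  · have h := D.link hn i
    rw [h1, h2] at h
    exact ⟨_, _, h⟩
  · have h := (D.link hn i).symm
    rw [h1, h2] at h
    exact ⟨_, _, h⟩

/-- S1L. If the label of the center is in a frame then all labels are in this frame (`Lk.plus`, `SC.plus`). -/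
theorem plus_all (hn : 8 ≤ n) {f : Pt} (h : (D.L 0 false).Plus f) (x : Fin 4) (b : Bool) :
    (D.L x b).Plus f := by
  have h1 : (D.L x false).Plus f := by
    rcases Fin.eq_zero_or_eq_succ x with rfl | ⟨i, rfl⟩
    · exact h
    · obtain ⟨p, q, hl⟩ := D.link0 hn i
      exact hl.plus hn h
  exact (D.S1L_sc hn x b).plus h1

/-- S1L. If the label of the center is not in a frame then all labels have the same cells (`Lk.frame`
for `link0`: in the second case `Plus.d0`), `direct`, `SC.trans`. -/
theorem sc_all (hn : 8 ≤ n) (h : ¬ (D.L 0 false).Plus ((D.L 0 false).d 0)) (x : Fin 4) (b : Bool)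
    (y : Fin 4) (b' : Bool) : (D.L x b).SC (D.L y b') := by
  have h1 : ∀ x b, (D.L 0 false).SC (D.L x b) := by
    intro x b
    have h2 : (D.L 0 false).SC (D.L x false) := by
      rcases Fin.eq_zero_or_eq_succ x with rfl | ⟨i, rfl⟩
      · exact Lb.SC.refl _
      · obtain ⟨p, q, hl⟩ := D.link0 hn i
        rcases hl.frame hn with h3 | ⟨m, m', -, -, -, h3, -⟩
        · exact h3
        · exact absurd h3.d0 h
    exact h2.trans (by omega) (D.S1L_sc hn x b)
  exact (h1 x b).symm.trans (by omega) (h1 y b')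

end St1
end Pool.Agent.RAC

/-!
# Star clusters, one bend: sectors (piece S1B)
-/

namespace Pool.Agent.RAC

/-- S1B. points of a segment in a given direction -/
theorem S1B_seg {A B v : Pt} {l c : ℝ} (hl : 0 < l) (hc : 0 ≤ c) (hcl : c ≤ l)
    (hB : A - B = l • v) : A - c • v ∈ segment ℝ A B := by
  refine ⟨1 - c / l, c / l, ?_, div_nonneg hc hl.le, by ring, ?_⟩
  · rw [sub_nonneg, div_le_one hl]
    exact hcl
  · have h1 : c / l * l = c := div_mul_cancel₀ c hl.ne'
    have h2 : B = A - l • v := by rw [← hB]; abel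
    rw [h2]
    ext
    · simp only [Prod.fst_add, Prod.smul_fst, Prod.fst_sub, smul_eq_mul]
      linear_combination (-v.1) * h1
    · simp only [Prod.snd_add, Prod.smul_snd, Prod.snd_sub, smul_eq_mul]
      linear_combination (-v.2) * h1

/-- S1B. the four indices -/
theorem S1B_four {c : Bool} {m m' : Fin 4} (h : m = 0 ∨ m = 2 ↔ c = true)
    (h' : m' = 0 ∨ m' = 2 ↔ c = true) (hne : m ≠ m') (k : Fin 4) :
    k = m ∨ k = m' ∨ k = st m ∨ k = st m' := by
  revert c m m' k
  decide

namespace St1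

variable {n : ℕ} {P S E : Type} {F : Fam n P S E} (D : St1 F)

theorem S1B_hk (hn : 8 ≤ n) (h : ¬ (D.L 0 false).Plus ((D.L 0 false).d 0)) (x : Fin 4) (b : Bool) :
    dot ((D.L x b).d 1) ((D.L x b).d 3) ≠ 0 := by
  have h1 := D.sc_all hn h 0 false x b
  rw [Lb.plus_iff (by omega)] at h
  rw [← h1.1 1, ← h1.1 3]
  exact h

theorem S1B_ane {x y : Fin 4} (hxy : x ≠ y) (b b' : Bool) : (D.L x b).a ≠ (D.L y b').a :=
  fun h => hxy (D.ainj _ _ _ _ h).1

theorem S1B_nver {p : P} (hp : ¬ F.ver p) (x : Fin 4) (b : Bool) : p ≠ (D.L x b).a := by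
  rintro rfl
  exact hp (D.L x b).va

theorem S1B_Z2 (y : Fin 4) (b b' : Bool) : F.e2 (D.Z y b) = F.e2 (D.Z y b') := by
  have := D.Z2 y
  cases b <;> cases b' <;> simp [this]

/-- S1B. Let the label of the center not be in a frame. For different blocks `x`, `y` both vertices of
`y` are in the same sector of `(L x false).a`.

Proof. Let `(L y b).a` be in the sector `c`. The common bend of `Z y false`, `Z y true` is in the same
sector (`end_sec`), and if `(L y (!b)).a` is not in the sector `c` then it is in the sector `!c` (`sect`), and so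
is the bend (`end_sec`): contradiction to `Sec.disj`. -/
theorem block_sec (hn : 8 ≤ n) (h : ¬ (D.L 0 false).Plus ((D.L 0 false).d 0)) {x y : Fin 4}
    (hxy : x ≠ y) {t : ℕ} (h0 : 1 < t) (h1 : t + 2 < n) {c b b' : Bool}
    (hb : (D.L x false).Sec c t (F.pt t (D.L y b).a)) :
    (D.L x false).Sec c t (F.pt t (D.L y b').a) := by
  have key : ∀ (c : Bool) (b : Bool), (D.L x false).Sec c t (F.pt t (D.L y b).a) →
      (D.L x false).Sec c t (F.pt t (F.e2 (D.Z y b))) := by
    intro c b hb
    exact Lb.end_sec (by omega) (D.sc_all hn h x false y b) (D.Z1 y b) (fun m => D.eZ _ _ m _ _)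
      (fun m => D.eZ _ _ m _ _) (D.S1B_ane hxy.symm b false) (D.S1B_nver (D.Z3 y b) x false)
      (by omega) (by omega) hb
  have h2 := Lb.sect (L := D.L x false) (L' := D.L y b') (by omega) (D.sc_all hn h x false y b')
    (D.S1B_hk hn h x false) (D.S1B_ane hxy false b') (fun m m' he => hxy (D.eA _ _ _ _ _ _ he).1)
    h0 h1
  have h3 : (D.L x false).Sec c t (F.pt t (D.L y b').a) ∨
      (D.L x false).Sec (!c) t (F.pt t (D.L y b').a) := by
    cases c
    · exact h2.symm
    · exact h2
  rcases h3 with h4 | h4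
  · exact h4
  · exfalso
    have h5 := key c b hb
    have h6 := key (!c) b' h4
    rw [D.S1B_Z2 y b b'] at h5
    exact Lb.Sec.disj _ (by omega) h5 h6

/-- S1B. two end segments of the free vertex do not have the same direction -/
theorem S1B_overlap (i : Fin 3) {t : ℕ} (ht : t < n) {v : Pt} (hv : dot v v = 1) {l l' : ℝ}
    (hl : 0 < l) (hl' : 0 < l')
    (h : F.pt t (D.fv i) - F.pt t (F.e2 (D.T i false)) = l • v)
    (h' : F.pt t (D.fv i) - F.pt t (F.e2 (D.T i true)) = l' • v) : False := by
  set ε := min l l' with hε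
  have hε0 : 0 < ε := lt_min hl hl'
  set z := F.pt t (D.fv i) - ε • v with hz
  have hz1 : z ∈ segment ℝ (F.pt t (F.e1 (D.T' i false))) (F.pt t (F.e2 (D.T' i false))) := by
    rw [D.T4, ← D.T2]
    exact S1B_seg hl hε0.le (min_le_left _ _) h
  have hz2 : z ∈ segment ℝ (F.pt t (F.e1 (D.T' i true))) (F.pt t (F.e2 (D.T' i true))) := by
    rw [D.T4, ← D.T2]
    exact S1B_seg hl' hε0.le (min_le_right _ _) h'
  rcases F.same t ht _ _ (D.eTT i) z hz1 hz2 with ⟨p, hp, hp1, -, hzp⟩ | ⟨-, -, h3⟩
  · rcases hp1 with hp1 | hp1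
    · rw [D.T4] at hp1
      rw [hp1] at hzp
      have h4 : ε • v = 0 := by
        have : F.pt t (D.fv i) - ε • v = F.pt t (D.fv i) := hzp
        have h5 : ε • v = F.pt t (D.fv i) - (F.pt t (D.fv i) - ε • v) := by abel
        rw [h5, this, sub_self]
      rcases smul_eq_zero.1 h4 with h5 | h5
      · exact hε0.ne' h5
      · rw [h5] at hv
        simp [dot] at hv
    · rw [← D.T2] at hp1
      exact D.T3 i false (hp1 ▸ hp)
  · rw [D.T4, D.T4, ← D.T2, ← D.T2] at h3
    have e1 : F.pt t (F.e2 (D.T i false)) - F.pt t (D.fv i) = -(l • v) := by rw [← h]; abel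
    have e2 : F.pt t (F.e2 (D.T i true)) - F.pt t (D.fv i) = -(l' • v) := by rw [← h']; abel
    rw [e1, e2, dot_neg, dot_neg', dot_smul, dot_smul', hv] at h3
    have : 0 < l * l' := mul_pos hl hl'
    linarith

/-- S1B. A third block does not separate the blocks of an arc.

Proof. `L = L x false`; suppose that the tail block is in the sector `c` of `L` (both vertices, `block_sec`)
and the head block in the sector `!c`. The bends `β b = e2 (T i b)` are in the sector `c` (`end_sec`), the bend
`e2 (R i) = e2 (R' i)` is in the sector `!c` (`end_sec`). `fv i` is in the sector `c`: otherwise by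
`exit_sec` for `T' i b` (from `β b` to `fv i`), `b = false, true`: `fv i - β b = l • d (m b)` with `m b` of the
two directions of the sector `c`. `m false = m true` is impossible (overlap, as in
`anchor`), so both directions occur, `m b` and `m' = op (m b)`, and
`c_k (pt t (fv i)) ≥ c_k (pt t L.a)` for all four `k`, with strict inequality for `k = st (m b)`:
contradiction to `lr_self`. So `R i` leads from the sector `c` to the sector `!c`: contradiction to
`seg_sec` (`dot (d 1) (d 3) ≠ 0` by `plus_iff`). -/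
theorem nosep (hn : 8 ≤ n) (h : ¬ (D.L 0 false).Plus ((D.L 0 false).d 0)) (i : Fin 3) {x : Fin 4}
    (hx : x ≠ D.tl i) (hx' : x ≠ D.hd i) {t : ℕ} (h0 : 1 < t) (h1 : t + 2 < n) {c : Bool}
    (ht : (D.L x false).Sec c t (F.pt t (D.L (D.tl i) false).a))
    (hh : (D.L x false).Sec (!c) t (F.pt t (D.L (D.hd i) false).a)) : False := by
  set L := D.L x false with hL
  -- the bends of the tail block
  have hβ : ∀ b, L.Sec c t (F.pt t (F.e2 (D.T i b))) := by
    intro b
    have h2 := D.block_sec hn h hx h0 h1 (b' := b) ht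
    exact Lb.end_sec (by omega) (D.sc_all hn h x false (D.tl i) b) (D.T1 i b)
      (fun m => D.eT _ _ m _ _) (fun m => D.eT _ _ m _ _) (D.S1B_ane hx.symm b false)
      (D.S1B_nver (D.T3 i b) x false) (by omega) (by omega) h2
  have hβin : ∀ b, L.IN (F.e2 (D.T i b)) := by
    intro b
    have h2 := (D.L (D.tl i) b).end_conf (D.T1 i b) (fun m => D.eT _ _ m _ _)
    exact (D.sc_all hn h (D.tl i) b x false).IN (by omega) h2
  -- the bend of the head block
  have hR : L.Sec (!c) t (F.pt t (F.e2 (D.R i))) := by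
    have h2 := D.block_sec hn h hx' h0 h1 (b' := D.po i) hh
    rw [D.R2 i]
    refine Lb.end_sec (by omega) (D.sc_all hn h x false (D.hd i) (D.po i)) (D.R4 i)
      (fun m => D.eR' _ _ m _) (fun m => D.eR' _ _ m _) (D.S1B_ane hx'.symm (D.po i) false) ?_
      (by omega) (by omega) h2
    rw [← D.R2 i]
    exact D.S1B_nver (D.R3 i) x false
  have hfin : L.IN (D.fv i) := (D.sc_all hn h (D.tl i) false x false).IN (by omega) (D.anchor hn i)
  have hRin : L.IN (F.e2 (D.R i)) :=
    (D.sc_all hn h (D.hd i) false x false).IN (by omega) (D.link hn i).q1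
  have hfne : D.fv i ≠ L.a := D.fne i x false
  have hf : L.Sec c t (F.pt t (D.fv i)) := by
    by_contra hf
    have hex : ∀ b, ∃ m : Fin 4, (m = 0 ∨ m = 2 ↔ c = true) ∧
        (∃ l : ℝ, 0 < l ∧ F.pt t (D.fv i) - F.pt t (F.e2 (D.T i b)) = l • L.d m) ∧
        dot (F.pt t L.a) (L.d m) ≤ dot (F.pt t (D.fv i)) (L.d m) ∧
        dot (F.pt t L.a) (L.d (st m)) < dot (F.pt t (D.fv i)) (L.d (st m)) := by
      intro b
      exact L.exit_sec (by omega) (σ := D.T' i b) (Or.inr ⟨D.T4 i b, (D.T2 i b).symm⟩) (hβin b) hfin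
        (D.S1B_nver (D.T3 i b) x false) hfne (fun m => D.eT' _ _ m _ _) (by omega) (by omega)
        (hβ b) hf
    obtain ⟨m, hm, ⟨l, hl, hl2⟩, hm1, hm2⟩ := hex false
    obtain ⟨m', hm', ⟨l', hl', hl2'⟩, hm1', hm2'⟩ := hex true
    have hne : m ≠ m' := by
      rintro rfl
      exact D.S1B_overlap i (by omega) (L.W.unit m) hl hl' hl2 hl2'
    have hall : ∀ k, dot (F.pt t L.a) (L.d k) ≤ dot (F.pt t (D.fv i)) (L.d k) := by
      intro k
      rcases S1B_four hm hm' hne k with rfl | rfl | rfl | rfl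
      · exact hm1
      · exact hm1'
      · exact hm2.le
      · exact hm2'.le
    have h5 := L.W.lr_self (by omega) hall
    rw [h5] at hm2
    exact lt_irrefl _ hm2
  exact L.seg_sec (by omega) (D.S1B_hk hn h x false) (σ := D.R i) (Or.inl ⟨D.R1 i, rfl⟩) hfin hRin
    hfne (D.S1B_nver (D.R3 i) x false) (fun m => D.eR _ _ m _) (by omega) (by omega) hf hR

end St1
end Pool.Agent.RAC

/-!
# Star clusters, one bend: the center (piece S1C)
-/

namespace Pool.Agent.RAC

/-- S1C. two of three -/
theorem S1C_two (f : Fin 3 → Bool) : ∃ (c : Bool) (i j : Fin 3), i ≠ j ∧ f i = c ∧ f j = c := by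
  revert f
  decide

namespace St1

variable {n : ℕ} {P S E : Type} {F : Fam n P S E} (D : St1 F)

/-- S1C. The label of the center is in a frame.

Proof. Otherwise `sect` orders the four blocks (representatives `(L x false).a`, cluster `t = 3`): for
`x ≠ y` write `x <c y` if `(L y false).a` is in the sector `c` of `(L x false).a`; `x <c y` implies
`y <(!c) x` (`sec_flip`), `<c` is transitive (`Sec.trans`). Two of the three leaves `i + 1` are in the same
sector `c` of the block `0`: say `0 <c x`, `0 <c y`, and `x <c y` or `y <c x`. If `x <c y`: the block `x` has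
`0` in its sector `!c` and `y` in its sector `c`, contradiction to `nosep` for the arc of the leaf `y`
(in both orientations, `ends`). -/
theorem center_plus (hn : 8 ≤ n) : (D.L 0 false).Plus ((D.L 0 false).d 0) := by
  by_contra h
  have hs : ∀ x y : Fin 4, x ≠ y → (D.L x false).Sec true 3 (F.pt 3 (D.L y false).a) ∨
      (D.L x false).Sec false 3 (F.pt 3 (D.L y false).a) := by
    intro x y hxy
    exact Lb.sect (by omega) (D.sc_all hn h x false y false) (D.S1B_hk hn h x false)
      (D.S1B_ane hxy false false) (fun m m' he => hxy (D.eA _ _ _ _ _ _ he).1) (by omega) (by omega)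
  have hflip : ∀ (x y : Fin 4) (c : Bool), x ≠ y →
      (D.L x false).Sec c 3 (F.pt 3 (D.L y false).a) →
      (D.L y false).Sec (!c) 3 (F.pt 3 (D.L x false).a) := by
    intro x y c hxy hc
    exact Lb.sec_flip (by omega) (D.sc_all hn h x false y false) (D.S1B_hk hn h x false)
      (D.S1B_ane hxy false false) (fun m m' he => hxy (D.eA _ _ _ _ _ _ he).1) (by omega)
      (by omega) hc
  -- the main contradiction
  have hmain : ∀ (c : Bool) (i j : Fin 3), i ≠ j →
      (D.L 0 false).Sec c 3 (F.pt 3 (D.L i.succ false).a) →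
      (D.L i.succ false).Sec c 3 (F.pt 3 (D.L j.succ false).a) → False := by
    intro c i j hij h1 h2
    have h3 := hflip 0 i.succ c (Fin.succ_ne_zero i).symm h1
    have hne : i.succ ≠ j.succ := fun he => hij (Fin.succ_injective _ he)
    rcases D.ends j with ⟨e1, e2⟩ | ⟨e1, e2⟩
    · refine D.nosep hn h j (x := i.succ) (by rw [e1]; exact Fin.succ_ne_zero i)
        (by rw [e2]; exact hne) (t := 3) (by omega) (by omega) (c := !c) ?_ ?_
      · rw [e1]; exact h3
      · rw [e2, Bool.not_not]; exact h2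
    · refine D.nosep hn h j (x := i.succ) (by rw [e1]; exact hne)
        (by rw [e2]; exact Fin.succ_ne_zero i) (t := 3) (by omega) (by omega) (c := c) ?_ ?_
      · rw [e1]; exact h2
      · rw [e2]; exact h3
  -- two leaves in the same sector of the center
  have hf : ∀ i : Fin 3, ∃ c : Bool, (D.L 0 false).Sec c 3 (F.pt 3 (D.L i.succ false).a) := by
    intro i
    rcases hs 0 i.succ (Fin.succ_ne_zero i).symm with h1 | h1
    · exact ⟨_, h1⟩
    · exact ⟨_, h1⟩
  choose f hf using hf
  obtain ⟨c, i, j, hij, hi, hj⟩ := S1C_two f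
  have hi' := hf i
  have hj' := hf j
  rw [hi] at hi'
  rw [hj] at hj'
  have hne : i.succ ≠ j.succ := fun he => hij (Fin.succ_injective _ he)
  have h1 : (D.L i.succ false).Sec c 3 (F.pt 3 (D.L j.succ false).a) ∨
      (D.L i.succ false).Sec (!c) 3 (F.pt 3 (D.L j.succ false).a) := by
    cases c
    · exact (hs i.succ j.succ hne).symm
    · exact hs i.succ j.succ hne
  rcases h1 with h1 | h1
  · exact hmain c i j hij hi' h1
  · have h2 := hflip i.succ j.succ (!c) hne h1
    rw [Bool.not_not] at h2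
    exact hmain c j i hij.symm hj' h2

end St1
end Pool.Agent.RAC

/-!
# Star clusters, one bend: the order (piece S1E)
-/

namespace Pool.Agent.RAC

theorem s1e_expand {g v : Pt} (hg : dot g g = 1) (h0 : dot v g = 0) :
    v = dot v (J g) • J g := by
  obtain ⟨g1, g2⟩ := g
  obtain ⟨v1, v2⟩ := v
  simp only [dot] at hg h0
  simp only [dot, J, Prod.smul_mk, smul_eq_mul, Prod.mk.injEq]
  constructor
  · linear_combination (-v1) * hg + g1 * h0
  · linear_combination (-v2) * hg + g2 * h0

theorem s1e_JJ {g : Pt} (hg : dot g g = 1) : dot (J g) (J g) = 1 := by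
  simp only [dot, J] at hg ⊢
  linear_combination hg

theorem s1e_trans {a b c : ℝ} (h : 0 < a * b) (h' : 0 < b * c) : 0 < a * c := by
  have hb : b ≠ 0 := by
    rintro rfl
    simp at h
  have h1 : 0 < (a * c) * b ^ 2 := by
    have := mul_pos h h'
    nlinarith
  exact pos_of_mul_pos_left h1 (sq_nonneg b)

/-- End segments of a label in the frame of `g` are not perpendicular to `g`. -/
theorem s1e_end {n : ℕ} {P S E : Type} {F : Fam n P S E} {L : Lb F} (hn : 2 ≤ n) {g : Pt}
    (hL : L.Plus g) {σ : S} (h1 : F.e1 σ = L.a) (he : ∀ m, F.ed σ ≠ F.ed (L.w m)) {t : ℕ}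
    (ht : t < n) : dot (F.dir t σ) g ≠ 0 := by
  intro h0
  have hg := hL.unit
  have hv := s1e_expand hg h0
  have hne : F.dir t σ ≠ 0 := by
    unfold Fam.dir
    intro h
    exact F.nd t ht σ (sub_eq_zero.1 h).symm
  have hd : F.pt t (F.e2 σ) - F.pt t L.a = F.dir t σ := by
    unfold Fam.dir
    rw [h1]
  rcases lt_trichotomy (dot (F.dir t σ) (J g)) 0 with h | h | h
  · obtain ⟨m, hm⟩ := hL.exists_m hn (v := - J g) (Or.inr (Or.inr (Or.inr rfl)))
    refine L.end_dir h1 he ht m (l := - dot (F.dir t σ) (J g)) (by linarith) ?_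
    rw [hd, hm, smul_neg, neg_smul, neg_neg]
    exact hv
  · rw [h, zero_smul] at hv
    exact hne hv
  · obtain ⟨m, hm⟩ := hL.exists_m hn (v := J g) (Or.inr (Or.inl rfl))
    refine L.end_dir h1 he ht m h ?_
    rw [hd, hm]
    exact hv

namespace St1

variable {n : ℕ} {P S E : Type} {F : Fam n P S E} (D : St1 F)

/-- S1E. Coverage: the walls `± g` of the block `x` reach beyond the points confined in the block `y`
(`Tri.rg`, `sdw`), for three blocks. -/
theorem rgw {g : Pt} {i i' : Fin 3}
    (hT : Lb.Tri g (D.L 0 false) (D.L i.succ false) (D.L i'.succ false)) {y : Fin 4}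
    (hy : y = 0 ∨ y = i.succ) {p : P} (hp : (D.L y false).IN p) {t : ℕ} (h0 : 0 < t)
    (h1 : t + 1 < n) : ∀ m, ((D.L i'.succ false).d m = g ∨ (D.L i'.succ false).d m = -g) →
      dot (F.pt t p) ((D.L i'.succ false).d m) <
        dot (F.pt t (F.e2 ((D.L i'.succ false).w m))) ((D.L i'.succ false).d m) := by
  intro m hm
  have hy' : D.L y false = D.L 0 false ∨ D.L y false = D.L i.succ false ∨
      D.L y false = D.L i'.succ false := by
    rcases hy with rfl | rfl
    · exact Or.inl rfl
    · exact Or.inr (Or.inl rfl)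
  have h := hT.rg (D.L i'.succ false) (D.L y false) (Or.inr (Or.inr rfl)) hy' m hm p hp t h0 h1
  rw [D.sdw] at h
  exact h

/-- the points of a block are confined in its first label -/
theorem s1e_in (hn : 8 ≤ n) (x : Fin 4) (b : Bool) {p : P} (hp : (D.L x b).IN p) :
    (D.L x false).IN p := by
  cases b
  · exact hp
  · exact Lb.SC.IN (by omega) (D.direct hn x).1.symm hp

theorem s1e_plus (hn : 8 ≤ n) {g : Pt} {x : Fin 4} (h : (D.L x false).Plus g) (b : Bool) :
    (D.L x b).Plus g := by
  cases b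
  · exact h
  · exact (D.direct hn x).1.plus h

/-- an end segment of one of the blocks `0`, `i + 1` -/
theorem s1e_seg (hn : 8 ≤ n) {g : Pt} {i i' : Fin 3} (hii : i ≠ i')
    (hT : Lb.Tri g (D.L 0 false) (D.L i.succ false) (D.L i'.succ false)) {x : Fin 4}
    (hx : x = 0 ∨ x = i.succ) {b : Bool} {σ : S} (e1 : F.e1 σ = (D.L x b).a)
    (e2 : ¬ F.ver (F.e2 σ)) (e3 : ∀ x' b' m, F.ed σ ≠ F.ed ((D.L x' b').w m)) {t : ℕ}
    (h0 : 0 < t) (h1 : t + 1 < n) :
    (D.L x false).IN (F.e2 σ) ∧
      0 < (dot (F.pt t (D.L x b).a) (J g) - dot (F.pt t (D.L i'.succ false).a) (J g)) *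
        (dot (F.pt t (F.e2 σ)) (J g) - dot (F.pt t (D.L i'.succ false).a) (J g)) := by
  have hin : (D.L x false).IN (F.e2 σ) :=
    D.s1e_in hn x b ((D.L x b).end_conf e1 (fun m => e3 x b m))
  have hpx : (D.L x false).Plus g := by
    rcases hx with rfl | rfl
    · exact hT.pu
    · exact hT.pw
  have hne : (D.L x b).a ≠ (D.L i'.succ false).a := by
    intro h
    have h2 := (D.ainj _ _ _ _ h).1
    rcases hx with rfl | rfl
    · exact absurd h2.symm (Fin.succ_ne_zero i')
    · exact hii (Fin.succ_injective _ h2)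
  refine ⟨hin, ?_⟩
  have h := Lb.side (c := D.L i'.succ false) (by omega) hT.pc (σ := σ) (fun m => e3 _ _ m)
    (by rw [e1]; exact hne)
    (fun h => e2 (h ▸ (D.L i'.succ false).va)) (t := t) (by omega)
    (by rw [e1]; exact D.rgw hT hx (D.s1e_in hn x b (D.L x b).IN_self) h0 h1)
    (D.rgw hT hx hin h0 h1)
    (s1e_end (by omega) (D.s1e_plus hn hpx b) e1 (fun m => e3 x b m) (by omega))
  rw [e1] at h
  exact h

/-- both vertices of a block -/
theorem s1e_block (hn : 8 ≤ n) {g : Pt} {i i' : Fin 3} (hii : i ≠ i')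
    (hT : Lb.Tri g (D.L 0 false) (D.L i.succ false) (D.L i'.succ false)) {x : Fin 4}
    (hx : x = 0 ∨ x = i.succ) (b : Bool) {t : ℕ} (h0 : 0 < t) (h1 : t + 1 < n) :
    0 < (dot (F.pt t (D.L x false).a) (J g) - dot (F.pt t (D.L i'.succ false).a) (J g)) *
        (dot (F.pt t (D.L x b).a) (J g) - dot (F.pt t (D.L i'.succ false).a) (J g)) := by
  have k1 := (D.s1e_seg hn hii hT hx (D.Z1 x false) (D.Z3 x false)
    (fun x' b' m => D.eZ x' b' m x false) h0 h1).2
  have k2 := (D.s1e_seg hn hii hT hx (D.Z1 x b) (D.Z3 x b)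
    (fun x' b' m => D.eZ x' b' m x b) h0 h1).2
  have hz : F.e2 (D.Z x b) = F.e2 (D.Z x false) := by
    cases b
    · rfl
    · exact (D.Z2 x).symm
  rw [hz] at k2
  refine s1e_trans k1 ?_
  rw [mul_comm]
  exact k2

/-- `fv i` is not on the line through the point of the third block -/
theorem s1e_fv (hn : 8 ≤ n) {g : Pt} {i i' : Fin 3}
    (hT : Lb.Tri g (D.L 0 false) (D.L i.succ false) (D.L i'.succ false)) {x : Fin 4}
    (hx : x = 0 ∨ x = i.succ) (hfv : (D.L x false).IN (D.fv i)) {t : ℕ}
    (h0 : 0 < t) (h1 : t + 1 < n) :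
    dot (F.pt t (D.fv i)) (J g) - dot (F.pt t (D.L i'.succ false).a) (J g) ≠ 0 := by
  intro h
  have hg := hT.pc.unit
  have ht : t < n := by omega
  set c := D.L i'.succ false with hc
  have h2 : dot (F.pt t (D.fv i) - F.pt t c.a) (J g) = 0 := by
    rw [dot_sub]
    exact h
  have h3 := s1e_expand (s1e_JJ hg) h2
  rw [J_J] at h3
  -- the point is on the line
  have key : ∀ (v : Pt), ax g v → (v = g ∨ v = -g) → ∀ l : ℝ, 0 ≤ l →
      F.pt t (D.fv i) - F.pt t c.a = l • v → False := by
    intro v hv hv' l hl he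
    obtain ⟨m, hm⟩ := hT.pc.exists_m (by omega) hv
    have hr := D.rgw hT hx hfv h0 h1 m (by rw [hm]; exact hv')
    obtain ⟨l', hl', hle'⟩ := c.W.wall t ht m
    rw [← hc, hle'] at hr
    have e1 : F.pt t (D.fv i) = F.pt t c.a + l • c.d m := by
      rw [hm, ← he]
      abel
    rw [e1, dot_add, dot_add, dot_smul, dot_smul, c.W.unit] at hr
    have hll : l < l' := by linarith
    have hseg : F.pt t (D.fv i) ∈ segment ℝ (F.pt t (F.e1 (c.w m))) (F.pt t (F.e2 (c.w m))) := by
      rw [c.w1, hle', e1]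
      refine ⟨1 - l / l', l / l', ?_, by positivity, by ring, ?_⟩
      · have : l / l' ≤ 1 := by
          rw [div_le_one hl']
          exact hll.le
        linarith
      · have e2 : (l / l') * l' = l := div_mul_cancel₀ _ hl'.ne'
        rw [smul_add, smul_smul, e2]
        module
    rcases F.avoid t ht (c.w m) (D.fv i) (D.fver i) hseg with h4 | h4
    · rw [c.w1] at h4
      exact D.fne i _ _ h4
    · exact c.w2 m (h4 ▸ D.fver i)
  generalize dot (F.pt t (D.fv i) - F.pt t c.a) (- g) = l0 at h3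
  rcases le_or_gt 0 l0 with h4 | h4
  · exact key (-g) (Or.inr (Or.inr (Or.inl rfl))) (Or.inr rfl) _ h4 h3
  · refine key g (Or.inl rfl) (Or.inl rfl) (- l0) (by linarith) ?_
    rw [h3, smul_neg, neg_smul]

/-- two segments in the same direction from a vertex overlap -/
theorem s1e_overlap {t : ℕ} (ht : t < n) (i : Fin 3) {v : Pt} (hv : dot v v = 1) {lf lt : ℝ}
    (hf : F.dir t (D.T' i false) = lf • v) (ht' : F.dir t (D.T' i true) = lt • v)
    (hs : 0 < lf * lt) : False := by
  have hlf : lf ≠ 0 := by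
    rintro rfl
    simp at hs
  have hlt : lt ≠ 0 := by
    rintro rfl
    simp at hs
  have hsum : lf + lt ≠ 0 := by
    intro h
    have : lt = - lf := by linarith
    rw [this] at hs
    nlinarith [sq_nonneg lf]
  have hr : 0 < lt / (lf + lt) := by
    have h1 : lt / (lf + lt) = (lf * lt + lt ^ 2) / (lf + lt) ^ 2 := by
      field_simp
    rw [h1]
    positivity
  have hr' : 0 < lf / (lf + lt) := by
    have h1 : lf / (lf + lt) = (lf * lt + lf ^ 2) / (lf + lt) ^ 2 := by
      field_simp
      ring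
    rw [h1]
    positivity
  have h1 : lt / (lf + lt) + lf / (lf + lt) = 1 := by
    rw [← add_div, add_comm lt lf, div_self hsum]
  have hβf : F.pt t (F.e2 (D.T' i false)) = F.pt t (D.fv i) + lf • v := by
    rw [← hf]
    unfold Fam.dir
    rw [D.T4]
    abel
  have hβt : F.pt t (F.e2 (D.T' i true)) = F.pt t (D.fv i) + lt • v := by
    rw [← ht']
    unfold Fam.dir
    rw [D.T4]
    abel
  have hm1 : F.pt t (D.fv i) + (lf * lt / (lf + lt)) • v ∈
      segment ℝ (F.pt t (F.e1 (D.T' i false))) (F.pt t (F.e2 (D.T' i false))) := by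
    rw [D.T4, hβf]
    refine ⟨lf / (lf + lt), lt / (lf + lt), hr'.le, hr.le, by linarith, ?_⟩
    have e1 : lf * lt / (lf + lt) = lt / (lf + lt) * lf := by ring
    rw [e1, smul_add, ← add_assoc, ← add_smul, smul_smul, add_comm (lf / (lf + lt)), h1, one_smul]
  have hm2 : F.pt t (D.fv i) + (lf * lt / (lf + lt)) • v ∈
      segment ℝ (F.pt t (F.e1 (D.T' i true))) (F.pt t (F.e2 (D.T' i true))) := by
    rw [D.T4, hβt]
    refine ⟨lt / (lf + lt), lf / (lf + lt), hr.le, hr'.le, by linarith, ?_⟩
    have e1 : lf * lt / (lf + lt) = lf / (lf + lt) * lt := by ring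
    rw [e1, smul_add, ← add_assoc, ← add_smul, smul_smul, h1, one_smul]
  rcases F.same t ht _ _ (D.eTT i) _ hm1 hm2 with ⟨p, hp, h2, -, h3⟩ | ⟨-, -, h2⟩
  · rcases h2 with h2 | h2
    · rw [D.T4] at h2
      rw [h2] at h3
      have h4 : (lf * lt / (lf + lt)) • v = 0 := by
        have := congrArg (fun z => z - F.pt t (D.fv i)) h3
        simpa using this
      have h5 : v ≠ 0 := by
        rintro rfl
        simp [dot] at hv
      rcases smul_eq_zero.1 h4 with h6 | h6
      · rw [div_eq_zero_iff] at h6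
        rcases h6 with h6 | h6
        · rw [h6] at hs
          exact lt_irrefl _ hs
        · exact hsum h6
      · exact h5 h6
    · exact D.T3 i false (by rw [D.T2, ← h2]; exact hp)
  · have e1 : dot (F.dir t (D.T' i false)) (F.dir t (D.T' i true)) = 0 := h2
    rw [hf, ht', dot_smul, dot_smul', hv, mul_one] at e1
    rw [e1] at hs
    exact lt_irrefl _ hs

/-- the vertex of the arc is on the same side as the tail block -/
theorem s1e_tail (hn : 8 ≤ n) {g : Pt} {i i' : Fin 3} (hii : i ≠ i')
    (hT : Lb.Tri g (D.L 0 false) (D.L i.succ false) (D.L i'.succ false))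
    (hx : D.tl i = 0 ∨ D.tl i = i.succ) {t : ℕ} (h0 : 0 < t) (h1 : t + 1 < n) :
    0 < (dot (F.pt t (D.L (D.tl i) false).a) (J g) - dot (F.pt t (D.L i'.succ false).a) (J g)) *
      (dot (F.pt t (D.fv i)) (J g) - dot (F.pt t (D.L i'.succ false).a) (J g)) := by
  have hfv := D.anchor hn i
  have hfv0 := D.s1e_fv hn hT hx hfv h0 h1
  have kT : ∀ b, (D.L (D.tl i) false).IN (F.e2 (D.T i b)) ∧
      0 < (dot (F.pt t (D.L (D.tl i) false).a) (J g) - dot (F.pt t (D.L i'.succ false).a) (J g)) *
      (dot (F.pt t (F.e2 (D.T i b))) (J g) - dot (F.pt t (D.L i'.succ false).a) (J g)) := by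
    intro b
    obtain ⟨k1, k2⟩ := D.s1e_seg hn hii hT hx (D.T1 i b) (D.T3 i b)
      (fun x' b' m => D.eT x' b' m i b) h0 h1
    exact ⟨k1, s1e_trans (D.s1e_block hn hii hT hx b h0 h1) k2⟩
  have kS : ∀ b, dot (F.dir t (D.T' i b)) g ≠ 0 →
      0 < (dot (F.pt t (F.e2 (D.T i b))) (J g) - dot (F.pt t (D.L i'.succ false).a) (J g)) *
      (dot (F.pt t (D.fv i)) (J g) - dot (F.pt t (D.L i'.succ false).a) (J g)) := by
    intro b hb
    have h := Lb.side (c := D.L i'.succ false) (by omega) hT.pc (σ := D.T' i b)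
      (fun m => D.eT' _ _ m i b)
      (by rw [D.T4]; exact D.fne i _ _)
      (fun h => D.T3 i b (by rw [D.T2, h]; exact (D.L i'.succ false).va)) (t := t) (by omega)
      (by rw [D.T4]; exact D.rgw hT hx hfv h0 h1)
      (by rw [← D.T2]; exact D.rgw hT hx (kT b).1 h0 h1) hb
    rw [D.T4, ← D.T2, mul_comm] at h
    exact h
  by_cases hf : dot (F.dir t (D.T' i false)) g = 0
  · by_cases ht' : dot (F.dir t (D.T' i true)) g = 0
    · by_contra hcon
      have hg := hT.pc.unit
      have kd : ∀ b, dot (F.dir t (D.T' i b)) (J g) =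
          (dot (F.pt t (F.e2 (D.T i b))) (J g) - dot (F.pt t (D.L i'.succ false).a) (J g)) -
          (dot (F.pt t (D.fv i)) (J g) - dot (F.pt t (D.L i'.succ false).a) (J g)) := by
        intro b
        unfold Fam.dir
        rw [D.T4, ← D.T2, dot_sub]
        ring
      set Yc := dot (F.pt t (D.L i'.succ false).a) (J g) with hYc
      set YT := dot (F.pt t (D.L (D.tl i) false).a) (J g) - Yc with hYT
      set Yf := dot (F.pt t (D.fv i)) (J g) - Yc with hYf
      have hYT0 : YT ≠ 0 := by
        intro h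
        have := (kT false).2
        rw [h, zero_mul] at this
        exact lt_irrefl _ this
      have hneg : YT * Yf < 0 := lt_of_le_of_ne (not_lt.1 hcon) (mul_ne_zero hYT0 hfv0)
      have kp : ∀ b, 0 < YT * dot (F.dir t (D.T' i b)) (J g) := by
        intro b
        rw [kd b, mul_sub]
        have := (kT b).2
        linarith
      refine D.s1e_overlap (t := t) (by omega) i (s1e_JJ hg) (s1e_expand hg hf)
        (s1e_expand hg ht') ?_
      have h3 := kp false
      rw [mul_comm] at h3
      exact s1e_trans h3 (kp true)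
    · exact s1e_trans (kT true).2 (kS true ht')
  · exact s1e_trans (kT false).2 (kS false hf)

/-- S1E. The third block `c = i' + 1` does not separate the blocks `0` and `i + 1` in the direction
`J g`.

Proof. Write `Y p = dot (pt t p) (J g) - dot (pt t c.a) (J g)`, `c = L (i' + 1) false`. By `side` (with
`rgw`) `Y` has the same sign (product positive) at both ends of a segment `σ` with ends confined in
the blocks `0` or `i + 1`, which is not perpendicular to `g`. All of the following is for
the tail block `tl i` and the head block `hd i`, `{tl i, hd i} = {0, i + 1}` (`ends`).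
(1) End segments of labels of these blocks are not perpendicular to `g` (nor to `J g`): `end_dir`
excludes all four directions of the frame (`exists_m`). So `Y` has the same sign at `(L x false).a`, at the
bend of `Z x`, and at `(L x true).a`, `x ∈ {tl i, hd i}`.
(2) The same sign at `(L (tl i) b).a` and `β b = e2 (T i b)` (`T i b` is an end segment).
(3) The same sign at `fv i`: if for some `b` the segment `T' i b` is not perpendicular to `g`
then by `side`. Otherwise both `T' i b` are parallel to `J g`. `Y (fv i) ≠ 0`, since otherwise `pt t (fv i)`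
lies on the wall of `c` in direction `g` or `- g` (`rgw`), contradiction to `F.avoid` (`fne`;
`e2 (w m)` is not a vertex but `fv i` is). If the sign of `Y (fv i)` is different from that of `Y (β b)`,
`b = false, true` (which are the same by (1), (2)), then both segments `T' i b` lead from `fv i` in
the same direction (`± J g`), and overlap, contradiction to `F.same` (`eTT`).
(4) The same sign at `fv i` and `e2 (R i)` by `side` (`hμ`), and at `e2 (R i) = e2 (R' i)` and
`(L (hd i) (po i)).a` (`R' i` is an end segment), and at `(L (hd i) false).a` by (1).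
(Products: `0 < a b`, `0 < b c` imply `0 < a c`.) Confinement: `end_conf`, `direct`,
`anchor`, `SC.IN`. -/
theorem nsep (hn : 8 ≤ n) {g : Pt} {i i' : Fin 3} (hii : i ≠ i')
    (hT : Lb.Tri g (D.L 0 false) (D.L i.succ false) (D.L i'.succ false)) {t : ℕ} (h0 : 1 < t)
    (h1 : t + 2 < n) (hμ : dot (F.dir t (D.R i)) g ≠ 0) :
    0 < (dot (F.pt t (D.L 0 false).a) (J g) - dot (F.pt t (D.L i'.succ false).a) (J g)) *
      (dot (F.pt t (D.L i.succ false).a) (J g) - dot (F.pt t (D.L i'.succ false).a) (J g)) := by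
  have h0' : 0 < t := by omega
  have h1' : t + 1 < n := by omega
  have hT1 : D.tl i = 0 ∨ D.tl i = i.succ := by
    rcases D.ends i with h | h
    · exact Or.inl h.1
    · exact Or.inr h.1
  have hH1 : D.hd i = 0 ∨ D.hd i = i.succ := by
    rcases D.ends i with h | h
    · exact Or.inr h.2
    · exact Or.inl h.2
  have k1 := D.s1e_tail hn hii hT hT1 h0' h1'
  obtain ⟨k2, k3⟩ := D.s1e_seg hn hii hT hH1 (D.R4 i) (by rw [← D.R2]; exact D.R3 i)
    (fun x' b' m => D.eR' x' b' m i) h0' h1'
  have k4 := D.s1e_block hn hii hT hH1 (D.po i) h0' h1'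
  have k5 := Lb.side (c := D.L i'.succ false) (by omega) hT.pc (σ := D.R i)
    (fun m => D.eR _ _ m i) (by rw [D.R1]; exact D.fne i _ _)
    (fun h => D.R3 i (by rw [h]; exact (D.L i'.succ false).va)) (t := t) (by omega)
    (by rw [D.R1]; exact D.rgw hT hT1 (D.anchor hn i) h0' h1')
    (by rw [D.R2]; exact D.rgw hT hH1 k2 h0' h1') hμ
  rw [D.R1, D.R2] at k5
  rw [mul_comm] at k3 k4
  have k6 := s1e_trans (s1e_trans (s1e_trans k1 k5) k3) k4
  rcases D.ends i with ⟨e1, e2⟩ | ⟨e1, e2⟩
  · rw [e1, e2] at k6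
    exact k6
  · rw [e1, e2, mul_comm] at k6
    exact k6

/-- S1E. The order. Proof: `nsep` for `i, i'` and for `i', i` (`Tri.swap`); `tri` with `link0`,
`center_plus`, `plus_all`. Real numbers: `0 < (a - c) (b - c)` and `0 < (a - b) (c - b)` imply
`(b - a) (c - a) < 0`. -/
theorem order (hn : 8 ≤ n) {f g : Pt} (hf : (D.L 0 false).Plus f) (hg : ax f g) {i i' : Fin 3}
    (hii : i ≠ i') {t : ℕ} (h0 : 1 < t) (h1 : t + 2 < n) (hμ : dot (F.dir t (D.R i)) g ≠ 0)
    (hμ' : dot (F.dir t (D.R i')) g ≠ 0) :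
    (dot (F.pt t (D.L i.succ false).a) (J g) - dot (F.pt t (D.L 0 false).a) (J g)) *
      (dot (F.pt t (D.L i'.succ false).a) (J g) - dot (F.pt t (D.L 0 false).a) (J g)) < 0 := by
  obtain ⟨p, q, hl⟩ := D.link0 hn i
  obtain ⟨p', q', hl'⟩ := D.link0 hn i'
  have hT := Lb.tri hn hl hl' hf hg ⟨t, by omega, hμ⟩ ⟨t, by omega, hμ'⟩
  have k1 := D.nsep hn hii hT h0 h1 hμ
  have k2 := D.nsep hn (Ne.symm hii) (hT.swap (by omega)) h0 h1 hμ'
  set a := dot (F.pt t (D.L 0 false).a) (J g)
  set b := dot (F.pt t (D.L i.succ false).a) (J g)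
  set c := dot (F.pt t (D.L i'.succ false).a) (J g)
  rcases lt_trichotomy b c with h | h | h
  · have h2 : a < c := by
      by_contra hcon
      push Not at hcon
      nlinarith
    have h3 : b < a := by
      by_contra hcon
      push Not at hcon
      nlinarith
    exact mul_neg_of_neg_of_pos (by linarith) (by linarith)
  · rw [h] at k1
    simp at k1
  · have h2 : c < a := by
      by_contra hcon
      push Not at hcon
      nlinarith
    have h3 : a < b := by
      by_contra hcon
      push Not at hcon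
      nlinarith
    exact mul_neg_of_pos_of_neg (by linarith) (by linarith)

end St1
end Pool.Agent.RAC
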