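import Pool.Agent.Lib_MP_638f75_lc.H.HC

/-!
# Vertex labels with walls (without strands): the lemmas of LABA, LABB, LABC, SCB for them

(copied from the files `LABA`, `LABB`, `Lab`, `Same`)
-/

namespace Pool.Agent.RAC

/-- a vertex label with four walls -/
structure Wb {n : ℕ} {P S E : Type} (F : Fam n P S E) where
  a : P
  d : Fin 4 → Pt
  w : Fin 4 → S
  va : F.ver a
  na : ¬ F.hub a
  w1 : ∀ m, F.e1 (w m) = a
  w2 : ∀ m, ¬ F.ver (F.e2 (w m))
  wi : ∀ m m', F.ed (w m) = F.ed (w m') → m = m'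
  W : Walls n (fun t => F.pt t a) d (fun t m => F.pt t (F.e2 (w m)))

namespace Wb

variable {n : ℕ} {P S E : Type} {F : Fam n P S E} (L : Wb F)

/-- the cells -/
def C (s u : ℕ) : Set Pt := K (fun t => F.pt t L.a) L.d s u

/-- the point label `p` is confined in the cells of `L` -/
def IN (p : P) : Prop := ∀ s t u, s < t → t < u → u < n → F.pt t p ∈ L.C s u

/-- LABA. A segment of another cluster is legal with respect to the walls. (`diff`; the ends of the
walls are not hubs.) -/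
theorem legal {t v : ℕ} (ht : t < n) (hv : v < n) (htv : t ≠ v) (σ : S) (m : Fin 4) :
    Lg (F.pt t (F.e1 σ)) (F.pt t (F.e2 σ)) (F.pt v L.a) (F.pt v (F.e2 (L.w m))) := by
  intro z h1 h2
  rcases F.diff t v ht hv htv σ (L.w m) z h1 (by rw [L.w1 m]; exact h2) with
    ⟨p, hp, -, h4, -⟩ | ⟨-, h4, h5⟩
  · exfalso
    rcases h4 with rfl | rfl
    · rw [L.w1 m] at hp; exact L.na hp
    · exact L.w2 m (F.hub_ver _ hp)
  · rw [L.w1 m] at h4 h5
    exact ⟨h4, h5⟩

/-- LABA. legality of the reversed segment -/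
theorem legal' {t v : ℕ} (ht : t < n) (hv : v < n) (htv : t ≠ v) (σ : S) (m : Fin 4) :
    Lg (F.pt t (F.e2 σ)) (F.pt t (F.e1 σ)) (F.pt v L.a) (F.pt v (F.e2 (L.w m))) := by
  intro z h1 h2
  rw [segment_symm] at h1
  have h := L.legal ht hv htv σ m z h1 h2
  refine ⟨h.1, ?_⟩
  have e : F.pt t (F.e1 σ) - F.pt t (F.e2 σ) = -(F.pt t (F.e2 σ) - F.pt t (F.e1 σ)) := by abel
  rw [e, dot_neg, h.2, neg_zero]

/-- LABA. homogeneity of the coordinates: `p` of cluster `t` against `q` of cluster `u`, in the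
direction `d m`. (`L.d m` is a positive multiple of `pt u (e2 (w m)) - pt u a`; `homD`.) -/
theorem hom_lt (m : Fin 4) (p q : P) (k : Fin 4) {t u t' u' : ℕ} (ht : t < n) (hu : u < n)
    (ht' : t' < n) (hu' : u' < n) (h : prec k t u) (h' : prec k t' u') :
    dot (F.pt t p) (L.d m) < dot (F.pt u q) (L.d m) ↔
      dot (F.pt t' p) (L.d m) < dot (F.pt u' q) (L.d m) := by
  obtain ⟨l, hl0, hl⟩ := L.W.wall u hu m
  obtain ⟨l', hl0', hl'⟩ := L.W.wall u' hu' m
  have e : F.pt u (F.e2 (L.w m)) - F.pt u L.a = l • L.d m := by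
    have : F.pt u (F.e2 (L.w m)) = F.pt u L.a + l • L.d m := hl
    rw [this]; abel
  have e' : F.pt u' (F.e2 (L.w m)) - F.pt u' L.a = l' • L.d m := by
    have : F.pt u' (F.e2 (L.w m)) = F.pt u' L.a + l' • L.d m := hl'
    rw [this]; abel
  have key : SignType.sign (dot (F.pt u q - F.pt t p) (F.pt u (F.e2 (L.w m)) - F.pt u L.a)) =
      SignType.sign (dot (F.pt u' q - F.pt t' p)
        (F.pt u' (F.e2 (L.w m)) - F.pt u' L.a)) := by
    unfold prec at h h'
    by_cases hk : k = 0 ∨ k = 2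
    · rw [if_pos hk] at h h'
      exact F.homD (false, p) (true, q) (true, L.a) (true, F.e2 (L.w m)) t u t' u' h hu h' hu'
    · rw [if_neg hk] at h h'
      exact F.homD (true, p) (false, q) (false, L.a) (false, F.e2 (L.w m)) u t u' t' h ht h' ht'
  rw [e, e', dot_smul', dot_smul', sign_mul, sign_mul, sign_pos hl0, sign_pos hl0', one_mul,
    one_mul, dot_sub, dot_sub] at key
  constructor
  · intro h1
    rw [sign_pos (sub_pos.2 h1)] at key
    exact sub_pos.1 (sign_eq_one_iff.1 key.symm)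
  · intro h1
    rw [sign_pos (sub_pos.2 h1)] at key
    exact sub_pos.1 (sign_eq_one_iff.1 key)

/-- LABA. homogeneity of signs of scalar products inside one cluster -/
theorem laba_homD (hn : 3 ≤ n) (m : Fin 4) (p q : P) {t t' : ℕ} (ht : t < n) (ht' : t' < n) :
    SignType.sign (dot (F.pt t q - F.pt t p) (L.d m)) =
      SignType.sign (dot (F.pt t' q - F.pt t' p) (L.d m)) := by
  have hw : ∀ t, t < n → ∃ l : ℝ, 0 < l ∧ F.pt t (F.e2 (L.w m)) - F.pt t L.a = l • L.d m := by
    intro t ht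
    obtain ⟨l, hl0, hl⟩ := L.W.wall t ht m
    refine ⟨l, hl0, ?_⟩
    have : F.pt t (F.e2 (L.w m)) = F.pt t L.a + l • L.d m := hl
    rw [this]; abel
  have hred : ∀ t, t < n → SignType.sign (dot (F.pt t q - F.pt t p)
      (F.pt t (F.e2 (L.w m)) - F.pt t L.a)) =
      SignType.sign (dot (F.pt t q - F.pt t p) (L.d m)) := by
    intro t ht
    obtain ⟨l, hl0, hl⟩ := hw t ht
    rw [hl, dot_smul', sign_mul, sign_pos hl0, one_mul]
  have h1 : ∀ t, t < n → SignType.sign (dot (F.pt t q - F.pt t p) (L.d m)) =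
      SignType.sign (dot (F.pt 1 q - F.pt 1 p) (L.d m)) := by
    intro t ht
    rw [← hred t ht, ← hred 1 (by omega)]
    rcases Nat.lt_or_ge t 1 with h | h
    · exact F.homD (false, p) (false, q) (false, L.a) (false, F.e2 (L.w m)) t 1 1 2 h (by omega)
        (by omega) (by omega)
    · exact F.homD (true, p) (true, q) (true, L.a) (true, F.e2 (L.w m)) 0 t 0 1 (by omega) ht
        (by omega) (by omega)
  rw [h1 t ht, h1 t' ht']

/-- LABA. homogeneity of signs of cross products inside one cluster -/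
theorem laba_homC (hn : 3 ≤ n) (m : Fin 4) (p q : P) {t t' : ℕ} (ht : t < n) (ht' : t' < n) :
    SignType.sign (crs (F.pt t q - F.pt t p) (L.d m)) =
      SignType.sign (crs (F.pt t' q - F.pt t' p) (L.d m)) := by
  have hw : ∀ t, t < n → ∃ l : ℝ, 0 < l ∧ F.pt t (F.e2 (L.w m)) - F.pt t L.a = l • L.d m := by
    intro t ht
    obtain ⟨l, hl0, hl⟩ := L.W.wall t ht m
    refine ⟨l, hl0, ?_⟩
    have : F.pt t (F.e2 (L.w m)) = F.pt t L.a + l • L.d m := hl
    rw [this]; abel
  have hred : ∀ t, t < n → SignType.sign (crs (F.pt t q - F.pt t p)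
      (F.pt t (F.e2 (L.w m)) - F.pt t L.a)) =
      SignType.sign (crs (F.pt t q - F.pt t p) (L.d m)) := by
    intro t ht
    obtain ⟨l, hl0, hl⟩ := hw t ht
    have hcr : ∀ (w v : Pt) (k : ℝ), crs w (k • v) = k * crs w v := by
      intro w v k; simp [crs]; ring
    rw [hl, hcr, sign_mul, sign_pos hl0, one_mul]
  have h1 : ∀ t, t < n → SignType.sign (crs (F.pt t q - F.pt t p) (L.d m)) =
      SignType.sign (crs (F.pt 1 q - F.pt 1 p) (L.d m)) := by
    intro t ht
    rw [← hred t ht, ← hred 1 (by omega)]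
    rcases Nat.lt_or_ge t 1 with h | h
    · exact F.homC (false, p) (false, q) (false, L.a) (false, F.e2 (L.w m)) t 1 1 2 h (by omega)
        (by omega) (by omega)
    · exact F.homC (true, p) (true, q) (true, L.a) (true, F.e2 (L.w m)) 0 t 0 1 (by omega) ht
        (by omega) (by omega)
  rw [h1 t ht, h1 t' ht']

/-- LABA. homogeneity of the direction of the vector between two points of a cluster -/
theorem hom_dir (hn : 3 ≤ n) (m : Fin 4) (p q : P) {t t' : ℕ} (ht : t < n) (ht' : t' < n)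
    (h : ∃ l : ℝ, 0 < l ∧ F.pt t q - F.pt t p = l • L.d m) :
    ∃ l : ℝ, 0 < l ∧ F.pt t' q - F.pt t' p = l • L.d m := by
  obtain ⟨l, hl0, hl⟩ := h
  have hu := L.W.unit m
  have hD := L.laba_homD hn m p q ht ht'
  have hC := L.laba_homC hn m p q ht ht'
  have hc0 : crs (F.pt t q - F.pt t p) (L.d m) = 0 := by
    rw [hl]; simp [crs]; ring
  have hd0 : 0 < dot (F.pt t q - F.pt t p) (L.d m) := by
    rw [hl, dot_smul, hu, mul_one]; exact hl0
  rw [hc0, sign_zero] at hC
  rw [sign_pos hd0] at hD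
  have hc1 : crs (F.pt t' q - F.pt t' p) (L.d m) = 0 := sign_eq_zero_iff.1 hC.symm
  have hd1 : 0 < dot (F.pt t' q - F.pt t' p) (L.d m) := sign_eq_one_iff.1 hD.symm
  refine ⟨_, hd1, ?_⟩
  have hne : L.d m ≠ 0 := by
    intro h
    rw [h] at hu
    simp [dot] at hu
  have := Fam.fbc_smul hne hc1
  rwa [hu, div_one] at this

/-- LABA. homogeneity of perpendicularity -/
theorem hom_perp (hn : 3 ≤ n) (m : Fin 4) (p q : P) {t t' : ℕ} (ht : t < n) (ht' : t' < n)
    (h : dot (F.pt t q - F.pt t p) (L.d m) = 0) : dot (F.pt t' q - F.pt t' p) (L.d m) = 0 := by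
  have hD := L.laba_homD hn m p q ht ht'
  rw [h, sign_zero] at hD
  exact sign_eq_zero_iff.1 hD.symm

/-- LABA. `L.IN` can be tested with far neighbours: by homogeneity it suffices that for every
direction `m` there is a pair `t, v` with `prec m t v` and `c_m (pt t p) < c_m (x v)`. -/
theorem IN_iff (hn : 3 ≤ n) (p : P) :
    L.IN p ↔ ∀ m, ∃ t v, t < n ∧ v < n ∧ prec m t v ∧
      dot (F.pt t p) (L.d m) < dot (F.pt v L.a) (L.d m) := by
  constructor
  · intro h m
    have h1 := h 0 1 2 (by omega) (by omega) (by omega)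
    have h2 : dot (F.pt 1 p) (L.d m) < dot (F.pt (lat m 0 2) L.a) (L.d m) := h1 m
    refine ⟨1, lat m 0 2, by omega, ?_, ?_, h2⟩
    · unfold lat; split_ifs <;> omega
    · unfold lat prec; split_ifs <;> omega
  · intro h s t u h1 h2 h3 m
    obtain ⟨t0, v0, h4, h5, h6, h7⟩ := h m
    show dot (F.pt t p) (L.d m) < dot (F.pt (lat m s u) L.a) (L.d m)
    refine (L.hom_lt m p L.a m (by omega) ?_ h4 h5 ?_ h6).2 h7
    · unfold lat; split_ifs <;> omega
    · unfold lat prec; split_ifs <;> omega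

/-- LABA. -/
theorem IN_lt {p : P} (hn : 3 ≤ n) (h : L.IN p) (m : Fin 4) {t v : ℕ} (ht : t < n) (hv : v < n)
    (htv : prec m t v) : dot (F.pt t p) (L.d m) < dot (F.pt v L.a) (L.d m) := by
  obtain ⟨t0, v0, h4, h5, h6, h7⟩ := (L.IN_iff hn p).1 h m
  exact (L.hom_lt m p L.a m ht hv h4 h5 htv h6).2 h7

theorem IN_self : L.IN L.a := fun _ _ _ h1 h2 h3 => L.W.x_mem_K h1 h2 h3


/-- LABB. Confined segments are never crossed by segments of other clusters.

Proof. Suppose `Xx (sg t σ) (sg u τ)`. If `t < u`: by homogeneity `sg (n-1) τ` crosses `sg 1 σ`, which is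
contained in the convex cell `C 0 2`, and `sg 3 σ ⊂ C 2 4`; `n - 1 > 4`. The part of the segment
`sg (n-1) τ` between the two crossing points is legal with respect to the walls of the clusters
`0, 2` (`legal`, `Lg.mono`): contradiction to `notwo`. If `u < t`: the same with `sg 0 τ`, `sg 2 σ ⊂ C 1 3`,
`sg 4 σ ⊂ C 3 5`. -/
theorem conf_inert (hn : 6 ≤ n) {σ : S} (h1 : L.IN (F.e1 σ)) (h2 : L.IN (F.e2 σ)) :
    F.Inert σ := by
  intro t u ht hu htu τ hX
  rcases lt_or_gt_of_ne htu with h | h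
  · have key : ∀ t' u' : ℕ, t' < u' → u' < n →
        Xx (F.pt t' (F.e1 σ), F.pt t' (F.e2 σ)) (F.pt u' (F.e1 τ), F.pt u' (F.e2 τ)) :=
      fun t' u' h3 h4 => (F.homX σ τ t u t' u' h hu h3 h4).1 hX
    obtain ⟨z1, hz1, hz1'⟩ := key 1 (n - 1) (by omega) (by omega)
    obtain ⟨z3, hz3, hz3'⟩ := key 3 (n - 1) (by omega) (by omega)
    have hc1 : z1 ∈ K (fun t => F.pt t L.a) L.d 0 2 :=
      Walls.K_convex (h1 0 1 2 (by omega) (by omega) (by omega))
        (h2 0 1 2 (by omega) (by omega) (by omega)) (openSegment_subset_segment ℝ _ _ hz1)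
    have hc3 : z3 ∈ K (fun t => F.pt t L.a) L.d 2 4 :=
      Walls.K_convex (h1 2 3 4 (by omega) (by omega) (by omega))
        (h2 2 3 4 (by omega) (by omega) (by omega)) (openSegment_subset_segment ℝ _ _ hz3)
    refine L.W.notwo (s := 0) (u := 2) (s' := 2) (u' := 4) (by omega) le_rfl (by omega) (by omega)
      hc1 hc3 ?_
    intro v hv m
    refine (L.legal (t := n - 1) (v := v) (by omega) (by omega) (by omega) τ m).mono
      (openSegment_subset_segment ℝ _ _ hz1') (openSegment_subset_segment ℝ _ _ hz3')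
  · have key : ∀ t' u' : ℕ, t' < u' → u' < n →
        Xx (F.pt t' (F.e1 τ), F.pt t' (F.e2 τ)) (F.pt u' (F.e1 σ), F.pt u' (F.e2 σ)) := by
      intro t' u' h3 h4
      refine (F.homX τ σ u t t' u' h ht h3 h4).1 ?_
      obtain ⟨z, hz, hz'⟩ := hX
      exact ⟨z, hz', hz⟩
    obtain ⟨z1, hz1', hz1⟩ := key 0 2 (by omega) (by omega)
    obtain ⟨z3, hz3', hz3⟩ := key 0 4 (by omega) (by omega)
    have hc1 : z1 ∈ K (fun t => F.pt t L.a) L.d 1 3 :=
      Walls.K_convex (h1 1 2 3 (by omega) (by omega) (by omega))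
        (h2 1 2 3 (by omega) (by omega) (by omega)) (openSegment_subset_segment ℝ _ _ hz1)
    have hc3 : z3 ∈ K (fun t => F.pt t L.a) L.d 3 5 :=
      Walls.K_convex (h1 3 4 5 (by omega) (by omega) (by omega))
        (h2 3 4 5 (by omega) (by omega) (by omega)) (openSegment_subset_segment ℝ _ _ hz3)
    refine L.W.notwo (s := 1) (u := 3) (s' := 3) (u' := 5) (by omega) le_rfl (by omega) (by omega)
      hc1 hc3 ?_
    intro v hv m
    refine (L.legal (t := 0) (v := v) (by omega) (by omega) (by omega) τ m).mono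
      (openSegment_subset_segment ℝ _ _ hz1') (openSegment_subset_segment ℝ _ _ hz3')

/-- one step of `IN_of_Conn` -/
theorem LABB_step {p q : P} {σ : S} (hσ : F.Inert σ)
    (hpq : (F.e1 σ = p ∧ F.e2 σ = q) ∨ (F.e1 σ = q ∧ F.e2 σ = p)) (h : L.IN p) : L.IN q := by
  intro s t u hst htu hu
  by_contra hq
  have hleg : ∀ v, v = s ∨ v = u → ∀ m, Lg (F.pt t p) (F.pt t q) (F.pt v L.a)
      (F.pt v (F.e2 (L.w m))) := by
    intro v hv m
    rcases hpq with ⟨h1, h2⟩ | ⟨h1, h2⟩
    · have := L.legal (t := t) (v := v) (by omega) (by omega) (by omega) σ m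
      rwa [h1, h2] at this
    · have := L.legal' (t := t) (v := v) (by omega) (by omega) (by omega) σ m
      rwa [h1, h2] at this
  obtain ⟨m, -, -, -, -, z, hz1, hz2, -⟩ :=
    L.W.exit (hst.trans htu) hu (h s t u hst htu hu) hq hleg
  have hv : lat m s u = s ∨ lat m s u = u := by
    unfold lat; split_ifs
    · exact Or.inr rfl
    · exact Or.inl rfl
  have hzσ : z ∈ segment ℝ (F.pt t (F.e1 σ)) (F.pt t (F.e2 σ)) := by
    rcases hpq with ⟨h1, h2⟩ | ⟨h1, h2⟩
    · rw [h1, h2]; exact hz1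
    · rw [h1, h2, segment_symm]; exact hz1
  have hz2' : z ∈ segment ℝ (F.pt (lat m s u) (F.e1 (L.w (st m))))
      (F.pt (lat m s u) (F.e2 (L.w (st m)))) := by
    rw [L.w1]
    exact openSegment_subset_segment ℝ _ _ hz2
  have hlt : lat m s u < n := by rcases hv with h | h <;> rw [h] <;> omega
  have hne : t ≠ lat m s u := by rcases hv with h | h <;> rw [h] <;> omega
  rcases F.diff t (lat m s u) (by omega) hlt hne σ (L.w (st m)) z hzσ hz2' with
    ⟨p', hp', -, hp2, -⟩ | ⟨ho1, ho2, -⟩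
  · rcases hp2 with hp2 | hp2
    · rw [L.w1] at hp2
      exact L.na (hp2 ▸ hp')
    · exact L.w2 (st m) (hp2 ▸ F.hub_ver _ hp')
  · exact hσ t (lat m s u) (by omega) hlt hne (L.w (st m)) ⟨z, ho1, ho2⟩

/-- LABB. Inert segments do not leave the cells. (If `pt t p ∈ C s u`, `pt t q ∉ C s u` then by `exit`
the segment crosses a wall of `s` or of `u` in an interior point of the wall; by `diff` it is a
crossing `Xx`, contradiction to inertness.) Induction on the path. -/
theorem IN_of_Conn {p q : P} (h : L.IN p) (hc : F.Conn p q) : L.IN q := by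
  induction hc with
  | refl => exact h
  | tail _ hb ih =>
    obtain ⟨σ, hσ, hpq⟩ := hb
    exact L.LABB_step hσ hpq ih

/-- LABB. A hub is never confined: it would be a common point of disjoint cells (`n ≥ 5`: `C 0 2`
and `C 2 4`). -/
theorem not_IN_hub (hn : 5 ≤ n) {p : P} (h : F.hub p) : ¬ L.IN p := by
  intro hin
  have h1 := hin 0 1 2 (by omega) (by omega) (by omega)
  have h3 := hin 2 3 4 (by omega) (by omega) (by omega)
  rw [F.hubc p h 3 1] at h3
  exact L.W.K_disjoint (s := 0) (u := 2) (s' := 2) (u' := 4) (by omega) le_rfl (by omega) (by omega)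
    h1 h3


private theorem labc_mem {x v : Pt} {l k : ℝ} (hl : 0 < l) (hk : 0 ≤ k) (hkl : k ≤ l) :
    x + k • v ∈ segment ℝ x (x + l • v) := by
  refine ⟨1 - k / l, k / l, ?_, by positivity, by ring, ?_⟩
  · rw [sub_nonneg, div_le_one hl]
    exact hkl
  · have h9 : k • v = (k / l) • (l • v) := by
      rw [smul_smul]
      congr 1
      field_simp
    rw [h9]
    module

private theorem labc_core {p q : P} {σ : S} (hp : p = L.a)
    (hs : (F.e1 σ = p ∧ F.e2 σ = q) ∨ (F.e1 σ = q ∧ F.e2 σ = p))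
    (he : ∀ m, F.ed σ ≠ F.ed (L.w m)) {t : ℕ} (ht : t < n)
    (m : Fin 4) {l : ℝ} (hl : 0 < l) : F.pt t q - F.pt t L.a ≠ l • L.d m := by
  intro h
  subst hp
  obtain ⟨l', hl', he'⟩ := L.W.wall t ht m
  have he2 : F.pt t (F.e2 (L.w m)) = F.pt t L.a + l' • L.d m := he'
  have hq : F.pt t q = F.pt t L.a + l • L.d m := by
    rw [← h]
    abel
  have hun : dot (L.d m) (L.d m) = 1 := L.W.unit m
  have hmin : 0 < min l l' := lt_min hl hl'
  have z1 : F.pt t L.a + (min l l') • L.d m ∈ segment ℝ (F.pt t L.a) (F.pt t q) := by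
    rw [hq]
    exact labc_mem hl hmin.le (min_le_left _ _)
  have z1' : F.pt t L.a + (min l l') • L.d m ∈
      segment ℝ (F.pt t (F.e1 σ)) (F.pt t (F.e2 σ)) := by
    rcases hs with ⟨h1, h2⟩ | ⟨h1, h2⟩
    · rw [h1, h2]
      exact z1
    · rw [h1, h2, segment_symm]
      exact z1
  have z2 : F.pt t L.a + (min l l') • L.d m ∈
      segment ℝ (F.pt t (F.e1 (L.w m))) (F.pt t (F.e2 (L.w m))) := by
    rw [L.w1 m, he2]
    exact labc_mem hl' hmin.le (min_le_right _ _)
  rcases F.same t ht σ (L.w m) (he m) _ z1' z2 with ⟨r, hr, -, h4, h5⟩ | ⟨-, -, h5⟩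
  · rcases h4 with h4 | h4
    · rw [h4, L.w1 m] at h5
      have h6 : (min l l') • L.d m = 0 := by
        have := sub_eq_zero.mpr h5
        rwa [add_sub_cancel_left] at this
      have h7 : dot ((min l l') • L.d m) (L.d m) = 0 := by
        rw [h6]
        simp [dot]
      rw [dot_smul, hun, mul_one] at h7
      exact hmin.ne' h7
    · rw [h4] at hr
      exact L.w2 m hr
  · have h6 : F.pt t (F.e2 (L.w m)) - F.pt t (F.e1 (L.w m)) = l' • L.d m := by
      rw [L.w1 m, he2, add_sub_cancel_left]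
    have h7 : F.pt t (F.e2 σ) - F.pt t (F.e1 σ) = l • L.d m ∨
        F.pt t (F.e2 σ) - F.pt t (F.e1 σ) = (-l) • L.d m := by
      rcases hs with ⟨h1, h2⟩ | ⟨h1, h2⟩
      · left
        rw [h1, h2, h]
      · right
        rw [h1, h2, neg_smul, ← h]
        abel
    rcases h7 with h7 | h7
    · rw [h6, h7, dot_smul, dot_smul', hun, mul_one] at h5
      exact (mul_pos hl hl').ne' h5
    · rw [h6, h7, dot_smul, dot_smul', hun, mul_one] at h5
      have := mul_pos hl hl'
      linarith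

/-- LABC. End segments at the vertex which are not walls are confined.

Proof. If `pt t (e2 σ) ∉ C s u` then by `exit` `dir t σ = l d m`, `l > 0`; the wall `w m` of the cluster `t`
starts at the same point in the same direction, and belongs to another edge: take a common point
near (but different from) `pt t a` and apply `same`: contradiction (`e2 (w m)` is not a vertex; the
only possible common vertex is `a`; and parallel segments are not perpendicular). -/
theorem end_conf {σ : S} (h1 : F.e1 σ = L.a) (he : ∀ m, F.ed σ ≠ F.ed (L.w m)) :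
    L.IN (F.e2 σ) := by
  intro s t u h2 h3 h4
  by_contra hc
  have hP : F.pt t L.a ∈ K (fun t => F.pt t L.a) L.d s u := L.W.x_mem_K h2 h3 h4
  obtain ⟨m, ⟨l, hl, h5⟩, -⟩ := L.W.exit (h2.trans h3) h4 hP hc (by
    intro v hv m
    have h6 := L.legal (t := t) (v := v) (by omega) (by omega) (by omega) σ m
    rw [h1] at h6
    exact h6)
  exact L.labc_core rfl (Or.inl ⟨h1, rfl⟩) he (by omega) m hl h5

/-- LABC. the same for a segment which ends at the vertex -/
theorem end_conf' {σ : S} (h1 : F.e2 σ = L.a) (he : ∀ m, F.ed σ ≠ F.ed (L.w m)) :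
    L.IN (F.e1 σ) := by
  intro s t u h2 h3 h4
  by_contra hc
  have hP : F.pt t L.a ∈ K (fun t => F.pt t L.a) L.d s u := L.W.x_mem_K h2 h3 h4
  obtain ⟨m, ⟨l, hl, h5⟩, -⟩ := L.W.exit (h2.trans h3) h4 hP hc (by
    intro v hv m
    have h6 := L.legal' (t := t) (v := v) (by omega) (by omega) (by omega) σ m
    rw [h1] at h6
    exact h6)
  exact L.labc_core rfl (Or.inr ⟨rfl, h1⟩) he (by omega) m hl h5

/-- LABC. End segments are not in the direction of the walls. -/
theorem end_dir {σ : S} (h1 : F.e1 σ = L.a) (he : ∀ m, F.ed σ ≠ F.ed (L.w m)) {t : ℕ} (ht : t < n)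
    (m : Fin 4) {l : ℝ} (hl : 0 < l) : F.pt t (F.e2 σ) - F.pt t L.a ≠ l • L.d m := by
  exact L.labc_core rfl (Or.inl ⟨h1, rfl⟩) he ht m hl

theorem end_dir' {σ : S} (h1 : F.e2 σ = L.a) (he : ∀ m, F.ed σ ≠ F.ed (L.w m)) {t : ℕ} (ht : t < n)
    (m : Fin 4) {l : ℝ} (hl : 0 < l) : F.pt t (F.e1 σ) - F.pt t L.a ≠ l • L.d m := by
  exact L.labc_core rfl (Or.inr ⟨rfl, h1⟩) he ht m hl

/-- The middle segment from `p` to `q` leaves the cells of `L` in the direction `m`. -/
structure Out (L : Wb F) (p q : P) (m : Fin 4) : Prop where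
  dir : ∀ t, t < n → ∃ l : ℝ, 0 < l ∧ F.pt t q - F.pt t p = l • L.d m
  far : ∀ t v, t < n → v < n → prec m t v →
    dot (F.pt v L.a) (L.d m) < dot (F.pt t q) (L.d m)
  lo : ∀ t v, t < n → v < n → prec m t v →
    dot (F.pt v L.a) (L.d (st m)) < dot (F.pt t p) (L.d (st m))
  hi : ∀ t v, t < n → v < n → prec m v t →
    dot (F.pt t p) (L.d (st m)) < dot (F.pt v L.a) (L.d (st m))

theorem SCB_prec_lat (m : Fin 4) : prec m 2 (lat m 1 3) := by
  fin_cases m <;> simp [prec, lat]

theorem SCB_prec_lat' (m : Fin 4) : prec m (lat m 3 1) 2 := by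
  fin_cases m <;> simp [prec, lat]

theorem SCB_lat_or (m : Fin 4) (s u : ℕ) : lat m s u = s ∨ lat m s u = u := by
  unfold lat
  split_ifs <;> simp

/-- a point of a segment in a given direction -/
theorem SCB_open {A B v z : Pt} {c l : ℝ} (hc : 0 < c) (hcl : c < l) (hB : B = A + l • v)
    (hz : z = A + c • v) : z ∈ openSegment ℝ A B := by
  have hl : 0 < l := hc.trans hcl
  refine ⟨1 - c / l, c / l, ?_, div_pos hc hl, by ring, ?_⟩
  · rw [sub_pos, div_lt_one hl]
    exact hcl
  · rw [hB, hz]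
    have h1 : c / l * l = c := div_mul_cancel₀ c hl.ne'
    ext
    · simp only [Prod.fst_add, Prod.smul_fst, smul_eq_mul]
      linear_combination v.1 * h1
    · simp only [Prod.snd_add, Prod.smul_snd, smul_eq_mul]
      linear_combination v.2 * h1

/-- a segment which starts in the cells and does not end there leaves them -/
theorem SCB_out (hn : 8 ≤ n) {L : Wb F} {μ : S} {p q : P}
    (he : (F.e1 μ = p ∧ F.e2 μ = q) ∨ (F.e1 μ = q ∧ F.e2 μ = p)) (hp : L.IN p) (hq : ¬ L.IN q) :
    ∃ m, Out L p q m := by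
  have hq' := hq
  rw [L.IN_iff (by omega)] at hq'
  push Not at hq'
  obtain ⟨m0, hm0⟩ := hq'
  have hQ : F.pt 2 q ∉ K (fun t => F.pt t L.a) L.d 1 3 := by
    intro hc
    have h1 := hc m0
    have h2 := hm0 2 (lat m0 1 3) (by omega) (by rcases SCB_lat_or m0 1 3 with h | h <;> omega)
      (SCB_prec_lat m0)
    simp only at h1
    linarith
  have hP : F.pt 2 p ∈ K (fun t => F.pt t L.a) L.d 1 3 := hp 1 2 3 (by omega) (by omega) (by omega)
  have hne : F.pt 2 p ≠ F.pt 2 q := by
    have h1 := F.nd 2 (by omega) μ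
    rcases he with ⟨h2, h3⟩ | ⟨h2, h3⟩
    · rwa [h2, h3] at h1
    · rw [h2, h3] at h1
      exact h1.symm
  obtain ⟨m, ⟨l, hl, hd⟩, h1, h2, h3, z, hz1, hz2, hz3⟩ := L.W.exit (s := 1) (u := 3) (by omega)
    (by omega) hP hQ (by
      intro v hv m
      have hv2 : v < n := by omega
      have hv3 : 2 ≠ v := by omega
      rcases he with ⟨h2, h3⟩ | ⟨h2, h3⟩
      · have := L.legal (t := 2) (by omega) hv2 hv3 μ m
        rwa [h2, h3] at this
      · have := L.legal' (t := 2) (by omega) hv2 hv3 μ m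
        rwa [h2, h3] at this)
  set v := lat m 1 3 with hv
  have hv' : v < n := by
    rcases SCB_lat_or m 1 3 with h | h
    · rw [hv, h]; omega
    · rw [hv, h]; omega
  have hv2 : (2 : ℕ) ≠ v := by
    rcases SCB_lat_or m 1 3 with h | h
    · rw [hv, h]; omega
    · rw [hv, h]; omega
  have hlt : dot (F.pt v L.a) (L.d m) < dot (F.pt 2 q) (L.d m) := by
    refine lt_of_le_of_ne h1 fun heq => ?_
    -- then `z` is the end `pt 2 q`
    have hPm : dot (F.pt 2 p) (L.d m) < dot (F.pt 2 q) (L.d m) := by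
      have h4 := hP m
      simp only at h4
      exact h4.trans_le h1
    have hzq : z = F.pt 2 q := by
      obtain ⟨a, b, ha, hb, hab, rfl⟩ := hz1
      rw [dot_add, dot_smul, dot_smul, heq] at hz3
      have h5 : a * (dot (F.pt 2 q) (L.d m) - dot (F.pt 2 p) (L.d m)) = 0 := by
        have : b = 1 - a := by linarith
        rw [this] at hz3
        linarith
      have h6 : a = 0 := by
        rcases mul_eq_zero.1 h5 with h | h
        · exact h
        · linarith
      have h7 : b = 1 := by linarith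
      rw [h6, h7, zero_smul, one_smul, zero_add]
    have hzs : z ∈ segment ℝ (F.pt 2 (F.e1 μ)) (F.pt 2 (F.e2 μ)) := by
      rcases he with ⟨h2, h3⟩ | ⟨h2, h3⟩
      · rw [h2, h3]; exact hz1
      · rw [h2, h3, segment_symm]; exact hz1
    have hzw : z ∈ segment ℝ (F.pt v (F.e1 (L.w (st m)))) (F.pt v (F.e2 (L.w (st m)))) := by
      rw [L.w1]
      exact openSegment_subset_segment _ _ _ hz2
    rcases F.diff 2 v (by omega) hv' hv2 μ (L.w (st m)) z hzs hzw with
      ⟨p', hp', -, hp'', -⟩ | ⟨h8, -, -⟩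
    · rcases hp'' with h9 | h9
      · rw [L.w1] at h9
        exact L.na (h9 ▸ hp')
      · exact L.w2 (st m) (h9 ▸ F.hub_ver _ hp')
    · have h9 : F.pt 2 q ∈ openSegment ℝ (F.pt 2 p) (F.pt 2 q) := by
        rw [hzq] at h8
        rcases he with ⟨h2, h3⟩ | ⟨h2, h3⟩
        · rwa [h2, h3] at h8
        · rwa [h2, h3, openSegment_symm] at h8
      rw [right_mem_openSegment_iff] at h9
      exact hne h9
  have hn3 : 3 ≤ n := by omega
  have hpl : prec m 2 v := SCB_prec_lat m
  have hpl' : prec m (lat m 3 1) 2 := SCB_prec_lat' m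
  have hv31 : lat m 3 1 < n := by
    rcases SCB_lat_or m 3 1 with h | h <;> rw [h] <;> omega
  refine ⟨m, fun t ht => ?_, fun t w ht hw htw => ?_, fun t w ht hw htw => ?_,
    fun t w ht hw htw => ?_⟩
  · exact L.hom_dir hn3 m p q (t := 2) (by omega) ht ⟨l, hl, hd⟩
  · exact (L.hom_lt m L.a q (st m) hv' (by omega) hw ht (prec_st.2 hpl) (prec_st.2 htw)).1 hlt
  · exact (L.hom_lt (st m) L.a p (st m) hv' (by omega) hw ht (prec_st.2 hpl) (prec_st.2 htw)).1 h2
  · exact (L.hom_lt (st m) p L.a (st m) (t := 2) (by omega) hv31 ht hw (prec_st.2 hpl')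
      (prec_st.2 htw)).1 h3

end Wb
end Pool.Agent.RAC

/-!
# Vertices with eight legs (two bends): definitions
-/

namespace Pool.Agent.RAC
namespace Fam

variable {n : ℕ} {P S E : Type} (F : Fam n P S E)

/-- the vertex label `a` is joined to eight hubs by edges with three segments `A i`, `M i`, `B i` -/
structure Legs2 (a : P) (A M B : Fin 8 → S) : Prop where
  na : ¬ F.hub a
  va : F.ver a
  A1 : ∀ i, F.e1 (A i) = a
  A2 : ∀ i, ¬ F.ver (F.e2 (A i))
  M1 : ∀ i, F.e1 (M i) = F.e2 (A i)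
  M2 : ∀ i, ¬ F.ver (F.e2 (M i))
  B1 : ∀ i, F.e1 (B i) = F.e2 (M i)
  B2 : ∀ i, F.hub (F.e2 (B i))
  Bi : ∀ i j, F.e2 (B i) = F.e2 (B j) → i = j
  eA : ∀ i j, F.ed (A i) = F.ed (A j) → i = j
  eM : ∀ i, F.ed (M i) = F.ed (A i)

/-- the number of crossings of the leg `i` of the cluster `0` and the leg `j` of the cluster `1`, plus
the same with `i`, `j` exchanged (hub segments are never crossed) -/
noncomputable def yy (A M : Fin 8 → S) (i j : Fin 8) : ZMod 2 :=
  (cr (F.sg 0 (A i)) (F.sg 1 (A j)) + cr (F.sg 0 (A i)) (F.sg 1 (M j)) +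
    cr (F.sg 0 (M i)) (F.sg 1 (A j)) + cr (F.sg 0 (M i)) (F.sg 1 (M j))) +
  (cr (F.sg 0 (A j)) (F.sg 1 (A i)) + cr (F.sg 0 (A j)) (F.sg 1 (M i)) +
    cr (F.sg 0 (M j)) (F.sg 1 (A i)) + cr (F.sg 0 (M j)) (F.sg 1 (M i)))

/-- the walls of a structured label -/
def _root_.Pool.Agent.RAC.Lb.toWb {F : Fam n P S E} (L : Lb F) : Wb F where
  a := L.a
  d := L.d
  w := L.w
  va := L.va
  na := L.na
  w1 := L.w1
  w2 := L.w2
  wi := L.wi
  W := L.W

end Fam
end Pool.Agent.RAC

/-!
# Vertices with eight legs: parity (pieces P2A, P2B)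
-/

namespace Pool.Agent.RAC
namespace Fam

variable {n : ℕ} {P S E : Type} (F : Fam n P S E)

/-- the four crossing terms of the leg `i` of the cluster `0` with the leg `j` of the cluster `1` -/
noncomputable def P2A_x (A M : Fin 8 → S) (i j : Fin 8) : ZMod 2 :=
  cr (F.sg 0 (A i)) (F.sg 1 (A j)) + cr (F.sg 0 (A i)) (F.sg 1 (M j)) +
    cr (F.sg 0 (M i)) (F.sg 1 (A j)) + cr (F.sg 0 (M i)) (F.sg 1 (M j))

theorem P2A_yy (A M : Fin 8 → S) (i j : Fin 8) :
    F.yy A M i j = F.P2A_x A M i j + F.P2A_x A M j i := rfl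

theorem P2A_crLL (s1 s2 s3 s4 t1 t2 t3 t4 : Pt) :
    crLL [s1, s2, s3, s4] [t1, t2, t3, t4] =
      (cr (s1, s2) (t1, t2) + cr (s1, s2) (t2, t3) + cr (s1, s2) (t3, t4)) +
        (cr (s2, s3) (t1, t2) + cr (s2, s3) (t2, t3) + cr (s2, s3) (t3, t4)) +
        (cr (s3, s4) (t1, t2) + cr (s3, s4) (t2, t3) + cr (s3, s4) (t3, t4)) := by
  simp [crLL, crL, segs]
  ring

theorem P2A_sgA {a : P} {A M B : Fin 8 → S} (h : F.Legs2 a A M B) (t : ℕ) (i : Fin 8) :
    (F.pt t a, F.pt t (F.e2 (A i))) = F.sg t (A i) := by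
  unfold sg
  rw [h.A1]

theorem P2A_sgM {a : P} {A M B : Fin 8 → S} (h : F.Legs2 a A M B) (t : ℕ) (i : Fin 8) :
    (F.pt t (F.e2 (A i)), F.pt t (F.e2 (M i))) = F.sg t (M i) := by
  unfold sg
  rw [h.M1]

theorem P2A_sgB {a : P} {A M B : Fin 8 → S} (h : F.Legs2 a A M B) (t : ℕ) (i : Fin 8) :
    (F.pt t (F.e2 (M i)), F.pt 0 (F.e2 (B i))) = F.sg t (B i) := by
  unfold sg
  rw [h.B1, F.hubc _ (h.B2 i) 0 t]

theorem P2A_term (hn : 6 ≤ n) {a : P} {A M B : Fin 8 → S} (h : F.Legs2 a A M B) {t u : ℕ}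
    (htu : t < u) (hu : u < n) (i j : Fin 8) :
    crLL [F.pt t a, F.pt t (F.e2 (A i)), F.pt t (F.e2 (M i)), F.pt 0 (F.e2 (B i))]
      [F.pt u a, F.pt u (F.e2 (A j)), F.pt u (F.e2 (M j)), F.pt 0 (F.e2 (B j))] =
      F.P2A_x A M i j := by
  rw [P2A_crLL]
  rw [F.P2A_sgA h t i, F.P2A_sgA h u j, F.P2A_sgM h t i, F.P2A_sgM h u j, F.P2A_sgB h t i,
    F.P2A_sgB h u j]
  have hinB : ∀ i, F.Inert (B i) := fun i => F.hub_inert (by omega) (h.B2 i)
  have hr : ∀ σ : S, cr (F.sg t σ) (F.sg u (B j)) = 0 := by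
    intro σ
    rw [cr_comm]
    exact STRA_cr_zero (hinB j u t hu (by omega) (by omega) σ)
  have hl : ∀ σ : S, cr (F.sg t (B i)) (F.sg u σ) = 0 := by
    intro σ
    exact STRA_cr_zero (hinB i t u (by omega) hu (by omega) σ)
  have h4 : ∀ σ τ : S, cr (F.sg t σ) (F.sg u τ) = cr (F.sg 0 σ) (F.sg 1 τ) := by
    intro σ τ
    exact STRA_cr_congr (F.homX σ τ t u 0 1 htu hu (by omega) (by omega))
  rw [hr, hr, hr, hl, hl, h4, h4, h4, h4]
  unfold P2A_x
  ring

/-- P2A. Parity for three different hubs.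

Proof. As `parity1` (piece STRA, file `STRA.lean`): `k33` for the points `pt 0 a, pt 1 a, pt 2 a` and
the hubs, with the polygonal lines `[pt t a, pt t (e2 (A i)), pt t (e2 (M i)), hub i]`. All hub segments
`B i` are inert (`hub_inert`), so `crLL (P t i) (P u j)`, `t < u`, is the sum of the four terms
`cr (sg t X) (sg u Y)`, `X ∈ {A i, M i}`, `Y ∈ {A j, M j}`, which do not depend on `t < u` (`homX`). So
the sum over the three pairs `t < u` is three times the sum of `yy` over the three pairs. -/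
theorem parity2 (hn : 6 ≤ n) {a : P} {A M B : Fin 8 → S} (h : F.Legs2 a A M B) {i j l : Fin 8}
    (hij : i ≠ j) (hjl : j ≠ l) (hil : i ≠ l) :
    F.yy A M i j + F.yy A M j l + F.yy A M i l = 1 := by
  classical
  have hc : ∀ x y : Fin 3, x ≠ y → (![i, j, l] : Fin 3 → Fin 8) x ≠ ![i, j, l] y := by
    intro x y hxy
    fin_cases x <;> fin_cases y <;> simp_all [Ne.symm]
  have hsegs : ∀ (t : ℕ) (i : Fin 8),
      segs [F.pt t a, F.pt t (F.e2 (A i)), F.pt t (F.e2 (M i)), F.pt 0 (F.e2 (B i))] =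
        [F.sg t (A i), F.sg t (M i), F.sg t (B i)] := by
    intro t i
    rw [← F.P2A_sgA h, ← F.P2A_sgM h, ← F.P2A_sgB h]
    rfl
  have hnA2 : ∀ i, ¬ F.hub (F.e2 (A i)) := fun i hh => h.A2 i (F.hub_ver _ hh)
  have hnM2 : ∀ i, ¬ F.hub (F.e2 (M i)) := fun i hh => h.M2 i (F.hub_ver _ hh)
  have hA : ∀ (i : Fin 8) (p : P), F.hub p → ¬ (p = F.e1 (A i) ∨ p = F.e2 (A i)) := by
    rintro i p hp (rfl | rfl)
    · rw [h.A1] at hp; exact h.na hp
    · exact hnA2 _ hp
  have hM : ∀ (i : Fin 8) (p : P), F.hub p → ¬ (p = F.e1 (M i) ∨ p = F.e2 (M i)) := by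
    rintro i p hp (rfl | rfl)
    · rw [h.M1] at hp; exact hnA2 _ hp
    · exact hnM2 _ hp
  have key := k33 (fun t : Fin 3 => F.pt (t : ℕ) a)
    (fun x : Fin 3 => F.pt 0 (F.e2 (B ((![i, j, l] : Fin 3 → Fin 8) x))))
    (fun t x => [F.pt (t : ℕ) a, F.pt (t : ℕ) (F.e2 (A ((![i, j, l] : Fin 3 → Fin 8) x))),
      F.pt (t : ℕ) (F.e2 (M ((![i, j, l] : Fin 3 → Fin 8) x))),
      F.pt 0 (F.e2 (B ((![i, j, l] : Fin 3 → Fin 8) x)))])
    (fun _ _ => by simp) (fun _ _ => rfl) (fun _ _ => rfl)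
    (by
      intro t x s hs
      rw [hsegs] at hs
      have ht : (t : ℕ) < n := by have := t.isLt; omega
      simp only [List.mem_cons, List.not_mem_nil, or_false] at hs
      rcases hs with hs | hs | hs
      · rw [hs]; exact F.nd _ ht _
      · rw [hs]; exact F.nd _ ht _
      · rw [hs]; exact F.nd _ ht _)
    (by
      intro t u x y htu hxy s hs s' hs'
      have ht : (t : ℕ) < n := by have := t.isLt; omega
      have hu : (u : ℕ) < n := by have := u.isLt; omega
      have htu' : (t : ℕ) ≠ (u : ℕ) := fun hh => htu (Fin.ext hh)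
      have hcxy := hc x y hxy
      rw [hsegs] at hs hs'
      simp only [List.mem_cons, List.not_mem_nil, or_false] at hs hs'
      rcases hs with hs | hs | hs <;> rcases hs' with hs' | hs' | hs' <;> rw [hs, hs'] <;>
        apply F.ok_diff ht hu htu'
      · intro p hp hp1 _; exact hA _ p hp hp1
      · intro p hp hp1 _; exact hA _ p hp hp1
      · intro p hp hp1 _; exact hA _ p hp hp1
      · intro p hp hp1 _; exact hM _ p hp hp1
      · intro p hp hp1 _; exact hM _ p hp hp1
      · intro p hp hp1 _; exact hM _ p hp hp1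
      · intro p hp _ hp1; exact hA _ p hp hp1
      · intro p hp _ hp1; exact hM _ p hp hp1
      · intro p hp hp1 hp2
        rcases hp1 with hp1 | hp1
        · rw [hp1, h.B1] at hp; exact hnM2 _ hp
        · rcases hp2 with hp2 | hp2
          · rw [hp2, h.B1] at hp; exact hnM2 _ hp
          · exact hcxy (h.Bi _ _ (hp1.symm.trans hp2)))
  have key2 : (∑ t : Fin 3, ∑ u : Fin 3, ∑ x : Fin 3, ∑ y : Fin 3,
      if t < u ∧ x ≠ y then
        F.P2A_x A M ((![i, j, l] : Fin 3 → Fin 8) x) ((![i, j, l] : Fin 3 → Fin 8) y)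
          else 0) = 1 := by
    rw [← key]
    apply Finset.sum_congr rfl
    intro t _
    apply Finset.sum_congr rfl
    intro u _
    apply Finset.sum_congr rfl
    intro x _
    apply Finset.sum_congr rfl
    intro y _
    by_cases hcond : t < u ∧ x ≠ y
    · rw [if_pos hcond, if_pos hcond]
      have htu : (t : ℕ) < (u : ℕ) := hcond.1
      have hu : (u : ℕ) < n := by have := u.isLt; omega
      exact (F.P2A_term hn h htu hu _ _).symm
    · rw [if_neg hcond, if_neg hcond]
  rw [STRA_sum3 (fun x y => F.P2A_x A M ((![i, j, l] : Fin 3 → Fin 8) x)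
    ((![i, j, l] : Fin 3 → Fin 8) y))] at key2
  exact key2

theorem P2A_yy_comm (A M : Fin 8 → S) (i j : Fin 8) : F.yy A M i j = F.yy A M j i := by
  rw [P2A_yy, P2A_yy, add_comm]

/-- P2B. Two classes of legs: `c 0 = 0`, `c j = yy 0 j + 1` for `j ≠ 0`; `yy` is symmetric. -/
theorem classes (hn : 6 ≤ n) {a : P} {A M B : Fin 8 → S} (h : F.Legs2 a A M B) :
    ∃ c : Fin 8 → ZMod 2, ∀ i j, i ≠ j → F.yy A M i j = 1 + c i + c j := by
  have h2 : (2 : ZMod 2) = 0 := by decide
  refine ⟨fun j => if j = 0 then 0 else F.yy A M 0 j + 1, ?_⟩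
  intro i j hij
  by_cases hi : i = 0
  · subst hi
    have hj : j ≠ 0 := fun hh => hij hh.symm
    simp only [if_true, if_neg hj]
    linear_combination -h2
  · by_cases hj : j = 0
    · subst hj
      simp only [if_true, if_neg hi]
      rw [F.P2A_yy_comm A M i 0]
      linear_combination -h2
    · simp only [if_neg hi, if_neg hj]
      have := F.parity2 hn h (i := 0) (j := i) (l := j) (fun hh => hi hh.symm) hij
        (fun hh => hj hh.symm)
      linear_combination this - (F.yy A M 0 i + F.yy A M 0 j + 1) * h2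

end Fam
end Pool.Agent.RAC

/-!
# Vertices with eight legs: four inert arms (piece P2C)
-/

namespace Pool.Agent.RAC
namespace Fam

variable {n : ℕ} {P S E : Type} (F : Fam n P S E)

/-- P2C. Two legs with inert arms in the same class have perpendicular middle segments.

Proof. `yy i j = 1 ≠ 0`, and the arms are inert, so all `cr` with an arm are `0` and `M i`, `M j` cross
for some order of the clusters `0, 1`. By `homX` they cross for all pairs in this order; as in `perp1`
(file `STRA.lean`) all `dir t (M i)` are parallel to each other and perpendicular to all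
`dir u (M j)`, `1 ≤ t, u ≤ n - 2`. -/
theorem perp2 (hn : 6 ≤ n) {A M : Fin 8 → S} {i j : Fin 8} (hi : F.Inert (A i))
    (hj : F.Inert (A j)) (h : F.yy A M i j ≠ 0) :
    ∀ t u, 1 ≤ t → t ≤ n - 2 → 1 ≤ u → u ≤ n - 2 → dot (F.dir t (M i)) (F.dir u (M j)) = 0 := by
  have hA : ∀ k, F.Inert (A k) → ∀ τ : S, cr (F.sg 0 (A k)) (F.sg 1 τ) = 0 := fun k hk τ =>
    STRA_cr_zero (hk 0 1 (by omega) (by omega) (by omega) τ)
  have hA' : ∀ k, F.Inert (A k) → ∀ τ : S, cr (F.sg 0 τ) (F.sg 1 (A k)) = 0 := fun k hk τ => by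
    rw [cr_comm]
    exact STRA_cr_zero (hk 1 0 (by omega) (by omega) (by omega) τ)
  have hyy : F.yy A M i j = cr (F.sg 0 (M i)) (F.sg 1 (M j)) + cr (F.sg 0 (M j)) (F.sg 1 (M i)) := by
    unfold yy
    rw [hA i hi, hA i hi, hA' j hj, hA j hj, hA j hj, hA' i hi]
    ring
  rw [hyy] at h
  intro t u ht ht' hu hu'
  by_cases h1 : Xx (F.sg 0 (M i)) (F.sg 1 (M j))
  · exact F.STRA_perp hn h1 ht' hu (by omega)
  · by_cases h2 : Xx (F.sg 0 (M j)) (F.sg 1 (M i))
    · rw [STRA_dot_comm]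
      exact F.STRA_perp hn h2 hu' ht (by omega)
    · exact absurd (by rw [STRA_cr_zero h1, STRA_cr_zero h2, add_zero]) h

theorem P2C_three {x y z : Pt} (hx : x ≠ 0) (hy : y ≠ 0) (hz : z ≠ 0) (hxy : dot x y = 0)
    (hxz : dot x z = 0) (hyz : dot y z = 0) : False := by
  have h := STRA_dot_zero (p := x) (q := y) (v := x) (w := z) hz hy hxz hyz
    (by rw [STRA_dot_comm]; exact hxy)
  exact STRA_sq_ne hx h

theorem P2C_class (hn : 6 ≤ n) {A M : Fin 8 → S}
    {c : Fin 8 → ZMod 2} (hc : ∀ i j, i ≠ j → F.yy A M i j = 1 + c i + c j) {T : Finset (Fin 8)}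
    (hT : ∀ i ∈ T, F.Inert (A i)) (hcT : ∀ i ∈ T, ∀ j ∈ T, c i = c j) : T.card ≤ 2 := by
  by_contra hcon
  push Not at hcon
  obtain ⟨x, hx, y, hy, z, hz, hxy, hxz, hyz⟩ := Finset.two_lt_card.1 hcon
  have h2 : ∀ w : ZMod 2, 1 + w + w ≠ 0 := by decide
  have key : ∀ i ∈ T, ∀ j ∈ T, i ≠ j → dot (F.dir 1 (M i)) (F.dir 1 (M j)) = 0 := by
    intro i hi j hj hij
    refine F.perp2 hn (hT i hi) (hT j hj) ?_ 1 1 le_rfl (by omega) le_rfl (by omega)
    rw [hc i j hij, hcT i hi j hj]
    exact h2 _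
  have hnz : ∀ i, F.dir 1 (M i) ≠ 0 := by
    intro i h0
    exact F.nd 1 (by omega) (M i) (sub_eq_zero.1 h0).symm
  exact P2C_three (hnz x) (hnz y) (hnz z) (key x hx y hy hxy) (key x hx z hz hxz)
    (key y hy z hz hyz)

/-- P2C. Exactly four arms are inert, two in each class.

Proof. Among three legs with inert arms in the same class the middle segments of the cluster `1`
would be pairwise perpendicular (`perp2`, `yy = 1 + c i + c j = 1`): impossible for three nonzero vectors of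
the plane. So each class contains at most two legs with inert arms. By `no_five` at most
four arms are not inert. So there are exactly four of both kinds, and two inert ones in each of the two
classes (`ZMod 2` has two elements). -/
theorem four_four (hn : 6 ≤ n) {a : P} {A M B : Fin 8 → S} (h : F.Legs2 a A M B)
    {c : Fin 8 → ZMod 2} (hc : ∀ i j, i ≠ j → F.yy A M i j = 1 + c i + c j) :
    ∃ N I : Fin 4 → Fin 8, Function.Injective N ∧ Function.Injective I ∧
      (∀ k k', N k ≠ I k') ∧ (∀ k, ¬ F.Inert (A (N k))) ∧ (∀ k, F.Inert (A (I k))) ∧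
      c (I 0) = c (I 1) ∧ c (I 2) = c (I 3) ∧ c (I 0) ≠ c (I 2) := by
  classical
  obtain ⟨NN, hNN⟩ : ∃ T : Finset (Fin 8), T = Finset.univ.filter (fun i => ¬ F.Inert (A i)) :=
    ⟨_, rfl⟩
  obtain ⟨I0, hI0⟩ : ∃ T : Finset (Fin 8),
      T = Finset.univ.filter (fun i => F.Inert (A i) ∧ c i = 0) := ⟨_, rfl⟩
  obtain ⟨I1, hI1⟩ : ∃ T : Finset (Fin 8),
      T = Finset.univ.filter (fun i => F.Inert (A i) ∧ c i = 1) := ⟨_, rfl⟩
  have hz2 : ∀ w : ZMod 2, w ≠ 0 → w = 1 := by decide
  have hmN : ∀ i, i ∈ NN ↔ ¬ F.Inert (A i) := fun i => by simp [hNN]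
  have hm0 : ∀ i, i ∈ I0 ↔ F.Inert (A i) ∧ c i = 0 := fun i => by simp [hI0]
  have hm1 : ∀ i, i ∈ I1 ↔ F.Inert (A i) ∧ c i = 1 := fun i => by simp [hI1]
  have hd01 : Disjoint I0 I1 := by
    rw [Finset.disjoint_left]
    intro i h0 h1
    have e0 := ((hm0 i).1 h0).2
    have e1 := ((hm1 i).1 h1).2
    rw [e0] at e1
    exact absurd e1 (by decide)
  have hdN : Disjoint (I0 ∪ I1) NN := by
    rw [Finset.disjoint_left]
    intro i h0 h1
    rcases Finset.mem_union.1 h0 with h0 | h0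
    · exact (hmN i).1 h1 ((hm0 i).1 h0).1
    · exact (hmN i).1 h1 ((hm1 i).1 h0).1
  have hun : (I0 ∪ I1) ∪ NN = Finset.univ := by
    ext i
    refine ⟨fun _ => Finset.mem_univ _, fun _ => ?_⟩
    by_cases hin : F.Inert (A i)
    · by_cases hci : c i = 0
      · exact Finset.mem_union_left _ (Finset.mem_union_left _ ((hm0 i).2 ⟨hin, hci⟩))
      · exact Finset.mem_union_left _ (Finset.mem_union_right _ ((hm1 i).2 ⟨hin, hz2 _ hci⟩))
    · exact Finset.mem_union_right _ ((hmN i).2 hin)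
  have hcard : I0.card + I1.card + NN.card = 8 := by
    rw [← Finset.card_union_of_disjoint hd01, ← Finset.card_union_of_disjoint hdN, hun]
    rfl
  have h0 : I0.card ≤ 2 := F.P2C_class hn hc (fun i hi => ((hm0 i).1 hi).1)
    (fun i hi j hj => by rw [((hm0 i).1 hi).2, ((hm0 j).1 hj).2])
  have h1 : I1.card ≤ 2 := F.P2C_class hn hc (fun i hi => ((hm1 i).1 hi).1)
    (fun i hi j hj => by rw [((hm1 i).1 hi).2, ((hm1 j).1 hj).2])
  have hN4 : NN.card ≤ 4 := by
    by_contra hcon
    push Not at hcon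
    obtain ⟨T, hTN, hT⟩ := Finset.exists_subset_card_eq (s := NN) (n := 5) (by omega)
    refine F.no_five hn (a := a) (fun i => A (T.orderEmbOfFin hT i)) (fun i => ?_)
      (fun i j hij => ?_) (fun i => ?_)
    · exact ⟨h.na, h.va, h.A1 _, h.A2 _⟩
    · exact (T.orderEmbOfFin hT).injective (h.eA _ _ hij)
    · exact (hmN _).1 (hTN (T.orderEmbOfFin_mem hT i))
  have hN : NN.card = 4 := by omega
  have hc0 : I0.card = 2 := by omega
  have hc1 : I1.card = 2 := by omega
  obtain ⟨p, q, hpq, hI0'⟩ := Finset.card_eq_two.1 hc0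
  obtain ⟨r, s, hrs, hI1'⟩ := Finset.card_eq_two.1 hc1
  have hp := (hm0 p).1 (by rw [hI0']; simp)
  have hq := (hm0 q).1 (by rw [hI0']; simp)
  have hr := (hm1 r).1 (by rw [hI1']; simp)
  have hs := (hm1 s).1 (by rw [hI1']; simp)
  have hne : ∀ x y, c x = 0 → c y = 1 → x ≠ y := by
    rintro x y hx hy rfl
    rw [hx] at hy
    exact absurd hy (by decide)
  have hpr := hne p r hp.2 hr.2
  have hps := hne p s hp.2 hs.2
  have hqr := hne q r hq.2 hr.2
  have hqs := hne q s hq.2 hs.2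
  have hI : ∀ k : Fin 4, F.Inert (A ((![p, q, r, s] : Fin 4 → Fin 8) k)) := by
    intro k
    fin_cases k
    · exact hp.1
    · exact hq.1
    · exact hr.1
    · exact hs.1
  refine ⟨NN.orderEmbOfFin hN, ![p, q, r, s], (NN.orderEmbOfFin hN).injective, ?_, ?_, ?_, hI,
    ?_, ?_, ?_⟩
  · intro x y hxy
    fin_cases x <;> fin_cases y <;>
      first
        | rfl
        | exact absurd hxy hpq
        | exact absurd hxy hpq.symm
        | exact absurd hxy hpr
        | exact absurd hxy hpr.symm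
        | exact absurd hxy hps
        | exact absurd hxy hps.symm
        | exact absurd hxy hqr
        | exact absurd hxy hqr.symm
        | exact absurd hxy hqs
        | exact absurd hxy hqs.symm
        | exact absurd hxy hrs
        | exact absurd hxy hrs.symm
  · intro k k' hk
    have h2 := (hmN _).1 (NN.orderEmbOfFin_mem hN k)
    rw [hk] at h2
    exact h2 (hI k')
  · intro k
    exact (hmN _).1 (NN.orderEmbOfFin_mem hN k)
  · show c p = c q
    rw [hp.2, hq.2]
  · show c r = c s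
    rw [hr.2, hs.2]
  · show c p ≠ c r
    rw [hp.2, hr.2]
    decide

end Fam
end Pool.Agent.RAC

/-!
# Crossings of segments which leave the cells (piece P2E)
-/

namespace Pool.Agent.RAC
namespace Wb

variable {n : ℕ} {P S E : Type} {F : Fam n P S E} (L : Wb F)

/-- A point of a segment which leaves the cells in the direction `m` lies in the cell or in the
quadrant of the neighbour. -/
theorem P2E_key (hn : 8 ≤ n) {σ : S} {m : Fin 4} (h1 : L.IN (F.e1 σ))
    (h2 : L.Out (F.e1 σ) (F.e2 σ) m) {t : ℕ} (ht1 : 1 ≤ t) (ht2 : t + 1 < n) {z : Pt}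
    (hz : z ∈ segment ℝ (F.pt t (F.e1 σ)) (F.pt t (F.e2 σ)))
    (hQ : z ∉ K (fun t => F.pt t L.a) L.d (t - 1) (t + 1)) :
    dot (F.pt (lat m (t - 1) (t + 1)) L.a) (L.d m) ≤ dot z (L.d m) ∧
      dot (F.pt (lat m (t - 1) (t + 1)) L.a) (L.d (st m)) ≤ dot z (L.d (st m)) := by
  have hP : F.pt t (F.e1 σ) ∈ K (fun t => F.pt t L.a) L.d (t - 1) (t + 1) :=
    h1 (t - 1) t (t + 1) (by omega) (by omega) ht2
  have hw : ∀ v, v = t - 1 ∨ v = t + 1 → ∀ m', Lg (F.pt t (F.e1 σ)) z
      ((fun t => F.pt t L.a) v) ((fun t m => F.pt t (F.e2 (L.w m))) v m') := by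
    intro v hv m'
    exact (L.legal (t := t) (v := v) (by omega) (by omega) (by omega) σ m').mono
      (left_mem_segment ℝ _ _) hz
  obtain ⟨m', ⟨l, hl, hle⟩, ha, hb, -, -⟩ := L.W.exit (by omega) ht2 hP hQ hw
  obtain ⟨l', hl', he'⟩ := h2.dir t (by omega)
  have hd : L.d m' = L.d m := by
    obtain ⟨a, b, ha', hb', hab, hz'⟩ := hz
    have e1 : z - F.pt t (F.e1 σ) = (b * l') • L.d m := by
      have e0 : F.pt t (F.e2 σ) = F.pt t (F.e1 σ) + l' • L.d m := by
        rw [← he']
        abel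
      rw [← hz', e0]
      obtain rfl : a = 1 - b := by linarith
      module
    rw [hle] at e1
    have e2 : dot (l • L.d m') (l • L.d m') = dot ((b * l') • L.d m) ((b * l') • L.d m) := by
      rw [e1]
    rw [dot_smul, dot_smul', dot_smul, dot_smul', L.W.unit, L.W.unit] at e2
    have e3 : l = b * l' := by
      have e4 : 0 ≤ b * l' := by positivity
      nlinarith
    rw [← e3] at e1
    exact smul_right_injective _ hl.ne' e1
  have hm' : m' = m := L.W.d_inj (by omega) hd
  subst hm'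
  refine ⟨ha, ?_⟩
  have e1 : z = F.pt t (F.e1 σ) + l • L.d m' := by
    rw [← hle]
    abel
  have e2 : dot z (L.d (st m')) = dot (F.pt t (F.e1 σ)) (L.d (st m')) := by
    rw [e1, dot_add, dot_smul, L.W.perp m']
    ring
  rw [e2]
  exact hb.le

/-- the main case: the clusters `1`, `4` -/
theorem P2E_main (hn : 8 ≤ n) {σ τ : S} {m m' : Fin 4} (h1 : L.IN (F.e1 σ))
    (h2 : L.Out (F.e1 σ) (F.e2 σ) m) (h1' : L.IN (F.e1 τ)) (h2' : L.Out (F.e1 τ) (F.e2 τ) m')
    (hm : m' ≠ m) (hm' : m' ≠ st m) : ¬ Xx (F.sg 1 σ) (F.sg 4 τ) := by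
  rintro ⟨z, hz, hz'⟩
  have hz1 : z ∈ segment ℝ (F.pt 1 (F.e1 σ)) (F.pt 1 (F.e2 σ)) :=
    openSegment_subset_segment ℝ _ _ hz
  have hz4 : z ∈ segment ℝ (F.pt 4 (F.e1 τ)) (F.pt 4 (F.e2 τ)) :=
    openSegment_subset_segment ℝ _ _ hz'
  by_cases hA : z ∈ K (fun t => F.pt t L.a) L.d 0 2
  · by_cases hB : z ∈ K (fun t => F.pt t L.a) L.d 3 5
    · exact L.W.K_disjoint (s := 0) (u := 2) (s' := 3) (u' := 5) (by omega) (by omega) (by omega)
        (by omega) hA hB
    · have hR : F.pt 4 (F.e1 τ) ∈ K (fun t => F.pt t L.a) L.d 3 5 :=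
        h1' 3 4 5 (by omega) (by omega) (by omega)
      refine L.W.notwo (s := 0) (u := 2) (s' := 3) (u' := 5) (by omega) (by omega) (by omega)
        (by omega) hA hR ?_
      intro v hv k
      exact (L.legal (t := 4) (v := v) (by omega) (by omega) (by omega) τ k).mono hz4
        (left_mem_segment ℝ _ _)
  · by_cases hB : z ∈ K (fun t => F.pt t L.a) L.d 3 5
    · have hR : F.pt 1 (F.e1 σ) ∈ K (fun t => F.pt t L.a) L.d 0 2 :=
        h1 0 1 2 (by omega) (by omega) (by omega)
      refine L.W.notwo (s := 0) (u := 2) (s' := 3) (u' := 5) (by omega) (by omega) (by omega)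
        (by omega) hR hB ?_
      intro v hv k
      exact (L.legal (t := 1) (v := v) (by omega) (by omega) (by omega) σ k).mono
        (left_mem_segment ℝ _ _) hz1
    · obtain ⟨a1, a2⟩ := L.P2E_key hn h1 h2 (t := 1) le_rfl (by omega) hz1 hA
      obtain ⟨b1, b2⟩ := L.P2E_key hn h1' h2' (t := 4) (by omega) (by omega) hz4 hB
      have hv := SCB_lat_or m (1 - 1) (1 + 1)
      have hw := SCB_lat_or m' (4 - 1) (4 + 1)
      have hvn : lat m (1 - 1) (1 + 1) < n := by omega
      have hwn : lat m' (4 - 1) (4 + 1) < n := by omega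
      have hvw : lat m (1 - 1) (1 + 1) ≠ lat m' (4 - 1) (4 + 1) := by omega
      generalize lat m (1 - 1) (1 + 1) = v at *
      generalize lat m' (4 - 1) (4 + 1) = w at *
      have hcase : ∀ m m' : Fin 4, m' ≠ m → m' ≠ st m →
          (m = 0 ∧ m' = 2) ∨ (m = 0 ∧ m' = 3) ∨ (m = 1 ∧ m' = 2) ∨ (m = 1 ∧ m' = 3) ∨
          (m = 2 ∧ m' = 0) ∨ (m = 2 ∧ m' = 1) ∨ (m = 3 ∧ m' = 0) ∨ (m = 3 ∧ m' = 1) := by
        decide
      rcases hcase m m' hm hm' with ⟨rfl, rfl⟩ | ⟨rfl, rfl⟩ | ⟨rfl, rfl⟩ | ⟨rfl, rfl⟩ |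
        ⟨rfl, rfl⟩ | ⟨rfl, rfl⟩ | ⟨rfl, rfl⟩ | ⟨rfl, rfl⟩
      · exact L.W.lr_disj_x (z := z) hvn hwn hvw a1 a2 b1 b2
      · exact L.W.lr_disj_x (z := z) hvn hwn hvw a1 a2 b2 b1
      · exact L.W.lr_disj_x (z := z) hvn hwn hvw a2 a1 b1 b2
      · exact L.W.lr_disj_x (z := z) hvn hwn hvw a2 a1 b2 b1
      · exact L.W.lr_disj_x (z := z) hwn hvn hvw.symm b1 b2 a1 a2
      · exact L.W.lr_disj_x (z := z) hwn hvn hvw.symm b2 b1 a1 a2
      · exact L.W.lr_disj_x (z := z) hwn hvn hvw.symm b1 b2 a2 a1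
      · exact L.W.lr_disj_x (z := z) hwn hvn hvw.symm b2 b1 a2 a1

/-- P2E. Segments which leave the cells on different sides do not cross.

Proof. By `homX` it suffices to consider the clusters `t = 1`, `u = 4` (and `t = 4`, `u = 1`). Let `z` be
a common point of `sg t σ` and `sg u τ`. The part of `sg t σ` from `e1 σ` to `z` is legal with respect to
the walls of `t ± 1` (`legal`, `Lg.mono`): either `z` is in the cell `K (t-1) (t+1)`, or by `exit`
(whose direction is `d m`, `d_inj`) `z` is in the closed quadrant of the side of `m` of `pt v a`, where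
`v ∈ {t - 1, t + 1}` (`c_m z ≥ c_m (pt v a)`, `c_(st m) z > c_(st m) (pt v a)`; the level
`c_(st m)` is constant on the segment). The same for `τ`, with `w ∈ {u - 1, u + 1}`. Both in cells: disjoint cells
(`K_disjoint`: the cells `0 2` and `3 5`). `z` in the cell of `t` and not in the cell of `u`: the part of `τ` from
`e1 τ` to `z` connects the two cells, contradiction to `notwo` (the order of the cells: use the
segment from `z` or from `e1 τ`). Both in quadrants of different sides: `v ≠ w`, `lr_disj_x`. -/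
theorem cross_other (hn : 8 ≤ n) {σ τ : S} {m m' : Fin 4} (h1 : L.IN (F.e1 σ))
    (h2 : L.Out (F.e1 σ) (F.e2 σ) m) (h1' : L.IN (F.e1 τ)) (h2' : L.Out (F.e1 τ) (F.e2 τ) m')
    (hm : m' ≠ m) (hm' : m' ≠ st m) {t u : ℕ} (ht : t < n) (hu : u < n) (htu : t ≠ u) :
    ¬ Xx (F.sg t σ) (F.sg u τ) := by
  intro h
  rcases Nat.lt_or_gt_of_ne htu with hlt | hlt
  · exact L.P2E_main hn h1 h2 h1' h2' hm hm'
      ((F.homX σ τ t u 1 4 hlt hu (by omega) (by omega)).1 h)
  · refine L.P2E_main hn h1' h2' h1 h2 (Ne.symm hm) ?_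
      ((F.homX τ σ u t 1 4 hlt ht (by omega) (by omega)).1 (Fam.Xx_symm.1 h))
    intro h3
    apply hm'
    rw [h3, st_st]

/-- P2E. Parallel segments do not cross (`perp_of_Xx`). -/
theorem cross_same (hn : 8 ≤ n) {σ τ : S} {m : Fin 4}
    (h2 : L.Out (F.e1 σ) (F.e2 σ) m) (h2' : L.Out (F.e1 τ) (F.e2 τ) m) {t u : ℕ} (ht : t < n)
    (hu : u < n) (htu : t ≠ u) : ¬ Xx (F.sg t σ) (F.sg u τ) := by
  intro h
  have h3 := F.perp_of_Xx ht hu htu h
  obtain ⟨l, hl, e⟩ := h2.dir t ht
  obtain ⟨l', hl', e'⟩ := h2'.dir u hu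
  unfold Fam.dir at h3
  rw [e, e', dot_smul, dot_smul', L.W.unit m, mul_one] at h3
  exact (mul_pos hl hl').ne' h3

end Wb
end Pool.Agent.RAC

/-!
# Crossings of segments which leave the cells (piece P2F)
-/

namespace Pool.Agent.RAC
namespace Wb

variable {n : ℕ} {P S E : Type} {F : Fam n P S E} (L : Wb F)

/-- P2F, helper: `prec m s t` implies that the segments cross -/
private theorem P2F_pos {σ τ : S} {m : Fin 4} (hn : 8 ≤ n) (h1 : L.IN (F.e1 σ))
    (h2 : L.Out (F.e1 σ) (F.e2 σ) m) (h1' : L.IN (F.e1 τ)) (h2' : L.Out (F.e1 τ) (F.e2 τ) (st m))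
    {s t v w w' : ℕ} (hs : s < n) (ht : t < n) (hv : v < n) (hw : w < n) (hw' : w' < n)
    (hsv : prec m s v) (hvt : prec m v t) (htw : prec m t w) (hsw : prec m s w)
    (hws : prec m w' s) (hwt : prec m w' t) : Xx (F.sg s σ) (F.sg t τ) := by
  obtain ⟨k, hk, hq⟩ := h2.dir s hs
  obtain ⟨k', hk', he⟩ := h2'.dir t ht
  have u1 : dot (L.d m) (L.d m) = 1 := L.W.unit m
  have u2 : dot (L.d (st m)) (L.d (st m)) = 1 := L.W.unit (st m)
  have hq' : F.pt s (F.e2 σ) = F.pt s (F.e1 σ) + k • L.d m := by rw [← hq]; abel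
  have he' : F.pt t (F.e2 τ) = F.pt t (F.e1 τ) + k' • L.d (st m) := by rw [← he]; abel
  -- the inequalities in the direction `d m`
  have a1 := L.IN_lt (by omega) h1 m hs hv hsv
  have a2 := h2'.lo t v ht hv (prec_st.2 hvt)
  have a3 := h2'.hi t w ht hw (prec_st.2 htw)
  have a4 := h2.far s w hs hw hsw
  rw [st_st] at a2 a3
  have a5 : dot (F.pt s (F.e2 σ)) (L.d m) = dot (F.pt s (F.e1 σ)) (L.d m) + k := by
    rw [hq', dot_add, dot_smul, u1, mul_one]
  -- the inequalities in the direction `d (st m)`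
  have b1 := L.IN_lt (by omega) h1' (st m) ht hv (prec_st.2 hvt)
  have b2 := h2.lo s v hs hv hsv
  have b3 := h2.hi s w' hs hw' hws
  have b4 := h2'.far t w' ht hw' (prec_st.2 hwt)
  have b5 : dot (F.pt t (F.e2 τ)) (L.d (st m)) = dot (F.pt t (F.e1 τ)) (L.d (st m)) + k' := by
    rw [he', dot_add, dot_smul, u2, mul_one]
  have c1 := L.W.expand m (F.pt t (F.e1 τ) - F.pt s (F.e1 σ))
  rw [dot_sub, dot_sub] at c1
  have hz : F.pt s (F.e1 σ) +
      (dot (F.pt t (F.e1 τ)) (L.d m) - dot (F.pt s (F.e1 σ)) (L.d m)) • L.d m =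
      F.pt t (F.e1 τ) +
      (dot (F.pt s (F.e1 σ)) (L.d (st m)) - dot (F.pt t (F.e1 τ)) (L.d (st m))) •
        L.d (st m) := by
    have c2 : F.pt t (F.e1 τ) = F.pt s (F.e1 σ) +
        ((dot (F.pt t (F.e1 τ)) (L.d m) - dot (F.pt s (F.e1 σ)) (L.d m)) • L.d m +
        (dot (F.pt t (F.e1 τ)) (L.d (st m)) - dot (F.pt s (F.e1 σ)) (L.d (st m))) •
          L.d (st m)) := by
      rw [← c1]
      abel
    generalize dot (F.pt t (F.e1 τ)) (L.d m) - dot (F.pt s (F.e1 σ)) (L.d m) = x at *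
    have c3 : dot (F.pt s (F.e1 σ)) (L.d (st m)) - dot (F.pt t (F.e1 τ)) (L.d (st m)) =
      -(dot (F.pt t (F.e1 τ)) (L.d (st m)) - dot (F.pt s (F.e1 σ)) (L.d (st m))) := by ring
    rw [c3]
    generalize dot (F.pt t (F.e1 τ)) (L.d (st m)) - dot (F.pt s (F.e1 σ)) (L.d (st m)) = y at *
    rw [c2, neg_smul]
    abel
  refine ⟨_, SCB_open (by linarith) (by linarith) hq' rfl,
    SCB_open (by linarith) (by linarith) he' hz⟩

/-- P2F, helper: `prec m t s` implies that the segments do not cross -/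
private theorem P2F_neg {σ τ : S} {m : Fin 4} (hn : 8 ≤ n) (h1 : L.IN (F.e1 σ))
    (h2 : L.Out (F.e1 σ) (F.e2 σ) m) (h1' : L.IN (F.e1 τ)) (h2' : L.Out (F.e1 τ) (F.e2 τ) (st m))
    {s t : ℕ} (hs : s + 2 < n) (ht : t + 2 < n)
    (hd : s + 2 ≤ t ∨ t + 2 ≤ s) (hp : prec m (t + 1) (s + 1)) :
    ¬ Xx (F.sg (s + 1) σ) (F.sg (t + 1) τ) := by
  rintro ⟨z, hz, hz'⟩
  have hz1 : z ∈ segment ℝ (F.pt (s + 1) (F.e1 σ)) (F.pt (s + 1) (F.e2 σ)) :=
    openSegment_subset_segment ℝ _ _ hz
  have hz1' : z ∈ segment ℝ (F.pt (t + 1) (F.e1 τ)) (F.pt (t + 1) (F.e2 τ)) :=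
    openSegment_subset_segment ℝ _ _ hz'
  obtain ⟨k, hk, hq⟩ := h2.dir (s + 1) (by omega)
  obtain ⟨k', hk', he⟩ := h2'.dir (t + 1) (by omega)
  have hu2 : dot (L.d (st m)) (L.d (st m)) = 1 := L.W.unit (st m)
  have hpe : dot (L.d m) (L.d (st m)) = 0 := L.W.perp m
  -- the level of `z`
  have hlz : dot z (L.d (st m)) = dot (F.pt (s + 1) (F.e1 σ)) (L.d (st m)) := by
    obtain ⟨a, b, ha, hb, hab, rfl⟩ := hz1
    have hq' : F.pt (s + 1) (F.e2 σ) = F.pt (s + 1) (F.e1 σ) + k • L.d m := by rw [← hq]; abel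
    rw [dot_add, dot_smul, dot_smul, hq', dot_add, dot_smul, hpe, mul_zero, add_zero,
      ← add_mul, hab, one_mul]
  have hlt := h2.hi (s + 1) (t + 1) (by omega) (by omega) hp
  rw [← hlz] at hlt
  have hb : F.pt (t + 1) (F.e1 τ) ∈ K (fun t => F.pt t L.a) L.d t (t + 2) :=
    h1' t (t + 1) (t + 2) (by omega) (by omega) ht
  have hpK : F.pt (s + 1) (F.e1 σ) ∈ K (fun t => F.pt t L.a) L.d s (s + 2) :=
    h1 s (s + 1) (s + 2) (by omega) (by omega) hs
  -- `z` is in the cell of `t`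
  have hzK : z ∈ K (fun t => F.pt t L.a) L.d t (t + 2) := by
    by_contra hc
    obtain ⟨m', ⟨l, hl, hdir⟩, h3, -⟩ := L.W.exit (s := t) (u := t + 2) (by omega) ht hb hc (by
      intro v hv m
      have hv2 : v < n := by omega
      exact (L.legal (t := t + 1) (v := v) (by omega) hv2 (by omega) τ m).mono
        (left_mem_segment ℝ _ _) hz1')
    have hm' : m' = st m := by
      apply L.W.d_inj (by omega)
      -- `z - b` is a nonnegative multiple of `d (st m)`
      obtain ⟨a, b, ha, hb', hab, hzz⟩ := hz1'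
      have he' : F.pt (t + 1) (F.e2 τ) = F.pt (t + 1) (F.e1 τ) + k' • L.d (st m) := by
        rw [← he]; abel
      have h5 : z - F.pt (t + 1) (F.e1 τ) = (b * k') • L.d (st m) := by
        rw [← hzz, he', smul_add, smul_smul, ← add_assoc, ← add_smul, hab, one_smul]
        abel
      rw [hdir] at h5
      have u1 : dot (L.d m') (L.d m') = 1 := L.W.unit m'
      have h6 : l * dot (L.d m') (L.d m') = (b * k') * dot (L.d (st m)) (L.d m') := by
        rw [← dot_smul, ← dot_smul, h5]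
      have h7 : l * dot (L.d m') (L.d (st m)) = (b * k') * dot (L.d (st m)) (L.d (st m)) := by
        rw [← dot_smul, ← dot_smul, h5]
      rw [u1, mul_one] at h6
      rw [hu2, mul_one] at h7
      rw [dot_comm (L.d (st m)) (L.d m')] at h6
      have h8 : 0 ≤ b * k' := mul_nonneg hb' hk'.le
      have h9 : l = b * k' := by
        generalize dot (L.d m') (L.d (st m)) = y at *
        generalize b * k' = x at *
        have h10 : l * l = x * x := by linear_combination l * h6 + x * h7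
        nlinarith
      rw [← h9] at h5
      exact smul_right_injective _ hl.ne' h5
    subst hm'
    have hlatn : lat (st m) t (t + 2) < n := by
      unfold lat; split_ifs <;> omega
    have h4 := L.W.mono (st m) (t + 1) (lat (st m) t (t + 2)) (by omega) hlatn (by
      unfold prec lat; split_ifs <;> omega)
    linarith
  -- the part of `σ` between the two cells
  have hleg : ∀ v < n, s + 1 ≠ v → ∀ m, Lg (F.pt (s + 1) (F.e1 σ)) z (F.pt v L.a)
      (F.pt v (F.e2 (L.w m))) := fun v hv hv' m =>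
    (L.legal (t := s + 1) (v := v) (by omega) hv hv' σ m).mono (left_mem_segment ℝ _ _) hz1
  have hleg' : ∀ v < n, s + 1 ≠ v → ∀ m, Lg z (F.pt (s + 1) (F.e1 σ)) (F.pt v L.a)
      (F.pt v (F.e2 (L.w m))) := fun v hv hv' m =>
    (L.legal (t := s + 1) (v := v) (by omega) hv hv' σ m).mono hz1 (left_mem_segment ℝ _ _)
  rcases hd with hd | hd
  · refine L.W.notwo (s := s) (u := s + 2) (s' := t) (u' := t + 2) (by omega) hd (by omega) ht
      hpK hzK ?_
    intro v hv m
    exact hleg v (by omega) (by omega) m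
  · refine L.W.notwo (s := t) (u := t + 2) (s' := s) (u' := s + 2) (by omega) hd (by omega) hs
      hzK hpK ?_
    intro v hv m
    exact hleg' v (by omega) (by omega) m

/-- P2F. Segments which leave the cells on the same side in perpendicular directions: the segment
`σ` (direction `d m`) of `s` and the segment `τ` (direction `d (st m)`) of `t` cross iff `prec m s t`.

Proof. By `homX` it suffices to consider the clusters `s, t = 2, 5` (in both orders). Write `c = c_m`,
`l = c_(st m)`, `p = pt s (e1 σ)`, `q = pt s (e2 σ)`, `b = pt t (e1 τ)`, `e = pt t (e2 τ)`.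
`prec m s t`: the point `z` with `c z = c b`, `l z = l p` is a common interior point: for `v` between `s`
and `t`: `c p < c (pt v a)` (`IN_lt`), `c (pt v a) < c b` (`Out.lo` for `τ`, `prec (st m) t v`), and
`c b < c (pt v' a) < c q` (`Out.hi` for `τ`, `Out.far` for `σ`) for `v'` beyond `t`;
`l b < l (pt v a)` (`IN_lt`), `l (pt v a) < l p` (`Out.lo` for `σ`), `l p < l (pt v' a) < l e` (`Out.hi`
for `σ`, `Out.far` for `τ`) for `v'` before `s`.
`prec m t s`: let `z` be a common point. `l z = l p < l (pt t a)` (`Out.hi` for `σ`, `prec m t s`). If `z`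
is not in the cell `K (t-1) (t+1)` of `t` then by `exit` (part of `τ` from `b` to `z`, direction
`d (st m)`) `l z ≥ l (pt v a)` with `v = lat (st m) (t-1) (t+1)`, `prec (st m) t v`, so
`l (pt v a) > l (pt t a)`: contradiction. So `z` is in the cell of `t`, and the part of `σ` from `p` to
`z` connects the cells of `s` and of `t`: contradiction to `notwo`. -/
theorem cross_st (hn : 8 ≤ n) {σ τ : S} {m : Fin 4} (h1 : L.IN (F.e1 σ))
    (h2 : L.Out (F.e1 σ) (F.e2 σ) m) (h1' : L.IN (F.e1 τ)) (h2' : L.Out (F.e1 τ) (F.e2 τ) (st m))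
    {s t : ℕ} (hs : s < n) (ht : t < n) (hst : s ≠ t) :
    Xx (F.sg s σ) (F.sg t τ) ↔ prec m s t := by
  have key : (s < t → (Xx (F.sg s σ) (F.sg t τ) ↔ Xx (F.sg 2 σ) (F.sg 5 τ))) ∧
      (t < s → (Xx (F.sg s σ) (F.sg t τ) ↔ Xx (F.sg 5 σ) (F.sg 2 τ))) := by
    constructor
    · intro h
      exact F.homX σ τ s t 2 5 h ht (by omega) (by omega)
    · intro h
      have h3 := F.homX τ σ t s 2 5 h hs (by omega) (by omega)
      have sw : ∀ a b : Pt × Pt, Xx a b ↔ Xx b a := fun a b =>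
        ⟨fun ⟨z, h, h'⟩ => ⟨z, h', h⟩, fun ⟨z, h, h'⟩ => ⟨z, h', h⟩⟩
      rw [sw (F.sg s σ), sw (F.sg 5 σ)]
      exact h3
  by_cases hm : m = 0 ∨ m = 2
  · have hpr : ∀ a b : ℕ, a < b → prec m a b := fun a b h => by unfold prec; rw [if_pos hm]; exact h
    rcases lt_or_gt_of_ne hst with h | h
    · rw [key.1 h]
      refine ⟨fun _ => hpr _ _ h, fun _ => ?_⟩
      exact L.P2F_pos hn h1 h2 h1' h2' (v := 3) (w := 6) (w' := 1) (by omega) (by omega)
        (by omega) (by omega) (by omega) (hpr _ _ (by omega)) (hpr _ _ (by omega))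
        (hpr _ _ (by omega)) (hpr _ _ (by omega)) (hpr _ _ (by omega)) (hpr _ _ (by omega))
    · rw [key.2 h]
      refine ⟨fun h3 => absurd h3 ?_, fun h3 => ?_⟩
      · exact L.P2F_neg hn h1 h2 h1' h2' (s := 4) (t := 1) (by omega) (by omega) (by omega)
          (hpr _ _ (by omega))
      · unfold prec at h3
        rw [if_pos hm] at h3
        omega
  · have hpr : ∀ a b : ℕ, b < a → prec m a b := fun a b h => by unfold prec; rw [if_neg hm]; exact h
    rcases lt_or_gt_of_ne hst with h | h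
    · rw [key.1 h]
      refine ⟨fun h3 => absurd h3 ?_, fun h3 => ?_⟩
      · exact L.P2F_neg hn h1 h2 h1' h2' (s := 1) (t := 4) (by omega) (by omega) (by omega)
          (hpr _ _ (by omega))
      · unfold prec at h3
        rw [if_neg hm] at h3
        omega
    · rw [key.2 h]
      refine ⟨fun _ => hpr _ _ h, fun _ => ?_⟩
      exact L.P2F_pos hn h1 h2 h1' h2' (v := 3) (w := 1) (w' := 6) (by omega) (by omega)
        (by omega) (by omega) (by omega) (hpr _ _ (by omega)) (hpr _ _ (by omega))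
        (hpr _ _ (by omega)) (hpr _ _ (by omega)) (hpr _ _ (by omega)) (hpr _ _ (by omega))

end Wb
end Pool.Agent.RAC

/-!
# Crossings of walls and segments which leave the cells (piece P2W)
-/

namespace Pool.Agent.RAC

namespace Wb

variable {n : ℕ} {P S E : Type} {F : Fam n P S E} (L : Wb F)

/-- P2W. a point of an open segment in a given direction -/
theorem P2W_pt {A B v z : Pt} {l : ℝ} (hl : 0 < l) (hB : B - A = l • v)
    (hz : z ∈ openSegment ℝ A B) : ∃ r : ℝ, 0 < r ∧ z = A + r • v := by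
  obtain ⟨a, b, ha, hb, hab, rfl⟩ := hz
  refine ⟨b * l, mul_pos hb hl, ?_⟩
  have hB' : B = A + l • v := by rw [← hB]; abel
  have ha' : a = 1 - b := by linarith
  rw [hB', ha']
  module

/-- P2W. a point of the open wall `m` of the cluster `s` -/
theorem P2W_wall {s : ℕ} (hs : s < n) {m : Fin 4} {z : Pt}
    (hz : z ∈ openSegment ℝ (F.sg s (L.w m)).1 (F.sg s (L.w m)).2) :
    dot (F.pt s L.a) (L.d m) < dot z (L.d m) ∧
      dot z (L.d (st m)) = dot (F.pt s L.a) (L.d (st m)) := by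
  obtain ⟨l, hl, he⟩ := L.W.wall s hs m
  have hz' : z ∈ openSegment ℝ (F.pt s L.a) (F.pt s (F.e2 (L.w m))) := by
    have : (F.sg s (L.w m)).1 = F.pt s L.a := by
      show F.pt s (F.e1 (L.w m)) = _
      rw [L.w1]
    rw [this] at hz
    exact hz
  have he' : F.pt s (F.e2 (L.w m)) - F.pt s L.a = l • L.d m := by
    have : F.pt s (F.e2 (L.w m)) = F.pt s L.a + l • L.d m := he
    rw [this]; abel
  obtain ⟨r, hr, hzr⟩ := P2W_pt hl he' hz'
  have hu := L.W.unit m
  have hp := L.W.perp m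
  constructor
  · rw [hzr, dot_add, dot_smul, hu]; linarith
  · rw [hzr, dot_add, dot_smul, hp]; ring

/-- P2W. a point of an open segment which leaves the cells in the direction `m` -/
theorem P2W_out {t : ℕ} (ht : t < n) {τ : S} {m : Fin 4} (h : L.Out (F.e1 τ) (F.e2 τ) m) {z : Pt}
    (hz : z ∈ openSegment ℝ (F.sg t τ).1 (F.sg t τ).2) :
    ∃ r : ℝ, 0 < r ∧ z = F.pt t (F.e1 τ) + r • L.d m := by
  obtain ⟨l, hl, he⟩ := h.dir t ht
  exact P2W_pt hl he hz

/-- P2W. The same for a wall: `σ = w m`. (`prec m s t`, clusters `2, 5`: `p = pt s a`;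
`c (pt s a) < c (pt v a) < c b`, `c b < c (pt v' a) < c (pt s (e2 (w m)))` (`long`);
`l b < l (pt v a) < l (pt s a)`, `l (pt s a) < l (pt v' a) < l e` for `v'` before `s` (`mono`, `Out.far`).
`prec m t s`: `c b < c (pt v a) < c (pt s a)` (`Out.hi` for `τ`), but `c z ≥ c (pt s a)` on the
wall and `c z = c b` on `τ`.) -/
theorem cross_wall_st (hn : 8 ≤ n) {τ : S} {m : Fin 4} (h1' : L.IN (F.e1 τ))
    (h2' : L.Out (F.e1 τ) (F.e2 τ) (st m)) {s t : ℕ} (hs : s < n) (ht : t < n) (hst : s ≠ t) :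
    Xx (F.sg s (L.w m)) (F.sg t τ) ↔ prec m s t := by
  have hperp : dot (L.d (st m)) (L.d m) = 0 := by rw [dot_comm]; exact L.W.perp m
  constructor
  · rintro ⟨z, hz1, hz2⟩
    obtain ⟨hc, -⟩ := L.P2W_wall hs hz1
    obtain ⟨r, hr, hzr⟩ := L.P2W_out ht h2' hz2
    by_contra hcon
    have hts : prec m t s := by
      unfold prec at hcon ⊢
      split_ifs at hcon ⊢ <;> omega
    have h1 := L.IN_lt (by omega) h1' m ht hs hts
    rw [hzr, dot_add, dot_smul, hperp] at hc
    linarith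
  · intro h
    -- the key statement for clusters with one more cluster beyond
    have key : ∀ s t v, s < n → t < n → v < n → prec m s t → prec m t v →
        Xx (F.sg s (L.w m)) (F.sg t τ) := by
      intro s t v hs ht hv hst htv
      obtain ⟨lw, hlw, hw⟩ := L.W.wall s hs m
      have hw' : F.pt s (F.e2 (L.w m)) = F.pt s L.a + lw • L.d m := hw
      obtain ⟨lt, hlt, hτ⟩ := h2'.dir t ht
      have hτ' : F.pt t (F.e2 τ) = F.pt t (F.e1 τ) + lt • L.d (st m) := by rw [← hτ]; abel
      have hu := L.W.unit m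
      have hu' := L.W.unit (st m)
      -- the coordinate `c`
      have c1 := h2'.lo t s ht hs (prec_st.2 hst)
      have c2 := L.IN_lt (by omega) h1' m ht hv htv
      have c3 : dot (F.pt v L.a) (L.d m) < dot (F.pt s (F.e2 (L.w m))) (L.d m) :=
        L.W.long s v hs hv m
      rw [st_st] at c1
      rw [hw', dot_add, dot_smul, hu] at c3
      -- the coordinate `l`
      have l1 := L.IN_lt (by omega) h1' (st m) ht hs (prec_st.2 hst)
      have l2 := h2'.far t s ht hs (prec_st.2 hst)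
      rw [hτ', dot_add, dot_smul, hu'] at l2
      have hexp := L.W.expand m (F.pt s L.a - F.pt t (F.e1 τ))
      rw [dot_sub, dot_sub] at hexp
      refine ⟨F.pt s L.a + (dot (F.pt t (F.e1 τ)) (L.d m) - dot (F.pt s L.a) (L.d m)) • L.d m,
        ?_, ?_⟩
      · have e1 : (F.sg s (L.w m)).1 = F.pt s L.a := by
          show F.pt s (F.e1 (L.w m)) = _
          rw [L.w1]
        rw [e1]
        exact SCB_open (by linarith) (by linarith : _ < lw) hw' rfl
      · refine SCB_open (A := F.pt t (F.e1 τ)) (B := F.pt t (F.e2 τ)) (v := L.d (st m))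
          (c := dot (F.pt s L.a) (L.d (st m)) - dot (F.pt t (F.e1 τ)) (L.d (st m)))
          (by linarith) (by linarith : _ < lt) hτ' ?_
        have h9 : F.pt s L.a = F.pt t (F.e1 τ) +
            ((dot (F.pt s L.a) (L.d m) - dot (F.pt t (F.e1 τ)) (L.d m)) • L.d m +
            (dot (F.pt s L.a) (L.d (st m)) - dot (F.pt t (F.e1 τ)) (L.d (st m))) • L.d (st m)) := by
          rw [← hexp]; abel
        generalize dot (F.pt s L.a) (L.d m) = A1 at *
        generalize dot (F.pt t (F.e1 τ)) (L.d m) = A2 at *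
        generalize dot (F.pt s L.a) (L.d (st m)) = A3 at *
        generalize dot (F.pt t (F.e1 τ)) (L.d (st m)) = A4 at *
        rw [h9]
        module
    by_cases hm : m = 0 ∨ m = 2
    · have hp : ∀ a b, prec m a b ↔ a < b := fun a b => by unfold prec; rw [if_pos hm]
      refine (F.homXp m hs ht (t' := 2) (u' := 5) (by omega) (by omega) h
        ((hp _ _).2 (by omega))).2 ?_
      exact key 2 5 6 (by omega) (by omega) (by omega) ((hp _ _).2 (by omega))
        ((hp _ _).2 (by omega))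
    · have hp : ∀ a b, prec m a b ↔ b < a := fun a b => by unfold prec; rw [if_neg hm]
      refine (F.homXp m hs ht (t' := 5) (u' := 2) (by omega) (by omega) h
        ((hp _ _).2 (by omega))).2 ?_
      exact key 5 2 1 (by omega) (by omega) (by omega) ((hp _ _).2 (by omega))
        ((hp _ _).2 (by omega))

/-- P2W. the closed quadrant of the side of the direction `m` of the point `w` -/
def P2W_Q (m : Fin 4) (w z : Pt) : Prop :=
  dot w (L.d m) ≤ dot z (L.d m) ∧ dot w (L.d (st m)) ≤ dot z (L.d (st m))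

theorem P2W_Q_disj {m m' : Fin 4} (h1 : m' ≠ m) (h2 : m' ≠ st m) {i j : ℕ} (hi : i < n)
    (hj : j < n) (hij : i ≠ j) {z : Pt} (hz : L.P2W_Q m (F.pt i L.a) z)
    (hz' : L.P2W_Q m' (F.pt j L.a) z) : False := by
  have key : ∀ m m' : Fin 4, (m = 0 ∨ m = 1) → (m' = 2 ∨ m' = 3) → ∀ i j, i < n → j < n →
      i ≠ j → L.P2W_Q m (F.pt i L.a) z → L.P2W_Q m' (F.pt j L.a) z → False := by
    intro m m' hm hm' i j hi hj hij h h'
    have a : dot (F.pt i L.a) (L.d 0) ≤ dot z (L.d 0) ∧
        dot (F.pt i L.a) (L.d 1) ≤ dot z (L.d 1) := by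
      rcases hm with rfl | rfl
      · exact h
      · exact ⟨h.2, h.1⟩
    have b : dot (F.pt j L.a) (L.d 2) ≤ dot z (L.d 2) ∧
        dot (F.pt j L.a) (L.d 3) ≤ dot z (L.d 3) := by
      rcases hm' with rfl | rfl
      · exact h'
      · exact ⟨h'.2, h'.1⟩
    exact L.W.lr_disj_x hi hj hij a.1 a.2 b.1 b.2
  have hc : ((m = 0 ∨ m = 1) ∧ (m' = 2 ∨ m' = 3)) ∨ ((m' = 0 ∨ m' = 1) ∧ (m = 2 ∨ m = 3)) := by
    clear hz hz'
    revert m m'
    decide
  rcases hc with ⟨ha, hb⟩ | ⟨ha, hb⟩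
  · exact key m m' ha hb i j hi hj hij hz hz'
  · exact key m' m ha hb j i hj hi hij.symm hz' hz

/-- P2W. The wall `m` does not cross segments which leave the cells in the direction `m` (parallel) or
on the other side: a common point `z` is in the closed quadrant of the side of `m` of `pt s a`; it
is not in the cell of `t` (`K (t-1) (t+1)`, `|s - t| ≥ 2`: if `prec m t s` then
`c_m z ≥ c_m (pt s a)`, if `prec m s t` then `c_(st m) z = c_(st m) (pt s a)`), so by `exit` it is in the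
closed quadrant of the other side of `pt v a`, `v = t ± 1 ≠ s`: `lr_disj_x`. Clusters `1, 4`. -/
theorem cross_wall_other (hn : 8 ≤ n) {τ : S} {m m' : Fin 4} (h1' : L.IN (F.e1 τ))
    (h2' : L.Out (F.e1 τ) (F.e2 τ) m') (hm' : m' ≠ st m) {s t : ℕ} (hs : s < n) (ht : t < n)
    (hst : s ≠ t) : ¬ Xx (F.sg s (L.w m)) (F.sg t τ) := by
  by_cases hmm : m' = m
  · -- parallel
    subst hmm
    intro hX
    have hperp := F.perp_of_Xx hs ht hst hX
    obtain ⟨l, hl, he⟩ := L.W.wall s hs m'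
    obtain ⟨l', hl', he'⟩ := h2'.dir t ht
    have he2 : F.dir s (L.w m') = l • L.d m' := by
      show F.pt s (F.e2 (L.w m')) - F.pt s (F.e1 (L.w m')) = _
      have : F.pt s (F.e2 (L.w m')) = F.pt s L.a + l • L.d m' := he
      rw [this, L.w1]; abel
    have he3 : F.dir t τ = l' • L.d m' := he'
    rw [he2, he3, dot_smul, dot_smul', L.W.unit] at hperp
    have := mul_pos hl hl'
    linarith
  -- the key statement
  have key : ∀ s t, s < n → 0 < t → t + 1 < n → (s + 2 ≤ t ∨ t + 2 ≤ s) →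
      ¬ Xx (F.sg s (L.w m)) (F.sg t τ) := by
    rintro s t hs ht0 ht1 hst ⟨z, hz1, hz2⟩
    obtain ⟨hc, hl⟩ := L.P2W_wall hs hz1
    have hzc : z ∉ K (fun t => F.pt t L.a) L.d (t - 1) (t + 1) := by
      intro hK
      by_cases hts : prec m t s
      · have h1 : dot z (L.d m) < dot (F.pt (lat m (t - 1) (t + 1)) L.a) (L.d m) := hK m
        have h2 : dot (F.pt (lat m (t - 1) (t + 1)) L.a) (L.d m) < dot (F.pt s L.a) (L.d m) := by
          refine L.W.mono m _ _ ?_ hs ?_
          · unfold lat; split_ifs <;> omega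
          · unfold prec at hts; unfold prec lat; split_ifs at hts ⊢ <;> omega
        linarith
      · have hts' : prec m s t := by
          unfold prec at hts ⊢; split_ifs at hts ⊢ <;> omega
        have h1 : dot z (L.d (st m)) <
            dot (F.pt (lat (st m) (t - 1) (t + 1)) L.a) (L.d (st m)) := hK (st m)
        have h2 : dot (F.pt (lat (st m) (t - 1) (t + 1)) L.a) (L.d (st m)) <
            dot (F.pt s L.a) (L.d (st m)) := by
          refine L.W.mono (st m) _ _ ?_ hs ?_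
          · unfold lat; split_ifs <;> omega
          · rw [prec_st, lat_st]
            unfold prec at hts'; unfold prec lat; split_ifs at hts' ⊢ <;> omega
        linarith
    have hb : F.pt t (F.e1 τ) ∈ K (fun t => F.pt t L.a) L.d (t - 1) (t + 1) :=
      h1' (t - 1) t (t + 1) (by omega) (by omega) ht1
    obtain ⟨k, ⟨l, hl0, hk⟩, h3, h4, -, -⟩ := L.W.exit (s := t - 1) (u := t + 1) (by omega) ht1
      hb hzc (by
        intro v hv k
        refine (L.legal (t := t) (v := v) (by omega) (by omega) (by omega) τ k).mono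
          (left_mem_segment ℝ _ _) (openSegment_subset_segment ℝ _ _ hz2))
    -- the direction is `m'`
    obtain ⟨r, hr, hzr⟩ := L.P2W_out (by omega) h2' hz2
    have hkm : k = m' := by
      have h5 : l • L.d k = r • L.d m' := by
        rw [← hk, hzr]; abel
      have hu := L.W.unit k
      have hu' := L.W.unit m'
      have h6 : l * l = r * r := by
        have e1 : dot (l • L.d k) (l • L.d k) = l * l := by rw [dot_smul, dot_smul', hu]; ring
        have e2 : dot (r • L.d m') (r • L.d m') = r * r := by rw [dot_smul, dot_smul', hu']; ring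
        rw [← e1, ← e2, h5]
      have h7 : l = r := by nlinarith
      rw [h7] at h5
      exact L.W.d_inj (by omega) (smul_right_injective Pt hr.ne' h5)
    subst hkm
    have hlat : lat k (t - 1) (t + 1) < n ∧ lat k (t - 1) (t + 1) ≠ s := by
      unfold lat; split_ifs <;> omega
    refine L.P2W_Q_disj hmm hm' hs hlat.1 (Ne.symm hlat.2) (z := z) ⟨hc.le, hl.ge⟩ ⟨h3, ?_⟩
    have h8 : dot z (L.d (st k)) = dot (F.pt t (F.e1 τ)) (L.d (st k)) := by
      rw [hzr, dot_add, dot_smul, L.W.perp]; ring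
    rw [h8]
    exact h4.le
  rcases lt_or_gt_of_ne hst with h | h
  · rw [F.homXp 0 hs ht (t' := 1) (u' := 4) (by omega) (by omega)
      (by simpa [prec] using h) (by simp [prec])]
    exact key 1 4 (by omega) (by omega) (by omega) (by omega)
  · rw [F.homXp 1 hs ht (t' := 4) (u' := 1) (by omega) (by omega)
      (by simpa [prec] using h) (by simp [prec])]
    exact key 4 1 (by omega) (by omega) (by omega) (by omega)

end Wb
end Pool.Agent.RAC

/-!
# Two bends: walls and strands (piece P2G)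
-/

namespace Pool.Agent.RAC
namespace Fam

variable {n : ℕ} {P S E : Type} (F : Fam n P S E)

/-- P2G. The walls of a vertex with eight legs (`walls_of_four` for the four arms which are not
inert). -/
theorem wb2 (hn : 10 ≤ n) {a : P} {A M B : Fin 8 → S} (h : F.Legs2 a A M B) {N : Fin 4 → Fin 8}
    (hN : Function.Injective N) (hNi : ∀ k, ¬ F.Inert (A (N k))) :
    ∃ (L : Wb (F.shift (by omega))) (D : Fin 4 → Fin 8), Function.Injective D ∧
      (∀ m, ∃ k, D m = N k) ∧ L.a = a ∧ ∀ m, L.w m = A (D m) := by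
  obtain ⟨D, d, hD, W⟩ := F.walls_of_four (by omega) (a := a) (fun k => A (N k))
    (fun i => ⟨h.na, h.va, h.A1 _, h.A2 _⟩) (fun i j hij => hN (h.eA _ _ hij)) hNi
  exact ⟨{ a := a
           d := d
           w := fun m => A (N (D m))
           va := h.va
           na := h.na
           w1 := fun m => h.A1 _
           w2 := fun m => h.A2 _
           wi := fun m m' hm => hD.1 (hN (h.eA _ _ hm))
           W := W }, fun m => N (D m), fun m m' hm => hD.1 (hN hm), fun m => ⟨D m, rfl⟩, rfl,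
    fun m => rfl⟩

theorem p2g_inert (hn : 2 ≤ n) {σ : S} (h : F.Inert σ) : (F.shift hn).Inert σ :=
  fun t u ht hu htu τ hx => h (t + 1) (u + 1) (by omega) (by omega) (by omega) τ hx

/-- P2G. A leg with an inert arm leaves the cells with its middle segment.

Proof. An inert segment of `F` is inert in `F.shift`. `L.IN (e2 (A i))` by `IN_of_Conn` (`IN_self`).
`B i` is inert (`hub_inert`), so if `e2 (M i)` were confined then the hub too: contradiction to
`not_IN_hub`. So `SCB_out` (for `Wb`) applies to `M i`. -/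
theorem out2 (hn : 10 ≤ n) {a : P} {A M B : Fin 8 → S} (h : F.Legs2 a A M B)
    (L : Wb (F.shift (by omega))) (hL : L.a = a) {i : Fin 8} (hi : F.Inert (A i)) :
    L.IN (F.e1 (M i)) ∧ ∃ m, L.Out (F.e1 (M i)) (F.e2 (M i)) m := by
  have h1 : L.IN (F.e1 (M i)) := by
    rw [h.M1]
    refine L.IN_of_Conn (p := L.a) L.IN_self (Relation.ReflTransGen.single
      ⟨A i, F.p2g_inert (by omega) hi, Or.inl ⟨?_, rfl⟩⟩)
    rw [hL]
    exact h.A1 i
  refine ⟨h1, Wb.SCB_out (by omega) (μ := M i) (Or.inl ⟨rfl, rfl⟩) h1 fun h2 => ?_⟩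
  refine L.not_IN_hub (by omega) (h.B2 i) (L.IN_of_Conn h2 (Relation.ReflTransGen.single
      ⟨B i, F.p2g_inert (by omega) (F.hub_inert (by omega) (h.B2 i)), Or.inl ⟨h.B1 i, rfl⟩⟩))

end Fam
end Pool.Agent.RAC

/-!
# Two bends: the directions of the strands (piece P2D)
-/

namespace Pool.Agent.RAC
namespace Fam

variable {n : ℕ} {P S E : Type} (F : Fam n P S E)

/-- arms which are inert do not contribute -/
theorem p2d_yy {A M : Fin 8 → S} {i j : Fin 8} (hn : 2 ≤ n) (hi : F.Inert (A i))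
    (hj : F.Inert (A j)) :
    F.yy A M i j = cr (F.sg 0 (M i)) (F.sg 1 (M j)) + cr (F.sg 0 (M j)) (F.sg 1 (M i)) := by
  have z1 : ∀ i, F.Inert (A i) → ∀ τ, cr (F.sg 0 (A i)) (F.sg 1 τ) = 0 := fun i hi τ =>
    STRA_cr_zero (hi 0 1 (by omega) (by omega) (by omega) τ)
  have z2 : ∀ i, F.Inert (A i) → ∀ τ, cr (F.sg 0 τ) (F.sg 1 (A i)) = 0 := fun i hi τ => by
    rw [cr_comm]
    exact STRA_cr_zero (hi 1 0 (by omega) (by omega) (by omega) τ)
  unfold yy
  rw [z1 i hi, z1 i hi, z1 j hj, z1 j hj, z2 j hj, z2 i hi]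
  ring

theorem p2d_sum (hn : 10 ≤ n) (L : Wb (F.shift (by omega))) {σ τ : S} {m m' : Fin 4}
    (hσ : L.IN (F.e1 σ)) (hτ : L.IN (F.e1 τ))
    (h : L.Out (F.e1 σ) (F.e2 σ) m) (h' : L.Out (F.e1 τ) (F.e2 τ) m') :
    cr (F.sg 0 σ) (F.sg 1 τ) + cr (F.sg 0 τ) (F.sg 1 σ) = if m' = st m then 1 else 0 := by
  have hx : ∀ σ τ : S, Xx (F.sg 0 σ) (F.sg 1 τ) ↔
      Xx ((F.shift (by omega)).sg 0 σ) ((F.shift (by omega)).sg 1 τ) := fun σ τ =>
    F.homX σ τ 0 1 1 2 (by omega) (by omega) (by omega) (by omega)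
  by_cases hm : m' = st m
  · rw [if_pos hm]
    subst hm
    have e1 : Xx (F.sg 0 σ) (F.sg 1 τ) ↔ prec m 0 1 := by
      rw [hx]
      exact L.cross_st (by omega) hσ h hτ h' (by omega) (by omega) (by omega)
    have e2 : Xx (F.sg 0 τ) (F.sg 1 σ) ↔ prec (st m) 0 1 := by
      rw [hx]
      exact L.cross_st (by omega) hτ h' hσ (by rw [st_st]; exact h) (by omega) (by omega)
        (by omega)
    rw [prec_st] at e2
    have one : ∀ s t : Pt × Pt, Xx s t → cr s t = 1 := fun s t h => by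
      unfold cr
      rw [if_pos h]
    by_cases h02 : m = 0 ∨ m = 2
    · have p1 : prec m 0 1 := by unfold prec; rw [if_pos h02]; omega
      have p2 : ¬ prec m 1 0 := by unfold prec; rw [if_pos h02]; omega
      rw [one _ _ (e1.2 p1), STRA_cr_zero (fun h => p2 (e2.1 h)), add_zero]
    · have p1 : ¬ prec m 0 1 := by unfold prec; rw [if_neg h02]; omega
      have p2 : prec m 1 0 := by unfold prec; rw [if_neg h02]; omega
      rw [one _ _ (e2.2 p2), STRA_cr_zero (fun h => p1 (e1.1 h)), zero_add]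
  · rw [if_neg hm]
    have hm' : m ≠ st m' := fun h => hm (by rw [h, st_st])
    by_cases he : m' = m
    · subst he
      rw [STRA_cr_zero, STRA_cr_zero, add_zero]
      · rw [hx]
        exact L.cross_same (by omega) h' h (by omega) (by omega) (by omega)
      · rw [hx]
        exact L.cross_same (by omega) h h' (by omega) (by omega) (by omega)
    · rw [STRA_cr_zero, STRA_cr_zero, add_zero]
      · rw [hx]
        exact L.cross_other (by omega) hτ h' hσ h (fun h => he h.symm) hm' (by omega) (by omega)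
          (by omega)
      · rw [hx]
        exact L.cross_other (by omega) hσ h hτ h' he hm (by omega) (by omega)
          (by omega)

theorem p2d_inj (m : Fin 4 → Fin 4) (h1 : m 1 = st (m 0)) (h3 : m 3 = st (m 2))
    (h2 : m 2 ≠ st (m 0)) (h2' : m 2 ≠ m 0) : Function.Injective m := by
  have key : ∀ x y : Fin 4, y ≠ st x → y ≠ x →
      Function.Injective (![x, st x, y, st y] : Fin 4 → Fin 4) := by decide
  have : m = ![m 0, st (m 0), m 2, st (m 2)] := by
    ext k
    fin_cases k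
    · rfl
    · simp [h1]
    · rfl
    · simp [h3]
  rw [this]
  exact key _ _ h2 h2'

/-- P2D. The directions of the four strands are different.

Proof. `L`, `I` as in `out2`, `four_four`; `m k` the direction of `M (I k)`. The arms `A (I k)` are inert, so
`yy (I k) (I k') = cr (M (I k)) (M (I k')) + cr (M (I k')) (M (I k))` for the clusters `0, 1`, which by
homogeneity (`homX`; `F.shift` uses the clusters `1, …, n - 2` of `F`) is `0` if `m k' ∉ {st (m k)}`
(`cross_other`, `cross_same`) and `1` if `m k' = st (m k)` (`cross_st`: exactly one of the two orders). On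
the other hand it is `1` for `{k, k'} = {0, 1}, {2, 3}` and `0` for the other pairs. So `m 1 = st (m 0)`,
`m 3 = st (m 2)`, and `m 2 ≠ st (m 0)`, `m 2 ≠ st (m 1) = m 0`. So `m` is injective (`decide`). -/
theorem dirs2 (hn : 10 ≤ n) {a : P} {A M B : Fin 8 → S} (h : F.Legs2 a A M B)
    {c : Fin 8 → ZMod 2} (hc : ∀ i j, i ≠ j → F.yy A M i j = 1 + c i + c j)
    (L : Wb (F.shift (by omega))) (hL : L.a = a) {I : Fin 4 → Fin 8} (hI : Function.Injective I)
    (hIi : ∀ k, F.Inert (A (I k))) (h01 : c (I 0) = c (I 1)) (h23 : c (I 2) = c (I 3))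
    (h02 : c (I 0) ≠ c (I 2)) {m : Fin 4 → Fin 4}
    (hm : ∀ k, L.Out (F.e1 (M (I k))) (F.e2 (M (I k))) (m k)) : Function.Injective m := by
  have hIN : ∀ k, L.IN (F.e1 (M (I k))) := fun k => (F.out2 hn h L hL (hIi k)).1
  have key : ∀ k k', k ≠ k' →
      1 + c (I k) + c (I k') = if m k' = st (m k) then (1 : ZMod 2) else 0 := by
    intro k k' hk
    rw [← hc _ _ (fun he => hk (hI he)), F.p2d_yy (by omega) (hIi k) (hIi k'),
      F.p2d_sum hn L (hIN k) (hIN k') (hm k) (hm k')]
  have z2 : ∀ x y : ZMod 2, x ≠ y → 1 + x + y = 0 := by decide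
  have z1 : ∀ x : ZMod 2, 1 + x + x = 1 := by decide
  have k01 := key 0 1 (by decide)
  have k23 := key 2 3 (by decide)
  have k02 := key 0 2 (by decide)
  have k12 := key 1 2 (by decide)
  rw [← h01, z1] at k01
  rw [← h23, z1] at k23
  rw [z2 _ _ h02] at k02
  rw [← h01, z2 _ _ h02] at k12
  have m1 : m 1 = st (m 0) := by
    by_contra hne
    rw [if_neg hne] at k01
    exact one_ne_zero k01
  have m3 : m 3 = st (m 2) := by
    by_contra hne
    rw [if_neg hne] at k23
    exact one_ne_zero k23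
  have m2 : m 2 ≠ st (m 0) := by
    intro he
    rw [if_pos he] at k02
    exact zero_ne_one k02
  have m2' : m 2 ≠ m 0 := by
    intro he
    rw [if_pos (by rw [m1, st_st]; exact he)] at k12
    exact zero_ne_one k12
  exact p2d_inj m m1 m3 m2 m2'

end Fam
end Pool.Agent.RAC

/-!
# The structure theorem for two bends (piece P2H)
-/

namespace Pool.Agent.RAC
namespace Fam

variable {n : ℕ} {P S E : Type} (F : Fam n P S E)

/-- P2H. the strands are longer than the cells -/
theorem P2H_slong {n : ℕ} {P S E : Type} {F : Fam n P S E} (hn : 3 ≤ n) (L : Wb F)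
    {s : Fin 4 → S} (hm : ∀ j, L.Out (F.e1 (s j)) (F.e2 (s j)) j) :
    ∀ t u, t < n → u < n → ∀ m,
      dot (F.pt u L.a) (L.d m) < dot (F.pt t (F.e2 (s m))) (L.d m) := by
  intro t u ht hu m
  have hself : ∀ t, t < n → dot (F.pt t L.a) (L.d m) < dot (F.pt t (F.e2 (s m))) (L.d m) := by
    obtain ⟨t0, v0, h1, h2, h3⟩ : ∃ t0 v0 : ℕ, t0 < n ∧ v0 < n ∧ prec m t0 v0 := by
      by_cases hk : m = 0 ∨ m = 2
      · exact ⟨0, 1, by omega, by omega, by unfold prec; rw [if_pos hk]; omega⟩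
      · exact ⟨1, 0, by omega, by omega, by unfold prec; rw [if_neg hk]; omega⟩
    have h4 := (hm m).far t0 v0 h1 h2 h3
    have h5 : dot (F.pt t0 L.a) (L.d m) < dot (F.pt v0 L.a) (L.d m) := L.W.mono m t0 v0 h1 h2 h3
    intro t ht
    have h6 := L.laba_homD hn m L.a (F.e2 (s m)) h1 ht
    rw [dot_sub, dot_sub, sign_pos (by linarith)] at h6
    exact sub_pos.1 (sign_eq_one_iff.1 h6.symm)
  rcases lt_trichotomy t u with h | h | h
  · by_cases hk : m = 0 ∨ m = 2
    · exact (hm m).far t u ht hu (by unfold prec; rw [if_pos hk]; exact h)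
    · have h1 : dot (F.pt u L.a) (L.d m) < dot (F.pt t L.a) (L.d m) :=
        L.W.mono m u t hu ht (by unfold prec; rw [if_neg hk]; exact h)
      exact h1.trans (hself t ht)
  · subst h
    exact hself t ht
  · by_cases hk : m = 0 ∨ m = 2
    · have h1 : dot (F.pt u L.a) (L.d m) < dot (F.pt t L.a) (L.d m) :=
        L.W.mono m u t hu ht (by unfold prec; rw [if_pos hk]; exact h)
      exact h1.trans (hself t ht)
    · exact (hm m).far t u ht hu (by unfold prec; rw [if_neg hk]; exact h)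

/-- P2H. The structured label (two bends).

Proof. `classes`, `four_four`, `wb2`, `out2`, `dirs2`; `I' m = I k` for the `k` with direction `m`.
Fields: `s1` by `Out.dir`, `sK` is `IN`, `slev` by `Out.lo`, `Out.hi`, `pre` by `A (I' m)`. `slong`:
`dot (pt u a) (d m) < dot (pt t (e2 (sd m))) (d m)`: if `prec m t u` by `Out.far`. For `u = t`: by
`Out.far` and `mono` it is true for `t` = the first index in the order `prec m`, so by homogeneity
(`laba_homD` or `homD` for points of the same cluster) for all `t`. If `prec m u t` by `mono` and the case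
`u = t`. -/
theorem lb2 (hn : 10 ≤ n) {a : P} {A M B : Fin 8 → S} (h : F.Legs2 a A M B) :
    ∃ (L : Lb (F.shift (by omega))) (D I : Fin 4 → Fin 8), Function.Injective D ∧
      Function.Injective I ∧ (∀ m m', D m ≠ I m') ∧ (∀ m, F.Inert (A (I m))) ∧ L.a = a ∧
      (∀ m, L.w m = A (D m)) ∧ (∀ m, L.sd m = M (I m)) ∧ (∀ m, L.bs m = B (I m)) := by
  obtain ⟨c, hc⟩ := F.classes (by omega) h
  obtain ⟨N, I, hN, hI, hNI, hNi, hIi, h01, h23, h02⟩ := F.four_four (by omega) h hc
  obtain ⟨L, D, hD, hDN, hLa, hLw⟩ := F.wb2 hn h hN hNi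
  have hout := fun k => F.out2 hn h L hLa (hIi k)
  choose m hm using fun k => (hout k).2
  have hmi := F.dirs2 hn h hc L hLa hI hIi h01 h23 h02 hm
  have hmb : Function.Bijective m := Finite.injective_iff_bijective.1 hmi
  obtain ⟨r, hr⟩ : ∃ r : Fin 4 → Fin 4, ∀ j, m (r j) = j :=
    ⟨_, Function.rightInverse_surjInv hmb.2⟩
  have hri : Function.Injective r := fun i j hij => by rw [← hr i, ← hr j, hij]
  have hm' : ∀ j, L.Out (F.e1 (M (I (r j)))) (F.e2 (M (I (r j)))) j := fun j => by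
    have := hm (r j)
    rwa [hr j] at this
  refine ⟨{ a := L.a, d := L.d, w := L.w, sd := fun j => M (I (r j)),
            bs := fun j => B (I (r j)), va := L.va, na := L.na, w1 := L.w1, w2 := L.w2,
            wi := L.wi, W := L.W, s0 := ?_, s1 := ?_, sK := ?_, slev := ?_, slong := ?_,
            b1 := ?_, bh := ?_, bi := ?_, pre := ?_ }, D, fun j => I (r j), hD, hI.comp hri,
            ?_, fun j => hIi _, hLa, hLw, fun _ => rfl, fun _ => rfl⟩
  · intro j
    refine ⟨fun hh => h.A2 (I (r j)) ?_, h.M2 _⟩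
    rw [← h.M1]
    exact F.hub_ver _ hh
  · intro t ht j
    obtain ⟨l, hl, he⟩ := (hm' j).dir t ht
    exact ⟨l, hl, by rw [← he]; exact (add_sub_cancel _ _).symm⟩
  · intro j s t u h1 h2 h3
    exact (hout (r j)).1 s t u h1 h2 h3
  · intro j t v ht hv htv
    exact ⟨(hm' j).lo t v ht hv htv, (hm' j).hi v t hv ht htv⟩
  · exact P2H_slong (by omega) L hm'
  · intro j
    exact h.B1 _
  · intro j
    exact h.B2 _
  · intro j j' hjj
    exact hri (hI (h.Bi _ _ hjj))
  · intro j
    right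
    exact ⟨A (I (r j)), (h.A1 _).trans hLa.symm, (h.M1 _).symm⟩
  · intro j j'
    obtain ⟨k, hk⟩ := hDN j
    rw [hk]
    exact hNI k (r j')

end Fam
end Pool.Agent.RAC

/-!
# The other middle segments (piece DBL)
-/

namespace Pool.Agent.RAC
namespace Fam

variable {n : ℕ} {P S E : Type} (F : Fam n P S E)

/-- the strands of a structured label leave the cells -/
theorem DBL_out {F : Fam n P S E} (L : Lb F) (m : Fin 4) :
    L.toWb.Out (F.e1 (L.sd m)) (F.e2 (L.sd m)) m := by
  refine ⟨fun t ht => ?_, fun t v ht hv _ => L.slong t v ht hv m, ?_, ?_⟩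
  · obtain ⟨l, hl, h⟩ := L.s1 t ht m
    refine ⟨l, hl, ?_⟩
    rw [h, add_sub_cancel_left]
    rfl
  · intro t v ht hv h
    exact (L.slev m t v ht hv h).1
  · intro t v ht hv h
    exact (L.slev m v t hv ht h).2

/-- the crossings of the strands and walls of a side -/
theorem DBL_core {n : ℕ} {P S E : Type} (F : Fam n P S E) (hn : 8 ≤ n) (L : Lb F) (m : Fin 4) :
    (cr (F.sg 0 (L.sd m)) (F.sg 1 (L.sd (st m))) + cr (F.sg 0 (L.sd (st m))) (F.sg 1 (L.sd m)) = 1)
    ∧ (cr (F.sg 0 (L.w m)) (F.sg 1 (L.sd m)) + cr (F.sg 0 (L.sd m)) (F.sg 1 (L.w m)) = 0)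
    ∧ (cr (F.sg 0 (L.w m)) (F.sg 1 (L.sd (st m))) +
      cr (F.sg 0 (L.sd (st m))) (F.sg 1 (L.w m)) = 1) := by
  have cr0 : ∀ {s t : Pt × Pt}, ¬ Xx s t → cr s t = 0 := fun hn => if_neg hn
  have cr1 : ∀ {s t : Pt × Pt}, Xx s t → cr s t = 1 := fun hn => if_pos hn
  have hin : ∀ m, L.toWb.IN (F.e1 (L.sd m)) := fun m s t u h1 h2 h3 =>
    L.sK m s t u h1 h2 h3
  have hout := fun m => DBL_out L m
  have hp : (prec m 0 1 ∧ ¬ prec m 1 0) ∨ (prec m 1 0 ∧ ¬ prec m 0 1) := by
    unfold prec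
    by_cases h4 : m = 0 ∨ m = 2 <;> simp [h4]
  have k1 : ∀ s t, s < n → t < n → s ≠ t →
      (Xx (F.sg s (L.sd m)) (F.sg t (L.sd (st m))) ↔ prec m s t) := fun s t hs ht hst =>
    L.toWb.cross_st hn (hin m) (hout m) (hin (st m)) (hout (st m)) hs ht hst
  have k2 : ∀ s t, s < n → t < n → s ≠ t →
      (Xx (F.sg s (L.w m)) (F.sg t (L.sd (st m))) ↔ prec m s t) := fun s t hs ht hst =>
    L.toWb.cross_wall_st hn (hin (st m)) (hout (st m)) hs ht hst
  have k3 : ∀ s t, s < n → t < n → s ≠ t → ¬ Xx (F.sg s (L.w m)) (F.sg t (L.sd m)) :=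
    fun s t hs ht hst =>
    L.toWb.cross_wall_other hn (hin m) (hout m) (st_ne m).symm hs ht hst
  have a1 := k1 0 1 (by omega) (by omega) (by omega)
  have a2 := k1 1 0 (by omega) (by omega) (by omega)
  have b1 := k2 0 1 (by omega) (by omega) (by omega)
  have b2 := k2 1 0 (by omega) (by omega) (by omega)
  have c1 := k3 0 1 (by omega) (by omega) (by omega)
  have c2 := k3 1 0 (by omega) (by omega) (by omega)
  rw [Xx_symm] at a2 b2 c2
  refine ⟨?_, ?_, ?_⟩
  · rcases hp with ⟨h1, h2⟩ | ⟨h1, h2⟩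
    · rw [cr1 (a1.2 h1), cr0 (fun h => h2 (a2.1 h)), add_zero]
    · rw [cr1 (a2.2 h1), cr0 (fun h => h2 (a1.1 h)), zero_add]
  · rw [cr0 c1, cr0 c2, add_zero]
  · rcases hp with ⟨h1, h2⟩ | ⟨h1, h2⟩
    · rw [cr1 (b1.2 h1), cr0 (fun h => h2 (b2.1 h)), add_zero]
    · rw [cr1 (b2.2 h1), cr0 (fun h => h2 (b1.1 h)), zero_add]

/-- DBL. The middle segments of the legs whose arms are the walls are perpendicular to one of the
directions.

Proof. `classes`. Let `j = D m`, `i = I m`, `i' = I (st m)`. `L.toWb.Out (e1 (M (I k))) (e2 (M (I k))) k` by the fields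
`s1`, `slev`, `slong`; `IN` by `sK`. By `cross_st`, `yy i i' = 1`, so `c i = c i'`. If `M j` crosses no
`M (I k)` of another cluster, then `yy j i = 0` (the arm `A i` is inert; `cross_wall_other`) and
`yy j i' = 1` (`cross_wall_st`: exactly one order), so `c j ≠ c i`, `c j = c i'`: contradiction. So
`M j` crosses some `M (I k)` (for one order of the clusters), so it is perpendicular to `L.d k`
(`perp_of_Xx`), for all clusters `t` by `hom_perp`. (The clusters `0`, `1` of `F` in `yy`, the clusters of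
`F.shift` are the clusters `t + 1` of `F`: `homX`.) -/
theorem dbl (hn : 10 ≤ n) {a : P} {A M B : Fin 8 → S} (h : F.Legs2 a A M B)
    (L : Lb (F.shift (by omega))) {D I : Fin 4 → Fin 8} (hD : Function.Injective D)
    (hI : Function.Injective I) (hDI : ∀ m m', D m ≠ I m') (hIi : ∀ m, F.Inert (A (I m)))
    (hL : L.a = a) (hw : ∀ m, L.w m = A (D m)) (hs : ∀ m, L.sd m = M (I m)) (m : Fin 4) :
    ∃ k, ∀ t, t < n - 2 → dot ((F.shift (by omega)).dir t (M (D m))) (L.d k) = 0 := by
  obtain ⟨c, hc⟩ := F.classes (by omega) h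
  -- crossings of the clusters `0, 1` of `F` and of `F.shift`
  have hX : ∀ σ τ, cr (F.sg 0 σ) (F.sg 1 τ) =
      cr ((F.shift (by omega : 2 ≤ n)).sg 0 σ) ((F.shift (by omega : 2 ≤ n)).sg 1 τ) := fun σ τ => by
    have := F.homX σ τ 0 1 1 2 (by omega) (by omega) (by omega) (by omega)
    by_cases h1 : Xx (F.sg 0 σ) (F.sg 1 τ)
    · exact (if_pos h1).trans (if_pos (this.1 h1)).symm
    · exact (if_neg h1).trans (if_neg fun h2 => h1 (this.2 h2)).symm
  by_cases hno : ∀ k, cr ((F.shift (by omega : 2 ≤ n)).sg 0 (M (D m)))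
      ((F.shift (by omega : 2 ≤ n)).sg 1 (L.sd k)) = 0 ∧
      cr ((F.shift (by omega : 2 ≤ n)).sg 0 (L.sd k))
      ((F.shift (by omega : 2 ≤ n)).sg 1 (M (D m))) = 0
  · exfalso
    obtain ⟨q1, q2, q3⟩ := DBL_core _ (by omega) L m
    have cr0 : ∀ {s t : Pt × Pt}, ¬ Xx s t → cr s t = 0 := fun hn => if_neg hn
    have hI0 : ∀ m τ, cr (F.sg 0 (A (I m))) (F.sg 1 τ) = 0 := fun m τ =>
      cr0 (hIi m 0 1 (by omega) (by omega) (by omega) τ)
    have hI1 : ∀ m τ, cr (F.sg 0 τ) (F.sg 1 (A (I m))) = 0 := fun m τ =>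
      cr0 fun hh => hIi m 1 0 (by omega) (by omega) (by omega) τ (Xx_symm.1 hh)
    have hij : I m ≠ I (st m) := fun h4 => st_ne m (hI h4).symm
    have e1 := hc _ _ hij
    have e2 := hc _ _ (hDI m m)
    have e3 := hc _ _ (hDI m (st m))
    obtain ⟨n1, n2⟩ := hno m
    obtain ⟨n3, n4⟩ := hno (st m)
    rw [← hX] at n1 n2 n3 n4
    rw [← hX, ← hX] at q1 q2 q3
    rw [hs] at n1 n2 n3 n4 q1 q2 q3
    rw [hs] at q1
    rw [hw] at q2 q3
    unfold yy at e1 e2 e3
    simp only [hI0, hI1, zero_add, add_zero] at e1 e2 e3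
    rw [q1] at e1
    rw [n1, n2, add_zero, add_zero, q2] at e2
    rw [n3, n4, add_zero, add_zero, q3] at e3
    revert e1 e2 e3
    generalize c (I m) = x
    generalize c (I (st m)) = y
    generalize c (D m) = z
    revert x y z
    decide
  · push Not at hno
    obtain ⟨k, hk⟩ := hno
    refine ⟨k, ?_⟩
    have hc0 : ∀ {s t : Pt × Pt}, cr s t ≠ 0 → Xx s t := fun {s t} h1 => by
      by_contra h2
      exact h1 (if_neg h2)
    obtain ⟨t, u, ht, hu, htu, hx⟩ : ∃ t u, t < n - 2 ∧ u < n - 2 ∧ t ≠ u ∧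
        Xx ((F.shift (by omega : 2 ≤ n)).sg t (M (D m)))
          ((F.shift (by omega : 2 ≤ n)).sg u (L.sd k)) := by
      by_cases h1 : cr ((F.shift (by omega : 2 ≤ n)).sg 0 (M (D m)))
          ((F.shift (by omega : 2 ≤ n)).sg 1 (L.sd k)) = 0
      · exact ⟨1, 0, by omega, by omega, by omega, Xx_symm.1 (hc0 (hk h1))⟩
      · exact ⟨0, 1, by omega, by omega, by omega, hc0 h1⟩
    have h1 := (F.shift (by omega : 2 ≤ n)).perp_of_Xx ht hu htu hx
    obtain ⟨l, hl, h2⟩ := (DBL_out L k).dir u hu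
    have h3 : (F.shift (by omega : 2 ≤ n)).dir u (L.sd k) = l • L.d k := h2
    rw [h3, dot_smul'] at h1
    have h4 := (mul_eq_zero.1 h1).resolve_left hl.ne'
    intro t' ht'
    exact L.toWb.hom_perp (by omega) k _ _ ht ht' h4

end Fam
end Pool.Agent.RAC
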