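import Pool.Agent.Lib_MP_638f75_lc.H.HB
import Pool.Agent.Lib_MP_638f75_lc.H.HG
import Pool.Agent.Lib_MP_638f75_lc.H.HH

/-!
# Star clusters, two bends: definitions
-/

namespace Pool.Agent.RAC

/-- A homogeneous family of star clusters (two bends). Label `0` is the center, `1, 2, 3` are the
leaves. `Ar x m` is the arm of the strand `m` of the label `x`. The edge between the center and the leaf
`i + 1` consists of the end segments `Z i` (at the center), `Z' i` (at the leaf) and the middle segment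
`μ i`. -/
structure St2 {n : ℕ} {P S E : Type} (F : Fam n P S E) where
  L : Fin 4 → Lb F
  Ar : Fin 4 → Fin 4 → S
  Z : Fin 3 → S
  μ : Fin 3 → S
  Z' : Fin 3 → S
  ainj : ∀ x y, (L x).a = (L y).a → x = y
  Ar1 : ∀ x m, F.e1 (Ar x m) = (L x).a
  Ar2 : ∀ x m, F.e2 (Ar x m) = F.e1 ((L x).sd m)
  Ar3 : ∀ x m, ¬ F.ver (F.e1 ((L x).sd m))
  Z1 : ∀ i, F.e1 (Z i) = (L 0).a
  Z2 : ∀ i, F.e2 (Z i) = F.e1 (μ i)
  Z3 : ∀ i, ¬ F.ver (F.e1 (μ i))
  Z4 : ∀ i, F.e1 (Z' i) = (L i.succ).a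
  Z5 : ∀ i, F.e2 (Z' i) = F.e2 (μ i)
  Z6 : ∀ i, ¬ F.ver (F.e2 (μ i))
  eW : ∀ x m y m', F.ed ((L x).w m) = F.ed ((L y).w m') → x = y ∧ m = m'
  eA : ∀ x m y m', F.ed (Ar x m) = F.ed (Ar y m') → x = y ∧ m = m'
  eS : ∀ x m, F.ed ((L x).sd m) = F.ed (Ar x m)
  eAW : ∀ x m y m', F.ed (Ar x m) ≠ F.ed ((L y).w m')
  eZ : ∀ i, F.ed (Z i) = F.ed (μ i)
  eZ' : ∀ i, F.ed (Z' i) = F.ed (μ i)
  eμW : ∀ i x m, F.ed (μ i) ≠ F.ed ((L x).w m)
  eμA : ∀ i x m, F.ed (μ i) ≠ F.ed (Ar x m)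

end Pool.Agent.RAC

/-!
# Star clusters, two bends: links, the center (piece S2A)
-/

namespace Pool.Agent.RAC

/-- S2A. two of three -/
private theorem S2A_two (f : Fin 3 → Bool) : ∃ (c : Bool) (i j : Fin 3), i ≠ j ∧ f i = c ∧ f j = c := by
  revert f
  decide

namespace St2

variable {n : ℕ} {P S E : Type} {F : Fam n P S E} (D : St2 F)

theorem S2A_eZW (i : Fin 3) (x m : Fin 4) : F.ed (D.Z i) ≠ F.ed ((D.L x).w m) := by
  rw [D.eZ i]
  exact D.eμW i x m

theorem S2A_eZW' (i : Fin 3) (x m : Fin 4) : F.ed (D.Z' i) ≠ F.ed ((D.L x).w m) := by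
  rw [D.eZ' i]
  exact D.eμW i x m

theorem S2A_nver {p : P} (hp : ¬ F.ver p) (x : Fin 4) : p ≠ (D.L x).a := by
  rintro rfl
  exact hp (D.L x).va

theorem S2A_ane {x y : Fin 4} (hxy : x ≠ y) : (D.L x).a ≠ (D.L y).a :=
  fun h => hxy (D.ainj _ _ h)

/-- S2A. The link between the center and a leaf. `Z i` is an end segment of the center, so
`e1 (μ i)` is confined in `L 0` (`end_conf`) and `Z i` is inert (`conf_inert`); the same for `Z' i`. -/
theorem link (hn : 8 ≤ n) (i : Fin 3) :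
    Lb.Lk (D.L 0) (D.L i.succ) (D.μ i) (F.e1 (D.μ i)) (F.e2 (D.μ i)) := by
  have h1 : (D.L 0).IN (F.e2 (D.Z i)) :=
    (D.L 0).end_conf (D.Z1 i) (fun m => D.S2A_eZW i 0 m)
  have h2 : (D.L i.succ).IN (F.e2 (D.Z' i)) :=
    (D.L i.succ).end_conf (D.Z4 i) (fun m => D.S2A_eZW' i i.succ m)
  have h3 : F.Inert (D.Z i) := by
    refine (D.L 0).conf_inert (by omega) ?_ h1
    rw [D.Z1 i]
    exact (D.L 0).IN_self
  have h4 : F.Inert (D.Z' i) := by
    refine (D.L i.succ).conf_inert (by omega) ?_ h2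
    rw [D.Z4 i]
    exact (D.L i.succ).IN_self
  refine ⟨Or.inl ⟨rfl, rfl⟩, ?_, ?_, ?_, ?_⟩
  · rw [← D.Z2 i]; exact h1
  · rw [← D.Z5 i]; exact h2
  · exact Relation.ReflTransGen.single ⟨D.Z i, h3, Or.inl ⟨D.Z1 i, D.Z2 i⟩⟩
  · exact Relation.ReflTransGen.single ⟨D.Z' i, h4, Or.inr ⟨D.Z4 i, D.Z5 i⟩⟩

/-- S2A. `Lk.plus` -/
theorem plus_all (hn : 8 ≤ n) {f : Pt} (h : (D.L 0).Plus f) (x : Fin 4) : (D.L x).Plus f := by
  rcases Fin.eq_zero_or_eq_succ x with rfl | ⟨i, rfl⟩
  · exact h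
  · exact (D.link hn i).plus hn h

/-- S2A. If the label of the center is not in a frame then all labels have the same cells (`Lk.frame`:
in the second case `Plus.d0`), `SC.trans`. -/
theorem sc_all (hn : 8 ≤ n) (h : ¬ (D.L 0).Plus ((D.L 0).d 0)) (x y : Fin 4) :
    (D.L x).SC (D.L y) := by
  have h1 : ∀ x, (D.L 0).SC (D.L x) := by
    intro x
    rcases Fin.eq_zero_or_eq_succ x with rfl | ⟨i, rfl⟩
    · exact Lb.SC.refl _
    · rcases (D.link hn i).frame hn with h3 | ⟨m, m', -, -, -, h3, -⟩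
      · exact h3
      · exact absurd h3.d0 h
  exact (h1 x).symm.trans (by omega) (h1 y)

theorem S2A_hk (hn : 8 ≤ n) (h : ¬ (D.L 0).Plus ((D.L 0).d 0)) (x : Fin 4) :
    dot ((D.L x).d 1) ((D.L x).d 3) ≠ 0 := by
  have h1 := D.sc_all hn h 0 x
  rw [Lb.plus_iff (by omega)] at h
  rw [← h1.1 1, ← h1.1 3]
  exact h

/-- S2A. A third label does not separate the labels of an edge: `Z i` stays in the sector of the
center, `Z' i` in the sector of the leaf (`end_sec`), and `μ i` cannot lead from one sector to the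
other one (`seg_sec`; `plus_iff`). -/
theorem nosep (hn : 8 ≤ n) (h : ¬ (D.L 0).Plus ((D.L 0).d 0)) (i : Fin 3) {x : Fin 4}
    (hx : x ≠ 0) (hx' : x ≠ i.succ) {t : ℕ} (h0 : 1 < t) (h1 : t + 2 < n) {c : Bool}
    (ht : (D.L x).Sec c t (F.pt t (D.L 0).a))
    (hh : (D.L x).Sec (!c) t (F.pt t (D.L i.succ).a)) : False := by
  have h2 : (D.L x).Sec c t (F.pt t (F.e2 (D.Z i))) := by
    refine Lb.end_sec (by omega) (D.sc_all hn h x 0) (D.Z1 i) (fun m => D.S2A_eZW i _ m)
      (fun m => D.S2A_eZW i _ m) (D.S2A_ane hx.symm) ?_ (by omega) (by omega) ht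
    rw [D.Z2 i]
    exact D.S2A_nver (D.Z3 i) x
  have h3 : (D.L x).Sec (!c) t (F.pt t (F.e2 (D.Z' i))) := by
    refine Lb.end_sec (by omega) (D.sc_all hn h x i.succ) (D.Z4 i) (fun m => D.S2A_eZW' i _ m)
      (fun m => D.S2A_eZW' i _ m) (D.S2A_ane hx'.symm) ?_ (by omega) (by omega) hh
    rw [D.Z5 i]
    exact D.S2A_nver (D.Z6 i) x
  rw [D.Z2 i] at h2
  rw [D.Z5 i] at h3
  have hl := D.link hn i
  exact (D.L x).seg_sec (by omega) (D.S2A_hk hn h x) (σ := D.μ i) hl.ends
    ((D.sc_all hn h 0 x).IN (by omega) hl.p1) ((D.sc_all hn h i.succ x).IN (by omega) hl.q1)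
    (D.S2A_nver (D.Z3 i) x) (D.S2A_nver (D.Z6 i) x) (fun m => D.eμW i x m) (by omega) (by omega)
    h2 h3

/-- S2A. The label of the center is in a frame.

Proof. Otherwise `sect` orders the four labels (cluster `t = 3`): for
`x ≠ y` write `x <c y` if `(L y).a` is in the sector `c` of `(L x).a`; `x <c y` implies
`y <(!c) x` (`sec_flip`), `<c` is transitive (`Sec.trans`). Two of the three leaves are in the same
sector `c` of `0`: say `0 <c x`, `0 <c y`, and `x <c y` or `y <c x`. If `x <c y`: the label `x` has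
`0` in its sector `!c` and `y` in its sector `c`, contradiction to `nosep` for the leaf `y`. -/
theorem center_plus (hn : 8 ≤ n) : (D.L 0).Plus ((D.L 0).d 0) := by
  by_contra h
  have hs : ∀ x y : Fin 4, x ≠ y → (D.L x).Sec true 3 (F.pt 3 (D.L y).a) ∨
      (D.L x).Sec false 3 (F.pt 3 (D.L y).a) := by
    intro x y hxy
    exact Lb.sect (by omega) (D.sc_all hn h x y) (D.S2A_hk hn h x)
      (D.S2A_ane hxy) (fun m m' he => hxy (D.eW _ _ _ _ he).1) (by omega) (by omega)
  have hflip : ∀ (x y : Fin 4) (c : Bool), x ≠ y →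
      (D.L x).Sec c 3 (F.pt 3 (D.L y).a) →
      (D.L y).Sec (!c) 3 (F.pt 3 (D.L x).a) := by
    intro x y c hxy hc
    exact Lb.sec_flip (by omega) (D.sc_all hn h x y) (D.S2A_hk hn h x)
      (D.S2A_ane hxy) (fun m m' he => hxy (D.eW _ _ _ _ he).1) (by omega)
      (by omega) hc
  -- the main contradiction
  have hmain : ∀ (c : Bool) (i j : Fin 3), i ≠ j →
      (D.L 0).Sec c 3 (F.pt 3 (D.L i.succ).a) →
      (D.L i.succ).Sec c 3 (F.pt 3 (D.L j.succ).a) → False := by
    intro c i j hij h1 h2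
    have h3 := hflip 0 i.succ c (Fin.succ_ne_zero i).symm h1
    have hne : i.succ ≠ j.succ := fun he => hij (Fin.succ_injective _ he)
    refine D.nosep hn h j (x := i.succ) (Fin.succ_ne_zero i) hne (t := 3) (by omega) (by omega)
      (c := !c) h3 ?_
    rw [Bool.not_not]
    exact h2
  -- two leaves in the same sector of the center
  have hf : ∀ i : Fin 3, ∃ c : Bool, (D.L 0).Sec c 3 (F.pt 3 (D.L i.succ).a) := by
    intro i
    rcases hs 0 i.succ (Fin.succ_ne_zero i).symm with h1 | h1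
    · exact ⟨_, h1⟩
    · exact ⟨_, h1⟩
  choose f hf using hf
  obtain ⟨c, i, j, hij, hi, hj⟩ := S2A_two f
  have hi' := hf i
  have hj' := hf j
  rw [hi] at hi'
  rw [hj] at hj'
  have hne : i.succ ≠ j.succ := fun he => hij (Fin.succ_injective _ he)
  have h1 : (D.L i.succ).Sec c 3 (F.pt 3 (D.L j.succ).a) ∨
      (D.L i.succ).Sec (!c) 3 (F.pt 3 (D.L j.succ).a) := by
    cases c
    · exact (hs i.succ j.succ hne).symm
    · exact hs i.succ j.succ hne
  rcases h1 with h1 | h1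
  · exact hmain c i j hij hi' h1
  · have h2 := hflip i.succ j.succ (!c) hne h1
    rw [Bool.not_not] at h2
    exact hmain c j i hij.symm hj' h2

end St2
end Pool.Agent.RAC

/-!
# Segments of the same cluster which do not meet (piece NCR)
-/

namespace Pool.Agent.RAC

/-- NCR. segments of the same cluster, of different edges, without a common vertex, not
perpendicular: disjoint (`F.same`) -/
theorem Fam.disj_of_dot {n : ℕ} {P S E : Type} (F : Fam n P S E) {σ τ : S} (he : F.ed σ ≠ F.ed τ)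
    (hv : ∀ p, F.ver p → (p = F.e1 σ ∨ p = F.e2 σ) → ¬ (p = F.e1 τ ∨ p = F.e2 τ)) {t : ℕ}
    (ht : t < n) (hd : dot (F.dir t σ) (F.dir t τ) ≠ 0) {z : Pt}
    (h1 : z ∈ segment ℝ (F.pt t (F.e1 σ)) (F.pt t (F.e2 σ)))
    (h2 : z ∈ segment ℝ (F.pt t (F.e1 τ)) (F.pt t (F.e2 τ))) : False := by
  rcases F.same t ht σ τ he z h1 h2 with ⟨p, hp, hp1, hp2, -⟩ | ⟨-, -, h⟩
  · exact hv p hp hp1 hp2
  · exact hd h

namespace Lb

variable {n : ℕ} {P S E : Type} {F : Fam n P S E} {f : Pt}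

/-- NCR. End segments (which are not walls) are not parallel to the axes: `end_dir` for the four
directions (`exists_m`); a vector `v ≠ 0` with `dot v w = 0` is a multiple of `J w`. -/
theorem end_ax {L : Lb F} (hn : 2 ≤ n) (h : L.Plus f) {σ : S} (h1 : F.e1 σ = L.a)
    (he : ∀ m, F.ed σ ≠ F.ed (L.w m)) {t : ℕ} (ht : t < n) {v : Pt} (hv : ax f v) :
    dot (F.dir t σ) v ≠ 0 := by
  intro h0
  have hvv : dot v v = 1 := (plu_dot_unit hv).trans h.unit
  have hJJ : dot (J v) (J v) = 1 := (plu_dot_J_J v v).trans hvv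
  have hpar := sid_par (g := J v) (v := F.dir t σ) hJJ (by rw [J_J, dot_neg', h0, neg_zero])
  have key : ∀ (w : Pt) (l : ℝ), ax f w → 0 < l → F.dir t σ = l • w → False := by
    intro w l hw hl hd
    obtain ⟨m, hm⟩ := h.exists_m hn hw
    refine L.end_dir h1 he ht m hl ?_
    rw [hm, ← hd, ← h1]
    rfl
  rcases lt_trichotomy (dot (F.dir t σ) (J v)) 0 with hl | hl | hl
  · refine key (-J v) (-(dot (F.dir t σ) (J v))) hv.rot.neg (by linarith) ?_
    rw [neg_smul, smul_neg, neg_neg]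
    exact hpar
  · rw [hl, zero_smul] at hpar
    exact F.nd t ht σ (sub_eq_zero.1 hpar).symm
  · exact key (J v) _ hv.rot hl hpar

/-- NCR. A point of an end segment of `L` is on the same side of the lines through the point of `L'` as
the point of `L`. -/
theorem ncr_half {L L' : Lb F} (hn : 4 ≤ n) (hs : L.SC L') (h : L.Plus f) (hne : L.a ≠ L'.a)
    {σ : S} (h1 : F.e1 σ = L.a) (h2 : ¬ F.ver (F.e2 σ)) (he : ∀ m, F.ed σ ≠ F.ed (L.w m))
    (he' : ∀ m, F.ed σ ≠ F.ed (L'.w m)) {t : ℕ} (h0 : 0 < t) (h3 : t + 1 < n) {g : Pt}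
    (hg : ax f g) {z : Pt} (hz : z ∈ segment ℝ (F.pt t (F.e1 σ)) (F.pt t (F.e2 σ))) :
    0 < (dot (F.pt t L.a) (J g) - dot (F.pt t L'.a) (J g)) *
      (dot z (J g) - dot (F.pt t L'.a) (J g)) := by
  have ht : t < n := by omega
  have hL' : L'.Plus g := fun m => hg.symm.trans ((hs.plus h) m)
  have hnb : ∀ m : Fin 4, ∃ v, v < n ∧ prec m t v := by
    intro m
    by_cases hm : m = 0 ∨ m = 2
    · exact ⟨t + 1, h3, by unfold prec; rw [if_pos hm]; omega⟩
    · exact ⟨t - 1, by omega, by unfold prec; rw [if_neg hm]; omega⟩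
  have hin : L'.IN (F.e2 σ) := SC.IN hn hs (L.end_conf h1 he)
  have hside := side (c := L') (by omega) hL' (σ := σ) he' (by rw [h1]; exact hne)
    (fun hc => h2 (by rw [hc]; exact L'.va)) ht
    (fun m _ => by
      obtain ⟨v, hv, hp⟩ := hnb m
      have e1 := (hs.2 m t v ht hv hp).1
      rw [hs.1 m] at e1
      rw [h1]
      exact e1.trans (L'.W.long t v ht hv m))
    (fun m _ => by
      obtain ⟨v, hv, hp⟩ := hnb m
      exact (L'.IN_lt (by omega) hin m ht hv hp).trans (L'.W.long t v ht hv m))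
    (end_ax (by omega) h h1 he ht hg)
  obtain ⟨a, b, ha, hb, hab, rfl⟩ := hz
  rw [h1] at hside ⊢
  rw [dot_add, dot_smul, dot_smul]
  set A := dot (F.pt t L.a) (J g)
  set B := dot (F.pt t (F.e2 σ)) (J g)
  set c := dot (F.pt t L'.a) (J g)
  have hA : A - c ≠ 0 := by
    intro h9
    rw [h9, zero_mul] at hside
    exact lt_irrefl _ hside
  have hA2 : 0 < (A - c) * (A - c) := mul_self_pos.2 hA
  have e : (A - c) * (a * A + b * B - c) = a * ((A - c) * (A - c)) + b * ((A - c) * (B - c)) := by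
    have hb' : b = 1 - a := by linarith
    rw [hb']
    ring
  rw [e]
  rcases lt_or_eq_of_le ha with ha' | ha'
  · exact add_pos_of_pos_of_nonneg (mul_pos ha' hA2) (mul_nonneg hb hside.le)
  · have hb' : b = 1 := by linarith
    rw [← ha', hb', zero_mul, one_mul, zero_add]
    exact hside

/-- NCR. End segments of two labels with the same rectangular cells do not meet.

Proof. Let `x = pt t L.a`, `x' = pt t L'.a`. For a vector `v` of the frame and `z` on the segment `σ`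
(which starts at `x`): `dot (z - x') v ≠ 0`, otherwise `z = x' + l • w` with `w = ± J v`, `l ≥ 0`, and `z`
is on the wall of `L'` in the direction `w` (`exists_m`; range: `z` is between points confined in
`L'` (`end_conf`, `SC.IN`), `dot_segment_lt`, `IN_lt`, `long`); `disj_of_dot` (`end_ax`) gives a
contradiction (the common vertex would be `L'.a`, but the ends of `σ` are `L.a` and a bend). So
`dot (z - x') v` has the same sign for all `z` on `σ`, the sign of `dot (x - x') v` (intermediate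
value on the segment: if the signs of `dot (z - x') v` and `dot (x - x') v` were different, there
would be a point in between where it vanishes). In the same way for `z` on `τ`: `dot (z - x) v` has the
sign of `dot (x' - x) v`. If `z` is on both: by `F.same` `z` is an interior point and
`dir t σ ⟂ dir t τ` (no common vertex); `z - x` is a positive multiple of `dir t σ`, `z - x'` of
`dir t τ`, so `dot (z - x) (z - x') = 0`. But with `v ∈ {f, J f}` (orthonormal)
`dot (z - x) (z - x') = Σ_v dot (z - x) v * dot (z - x') v < 0`, both products being negative. -/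
theorem nocross {L L' : Lb F} (hn : 4 ≤ n) (hs : L.SC L') (h : L.Plus f) (hne : L.a ≠ L'.a)
    {σ τ : S} (h1 : F.e1 σ = L.a) (h2 : ¬ F.ver (F.e2 σ)) (h1' : F.e1 τ = L'.a)
    (h2' : ¬ F.ver (F.e2 τ)) (he : ∀ m, F.ed σ ≠ F.ed (L.w m)) (he' : ∀ m, F.ed σ ≠ F.ed (L'.w m))
    (hf : ∀ m, F.ed τ ≠ F.ed (L.w m)) (hf' : ∀ m, F.ed τ ≠ F.ed (L'.w m))
    (hed : F.ed σ ≠ F.ed τ) {t : ℕ} (h0 : 0 < t) (h3 : t + 1 < n) {z : Pt}
    (hz : z ∈ segment ℝ (F.pt t (F.e1 σ)) (F.pt t (F.e2 σ)))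
    (hz' : z ∈ segment ℝ (F.pt t (F.e1 τ)) (F.pt t (F.e2 τ))) : False := by
  have ht : t < n := by omega
  have hff : dot f f = 1 := h.unit
  have key : ∀ g, ax f g →
      (dot z (J g) - dot (F.pt t L.a) (J g)) * (dot z (J g) - dot (F.pt t L'.a) (J g)) < 0 := by
    intro g hg
    have e1 := ncr_half hn hs h hne h1 h2 he he' h0 h3 hg hz
    have e2 := ncr_half hn hs.symm (hs.plus h) hne.symm h1' h2' hf' hf h0 h3 hg hz'
    have e3 := mul_pos e1 e2
    by_contra hc
    have e4 := mul_nonneg (mul_self_nonneg (dot (F.pt t L.a) (J g) - dot (F.pt t L'.a) (J g)))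
      (not_lt.1 hc)
    nlinarith
  have k1 := key f (Or.inl rfl)
  have k2 := key (J f) (Or.inr (Or.inl rfl))
  rw [← dot_sub, ← dot_sub] at k1 k2
  have hpos : dot (z - F.pt t L.a) (z - F.pt t L'.a) < 0 := by
    have e : dot (z - F.pt t L.a) (z - F.pt t L'.a) * dot f f =
        dot (z - F.pt t L.a) (J f) * dot (z - F.pt t L'.a) (J f) +
        dot (z - F.pt t L.a) (J (J f)) * dot (z - F.pt t L'.a) (J (J f)) := by
      simp only [dot, J]
      ring
    rw [hff, mul_one] at e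
    rw [e]
    linarith
  have hzero : dot (F.pt t (F.e2 σ) - F.pt t (F.e1 σ)) (F.pt t (F.e2 τ) - F.pt t (F.e1 τ)) = 0 := by
    rcases F.same t ht σ τ hed z hz hz' with ⟨p, hp, hp1, hp2, -⟩ | ⟨-, -, h9⟩
    · exfalso
      rcases hp1 with rfl | rfl
      · rcases hp2 with h8 | h8
        · exact hne (h1.symm.trans (h8.trans h1'))
        · exact h2' (h8 ▸ hp)
      · exact h2 hp
    · exact h9
  obtain ⟨a, b, -, -, hab, hz1⟩ := hz
  obtain ⟨a', b', -, -, hab', hz2⟩ := hz'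
  have e1 : z - F.pt t L.a = b • (F.pt t (F.e2 σ) - F.pt t (F.e1 σ)) := by
    rw [← hz1, ← h1]
    have ha : a = 1 - b := by linarith
    rw [ha]
    module
  have e2 : z - F.pt t L'.a = b' • (F.pt t (F.e2 τ) - F.pt t (F.e1 τ)) := by
    rw [← hz2, ← h1']
    have ha : a' = 1 - b' := by linarith
    rw [ha]
    module
  rw [e1, e2, dot_smul, dot_smul', hzero, mul_zero, mul_zero] at hpos
  exact lt_irrefl _ hpos

end Lb
end Pool.Agent.RAC

/-!
# Star clusters, two bends: levels and points (piece LEV)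
-/

namespace Pool.Agent.RAC

/-- LEV. a point of a segment in the direction `v` -/
theorem lev_mem {A E z v : Pt} {l : ℝ} (hv : dot v v = 1) (hl : 0 < l) (hE : E = A + l • v)
    (h1 : dot A v ≤ dot z v) (h2 : dot z v ≤ dot E v) (h3 : dot z (J v) = dot A (J v)) :
    z ∈ segment ℝ A E := by
  have h4 : dot (z - A) (J v) = 0 := by rw [dot_sub, h3, sub_self]
  have h5 := Lb.sid_par hv h4
  have h6 : dot E v = dot A v + l := by rw [hE, dot_add, dot_smul, hv, mul_one]
  have h7 : z = A + dot (z - A) v • v := by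
    rw [← h5]
    abel
  rw [h7, hE]
  exact sect_mem hl (by rw [dot_sub]; linarith) (by rw [dot_sub]; linarith)

/-- LEV. a point of a segment in the direction `- g` -/
theorem lev_mem' {A E z g : Pt} {l : ℝ} (hg : dot g g = 1) (hl : 0 < l) (hE : E = A + l • (-g))
    (h1 : dot E g ≤ dot z g) (h2 : dot z g ≤ dot A g) (h3 : dot z (J g) = dot A (J g)) :
    z ∈ segment ℝ A E := by
  refine lev_mem (v := -g) ?_ hl hE ?_ ?_ ?_
  · rw [dot_neg, dot_neg', neg_neg]
    exact hg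
  · rw [dot_neg', dot_neg']
    linarith
  · rw [dot_neg', dot_neg']
    linarith
  · rw [plu_J_neg, dot_neg', dot_neg', h3]

/-- LEV. segments with disjoint ranges of the abscissas -/
theorem lev_sep {P Q P' Q' z g : Pt} (h1 : dot P g < dot P' g) (h2 : dot P g < dot Q' g)
    (h3 : dot Q g < dot P' g) (h4 : dot Q g < dot Q' g) (hz : z ∈ segment ℝ P Q)
    (hz' : z ∈ segment ℝ P' Q') : False := by
  have a : dot z g < dot P' g := dot_segment_lt hz h1 h3
  have b : dot z g < dot Q' g := dot_segment_lt hz h2 h4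
  have c := dot_segment_lt (v := -g) (r := - dot z g) hz' (by rw [dot_neg']; linarith)
    (by rw [dot_neg']; linarith)
  rw [dot_neg'] at c
  exact lt_irrefl _ c

/-- LEV. walls reach beyond the confined points -/
theorem Lb.lev_wall {n : ℕ} {P S E : Type} {F : Fam n P S E} (L : Lb F) (hn : 3 ≤ n) {p : P}
    (hp : L.IN p) (m : Fin 4) {t : ℕ} (h0 : 0 < t) (h1 : t + 1 < n) :
    dot (F.pt t p) (L.d m) < dot (F.pt t (F.e2 (L.w m))) (L.d m) := by
  obtain ⟨v, hv, hp2⟩ : ∃ v, v < n ∧ prec m t v := by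
    by_cases hm : m = 0 ∨ m = 2
    · exact ⟨t + 1, h1, by unfold prec; rw [if_pos hm]; omega⟩
    · exact ⟨t - 1, by omega, by unfold prec; rw [if_neg hm]; omega⟩
  exact (L.IN_lt hn hp m (by omega) hv hp2).trans (L.W.long t v (by omega) hv m)

/-- LEV. the start of a strand is confined -/
theorem Lb.lev_IN_sd {n : ℕ} {P S E : Type} {F : Fam n P S E} (L : Lb F) (hn : 6 ≤ n)
    (m : Fin 4) : L.IN (F.e1 (L.sd m)) :=
  L.IN_of_Conn L.IN_self (L.conn_strand hn m)

namespace St2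

variable {n : ℕ} {P S E : Type} {F : Fam n P S E} (D : St2 F)

/-- the level (coordinate in the direction `J g`) of the strand `m` of the label `x` -/
noncomputable def lev (g : Pt) (x m : Fin 4) (t : ℕ) : ℝ :=
  dot (F.pt t (F.e1 ((D.L x).sd m))) (J g)

/-- LEV. the direction of a strand -/
theorem lev_sdir {g : Pt} (hg : dot g g = 1) {x m : Fin 4} {t : ℕ} (ht : t < n)
    (hm : (D.L x).d m = g ∨ (D.L x).d m = -g) : dot (F.dir t ((D.L x).sd m)) g ≠ 0 := by
  obtain ⟨l, hl, hle⟩ := (D.L x).s1 t ht m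
  have h1 : F.dir t ((D.L x).sd m) = l • (D.L x).d m := by
    unfold Fam.dir
    rw [hle]
    abel
  rw [h1, dot_smul]
  refine mul_ne_zero hl.ne' ?_
  rcases hm with h | h
  · rw [h, hg]
    exact one_ne_zero
  · rw [h, dot_neg, hg]
    norm_num

/-- LEV. the direction of a wall -/
theorem lev_wdir {g : Pt} {x m : Fin 4} {t : ℕ} (ht : t < n) (hm : (D.L x).d m = g) :
    ∃ l : ℝ, 0 < l ∧ F.dir t ((D.L x).w m) = l • g := by
  obtain ⟨l, hl, hle⟩ := (D.L x).W.wall t ht m
  refine ⟨l, hl, ?_⟩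
  have h1 : F.pt t (F.e2 ((D.L x).w m)) = F.pt t (D.L x).a + l • (D.L x).d m := hle
  unfold Fam.dir
  rw [(D.L x).w1, h1, hm]
  abel

/-- LEV. a strand does not meet a segment of another edge which is not perpendicular to it -/
theorem lev_st {g : Pt} {x m : Fin 4} {t : ℕ} (ht : t < n)
    (hm : (D.L x).d m = g ∨ (D.L x).d m = -g) {τ : S} (he : F.ed (D.Ar x m) ≠ F.ed τ)
    (hd : dot (F.dir t τ) g ≠ 0) {z : Pt}
    (h1 : z ∈ segment ℝ (F.pt t (F.e1 ((D.L x).sd m))) (F.pt t (F.e2 ((D.L x).sd m))))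
    (h2 : z ∈ segment ℝ (F.pt t (F.e1 τ)) (F.pt t (F.e2 τ))) : False := by
  obtain ⟨l, hl, hle⟩ := (D.L x).s1 t ht m
  have h3 : F.dir t ((D.L x).sd m) = l • (D.L x).d m := by
    unfold Fam.dir
    rw [hle]
    abel
  refine F.disj_of_dot (σ := (D.L x).sd m) (τ := τ) (by rw [D.eS]; exact he) ?_ ht ?_ h1 h2
  · rintro p hp (h | h)
    · exact absurd (h ▸ hp) (D.Ar3 x m)
    · exact absurd (h ▸ hp) ((D.L x).s0 m).2
  · rw [h3, dot_smul]
    refine mul_ne_zero hl.ne' ?_
    rcases hm with h | h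
    · rw [h, dot_comm]
      exact hd
    · rw [h, dot_neg, dot_comm]
      exact neg_ne_zero.2 hd

/-- LEV. an arm is not perpendicular to the frame -/
theorem lev_adir (hn : 2 ≤ n) {f v : Pt} {x m : Fin 4} (h : (D.L x).Plus f) (hv : ax f v) {t : ℕ}
    (ht : t < n) : dot (F.dir t (D.Ar x m)) v ≠ 0 :=
  Lb.end_ax hn h (D.Ar1 x m) (fun m' => D.eAW x m x m') ht hv

/-- LEV. an arm and a wall of another label -/
theorem lev_aw (hn : 2 ≤ n) {f g : Pt} {x y : Fin 4} (hxy : x ≠ y) (h : (D.L x).Plus f)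
    (hg : ax f g) {m m2 : Fin 4} (hm2 : (D.L y).d m2 = g) {t : ℕ} (ht : t < n) {z : Pt}
    (h1 : z ∈ segment ℝ (F.pt t (F.e1 (D.Ar x m))) (F.pt t (F.e2 (D.Ar x m))))
    (h2 : z ∈ segment ℝ (F.pt t (F.e1 ((D.L y).w m2))) (F.pt t (F.e2 ((D.L y).w m2)))) :
    False := by
  refine F.disj_of_dot (D.eAW x m y m2) ?_ ht ?_ h1 h2
  · rintro p hp (h3 | h3) (h4 | h4)
    · rw [D.Ar1] at h3
      rw [(D.L y).w1] at h4
      exact hxy (D.ainj x y (h3.symm.trans h4))
    · exact (D.L y).w2 m2 (h4 ▸ hp)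
    · rw [D.Ar2] at h3
      exact D.Ar3 x m (h3 ▸ hp)
    · exact (D.L y).w2 m2 (h4 ▸ hp)
  · obtain ⟨l, hl, hle⟩ := D.lev_wdir ht hm2
    rw [hle, dot_smul']
    exact mul_ne_zero hl.ne' (D.lev_adir hn h hg ht)

/-- LEV. two walls in the same direction -/
theorem lev_ww {g : Pt} (hg : dot g g = 1) {x y : Fin 4} (hxy : x ≠ y) {m m2 : Fin 4}
    (hm : (D.L x).d m = g) (hm2 : (D.L y).d m2 = g) {t : ℕ} (ht : t < n) {z : Pt}
    (h1 : z ∈ segment ℝ (F.pt t (F.e1 ((D.L x).w m))) (F.pt t (F.e2 ((D.L x).w m))))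
    (h2 : z ∈ segment ℝ (F.pt t (F.e1 ((D.L y).w m2))) (F.pt t (F.e2 ((D.L y).w m2)))) :
    False := by
  refine F.disj_of_dot (fun h => hxy (D.eW x m y m2 h).1) ?_ ht ?_ h1 h2
  · rintro p hp (h3 | h3) (h4 | h4)
    · rw [(D.L x).w1] at h3
      rw [(D.L y).w1] at h4
      exact hxy (D.ainj x y (h3.symm.trans h4))
    · exact (D.L y).w2 m2 (h4 ▸ hp)
    · exact (D.L x).w2 m (h3 ▸ hp)
    · exact (D.L x).w2 m (h3 ▸ hp)
  · obtain ⟨l, hl, hle⟩ := D.lev_wdir ht hm
    obtain ⟨l', hl', hle'⟩ := D.lev_wdir ht hm2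
    rw [hle, hle', dot_smul, dot_smul', hg]
    positivity

/-- LEV. the extended polyline is covered by the strand, the arm and the wall -/
theorem lev_cov {g : Pt} (hg : dot g g = 1) {x m m2 : Fin 4} {t : ℕ} (ht : t < n)
    (hm : (D.L x).d m = -g) (hm2 : (D.L x).d m2 = g) {xw xe : ℝ}
    (hxw : dot (F.pt t (F.e2 ((D.L x).sd m))) g < xw)
    (hxe : xe < dot (F.pt t (F.e2 ((D.L x).w m2))) g) {z : Pt}
    (hz : OnL g xw xe [F.pt t (F.e1 ((D.L x).sd m)), F.pt t (D.L x).a] z) :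
    z ∈ segment ℝ (F.pt t (F.e1 ((D.L x).sd m))) (F.pt t (F.e2 ((D.L x).sd m))) ∨
      z ∈ segment ℝ (F.pt t (F.e1 (D.Ar x m))) (F.pt t (F.e2 (D.Ar x m))) ∨
      z ∈ segment ℝ (F.pt t (F.e1 ((D.L x).w m2))) (F.pt t (F.e2 ((D.L x).w m2))) := by
  rcases hz with ⟨a, ha, h1, h2, h3⟩ | ⟨s, hs, h1⟩ | ⟨a, ha, h1, h2, h3⟩
  · simp only [List.head?_cons, Option.some.injEq] at ha
    subst ha
    left
    obtain ⟨l, hl, hle⟩ := (D.L x).s1 t ht m
    rw [hm] at hle
    exact lev_mem' hg hl hle (by linarith) h2 h3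
  · right; left
    simp only [segs, List.tail_cons, List.zip_cons_cons, List.zip_nil_right, List.mem_cons,
      List.not_mem_nil, or_false] at hs
    subst hs
    rw [D.Ar1, D.Ar2, segment_symm]
    exact h1
  · simp only [List.getLast?_cons_cons, List.getLast?_singleton, Option.some.injEq] at ha
    subst ha
    right; right
    obtain ⟨l, hl, hle⟩ := (D.L x).W.wall t ht m2
    rw [hm2] at hle
    rw [(D.L x).w1]
    exact lev_mem hg hl hle h1 (by linarith) h3

/-- LEV. For labels with the same cells the order of the levels of the strands in the direction `- g` is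
the order of the points.

Proof. `ordl` for `A = [pt t (e1 (sd m)), pt t (L x).a]`, `B` the same for `y`, `m'`. Left rays: parts of
the strands `m`, `m'` (`xw` is chosen greater than the abscissas of the ends of both strands and
smaller than those of the four points, which is possible by `Rg`: the points of `A`, `B` are
confined in `L x` or `L y`); right rays: parts of the walls in the direction `g` of both labels
(`exists_m`; `xe` smaller than the abscissas of the ends of both walls, greater than those of the four points: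
`long`, `IN_lt`, `SC`). So every point of `OnL … A` lies on one of the three segments
`sg t (sd m)`, `sg t (Ar x m)`, `sg t (wall)` of `x`, and every point of `OnL … B` on one of the three
segments of `y`. These are pairwise disjoint: `Ar x m` and `Ar y m'` by `nocross`, all other pairs by
`disj_of_dot` (one of the segments is parallel to `g`, and none of them is perpendicular to `g`:
`end_ax` for the arms). Common vertices: `(L x).a ≠ (L y).a`, the other ends are not vertices. -/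
theorem lev_iff (hn : 8 ≤ n) {f g : Pt} (hf : (D.L 0).Plus f) (hg : ax f g) {x y : Fin 4}
    (hxy : x ≠ y) (hs : (D.L x).SC (D.L y)) {m m' : Fin 4} (hm : (D.L x).d m = -g)
    (hm' : (D.L y).d m' = -g) (hr : Lb.Rg g (D.L x) (D.L y)) (hr' : Lb.Rg g (D.L y) (D.L x))
    (hrx : Lb.Rg g (D.L x) (D.L x)) (hry : Lb.Rg g (D.L y) (D.L y)) {t : ℕ} (h0 : 1 < t)
    (h1 : t + 2 < n) :
    (D.lev g x m t < D.lev g y m' t ↔
      dot (F.pt t (D.L x).a) (J g) < dot (F.pt t (D.L y).a) (J g)) ∧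
    D.lev g x m t ≠ D.lev g y m' t := by
  have ht : t < n := by omega
  have hn2 : 2 ≤ n := by omega
  have hPx : (D.L x).Plus f := D.plus_all hn hf x
  have hPy : (D.L y).Plus f := D.plus_all hn hf y
  have hgg : dot g g = 1 := by
    rw [plu_dot_unit hg]
    exact hf.unit
  obtain ⟨m2, hm2⟩ := hPx.exists_m hn2 hg
  obtain ⟨m2', hm2'⟩ := hPy.exists_m hn2 hg
  have hs' := hs.symm
  have ix : (D.L x).IN (F.e1 ((D.L x).sd m)) := (D.L x).lev_IN_sd (by omega) m
  have iy : (D.L y).IN (F.e1 ((D.L y).sd m')) := (D.L y).lev_IN_sd (by omega) m'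
  have jx : (D.L x).IN (D.L x).a := (D.L x).IN_self
  have jy : (D.L y).IN (D.L y).a := (D.L y).IN_self
  -- abscissas of the ends of the strands
  have rx : ∀ p, ((D.L x).IN p ∨ (D.L y).IN p) →
      dot (F.pt t (F.e2 ((D.L x).sd m))) g < dot (F.pt t p) g := by
    intro p hp
    have h2 : dot (F.pt t p) ((D.L x).d m) < dot (F.pt t (F.e2 ((D.L x).sd m))) ((D.L x).d m) := by
      rcases hp with hp | hp
      · exact hrx m (Or.inr hm) p hp t (by omega) (by omega)
      · exact hr m (Or.inr hm) p hp t (by omega) (by omega)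
    rw [hm, dot_neg', dot_neg'] at h2
    linarith
  have ry : ∀ p, ((D.L x).IN p ∨ (D.L y).IN p) →
      dot (F.pt t (F.e2 ((D.L y).sd m'))) g < dot (F.pt t p) g := by
    intro p hp
    have h2 : dot (F.pt t p) ((D.L y).d m') < dot (F.pt t (F.e2 ((D.L y).sd m')))
        ((D.L y).d m') := by
      rcases hp with hp | hp
      · exact hr' m' (Or.inr hm') p hp t (by omega) (by omega)
      · exact hry m' (Or.inr hm') p hp t (by omega) (by omega)
    rw [hm', dot_neg', dot_neg'] at h2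
    linarith
  have wx : ∀ p, ((D.L x).IN p ∨ (D.L y).IN p) →
      dot (F.pt t p) g < dot (F.pt t (F.e2 ((D.L x).w m2))) g := by
    intro p hp
    have hp' : (D.L x).IN p := by
      rcases hp with hp | hp
      · exact hp
      · exact hs'.IN (by omega) hp
    have h2 := (D.L x).lev_wall (by omega) hp' m2 (t := t) (by omega) (by omega)
    rwa [hm2] at h2
  have wy : ∀ p, ((D.L x).IN p ∨ (D.L y).IN p) →
      dot (F.pt t p) g < dot (F.pt t (F.e2 ((D.L y).w m2'))) g := by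
    intro p hp
    have hp' : (D.L y).IN p := by
      rcases hp with hp | hp
      · exact hs.IN (by omega) hp
      · exact hp
    have h2 := (D.L y).lev_wall (by omega) hp' m2' (t := t) (by omega) (by omega)
    rwa [hm2'] at h2
  obtain ⟨xw, hw1, hw2⟩ := exists_between (show
      max (dot (F.pt t (F.e2 ((D.L x).sd m))) g) (dot (F.pt t (F.e2 ((D.L y).sd m'))) g) <
      min (min (dot (F.pt t (F.e1 ((D.L x).sd m))) g) (dot (F.pt t (D.L x).a) g))
        (min (dot (F.pt t (F.e1 ((D.L y).sd m'))) g) (dot (F.pt t (D.L y).a) g)) from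
    max_lt (lt_min (lt_min (rx _ (Or.inl ix)) (rx _ (Or.inl jx)))
      (lt_min (rx _ (Or.inr iy)) (rx _ (Or.inr jy))))
      (lt_min (lt_min (ry _ (Or.inl ix)) (ry _ (Or.inl jx)))
      (lt_min (ry _ (Or.inr iy)) (ry _ (Or.inr jy)))))
  obtain ⟨xe, he1, he2⟩ := exists_between (show
      max (max (dot (F.pt t (F.e1 ((D.L x).sd m))) g) (dot (F.pt t (D.L x).a) g))
        (max (dot (F.pt t (F.e1 ((D.L y).sd m'))) g) (dot (F.pt t (D.L y).a) g)) <
      min (dot (F.pt t (F.e2 ((D.L x).w m2))) g) (dot (F.pt t (F.e2 ((D.L y).w m2'))) g) from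
    max_lt (max_lt (lt_min (wx _ (Or.inl ix)) (wy _ (Or.inl ix)))
      (lt_min (wx _ (Or.inl jx)) (wy _ (Or.inl jx))))
      (max_lt (lt_min (wx _ (Or.inr iy)) (wy _ (Or.inr iy)))
      (lt_min (wx _ (Or.inr jy)) (wy _ (Or.inr jy)))))
  simp only [max_lt_iff, lt_min_iff] at hw1 hw2 he1 he2
  refine ordl hgg (xw := xw) (xe := xe)
    (A := [F.pt t (F.e1 ((D.L x).sd m)), F.pt t (D.L x).a])
    (B := [F.pt t (F.e1 ((D.L y).sd m')), F.pt t (D.L y).a]) rfl rfl rfl rfl ?_ ?_ ?_ ?_ ?_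
  · intro z hz
    simp only [List.mem_cons, List.not_mem_nil, or_false] at hz
    rcases hz with rfl | rfl
    · exact ⟨hw2.1.1, he1.1.1⟩
    · exact ⟨hw2.1.2, he1.1.2⟩
  · intro z hz
    simp only [List.mem_cons, List.not_mem_nil, or_false] at hz
    rcases hz with rfl | rfl
    · exact ⟨hw2.2.1, he1.2.1⟩
    · exact ⟨hw2.2.2, he1.2.2⟩
  · intro s hs
    simp only [segs, List.tail_cons, List.zip_cons_cons, List.zip_nil_right, List.mem_cons,
      List.not_mem_nil, or_false] at hs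
    subst hs
    have h2 := F.nd t ht (D.Ar x m)
    rw [D.Ar1, D.Ar2] at h2
    exact h2.symm
  · intro s hs
    simp only [segs, List.tail_cons, List.zip_cons_cons, List.zip_nil_right, List.mem_cons,
      List.not_mem_nil, or_false] at hs
    subst hs
    have h2 := F.nd t ht (D.Ar y m')
    rw [D.Ar1, D.Ar2] at h2
    exact h2.symm
  · intro z hzA hzB
    have cA := D.lev_cov hgg ht hm hm2 hw1.1 he2.1 hzA
    have cB := D.lev_cov hgg ht hm' hm2' hw1.2 he2.2 hzB
    have hwx : dot (F.dir t ((D.L x).w m2)) g ≠ 0 := by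
      obtain ⟨l, hl, hle⟩ := D.lev_wdir (x := x) ht hm2
      rw [hle, dot_smul, hgg]
      positivity
    have hwy : dot (F.dir t ((D.L y).w m2')) g ≠ 0 := by
      obtain ⟨l, hl, hle⟩ := D.lev_wdir (x := y) ht hm2'
      rw [hle, dot_smul, hgg]
      positivity
    have hea : F.ed (D.Ar x m) ≠ F.ed (D.Ar y m') := fun h => hxy (D.eA x m y m' h).1
    rcases cA with c1 | c1 | c1 <;> rcases cB with c2 | c2 | c2
    · exact D.lev_st ht (Or.inr hm) (τ := (D.L y).sd m') (by rw [D.eS]; exact hea)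
        (D.lev_sdir hgg ht (Or.inr hm')) c1 c2
    · exact D.lev_st ht (Or.inr hm) hea (D.lev_adir hn2 hPy hg ht) c1 c2
    · exact D.lev_st ht (Or.inr hm) (D.eAW x m y m2') hwy c1 c2
    · exact D.lev_st ht (Or.inr hm') hea.symm (D.lev_adir hn2 hPx hg ht) c2 c1
    · refine Lb.nocross (by omega) hs hPx (fun h => hxy (D.ainj x y h)) (D.Ar1 x m) ?_ (D.Ar1 y m')
        ?_ (fun k => D.eAW x m x k) (fun k => D.eAW x m y k) (fun k => D.eAW y m' x k)
        (fun k => D.eAW y m' y k) hea (t := t) (by omega) (by omega) c1 c2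
      · rw [D.Ar2]
        exact D.Ar3 x m
      · rw [D.Ar2]
        exact D.Ar3 y m'
    · exact D.lev_aw hn2 hxy hPx hg hm2' ht c1 c2
    · exact D.lev_st ht (Or.inr hm') (D.eAW y m' x m2) hwx c2 c1
    · exact D.lev_aw hn2 hxy.symm hPy hg hm2 ht c2 c1
    · exact D.lev_ww hgg hxy hm2 hm2' ht c1 c2

end St2
end Pool.Agent.RAC

/-!
# Star clusters, two bends: levels in both directions (piece PIW)
-/

namespace Pool.Agent.RAC
namespace St2

variable {n : ℕ} {P S E : Type} {F : Fam n P S E} (D : St2 F)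

/-- PIW. the four segments of the polyline of the label `x` -/
def PIWm (x m k : Fin 4) (σ : S) : Prop :=
  σ = (D.L x).sd m ∨ σ = D.Ar x m ∨ σ = D.Ar x k ∨ σ = (D.L x).sd k

variable {D}

theorem piw_ed {x m k : Fin 4} {σ : S} (h : D.PIWm x m k σ) : ∃ i, F.ed σ = F.ed (D.Ar x i) := by
  rcases h with rfl | rfl | rfl | rfl
  · exact ⟨m, D.eS x m⟩
  · exact ⟨m, rfl⟩
  · exact ⟨k, rfl⟩
  · exact ⟨k, D.eS x k⟩

theorem piw_ver {x m k : Fin 4} {σ : S} (h : D.PIWm x m k σ) {p : P} (hp : F.ver p)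
    (h1 : p = F.e1 σ ∨ p = F.e2 σ) : p = (D.L x).a := by
  have hs : ∀ i, (p = F.e1 ((D.L x).sd i) ∨ p = F.e2 ((D.L x).sd i)) → p = (D.L x).a := by
    rintro i (rfl | rfl)
    · exact absurd hp (D.Ar3 x i)
    · exact absurd hp ((D.L x).s0 i).2
  have ha : ∀ i, (p = F.e1 (D.Ar x i) ∨ p = F.e2 (D.Ar x i)) → p = (D.L x).a := by
    rintro i (rfl | rfl)
    · exact D.Ar1 x i
    · rw [D.Ar2] at hp
      exact absurd hp (D.Ar3 x i)
  rcases h with rfl | rfl | rfl | rfl
  · exact hs _ h1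
  · exact ha _ h1
  · exact ha _ h1
  · exact hs _ h1

variable (D)

theorem piw_dir {x i : Fin 4} {t : ℕ} (ht : t < n) :
    ∃ l : ℝ, 0 < l ∧ F.dir t ((D.L x).sd i) = l • (D.L x).d i := by
  obtain ⟨l, hl, he⟩ := (D.L x).s1 t ht i
  refine ⟨l, hl, ?_⟩
  unfold Fam.dir
  rw [he]
  abel

theorem piw_str_ne {g : Pt} (hgg : dot g g = 1) {x i : Fin 4}
    (hi : (D.L x).d i = g ∨ (D.L x).d i = -g) {t : ℕ} (ht : t < n) :
    dot (F.dir t ((D.L x).sd i)) g ≠ 0 := by
  obtain ⟨l, hl, he⟩ := D.piw_dir (x := x) (i := i) ht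
  rw [he, dot_smul]
  rcases hi with hi | hi
  · rw [hi, hgg, mul_one]
    exact hl.ne'
  · rw [hi, dot_neg, hgg]
    intro h
    linarith

theorem piw_dot_left {g : Pt} {x i : Fin 4} (hi : (D.L x).d i = g ∨ (D.L x).d i = -g) {t : ℕ}
    (ht : t < n) {v : Pt} (hv : dot v g ≠ 0) : dot (F.dir t ((D.L x).sd i)) v ≠ 0 := by
  obtain ⟨l, hl, he⟩ := D.piw_dir (x := x) (i := i) ht
  rw [he, dot_smul, dot_comm]
  rcases hi with hi | hi
  · rw [hi]
    exact mul_ne_zero hl.ne' hv
  · rw [hi, dot_neg']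
    exact mul_ne_zero hl.ne' (neg_ne_zero.2 hv)

theorem piw_dot_right {g : Pt} {x i : Fin 4} (hi : (D.L x).d i = g ∨ (D.L x).d i = -g) {t : ℕ}
    (ht : t < n) {v : Pt} (hv : dot v g ≠ 0) : dot v (F.dir t ((D.L x).sd i)) ≠ 0 := by
  rw [dot_comm]
  exact D.piw_dot_left hi ht hv

theorem piw_arm_IN (x i : Fin 4) : (D.L x).IN (F.e1 (D.Ar x i)) ∧ (D.L x).IN (F.e2 (D.Ar x i)) := by
  rw [D.Ar1, D.Ar2]
  exact ⟨(D.L x).IN_self, (D.L x).sK i⟩

/-- PIW. points of separated segments are different -/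
theorem piw_conv {L L' : Lb F} {g : Pt} {σ τ : S} {t : ℕ}
    (h1 : L.IN (F.e1 σ) ∧ L.IN (F.e2 σ)) (h2 : L'.IN (F.e1 τ) ∧ L'.IN (F.e2 τ))
    (h : ∀ p q, L.IN p → L'.IN q → dot (F.pt t p) g < dot (F.pt t q) g) {z : Pt}
    (hz : z ∈ segment ℝ (F.pt t (F.e1 σ)) (F.pt t (F.e2 σ)))
    (hz' : z ∈ segment ℝ (F.pt t (F.e1 τ)) (F.pt t (F.e2 τ))) : False := by
  have e : ∀ q, L'.IN q → dot z g < dot (F.pt t q) g := fun q hq =>
    dot_segment_lt hz (h _ _ h1.1 hq) (h _ _ h1.2 hq)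
  have e1 := e _ h2.1
  have e2 := e _ h2.2
  have e3 : dot z (-g) < - dot z g := dot_segment_lt hz' (by rw [dot_neg']; linarith)
    (by rw [dot_neg']; linarith)
  rw [dot_neg'] at e3
  exact lt_irrefl _ e3

/-- PIW. a point between the ends of a segment in the direction `v` -/
theorem piw_seg {v a e z : Pt} (hv : dot v v = 1) {l : ℝ} (hl : 0 < l) (he : e = a + l • v)
    (hJ : dot z (J v) = dot a (J v)) (h1 : dot a v ≤ dot z v) (h2 : dot z v ≤ dot e v) :
    z ∈ segment ℝ a e := by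
  have hpar : z - a = dot (z - a) v • v := Lb.sid_par hv (by rw [dot_sub, hJ, sub_self])
  have hs0 : 0 ≤ dot (z - a) v := by rw [dot_sub]; linarith
  have hs1 : dot (z - a) v ≤ l := by
    rw [he, dot_add, dot_smul, hv, mul_one] at h2
    rw [dot_sub]
    linarith
  have hz : z = a + dot (z - a) v • v := by
    rw [← hpar]
    abel
  obtain ⟨s, hs⟩ : ∃ s, s = dot (z - a) v := ⟨_, rfl⟩
  rw [← hs] at hz hs0 hs1
  refine ⟨1 - s / l, s / l, ?_, by positivity, by ring, ?_⟩
  · rw [sub_nonneg, div_le_one hl]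
    exact hs1
  · have h9 : s • v = (s / l) • (l • v) := by
      rw [smul_smul]
      congr 1
      field_simp
    rw [hz, he, h9]
    module

theorem piw_on {g : Pt} (hgg : dot g g = 1) {x m k : Fin 4} (hm : (D.L x).d m = -g)
    (hk : (D.L x).d k = g) {t : ℕ} (ht : t < n) {xw xe : ℝ}
    (hxw : dot (F.pt t (F.e2 ((D.L x).sd m))) g ≤ xw)
    (hxe : xe ≤ dot (F.pt t (F.e2 ((D.L x).sd k))) g) {z : Pt}
    (hz : OnL g xw xe [F.pt t (F.e1 ((D.L x).sd m)), F.pt t (D.L x).a,
      F.pt t (F.e1 ((D.L x).sd k))] z) : ∃ σ, D.PIWm x m k σ ∧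
      z ∈ segment ℝ (F.pt t (F.e1 σ)) (F.pt t (F.e2 σ)) := by
  rcases hz with ⟨a, ha, h1, h2, h3⟩ | ⟨s, hs, hz⟩ | ⟨a, ha, h1, h2, h3⟩
  · simp only [List.head?_cons, Option.some.injEq] at ha
    subst ha
    obtain ⟨l, hl, he⟩ := (D.L x).s1 t ht m
    rw [hm] at he
    refine ⟨_, Or.inl rfl, piw_seg (v := -g) (by rw [plu_dot_neg_neg]; exact hgg) hl he ?_ ?_ ?_⟩
    · rw [plu_J_neg, dot_neg', dot_neg', h3]
    · rw [dot_neg', dot_neg']; linarith
    · rw [dot_neg', dot_neg']; linarith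
  · simp only [segs, List.tail_cons, List.zip_cons_cons, List.zip_nil_right, List.mem_cons,
      List.not_mem_nil, or_false] at hs
    rcases hs with rfl | rfl
    · refine ⟨D.Ar x m, Or.inr (Or.inl rfl), ?_⟩
      rw [D.Ar1, D.Ar2, segment_symm]
      exact hz
    · refine ⟨D.Ar x k, Or.inr (Or.inr (Or.inl rfl)), ?_⟩
      rw [D.Ar1, D.Ar2]
      exact hz
  · simp only [List.getLast?_cons_cons, List.getLast?_singleton, Option.some.injEq] at ha
    subst ha
    obtain ⟨l, hl, he⟩ := (D.L x).s1 t ht k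
    rw [hk] at he
    exact ⟨_, Or.inr (Or.inr (Or.inr rfl)), piw_seg hgg hl he h3 h1 (h2.trans hxe)⟩

theorem piw_nd (x m k : Fin 4) {t : ℕ} (ht : t < n) :
    ∀ s ∈ segs [F.pt t (F.e1 ((D.L x).sd m)), F.pt t (D.L x).a,
      F.pt t (F.e1 ((D.L x).sd k))], s.1 ≠ s.2 := by
  intro s hs
  simp only [segs, List.tail_cons, List.zip_cons_cons, List.zip_nil_right, List.mem_cons,
    List.not_mem_nil, or_false] at hs
  rcases hs with rfl | rfl
  · have := F.nd t ht (D.Ar x m)
    rw [D.Ar1, D.Ar2] at this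
    exact this.symm
  · have := F.nd t ht (D.Ar x k)
    rw [D.Ar1, D.Ar2] at this
    exact this

/-- PIW. The order of the levels of the strands is the same in both directions.

Proof. `ordl` for `A = [pt t (e1 (sd m)), pt t (L x).a, pt t (e1 (sd k))]`, `B` the same for `y`, `m'`,
`k'`. Rays: parts of the strands (`Rg`). The segments of `x`: `sd m`, `Ar x m`, `Ar x k`, `sd k`, the
same for `y`. They are disjoint: strands against everything by `disj_of_dot`
(`end_ax`); `Ar x _` against `Ar y _`: if `(L x).SC (L y)` by `nocross`, otherwise their points are convex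
combinations of points confined in `L x` resp. `L y`, which are separated in the direction `g` (`hsep`,
`dot_segment_lt`). -/
theorem piw (hn : 8 ≤ n) {f g : Pt} (hf : (D.L 0).Plus f) (hg : ax f g) {x y : Fin 4}
    (hxy : x ≠ y) {m m' k k' : Fin 4} (hm : (D.L x).d m = -g) (hm' : (D.L y).d m' = -g)
    (hk : (D.L x).d k = g) (hk' : (D.L y).d k' = g) {t : ℕ} (h0 : 1 < t) (h1 : t + 2 < n)
    (hr : Lb.Rg g (D.L x) (D.L y)) (hr' : Lb.Rg g (D.L y) (D.L x))
    (hrx : Lb.Rg g (D.L x) (D.L x)) (hry : Lb.Rg g (D.L y) (D.L y))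
    (hsep : (D.L x).SC (D.L y) ∨
      (∀ p q, (D.L x).IN p → (D.L y).IN q → dot (F.pt t p) g < dot (F.pt t q) g) ∨
      (∀ p q, (D.L x).IN p → (D.L y).IN q → dot (F.pt t q) g < dot (F.pt t p) g)) :
    (D.lev g x m t < D.lev g y m' t ↔ D.lev g x k t < D.lev g y k' t) ∧
      D.lev g x m t ≠ D.lev g y m' t := by
  have hgg : dot g g = 1 := (plu_dot_unit hg).trans hf.unit
  have hax : (D.L x).a ≠ (D.L y).a := fun he => hxy (D.ainj x y he)
  have hpx := D.plus_all hn hf x
  have hpy := D.plus_all hn hf y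
  have ht : t < n := by omega
  -- separation of the segments
  have sep : ∀ σ τ, D.PIWm x m k σ → D.PIWm y m' k' τ → ∀ z,
      z ∈ segment ℝ (F.pt t (F.e1 σ)) (F.pt t (F.e2 σ)) →
      z ∈ segment ℝ (F.pt t (F.e1 τ)) (F.pt t (F.e2 τ)) → False := by
    intro σ τ hσ hτ z hz hz'
    have hed : F.ed σ ≠ F.ed τ := by
      obtain ⟨i, hi⟩ := D.piw_ed hσ
      obtain ⟨j, hj⟩ := D.piw_ed hτ
      rw [hi, hj]
      exact fun he => hxy (D.eA _ _ _ _ he).1
    have hv : ∀ p, F.ver p → (p = F.e1 σ ∨ p = F.e2 σ) → ¬ (p = F.e1 τ ∨ p = F.e2 τ) := by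
      intro p hp h1 h2
      exact hax ((D.piw_ver hσ hp h1).symm.trans (D.piw_ver hτ hp h2))
    have hgx : dot (F.dir t σ) g ≠ 0 := by
      rcases hσ with rfl | rfl | rfl | rfl
      · exact D.piw_str_ne hgg (Or.inr hm) ht
      · exact Lb.end_ax (by omega) hpx (D.Ar1 x m) (fun i => D.eAW x m x i) ht hg
      · exact Lb.end_ax (by omega) hpx (D.Ar1 x k) (fun i => D.eAW x k x i) ht hg
      · exact D.piw_str_ne hgg (Or.inl hk) ht
    have hgy : dot (F.dir t τ) g ≠ 0 := by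
      rcases hτ with rfl | rfl | rfl | rfl
      · exact D.piw_str_ne hgg (Or.inr hm') ht
      · exact Lb.end_ax (by omega) hpy (D.Ar1 y m') (fun i => D.eAW y m' y i) ht hg
      · exact Lb.end_ax (by omega) hpy (D.Ar1 y k') (fun i => D.eAW y k' y i) ht hg
      · exact D.piw_str_ne hgg (Or.inl hk') ht
    have harm : ∀ i j, σ = D.Ar x i → τ = D.Ar y j → False := by
      rintro i j rfl rfl
      rcases hsep with hsc | hs | hs
      · refine Lb.nocross (f := f) (by omega) hsc hpx hax (D.Ar1 x i) ?_ (D.Ar1 y j) ?_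
          (fun l => D.eAW _ _ _ l) (fun l => D.eAW _ _ _ l) (fun l => D.eAW _ _ _ l)
          (fun l => D.eAW _ _ _ l) hed (t := t) (by omega) (by omega) hz hz'
        · rw [D.Ar2]; exact D.Ar3 x i
        · rw [D.Ar2]; exact D.Ar3 y j
      · exact piw_conv (D.piw_arm_IN x i) (D.piw_arm_IN y j) hs hz hz'
      · exact piw_conv (D.piw_arm_IN y j) (D.piw_arm_IN x i) (fun p q hp hq => hs q p hq hp) hz' hz
    have key : dot (F.dir t σ) (F.dir t τ) ≠ 0 → False := fun hd =>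
      F.disj_of_dot hed hv ht hd hz hz'
    rcases hσ with hσ | hσ | hσ | hσ
    · subst hσ
      exact key (D.piw_dot_left (Or.inr hm) ht hgy)
    · rcases hτ with hτ | hτ | hτ | hτ
      · subst hτ
        exact key (D.piw_dot_right (Or.inr hm') ht hgx)
      · exact harm _ _ hσ hτ
      · exact harm _ _ hσ hτ
      · subst hτ
        exact key (D.piw_dot_right (Or.inl hk') ht hgx)
    · rcases hτ with hτ | hτ | hτ | hτ
      · subst hτ
        exact key (D.piw_dot_right (Or.inr hm') ht hgx)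
      · exact harm _ _ hσ hτ
      · exact harm _ _ hσ hτ
      · subst hτ
        exact key (D.piw_dot_right (Or.inl hk') ht hgx)
    · subst hσ
      exact key (D.piw_dot_left (Or.inl hk) ht hgy)
  -- the range
  set xw : ℝ := max (dot (F.pt t (F.e2 ((D.L x).sd m))) g) (dot (F.pt t (F.e2 ((D.L y).sd m'))) g)
    with hxw
  set xe : ℝ := min (dot (F.pt t (F.e2 ((D.L x).sd k))) g) (dot (F.pt t (F.e2 ((D.L y).sd k'))) g)
    with hxe
  have rgx : ∀ p, ((D.L x).IN p ∨ (D.L y).IN p) → xw < dot (F.pt t p) g ∧ dot (F.pt t p) g < xe := by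
    intro p hp
    have q1 : dot (F.pt t p) (-g) < dot (F.pt t (F.e2 ((D.L x).sd m))) (-g) := by
      rcases hp with hp | hp
      · have := hrx m (Or.inr hm) p hp t (by omega) (by omega)
        rwa [hm] at this
      · have := hr m (Or.inr hm) p hp t (by omega) (by omega)
        rwa [hm] at this
    have q2 : dot (F.pt t p) (-g) < dot (F.pt t (F.e2 ((D.L y).sd m'))) (-g) := by
      rcases hp with hp | hp
      · have := hr' m' (Or.inr hm') p hp t (by omega) (by omega)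
        rwa [hm'] at this
      · have := hry m' (Or.inr hm') p hp t (by omega) (by omega)
        rwa [hm'] at this
    have q3 : dot (F.pt t p) g < dot (F.pt t (F.e2 ((D.L x).sd k))) g := by
      rcases hp with hp | hp
      · have := hrx k (Or.inl hk) p hp t (by omega) (by omega)
        rwa [hk] at this
      · have := hr k (Or.inl hk) p hp t (by omega) (by omega)
        rwa [hk] at this
    have q4 : dot (F.pt t p) g < dot (F.pt t (F.e2 ((D.L y).sd k'))) g := by
      rcases hp with hp | hp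
      · have := hr' k' (Or.inl hk') p hp t (by omega) (by omega)
        rwa [hk'] at this
      · have := hry k' (Or.inl hk') p hp t (by omega) (by omega)
        rwa [hk'] at this
    rw [dot_neg', dot_neg'] at q1 q2
    exact ⟨max_lt (by linarith) (by linarith), lt_min q3 q4⟩
  have onx : ∀ z, OnL g xw xe [F.pt t (F.e1 ((D.L x).sd m)), F.pt t (D.L x).a,
      F.pt t (F.e1 ((D.L x).sd k))] z → ∃ σ, D.PIWm x m k σ ∧
      z ∈ segment ℝ (F.pt t (F.e1 σ)) (F.pt t (F.e2 σ)) := fun z hz =>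
    D.piw_on hgg hm hk ht (le_max_left _ _) (min_le_left _ _) hz
  have ony : ∀ z, OnL g xw xe [F.pt t (F.e1 ((D.L y).sd m')), F.pt t (D.L y).a,
      F.pt t (F.e1 ((D.L y).sd k'))] z → ∃ σ, D.PIWm y m' k' σ ∧
      z ∈ segment ℝ (F.pt t (F.e1 σ)) (F.pt t (F.e2 σ)) := fun z hz =>
    D.piw_on hgg hm' hk' ht (le_max_right _ _) (min_le_right _ _) hz
  refine ordl hgg (xw := xw) (xe := xe) (A := [F.pt t (F.e1 ((D.L x).sd m)), F.pt t (D.L x).a,
      F.pt t (F.e1 ((D.L x).sd k))]) (B := [F.pt t (F.e1 ((D.L y).sd m')), F.pt t (D.L y).a,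
      F.pt t (F.e1 ((D.L y).sd k'))]) rfl rfl rfl rfl ?_ ?_ ?_ ?_ ?_
  · intro z hz
    simp only [List.mem_cons, List.not_mem_nil, or_false] at hz
    rcases hz with rfl | rfl | rfl
    · exact rgx _ (Or.inl ((D.L x).sK m))
    · exact rgx _ (Or.inl (D.L x).IN_self)
    · exact rgx _ (Or.inl ((D.L x).sK k))
  · intro z hz
    simp only [List.mem_cons, List.not_mem_nil, or_false] at hz
    rcases hz with rfl | rfl | rfl
    · exact rgx _ (Or.inr ((D.L y).sK m'))
    · exact rgx _ (Or.inr (D.L y).IN_self)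
    · exact rgx _ (Or.inr ((D.L y).sK k'))
  · exact D.piw_nd x m k ht
  · exact D.piw_nd y m' k' ht
  · intro z h2 h3
    obtain ⟨σ, hσ, hz⟩ := onx z h2
    obtain ⟨τ, hτ, hz'⟩ := ony z h3
    exact sep σ τ hσ hτ z hz hz'

end St2
end Pool.Agent.RAC

/-!
# Star clusters, two bends: the polyline through an edge (piece GAM)
-/

namespace Pool.Agent.RAC

/-- GAM. a number between -/
theorem gam_lo (a : ℝ) (l : List ℝ) (h : ∀ y ∈ l, a < y) : ∃ z, a < z ∧ ∀ y ∈ l, z < y := by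
  induction l with
  | nil => exact ⟨a + 1, by linarith, fun y hy => absurd hy List.not_mem_nil⟩
  | cons b l ih =>
    obtain ⟨z, h1, h2⟩ := ih fun y hy => h y (List.mem_cons_of_mem b hy)
    have h3 : a < b := h b List.mem_cons_self
    refine ⟨min z ((a + b) / 2), lt_min h1 (by linarith), ?_⟩
    intro y hy
    rcases List.mem_cons.1 hy with rfl | hy
    · exact lt_of_le_of_lt (min_le_right _ _) (by linarith)
    · exact lt_of_le_of_lt (min_le_left _ _) (h2 y hy)

/-- GAM. a number between -/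
theorem gam_hi (a : ℝ) (l : List ℝ) (h : ∀ y ∈ l, y < a) : ∃ z, z < a ∧ ∀ y ∈ l, y < z := by
  induction l with
  | nil => exact ⟨a - 1, by linarith, fun y hy => absurd hy List.not_mem_nil⟩
  | cons b l ih =>
    obtain ⟨z, h1, h2⟩ := ih fun y hy => h y (List.mem_cons_of_mem b hy)
    have h3 : b < a := h b List.mem_cons_self
    refine ⟨max z ((a + b) / 2), max_lt h1 (by linarith), ?_⟩
    intro y hy
    rcases List.mem_cons.1 hy with rfl | hy
    · exact lt_of_lt_of_le (by linarith) (le_max_right _ _)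
    · exact lt_of_lt_of_le (h2 y hy) (le_max_left _ _)

namespace St2

variable {n : ℕ} {P S E : Type} {F : Fam n P S E} (D : St2 F)

/-- GAM. an end segment and an arm of another label -/
theorem gam_end (hn : 8 ≤ n) {f g : Pt} {x c : Fin 4} (hxc : x ≠ c) (hf : (D.L x).Plus f)
    {σ : S} {k : Fin 4} (h1 : F.e1 σ = (D.L x).a) (h2 : ¬ F.ver (F.e2 σ))
    (he : ∀ y m, F.ed σ ≠ F.ed ((D.L y).w m)) (hed : F.ed σ ≠ F.ed (D.Ar c k)) {t : ℕ}
    (h0 : 1 < t) (h3 : t + 2 < n)
    (hsep : (D.L x).SC (D.L c) ∨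
      (∀ p q, (D.L x).IN p → (D.L c).IN q → dot (F.pt t p) g < dot (F.pt t q) g) ∨
      (∀ p q, (D.L x).IN p → (D.L c).IN q → dot (F.pt t q) g < dot (F.pt t p) g)) {z : Pt}
    (hz : z ∈ segment ℝ (F.pt t (F.e1 σ)) (F.pt t (F.e2 σ)))
    (hz' : z ∈ segment ℝ (F.pt t (F.e1 (D.Ar c k))) (F.pt t (F.e2 (D.Ar c k)))) : False := by
  have i1 : (D.L x).IN (F.e1 σ) := by rw [h1]; exact (D.L x).IN_self
  have i2 : (D.L x).IN (F.e2 σ) := (D.L x).end_conf h1 (he x)
  have j1 : (D.L c).IN (F.e1 (D.Ar c k)) := by rw [D.Ar1]; exact (D.L c).IN_self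
  have j2 : (D.L c).IN (F.e2 (D.Ar c k)) := by rw [D.Ar2]; exact (D.L c).lev_IN_sd (by omega) k
  rcases hsep with hs | hs | hs
  · refine Lb.nocross (by omega) hs hf (fun h => hxc (D.ainj x c h)) h1 h2 (D.Ar1 c k) ?_
      (fun m => he x m) (fun m => he c m) (fun m => D.eAW c k x m) (fun m => D.eAW c k c m) hed
      (t := t) (by omega) (by omega) hz hz'
    rw [D.Ar2]
    exact D.Ar3 c k
  · exact lev_sep (g := g) (hs _ _ i1 j1) (hs _ _ i1 j2) (hs _ _ i2 j1) (hs _ _ i2 j2) hz hz'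
  · exact lev_sep (g := g) (hs _ _ i1 j1) (hs _ _ i2 j1) (hs _ _ i1 j2) (hs _ _ i2 j2) hz' hz

/-- GAM. The polyline through an edge. `c = i' + 1` is the third label; not all three labels have the same
cells. The order of the levels of `0` and `c` on the left is the order of the levels of `i + 1` and `c` on
the right.

Proof. `ordl` for `A = [pt t (e1 (sd m0)), pt t (L 0).a, pt t (e1 (μ i)), pt t (e2 (μ i)),
pt t (L (i+1)).a, pt t (e1 (sd k1))]` (`m0` for the label `0`, `k1` for the label `i + 1`) and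
`B = [pt t (e1 (sd mc)), pt t (L c).a, pt t (e1 (sd kc))]`. Rays: parts of the strands `m0`, `k1`, `mc`,
`kc` (`xw`, `xe` exist by `Tri.rg`; all points of `A`, `B` are confined in one of the three labels).
Segments of `A`: `sd m0`, `Ar 0 m0`, `Z i`, `μ i`, `Z' i`, `Ar (i+1) k1`, `sd k1`; of `B`: `sd mc`,
`Ar c mc`, `Ar c kc`, `sd kc`. None of them is perpendicular to `g` (`end_ax`, `hμ`), so strands are
disjoint from everything else (`disj_of_dot`). It remains to show that `Ar 0 m0`, `Z i`, `μ i`, `Z' i`,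
`Ar (i+1) k1` are disjoint from `Ar c mc`, `Ar c kc`. For pairs of labels use `Tri.sep`.
* `Ar 0 m0`, `Z i` (end segments of `0`): if `L 0` and `L c` have the same cells: `nocross`. If they are
  separated: disjoint ranges of abscissas (`dot_segment_lt`), the ends being confined (`end_conf`).
* `Z' i`, `Ar (i+1) k1` (end segments of `i + 1`): the same with `L (i+1)` and `L c`.
* `μ i`: by `Lk.frame` (`link`) either `L 0`, `L (i+1)` have the same cells; then `L 0`, `L c` do not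
  (hypothesis `hns` and `SC.trans`), both ends of `μ i` are confined in `L 0`, and `L 0`, `L c` are
  separated: disjoint ranges. Or `μ i` has the direction of `(L 0).d m1`, which
  is a vector of the frame and not perpendicular to `g`, so `μ i` is parallel to `g` and
  `disj_of_dot` applies (`end_ax` for `Ar c _`). -/
theorem gam (hn : 8 ≤ n) {f g : Pt} (hf : (D.L 0).Plus f) (hg : ax f g) {i i' : Fin 3}
    (hii : i ≠ i') (hT : Lb.Tri g (D.L 0) (D.L i.succ) (D.L i'.succ))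
    (hns : ¬ ((D.L 0).SC (D.L i.succ) ∧ (D.L 0).SC (D.L i'.succ))) {t : ℕ} (h0 : 1 < t)
    (h1 : t + 2 < n) (hμ : dot (F.dir t (D.μ i)) g ≠ 0) {m0 k1 mc kc : Fin 4}
    (hm0 : (D.L 0).d m0 = -g) (hk1 : (D.L i.succ).d k1 = g) (hmc : (D.L i'.succ).d mc = -g)
    (hkc : (D.L i'.succ).d kc = g) :
    (D.lev g 0 m0 t < D.lev g i'.succ mc t ↔ D.lev g i.succ k1 t < D.lev g i'.succ kc t) ∧
      D.lev g 0 m0 t ≠ D.lev g i'.succ mc t := by
  have ht : t < n := by omega
  have hn2 : 2 ≤ n := by omega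
  have n0w : (0 : Fin 4) ≠ i.succ := (Fin.succ_ne_zero i).symm
  have n0c : (0 : Fin 4) ≠ i'.succ := (Fin.succ_ne_zero i').symm
  have nwc : i.succ ≠ i'.succ := fun h => hii (Fin.succ_injective 3 h)
  have hPw : (D.L i.succ).Plus f := D.plus_all hn hf i.succ
  have hPc : (D.L i'.succ).Plus f := D.plus_all hn hf i'.succ
  have hgg : dot g g = 1 := by
    rw [plu_dot_unit hg]
    exact hf.unit
  have hlk := D.link hn i
  -- confined points
  have rgl : ∀ p, ((D.L 0).IN p ∨ (D.L i.succ).IN p ∨ (D.L i'.succ).IN p) →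
      dot (F.pt t (F.e2 ((D.L 0).sd m0))) g < dot (F.pt t p) g ∧
      dot (F.pt t (F.e2 ((D.L i'.succ).sd mc))) g < dot (F.pt t p) g ∧
      dot (F.pt t p) g < dot (F.pt t (F.e2 ((D.L i.succ).sd k1))) g ∧
      dot (F.pt t p) g < dot (F.pt t (F.e2 ((D.L i'.succ).sd kc))) g := by
    intro p hp
    have key : ∀ x : Lb F, (x = D.L 0 ∨ x = D.L i.succ ∨ x = D.L i'.succ) → ∀ m,
        (x.d m = g ∨ x.d m = -g) →
        dot (F.pt t p) (x.d m) < dot (F.pt t (F.e2 (x.sd m))) (x.d m) := by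
      intro x hx m hm
      rcases hp with hp | hp | hp
      · exact hT.rg x _ hx (Or.inl rfl) m hm p hp t (by omega) (by omega)
      · exact hT.rg x _ hx (Or.inr (Or.inl rfl)) m hm p hp t (by omega) (by omega)
      · exact hT.rg x _ hx (Or.inr (Or.inr rfl)) m hm p hp t (by omega) (by omega)
    have a1 := key _ (Or.inl rfl) m0 (Or.inr hm0)
    have a2 := key _ (Or.inr (Or.inr rfl)) mc (Or.inr hmc)
    have a3 := key _ (Or.inr (Or.inl rfl)) k1 (Or.inl hk1)
    have a4 := key _ (Or.inr (Or.inr rfl)) kc (Or.inl hkc)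
    rw [hm0, dot_neg', dot_neg'] at a1
    rw [hmc, dot_neg', dot_neg'] at a2
    rw [hk1] at a3
    rw [hkc] at a4
    exact ⟨by linarith, by linarith, a3, a4⟩
  obtain ⟨A, hA⟩ : ∃ A : List Pt, A = [F.pt t (F.e1 ((D.L 0).sd m0)), F.pt t (D.L 0).a,
    F.pt t (F.e1 (D.μ i)), F.pt t (F.e2 (D.μ i)), F.pt t (D.L i.succ).a,
    F.pt t (F.e1 ((D.L i.succ).sd k1))] := ⟨_, rfl⟩
  obtain ⟨B, hB⟩ : ∃ B : List Pt, B = [F.pt t (F.e1 ((D.L i'.succ).sd mc)),
    F.pt t (D.L i'.succ).a, F.pt t (F.e1 ((D.L i'.succ).sd kc))] := ⟨_, rfl⟩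
  have hAB : ∀ z ∈ A ++ B, dot (F.pt t (F.e2 ((D.L 0).sd m0))) g < dot z g ∧
      dot (F.pt t (F.e2 ((D.L i'.succ).sd mc))) g < dot z g ∧
      dot z g < dot (F.pt t (F.e2 ((D.L i.succ).sd k1))) g ∧
      dot z g < dot (F.pt t (F.e2 ((D.L i'.succ).sd kc))) g := by
    intro z hz
    rw [hA, hB] at hz
    simp only [List.cons_append, List.nil_append, List.mem_cons, List.not_mem_nil,
      or_false] at hz
    rcases hz with rfl | rfl | rfl | rfl | rfl | rfl | rfl | rfl | rfl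
    · exact rgl _ (Or.inl ((D.L 0).lev_IN_sd (by omega) m0))
    · exact rgl _ (Or.inl (D.L 0).IN_self)
    · exact rgl _ (Or.inl hlk.p1)
    · exact rgl _ (Or.inr (Or.inl hlk.q1))
    · exact rgl _ (Or.inr (Or.inl (D.L i.succ).IN_self))
    · exact rgl _ (Or.inr (Or.inl ((D.L i.succ).lev_IN_sd (by omega) k1)))
    · exact rgl _ (Or.inr (Or.inr ((D.L i'.succ).lev_IN_sd (by omega) mc)))
    · exact rgl _ (Or.inr (Or.inr (D.L i'.succ).IN_self))
    · exact rgl _ (Or.inr (Or.inr ((D.L i'.succ).lev_IN_sd (by omega) kc)))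
  obtain ⟨xw, hw1, hw2⟩ := gam_lo (max (dot (F.pt t (F.e2 ((D.L 0).sd m0))) g)
    (dot (F.pt t (F.e2 ((D.L i'.succ).sd mc))) g)) ((A ++ B).map fun z => dot z g) (by
      intro y hy
      obtain ⟨z, hz, rfl⟩ := List.mem_map.1 hy
      exact max_lt (hAB z hz).1 (hAB z hz).2.1)
  obtain ⟨xe, he1, he2⟩ := gam_hi (min (dot (F.pt t (F.e2 ((D.L i.succ).sd k1))) g)
    (dot (F.pt t (F.e2 ((D.L i'.succ).sd kc))) g)) ((A ++ B).map fun z => dot z g) (by
      intro y hy
      obtain ⟨z, hz, rfl⟩ := List.mem_map.1 hy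
      exact lt_min (hAB z hz).2.2.1 (hAB z hz).2.2.2)
  rw [max_lt_iff] at hw1
  rw [lt_min_iff] at he1
  refine ordl hgg (xw := xw) (xe := xe) (A := A) (B := B) (by rw [hA]; rfl) (by rw [hA]; rfl)
    (by rw [hB]; rfl) (by rw [hB]; rfl) ?_ ?_ ?_ ?_ ?_
  · intro z hz
    have h2 : dot z g ∈ (A ++ B).map fun z => dot z g :=
      List.mem_map_of_mem (List.mem_append_left B hz)
    exact ⟨hw2 _ h2, he2 _ h2⟩
  · intro z hz
    have h2 : dot z g ∈ (A ++ B).map fun z => dot z g :=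
      List.mem_map_of_mem (List.mem_append_right A hz)
    exact ⟨hw2 _ h2, he2 _ h2⟩
  · intro s hs
    rw [hA] at hs
    simp only [segs, List.tail_cons, List.zip_cons_cons, List.zip_nil_right, List.mem_cons,
      List.not_mem_nil, or_false] at hs
    rcases hs with rfl | rfl | rfl | rfl | rfl
    · have h2 := F.nd t ht (D.Ar 0 m0)
      rw [D.Ar1, D.Ar2] at h2
      exact h2.symm
    · have h2 := F.nd t ht (D.Z i)
      rw [D.Z1, D.Z2] at h2
      exact h2
    · exact F.nd t ht (D.μ i)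
    · have h2 := F.nd t ht (D.Z' i)
      rw [D.Z4, D.Z5] at h2
      exact h2.symm
    · have h2 := F.nd t ht (D.Ar i.succ k1)
      rw [D.Ar1, D.Ar2] at h2
      exact h2
  · intro s hs
    rw [hB] at hs
    simp only [segs, List.tail_cons, List.zip_cons_cons, List.zip_nil_right, List.mem_cons,
      List.not_mem_nil, or_false] at hs
    rcases hs with rfl | rfl
    · have h2 := F.nd t ht (D.Ar i'.succ mc)
      rw [D.Ar1, D.Ar2] at h2
      exact h2.symm
    · have h2 := F.nd t ht (D.Ar i'.succ kc)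
      rw [D.Ar1, D.Ar2] at h2
      exact h2
  · intro z hzA hzB
    -- the segments of `B`
    have cB : z ∈ segment ℝ (F.pt t (F.e1 ((D.L i'.succ).sd mc)))
          (F.pt t (F.e2 ((D.L i'.succ).sd mc))) ∨
        (∃ k, z ∈ segment ℝ (F.pt t (F.e1 (D.Ar i'.succ k))) (F.pt t (F.e2 (D.Ar i'.succ k)))) ∨
        z ∈ segment ℝ (F.pt t (F.e1 ((D.L i'.succ).sd kc)))
          (F.pt t (F.e2 ((D.L i'.succ).sd kc))) := by
      rw [hB] at hzB
      rcases hzB with ⟨a, ha, h2, h3, h4⟩ | ⟨s, hs, h2⟩ | ⟨a, ha, h2, h3, h4⟩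
      · simp only [List.head?_cons, Option.some.injEq] at ha
        subst ha
        left
        obtain ⟨l, hl, hle⟩ := (D.L i'.succ).s1 t ht mc
        rw [hmc] at hle
        exact lev_mem' hgg hl hle (by linarith [hw1.2]) h3 h4
      · simp only [segs, List.tail_cons, List.zip_cons_cons, List.zip_nil_right, List.mem_cons,
          List.not_mem_nil, or_false] at hs
        right; left
        rcases hs with rfl | rfl
        · refine ⟨mc, ?_⟩
          rw [D.Ar1, D.Ar2, segment_symm]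
          exact h2
        · refine ⟨kc, ?_⟩
          rw [D.Ar1, D.Ar2]
          exact h2
      · simp only [List.getLast?_cons_cons, List.getLast?_singleton, Option.some.injEq] at ha
        subst ha
        right; right
        obtain ⟨l, hl, hle⟩ := (D.L i'.succ).s1 t ht kc
        rw [hkc] at hle
        exact lev_mem hgg hl hle h2 (by linarith [he1.2]) h4
    have key : ∀ τ : S, (∀ k, F.ed (D.Ar i'.succ k) ≠ F.ed τ) → dot (F.dir t τ) g ≠ 0 →
        (∀ k, z ∈ segment ℝ (F.pt t (F.e1 τ)) (F.pt t (F.e2 τ)) →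
          z ∈ segment ℝ (F.pt t (F.e1 (D.Ar i'.succ k))) (F.pt t (F.e2 (D.Ar i'.succ k))) →
          False) →
        z ∈ segment ℝ (F.pt t (F.e1 τ)) (F.pt t (F.e2 τ)) → False := by
      intro τ g1 g2 g3 g4
      rcases cB with c2 | ⟨k, c2⟩ | c2
      · exact D.lev_st ht (Or.inr hmc) (g1 mc) g2 c2 g4
      · exact g3 k g4 c2
      · exact D.lev_st ht (Or.inl hkc) (g1 kc) g2 c2 g4
    have eA0 : ∀ k, F.ed (D.Ar i'.succ k) ≠ F.ed (D.Ar 0 m0) :=
      fun k h => n0c (D.eA _ _ _ _ h).1.symm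
    have eAw : ∀ k, F.ed (D.Ar i'.succ k) ≠ F.ed (D.Ar i.succ k1) :=
      fun k h => nwc (D.eA _ _ _ _ h).1.symm
    have sep0 := hT.sep hn (x := D.L 0) (y := D.L i'.succ) (Or.inl rfl) (Or.inr (Or.inr rfl))
      h0 h1
    have sepw := hT.sep hn (x := D.L i.succ) (y := D.L i'.succ) (Or.inr (Or.inl rfl))
      (Or.inr (Or.inr rfl)) h0 h1
    rw [hA] at hzA
    rcases hzA with ⟨a, ha, h2, h3, h4⟩ | ⟨s, hs, h2⟩ | ⟨a, ha, h2, h3, h4⟩
    · simp only [List.head?_cons, Option.some.injEq] at ha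
      subst ha
      obtain ⟨l, hl, hle⟩ := (D.L 0).s1 t ht m0
      rw [hm0] at hle
      refine key ((D.L 0).sd m0) (fun k => by rw [D.eS]; exact eA0 k)
        (D.lev_sdir hgg ht (Or.inr hm0)) (fun k c1 c2 => ?_)
        (lev_mem' hgg hl hle (by linarith [hw1.1]) h3 h4)
      exact D.lev_st ht (Or.inr hm0) (eA0 k).symm (D.lev_adir hn2 hPc hg ht) c1 c2
    · simp only [segs, List.tail_cons, List.zip_cons_cons, List.zip_nil_right, List.mem_cons,
        List.not_mem_nil, or_false] at hs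
      rcases hs with rfl | rfl | rfl | rfl | rfl
      · refine key (D.Ar 0 m0) eA0 (D.lev_adir hn2 hf hg ht) (fun k c1 c2 => ?_)
          (by rw [D.Ar1, D.Ar2, segment_symm]; exact h2)
        exact D.gam_end hn n0c hf (D.Ar1 0 m0) (by rw [D.Ar2]; exact D.Ar3 0 m0)
          (fun y m => D.eAW 0 m0 y m) (eA0 k).symm h0 h1 sep0 c1 c2
      · refine key (D.Z i) (fun k => by rw [D.eZ]; exact (D.eμA i _ k).symm)
          (Lb.end_ax hn2 hf (D.Z1 i) (fun m => by rw [D.eZ]; exact D.eμW i 0 m) ht hg)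
          (fun k c1 c2 => ?_) (by rw [D.Z1, D.Z2]; exact h2)
        exact D.gam_end hn n0c hf (D.Z1 i) (by rw [D.Z2]; exact D.Z3 i)
          (fun y m => by rw [D.eZ]; exact D.eμW i y m) (by rw [D.eZ]; exact D.eμA i _ k) h0 h1
          sep0 c1 c2
      · refine key (D.μ i) (fun k => (D.eμA i _ k).symm) hμ (fun k c1 c2 => ?_) h2
        have j1 : (D.L i'.succ).IN (F.e1 (D.Ar i'.succ k)) := by
          rw [D.Ar1]; exact (D.L i'.succ).IN_self
        have j2 : (D.L i'.succ).IN (F.e2 (D.Ar i'.succ k)) := by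
          rw [D.Ar2]; exact (D.L i'.succ).lev_IN_sd (by omega) k
        rcases hlk.frame hn with hsc | ⟨m1, m1', ho, -, -, -, -⟩
        · have i2 : (D.L 0).IN (F.e2 (D.μ i)) := hsc.symm.IN (by omega) hlk.q1
          rcases sep0 with hs | hs | hs
          · exact hns ⟨hsc, hs⟩
          · exact lev_sep (g := g) (hs _ _ hlk.p1 j1) (hs _ _ hlk.p1 j2) (hs _ _ i2 j1)
              (hs _ _ i2 j2) c1 c2
          · exact lev_sep (g := g) (hs _ _ hlk.p1 j1) (hs _ _ i2 j1) (hs _ _ hlk.p1 j2)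
              (hs _ _ i2 j2) c2 c1
        · refine F.disj_of_dot (D.eμA i i'.succ k) ?_ ht ?_ c1 c2
          · rintro p hp (h3 | h3)
            · exact absurd (h3 ▸ hp) (D.Z3 i)
            · exact absurd (h3 ▸ hp) (D.Z6 i)
          · obtain ⟨l, hl, hle⟩ := ho.dir t ht
            have h3 : F.dir t (D.μ i) = l • (D.L 0).d m1 := hle
            rw [h3, dot_smul, dot_comm]
            exact mul_ne_zero hl.ne' (D.lev_adir hn2 hPc (hf.mem m1) ht)
      · refine key (D.Z' i) (fun k => by rw [D.eZ']; exact (D.eμA i _ k).symm)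
          (Lb.end_ax hn2 hPw (D.Z4 i) (fun m => by rw [D.eZ']; exact D.eμW i _ m) ht hg)
          (fun k c1 c2 => ?_) (by rw [D.Z4, D.Z5, segment_symm]; exact h2)
        exact D.gam_end hn nwc hPw (D.Z4 i) (by rw [D.Z5]; exact D.Z6 i)
          (fun y m => by rw [D.eZ']; exact D.eμW i y m) (by rw [D.eZ']; exact D.eμA i _ k) h0 h1
          sepw c1 c2
      · refine key (D.Ar i.succ k1) eAw (D.lev_adir hn2 hPw hg ht) (fun k c1 c2 => ?_)
          (by rw [D.Ar1, D.Ar2]; exact h2)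
        exact D.gam_end hn nwc hPw (D.Ar1 _ k1) (by rw [D.Ar2]; exact D.Ar3 _ k1)
          (fun y m => D.eAW _ k1 y m) (eAw k).symm h0 h1 sepw c1 c2
    · simp only [List.getLast?_cons_cons, List.getLast?_singleton, Option.some.injEq] at ha
      subst ha
      obtain ⟨l, hl, hle⟩ := (D.L i.succ).s1 t ht k1
      rw [hk1] at hle
      refine key ((D.L i.succ).sd k1) (fun k => by rw [D.eS]; exact eAw k)
        (D.lev_sdir hgg ht (Or.inl hk1)) (fun k c1 c2 => ?_)
        (lev_mem hgg hl hle h2 (by linarith [he1.1]) h4)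
      exact D.lev_st ht (Or.inl hk1) (eAw k).symm (D.lev_adir hn2 hPc hg ht) c1 c2

end St2
end Pool.Agent.RAC

/-!
# Star clusters, two bends: the order (piece S2N)
-/

namespace Pool.Agent.RAC
namespace St2

variable {n : ℕ} {P S E : Type} {F : Fam n P S E} (D : St2 F)

theorem s2n_rg (hn : 8 ≤ n) (c : Lb F) {p : P} (hp : c.IN p) {t : ℕ} (h0 : 0 < t)
    (h1 : t + 1 < n) (m : Fin 4) :
    dot (F.pt t p) (c.d m) < dot (F.pt t (F.e2 (c.w m))) (c.d m) := by
  by_cases hm : m = 0 ∨ m = 2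
  · have hp' : prec m t (t + 1) := by
      unfold prec
      rw [if_pos hm]
      omega
    exact (c.IN_lt (by omega) hp m (by omega) h1 hp').trans
      (c.W.long t (t + 1) (by omega) h1 m)
  · have hp' : prec m t (t - 1) := by
      unfold prec
      rw [if_neg hm]
      omega
    exact (c.IN_lt (by omega) hp m (by omega) (by omega) hp').trans
      (c.W.long t (t - 1) (by omega) (by omega) m)

theorem s2n_trans {a b c : ℝ} (h : 0 < a * b) (h' : 0 < b * c) : 0 < a * c := by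
  have hb : b ≠ 0 := by
    rintro rfl
    simp at h
  have h1 : 0 < (a * c) * b ^ 2 := by
    have := mul_pos h h'
    nlinarith
  exact pos_of_mul_pos_left h1 (sq_nonneg b)

/-- the points of `0` and of `i + 1` are on the same side of the point of `i' + 1` -/
theorem s2n_side (hn : 8 ≤ n) {f g : Pt} (hf : (D.L 0).Plus f) (hg : ax f g) {i i' : Fin 3}
    (hii : i ≠ i') (hs : (D.L 0).SC (D.L i.succ)) (hs' : (D.L 0).SC (D.L i'.succ)) {t : ℕ}
    (h0 : 1 < t) (h1 : t + 2 < n) (hμ : dot (F.dir t (D.μ i)) g ≠ 0) :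
    0 < (dot (F.pt t (D.L 0).a) (J g) - dot (F.pt t (D.L i'.succ).a) (J g)) *
      (dot (F.pt t (D.L i.succ).a) (J g) - dot (F.pt t (D.L i'.succ).a) (J g)) := by
  have hc : (D.L i'.succ).Plus g := (hs'.plus hf).of_ax hg
  have hs1 : (D.L i.succ).SC (D.L i'.succ) := Lb.SC.trans (by omega) hs.symm hs'
  have ht0 : 0 < t := by omega
  have ht1 : t + 1 < n := by omega
  -- the four points
  have i0 : (D.L i'.succ).IN (D.L 0).a := Lb.SC.IN (by omega) hs' (D.L 0).IN_self
  have i1 : (D.L i'.succ).IN (D.L i.succ).a := Lb.SC.IN (by omega) hs1 (D.L i.succ).IN_self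
  have eZ : ∀ x m, F.ed (D.Z i) ≠ F.ed ((D.L x).w m) := by
    intro x m
    rw [D.eZ i]
    exact D.eμW i x m
  have eZ' : ∀ x m, F.ed (D.Z' i) ≠ F.ed ((D.L x).w m) := by
    intro x m
    rw [D.eZ' i]
    exact D.eμW i x m
  have i2 : (D.L i'.succ).IN (F.e1 (D.μ i)) := by
    rw [← D.Z2 i]
    exact Lb.SC.IN (by omega) hs' ((D.L 0).end_conf (D.Z1 i) (eZ 0))
  have i3 : (D.L i'.succ).IN (F.e2 (D.μ i)) := by
    rw [← D.Z5 i]
    exact Lb.SC.IN (by omega) hs1 ((D.L i.succ).end_conf (D.Z4 i) (eZ' i.succ))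
  have n0 : (D.L 0).a ≠ (D.L i'.succ).a := by
    intro h
    exact absurd (D.ainj _ _ h).symm (Fin.succ_ne_zero i')
  have n1 : (D.L i.succ).a ≠ (D.L i'.succ).a := by
    intro h
    exact hii (Fin.succ_injective _ (D.ainj _ _ h))
  have n2 : F.e1 (D.μ i) ≠ (D.L i'.succ).a := by
    intro h
    exact D.Z3 i (by rw [h]; exact (D.L i'.succ).va)
  have n3 : F.e2 (D.μ i) ≠ (D.L i'.succ).a := by
    intro h
    exact D.Z6 i (by rw [h]; exact (D.L i'.succ).va)
  have k1 := Lb.side (c := D.L i'.succ) (by omega) hc (σ := D.Z i) (eZ _)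
    (by rw [D.Z1]; exact n0) (by rw [D.Z2]; exact n2) (t := t) (by omega)
    (fun m _ => by rw [D.Z1]; exact s2n_rg hn _ i0 ht0 ht1 m)
    (fun m _ => by rw [D.Z2]; exact s2n_rg hn _ i2 ht0 ht1 m)
    (Lb.end_ax (by omega) hf (D.Z1 i) (eZ 0) (by omega) hg)
  have k2 := Lb.side (c := D.L i'.succ) (by omega) hc (σ := D.μ i) (D.eμW i _)
    n2 n3 (t := t) (by omega) (fun m _ => s2n_rg hn _ i2 ht0 ht1 m)
    (fun m _ => s2n_rg hn _ i3 ht0 ht1 m) hμ
  have k3 := Lb.side (c := D.L i'.succ) (by omega) hc (σ := D.Z' i) (eZ' _)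
    (by rw [D.Z4]; exact n1) (by rw [D.Z5]; exact n3) (t := t) (by omega)
    (fun m _ => by rw [D.Z4]; exact s2n_rg hn _ i1 ht0 ht1 m)
    (fun m _ => by rw [D.Z5]; exact s2n_rg hn _ i3 ht0 ht1 m)
    (Lb.end_ax (by omega) (hs.plus hf) (D.Z4 i) (eZ' i.succ) (by omega) hg)
  rw [D.Z1, D.Z2] at k1
  rw [D.Z4, D.Z5, mul_comm] at k3
  exact s2n_trans (s2n_trans k1 k2) k3

/-- real numbers with the same position with respect to a third one -/
theorem s2n_pos {a b c : ℝ} (h : a < c ↔ b < c) (ha : a ≠ c) (hb : b ≠ c) :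
    0 < (a - c) * (b - c) := by
  by_cases h1 : a < c
  · have h2 := h.1 h1
    exact mul_pos_of_neg_of_neg (by linarith) (by linarith)
  · have h2 : ¬ b < c := fun h3 => h1 (h.2 h3)
    have h3 : c < a := lt_of_le_of_ne (not_lt.1 h1) (Ne.symm ha)
    have h4 : c < b := lt_of_le_of_ne (not_lt.1 h2) (Ne.symm hb)
    exact mul_pos (by linarith) (by linarith)

theorem s2n_iff {a b c : ℝ} (h : 0 < (a - c) * (b - c)) : a < c ↔ b < c := by
  constructor
  · intro h1
    by_contra h2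
    push Not at h2
    nlinarith
  · intro h1
    by_contra h2
    push Not at h2
    nlinarith

/-- S2N. The third label `c = i' + 1` does not separate the levels of `0` and `i + 1`.

Proof. If all three labels have the same cells: `side` (for the walls of `L c`; ranges by
`IN_lt`, `long`, all points being confined in `L c`) along `Z i`, `μ i`, `Z' i` (not perpendicular
to `g`: `end_ax`, `hμ`): the points of the labels `0` and `i + 1` are on the same side of the point of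
`c` in the direction `J g`; `lev_iff` for `0, c` and for `i + 1, c`. Otherwise `gam` and `piw` for `i + 1`, `c`
(`Tri.sep`, `Tri.rg`): `lev 0 < lev c ↔ lev' (i+1) < lev' c ↔ lev (i+1) < lev c`. The levels are different by the second
parts of `lev_iff`, `gam`, `piw`. -/
theorem nsep (hn : 8 ≤ n) {f g : Pt} (hf : (D.L 0).Plus f) (hg : ax f g) {i i' : Fin 3}
    (hii : i ≠ i') (hT : Lb.Tri g (D.L 0) (D.L i.succ) (D.L i'.succ)) {t : ℕ} (h0 : 1 < t)
    (h1 : t + 2 < n) (hμ : dot (F.dir t (D.μ i)) g ≠ 0) {m0 m1 mc : Fin 4}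
    (hm0 : (D.L 0).d m0 = -g) (hm1 : (D.L i.succ).d m1 = -g) (hmc : (D.L i'.succ).d mc = -g) :
    0 < (D.lev g 0 m0 t - D.lev g i'.succ mc t) *
      (D.lev g i.succ m1 t - D.lev g i'.succ mc t) := by
  have x0 : D.L 0 = D.L 0 ∨ D.L 0 = D.L i.succ ∨ D.L 0 = D.L i'.succ := Or.inl rfl
  have x1 : D.L i.succ = D.L 0 ∨ D.L i.succ = D.L i.succ ∨ D.L i.succ = D.L i'.succ :=
    Or.inr (Or.inl rfl)
  have xc : D.L i'.succ = D.L 0 ∨ D.L i'.succ = D.L i.succ ∨ D.L i'.succ = D.L i'.succ :=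
    Or.inr (Or.inr rfl)
  have n0 : (0 : Fin 4) ≠ i'.succ := (Fin.succ_ne_zero i').symm
  have n1 : i.succ ≠ i'.succ := fun h => hii (Fin.succ_injective _ h)
  by_cases hs : (D.L 0).SC (D.L i.succ) ∧ (D.L 0).SC (D.L i'.succ)
  · obtain ⟨hs1, hs2⟩ := hs
    have hs3 : (D.L i.succ).SC (D.L i'.succ) := Lb.SC.trans (by omega) hs1.symm hs2
    obtain ⟨a1, a2⟩ := D.lev_iff hn hf hg n0 hs2 hm0 hmc (hT.rg _ _ x0 xc) (hT.rg _ _ xc x0)
      (hT.rg _ _ x0 x0) (hT.rg _ _ xc xc) h0 h1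
    obtain ⟨b1, b2⟩ := D.lev_iff hn hf hg n1 hs3 hm1 hmc (hT.rg _ _ x1 xc) (hT.rg _ _ xc x1)
      (hT.rg _ _ x1 x1) (hT.rg _ _ xc xc) h0 h1
    have k := s2n_iff (D.s2n_side hn hf hg hii hs1 hs2 h0 h1 hμ)
    exact s2n_pos (a1.trans (k.trans b1.symm)) a2 b2
  · obtain ⟨k1, hk1⟩ := hT.pw.exists_m (by omega) (v := g) (Or.inl rfl)
    obtain ⟨kc, hkc⟩ := hT.pc.exists_m (by omega) (v := g) (Or.inl rfl)
    obtain ⟨a1, a2⟩ := D.gam hn hf hg hii hT hs h0 h1 hμ hm0 hk1 hmc hkc
    obtain ⟨b1, b2⟩ := D.piw hn hf hg n1 hm1 hmc hk1 hkc h0 h1 (hT.rg _ _ x1 xc)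
      (hT.rg _ _ xc x1) (hT.rg _ _ x1 x1) (hT.rg _ _ xc xc) (hT.sep hn x1 xc h0 h1)
    exact s2n_pos (a1.trans b1.symm) a2 b2

/-- S2N. The order. Proof: `nsep` for `i, i'` and for `i', i` (`Tri.swap`); `tri` with `link`. -/
theorem order (hn : 8 ≤ n) {f g : Pt} (hf : (D.L 0).Plus f) (hg : ax f g) {i i' : Fin 3}
    (hii : i ≠ i') {t : ℕ} (h0 : 1 < t) (h1 : t + 2 < n) (hμ : dot (F.dir t (D.μ i)) g ≠ 0)
    (hμ' : dot (F.dir t (D.μ i')) g ≠ 0) {m0 m1 m2 : Fin 4} (hm0 : (D.L 0).d m0 = -g)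
    (hm1 : (D.L i.succ).d m1 = -g) (hm2 : (D.L i'.succ).d m2 = -g) :
    (D.lev g i.succ m1 t - D.lev g 0 m0 t) * (D.lev g i'.succ m2 t - D.lev g 0 m0 t) < 0 := by
  have hT := Lb.tri hn (D.link hn i) (D.link hn i') hf hg ⟨t, by omega, hμ⟩ ⟨t, by omega, hμ'⟩
  have k1 := D.nsep hn hf hg hii hT h0 h1 hμ hm0 hm1 hm2
  have k2 := D.nsep hn hf hg (Ne.symm hii) (hT.swap (by omega)) h0 h1 hμ' hm0 hm2 hm1
  set a := D.lev g 0 m0 t
  set b := D.lev g i.succ m1 t
  set c := D.lev g i'.succ m2 t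
  rcases lt_trichotomy b c with h | h | h
  · have h2 : a < c := (s2n_iff k1).2 h
    have h3 : b < a := by
      by_contra hcon
      push Not at hcon
      nlinarith
    exact mul_neg_of_neg_of_pos (by linarith) (by linarith)
  · rw [h] at k1
    simp at k1
  · have h2 : a < b := (s2n_iff k2).2 h
    have h3 : c < a := by
      by_contra hcon
      push Not at hcon
      nlinarith
    exact mul_neg_of_pos_of_neg (by linarith) (by linarith)

end St2
end Pool.Agent.RAC
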