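import Pool.Agent.Lib_MP_fb7530_co.Ramsey

/-!
# The theorem of Ramsey for pairs (piece RAM)
-/

namespace Pool.Agent.RAC

/-- RAM. For every finite type of colours and every `n` there is `N` such that for every colouring
of the pairs of numbers there are `n` numbers below `N` all whose (increasing) pairs
have the same colour. -/
theorem ramsey' (κ : Type) [Finite κ] (n : ℕ) : ∃ N : ℕ, ∀ col : ℕ → ℕ → κ, ∃ g : ℕ → ℕ,
    (∀ i j, i < j → j < n → g i < g j) ∧ (∀ i, i < n → g i < N) ∧
    ∀ i j i' j', i < j → j < n → i' < j' → j' < n → col (g i) (g j) = col (g i') (g j') := by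
  obtain ⟨N, hN⟩ := FB7530.ramsey_pairs κ n
  refine ⟨N, fun col => ?_⟩
  obtain ⟨s, t, hs, ht⟩ := hN (fun a b => col a b)
  refine ⟨fun i => if h : i < n then (s ⟨i, h⟩ : ℕ) else 0, ?_, ?_, ?_⟩
  · intro i j hij hj
    simp only [dif_pos hj, dif_pos (hij.trans hj)]
    exact hs (by simpa using hij)
  · intro i hi
    simp only [dif_pos hi]
    exact (s ⟨i, hi⟩).2
  · intro i j i' j' hij hj hij' hj'
    simp only [dif_pos hj, dif_pos (hij.trans hj), dif_pos hj', dif_pos (hij'.trans hj')]
    rw [ht _ _ (by simpa using hij), ht _ _ (by simpa using hij')]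

end Pool.Agent.RAC
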