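import Pool.Agent.Lib_MP_638f75_lc.GDefs
import Pool.Agent.Lib_MP_638f75_lc.Draw
import Pool.Agent.Lib_MP_638f75_lc.H.Ramsey

/-!
# Families of clusters before homogenisation, drawings in normal form, the points of a star
-/

namespace Pool.Agent.RAC

/-- a family of `N` clusters (as `Fam`, without homogeneity) -/
structure PreFam (N : ℕ) (P S E : Type) where
  pt : ℕ → P → Pt
  e1 : S → P
  e2 : S → P
  ed : S → E
  ver : P → Prop
  hub : P → Prop
  hub_ver : ∀ p, hub p → ver p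
  hubc : ∀ p, hub p → ∀ t u, pt t p = pt u p
  nd : ∀ t, t < N → ∀ σ, pt t (e1 σ) ≠ pt t (e2 σ)
  avoid : ∀ t, t < N → ∀ σ p, ver p → pt t p ∈ segment ℝ (pt t (e1 σ)) (pt t (e2 σ)) →
    p = e1 σ ∨ p = e2 σ
  same : ∀ t, t < N → ∀ σ τ, ed σ ≠ ed τ → ∀ z,
    z ∈ segment ℝ (pt t (e1 σ)) (pt t (e2 σ)) → z ∈ segment ℝ (pt t (e1 τ)) (pt t (e2 τ)) →
    (∃ p, ver p ∧ (p = e1 σ ∨ p = e2 σ) ∧ (p = e1 τ ∨ p = e2 τ) ∧ z = pt t p) ∨
    (z ∈ openSegment ℝ (pt t (e1 σ)) (pt t (e2 σ)) ∧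
      z ∈ openSegment ℝ (pt t (e1 τ)) (pt t (e2 τ)) ∧
      dot (pt t (e2 σ) - pt t (e1 σ)) (pt t (e2 τ) - pt t (e1 τ)) = 0)
  diff : ∀ t u, t < N → u < N → t ≠ u → ∀ σ τ z,
    z ∈ segment ℝ (pt t (e1 σ)) (pt t (e2 σ)) → z ∈ segment ℝ (pt u (e1 τ)) (pt u (e2 τ)) →
    (∃ p, hub p ∧ (p = e1 σ ∨ p = e2 σ) ∧ (p = e1 τ ∨ p = e2 τ) ∧ z = pt t p) ∨
    (z ∈ openSegment ℝ (pt t (e1 σ)) (pt t (e2 σ)) ∧
      z ∈ openSegment ℝ (pt u (e1 τ)) (pt u (e2 τ)) ∧
      dot (pt t (e2 σ) - pt t (e1 σ)) (pt u (e2 τ) - pt u (e1 τ)) = 0)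

/-- a drawing in which all chains have exactly `k` inner points -/
structure NDraw (k : ℕ) {V : Type*} (G : SimpleGraph V) (pos : V → Pt)
    (ch : V → V → List Pt) : Prop extends WeakDraw k G pos ch where
  lenk : ∀ u v, G.Adj u v → (ch u v).length = k + 2

/-- `y` is a star of `Γ`: the vertex `y 0` and three different neighbours `y 1, y 2, y 3` -/
def IsStar {V : Type*} (Γ : Gam V) (y : Fin 4 → V) : Prop :=
  Function.Injective y ∧ ∀ i : Fin 3, Γ.Nb (y 0) (y i.succ)

/-! ## Two bends -/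

/-- the points of a star cluster: hubs, vertices, first and second bends of the legs, bends of the edges
between the center and the leaves -/
inductive PP2
  | hub (h : Fin 8)
  | v (x : Fin 4)
  | a (x : Fin 4) (h : Fin 8)
  | b (x : Fin 4) (h : Fin 8)
  | z (i : Fin 3)
  | z' (i : Fin 3)
  deriving DecidableEq, Fintype

/-- the segments of a star cluster -/
inductive SS2
  | A (x : Fin 4) (h : Fin 8)
  | M (x : Fin 4) (h : Fin 8)
  | B (x : Fin 4) (h : Fin 8)
  | Z (i : Fin 3)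
  | mu (i : Fin 3)
  | Z' (i : Fin 3)
  deriving DecidableEq, Fintype

/-- the edges of a star cluster -/
inductive EE2
  | leg (x : Fin 4) (h : Fin 8)
  | ln (i : Fin 3)
  deriving DecidableEq, Fintype

def SS2.e1 : SS2 → PP2
  | .A x _ => .v x
  | .M x h => .a x h
  | .B x h => .b x h
  | .Z _ => .v 0
  | .mu i => .z i
  | .Z' i => .v i.succ

def SS2.e2 : SS2 → PP2
  | .A x h => .a x h
  | .M x h => .b x h
  | .B _ h => .hub h
  | .Z i => .z i
  | .mu i => .z' i
  | .Z' i => .z' i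

def SS2.ed : SS2 → EE2
  | .A x h => .leg x h
  | .M x h => .leg x h
  | .B x h => .leg x h
  | .Z i => .ln i
  | .mu i => .ln i
  | .Z' i => .ln i

def PP2.ver : PP2 → Prop
  | .hub _ => True
  | .v _ => True
  | _ => False

def PP2.isHub : PP2 → Prop
  | .hub _ => True
  | _ => False

/-- the points of the star `y` in a drawing of the graph for two bends -/
def pts2 {V : Type*} (pos : V2 V → Pt) (ch : V2 V → V2 V → List Pt) (y : Fin 4 → V) : PP2 → Pt
  | .hub h => pos (.inl h)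
  | .v x => pos (.inr (y x))
  | .a x h => (ch (.inr (y x)) (.inl h)).getD 1 0
  | .b x h => (ch (.inr (y x)) (.inl h)).getD 2 0
  | .z i => (ch (.inr (y 0)) (.inr (y i.succ))).getD 1 0
  | .z' i => (ch (.inr (y 0)) (.inr (y i.succ))).getD 2 0

/-- the leg `h` of the vertex `x` has an arm which is not parallel to the axes, and its middle segment
has the direction `- g` -/
def Ws (f g : Pt) (p : PP2 → Pt) (x : Fin 4) (h : Fin 8) : Prop :=
  dot (p (.a x h) - p (.v x)) f ≠ 0 ∧ dot (p (.a x h) - p (.v x)) (J f) ≠ 0 ∧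
    ∃ l : ℝ, 0 < l ∧ p (.b x h) - p (.a x h) = l • (-g)

/-- the conclusion of the analysis of a star (two bends) -/
def Good2 (p : PP2 → Pt) : Prop :=
  ∃ f : Pt, dot f f = 1 ∧ 0 < f.1 ∧ 0 ≤ f.2 ∧
    (∀ x h, dot (p (.b x h) - p (.a x h)) f = 0 ∨ dot (p (.b x h) - p (.a x h)) (J f) = 0) ∧
    ∀ g, (g = f ∨ g = J f) →
      (∀ x, ∃ h, Ws f g p x h) ∧ (∀ x h h', Ws f g p x h → Ws f g p x h' → h = h') ∧
      ∀ i i' : Fin 3, i ≠ i' → dot (p (.z' i) - p (.z i)) g ≠ 0 →
        dot (p (.z' i') - p (.z i')) g ≠ 0 →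
        ∀ h0 h h', Ws f g p 0 h0 → Ws f g p i.succ h → Ws f g p i'.succ h' →
          (dot (p (.a i.succ h)) (J g) - dot (p (.a 0 h0)) (J g)) *
            (dot (p (.a i'.succ h')) (J g) - dot (p (.a 0 h0)) (J g)) < 0

/-! ## One bend -/

/-- the points of a star cluster (one bend): hubs, vertices, bends of the legs, bends of the direct
edges, vertices of the arcs, their bends towards the tail and the head -/
inductive PP1
  | hub (h : Fin 4)
  | v (x : Fin 4) (b : Bool)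
  | a (x : Fin 4) (b : Bool) (h : Fin 4)
  | z (x : Fin 4)
  | f (i : Fin 3)
  | t (i : Fin 3) (b : Bool)
  | r (i : Fin 3)
  deriving DecidableEq, Fintype

/-- the segments of a star cluster (one bend) -/
inductive SS1
  | A (x : Fin 4) (b : Bool) (h : Fin 4)
  | B (x : Fin 4) (b : Bool) (h : Fin 4)
  | Z (x : Fin 4) (b : Bool)
  | T (i : Fin 3) (b : Bool)
  | T' (i : Fin 3) (b : Bool)
  | R (i : Fin 3)
  | R' (i : Fin 3)
  deriving DecidableEq, Fintype

/-- the edges of a star cluster (one bend) -/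
inductive EE1
  | leg (x : Fin 4) (b : Bool) (h : Fin 4)
  | dir (x : Fin 4)
  | tb (i : Fin 3) (b : Bool)
  | hd (i : Fin 3)
  deriving DecidableEq, Fintype

/-- the tail of the arc between the center and the leaf `i + 1`; `o i`: the arc starts at the center -/
def tl (o : Fin 3 → Bool) (i : Fin 3) : Fin 4 := if o i then 0 else i.succ

/-- the head -/
def hd (o : Fin 3 → Bool) (i : Fin 3) : Fin 4 := if o i then i.succ else 0

def SS1.e1 (o po : Fin 3 → Bool) : SS1 → PP1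
  | .A x b _ => .v x b
  | .B x b h => .a x b h
  | .Z x b => .v x b
  | .T i b => .v (RAC.tl o i) b
  | .T' i _ => .f i
  | .R i => .f i
  | .R' i => .v (RAC.hd o i) (po i)

def SS1.e2 : SS1 → PP1
  | .A x b h => .a x b h
  | .B _ _ h => .hub h
  | .Z x _ => .z x
  | .T i b => .t i b
  | .T' i b => .t i b
  | .R i => .r i
  | .R' i => .r i

def SS1.ed : SS1 → EE1
  | .A x b h => .leg x b h
  | .B x b h => .leg x b h
  | .Z x _ => .dir x
  | .T i b => .tb i b
  | .T' i b => .tb i b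
  | .R i => .hd i
  | .R' i => .hd i

def PP1.ver : PP1 → Prop
  | .hub _ => True
  | .v _ _ => True
  | .f _ => True
  | _ => False

def PP1.isHub : PP1 → Prop
  | .hub _ => True
  | _ => False

/-- the orientations and ports of the arcs of a star -/
def OrOK {V : Type*} (Γ : Gam V) (y : Fin 4 → V) (o po : Fin 3 → Bool) : Prop :=
  ∀ i, Γ.ed (y (tl o i)) (y (hd o i)) ∧ Γ.pt (y (tl o i)) (y (hd o i)) = po i

open Classical in
/-- the vertex of the arc between `u` and `w` -/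
noncomputable def arcV {V : Type*} (Γ : Gam V) (u w : V) : V1 Γ :=
  if h : Γ.ed u w then .inr (.inr ⟨(u, w), h⟩)
  else if h' : Γ.ed w u then .inr (.inr ⟨(w, u), h'⟩) else .inl 0

/-- the points of the star `y` in a drawing of the graph for one bend -/
noncomputable def pts1 {V : Type*} (Γ : Gam V) (pos : V1 Γ → Pt) (ch : V1 Γ → V1 Γ → List Pt)
    (y : Fin 4 → V) (o po : Fin 3 → Bool) : PP1 → Pt
  | .hub h => pos (.inl h)
  | .v x b => pos (.inr (.inl (y x, b)))
  | .a x b h => (ch (.inr (.inl (y x, b))) (.inl h)).getD 1 0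
  | .z x => (ch (.inr (.inl (y x, false))) (.inr (.inl (y x, true)))).getD 1 0
  | .f i => pos (arcV Γ (y 0) (y i.succ))
  | .t i b => (ch (arcV Γ (y 0) (y i.succ)) (.inr (.inl (y (tl o i), b)))).getD 1 0
  | .r i => (ch (arcV Γ (y 0) (y i.succ)) (.inr (.inl (y (hd o i), po i)))).getD 1 0

/-- the conclusion of the analysis of a star (one bend) -/
def Good1 (p : PP1 → Pt) : Prop :=
  ∃ f : Pt, dot f f = 1 ∧ 0 < f.1 ∧ 0 ≤ f.2 ∧
    (∀ x h, dot (p (.a x false h) - p (.v x false)) f = 0 ∨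
      dot (p (.a x false h) - p (.v x false)) (J f) = 0) ∧
    ∀ g, (g = f ∨ g = J f) → ∀ i i' : Fin 3, i ≠ i' → dot (p (.r i) - p (.f i)) g ≠ 0 →
      dot (p (.r i') - p (.f i')) g ≠ 0 →
      (dot (p (.v i.succ false)) (J g) - dot (p (.v 0 false)) (J g)) *
        (dot (p (.v i'.succ false)) (J g) - dot (p (.v 0 false)) (J g)) < 0

end Pool.Agent.RAC
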