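import Pool.Agent.Lib_MP_638f75_lc.H.HC
import Pool.Agent.Lib_MP_638f75_lc.H.HI
import Pool.Agent.Lib_MP_638f75_lc.H.PreDefs

/-!
# Homogeneous families of stars, one bend (piece CST1)
-/

namespace Pool.Agent.RAC

/-- CST1. The structured star of a homogeneous family of stars.

Proof. For every `x`, `b` `F.Legs1 (v x b) (A x b) (B x b)`; `lb1` gives the labels `L x b` of `F.shift` and
`Dm x b`. `Z x b`, `fv i = f i`, `tl o`, `hd o`, `po`, `T i b`, `T' i b`, `R i`, `R' i`. All
combinatorial fields by computation (`he1`, …). -/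
theorem cst1 {n : ℕ} (hn : 10 ≤ n) (F : Fam n PP1 SS1 EE1) {o po : Fin 3 → Bool}
    (he1 : F.e1 = SS1.e1 o po) (he2 : F.e2 = SS1.e2) (hed : F.ed = SS1.ed)
    (hver : F.ver = PP1.ver) (hhub : F.hub = PP1.isHub) :
    ∃ (D : St1 (F.shift (by omega))) (Dm : Fin 4 → Bool → Fin 4 → Fin 4),
      (∀ x b, Function.Bijective (Dm x b)) ∧ (∀ x b, (D.L x b).a = .v x b) ∧
      (∀ x b m, (D.L x b).w m = .A x b (Dm x b m)) ∧ (∀ i, D.R i = .R i) := by
  have hLg : ∀ (x : Fin 4) (b : Bool), F.Legs1 (.v x b) (SS1.A x b) (SS1.B x b) := by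
    intro x b
    refine ⟨?_, ?_, ?_, ?_, ?_, ?_, ?_, ?_⟩
    · rw [hhub]; exact id
    · rw [hver]; trivial
    · intro i; rw [he1]; rfl
    · intro i; rw [he2, hver]; exact id
    · intro i; rw [he1, he2]; rfl
    · intro i; rw [he2, hhub]; trivial
    · intro i j h
      rw [he2] at h
      exact PP1.hub.inj h
    · intro i j h
      rw [hed] at h
      exact (EE1.leg.inj h).2.2
  choose L Dm hD hLa hLw hLs _hLb using fun x b => F.lb1 (by omega) (hLg x b)
  refine ⟨{ L := L, Z := .Z, fv := .f, tl := RAC.tl o, hd := RAC.hd o, po := po, T := .T, T' := .T',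
            R := .R, R' := .R', sdw := ?_, ends := ?_, ainj := ?_, Z1 := ?_, Z2 := ?_, Z3 := ?_,
            fver := ?_, fhub := ?_, fne := ?_, T1 := ?_, T2 := ?_, T3 := ?_, T4 := ?_,
            R1 := ?_, R2 := ?_, R3 := ?_, R4 := ?_, eA := ?_, eZ := ?_, eT := ?_, eT' := ?_,
            eR := ?_, eR' := ?_, eTT := ?_ }, Dm, hD, hLa, hLw, fun _ => rfl⟩
  · intro x b m
    rw [hLs, hLw]
  · intro i
    unfold RAC.tl RAC.hd
    cases o i
    · right; exact ⟨rfl, rfl⟩
    · left; exact ⟨rfl, rfl⟩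
  · intro x b x' b' h
    rw [hLa, hLa] at h
    exact PP1.v.inj h
  · intro x b
    show F.e1 _ = _
    rw [hLa, he1]; rfl
  · intro x
    show F.e2 _ = F.e2 _
    rw [he2]; rfl
  · intro x b
    show ¬ F.ver (F.e2 _)
    rw [he2, hver]; exact id
  · intro i
    show F.ver _
    rw [hver]; trivial
  · intro i
    show ¬ F.hub _
    rw [hhub]; exact id
  · intro i x b h
    rw [hLa] at h
    cases h
  · intro i b
    show F.e1 _ = _
    rw [hLa, he1]; rfl
  · intro i b
    show F.e2 _ = F.e2 _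
    rw [he2]; rfl
  · intro i b
    show ¬ F.ver (F.e2 _)
    rw [he2, hver]; exact id
  · intro i b
    show F.e1 _ = _
    rw [he1]; rfl
  · intro i
    show F.e1 _ = _
    rw [he1]; rfl
  · intro i
    show F.e2 _ = F.e2 _
    rw [he2]; rfl
  · intro i
    show ¬ F.ver (F.e2 _)
    rw [he2, hver]; exact id
  · intro i
    show F.e1 _ = _
    rw [hLa, he1]; rfl
  · intro x b m x' b' m' h
    have h1 : F.ed ((L x b).w m) = F.ed ((L x' b').w m') := h
    rw [hLw, hLw, hed] at h1
    obtain ⟨h2, h3, h4⟩ := EE1.leg.inj h1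
    subst h2
    subst h3
    exact ⟨rfl, rfl, (hD x b).1 h4⟩
  · intro x b m x' b' h
    have h1 : F.ed (.Z x' b') = F.ed ((L x b).w m) := h
    rw [hLw, hed] at h1
    cases h1
  · intro x b m i b' h
    have h1 : F.ed (.T i b') = F.ed ((L x b).w m) := h
    rw [hLw, hed] at h1
    cases h1
  · intro x b m i b' h
    have h1 : F.ed (.T' i b') = F.ed ((L x b).w m) := h
    rw [hLw, hed] at h1
    cases h1
  · intro x b m i h
    have h1 : F.ed (.R i) = F.ed ((L x b).w m) := h
    rw [hLw, hed] at h1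
    cases h1
  · intro x b m i h
    have h1 : F.ed (.R' i) = F.ed ((L x b).w m) := h
    rw [hLw, hed] at h1
    cases h1
  · intro i h
    have h1 : F.ed (.T' i false) = F.ed (.T' i true) := h
    rw [hed] at h1
    cases h1

end Pool.Agent.RAC

/-!
# The conclusion for stars, one bend (piece COR1)
-/

namespace Pool.Agent.RAC

/-- one of the four vectors of the frame of a unit vector lies in the first quadrant -/
theorem cor1_frame {g : Pt} (hg : dot g g = 1) : ∃ f : Pt, ax g f ∧ 0 < f.1 ∧ 0 ≤ f.2 := by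
  obtain ⟨a, b⟩ := g
  simp only [dot] at hg
  rcases lt_trichotomy a 0 with ha | ha | ha
  · rcases le_or_gt b 0 with hb | hb
    · exact ⟨-(a, b), Or.inr (Or.inr (Or.inl rfl)), by simp [ha], by simp [hb]⟩
    · exact ⟨-J (a, b), Or.inr (Or.inr (Or.inr rfl)), by simp [J, hb], by simp [J, ha.le]⟩
  · subst ha
    rcases lt_trichotomy b 0 with hb | hb | hb
    · exact ⟨J (0, b), Or.inr (Or.inl rfl), by simp [J, hb], by simp [J]⟩
    · subst hb
      norm_num at hg
    · exact ⟨-J (0, b), Or.inr (Or.inr (Or.inr rfl)), by simp [J, hb], by simp [J]⟩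
  · rcases le_or_gt 0 b with hb | hb
    · exact ⟨(a, b), Or.inl rfl, ha, hb⟩
    · exact ⟨J (a, b), Or.inr (Or.inl rfl), by simp [J, hb], by simp [J, ha.le]⟩

/-- vectors of the frame are perpendicular to `f` or to `J f` -/
theorem cor1_perp {f v : Pt} (h : ax f v) (l : ℝ) : dot (l • v) f = 0 ∨ dot (l • v) (J f) = 0 := by
  obtain ⟨a, b⟩ := f
  rcases h with rfl | rfl | rfl | rfl
  · right
    simp only [dot, J, Prod.smul_mk, smul_eq_mul]
    ring
  · left
    simp only [dot, J, Prod.smul_mk, smul_eq_mul]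
    ring
  · right
    simp only [dot, J, Prod.smul_mk, smul_eq_mul, Prod.neg_mk]
    ring
  · left
    simp only [dot, J, Prod.smul_mk, smul_eq_mul, Prod.neg_mk]
    ring

/-- COR1. The stars of a homogeneous family are good.

Proof. `cst1`, the cluster `t = 3` of `F.shift`, whose points are `F.pt 4`. By `center_plus` and `plus_all`
all labels are in the frame of `(D.L 0 false).d 0`; one of the four vectors of this frame, `f`, satisfies
`0 < f.1`, `0 ≤ f.2`; so `(D.L x b).Plus f` for all `x`, `b` (`Plus.of_ax`). Every `h` is `Dm x false m`, and the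
arm `A x false h` is the wall `m`, parallel to `(L x false).d m` (`Walls.wall`), so
perpendicular to `f` or `J f` (`Plus.mem`). Finally `St1.order` for `t = 3`; `F.dir` of `R i` is
`p (r i) - p (f i)`. -/
theorem core1 {n : ℕ} (hn : 10 ≤ n) (F : Fam n PP1 SS1 EE1) {o po : Fin 3 → Bool}
    (he1 : F.e1 = SS1.e1 o po) (he2 : F.e2 = SS1.e2) (hed : F.ed = SS1.ed)
    (hver : F.ver = PP1.ver) (hhub : F.hub = PP1.isHub) : Good1 (F.pt 4) := by
  obtain ⟨D, Dm, hbij, hLa, hLw, hR⟩ := cst1 hn F he1 he2 hed hver hhub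
  have hn8 : 8 ≤ n - 2 := by omega
  have hc := D.center_plus hn8
  obtain ⟨f, hax, hf1, hf2⟩ := cor1_frame ((D.L 0 false).W.unit 0)
  have hf : (D.L 0 false).Plus f := hc.of_ax hax
  have hfa : ∀ x b, (D.L x b).Plus f := fun x b => D.plus_all hn8 hf x b
  refine ⟨f, hf.unit, hf1, hf2, ?_, ?_⟩
  · intro x h
    obtain ⟨m, rfl⟩ := (hbij x false).2 h
    obtain ⟨l, hl, hw⟩ := (D.L x false).W.wall 3 (by omega) m
    have hw' : F.pt 4 (F.e2 ((D.L x false).w m)) =
        F.pt 4 (D.L x false).a + l • (D.L x false).d m := hw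
    rw [hLw, hLa, he2] at hw'
    have hw2 : F.pt 4 (.a x false (Dm x false m)) = F.pt 4 (.v x false) +
        l • (D.L x false).d m := hw'
    rw [hw2, add_sub_cancel_left]
    exact cor1_perp ((hfa x false).mem m) l
  · intro g hg i i' hii h1 h2
    have hgax : ax f g := by
      rcases hg with rfl | rfl
      · exact Or.inl rfl
      · exact Or.inr (Or.inl rfl)
    have hdir : ∀ i, (F.shift (by omega)).dir 3 (D.R i) = F.pt 4 (.r i) - F.pt 4 (.f i) := by
      intro i
      rw [hR]
      change F.pt 4 (F.e2 (.R i)) - F.pt 4 (F.e1 (.R i)) = _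
      rw [he1, he2]
      rfl
    have h := D.order hn8 hf hgax hii (t := 3) (by omega) (by omega)
      (by rw [hdir]; exact h1) (by rw [hdir]; exact h2)
    simp only [hLa] at h
    exact h

end Pool.Agent.RAC
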