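import Pool.Agent.Lib_MP_638f75_lc.H.HJ
import Pool.Agent.Lib_MP_638f75_lc.H.HK
import Pool.Agent.Lib_MP_638f75_lc.H.PreDefs

/-!
# Homogeneous families of stars, two bends (piece CST2)
-/

namespace Pool.Agent.RAC

/-- CST2. The structured star of a homogeneous family of stars.

Proof. For every `x` `F.Legs2 (v x) (A x) (M x) (B x)`; `lb2` gives the labels `L x` of `F.shift` and
`Dm x`, `I x`; `dbl` gives the last statement. `Ar x m = A x (I x m)`, `Z i`, `μ i = mu i`, `Z' i`. All
combinatorial fields by computation (`he1`, …). -/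
theorem cst2 {n : ℕ} (hn : 10 ≤ n) (F : Fam n PP2 SS2 EE2) (he1 : F.e1 = SS2.e1)
    (he2 : F.e2 = SS2.e2) (hed : F.ed = SS2.ed) (hver : F.ver = PP2.ver)
    (hhub : F.hub = PP2.isHub) :
    ∃ (D : St2 (F.shift (by omega))) (Dm I : Fin 4 → Fin 4 → Fin 8),
      (∀ x, Function.Injective (Dm x)) ∧ (∀ x, Function.Injective (I x)) ∧
      (∀ x m m', Dm x m ≠ I x m') ∧ (∀ x, (D.L x).a = .v x) ∧
      (∀ x m, (D.L x).w m = .A x (Dm x m)) ∧ (∀ x m, (D.L x).sd m = .M x (I x m)) ∧
      (∀ x m, D.Ar x m = .A x (I x m)) ∧ (∀ i, D.μ i = .mu i) ∧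
      ∀ x m, ∃ k, ∀ t, t < n - 2 →
        dot ((F.shift (by omega)).dir t (.M x (Dm x m))) ((D.L x).d k) = 0 := by
  have hLg : ∀ x : Fin 4, F.Legs2 (.v x) (SS2.A x) (SS2.M x) (SS2.B x) := by
    intro x
    refine ⟨?_, ?_, ?_, ?_, ?_, ?_, ?_, ?_, ?_, ?_, ?_⟩
    · rw [hhub]; exact id
    · rw [hver]; trivial
    · intro i; rw [he1]; rfl
    · intro i; rw [he2, hver]; exact id
    · intro i; rw [he1, he2]; rfl
    · intro i; rw [he2, hver]; exact id
    · intro i; rw [he1, he2]; rfl
    · intro i; rw [he2, hhub]; trivial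
    · intro i j h
      rw [he2] at h
      exact PP2.hub.inj h
    · intro i j h
      rw [hed] at h
      exact (EE2.leg.inj h).2
    · intro i
      rw [hed]; rfl
  choose L Dm I hD hI hDI hIi hLa hLw hLs _hLb using fun x => F.lb2 hn (hLg x)
  refine ⟨{ L := L, Ar := fun x m => .A x (I x m), Z := .Z, μ := .mu, Z' := .Z',
            ainj := ?_, Ar1 := ?_, Ar2 := ?_, Ar3 := ?_, Z1 := ?_, Z2 := ?_, Z3 := ?_, Z4 := ?_,
            Z5 := ?_, Z6 := ?_, eW := ?_, eA := ?_, eS := ?_, eAW := ?_, eZ := ?_, eZ' := ?_,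
            eμW := ?_, eμA := ?_ }, Dm, I, hD, hI, hDI, hLa, hLw, hLs, fun _ _ => rfl,
            fun _ => rfl, ?_⟩
  · intro x y h
    rw [hLa, hLa] at h
    exact PP2.v.inj h
  · intro x m
    show F.e1 _ = _
    rw [hLa, he1]; rfl
  · intro x m
    show F.e2 _ = F.e1 _
    rw [hLs, he1, he2]; rfl
  · intro x m
    show ¬ F.ver (F.e1 _)
    rw [hLs, he1, hver]; exact id
  · intro i
    show F.e1 _ = _
    rw [hLa, he1]; rfl
  · intro i
    show F.e2 _ = F.e1 _
    rw [he1, he2]; rfl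
  · intro i
    show ¬ F.ver (F.e1 _)
    rw [he1, hver]; exact id
  · intro i
    show F.e1 _ = _
    rw [hLa, he1]; rfl
  · intro i
    show F.e2 _ = F.e2 _
    rw [he2]; rfl
  · intro i
    show ¬ F.ver (F.e2 _)
    rw [he2, hver]; exact id
  · intro x m y m' h
    have h1 : F.ed ((L x).w m) = F.ed ((L y).w m') := h
    rw [hLw, hLw, hed] at h1
    obtain ⟨h2, h3⟩ := EE2.leg.inj h1
    subst h2
    exact ⟨rfl, hD x h3⟩
  · intro x m y m' h
    have h1 : F.ed (.A x (I x m)) = F.ed (.A y (I y m')) := h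
    rw [hed] at h1
    obtain ⟨h2, h3⟩ := EE2.leg.inj h1
    subst h2
    exact ⟨rfl, hI x h3⟩
  · intro x m
    show F.ed _ = F.ed _
    rw [hLs, hed]; rfl
  · intro x m y m' h
    have h1 : F.ed (.A x (I x m)) = F.ed ((L y).w m') := h
    rw [hLw, hed] at h1
    obtain ⟨h2, h3⟩ := EE2.leg.inj h1
    subst h2
    exact hDI x m' m h3.symm
  · intro i
    show F.ed _ = F.ed _
    rw [hed]; rfl
  · intro i
    show F.ed _ = F.ed _
    rw [hed]; rfl
  · intro i x m h
    have h1 : F.ed (.mu i) = F.ed ((L x).w m) := h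
    rw [hLw, hed] at h1
    cases h1
  · intro i x m h
    have h1 : F.ed (.mu i) = F.ed (.A x (I x m)) := h
    rw [hed] at h1
    cases h1
  · intro x m
    exact F.dbl hn (hLg x) (L x) (hD x) (hI x) (hDI x) (hIi x) (hLa x) (hLw x) (hLs x) m

end Pool.Agent.RAC

/-!
# The conclusion for stars, two bends (piece COR2)
-/

namespace Pool.Agent.RAC

/-- COR2. one of the four vectors of a frame is in the first quadrant -/
theorem cor2_frame {v : Pt} (hv : dot v v = 1) : ∃ f, ax v f ∧ 0 < f.1 ∧ 0 ≤ f.2 := by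
  obtain ⟨a, b⟩ := v
  simp only [dot] at hv
  by_cases h1 : 0 < a
  · by_cases h2 : 0 ≤ b
    · exact ⟨(a, b), Or.inl rfl, h1, h2⟩
    · refine ⟨J (a, b), Or.inr (Or.inl rfl), ?_, ?_⟩
      · simp only [J]; linarith
      · simp only [J]; linarith
  · by_cases h2 : 0 < b
    · refine ⟨- J (a, b), Or.inr (Or.inr (Or.inr rfl)), ?_, ?_⟩
      · simp only [J, Prod.neg_mk]; linarith
      · simp only [J, Prod.neg_mk]; linarith
    · by_cases h3 : a < 0
      · refine ⟨- (a, b), Or.inr (Or.inr (Or.inl rfl)), ?_, ?_⟩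
        · simp only [Prod.neg_mk]; linarith
        · simp only [Prod.neg_mk]; linarith
      · have ha : a = 0 := by linarith
        have hb : b < 0 := by
          rcases lt_or_eq_of_le (not_lt.1 h2) with h | h
          · exact h
          · rw [ha, h] at hv
            norm_num at hv
        refine ⟨J (a, b), Or.inr (Or.inl rfl), ?_, ?_⟩
        · simp only [J]; linarith
        · simp only [J]; linarith

/-- COR2. counting: two disjoint injective families of four legs are all eight legs -/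
theorem cor2_count {a b : Fin 4 → Fin 8} (ha : Function.Injective a) (hb : Function.Injective b)
    (hab : ∀ m m', a m ≠ b m') (h : Fin 8) : (∃ m, a m = h) ∨ ∃ m, b m = h := by
  have hinj : Function.Injective (Sum.elim a b) := by
    refine Function.Injective.sumElim ha hb hab
  have hbij : Function.Bijective (Sum.elim a b) := by
    rw [Fintype.bijective_iff_injective_and_card]
    exact ⟨hinj, by simp⟩
  obtain ⟨s, hs⟩ := hbij.2 h
  rcases s with m | m
  · exact Or.inl ⟨m, hs⟩
  · exact Or.inr ⟨m, hs⟩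

/-- COR2. two positive multiples of unit vectors -/
theorem cor2_mul {v w : Pt} (hv : dot v v = 1) (hw : dot w w = 1) {l l' : ℝ} (hl : 0 < l)
    (hl' : 0 < l') (h : l • v = l' • w) : v = w := by
  have h1 : dot (l • v) (l • v) = l * l := by rw [dot_smul, dot_smul', hv]; ring
  have h2 : dot (l' • w) (l' • w) = l' * l' := by rw [dot_smul, dot_smul', hw]; ring
  rw [h, h2] at h1
  have h3 : l' = l := by nlinarith
  rw [h3] at h
  exact (smul_right_injective Pt hl.ne') h

/-- COR2. a multiple of a vector of a frame is perpendicular to one of the two axes -/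
theorem cor2_perp {f v : Pt} (hv : ax f v) (l : ℝ) :
    dot (l • v) f = 0 ∨ dot (l • v) (J f) = 0 := by
  rcases hv with rfl | rfl | rfl | rfl
  · right; rw [dot_smul, dot_J, mul_zero]
  · left; rw [dot_smul, dot_comm, dot_J, mul_zero]
  · right; rw [dot_smul, dot_neg, dot_J]; simp
  · left; rw [dot_smul, dot_neg, dot_comm, dot_J]; simp

/-- COR2. a vector which is perpendicular to a vector of a frame is perpendicular to one of the two
axes -/
theorem cor2_perp' {f v u : Pt} (hv : ax f v) (h : dot u v = 0) :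
    dot u f = 0 ∨ dot u (J f) = 0 := by
  rcases hv with rfl | rfl | rfl | rfl
  · exact Or.inl h
  · exact Or.inr h
  · left; rw [dot_neg'] at h; linarith
  · right; rw [dot_neg'] at h; linarith

/-- COR2. The stars of a homogeneous family are good.

Proof. `cst2`, the cluster `t = 3` of `F.shift`, whose points are `F.pt 4`. By `center_plus` and `plus_all`
all labels are in the frame of `(D.L 0).d 0`; one of the four vectors of this frame, `f`, satisfies
`0 < f.1`, `0 ≤ f.2`; so `(D.L x).Plus f` for all `x` (`Plus.of_ax`). Every `h : Fin 8` is `Dm x m` or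
`I x m` (counting). The middle segment `M x (I x m)` is the strand `m`, parallel to `(L x).d m` (`s1`);
`M x (Dm x m)` is perpendicular to some `(L x).d k`: so perpendicular to `f` or `J f` (`Plus.mem`).
`Ws f g p x h` for `g ∈ {f, J f}` holds iff `h = I x m` with `(L x).d m = - g` (`exists_m`): the arm `A x (I x
m)` is not parallel to the axes (`end_ax`; its edge is not the edge of a wall, `eAW`), the arm
`A x (Dm x m)` is the wall `m`, parallel to an axis, so `dot … f = 0` or `dot … (J f) = 0`; and the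
direction of `M x (I x m)` is `(L x).d m` (`d_inj`). Finally `St2.order`; `lev g x m 3` is
`dot (F.pt 4 (a x (I x m))) (J g)` (`F.e1 (sd m) = a x (I x m)`), `F.dir` of `mu i` is `p (z' i) - p (z i)`. -/
theorem core2 {n : ℕ} (hn : 10 ≤ n) (F : Fam n PP2 SS2 EE2) (he1 : F.e1 = SS2.e1)
    (he2 : F.e2 = SS2.e2) (hed : F.ed = SS2.ed) (hver : F.ver = PP2.ver)
    (hhub : F.hub = PP2.isHub) : Good2 (F.pt 4) := by
  obtain ⟨D, Dm, I, hDi, hIi, hDI, ha, hw, hsd, hAr, hμ, hdb⟩ := cst2 hn F he1 he2 hed hver hhub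
  have hn8 : 8 ≤ n - 2 := by omega
  have hn2 : 2 ≤ n - 2 := by omega
  have ht : 3 < n - 2 := by omega
  have hp0 := D.center_plus hn8
  obtain ⟨f, hfa, hf1, hf2⟩ := cor2_frame ((D.L 0).unit 0)
  have hf0 : (D.L 0).Plus f := hp0.of_ax hfa
  have hf : ∀ x, (D.L x).Plus f := fun x => D.plus_all hn8 hf0 x
  have hff : dot f f = 1 := hf0.unit
  have hcnt : ∀ x h, (∃ m, Dm x m = h) ∨ ∃ m, I x m = h := fun x h =>
    cor2_count (hDi x) (hIi x) (hDI x) h
  -- the middle segments of the strands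
  have hM : ∀ x m, ∃ l : ℝ, 0 < l ∧
      F.pt 4 (.b x (I x m)) - F.pt 4 (.a x (I x m)) = l • (D.L x).d m := by
    intro x m
    obtain ⟨l, hl, hle⟩ := (D.L x).s1 3 ht m
    refine ⟨l, hl, ?_⟩
    have e1 : (F.shift (by omega)).e1 ((D.L x).sd m) = PP2.a x (I x m) := by
      rw [hsd]
      change F.e1 _ = _
      rw [he1]
      rfl
    have e2 : (F.shift (by omega)).e2 ((D.L x).sd m) = PP2.b x (I x m) := by
      rw [hsd]
      change F.e2 _ = _
      rw [he2]
      rfl
    rw [e1, e2] at hle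
    change F.pt 4 _ = F.pt 4 _ + _ at hle
    rw [hle]
    abel
  -- the walls
  have hWl : ∀ x m, ∃ l : ℝ, 0 < l ∧
      F.pt 4 (.a x (Dm x m)) - F.pt 4 (.v x) = l • (D.L x).d m := by
    intro x m
    obtain ⟨l, hl, hle⟩ := (D.L x).W.wall 3 ht m
    refine ⟨l, hl, ?_⟩
    have e2 : (F.shift (by omega)).e2 ((D.L x).w m) = PP2.a x (Dm x m) := by
      rw [hw]
      change F.e2 _ = _
      rw [he2]
      rfl
    rw [e2, ha] at hle
    change F.pt 4 _ = F.pt 4 _ + _ at hle
    rw [hle]
    abel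
  -- the arms of the strands
  have hAa : ∀ x m v, ax f v →
      dot (F.pt 4 (.a x (I x m)) - F.pt 4 (.v x)) v ≠ 0 := by
    intro x m v hv
    have h := Lb.end_ax hn2 (hf x) (D.Ar1 x m) (fun k => D.eAW x m x k) ht hv
    have e : (F.shift (by omega)).dir 3 (D.Ar x m) =
        F.pt 4 (.a x (I x m)) - F.pt 4 (.v x) := by
      rw [hAr]
      change F.pt 4 (F.e2 _) - F.pt 4 (F.e1 _) = _
      rw [he1, he2]
      rfl
    rwa [e] at h
  have haxf : ∀ g, (g = f ∨ g = J f) → ax f g := by
    rintro g (rfl | rfl)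
    · exact Or.inl rfl
    · exact Or.inr (Or.inl rfl)
  have hgg : ∀ g, (g = f ∨ g = J f) → dot g g = 1 := by
    intro g hg
    rw [plu_dot_unit (haxf g hg), hff]
  -- the legs which are selected
  have hWs1 : ∀ g, (g = f ∨ g = J f) → ∀ x h, Ws f g (F.pt 4) x h →
      ∃ m, I x m = h ∧ (D.L x).d m = -g := by
    rintro g hg x h ⟨h1, h2, l, hl, hle⟩
    rcases hcnt x h with ⟨m, rfl⟩ | ⟨m, rfl⟩
    · exfalso
      obtain ⟨l', hl', hle'⟩ := hWl x m
      rw [hle'] at h1 h2
      rcases cor2_perp ((hf x).mem m) l' with h3 | h3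
      · exact h1 h3
      · exact h2 h3
    · refine ⟨m, rfl, ?_⟩
      obtain ⟨l', hl', hle'⟩ := hM x m
      rw [hle'] at hle
      refine cor2_mul ((D.L x).unit m) ?_ hl' hl hle
      rw [plu_dot_neg_neg]
      exact hgg g hg
  have hWs2 : ∀ g x m, (D.L x).d m = -g → Ws f g (F.pt 4) x (I x m) := by
    intro g x m hm
    refine ⟨hAa x m f (Or.inl rfl), hAa x m (J f) (Or.inr (Or.inl rfl)), ?_⟩
    obtain ⟨l', hl', hle'⟩ := hM x m
    rw [hm] at hle'
    exact ⟨l', hl', hle'⟩
  refine ⟨f, hff, hf1, hf2, ?_, ?_⟩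
  · intro x h
    rcases hcnt x h with ⟨m, rfl⟩ | ⟨m, rfl⟩
    · obtain ⟨k, hk⟩ := hdb x m
      have h3 := hk 3 ht
      have e : (F.shift (by omega)).dir 3 (SS2.M x (Dm x m)) =
          F.pt 4 (.b x (Dm x m)) - F.pt 4 (.a x (Dm x m)) := by
        change F.pt 4 (F.e2 _) - F.pt 4 (F.e1 _) = _
        rw [he1, he2]
        rfl
      rw [e] at h3
      exact cor2_perp' ((hf x).mem k) h3
    · obtain ⟨l', hl', hle'⟩ := hM x m
      rw [hle']
      exact cor2_perp ((hf x).mem m) l'
  · intro g hg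
    have hga := haxf g hg
    refine ⟨?_, ?_, ?_⟩
    · intro x
      obtain ⟨m, hm⟩ := (hf x).exists_m hn2 hga.neg
      exact ⟨I x m, hWs2 g x m hm⟩
    · intro x h h' k k'
      obtain ⟨m, rfl, hm⟩ := hWs1 g hg x h k
      obtain ⟨m', rfl, hm'⟩ := hWs1 g hg x h' k'
      rw [(D.L x).W.d_inj hn2 (hm.trans hm'.symm)]
    · intro i i' hii hz hz' h0 h h' k0 k k'
      obtain ⟨m0, rfl, hm0⟩ := hWs1 g hg _ h0 k0
      obtain ⟨m1, rfl, hm1⟩ := hWs1 g hg _ h k
      obtain ⟨m2, rfl, hm2⟩ := hWs1 g hg _ h' k'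
      have ed : ∀ i, (F.shift (by omega)).dir 3 (D.μ i) =
          F.pt 4 (.z' i) - F.pt 4 (.z i) := by
        intro i
        rw [hμ]
        change F.pt 4 (F.e2 _) - F.pt 4 (F.e1 _) = _
        rw [he1, he2]
        rfl
      have el : ∀ x m, D.lev g x m 3 = dot (F.pt 4 (.a x (I x m))) (J g) := by
        intro x m
        unfold St2.lev
        rw [hsd]
        change dot (F.pt 4 (F.e1 _)) _ = _
        rw [he1]
        rfl
      have h9 := D.order hn8 hf0 hga hii (t := 3) (by omega) (by omega)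
        (by rw [ed]; exact hz) (by rw [ed]; exact hz') hm0 hm1 hm2
      rw [el, el, el] at h9
      exact h9

end Pool.Agent.RAC
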