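import Pool.Agent.Lib_MP_638f75_lc.H.PreDefs

/-!
# Drawings in normal form (piece NORM)
-/

namespace Pool.Agent.RAC

/-! ## Reversed chains -/

theorem norm_mem_segs {c : List Pt} {s : Pt × Pt} (h : s ∈ segs c) :
    ∃ l₁ l₂, c = l₁ ++ s.1 :: s.2 :: l₂ := by
  induction c with
  | nil => simp [segs] at h
  | cons x c ih =>
    rcases c with _ | ⟨y, c⟩
    · simp [segs] at h
    · have h' : s ∈ (x, y) :: segs (y :: c) := h
      rcases List.mem_cons.1 h' with rfl | h1
      · exact ⟨[], c, rfl⟩
      · obtain ⟨l₁, l₂, e⟩ := ih h1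
        exact ⟨x :: l₁, l₂, by rw [e]; rfl⟩

theorem norm_segs_mem (l₁ l₂ : List Pt) (a b : Pt) : (a, b) ∈ segs (l₁ ++ a :: b :: l₂) := by
  induction l₁ with
  | nil => exact List.mem_cons_self
  | cons x l₁ ih =>
    rcases l₁ with _ | ⟨y, l₁⟩
    · exact List.mem_cons_of_mem _ List.mem_cons_self
    · exact List.mem_cons_of_mem _ ih

theorem norm_segs_rev {c : List Pt} {s : Pt × Pt} (h : s ∈ segs c.reverse) :
    (s.2, s.1) ∈ segs c := by
  obtain ⟨l₁, l₂, e⟩ := norm_mem_segs h
  have e2 : c = l₂.reverse ++ s.2 :: s.1 :: l₁.reverse := by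
    have := congrArg List.reverse e
    rw [List.reverse_reverse] at this
    rw [this]
    simp
  rw [e2]
  exact norm_segs_mem _ _ _ _

/-- the condition avoid for one chain -/
def NormAv {V : Type*} (pos : V → Pt) (c : List Pt) (u v : V) : Prop :=
  ∀ s ∈ segs c, ∀ w, pos w ∈ segment ℝ s.1 s.2 →
    (w = u ∧ s.1 = pos u) ∨ (w = v ∧ s.2 = pos v)

/-- the condition cross for two chains -/
def NormCr {V : Type*} (pos : V → Pt) (c : List Pt) (u v : V) (c' : List Pt) (u' v' : V) : Prop :=
  ∀ s ∈ segs c, ∀ t ∈ segs c', ∀ z, z ∈ segment ℝ s.1 s.2 → z ∈ segment ℝ t.1 t.2 →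
    (∃ w, (w = u ∨ w = v) ∧ (w = u' ∨ w = v') ∧ z = pos w) ∨
    (z ∈ openSegment ℝ s.1 s.2 ∧ z ∈ openSegment ℝ t.1 t.2 ∧ dot (s.2 - s.1) (t.2 - t.1) = 0)

theorem norm_av_rev {V : Type*} {pos : V → Pt} {c : List Pt} {u v : V} (h : NormAv pos c u v) :
    NormAv pos c.reverse v u := by
  intro s hs w hw
  have h1 := h _ (norm_segs_rev hs) w (by rw [segment_symm]; exact hw)
  rcases h1 with h1 | h1
  · exact .inr h1
  · exact .inl h1

theorem norm_dot_neg (a b c d : Pt) (h : dot (a - b) (c - d) = 0) : dot (b - a) (c - d) = 0 := by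
  simp only [dot, Prod.fst_sub, Prod.snd_sub] at h ⊢
  linarith

theorem norm_cr_rev {V : Type*} {pos : V → Pt} {c : List Pt} {u v : V} {c' : List Pt} {u' v' : V}
    (h : NormCr pos c u v c' u' v') : NormCr pos c.reverse v u c' u' v' := by
  intro s hs t ht z hz hz'
  have h1 := h _ (norm_segs_rev hs) t ht z (by rw [segment_symm]; exact hz) hz'
  rcases h1 with ⟨w, h1, h2, h3⟩ | ⟨h1, h2, h3⟩
  · exact .inl ⟨w, h1.symm, h2, h3⟩
  · exact .inr ⟨by rw [openSegment_symm]; exact h1, h2, norm_dot_neg _ _ _ _ h3⟩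

theorem norm_cr_symm {V : Type*} {pos : V → Pt} {c : List Pt} {u v : V} {c' : List Pt} {u' v' : V}
    (h : NormCr pos c u v c' u' v') : NormCr pos c' u' v' c u v := by
  intro s hs t ht z hz hz'
  rcases h t ht s hs z hz' hz with ⟨w, h1, h2, h3⟩ | ⟨h1, h2, h3⟩
  · exact .inl ⟨w, h2, h1, h3⟩
  · refine .inr ⟨h2, h1, ?_⟩
    simp only [dot] at h3 ⊢
    linarith

/-! ## The new point -/

theorem norm_param {a b z : Pt} (h : z ∈ segment ℝ a b) :
    ∃ m : ℝ, 0 ≤ m ∧ m ≤ 1 ∧ z = a + m • (b - a) := by
  rw [segment_eq_image'] at h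
  obtain ⟨m, hm, rfl⟩ := h
  exact ⟨m, hm.1, hm.2, rfl⟩

theorem norm_mem_seg (a b : Pt) {m : ℝ} (h0 : 0 ≤ m) (h1 : m ≤ 1) :
    a + m • (b - a) ∈ segment ℝ a b := by
  rw [segment_eq_image']
  exact ⟨m, ⟨h0, h1⟩, rfl⟩

theorem norm_mem_oseg (a b : Pt) {m : ℝ} (h0 : 0 < m) (h1 : m < 1) :
    a + m • (b - a) ∈ openSegment ℝ a b := by
  rw [openSegment_eq_image']
  exact ⟨m, ⟨h0, h1⟩, rfl⟩

theorem norm_oparam {a b z : Pt} (h : z ∈ openSegment ℝ a b) :
    ∃ m : ℝ, 0 < m ∧ m < 1 ∧ z = a + m • (b - a) := by
  rw [openSegment_eq_image'] at h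
  obtain ⟨m, hm, rfl⟩ := h
  exact ⟨m, hm.1, hm.2, rfl⟩

theorem norm_dot_pos {a b : Pt} (h : a ≠ b) : 0 < dot (b - a) (b - a) := by
  have h1 : ¬ (b.1 - a.1 = 0 ∧ b.2 - a.2 = 0) := by
    rintro ⟨h1, h2⟩
    exact h (Prod.ext (by linarith) (by linarith))
  simp only [dot, Prod.fst_sub, Prod.snd_sub]
  rcases eq_or_ne (b.1 - a.1) 0 with e | e
  · have e2 : b.2 - a.2 ≠ 0 := fun e2 => h1 ⟨e, e2⟩
    have := mul_self_pos.2 e2
    have := mul_self_nonneg (b.1 - a.1)
    linarith
  · have := mul_self_pos.2 e
    have := mul_self_nonneg (b.2 - a.2)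
    linarith

/-- equal parameters -/
theorem norm_inj {a b : Pt} (h : a ≠ b) {l m : ℝ} (e : a + l • (b - a) = a + m • (b - a)) :
    l = m := by
  have h1 := congrArg Prod.fst e
  have h2 := congrArg Prod.snd e
  simp only [Prod.fst_add, Prod.snd_add, Prod.smul_fst, Prod.smul_snd, Prod.fst_sub, Prod.snd_sub,
    smul_eq_mul] at h1 h2
  have h3 := norm_dot_pos h
  simp only [dot, Prod.fst_sub, Prod.snd_sub] at h3
  have h4 : (l - m) * ((b.1 - a.1) * (b.1 - a.1) + (b.2 - a.2) * (b.2 - a.2)) = 0 := by
    linear_combination (b.1 - a.1) * h1 + (b.2 - a.2) * h2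
  rcases mul_eq_zero.1 h4 with h5 | h5
  · linarith
  · exact absurd h5 h3.ne'

/-- at most one bad parameter for one segment -/
theorem norm_one {a b c d : Pt} (h : a ≠ b) (hd : dot (b - a) (d - c) = 0) {l m : ℝ}
    (hl : a + l • (b - a) ∈ segment ℝ c d) (hm : a + m • (b - a) ∈ segment ℝ c d) : l = m := by
  obtain ⟨x, -, -, ex⟩ := norm_param hl
  obtain ⟨y, -, -, ey⟩ := norm_param hm
  have h1 := congrArg Prod.fst ex
  have h2 := congrArg Prod.snd ex
  have h3 := congrArg Prod.fst ey
  have h4 := congrArg Prod.snd ey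
  simp only [Prod.fst_add, Prod.snd_add, Prod.smul_fst, Prod.smul_snd, Prod.fst_sub, Prod.snd_sub,
    smul_eq_mul] at h1 h2 h3 h4
  simp only [dot, Prod.fst_sub, Prod.snd_sub] at hd
  have h5 := norm_dot_pos h
  simp only [dot, Prod.fst_sub, Prod.snd_sub] at h5
  have h6 : (l - m) * ((b.1 - a.1) * (b.1 - a.1) + (b.2 - a.2) * (b.2 - a.2)) = 0 := by
    linear_combination (b.1 - a.1) * (h1 - h3) + (b.2 - a.2) * (h2 - h4) + (x - y) * hd
  rcases mul_eq_zero.1 h6 with h7 | h7
  · linarith
  · exact absurd h7 h5.ne'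

/-- a point of the open first segment which is on no other edge -/
theorem norm_exists {k : ℕ} {V : Type*} [Finite V] {G : SimpleGraph V} {pos : V → Pt}
    {ch : V → V → List Pt} (h : WeakDraw k G pos ch) {u v : V} (huv : G.Adj u v) {a b : Pt}
    {r : List Pt} (hc : ch u v = a :: b :: r) (hab : a ≠ b) :
    ∃ l : ℝ, 0 < l ∧ l < 1 ∧ ∀ x y, G.Adj x y → s(u, v) ≠ s(x, y) → ∀ t ∈ segs (ch x y),
      a + l • (b - a) ∉ segment ℝ t.1 t.2 := by
  classical
  set Bad : Set ℝ := ⋃ x : V, ⋃ y : V, ⋃ t ∈ {t | t ∈ segs (ch x y)},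
    {l : ℝ | (0 < l ∧ l < 1) ∧ G.Adj x y ∧ s(u, v) ≠ s(x, y) ∧
      a + l • (b - a) ∈ segment ℝ t.1 t.2} with hBad
  have hs : (a, b) ∈ segs (ch u v) := by
    rw [hc]; exact List.mem_cons_self
  have hdot : ∀ x y, G.Adj x y → s(u, v) ≠ s(x, y) → ∀ t ∈ segs (ch x y), ∀ l : ℝ, 0 < l → l < 1 →
      a + l • (b - a) ∈ segment ℝ t.1 t.2 → dot (b - a) (t.2 - t.1) = 0 := by
    intro x y hxy hne t ht l hl0 hl1 hl
    have hz : a + l • (b - a) ∈ segment ℝ a b := norm_mem_seg a b hl0.le hl1.le
    rcases h.cross u v x y huv hxy hne (a, b) hs t ht _ hz hl with ⟨w, hw, -, e⟩ | ⟨-, -, e⟩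
    · exfalso
      have h1 := h.avoid u v huv (a, b) hs w (by rw [← e]; exact hz)
      rcases h1 with ⟨rfl, h2⟩ | ⟨rfl, h2⟩
      · have h2 : a = pos w := h2
        have h3 : a + l • (b - a) = a + (0 : ℝ) • (b - a) := by
          rw [e, ← h2]; simp
        exact hl0.ne' (norm_inj hab h3)
      · have h2 : b = pos w := h2
        have h3 : a + l • (b - a) = a + (1 : ℝ) • (b - a) := by
          rw [e, ← h2]; simp
        exact hl1.ne (norm_inj hab h3)
    · exact e
  have hfin : Bad.Finite := by
    refine Set.finite_iUnion fun x => Set.finite_iUnion fun y => ?_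
    refine Set.Finite.biUnion (List.finite_toSet _) ?_
    intro t ht
    refine Set.Subsingleton.finite ?_
    rintro l ⟨⟨hl0, hl1⟩, hxy, hne, hl⟩ m ⟨-, -, -, hm⟩
    exact norm_one hab (hdot x y hxy hne t ht l hl0 hl1 hl) hl hm
  have hinf : (Set.Ioo (0 : ℝ) 1).Infinite := Set.Ioo_infinite one_pos
  obtain ⟨l, hl, hlB⟩ := (hinf.sdiff hfin).nonempty
  refine ⟨l, hl.1, hl.2, ?_⟩
  intro x y hxy hne t ht hmem
  apply hlB
  rw [hBad]
  simp only [Set.mem_iUnion]
  exact ⟨x, y, t, ht, ⟨hl.1, hl.2⟩, hxy, hne, hmem⟩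

/-- points of the first half -/
theorem norm_left {a b : Pt} {l : ℝ} (h0 : 0 < l) {z : Pt} (hz : z ∈ segment ℝ a (a + l • (b - a))) :
    ∃ m : ℝ, 0 ≤ m ∧ m ≤ l ∧ z = a + m • (b - a) := by
  obtain ⟨x, hx0, hx1, e⟩ := norm_param hz
  refine ⟨x * l, by positivity, by nlinarith, ?_⟩
  rw [e, add_sub_cancel_left, smul_smul]

/-- points of the second half -/
theorem norm_right {a b : Pt} {l : ℝ} (h1 : l < 1) {z : Pt}
    (hz : z ∈ segment ℝ (a + l • (b - a)) b) :
    ∃ m : ℝ, l ≤ m ∧ m ≤ 1 ∧ z = a + m • (b - a) := by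
  obtain ⟨x, hx0, hx1, e⟩ := norm_param hz
  refine ⟨l + x * (1 - l), by nlinarith, by nlinarith, ?_⟩
  rw [e]
  apply Prod.ext
  · simp only [Prod.fst_add, Prod.smul_fst, Prod.fst_sub, smul_eq_mul]
    ring
  · simp only [Prod.snd_add, Prod.smul_snd, Prod.snd_sub, smul_eq_mul]
    ring

theorem norm_left_open {a b : Pt} {l m : ℝ} (h0 : 0 < m) (h1 : m < l) :
    a + m • (b - a) ∈ openSegment ℝ a (a + l • (b - a)) := by
  have hl : 0 < l := h0.trans h1
  have h2 := norm_mem_oseg a (a + l • (b - a)) (m := m / l) (by positivity)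
    ((div_lt_one hl).2 h1)
  rw [add_sub_cancel_left, smul_smul, div_mul_cancel₀ _ hl.ne'] at h2
  exact h2

theorem norm_right_open {a b : Pt} {l m : ℝ} (h0 : l < m) (h1 : m < 1) :
    a + m • (b - a) ∈ openSegment ℝ (a + l • (b - a)) b := by
  have hl : 0 < 1 - l := by linarith
  have h2 := norm_mem_oseg (a + l • (b - a)) b (m := (m - l) / (1 - l))
    (div_pos (by linarith) hl) ((div_lt_one hl).2 (by linarith))
  have h3 : (m - l) / (1 - l) * (1 - l) = m - l := div_mul_cancel₀ _ hl.ne'
  have e : a + l • (b - a) + ((m - l) / (1 - l)) • (b - (a + l • (b - a))) = a + m • (b - a) := by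
    apply Prod.ext
    · simp only [Prod.fst_add, Prod.smul_fst, Prod.fst_sub, smul_eq_mul]
      linear_combination (b.1 - a.1) * h3
    · simp only [Prod.snd_add, Prod.smul_snd, Prod.snd_sub, smul_eq_mul]
      linear_combination (b.2 - a.2) * h3
  rw [e] at h2
  exact h2

theorem norm_dot_left (a b c d : Pt) (l : ℝ) (h : dot (b - a) (d - c) = 0) :
    dot (a + l • (b - a) - a) (d - c) = 0 := by
  simp only [dot, Prod.fst_sub, Prod.snd_sub, Prod.fst_add, Prod.snd_add, Prod.smul_fst,
    Prod.smul_snd, smul_eq_mul] at h ⊢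
  linear_combination l * h

theorem norm_dot_right (a b c d : Pt) (l : ℝ) (h : dot (b - a) (d - c) = 0) :
    dot (b - (a + l • (b - a))) (d - c) = 0 := by
  simp only [dot, Prod.fst_sub, Prod.snd_sub, Prod.fst_add, Prod.snd_add, Prod.smul_fst,
    Prod.smul_snd, smul_eq_mul] at h ⊢
  linear_combination (1 - l) * h

/-- one subdivision -/
theorem norm_step {k : ℕ} {V : Type*} [Finite V] {G : SimpleGraph V} {pos : V → Pt}
    {ch : V → V → List Pt} (h : WeakDraw k G pos ch) {u v : V} (huv : G.Adj u v)
    (hlen : (ch u v).length < k + 2) :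
    ∃ ch', WeakDraw k G pos ch' ∧ (∀ x y, (ch x y).length ≤ (ch' x y).length) ∧
      (ch u v).length < (ch' u v).length := by
  classical
  have huv' : u ≠ v := huv.ne
  have hrev := h.rev u v huv
  -- the shape of the chain
  obtain ⟨a, b, r, hc⟩ : ∃ a b r, ch u v = a :: b :: r := by
    have h1 := h.head u v huv
    have h2 := h.head v u huv.symm
    rw [hrev] at h2
    rcases e : ch u v with _ | ⟨a, _ | ⟨b, r⟩⟩
    · rw [e] at h1; simp at h1
    · exfalso
      rw [e] at h1 h2
      simp only [List.reverse_cons, List.reverse_nil, List.nil_append, List.head?_cons,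
        Option.some.injEq] at h1 h2
      exact huv' (h.inj (h1.symm.trans h2))
    · exact ⟨a, b, r, rfl⟩
  have ha : a = pos u := by
    have h1 := h.head u v huv
    rw [hc] at h1
    simpa using h1
  have hab : a ≠ b := by
    have h1 := h.nondeg u v huv
    rw [hc] at h1
    exact (List.isChain_cons_cons.1 h1).1
  obtain ⟨l, hl0, hl1, hbad⟩ := norm_exists h huv hc hab
  set p : Pt := a + l • (b - a) with hp
  have hap : a ≠ p := by
    intro e
    have : a + l • (b - a) = a + (0 : ℝ) • (b - a) := by rw [← hp, ← e]; simp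
    exact hl0.ne' (norm_inj hab this)
  have hpb : p ≠ b := by
    intro e
    have : a + l • (b - a) = a + (1 : ℝ) • (b - a) := by rw [← hp, e]; simp
    exact hl1.ne (norm_inj hab this)
  have hs0 : (a, b) ∈ segs (ch u v) := by rw [hc]; exact List.mem_cons_self
  set c' : List Pt := a :: p :: b :: r with hc'
  have hsegs : ∀ s ∈ segs c', s = (a, p) ∨ s = (p, b) ∨ s ∈ segs (ch u v) := by
    intro s hs
    have hs' : s ∈ (a, p) :: (p, b) :: segs (b :: r) := hs
    rcases List.mem_cons.1 hs' with h1 | h1
    · exact .inl h1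
    rcases List.mem_cons.1 h1 with h2 | h2
    · exact .inr (.inl h2)
    · refine .inr (.inr ?_)
      rw [hc]
      exact List.mem_cons_of_mem _ h2
  -- avoid for the new chain
  have hav : NormAv pos c' u v := by
    intro s hs w hw
    rcases hsegs s hs with rfl | rfl | hs1
    · obtain ⟨m, hm0, hml, e⟩ := norm_left hl0 hw
      have hz : pos w ∈ segment ℝ a b := by
        rw [e]; exact norm_mem_seg a b hm0 (by linarith)
      rcases h.avoid u v huv (a, b) hs0 w hz with h1 | ⟨h1, h2⟩
      · exact .inl h1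
      · exfalso
        have h2 : b = pos v := h2
        have h3 : a + m • (b - a) = a + (1 : ℝ) • (b - a) := by
          rw [← e, h1, ← h2]; simp
        have := norm_inj hab h3
        linarith
    · obtain ⟨m, hml, hm1, e⟩ := norm_right hl1 hw
      have hz : pos w ∈ segment ℝ a b := by
        rw [e]; exact norm_mem_seg a b (by linarith) hm1
      rcases h.avoid u v huv (a, b) hs0 w hz with ⟨h1, h2⟩ | h1
      · exfalso
        have h3 : a + m • (b - a) = a + (0 : ℝ) • (b - a) := by
          rw [← e, h1, ← ha]; simp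
        have := norm_inj hab h3
        linarith
      · exact .inr h1
    · exact h.avoid u v huv s hs1 w hw
  -- cross for the new chain
  have hcr : ∀ x y, G.Adj x y → s(u, v) ≠ s(x, y) → NormCr pos c' u v (ch x y) x y := by
    intro x y hxy hne s hs t ht z hz hz'
    rcases hsegs s hs with rfl | rfl | hs1
    · obtain ⟨m, hm0, hml, e⟩ := norm_left hl0 hz
      have hz2 : z ∈ segment ℝ a b := by
        rw [e]; exact norm_mem_seg a b hm0 (by linarith)
      rcases h.cross u v x y huv hxy hne (a, b) hs0 t ht z hz2 hz' with h1 | ⟨h1, h2, h3⟩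
      · exact .inl h1
      · refine .inr ⟨?_, h2, norm_dot_left a b _ _ l h3⟩
        obtain ⟨m', hm0', hm1', e'⟩ := norm_oparam h1
        have e'' : a + m • (b - a) = a + m' • (b - a) := by rw [← e]; exact e'
        have hmm := norm_inj hab e''
        have hmne : m ≠ l := by
          intro e3
          apply hbad x y hxy hne t ht
          have e4 : p = z := by rw [hp, e, e3]
          rw [e4]
          exact hz'
        show z ∈ openSegment ℝ a p
        rw [e]
        exact norm_left_open (by linarith) (lt_of_le_of_ne hml hmne)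
    · obtain ⟨m, hml, hm1, e⟩ := norm_right hl1 hz
      have hz2 : z ∈ segment ℝ a b := by
        rw [e]; exact norm_mem_seg a b (by linarith) hm1
      rcases h.cross u v x y huv hxy hne (a, b) hs0 t ht z hz2 hz' with h1 | ⟨h1, h2, h3⟩
      · exact .inl h1
      · refine .inr ⟨?_, h2, norm_dot_right a b _ _ l h3⟩
        obtain ⟨m', hm0', hm1', e'⟩ := norm_oparam h1
        have e'' : a + m • (b - a) = a + m' • (b - a) := by rw [← e]; exact e'
        have hmm := norm_inj hab e''
        have hmne : m ≠ l := by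
          intro e3
          apply hbad x y hxy hne t ht
          have e4 : p = z := by rw [hp, e, e3]
          rw [e4]
          exact hz'
        show z ∈ openSegment ℝ p b
        rw [e]
        exact norm_right_open (lt_of_le_of_ne hml (Ne.symm hmne)) (by linarith)
    · exact h.cross u v x y huv hxy hne s hs1 t ht z hz hz'
  -- the new chains
  set F : V → V → List Pt := fun x y => if x = u ∧ y = v then c' else
    if x = v ∧ y = u then c'.reverse else ch x y with hF
  have F1 : F u v = c' := by simp [hF]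
  have F2 : F v u = c'.reverse := by simp [hF, huv', huv'.symm]
  have F3 : ∀ x y, s(u, v) ≠ s(x, y) → F x y = ch x y := by
    intro x y hne
    have h1 : ¬ (x = u ∧ y = v) := by
      rintro ⟨rfl, rfl⟩; exact hne rfl
    have h2 : ¬ (x = v ∧ y = u) := by
      rintro ⟨rfl, rfl⟩; exact hne Sym2.eq_swap
    simp only [hF]
    rw [if_neg h1, if_neg h2]
  have cases : ∀ x y, (x = u ∧ y = v) ∨ (x = v ∧ y = u) ∨ s(u, v) ≠ s(x, y) := by
    intro x y
    by_cases e : s(u, v) = s(x, y)
    · rcases Sym2.eq_iff.1 e with ⟨h1, h2⟩ | ⟨h1, h2⟩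
      · exact .inl ⟨h1.symm, h2.symm⟩
      · exact .inr (.inl ⟨h2.symm, h1.symm⟩)
    · exact .inr (.inr e)
  have hlen' : c'.length = (ch u v).length + 1 := by rw [hc]; simp [hc']
  have hmain : ∀ x y, G.Adj x y → (F x y).length ≤ k + 2 ∧ (F x y).head? = some (pos x) ∧
      (F x y).IsChain (· ≠ ·) ∧ NormAv pos (F x y) x y := by
    intro x y hxy
    have hchain : c'.IsChain (· ≠ ·) := by
      have h1 := h.nondeg u v huv
      rw [hc] at h1
      have h2 := (List.isChain_cons_cons.1 h1).2
      exact List.isChain_cons_cons.2 ⟨hap, List.isChain_cons_cons.2 ⟨hpb, h2⟩⟩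
    rcases cases x y with ⟨rfl, rfl⟩ | ⟨rfl, rfl⟩ | hne
    · rw [F1]
      refine ⟨by omega, ?_, hchain, hav⟩
      rw [hc', ha]; rfl
    · rw [F2]
      refine ⟨by rw [List.length_reverse]; omega, ?_, ?_, norm_av_rev hav⟩
      · have h1 := h.head x y huv.symm
        rw [hrev, hc] at h1
        rw [List.head?_reverse] at h1 ⊢
        rw [hc']
        simpa using h1
      · rw [List.isChain_reverse]
        exact hchain.imp (fun _ _ e => e.symm)
    · rw [F3 x y hne]
      exact ⟨h.len x y hxy, h.head x y hxy, h.nondeg x y hxy, h.avoid x y hxy⟩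
  refine ⟨F, ⟨h.inj, ?_, fun x y hxy => (hmain x y hxy).2.1, fun x y hxy => (hmain x y hxy).1,
    fun x y hxy => (hmain x y hxy).2.2.1, fun x y hxy => (hmain x y hxy).2.2.2, ?_⟩, ?_, ?_⟩
  · intro x y hxy
    rcases cases x y with ⟨rfl, rfl⟩ | ⟨rfl, rfl⟩ | hne
    · rw [F1, F2]
    · rw [F1, F2, List.reverse_reverse]
    · rw [F3 x y hne, F3 y x (by rw [Sym2.eq_swap (a := y)]; exact hne), h.rev x y hxy]
  · intro x y x' y' hxy hxy' hne
    have key : NormCr pos (F x y) x y (F x' y') x' y' := by
      rcases cases x y with ⟨e1, e2⟩ | ⟨e1, e2⟩ | hne1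
      · subst e1; subst e2
        rw [F1, F3 x' y' hne]
        exact hcr x' y' hxy' hne
      · subst e1; subst e2
        have hne2 : s(y, x) ≠ s(x', y') := by rw [Sym2.eq_swap]; exact hne
        rw [F2, F3 x' y' hne2]
        exact norm_cr_rev (hcr x' y' hxy' hne2)
      · rw [F3 x y hne1]
        rcases cases x' y' with ⟨e1, e2⟩ | ⟨e1, e2⟩ | hne2
        · subst e1; subst e2
          rw [F1]
          exact norm_cr_symm (hcr x y hxy hne1)
        · subst e1; subst e2
          rw [F2]
          exact norm_cr_symm (norm_cr_rev (hcr x y hxy hne1))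
        · rw [F3 x' y' hne2]
          exact h.cross x y x' y' hxy hxy' hne
    exact key
  · intro x y
    rcases cases x y with ⟨rfl, rfl⟩ | ⟨rfl, rfl⟩ | hne
    · rw [F1]; omega
    · rw [F2, List.length_reverse, hrev, List.length_reverse]; omega
    · rw [F3 x y hne]
  · rw [F1]; omega

/-- NORM. Every drawing has a subdivision in normal form.

Proof. Let `u v` be adjacent, `c = ch u v`, `2 ≤ c.length ≤ k + 2` (`c.head? = some (pos u)`; by
`rev`, `head` the last point is `pos v ≠ pos u`, so the length is at least 2). Let `s = (a, b)` be the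
first segment of `c`, `a ≠ b`. The set `Bad` of the points of `s` which lie on a segment `t` of an edge
different from `uv` is finite: by `cross` such a point is a vertex or an interior crossing with `dot = 0`; two
perpendicular nondegenerate segments have at most one common point (the difference of two common
points would be parallel to both), and there are finitely many edges and segments (`Finite V`).
So we can choose `r = k + 2 - c.length` different points of the open segment `(a, b)` outside `Bad`, in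
the order from `a` to `b` (e.g. the set of parameters `l ∈ (0, 1)` such that `a + l (b - a)` is not
bad is infinite; take a finite subset with `r` elements, sorted), and insert them between `a` and `b`. Do
this for one orientation of every edge (e.g. `(u, v) = (Sym2.out …)`, or choose by a linear order of
`V`, or by `open Classical` any choice function on `Sym2 V`), and use the reversed list for the other
orientation.
The new chain has the same point set; each of its segments is contained in a segment of the old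
chain, with the same direction (up to a positive factor), and an end of a new segment is an end of the
old segment or a new point. `nondeg`: consecutive points are different. `avoid`: the vertex lies on the
old segment, so by `avoid` it is the first or last point of the chain; a new point is not a vertex
(interior points of a segment are not vertices: by `avoid` `w = u` and `s.1 = pos u`, i.e. `pos w = a`,
or `pos w = b`). So the new segment which contains it starts resp. ends there (the
vertex is on the new segment `s' ⊆ s`, and it is an end point of `s`, so an end point of `s'`).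
`cross`: common point `z` of two new segments `s' ⊆ s`, `t' ⊆ t` of different edges: by `cross` for `s`,
`t`: either a common vertex, or an interior crossing of `s` and `t`. In the second case `z` is not a
new point of `s` or `t` (they are not bad) and not an end of `s`, `t`, so it is an interior point of
`s'`, `t'`, and the directions are perpendicular. -/
theorem norm {k : ℕ} {V : Type*} [Finite V] {G : SimpleGraph V} {pos : V → Pt}
    {ch : V → V → List Pt} (h : WeakDraw k G pos ch) : ∃ ch', NDraw k G pos ch' := by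
  classical
  have := Fintype.ofFinite V
  have key : ∀ n : ℕ, ∀ ch : V → V → List Pt, WeakDraw k G pos ch →
      (∑ q : V × V, (k + 2 - (ch q.1 q.2).length)) = n → ∃ ch', NDraw k G pos ch' := by
    intro n
    induction n using Nat.strong_induction_on with
    | _ n ih =>
      intro ch h hn
      by_cases hall : ∀ u v, G.Adj u v → (ch u v).length = k + 2
      · exact ⟨ch, { h with lenk := hall }⟩
      · push Not at hall
        obtain ⟨u, v, huv, hne⟩ := hall
        have hlt : (ch u v).length < k + 2 := lt_of_le_of_ne (h.len u v huv) hne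
        obtain ⟨ch', h', hle, hlt'⟩ := norm_step h huv hlt
        refine ih _ ?_ ch' h' rfl
        rw [← hn]
        refine Finset.sum_lt_sum (fun q _ => ?_) ⟨(u, v), Finset.mem_univ _, ?_⟩
        · have := hle q.1 q.2
          omega
        · show k + 2 - (ch' u v).length < k + 2 - (ch u v).length
          omega
  exact key _ ch h rfl

end Pool.Agent.RAC
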