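import Pool.Agent.Lib_MP_638f75_lc.H.PreDefs

/-!
# The family of star clusters in a drawing (one bend) (piece PRE1)
-/

namespace Pool.Agent.RAC

/-- PRE1. `arcV` for the arc of a star, in both orientations. -/
theorem arcV_eq {V : Type*} {Γ : Gam V} {y : Fin 4 → V} {o po : Fin 3 → Bool}
    (ho : OrOK Γ y o po) (i : Fin 3) :
    arcV Γ (y 0) (y i.succ) = .inr (.inr ⟨(y (tl o i), y (hd o i)), (ho i).1⟩) := by
  have hi := (ho i).1
  have key : ∀ (a b c d : V) (hab : Γ.ed a b) (hcd : Γ.ed c d), a = c → b = d →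
      (Sum.inr (Sum.inr ⟨(a, b), hab⟩) : V1 Γ) = .inr (.inr ⟨(c, d), hcd⟩) := by
    intro a b c d hab hcd e1 e2
    subst e1 e2
    rfl
  unfold arcV
  cases hoi : o i with
  | true =>
    have e1 : tl o i = 0 := by simp [tl, hoi]
    have e2 : hd o i = i.succ := by simp [hd, hoi]
    have h1 : Γ.ed (y 0) (y i.succ) := by rw [e1, e2] at hi; exact hi
    rw [dif_pos h1]
    exact key _ _ _ _ _ _ (by rw [e1]) (by rw [e2])
  | false =>
    have e1 : tl o i = i.succ := by simp [tl, hoi]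
    have e2 : hd o i = 0 := by simp [hd, hoi]
    have h1 : Γ.ed (y i.succ) (y 0) := by rw [e1, e2] at hi; exact hi
    rw [dif_neg (Γ.asym _ _ h1), dif_pos h1]
    exact key _ _ _ _ _ _ (by rw [e1]) (by rw [e2])

private theorem pre1_tlhd (o : Fin 3 → Bool) (i i' : Fin 3) (h1 : tl o i = tl o i')
    (h2 : hd o i = hd o i') : i = i' := by
  revert o i i'
  decide

private theorem pre1_ne (o : Fin 3 → Bool) (i : Fin 3) : tl o i ≠ hd o i := by
  revert o i
  decide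

/-- one end of an edge of a star -/
private noncomputable def pre1U {V : Type*} (Γ : Gam V) (y : Fin 4 → V) : EE1 → V1 Γ
  | .leg x b _ => .inr (.inl (y x, b))
  | .dir x => .inr (.inl (y x, false))
  | .tb i _ => arcV Γ (y 0) (y i.succ)
  | .hd i => arcV Γ (y 0) (y i.succ)

/-- the other end -/
private def pre1W {V : Type*} (Γ : Gam V) (y : Fin 4 → V) (o po : Fin 3 → Bool) : EE1 → V1 Γ
  | .leg _ _ h => .inl h
  | .dir x => .inr (.inl (y x, true))
  | .tb i b => .inr (.inl (y (tl o i), b))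
  | .hd i => .inr (.inl (y (hd o i), po i))

/-- the vertex with a given label -/
private noncomputable def pre1X {V : Type*} (Γ : Gam V) (y : Fin 4 → V) : PP1 → V1 Γ
  | .hub h => .inl h
  | .v x b => .inr (.inl (y x, b))
  | .f i => arcV Γ (y 0) (y i.succ)
  | _ => .inl 0

private theorem pre1_adj {V : Type*} {Γ : Gam V} {y : Fin 4 → V} {o po : Fin 3 → Bool}
    (ho : OrOK Γ y o po) (e : EE1) : (G1 Γ).Adj (pre1U Γ y e) (pre1W Γ y o po e) := by
  cases e with
  | leg x b h => exact Or.inr trivial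
  | dir x => exact Or.inl ⟨rfl, rfl, rfl⟩
  | tb i b =>
    show (G1 Γ).Adj (arcV Γ (y 0) (y i.succ)) (.inr (.inl (y (tl o i), b)))
    rw [arcV_eq ho i]
    exact Or.inl (Or.inl rfl)
  | hd i =>
    show (G1 Γ).Adj (arcV Γ (y 0) (y i.succ)) (.inr (.inl (y (hd o i), po i)))
    rw [arcV_eq ho i]
    exact Or.inl (Or.inr ⟨rfl, (ho i).2.symm⟩)

private theorem pre1_pos {V : Type*} {Γ : Gam V} (pos : V1 Γ → Pt) (ch : V1 Γ → V1 Γ → List Pt)
    (y : Fin 4 → V) (o po : Fin 3 → Bool) (p : PP1) (hp : p.ver) :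
    pts1 Γ pos ch y o po p = pos (pre1X Γ y p) := by
  cases p <;> first | rfl | exact hp.elim

private theorem pre1_Vinj {V : Type*} {Γ : Gam V} {a a' : V} {b b' : Bool}
    (e : (Sum.inr (Sum.inl (a, b)) : V1 Γ) = .inr (.inl (a', b'))) : a = a' ∧ b = b' :=
  Prod.mk.inj (Sum.inl.inj (Sum.inr.inj e))

private theorem pre1_arc {V : Type*} {Γ : Gam V} {y y' : Fin 4 → V} {o po : Fin 3 → Bool}
    (ho : OrOK Γ y o po) (ho' : OrOK Γ y' o po) {i i' : Fin 3}
    (e : arcV Γ (y 0) (y i.succ) = arcV Γ (y' 0) (y' i'.succ)) :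
    y (tl o i) = y' (tl o i') ∧ y (hd o i) = y' (hd o i') := by
  rw [arcV_eq ho i, arcV_eq ho' i'] at e
  exact Prod.mk.inj (Subtype.mk.inj (Sum.inr.inj (Sum.inr.inj e)))

private theorem pre1_arcV {V : Type*} {Γ : Gam V} {y : Fin 4 → V} {o po : Fin 3 → Bool}
    (ho : OrOK Γ y o po) {i : Fin 3} {v : V × Bool}
    (e : arcV Γ (y 0) (y i.succ) = .inr (.inl v)) : False := by
  rw [arcV_eq ho i] at e
  exact absurd (Sum.inr.inj e) (by simp)

private theorem pre1_arcH {V : Type*} {Γ : Gam V} {y : Fin 4 → V} {o po : Fin 3 → Bool}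
    (ho : OrOK Γ y o po) {i : Fin 3} {h : Fin 4}
    (e : arcV Γ (y 0) (y i.succ) = .inl h) : False := by
  rw [arcV_eq ho i] at e
  exact absurd e (by simp)

private theorem pre1_inj {V : Type*} {Γ : Gam V} {y : Fin 4 → V} {o po : Fin 3 → Bool}
    (hy : Function.Injective y) (ho : OrOK Γ y o po) {p p' : PP1}
    (hp : p.ver) (hp' : p'.ver) (e : pre1X Γ y p = pre1X Γ y p') : p = p' := by
  cases p with
  | hub h =>
    cases p' with
    | hub h' => exact congrArg _ (Sum.inl.inj e)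
    | v x b => exact absurd e (by simp [pre1X])
    | f i => exact (pre1_arcH ho e.symm).elim
    | _ => exact hp'.elim
  | v x b =>
    cases p' with
    | hub h' => exact absurd e (by simp [pre1X])
    | v x' b' =>
      obtain ⟨h1, h2⟩ := pre1_Vinj e
      rw [hy h1, h2]
    | f i => exact (pre1_arcV ho e.symm).elim
    | _ => exact hp'.elim
  | f i =>
    cases p' with
    | hub h' => exact (pre1_arcH ho e).elim
    | v x' b' => exact (pre1_arcV ho e).elim
    | f i' =>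
      obtain ⟨h1, h2⟩ := pre1_arc ho ho e
      rw [pre1_tlhd o i i' (hy h1) (hy h2)]
    | _ => exact hp'.elim
  | _ => exact hp.elim

private theorem pre1_hub {V : Type*} {Γ : Gam V} {y y' : Fin 4 → V} {o po : Fin 3 → Bool}
    (ho : OrOK Γ y o po) (ho' : OrOK Γ y' o po) (hd : ∀ x x', y x ≠ y' x') {p p' : PP1}
    (hp : p.ver) (hp' : p'.ver) (e : pre1X Γ y p = pre1X Γ y' p') : p = p' ∧ p.isHub := by
  cases p with
  | hub h =>
    cases p' with
    | hub h' => exact ⟨congrArg _ (Sum.inl.inj e), trivial⟩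
    | v x b => exact absurd e (by simp [pre1X])
    | f i => exact (pre1_arcH ho' e.symm).elim
    | _ => exact hp'.elim
  | v x b =>
    cases p' with
    | hub h' => exact absurd e (by simp [pre1X])
    | v x' b' => exact absurd (pre1_Vinj e).1 (hd _ _)
    | f i => exact (pre1_arcV ho' e.symm).elim
    | _ => exact hp'.elim
  | f i =>
    cases p' with
    | hub h' => exact (pre1_arcH ho e).elim
    | v x' b' => exact (pre1_arcV ho e).elim
    | f i' => exact absurd (pre1_arc ho ho' e).1 (hd _ _)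
    | _ => exact hp'.elim
  | _ => exact hp.elim

private theorem pre1_chain {W : Type*} {G : SimpleGraph W} {pos : W → Pt}
    {ch : W → W → List Pt} (h : NDraw 1 G pos ch) {u w : W} (ha : G.Adj u w) :
    ch u w = [pos u, (ch u w).getD 1 0, pos w] ∧
    pos u ≠ (ch u w).getD 1 0 ∧ (ch u w).getD 1 0 ≠ pos w := by
  have hl := h.lenk u w ha
  have hh := h.head u w ha
  have hr := h.rev u w ha
  have hh' := h.head w u ha.symm
  have hn := h.nondeg u w ha
  rw [hr] at hh'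
  obtain ⟨a, b, c, hc⟩ : ∃ a b c, ch u w = [a, b, c] := by
    rcases hc : ch u w with _ | ⟨a, _ | ⟨b, _ | ⟨c, _ | ⟨d, l⟩⟩⟩⟩
    all_goals rw [hc] at hl
    all_goals first | exact ⟨a, b, c, rfl⟩ | (exfalso; simp at hl)
  rw [hc] at hh hh' hn ⊢
  have ea : a = pos u := by simpa using hh
  have ed : c = pos w := by simpa using hh'
  subst ea ed
  have hn' : pos u ≠ b ∧ b ≠ pos w := by simpa using hn
  exact ⟨rfl, hn'.1, hn'.2⟩

/-- the segment of the chain which belongs to a segment of the cluster -/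
private theorem pre1_seg {V : Type*} {Γ : Gam V} {pos : V1 Γ → Pt}
    {ch : V1 Γ → V1 Γ → List Pt} (h : NDraw 1 (G1 Γ) pos ch) {y : Fin 4 → V}
    {o po : Fin 3 → Bool} (ho : OrOK Γ y o po) (σ : SS1) :
    ∃ s ∈ segs (ch (pre1U Γ y σ.ed) (pre1W Γ y o po σ.ed)),
      (s = (pts1 Γ pos ch y o po (σ.e1 o po), pts1 Γ pos ch y o po σ.e2) ∨
        s = (pts1 Γ pos ch y o po σ.e2, pts1 Γ pos ch y o po (σ.e1 o po))) ∧ s.1 ≠ s.2 ∧
      ∀ w0, pos w0 ∈ segment ℝ s.1 s.2 → ∃ p : PP1, p.ver ∧ pre1X Γ y p = w0 ∧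
        (p = σ.e1 o po ∨ p = σ.e2) := by
  obtain ⟨hc, n1, n2⟩ := pre1_chain h (pre1_adj ho σ.ed)
  have hav := h.avoid _ _ (pre1_adj ho σ.ed)
  have m0 : (pos (pre1U Γ y σ.ed), (ch (pre1U Γ y σ.ed) (pre1W Γ y o po σ.ed)).getD 1 0) ∈
      segs (ch (pre1U Γ y σ.ed) (pre1W Γ y o po σ.ed)) := by
    rw [hc]; simp [segs]
  have m1 : ((ch (pre1U Γ y σ.ed) (pre1W Γ y o po σ.ed)).getD 1 0,
      pos (pre1W Γ y o po σ.ed)) ∈ segs (ch (pre1U Γ y σ.ed) (pre1W Γ y o po σ.ed)) := by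
    rw [hc]; simp [segs]
  have a0 : ∀ w0, pos w0 ∈ segment ℝ (pos (pre1U Γ y σ.ed))
      ((ch (pre1U Γ y σ.ed) (pre1W Γ y o po σ.ed)).getD 1 0) → w0 = pre1U Γ y σ.ed := by
    intro w0 hw
    rcases hav _ m0 w0 hw with ⟨h1, -⟩ | ⟨-, h2⟩
    · exact h1
    · exact absurd h2 n2
  have a1 : ∀ w0, pos w0 ∈ segment ℝ ((ch (pre1U Γ y σ.ed) (pre1W Γ y o po σ.ed)).getD 1 0)
      (pos (pre1W Γ y o po σ.ed)) → w0 = pre1W Γ y o po σ.ed := by
    intro w0 hw
    rcases hav _ m1 w0 hw with ⟨-, h2⟩ | ⟨h1, -⟩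
    · exact absurd h2.symm n1
    · exact h1
  cases σ with
  | A x b k =>
    exact ⟨_, m0, Or.inl rfl, n1, fun w0 hw => ⟨.v x b, trivial, (a0 w0 hw).symm, Or.inl rfl⟩⟩
  | B x b k =>
    exact ⟨_, m1, Or.inl rfl, n2, fun w0 hw => ⟨.hub k, trivial, (a1 w0 hw).symm, Or.inr rfl⟩⟩
  | Z x b =>
    cases b with
    | false =>
      exact ⟨_, m0, Or.inl rfl, n1,
        fun w0 hw => ⟨.v x false, trivial, (a0 w0 hw).symm, Or.inl rfl⟩⟩
    | true =>
      exact ⟨_, m1, Or.inr rfl, n2,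
        fun w0 hw => ⟨.v x true, trivial, (a1 w0 hw).symm, Or.inl rfl⟩⟩
  | T i b =>
    exact ⟨_, m1, Or.inr rfl, n2,
      fun w0 hw => ⟨.v (tl o i) b, trivial, (a1 w0 hw).symm, Or.inl rfl⟩⟩
  | T' i b =>
    exact ⟨_, m0, Or.inl rfl, n1, fun w0 hw => ⟨.f i, trivial, (a0 w0 hw).symm, Or.inl rfl⟩⟩
  | R i =>
    exact ⟨_, m0, Or.inl rfl, n1, fun w0 hw => ⟨.f i, trivial, (a0 w0 hw).symm, Or.inl rfl⟩⟩
  | R' i =>
    exact ⟨_, m1, Or.inr rfl, n2,
      fun w0 hw => ⟨.v (hd o i) (po i), trivial, (a1 w0 hw).symm, Or.inl rfl⟩⟩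

private theorem pre1_edge {V : Type*} {Γ : Gam V} {y : Fin 4 → V} {o po : Fin 3 → Bool}
    (hy : Function.Injective y) (ho : OrOK Γ y o po) {e e' : EE1} (he : e ≠ e') :
    s(pre1U Γ y e, pre1W Γ y o po e) ≠ s(pre1U Γ y e', pre1W Γ y o po e') := by
  intro h
  rw [Sym2.eq_iff] at h
  apply he
  cases e with
  | leg x b k =>
    cases e' with
    | leg x' b' k' =>
      rcases h with ⟨h1, h2⟩ | ⟨h1, h2⟩
      · obtain ⟨h3, h4⟩ := pre1_Vinj h1
        rw [hy h3, h4, Sum.inl.inj h2]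
      · exact absurd h1 (by simp [pre1U, pre1W])
    | dir x' =>
      rcases h with ⟨h1, h2⟩ | ⟨h1, h2⟩
      · exact absurd h2 (by simp [pre1W])
      · exact absurd h2 (by simp [pre1U, pre1W])
    | tb i b' =>
      rcases h with ⟨h1, h2⟩ | ⟨h1, h2⟩
      · exact (pre1_arcV ho h1.symm).elim
      · exact (pre1_arcH ho h2.symm).elim
    | hd i =>
      rcases h with ⟨h1, h2⟩ | ⟨h1, h2⟩
      · exact (pre1_arcV ho h1.symm).elim
      · exact (pre1_arcH ho h2.symm).elim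
  | dir x =>
    cases e' with
    | leg x' b' k' =>
      rcases h with ⟨h1, h2⟩ | ⟨h1, h2⟩
      · exact absurd h2 (by simp [pre1W])
      · exact absurd h1 (by simp [pre1U, pre1W])
    | dir x' =>
      rcases h with ⟨h1, h2⟩ | ⟨h1, h2⟩
      · rw [hy (pre1_Vinj h1).1]
      · exact absurd (pre1_Vinj h1).2 (by simp)
    | tb i b' =>
      rcases h with ⟨h1, h2⟩ | ⟨h1, h2⟩
      · exact (pre1_arcV ho h1.symm).elim
      · exact (pre1_arcV ho h2.symm).elim
    | hd i =>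
      rcases h with ⟨h1, h2⟩ | ⟨h1, h2⟩
      · exact (pre1_arcV ho h1.symm).elim
      · exact (pre1_arcV ho h2.symm).elim
  | tb i b =>
    cases e' with
    | leg x' b' k' =>
      rcases h with ⟨h1, h2⟩ | ⟨h1, h2⟩
      · exact (pre1_arcV ho h1).elim
      · exact (pre1_arcH ho h1).elim
    | dir x' =>
      rcases h with ⟨h1, h2⟩ | ⟨h1, h2⟩
      · exact (pre1_arcV ho h1).elim
      · exact (pre1_arcV ho h1).elim
    | tb i' b' =>
      rcases h with ⟨h1, h2⟩ | ⟨h1, h2⟩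
      · obtain ⟨h3, h4⟩ := pre1_arc ho ho h1
        rw [pre1_tlhd o i i' (hy h3) (hy h4), (pre1_Vinj h2).2]
      · exact (pre1_arcV ho h1).elim
    | hd i' =>
      rcases h with ⟨h1, h2⟩ | ⟨h1, h2⟩
      · obtain ⟨h3, h4⟩ := pre1_arc ho ho h1
        have h5 := hy (pre1_Vinj h2).1
        rw [pre1_tlhd o i i' (hy h3) (hy h4)] at h5
        exact absurd h5 (pre1_ne o i')
      · exact (pre1_arcV ho h1).elim
  | hd i =>
    cases e' with
    | leg x' b' k' =>
      rcases h with ⟨h1, h2⟩ | ⟨h1, h2⟩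
      · exact (pre1_arcV ho h1).elim
      · exact (pre1_arcH ho h1).elim
    | dir x' =>
      rcases h with ⟨h1, h2⟩ | ⟨h1, h2⟩
      · exact (pre1_arcV ho h1).elim
      · exact (pre1_arcV ho h1).elim
    | tb i' b' =>
      rcases h with ⟨h1, h2⟩ | ⟨h1, h2⟩
      · obtain ⟨h3, h4⟩ := pre1_arc ho ho h1
        have h5 := hy (pre1_Vinj h2).1
        rw [pre1_tlhd o i i' (hy h3) (hy h4)] at h5
        exact absurd h5.symm (pre1_ne o i')
      · exact (pre1_arcV ho h1).elim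
    | hd i' =>
      rcases h with ⟨h1, h2⟩ | ⟨h1, h2⟩
      · obtain ⟨h3, h4⟩ := pre1_arc ho ho h1
        rw [pre1_tlhd o i i' (hy h3) (hy h4)]
      · exact (pre1_arcV ho h1).elim

private theorem pre1_end {V : Type*} {Γ : Gam V} (y : Fin 4 → V) (o po : Fin 3 → Bool)
    (e : EE1) : ∃ x b, pre1U Γ y e = .inr (.inl (y x, b)) ∨
      pre1W Γ y o po e = .inr (.inl (y x, b)) := by
  cases e with
  | leg x b h => exact ⟨x, b, Or.inl rfl⟩
  | dir x => exact ⟨x, false, Or.inl rfl⟩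
  | tb i b => exact ⟨tl o i, b, Or.inr rfl⟩
  | hd i => exact ⟨hd o i, po i, Or.inr rfl⟩

private theorem pre1_far {V : Type*} {Γ : Gam V} {y : Fin 4 → V} {o po : Fin 3 → Bool}
    (ho : OrOK Γ y o po) {v : V} (hv : ∀ x, v ≠ y x) (b : Bool) (e : EE1) :
    (.inr (.inl (v, b)) : V1 Γ) ≠ pre1U Γ y e ∧ (.inr (.inl (v, b)) : V1 Γ) ≠ pre1W Γ y o po e := by
  cases e with
  | leg x b' h =>
    exact ⟨fun h1 => hv _ (pre1_Vinj h1).1, fun h1 => absurd h1 (by simp [pre1W])⟩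
  | dir x => exact ⟨fun h1 => hv _ (pre1_Vinj h1).1, fun h1 => hv _ (pre1_Vinj h1).1⟩
  | tb i b' => exact ⟨fun h1 => pre1_arcV ho h1.symm, fun h1 => hv _ (pre1_Vinj h1).1⟩
  | hd i => exact ⟨fun h1 => pre1_arcV ho h1.symm, fun h1 => hv _ (pre1_Vinj h1).1⟩

private theorem pre1_edge' {V : Type*} {Γ : Gam V} {y y' : Fin 4 → V} {o po : Fin 3 → Bool}
    (ho' : OrOK Γ y' o po) (hd : ∀ x x', y x ≠ y' x') (e e' : EE1) :
    s(pre1U Γ y e, pre1W Γ y o po e) ≠ s(pre1U Γ y' e', pre1W Γ y' o po e') := by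
  intro h
  rw [Sym2.eq_iff] at h
  obtain ⟨x, b, hx⟩ := pre1_end (Γ := Γ) y o po e
  obtain ⟨f1, f2⟩ := pre1_far ho' (hd x) b e'
  rcases hx with hx | hx <;> rcases h with ⟨h1, h2⟩ | ⟨h1, h2⟩
  · exact f1 (hx.symm.trans h1)
  · exact f2 (hx.symm.trans h1)
  · exact f2 (hx.symm.trans h2)
  · exact f1 (hx.symm.trans h2)

private theorem pre1_mem {a b : Pt} {s : Pt × Pt} (h : s = (a, b) ∨ s = (b, a)) (z : Pt) :
    z ∈ segment ℝ a b ↔ z ∈ segment ℝ s.1 s.2 := by
  rcases h with rfl | rfl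
  · exact Iff.rfl
  · rw [segment_symm]

private theorem pre1_mem' {a b : Pt} {s : Pt × Pt} (h : s = (a, b) ∨ s = (b, a)) (z : Pt) :
    z ∈ openSegment ℝ a b ↔ z ∈ openSegment ℝ s.1 s.2 := by
  rcases h with rfl | rfl
  · exact Iff.rfl
  · rw [openSegment_symm]

private theorem pre1_dot {a b a' b' : Pt} {s t : Pt × Pt} (h : s = (a, b) ∨ s = (b, a))
    (h' : t = (a', b') ∨ t = (b', a')) (e : dot (s.2 - s.1) (t.2 - t.1) = 0) :
    dot (b - a) (b' - a') = 0 := by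
  unfold dot at *
  rcases h with rfl | rfl <;> rcases h' with rfl | rfl <;>
    simp only [Prod.fst_sub, Prod.snd_sub] at * <;> linarith

/-- PRE1. Disjoint stars with the same orientations and ports form a family of clusters.

Proof. As `pre2` (file `PRE2.lean`): `pt t = pts1 Γ pos ch (y t) o po`; every chain has three points
`[pos u, p, pos w]`, and the reversed chain is `[pos w, p, pos u]`. Edges of the cluster and their
chains: leg `x b h`: `ch (inr (inl (y x, b))) (inl h) = [pt (v x b), pt (a x b h), pt (hub h)]`; `dir x`: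
`ch (inr (inl (y x, false))) (inr (inl (y x, true))) = [pt (v x false), pt (z x), pt (v x true)]`; `tb i b`:
`ch (arcV …) (inr (inl (y (tl o i), b))) = [pt (f i), pt (t i b), pt (v (tl o i) b)]`, `hd i`:
`[pt (f i), pt (r i), pt (v (hd o i) (po i))]` (adjacent in `G1 Γ` by `rel1`, `OrOK`). Segments which
are read in the direction opposite to the chain: `segment_symm`. The vertices `v x b`, `f i`, `hub h` of a
cluster have different images in `V1 Γ`, and those of different clusters too, except the hubs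
(`y t` is injective and the stars are disjoint; the arc vertices are different pairs). -/
theorem pre1 {V : Type*} {Γ : Gam V} {pos : V1 Γ → Pt} {ch : V1 Γ → V1 Γ → List Pt}
    (h : NDraw 1 (G1 Γ) pos ch) (N : ℕ) (y : ℕ → Fin 4 → V) (o po : Fin 3 → Bool)
    (hy : ∀ t, t < N → IsStar Γ (y t)) (ho : ∀ t, t < N → OrOK Γ (y t) o po)
    (hd : ∀ t u, t < N → u < N → t ≠ u → ∀ x x', y t x ≠ y u x') :
    ∃ PF : PreFam N PP1 SS1 EE1, PF.e1 = SS1.e1 o po ∧ PF.e2 = SS1.e2 ∧ PF.ed = SS1.ed ∧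
      PF.ver = PP1.ver ∧ PF.hub = PP1.isHub ∧ ∀ t, PF.pt t = pts1 Γ pos ch (y t) o po := by
  refine ⟨{
    pt := fun t => pts1 Γ pos ch (y t) o po
    e1 := SS1.e1 o po
    e2 := SS1.e2
    ed := SS1.ed
    ver := PP1.ver
    hub := PP1.isHub
    hub_ver := ?_
    hubc := ?_
    nd := ?_
    avoid := ?_
    same := ?_
    diff := ?_ }, rfl, rfl, rfl, rfl, rfl, fun _ => rfl⟩
  · intro p hp
    cases p <;> first | exact trivial | exact hp.elim
  · intro p hp t u
    cases p <;> first | rfl | exact hp.elim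
  · intro t ht σ e
    obtain ⟨s, -, hs, hne, -⟩ := pre1_seg h (ho t ht) σ
    rcases hs with rfl | rfl
    · exact hne e
    · exact hne e.symm
  · intro t ht σ p hp hmem
    obtain ⟨s, -, hs, -, hav⟩ := pre1_seg h (ho t ht) σ
    rw [pre1_mem hs, pre1_pos pos ch _ _ _ p hp] at hmem
    obtain ⟨p', hp', e, h1⟩ := hav _ hmem
    rw [pre1_inj (hy t ht).1 (ho t ht) hp' hp e] at h1
    exact h1
  · intro t ht σ τ hne z hz1 hz2
    obtain ⟨s, hsm, hs, -, hav⟩ := pre1_seg h (ho t ht) σ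
    obtain ⟨s', hsm', hs', -, hav'⟩ := pre1_seg h (ho t ht) τ
    rw [pre1_mem hs] at hz1
    rw [pre1_mem hs'] at hz2
    rcases h.cross _ _ _ _ (pre1_adj (ho t ht) σ.ed) (pre1_adj (ho t ht) τ.ed)
      (pre1_edge (hy t ht).1 (ho t ht) hne) s hsm s' hsm' z hz1 hz2 with
      ⟨w0, -, -, rfl⟩ | ⟨h1, h2, h3⟩
    · left
      obtain ⟨p, hp, e, h1⟩ := hav _ hz1
      obtain ⟨p', hp', e', h1'⟩ := hav' _ hz2
      have hpp : p = p' := pre1_inj (hy t ht).1 (ho t ht) hp hp' (e.trans e'.symm)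
      subst hpp
      exact ⟨p, hp, h1, h1', by rw [pre1_pos pos ch _ _ _ p hp, e]⟩
    · right
      exact ⟨(pre1_mem' hs z).2 h1, (pre1_mem' hs' z).2 h2, pre1_dot hs hs' h3⟩
  · intro t u ht hu htu σ τ z hz1 hz2
    obtain ⟨s, hsm, hs, -, hav⟩ := pre1_seg h (ho t ht) σ
    obtain ⟨s', hsm', hs', -, hav'⟩ := pre1_seg h (ho u hu) τ
    rw [pre1_mem hs] at hz1
    rw [pre1_mem hs'] at hz2
    rcases h.cross _ _ _ _ (pre1_adj (ho t ht) σ.ed) (pre1_adj (ho u hu) τ.ed)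
      (pre1_edge' (ho u hu) (hd t u ht hu htu) _ _) s hsm s' hsm' z hz1 hz2 with
      ⟨w0, -, -, rfl⟩ | ⟨h1, h2, h3⟩
    · left
      obtain ⟨p, hp, e, h1⟩ := hav _ hz1
      obtain ⟨p', hp', e', h1'⟩ := hav' _ hz2
      obtain ⟨hpp, hhub⟩ := pre1_hub (ho t ht) (ho u hu) (hd t u ht hu htu) hp hp'
        (e.trans e'.symm)
      subst hpp
      exact ⟨p, hhub, h1, h1', by rw [pre1_pos pos ch _ _ _ p hp, e]⟩
    · right
      exact ⟨(pre1_mem' hs z).2 h1, (pre1_mem' hs' z).2 h2, pre1_dot hs hs' h3⟩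

end Pool.Agent.RAC
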