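import Pool.Agent.Lib_MP_638f75_lc.H.PreDefs

/-!
# The family of star clusters in a drawing (two bends) (piece PRE2)
-/

namespace Pool.Agent.RAC

/-- one end of an edge of a star -/
private def pre2U {V : Type*} (y : Fin 4 → V) : EE2 → V2 V
  | .leg x _ => .inr (y x)
  | .ln _ => .inr (y 0)

/-- the other end -/
private def pre2W {V : Type*} (y : Fin 4 → V) : EE2 → V2 V
  | .leg _ h => .inl h
  | .ln i => .inr (y i.succ)

/-- the vertex with a given label -/
private def pre2X {V : Type*} (y : Fin 4 → V) : PP2 → V2 V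
  | .hub h => .inl h
  | .v x => .inr (y x)
  | _ => .inl 0

private theorem pre2_adj {V : Type*} {Γ : Gam V} {y : Fin 4 → V} (hy : IsStar Γ y) (e : EE2) :
    (G2 Γ).Adj (pre2U y e) (pre2W y e) := by
  cases e with
  | leg x h => exact trivial
  | ln i => exact hy.2 i

private theorem pre2_pos {V : Type*} (pos : V2 V → Pt) (ch : V2 V → V2 V → List Pt)
    (y : Fin 4 → V) (p : PP2) (hp : p.ver) : pts2 pos ch y p = pos (pre2X y p) := by
  cases p <;> first | rfl | exact hp.elim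

private theorem pre2_inj {V : Type*} {y : Fin 4 → V} (hy : Function.Injective y) {p p' : PP2}
    (hp : p.ver) (hp' : p'.ver) (e : pre2X y p = pre2X y p') : p = p' := by
  cases p <;> cases p' <;>
    first
    | exact hp.elim
    | exact hp'.elim
    | exact congrArg _ (Sum.inl.inj e)
    | exact congrArg _ (hy (Sum.inr.inj e))
    | exact absurd e (by simp [pre2X])

private theorem pre2_hub {V : Type*} {y y' : Fin 4 → V} (hd : ∀ x x', y x ≠ y' x') {p p' : PP2}
    (hp : p.ver) (hp' : p'.ver) (e : pre2X y p = pre2X y' p') : p = p' ∧ p.isHub := by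
  cases p <;> cases p' <;>
    first
    | exact hp.elim
    | exact hp'.elim
    | exact ⟨congrArg _ (Sum.inl.inj e), trivial⟩
    | exact absurd (Sum.inr.inj e) (hd _ _)
    | exact absurd e (by simp [pre2X])

private theorem pre2_chain {W : Type*} {G : SimpleGraph W} {pos : W → Pt}
    {ch : W → W → List Pt} (h : NDraw 2 G pos ch) {u w : W} (ha : G.Adj u w) :
    ch u w = [pos u, (ch u w).getD 1 0, (ch u w).getD 2 0, pos w] ∧
    pos u ≠ (ch u w).getD 1 0 ∧ (ch u w).getD 1 0 ≠ (ch u w).getD 2 0 ∧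
    (ch u w).getD 2 0 ≠ pos w ∧ (∀ w0, pos w0 ≠ (ch u w).getD 1 0) ∧
    (∀ w0, pos w0 ≠ (ch u w).getD 2 0) := by
  have hl := h.lenk u w ha
  have hh := h.head u w ha
  have hr := h.rev u w ha
  have hh' := h.head w u ha.symm
  have hn := h.nondeg u w ha
  have hav := h.avoid u w ha
  rw [hr] at hh'
  obtain ⟨a, b, c, d, hc⟩ : ∃ a b c d, ch u w = [a, b, c, d] := by
    rcases hc : ch u w with _ | ⟨a, _ | ⟨b, _ | ⟨c, _ | ⟨d, _ | ⟨e, l⟩⟩⟩⟩⟩
    all_goals rw [hc] at hl
    all_goals first | exact ⟨a, b, c, d, rfl⟩ | (exfalso; simp at hl)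
  rw [hc] at hh hh' hn hav ⊢
  have ea : a = pos u := by simpa using hh
  have ed : d = pos w := by simpa using hh'
  subst ea ed
  have hn' : pos u ≠ b ∧ b ≠ c ∧ c ≠ pos w := by simpa using hn
  obtain ⟨n1, n2, n3⟩ := hn'
  have hb : ∀ w0, pos w0 ≠ b := by
    intro w0 e
    rcases hav (b, c) (by simp [segs]) w0 (by rw [e]; exact left_mem_segment ℝ _ _) with
      ⟨-, h2⟩ | ⟨h1, h2⟩
    · exact n1 h2.symm
    · subst h1
      exact n2 (e.symm.trans h2.symm)
  have hcc : ∀ w0, pos w0 ≠ c := by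
    intro w0 e
    rcases hav (b, c) (by simp [segs]) w0 (by rw [e]; exact right_mem_segment ℝ _ _) with
      ⟨-, h2⟩ | ⟨h1, h2⟩
    · exact n1 h2.symm
    · exact n3 h2
  exact ⟨rfl, n1, n2, n3, hb, hcc⟩

/-- the segment of the chain which belongs to a segment of the cluster -/
private theorem pre2_seg {V : Type*} {Γ : Gam V} {pos : V2 V → Pt} {ch : V2 V → V2 V → List Pt}
    (h : NDraw 2 (G2 Γ) pos ch) {y : Fin 4 → V} (hy : IsStar Γ y) (σ : SS2) :
    ∃ s ∈ segs (ch (pre2U y σ.ed) (pre2W y σ.ed)),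
      (s = (pts2 pos ch y σ.e1, pts2 pos ch y σ.e2) ∨
        s = (pts2 pos ch y σ.e2, pts2 pos ch y σ.e1)) ∧ s.1 ≠ s.2 ∧
      ∀ w0, pos w0 ∈ segment ℝ s.1 s.2 → ∃ p : PP2, p.ver ∧ pre2X y p = w0 ∧
        (p = σ.e1 ∨ p = σ.e2) := by
  obtain ⟨hc, n1, n2, n3, hb, hcc⟩ := pre2_chain h (pre2_adj hy σ.ed)
  have hav := h.avoid _ _ (pre2_adj hy σ.ed)
  have m0 : (pos (pre2U y σ.ed), (ch (pre2U y σ.ed) (pre2W y σ.ed)).getD 1 0) ∈
      segs (ch (pre2U y σ.ed) (pre2W y σ.ed)) := by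
    rw [hc]; simp [segs]
  have m1 : ((ch (pre2U y σ.ed) (pre2W y σ.ed)).getD 1 0,
      (ch (pre2U y σ.ed) (pre2W y σ.ed)).getD 2 0) ∈
      segs (ch (pre2U y σ.ed) (pre2W y σ.ed)) := by
    rw [hc]; simp [segs]
  have m2 : ((ch (pre2U y σ.ed) (pre2W y σ.ed)).getD 2 0, pos (pre2W y σ.ed)) ∈
      segs (ch (pre2U y σ.ed) (pre2W y σ.ed)) := by
    rw [hc]; simp [segs]
  have a0 : ∀ w0, pos w0 ∈ segment ℝ (pos (pre2U y σ.ed))
      ((ch (pre2U y σ.ed) (pre2W y σ.ed)).getD 1 0) → w0 = pre2U y σ.ed := by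
    intro w0 hw
    rcases hav _ m0 w0 hw with ⟨h1, -⟩ | ⟨-, h2⟩
    · exact h1
    · exact absurd h2.symm (hb _)
  have a1 : ∀ w0, ¬ pos w0 ∈ segment ℝ ((ch (pre2U y σ.ed) (pre2W y σ.ed)).getD 1 0)
      ((ch (pre2U y σ.ed) (pre2W y σ.ed)).getD 2 0) := by
    intro w0 hw
    rcases hav _ m1 w0 hw with ⟨-, h2⟩ | ⟨-, h2⟩
    · exact hb _ h2.symm
    · exact hcc _ h2.symm
  have a2 : ∀ w0, pos w0 ∈ segment ℝ ((ch (pre2U y σ.ed) (pre2W y σ.ed)).getD 2 0)
      (pos (pre2W y σ.ed)) → w0 = pre2W y σ.ed := by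
    intro w0 hw
    rcases hav _ m2 w0 hw with ⟨-, h2⟩ | ⟨h1, -⟩
    · exact absurd h2.symm (hcc _)
    · exact h1
  cases σ with
  | A x k => exact ⟨_, m0, Or.inl rfl, n1, fun w0 hw => ⟨.v x, trivial, (a0 w0 hw).symm, Or.inl rfl⟩⟩
  | M x k => exact ⟨_, m1, Or.inl rfl, n2, fun w0 hw => absurd hw (a1 w0)⟩
  | B x k =>
    exact ⟨_, m2, Or.inl rfl, n3, fun w0 hw => ⟨.hub k, trivial, (a2 w0 hw).symm, Or.inr rfl⟩⟩
  | Z i => exact ⟨_, m0, Or.inl rfl, n1, fun w0 hw => ⟨.v 0, trivial, (a0 w0 hw).symm, Or.inl rfl⟩⟩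
  | mu i => exact ⟨_, m1, Or.inl rfl, n2, fun w0 hw => absurd hw (a1 w0)⟩
  | Z' i =>
    exact ⟨_, m2, Or.inr rfl, n3,
      fun w0 hw => ⟨.v i.succ, trivial, (a2 w0 hw).symm, Or.inl rfl⟩⟩

private theorem pre2_edge {V : Type*} {y : Fin 4 → V} (hy : Function.Injective y) {e e' : EE2}
    (he : e ≠ e') : s(pre2U y e, pre2W y e) ≠ s(pre2U y e', pre2W y e') := by
  intro h
  rw [Sym2.eq_iff] at h
  apply he
  cases e with
  | leg x k =>
    cases e' with
    | leg x' k' =>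
      rcases h with ⟨h1, h2⟩ | ⟨h1, h2⟩
      · rw [hy (Sum.inr.inj h1), Sum.inl.inj h2]
      · exact absurd h1 (by simp [pre2U, pre2W])
    | ln i =>
      rcases h with ⟨h1, h2⟩ | ⟨h1, h2⟩
      · exact absurd h2 (by simp [pre2W])
      · exact absurd h2 (by simp [pre2U, pre2W])
  | ln i =>
    cases e' with
    | leg x' k' =>
      rcases h with ⟨h1, h2⟩ | ⟨h1, h2⟩
      · exact absurd h2 (by simp [pre2W])
      · exact absurd h1 (by simp [pre2U, pre2W])
    | ln i' =>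
      rcases h with ⟨h1, h2⟩ | ⟨h1, h2⟩
      · rw [Fin.succ_injective _ (hy (Sum.inr.inj h2))]
      · exact absurd (hy (Sum.inr.inj h1)) (Fin.succ_ne_zero i').symm

private theorem pre2_edge' {V : Type*} {y y' : Fin 4 → V} (hd : ∀ x x', y x ≠ y' x')
    (e e' : EE2) : s(pre2U y e, pre2W y e) ≠ s(pre2U y' e', pre2W y' e') := by
  intro h
  rw [Sym2.eq_iff] at h
  cases e with
  | leg x k =>
    cases e' with
    | leg x' k' =>
      rcases h with ⟨h1, h2⟩ | ⟨h1, h2⟩
      · exact hd _ _ (Sum.inr.inj h1)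
      · exact absurd h1 (by simp [pre2U, pre2W])
    | ln i =>
      rcases h with ⟨h1, h2⟩ | ⟨h1, h2⟩
      · exact hd _ _ (Sum.inr.inj h1)
      · exact hd _ _ (Sum.inr.inj h1)
  | ln i =>
    cases e' with
    | leg x' k' =>
      rcases h with ⟨h1, h2⟩ | ⟨h1, h2⟩
      · exact hd _ _ (Sum.inr.inj h1)
      · exact hd _ _ (Sum.inr.inj h2)
    | ln i' =>
      rcases h with ⟨h1, h2⟩ | ⟨h1, h2⟩
      · exact hd _ _ (Sum.inr.inj h1)
      · exact hd _ _ (Sum.inr.inj h1)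

private theorem pre2_mem {a b : Pt} {s : Pt × Pt} (h : s = (a, b) ∨ s = (b, a)) (z : Pt) :
    z ∈ segment ℝ a b ↔ z ∈ segment ℝ s.1 s.2 := by
  rcases h with rfl | rfl
  · exact Iff.rfl
  · rw [segment_symm]

private theorem pre2_mem' {a b : Pt} {s : Pt × Pt} (h : s = (a, b) ∨ s = (b, a)) (z : Pt) :
    z ∈ openSegment ℝ a b ↔ z ∈ openSegment ℝ s.1 s.2 := by
  rcases h with rfl | rfl
  · exact Iff.rfl
  · rw [openSegment_symm]

private theorem pre2_dot {a b a' b' : Pt} {s t : Pt × Pt} (h : s = (a, b) ∨ s = (b, a))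
    (h' : t = (a', b') ∨ t = (b', a')) (e : dot (s.2 - s.1) (t.2 - t.1) = 0) :
    dot (b - a) (b' - a') = 0 := by
  unfold dot at *
  rcases h with rfl | rfl <;> rcases h' with rfl | rfl <;>
    simp only [Prod.fst_sub, Prod.snd_sub] at * <;> linarith

/-- PRE2. Disjoint stars form a family of clusters.

Proof. `pt t = pts2 pos ch (y t)`. `y t` for `t ≥ N` does not matter (`hub_ver`, `hubc` are trivial: `hub h`
goes to `pos (inl h)`). Let `ι t : PP2 → V2 V` on vertices: `hub h ↦ inl h`, `v x ↦ inr (y t x)`. For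
every adjacent pair `u, w` of the graph the chain is `[pos u, p, q, pos w]` (`lenk`, `head`, `rev`), and
the reversed chain `[pos w, q, p, pos u]`, so the three segments of the cluster edges are the
segments of the chains: e.g. leg `x h`: `ch (inr (y t x)) (inl h) = [pt (v x), pt (a x h), pt (b x h), pt
(hub h)]`, edge `ln i`: `ch (inr (y t 0)) (inr (y t i.succ)) = [pt (v 0), pt (z i), pt (z' i), pt (v
i.succ)]` (adjacent by `IsStar`; `Z' i` is the last segment reversed: use `segment_symm`,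
`openSegment_symm` and the sign of `dot`). `nd` is `nondeg`. `avoid`: `WeakDraw.avoid`, and `pos` is injective,
`y t` is injective: the vertex is the first point of the first segment or the last point of the
last segment. `same`, `diff`: `WeakDraw.cross` for the two edges (different: in `same` since
`ed σ ≠ ed τ` are different legs or edges of the cluster, `y t` injective; in `diff` since every
edge has an end `inr (y t x)` and the stars are disjoint); in the first alternative of `cross` the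
common point is the position of a common vertex `w` of the two edges; by `avoid` it is the end point of
both segments; in `diff` a common vertex of edges of disjoint stars is a hub. -/
theorem pre2 {V : Type*} {Γ : Gam V} {pos : V2 V → Pt} {ch : V2 V → V2 V → List Pt}
    (h : NDraw 2 (G2 Γ) pos ch) (N : ℕ) (y : ℕ → Fin 4 → V)
    (hy : ∀ t, t < N → IsStar Γ (y t))
    (hd : ∀ t u, t < N → u < N → t ≠ u → ∀ x x', y t x ≠ y u x') :
    ∃ PF : PreFam N PP2 SS2 EE2, PF.e1 = SS2.e1 ∧ PF.e2 = SS2.e2 ∧ PF.ed = SS2.ed ∧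
      PF.ver = PP2.ver ∧ PF.hub = PP2.isHub ∧ ∀ t, PF.pt t = pts2 pos ch (y t) := by
  refine ⟨{
    pt := fun t => pts2 pos ch (y t)
    e1 := SS2.e1
    e2 := SS2.e2
    ed := SS2.ed
    ver := PP2.ver
    hub := PP2.isHub
    hub_ver := ?_
    hubc := ?_
    nd := ?_
    avoid := ?_
    same := ?_
    diff := ?_ }, rfl, rfl, rfl, rfl, rfl, fun _ => rfl⟩
  · intro p hp
    cases p <;> first | exact trivial | exact hp.elim
  · intro p hp t u
    cases p <;> first | rfl | exact hp.elim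
  · intro t ht σ e
    obtain ⟨s, -, hs, hne, -⟩ := pre2_seg h (hy t ht) σ
    rcases hs with rfl | rfl
    · exact hne e
    · exact hne e.symm
  · intro t ht σ p hp hmem
    obtain ⟨s, -, hs, -, hav⟩ := pre2_seg h (hy t ht) σ
    rw [pre2_mem hs, pre2_pos pos ch _ p hp] at hmem
    obtain ⟨p', hp', e, h1⟩ := hav _ hmem
    rw [pre2_inj (hy t ht).1 hp' hp e] at h1
    exact h1
  · intro t ht σ τ hne z hz1 hz2
    obtain ⟨s, hsm, hs, -, hav⟩ := pre2_seg h (hy t ht) σ
    obtain ⟨s', hsm', hs', -, hav'⟩ := pre2_seg h (hy t ht) τ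
    rw [pre2_mem hs] at hz1
    rw [pre2_mem hs'] at hz2
    rcases h.cross _ _ _ _ (pre2_adj (hy t ht) σ.ed) (pre2_adj (hy t ht) τ.ed)
      (pre2_edge (hy t ht).1 hne) s hsm s' hsm' z hz1 hz2 with ⟨w0, -, -, rfl⟩ | ⟨h1, h2, h3⟩
    · left
      obtain ⟨p, hp, e, h1⟩ := hav _ hz1
      obtain ⟨p', hp', e', h1'⟩ := hav' _ hz2
      have hpp : p = p' := pre2_inj (hy t ht).1 hp hp' (e.trans e'.symm)
      subst hpp
      exact ⟨p, hp, h1, h1', by rw [pre2_pos pos ch _ p hp, e]⟩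
    · right
      exact ⟨(pre2_mem' hs z).2 h1, (pre2_mem' hs' z).2 h2, pre2_dot hs hs' h3⟩
  · intro t u ht hu htu σ τ z hz1 hz2
    obtain ⟨s, hsm, hs, -, hav⟩ := pre2_seg h (hy t ht) σ
    obtain ⟨s', hsm', hs', -, hav'⟩ := pre2_seg h (hy u hu) τ
    rw [pre2_mem hs] at hz1
    rw [pre2_mem hs'] at hz2
    rcases h.cross _ _ _ _ (pre2_adj (hy t ht) σ.ed) (pre2_adj (hy u hu) τ.ed)
      (pre2_edge' (hd t u ht hu htu) _ _) s hsm s' hsm' z hz1 hz2 with
      ⟨w0, -, -, rfl⟩ | ⟨h1, h2, h3⟩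
    · left
      obtain ⟨p, hp, e, h1⟩ := hav _ hz1
      obtain ⟨p', hp', e', h1'⟩ := hav' _ hz2
      obtain ⟨hpp, hhub⟩ := pre2_hub (hd t u ht hu htu) hp hp' (e.trans e'.symm)
      subst hpp
      exact ⟨p, hhub, h1, h1', by rw [pre2_pos pos ch _ p hp, e]⟩
    · right
      exact ⟨(pre2_mem' hs z).2 h1, (pre2_mem' hs' z).2 h2, pre2_dot hs hs' h3⟩

end Pool.Agent.RAC
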