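import Pool.Agent.Lib_MP_638f75_lc.H.PreDefs

/-!
# Homogeneous subfamilies (piece RAMF)
-/

namespace Pool.Agent.RAC

/-- the type of the colours of the pairs of clusters -/
abbrev RAMFCol (P S : Type) : Type :=
  (S → S → Prop) × ((Bool × P → Bool × P → Bool × P → Bool × P → SignType) ×
    (Bool × P → Bool × P → Bool × P → Bool × P → SignType))

/-- the colour of a pair of clusters -/
noncomputable def ramfCol {N : ℕ} {P S E : Type} (PF : PreFam N P S E) (t u : ℕ) : RAMFCol P S :=
  (fun σ τ => Xx (PF.pt t (PF.e1 σ), PF.pt t (PF.e2 σ)) (PF.pt u (PF.e1 τ), PF.pt u (PF.e2 τ)),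
    fun a b c d =>
      SignType.sign (dot (PF.pt (cond b.1 u t) b.2 - PF.pt (cond a.1 u t) a.2)
        (PF.pt (cond d.1 u t) d.2 - PF.pt (cond c.1 u t) c.2)),
    fun a b c d =>
      SignType.sign (crs (PF.pt (cond b.1 u t) b.2 - PF.pt (cond a.1 u t) a.2)
        (PF.pt (cond d.1 u t) d.2 - PF.pt (cond c.1 u t) c.2)))

/-- RAMF. Every sufficiently large family of clusters contains a homogeneous subfamily.

Proof. `ramsey'` for the colours
`κ = (S × S → Prop or Bool) × ((Bool × P)^4 → SignType) × ((Bool × P)^4 → SignType)` (finite), the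
colour of `(t, u)` being: for `(σ, τ)` whether `Xx (pt t (e1 σ), pt t (e2 σ)) (pt u (e1 τ), pt u (e2 τ))`,
for `(a, b, c, d)` the signs of `dot` and `crs` of the vectors in `homD`, `homC`. Let `g` be the
increasing map, `F.pt t := PF.pt (g t)`, the other data as in `PF`. For `t < u < n`: `g t < g u < N`. -/
theorem ramF (P S E : Type) [Finite P] [Finite S] (n : ℕ) : ∃ N, ∀ PF : PreFam N P S E,
    ∃ (F : Fam n P S E) (g : ℕ → ℕ), F.e1 = PF.e1 ∧ F.e2 = PF.e2 ∧ F.ed = PF.ed ∧
      F.ver = PF.ver ∧ F.hub = PF.hub ∧ (∀ i, i < n → g i < N) ∧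
      ∀ i, F.pt i = PF.pt (g i) := by
  have h0 : Finite (S → S → Prop) := inferInstance
  have h1 : Finite (Bool × P) := inferInstance
  have hs : Finite SignType := inferInstance
  have h2 : Finite (Bool × P → SignType) := inferInstance
  have h3 : Finite (Bool × P → Bool × P → SignType) := inferInstance
  have h4 : Finite (Bool × P → Bool × P → Bool × P → SignType) := inferInstance
  have h5 : Finite (Bool × P → Bool × P → Bool × P → Bool × P → SignType) := inferInstance
  have : Finite (RAMFCol P S) := by unfold RAMFCol; infer_instance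
  obtain ⟨N, hN⟩ := ramsey' (RAMFCol P S) n
  refine ⟨N, fun PF => ?_⟩
  obtain ⟨g, hg, hgN, hc⟩ := hN (ramfCol PF)
  have hne : ∀ t u, t < n → u < n → t ≠ u → g t ≠ g u := by
    intro t u ht hu htu
    rcases lt_or_gt_of_ne htu with h | h
    · exact (hg t u h hu).ne
    · exact (hg u t h ht).ne'
  have hcb : ∀ (b : Bool) (u t : ℕ), g (cond b u t) = cond b (g u) (g t) := by
    intro b u t
    cases b <;> rfl
  refine ⟨⟨fun t => PF.pt (g t), PF.e1, PF.e2, PF.ed, PF.ver, PF.hub, PF.hub_ver,
    fun p hp t u => PF.hubc p hp _ _, fun t ht σ => PF.nd _ (hgN t ht) σ,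
    fun t ht => PF.avoid _ (hgN t ht), fun t ht => PF.same _ (hgN t ht),
    fun t u ht hu htu => PF.diff _ _ (hgN t ht) (hgN u hu) (hne t u ht hu htu), ?_, ?_, ?_⟩,
    g, rfl, rfl, rfl, rfl, rfl, hgN, fun _ => rfl⟩
  · intro σ τ t u t' u' htu hu htu' hu'
    have h := congrFun (congrFun (congrArg Prod.fst (hc t u t' u' htu hu htu' hu')) σ) τ
    exact iff_of_eq h
  · intro a b c d t u t' u' htu hu htu' hu'
    have h := congrFun (congrFun (congrFun (congrFun
      (congrArg (fun z => z.2.1) (hc t u t' u' htu hu htu' hu')) a) b) c) d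
    simp only [ramfCol] at h
    simp only [hcb]
    exact h
  · intro a b c d t u t' u' htu hu htu' hu'
    have h := congrFun (congrFun (congrFun (congrFun
      (congrArg (fun z => z.2.2) (hc t u t' u' htu hu htu' hu')) a) b) c) d
    simp only [ramfCol] at h
    simp only [hcb]
    exact h

end Pool.Agent.RAC
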