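import Pool.Agent.Lib_MP_638f75_lc.H.PreDefs

/-!
# Good stars give a decomposition into two linear forests (one bend) (piece TLF1)
-/

namespace Pool.Agent.RAC

private theorem tlf1_cross {A f f' : Pt} (hA : A ≠ 0) (h : dot A f = 0) (h' : dot A f' = 0) :
    f.1 * f'.2 = f.2 * f'.1 := by
  obtain ⟨a, b⟩ := A
  simp only [dot] at h h'
  have h1 : a * (f.1 * f'.2 - f.2 * f'.1) = 0 := by linear_combination f'.2 * h - f.2 * h'
  have h2 : b * (f.1 * f'.2 - f.2 * f'.1) = 0 := by linear_combination (-f'.1) * h + f.1 * h'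
  by_contra hne
  have h3 : f.1 * f'.2 - f.2 * f'.1 ≠ 0 := sub_ne_zero.2 hne
  have h4 : a = 0 := (mul_eq_zero.1 h1).resolve_right h3
  have h5 : b = 0 := (mul_eq_zero.1 h2).resolve_right h3
  exact hA (by rw [h4, h5]; rfl)

private theorem tlf1_eq {f f' : Pt} (h1 : dot f f = 1) (h2 : 0 < f.1) (h1' : dot f' f' = 1)
    (h2' : 0 < f'.1) (hc : f.1 * f'.2 = f.2 * f'.1) : f = f' := by
  obtain ⟨x, y⟩ := f
  obtain ⟨x', y'⟩ := f'
  simp only [dot] at h1 h2 h1' h2' hc
  have h3 : x ^ 2 = x' ^ 2 := by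
    linear_combination (x' ^ 2) * h1 - x ^ 2 * h1' + (x * y' + y * x') * hc
  have h4 : x = x' := by
    have h5 : (x - x') * (x + x') = 0 := by linear_combination h3
    rcases mul_eq_zero.1 h5 with h6 | h6
    · linarith
    · exfalso; linarith
  subst h4
  have h5 : x * (y' - y) = 0 := by linear_combination hc
  rcases mul_eq_zero.1 h5 with h6 | h6
  · exfalso; linarith
  · have : y = y' := by linarith
    rw [this]

private theorem tlf1_uni {A f f' : Pt} (hA : A ≠ 0) (h1 : dot f f = 1) (h2 : 0 < f.1)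
    (h3 : 0 ≤ f.2) (h4 : dot A f = 0 ∨ dot A (J f) = 0) (h1' : dot f' f' = 1) (h2' : 0 < f'.1)
    (h3' : 0 ≤ f'.2) (h4' : dot A f' = 0 ∨ dot A (J f') = 0) : f = f' := by
  have hp : 0 < f.1 * f'.1 + f.2 * f'.2 := by
    have := mul_pos h2 h2'
    have := mul_nonneg h3 h3'
    linarith
  rcases h4 with h4 | h4 <;> rcases h4' with h4' | h4'
  · exact tlf1_eq h1 h2 h1' h2' (tlf1_cross hA h4 h4')
  · exfalso
    have := tlf1_cross hA h4 h4'
    simp only [J] at this
    linarith
  · exfalso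
    have := tlf1_cross hA h4 h4'
    simp only [J] at this
    linarith
  · have := tlf1_cross hA h4 h4'
    simp only [J] at this
    exact tlf1_eq h1 h2 h1' h2' (by linarith)

private theorem tlf1_nd {W : Type*} {G : SimpleGraph W} {pos : W → Pt} {ch : W → W → List Pt}
    (h : NDraw 1 G pos ch) {u w : W} (ha : G.Adj u w) : (ch u w).getD 1 0 - pos u ≠ 0 := by
  have hl := h.lenk u w ha
  have hh := h.head u w ha
  have hn := h.nondeg u w ha
  obtain ⟨a, b, c, hc⟩ := List.length_eq_three.1 hl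
  rw [hc] at hh hn ⊢
  have h1 : a = pos u := by simpa using hh
  have h2 : a ≠ b := by
    have := List.isChain_cons_cons.1 hn
    exact this.1
  rw [← h1]
  exact sub_ne_zero.2 h2.symm

section

variable {V : Type*} {Γ : Gam V}

/-- the arm `h` of `v` in the copy `t` -/
private def tlf1A {M : ℕ} (pos : V1 (Γ.copies M) → Pt)
    (ch : V1 (Γ.copies M) → V1 (Γ.copies M) → List Pt) (t : Fin M) (v : V) (h : Fin 4) : Pt :=
  (ch (.inr (.inl ((t, v), false))) (.inl h)).getD 1 0 - pos (.inr (.inl ((t, v), false)))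

open Classical in
/-- the vertex of the head in the copy `t` -/
private noncomputable def tlf1H (Γ : Gam V) {M : ℕ} (t : Fin M) (v w : V) : V1 (Γ.copies M) :=
  if Γ.ed v w then .inr (.inl ((t, w), Γ.pt v w)) else .inr (.inl ((t, v), Γ.pt w v))

/-- the middle direction of an arc -/
private noncomputable def tlf1mu {M : ℕ} (pos : V1 (Γ.copies M) → Pt)
    (ch : V1 (Γ.copies M) → V1 (Γ.copies M) → List Pt) (t : Fin M) (v w : V) : Pt :=
  (ch (arcV (Γ.copies M) (t, v) (t, w)) (tlf1H Γ t v w)).getD 1 0 -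
    pos (arcV (Γ.copies M) (t, v) (t, w))

private theorem tlf1_arc {M : ℕ} (t : Fin M) {v w : V} (h : Γ.ed v w) :
    arcV (Γ.copies M) (t, v) (t, w) = .inr (.inr ⟨((t, v), (t, w)), ⟨rfl, h⟩⟩) := by
  have h' : (Γ.copies M).ed (t, v) (t, w) := ⟨rfl, h⟩
  unfold arcV
  rw [dif_pos h']

private theorem tlf1_arc' {M : ℕ} (t : Fin M) {v w : V} (h : Γ.ed v w) :
    arcV (Γ.copies M) (t, w) (t, v) = .inr (.inr ⟨((t, v), (t, w)), ⟨rfl, h⟩⟩) := by
  have h' : (Γ.copies M).ed (t, v) (t, w) := ⟨rfl, h⟩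
  have h'' : ¬ (Γ.copies M).ed (t, w) (t, v) := (Γ.copies M).asym _ _ h'
  unfold arcV
  rw [dif_neg h'', dif_pos h']

private theorem tlf1_H {M : ℕ} (t : Fin M) {v w : V} (h : Γ.ed v w) :
    tlf1H Γ t v w = .inr (.inl ((t, w), Γ.pt v w)) := by
  unfold tlf1H
  rw [if_pos h]

private theorem tlf1_H' {M : ℕ} (t : Fin M) {v w : V} (h : Γ.ed v w) :
    tlf1H Γ t w v = .inr (.inl ((t, w), Γ.pt v w)) := by
  have h' : ¬ Γ.ed w v := Γ.asym _ _ h
  unfold tlf1H
  rw [if_neg h']

private theorem tlf1_mu_symm {M : ℕ} {pos : V1 (Γ.copies M) → Pt}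
    {ch : V1 (Γ.copies M) → V1 (Γ.copies M) → List Pt} (t : Fin M) {v w : V} (h : Γ.Nb v w) :
    tlf1mu pos ch t v w = tlf1mu pos ch t w v := by
  unfold tlf1mu
  rcases h with h | h
  · rw [tlf1_arc t h, tlf1_arc' t h, tlf1_H t h, tlf1_H' t h]
  · rw [tlf1_arc t h, tlf1_arc' t h, tlf1_H t h, tlf1_H' t h]

private theorem tlf1_mu_ne {M : ℕ} {pos : V1 (Γ.copies M) → Pt}
    {ch : V1 (Γ.copies M) → V1 (Γ.copies M) → List Pt} (hd : NDraw 1 (G1 (Γ.copies M)) pos ch)
    (t : Fin M) {v w : V} (h : Γ.Nb v w) : tlf1mu pos ch t v w ≠ 0 := by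
  have key : ∀ v w, Γ.ed v w → tlf1mu pos ch t v w ≠ 0 := by
    intro v w h
    unfold tlf1mu
    rw [tlf1_arc t h, tlf1_H t h]
    refine tlf1_nd hd ?_
    exact Or.inl (Or.inr ⟨rfl, rfl⟩)
  rcases h with h | h
  · exact key v w h
  · rw [tlf1_mu_symm t (Or.inr h)]
    exact key w v h

private theorem tlf1_A_ne {M : ℕ} {pos : V1 (Γ.copies M) → Pt}
    {ch : V1 (Γ.copies M) → V1 (Γ.copies M) → List Pt} (hd : NDraw 1 (G1 (Γ.copies M)) pos ch)
    (t : Fin M) (v : V) (h : Fin 4) : tlf1A pos ch t v h ≠ 0 :=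
  tlf1_nd hd (Or.inr trivial)

/-- the frame of a vertex -/
private def tlf1Fr {M : ℕ} (pos : V1 (Γ.copies M) → Pt)
    (ch : V1 (Γ.copies M) → V1 (Γ.copies M) → List Pt) (t : Fin M) (v : V) (f : Pt) : Prop :=
  dot f f = 1 ∧ 0 < f.1 ∧ 0 ≤ f.2 ∧
    ∀ h, dot (tlf1A pos ch t v h) f = 0 ∨ dot (tlf1A pos ch t v h) (J f) = 0

private theorem tlf1_Fr_uni {M : ℕ} {pos : V1 (Γ.copies M) → Pt}
    {ch : V1 (Γ.copies M) → V1 (Γ.copies M) → List Pt} (hd : NDraw 1 (G1 (Γ.copies M)) pos ch)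
    (t : Fin M) (v : V) {f f' : Pt} (h : tlf1Fr pos ch t v f) (h' : tlf1Fr pos ch t v f') :
    f = f' :=
  tlf1_uni (tlf1_A_ne hd t v 0) h.1 h.2.1 h.2.2.1 (h.2.2.2 0) h'.1 h'.2.1 h'.2.2.1 (h'.2.2.2 0)

private theorem tlf1_or {y : Fin 4 → V} (hy : IsStar Γ y) : ∃ o po, OrOK Γ y o po := by
  classical
  refine ⟨fun i => decide (Γ.ed (y 0) (y i.succ)), fun i =>
    if Γ.ed (y 0) (y i.succ) then Γ.pt (y 0) (y i.succ) else Γ.pt (y i.succ) (y 0), ?_⟩
  intro i
  by_cases h : Γ.ed (y 0) (y i.succ)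
  · have h1 : tl (fun i => decide (Γ.ed (y 0) (y i.succ))) i = 0 := by simp [tl, h]
    have h2 : hd (fun i => decide (Γ.ed (y 0) (y i.succ))) i = i.succ := by simp [hd, h]
    rw [h1, h2]
    refine ⟨h, ?_⟩
    simp only [if_pos h]
  · have h1 : tl (fun i => decide (Γ.ed (y 0) (y i.succ))) i = i.succ := by simp [tl, h]
    have h2 : hd (fun i => decide (Γ.ed (y 0) (y i.succ))) i = 0 := by simp [hd, h]
    rw [h1, h2]
    refine ⟨(hy.2 i).resolve_left h, ?_⟩
    simp only [if_neg h]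

private theorem tlf1_Nb_ne {v w : V} (h : Γ.Nb v w) : v ≠ w := by
  rcases h with h | h
  · exact Γ.irr _ _ h
  · exact (Γ.irr _ _ h).symm

private theorem tlf1_star {v w w' : V} (hΓ : Γ.Deg3) (h : Γ.Nb v w) (h' : Γ.Nb v w')
    (hne : w ≠ w') : ∃ y : Fin 4 → V, IsStar Γ y ∧ y 0 = v ∧ y 1 = w ∧ y 2 = w' := by
  obtain ⟨u, hu, hn⟩ := hΓ v
  have hex : ∃ j, u j ≠ w ∧ u j ≠ w' := by
    by_contra hcon
    push Not at hcon
    have h0 := hcon 0
    have h1 := hcon 1
    have h2 := hcon 2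
    have d01 : u 0 ≠ u 1 := fun e => absurd (hu e) (by decide)
    have d02 : u 0 ≠ u 2 := fun e => absurd (hu e) (by decide)
    have d12 : u 1 ≠ u 2 := fun e => absurd (hu e) (by decide)
    by_cases e0 : u 0 = w
    · by_cases e1 : u 1 = w
      · exact d01 (e0.trans e1.symm)
      · by_cases e2 : u 2 = w
        · exact d02 (e0.trans e2.symm)
        · exact d12 ((h1 e1).trans (h2 e2).symm)
    · by_cases e1 : u 1 = w
      · by_cases e2 : u 2 = w
        · exact d12 (e1.trans e2.symm)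
        · exact d02 ((h0 e0).trans (h2 e2).symm)
      · exact d01 ((h0 e0).trans (h1 e1).symm)
  obtain ⟨j, hj1, hj2⟩ := hex
  have hvj := hn j
  have n1 := tlf1_Nb_ne h
  have n2 := tlf1_Nb_ne h'
  have n3 := tlf1_Nb_ne hvj
  refine ⟨![v, w, w', u j], ⟨?_, ?_⟩, rfl, rfl, rfl⟩
  · intro a b hab
    fin_cases a <;> fin_cases b <;>
      first
        | rfl
        | exact absurd hab n1
        | exact absurd hab n1.symm
        | exact absurd hab n2
        | exact absurd hab n2.symm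
        | exact absurd hab n3
        | exact absurd hab n3.symm
        | exact absurd hab hne
        | exact absurd hab hne.symm
        | exact absurd hab hj1
        | exact absurd hab hj1.symm
        | exact absurd hab hj2
        | exact absurd hab hj2.symm
  · intro i
    fin_cases i
    · exact h
    · exact h'
    · exact hvj

private theorem tlf1_mu_eq {M : ℕ} {pos : V1 (Γ.copies M) → Pt}
    {ch : V1 (Γ.copies M) → V1 (Γ.copies M) → List Pt} (t : Fin M) {y : Fin 4 → V}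
    {o po : Fin 3 → Bool} (ho : OrOK Γ y o po) (i : Fin 3) :
    pts1 (Γ.copies M) pos ch (fun x => (t, y x)) o po (.r i) -
      pts1 (Γ.copies M) pos ch (fun x => (t, y x)) o po (.f i) =
      tlf1mu pos ch t (y 0) (y i.succ) := by
  have hi := ho i
  have hH : tlf1H Γ t (y 0) (y i.succ) = .inr (.inl ((t, y (hd o i)), po i)) := by
    cases hoi : o i with
    | true =>
      have h1 : tl o i = 0 := by simp [tl, hoi]
      have h2 : hd o i = i.succ := by simp [hd, hoi]
      rw [h1, h2] at hi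
      rw [h2, tlf1_H t hi.1, hi.2]
    | false =>
      have h1 : tl o i = i.succ := by simp [tl, hoi]
      have h2 : hd o i = 0 := by simp [hd, hoi]
      rw [h1, h2] at hi
      rw [h2, tlf1_H' t hi.1, hi.2]
  unfold tlf1mu
  rw [hH]
  rfl

end

/-- TLF1. If all stars in a copy of `Γ` are good then `Γ` decomposes into two linear forests.

Proof. Every star `y` has orientations and ports `o`, `po` with `OrOK Γ y o po` (`o i` true iff
`Γ.ed (y 0) (y i.succ)`). Write `ι v b = inr (inl ((t, v), b))`, and for a vertex `v`: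
`A v h = bend of ch (ι v false) (inl h) - pos (ι v false)`; for neighbours `v, w`: `μ v w` = (bend of the chain from
the vertex of the arc to the vertex `(head, port)`) `-` (position of the vertex of the arc), which is
symmetric: `μ v w = μ w v` (`arcV` is symmetric for neighbours by `asym`; the head and the port depend
only on the arc). `Fr v f`: `dot f f = 1`, `0 < f.1`, `0 ≤ f.2` and all `A v h` are perpendicular to `f` or
`J f`. `Fr v f`, `Fr v f'` imply `f = f'`: `A v 0 ≠ 0` (`nondeg`) is parallel to one of the axes of both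
frames, so `f'` is one of `± f`, `± J f`, and the sign conditions determine it. For two different
neighbours `w, w'` of `v` there is a star `y` with `y 0 = v` and `w, w'` among the leaves (`Deg3`); similarly
for one neighbour. The frame `f` of a good star satisfies `Fr (y x) f` for all four `x`. So every
`v` has a unique frame `f v`, and `f v = f w` for neighbours. Colour:
`c v w = decide (dot (μ v w) (f v) = 0)` if `Γ.Nb v w`, else `false`; symmetric. `φ false v =
dot (pos (ι v false)) (J (f v))`, `φ true v = dot (pos (ι v false)) (J (J (f v)))`. If `w ≠ w'` are neighbours of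
`v` with `c v w = c v w' = b`, then with `g = f v` (`b = false`), `g = J (f v)` (`b = true`)
`dot (μ v w) g ≠ 0`, `dot (μ v w') g ≠ 0` (`μ ≠ 0`), and the last part of `Good1` gives the
inequality. -/
theorem tlf1 {V : Type*} {Γ : Gam V} (hΓ : Γ.Deg3) {M : ℕ} {pos : V1 (Γ.copies M) → Pt}
    {ch : V1 (Γ.copies M) → V1 (Γ.copies M) → List Pt} (h : NDraw 1 (G1 (Γ.copies M)) pos ch)
    (t : Fin M) (hg : ∀ (y : Fin 4 → V) (o po : Fin 3 → Bool), IsStar Γ y → OrOK Γ y o po →
      Good1 (pts1 (Γ.copies M) pos ch (fun x => (t, y x)) o po)) :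
    TLF Γ := by
  classical
  -- the frame of a star
  have hstar : ∀ y : Fin 4 → V, IsStar Γ y → ∃ f : Pt, (∀ x, tlf1Fr pos ch t (y x) f) ∧
      ∀ g, (g = f ∨ g = J f) → ∀ i i' : Fin 3, i ≠ i' →
        dot (tlf1mu pos ch t (y 0) (y i.succ)) g ≠ 0 →
        dot (tlf1mu pos ch t (y 0) (y i'.succ)) g ≠ 0 →
        (dot (pos (.inr (.inl ((t, y i.succ), false)))) (J g) -
          dot (pos (.inr (.inl ((t, y 0), false)))) (J g)) *
        (dot (pos (.inr (.inl ((t, y i'.succ), false)))) (J g) -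
          dot (pos (.inr (.inl ((t, y 0), false)))) (J g)) < 0 := by
    intro y hy
    obtain ⟨o, po, ho⟩ := tlf1_or hy
    obtain ⟨f, h1, h2, h3, h4, h5⟩ := hg y o po hy ho
    refine ⟨f, fun x => ⟨h1, h2, h3, fun k => h4 x k⟩, ?_⟩
    intro g hgf i i' hii hi hi'
    have h6 := h5 g hgf i i' hii
    rw [tlf1_mu_eq t ho i, tlf1_mu_eq t ho i'] at h6
    exact h6 hi hi'
  -- two different neighbours
  have htwo : ∀ v, ∃ w w', w ≠ w' ∧ Γ.Nb v w ∧ Γ.Nb v w' := by
    intro v
    obtain ⟨u, hu, hn⟩ := hΓ v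
    exact ⟨u 0, u 1, fun e => absurd (hu e) (by decide), hn 0, hn 1⟩
  have hfr : ∀ v, ∃ f, tlf1Fr pos ch t v f := by
    intro v
    obtain ⟨w, w', hne, hw, hw'⟩ := htwo v
    obtain ⟨y, hy, hy0, -, -⟩ := tlf1_star hΓ hw hw' hne
    obtain ⟨f, hf, -⟩ := hstar y hy
    exact ⟨f, hy0 ▸ hf 0⟩
  choose fr hfr using hfr
  have huni : ∀ v f, tlf1Fr pos ch t v f → f = fr v := fun v f hf => tlf1_Fr_uni h t v hf (hfr v)
  have hnb : ∀ v w, Γ.Nb v w → fr v = fr w := by
    intro v w hvw
    obtain ⟨u, u', hne, hu, hu'⟩ := htwo v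
    obtain ⟨w', hw', hww⟩ : ∃ w', Γ.Nb v w' ∧ w ≠ w' := by
      by_cases e : w = u
      · exact ⟨u', hu', fun e' => hne (e.symm.trans e')⟩
      · exact ⟨u, hu, e⟩
    obtain ⟨y, hy, hy0, hy1, -⟩ := tlf1_star hΓ hvw hw' hww
    obtain ⟨f, hf, -⟩ := hstar y hy
    have h0 : tlf1Fr pos ch t v f := hy0 ▸ hf 0
    have h1 : tlf1Fr pos ch t w f := hy1 ▸ hf 1
    rw [← huni v f h0, ← huni w f h1]
  have hsymm : ∀ v w, Γ.Nb v w → Γ.Nb w v := fun v w h => h.symm
  refine ⟨fun v w => if Γ.Nb v w then decide (dot (tlf1mu pos ch t v w) (fr v) = 0) else false,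
    fun b v => dot (pos (.inr (.inl ((t, v), false)))) (J (if b then J (fr v) else fr v)), ?_, ?_⟩
  · intro v w
    by_cases hvw : Γ.Nb v w
    · simp only [if_pos hvw, if_pos (hsymm v w hvw)]
      rw [tlf1_mu_symm t hvw, hnb v w hvw]
    · have hwv : ¬ Γ.Nb w v := fun h => hvw (hsymm w v h)
      simp only [if_neg hvw, if_neg hwv]
  · intro b v w w' hne hw hw' hcw hcw'
    simp only [if_pos hw] at hcw
    simp only [if_pos hw'] at hcw'
    obtain ⟨y, hy, hy0, hy1, hy2⟩ := tlf1_star hΓ hw hw' hne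
    obtain ⟨f, hf, hord⟩ := hstar y hy
    have hfv : f = fr v := huni v f (hy0 ▸ hf 0)
    have e1 : y (Fin.succ 0) = w := hy1
    have e2 : y (Fin.succ 1) = w' := hy2
    have hfw : fr w = fr v := (hnb v w hw).symm
    have hfw' : fr w' = fr v := (hnb v w' hw').symm
    have key := fun g hg => hord g hg 0 1 (by decide)
    rw [e1, e2, hy0, hfv] at key
    have hunit : dot (fr v) (fr v) = 1 := (hfr v).1
    have hJ : ∀ m : Pt, m ≠ 0 → dot m (fr v) = 0 → dot m (J (fr v)) ≠ 0 := by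
      intro m hm h0 h1
      have h2 := tlf1_cross hm h0 h1
      simp only [J] at h2
      simp only [dot] at hunit
      have : (1 : ℝ) = 0 := by linarith
      exact one_ne_zero this
    cases b with
    | false =>
      have c1 : dot (tlf1mu pos ch t v w) (fr v) ≠ 0 := by simpa using hcw
      have c2 : dot (tlf1mu pos ch t v w') (fr v) ≠ 0 := by simpa using hcw'
      have := key (fr v) (Or.inl rfl) c1 c2
      simpa [hfw, hfw'] using this
    | true =>
      have c1 : dot (tlf1mu pos ch t v w) (fr v) = 0 := by simpa using hcw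
      have c2 : dot (tlf1mu pos ch t v w') (fr v) = 0 := by simpa using hcw'
      have := key (J (fr v)) (Or.inr rfl) (hJ _ (tlf1_mu_ne h t hw) c1)
        (hJ _ (tlf1_mu_ne h t hw') c2)
      simpa [hfw, hfw'] using this

end Pool.Agent.RAC
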