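import Pool.Agent.Lib_MP_638f75_lc.H.PreDefs

/-!
# Good stars give a decomposition into two linear forests (two bends) (piece TLF2)
-/

namespace Pool.Agent.RAC

theorem tlf2_uniq {u f f' : Pt} (hu : u ≠ 0) (hf : dot f f = 1) (h1 : 0 < f.1) (h2 : 0 ≤ f.2)
    (hf' : dot f' f' = 1) (h1' : 0 < f'.1) (h2' : 0 ≤ f'.2)
    (e : dot u f = 0 ∨ dot u (J f) = 0) (e' : dot u f' = 0 ∨ dot u (J f') = 0) : f = f' := by
  obtain ⟨u1, u2⟩ := u
  obtain ⟨a, b⟩ := f
  obtain ⟨a', b'⟩ := f'
  simp only [dot, J] at *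
  have hu' : u1 ≠ 0 ∨ u2 ≠ 0 := by
    by_contra hc
    push Not at hc
    exact hu (Prod.ext hc.1 hc.2)
  have hcan : ∀ x : ℝ, u1 * x = 0 → u2 * x = 0 → x = 0 := by
    intro x k1 k2
    rcases hu' with k | k
    · exact (mul_eq_zero.1 k1).resolve_left k
    · exact (mul_eq_zero.1 k2).resolve_left k
  have hpos : ¬ (a * a' + b * b' = 0) := by
    intro k
    have k1 : 0 < a * a' := mul_pos h1 h1'
    have k2 : 0 ≤ b * b' := mul_nonneg h2 h2'
    linarith
  have hcrs : a * b' - b * a' = 0 := by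
    rcases e with e | e <;> rcases e' with e' | e'
    · refine hcan _ ?_ ?_
      · linear_combination b' * e - b * e'
      · linear_combination a * e' - a' * e
    · exact absurd (hcan _ (by linear_combination a' * e - b * e')
        (by linear_combination b' * e + a * e')) hpos
    · exact absurd (hcan _ (by linear_combination a * e' - b' * e)
        (by linear_combination b * e' + a' * e)) hpos
    · refine hcan _ ?_ ?_
      · linear_combination a' * e - a * e'
      · linear_combination b' * e - b * e'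
  have k1 : a ^ 2 = a' ^ 2 := by
    have k2 : (a * b') ^ 2 = (b * a') ^ 2 := by
      have : a * b' = b * a' := by linarith
      rw [this]
    have k3 : b' ^ 2 = 1 - a' ^ 2 := by linarith
    have k4 : b ^ 2 = 1 - a ^ 2 := by linarith
    rw [mul_pow, mul_pow, k3, k4] at k2
    linarith
  have k2 : a = a' := by
    rcases sq_eq_sq_iff_eq_or_eq_neg.1 k1 with k | k
    · exact k
    · linarith
  subst k2
  have k3 : a * (b' - b) = 0 := by linarith
  have k4 : b' - b = 0 := (mul_eq_zero.1 k3).resolve_left h1.ne'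
  rw [Prod.mk.injEq]
  exact ⟨rfl, by linarith⟩

theorem tlf2_J {u f : Pt} (hu : u ≠ 0) (hf : dot f f = 1) (h : dot u f = 0) : dot u (J f) ≠ 0 := by
  intro h'
  apply hu
  obtain ⟨u1, u2⟩ := u
  obtain ⟨a, b⟩ := f
  simp only [dot, J] at *
  refine Prod.ext ?_ ?_
  · show u1 = 0
    linear_combination (-u1) * hf + a * h - b * h'
  · show u2 = 0
    linear_combination (-u2) * hf + b * h + a * h'

theorem tlf2_four {l : List Pt} (h : l.length = 4) : ∃ a b c d, l = [a, b, c, d] := by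
  match l, h with
  | [a, b, c, d], _ => exact ⟨a, b, c, d, rfl⟩

section

variable {V : Type*} {M : ℕ} (pos : V2 (Fin M × V) → Pt)
  (ch : V2 (Fin M × V) → V2 (Fin M × V) → List Pt) (t : Fin M)

def tlf2a (v : V) (h : Fin 8) : Pt := (ch (.inr (t, v)) (.inl h)).getD 1 0

def tlf2b (v : V) (h : Fin 8) : Pt := (ch (.inr (t, v)) (.inl h)).getD 2 0

def tlf2mu (v w : V) : Pt :=
  (ch (.inr (t, v)) (.inr (t, w))).getD 2 0 - (ch (.inr (t, v)) (.inr (t, w))).getD 1 0

def tlf2Fr (v : V) (f : Pt) : Prop :=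
  dot f f = 1 ∧ 0 < f.1 ∧ 0 ≤ f.2 ∧ ∀ h, dot (tlf2b ch t v h - tlf2a ch t v h) f = 0 ∨
    dot (tlf2b ch t v h - tlf2a ch t v h) (J f) = 0

def tlf2W (f g : Pt) (v : V) (h : Fin 8) : Prop :=
  dot (tlf2a ch t v h - pos (.inr (t, v))) f ≠ 0 ∧
    dot (tlf2a ch t v h - pos (.inr (t, v))) (J f) ≠ 0 ∧
    ∃ l : ℝ, 0 < l ∧ tlf2b ch t v h - tlf2a ch t v h = l • (-g)

variable {pos ch} {Γ : Gam V}

theorem tlf2_leg (hd : NDraw 2 (G2 (Γ.copies M)) pos ch) (v : V) (h : Fin 8) :
    tlf2b ch t v h - tlf2a ch t v h ≠ 0 := by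
  have hadj : (G2 (Γ.copies M)).Adj (.inr (t, v)) (.inl h) := trivial
  obtain ⟨a, b, c, d, e⟩ := tlf2_four (hd.lenk _ _ hadj)
  have hn := hd.nondeg _ _ hadj
  unfold tlf2a tlf2b
  rw [e] at hn ⊢
  simp only [List.isChain_cons_cons] at hn
  show c - b ≠ 0
  exact sub_ne_zero.2 (Ne.symm hn.2.1)

theorem tlf2_mu_ne (hd : NDraw 2 (G2 (Γ.copies M)) pos ch) {v w : V} (hvw : Γ.Nb v w) :
    tlf2mu ch t v w ≠ 0 := by
  have hadj : (G2 (Γ.copies M)).Adj (.inr (t, v)) (.inr (t, w)) := by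
    rcases hvw with h | h
    · exact Or.inl ⟨rfl, h⟩
    · exact Or.inr ⟨rfl, h⟩
  obtain ⟨a, b, c, d, e⟩ := tlf2_four (hd.lenk _ _ hadj)
  have hn := hd.nondeg _ _ hadj
  unfold tlf2mu
  rw [e] at hn ⊢
  simp only [List.isChain_cons_cons] at hn
  show c - b ≠ 0
  exact sub_ne_zero.2 (Ne.symm hn.2.1)

theorem tlf2_mu_symm (hd : NDraw 2 (G2 (Γ.copies M)) pos ch) {v w : V} (hvw : Γ.Nb v w) :
    tlf2mu ch t w v = - tlf2mu ch t v w := by
  have hadj : (G2 (Γ.copies M)).Adj (.inr (t, v)) (.inr (t, w)) := by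
    rcases hvw with h | h
    · exact Or.inl ⟨rfl, h⟩
    · exact Or.inr ⟨rfl, h⟩
  obtain ⟨a, b, c, d, e⟩ := tlf2_four (hd.lenk _ _ hadj)
  have hr := hd.rev _ _ hadj
  unfold tlf2mu
  rw [hr, e]
  show b - c = -(c - b)
  abel

theorem tlf2_fr_uniq (hd : NDraw 2 (G2 (Γ.copies M)) pos ch) {v : V} {f f' : Pt}
    (h : tlf2Fr ch t v f) (h' : tlf2Fr ch t v f') : f = f' :=
  tlf2_uniq (tlf2_leg t hd v 0) h.1 h.2.1 h.2.2.1 h'.1 h'.2.1 h'.2.2.1 (h.2.2.2 0) (h'.2.2.2 0)

theorem tlf2_nb_symm {v w : V} (h : Γ.Nb v w) : Γ.Nb w v := Or.symm h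

theorem tlf2_nb_ne {v w : V} (h : Γ.Nb v w) : v ≠ w := by
  rcases h with h | h
  · exact Γ.irr _ _ h
  · exact (Γ.irr _ _ h).symm

/-- the star with given two leaves -/
theorem tlf2_star (hΓ : Γ.Deg3) {v w w' : V} (hww : w ≠ w') (h : Γ.Nb v w) (h' : Γ.Nb v w') :
    ∃ u : V, IsStar Γ ![v, w, w', u] := by
  obtain ⟨x, hx, hn⟩ := hΓ v
  obtain ⟨j, hj, hj'⟩ : ∃ j, x j ≠ w ∧ x j ≠ w' := by
    by_contra hc
    push Not at hc
    have k0 := hc 0
    have k1 := hc 1
    have k2 := hc 2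
    have n01 : x 0 ≠ x 1 := fun e => absurd (hx e) (by decide)
    have n02 : x 0 ≠ x 2 := fun e => absurd (hx e) (by decide)
    have n12 : x 1 ≠ x 2 := fun e => absurd (hx e) (by decide)
    by_cases e0 : x 0 = w
    · have e1 : x 1 ≠ w := fun e => n01 (e0.trans e.symm)
      have e2 : x 2 ≠ w := fun e => n02 (e0.trans e.symm)
      exact n12 ((k1 e1).trans (k2 e2).symm)
    · have e0' := k0 e0
      have e1 : x 1 = w := by
        by_contra hc1
        exact n01 (e0'.trans (k1 hc1).symm)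
      have e2 : x 2 = w := by
        by_contra hc1
        exact n02 (e0'.trans (k2 hc1).symm)
      exact n12 (e1.trans e2.symm)
  refine ⟨x j, ?_, ?_⟩
  · have a1 := tlf2_nb_ne h
    have a2 := tlf2_nb_ne h'
    have a3 := tlf2_nb_ne (hn j)
    intro p q hpq
    fin_cases p <;> fin_cases q <;> first
      | rfl
      | (exfalso; simp at hpq; tauto)
  · intro i
    fin_cases i
    · exact h
    · exact h'
    · exact hn j

end

/-- TLF2. If all stars in a copy of `Γ` are good then `Γ` decomposes into two linear forests.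

Proof. Write `ι v = inr (t, v)`, and for a vertex `v`: `A v h = bend 1 of ch (ι v) (inl h) - pos (ι v)`, `M v h =
bend 2 - bend 1`, `μ v w = bend 2 - bend 1` of `ch (ι v) (ι w)`; `μ w v = - μ v w` (`rev`, `lenk`). Let
`Fr v f` mean: `dot f f = 1`, `0 < f.1`, `0 ≤ f.2` and all `M v h` are perpendicular to `f` or `J f`. `Fr v f`,
`Fr v f'` imply `f = f'`: `M v 0 ≠ 0` (`nondeg`) is parallel to one of the axes of both frames, so `f'` is
one of `± f`, `± J f`, and the sign conditions determine it. For two different neighbours `w, w'` of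
`v` there is a star `y` with `y 0 = v` and `w, w'` among the leaves (`Deg3`: three different
neighbours, one of them is different from `w, w'`); similarly for one neighbour. The frame `f` of a good star
satisfies `Fr (y x) f` for all four `x`. So every `v` has a unique frame `f v`, and
`f v = f w` for neighbours. Colour: `c v w = decide (dot (μ v w) (f v) = 0)` if `Γ.Nb v w`, else `false`;
it is symmetric. For `b = false` let `g = f v`, for `b = true` let `g = J (f v)`; by goodness there is a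
unique `h` such that `Ws` holds for `v` (it depends only on `v`: write it in terms of `A v`, `M v`), and
`φ b v := dot (bend 1 of the leg h) (J g)`. If `w ≠ w'` are neighbours of `v` with
`c v w = c v w' = b`, then `dot (μ v w) g ≠ 0`, `dot (μ v w') g ≠ 0` (`b = false`: by definition; `b = true`:
`μ ≠ 0` is perpendicular to `f`, so not to `J f`), and the last part of `Good2` for a star which contains
`w = y i.succ`, `w' = y i'.succ` gives the inequality. -/
theorem tlf2 {V : Type*} {Γ : Gam V} (hΓ : Γ.Deg3) {M : ℕ} {pos : V2 (Fin M × V) → Pt}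
    {ch : V2 (Fin M × V) → V2 (Fin M × V) → List Pt} (h : NDraw 2 (G2 (Γ.copies M)) pos ch)
    (t : Fin M) (hg : ∀ y : Fin 4 → V, IsStar Γ y → Good2 (pts2 pos ch (fun x => (t, y x)))) :
    TLF Γ := by
  classical
  -- the frame of a star
  have hframe : ∀ y : Fin 4 → V, IsStar Γ y → ∃ f : Pt, (∀ x, tlf2Fr ch t (y x) f) ∧
      ∀ g, (g = f ∨ g = J f) →
      (∀ x, ∃ h, tlf2W pos ch t f g (y x) h) ∧
      ∀ i i' : Fin 3, i ≠ i' → dot (tlf2mu ch t (y 0) (y i.succ)) g ≠ 0 →
        dot (tlf2mu ch t (y 0) (y i'.succ)) g ≠ 0 →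
        ∀ h0 h h', tlf2W pos ch t f g (y 0) h0 → tlf2W pos ch t f g (y i.succ) h →
          tlf2W pos ch t f g (y i'.succ) h' →
          (dot (tlf2a ch t (y i.succ) h) (J g) - dot (tlf2a ch t (y 0) h0) (J g)) *
            (dot (tlf2a ch t (y i'.succ) h') (J g) - dot (tlf2a ch t (y 0) h0) (J g)) < 0 := by
    intro y hy
    obtain ⟨f, h1, h2, h3, h4, h5⟩ := hg y hy
    refine ⟨f, fun x => ⟨h1, h2, h3, fun hh => h4 x hh⟩, fun g hgf => ?_⟩
    obtain ⟨h6, -, h7⟩ := h5 g hgf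
    exact ⟨h6, h7⟩
  -- a third vertex
  have hother : ∀ v w, Γ.Nb v w → ∃ w', w ≠ w' ∧ Γ.Nb v w' := by
    intro v w _
    obtain ⟨x, hx, hn⟩ := hΓ v
    by_cases e : w = x 0
    · exact ⟨x 1, fun e' => absurd (hx (e.symm.trans e')) (by decide), hn 1⟩
    · exact ⟨x 0, e, hn 0⟩
  have hex : ∀ v, ∃ f, tlf2Fr ch t v f := by
    intro v
    obtain ⟨x, hx, hn⟩ := hΓ v
    have n01 : x 0 ≠ x 1 := fun e => absurd (hx e) (by decide)
    obtain ⟨u, hu⟩ := tlf2_star hΓ n01 (hn 0) (hn 1)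
    obtain ⟨f, hf, -⟩ := hframe _ hu
    exact ⟨f, hf 0⟩
  choose F hF using hex
  have hFnb : ∀ v w, Γ.Nb v w → F v = F w := by
    intro v w hvw
    obtain ⟨w', hww, hvw'⟩ := hother v w hvw
    obtain ⟨u, hu⟩ := tlf2_star hΓ hww hvw hvw'
    obtain ⟨f, hf, -⟩ := hframe _ hu
    have e1 : F v = f := tlf2_fr_uniq t h (hF v) (hf 0)
    have e2 : F w = f := tlf2_fr_uniq t h (hF w) (hf 1)
    rw [e1, e2]
  let G : Bool → V → Pt := fun b v => if b then J (F v) else F v
  have hG : ∀ b v, G b v = F v ∨ G b v = J (F v) := by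
    intro b v
    cases b
    · exact Or.inl rfl
    · exact Or.inr rfl
  let φ : Bool → V → ℝ := fun b v =>
    if hh : ∃ k, tlf2W pos ch t (F v) (G b v) v k then
      dot (tlf2a ch t v hh.choose) (J (G b v)) else 0
  refine ⟨fun v w => decide (Γ.Nb v w ∧ dot (tlf2mu ch t v w) (F v) = 0), φ, ?_, ?_⟩
  · intro v w
    show decide _ = decide _
    rw [decide_eq_decide]
    have key : ∀ v w, (Γ.Nb v w ∧ dot (tlf2mu ch t v w) (F v) = 0) →
        (Γ.Nb w v ∧ dot (tlf2mu ch t w v) (F w) = 0) := by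
      rintro v w ⟨h1, h2⟩
      refine ⟨tlf2_nb_symm h1, ?_⟩
      rw [tlf2_mu_symm t h h1, ← hFnb v w h1]
      simp only [dot, Prod.fst_neg, Prod.snd_neg] at h2 ⊢
      linear_combination (-1) * h2
    exact ⟨key v w, key w v⟩
  · intro b v w w' hww h1 h2 h3 h4
    obtain ⟨u, hu⟩ := tlf2_star hΓ hww h1 h2
    obtain ⟨f, hf, hf'⟩ := hframe _ hu
    have e0 : F v = f := tlf2_fr_uniq t h (hF v) (hf 0)
    have e1 : F w = f := tlf2_fr_uniq t h (hF w) (hf 1)
    have e2 : F w' = f := tlf2_fr_uniq t h (hF w') (hf 2)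
    have hg' : G b v = f ∨ G b v = J f := by
      rw [← e0]
      exact hG b v
    have g1 : G b w = G b v := by
      show (if b then J (F w) else F w) = if b then J (F v) else F v
      rw [e1, e0]
    have g2 : G b w' = G b v := by
      show (if b then J (F w') else F w') = if b then J (F v) else F v
      rw [e2, e0]
    obtain ⟨k1, k2⟩ := hf' (G b v) hg'
    have hmu : ∀ z, Γ.Nb v z →
        decide (Γ.Nb v z ∧ dot (tlf2mu ch t v z) (F v) = 0) = b →
        dot (tlf2mu ch t v z) (G b v) ≠ 0 := by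
      intro z hz hb
      cases b
      · rw [decide_eq_false_iff_not] at hb
        intro hc
        exact hb ⟨hz, hc⟩
      · rw [decide_eq_true_iff] at hb
        exact tlf2_J (tlf2_mu_ne t h hz) (hF v).1 hb.2
    have w0 : ∃ k, tlf2W pos ch t (F v) (G b v) v k := by
      rw [e0]
      exact k1 0
    have w1 : ∃ k, tlf2W pos ch t (F w) (G b w) w k := by
      rw [e1, g1]
      exact k1 1
    have w2 : ∃ k, tlf2W pos ch t (F w') (G b w') w' k := by
      rw [e2, g2]
      exact k1 2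
    obtain ⟨j0, p0, s0⟩ : ∃ k, φ b v = dot (tlf2a ch t v k) (J (G b v)) ∧
        tlf2W pos ch t (F v) (G b v) v k := ⟨w0.choose, dif_pos w0, w0.choose_spec⟩
    obtain ⟨j1, p1, s1⟩ : ∃ k, φ b w = dot (tlf2a ch t w k) (J (G b w)) ∧
        tlf2W pos ch t (F w) (G b w) w k := ⟨w1.choose, dif_pos w1, w1.choose_spec⟩
    obtain ⟨j2, p2, s2⟩ : ∃ k, φ b w' = dot (tlf2a ch t w' k) (J (G b w')) ∧
        tlf2W pos ch t (F w') (G b w') w' k := ⟨w2.choose, dif_pos w2, w2.choose_spec⟩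
    rw [e0] at s0
    rw [e1, g1] at s1
    rw [e2, g2] at s2
    rw [g1] at p1
    rw [g2] at p2
    rw [p0, p1, p2]
    exact k2 0 1 (by decide) (hmu w h1 h3) (hmu w' h2 h4) _ _ _ s0 s1 s2

end Pool.Agent.RAC
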