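import Pool.Agent.Lib_MP_638f75_lc.H.RAMF
import Pool.Agent.Lib_MP_638f75_lc.H.NORM
import Pool.Agent.Lib_MP_638f75_lc.H.PRE1
import Pool.Agent.Lib_MP_638f75_lc.H.PRE2
import Pool.Agent.Lib_MP_638f75_lc.H.HL
import Pool.Agent.Lib_MP_638f75_lc.H.HM
import Pool.Agent.Lib_MP_638f75_lc.H.TLF1
import Pool.Agent.Lib_MP_638f75_lc.H.TLF2

/-!
# Soundness
-/

namespace Pool.Agent.RAC

/-- Two bends: if sufficiently many copies of `Γ` are drawable then `Γ` decomposes into two linear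
forests. -/
theorem SOUND_2 : ∃ M : ℕ, ∀ (V : Type) [Fintype V] (Γ : Gam V), Γ.Deg3 →
    WD 2 (G2 (Γ.copies M)) → TLF Γ := by
  obtain ⟨N, hN⟩ := ramF PP2 SS2 EE2 10
  refine ⟨N + 1, fun V _ Γ hΓ hW => ?_⟩
  obtain ⟨pos, ch0, h0⟩ := hW
  obtain ⟨ch, h⟩ := norm h0
  by_contra hT
  have hbad : ∀ t : Fin (N + 1), ∃ y : Fin 4 → V, IsStar Γ y ∧
      ¬ Good2 (pts2 pos ch (fun x => (t, y x))) := by
    intro t
    by_contra hc
    push Not at hc
    exact hT (tlf2 hΓ h t hc)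
  choose y hy hb using hbad
  let z : ℕ → Fin 4 → Fin (N + 1) × V := fun t x =>
    if ht : t < N + 1 then (⟨t, ht⟩, y ⟨t, ht⟩ x) else (0, y 0 x)
  have hz : ∀ t (ht : t < N + 1), z t = fun x => (⟨t, ht⟩, y ⟨t, ht⟩ x) := by
    intro t ht
    funext x
    simp only [z, dif_pos ht]
  obtain ⟨PF, e1, e2, ed, ver, hub, hpt⟩ := pre2 h N z (by
    intro t ht
    rw [hz t (by omega)]
    refine ⟨fun a b hab => (hy _).1 (Prod.ext_iff.1 hab).2, fun i => ?_⟩
    rcases (hy ⟨t, by omega⟩).2 i with h1 | h1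
    · exact Or.inl ⟨rfl, h1⟩
    · exact Or.inr ⟨rfl, h1⟩) (by
    intro t u ht hu htu x x' he
    rw [hz t (by omega), hz u (by omega)] at he
    exact htu (by simpa using congrArg (fun q => (q.1 : ℕ)) he))
  obtain ⟨F, g, f1, f2, fd, fv, fh, hg, hp⟩ := hN PF
  have := core2 (le_refl 10) F (f1.trans e1) (f2.trans e2) (fd.trans ed) (fv.trans ver)
    (fh.trans hub)
  have h4 := hg 4 (by omega)
  rw [hp, hpt, hz _ (by omega)] at this
  exact hb _ this

/-- One bend: if sufficiently many copies of `Γ` are drawable then `Γ` decomposes into two linear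
forests. -/
theorem SOUND_1 : ∃ M : ℕ, ∀ (V : Type) [Fintype V] (Γ : Gam V), Γ.Deg3 →
    WD 1 (G1 (Γ.copies M)) → TLF Γ := by
  obtain ⟨N, hN⟩ := ramF PP1 SS1 EE1 10
  refine ⟨64 * N + 1, fun V _ Γ hΓ hW => ?_⟩
  obtain ⟨pos, ch0, h0⟩ := hW
  have : Finite (V1 (Γ.copies (64 * N + 1))) := by
    unfold V1
    infer_instance
  obtain ⟨ch, h⟩ := norm h0
  by_contra hT
  have hbad : ∀ t : Fin (64 * N + 1), ∃ (y : Fin 4 → V) (q : (Fin 3 → Bool) × (Fin 3 → Bool)),
      IsStar Γ y ∧ OrOK Γ y q.1 q.2 ∧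
      ¬ Good1 (pts1 (Γ.copies _) pos ch (fun x => (t, y x)) q.1 q.2) := by
    intro t
    by_contra hc
    push Not at hc
    exact hT (tlf1 hΓ h t fun y o po h1 h2 => hc y (o, po) h1 h2)
  choose y q hy hq hb using hbad
  obtain ⟨c, hc⟩ := Fintype.exists_lt_card_fiber_of_mul_lt_card q (n := N) (by
    simp only [Fintype.card_prod, Fintype.card_fun, Fintype.card_bool, Fintype.card_fin]
    omega)
  set s := Finset.univ.filter fun t => q t = c
  let j : ℕ → Fin (64 * N + 1) := fun t => if ht : t < s.card then s.orderEmbOfFin rfl ⟨t, ht⟩ else 0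
  have hj : ∀ t, t < N → q (j t) = c := by
    intro t ht
    have h1 : t < s.card := ht.trans hc
    simp only [j, dif_pos h1]
    exact (Finset.mem_filter.1 (Finset.orderEmbOfFin_mem s rfl ⟨t, h1⟩)).2
  have hji : ∀ t u, t < N → u < N → t ≠ u → j t ≠ j u := by
    intro t u ht hu htu he
    have h1 : t < s.card := ht.trans hc
    have h2 : u < s.card := hu.trans hc
    simp only [j, dif_pos h1, dif_pos h2] at he
    exact htu (by simpa using (s.orderEmbOfFin rfl).injective he)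
  obtain ⟨PF, e1, e2, ed, ver, hub, hpt⟩ := pre1 h N (fun t x => (j t, y (j t) x)) c.1 c.2 (by
    intro t ht
    refine ⟨fun a b hab => (hy _).1 (Prod.ext_iff.1 hab).2, fun i => ?_⟩
    rcases (hy (j t)).2 i with h1 | h1
    · exact Or.inl ⟨rfl, h1⟩
    · exact Or.inr ⟨rfl, h1⟩) (by
    intro t ht i
    have := hq (j t) i
    rw [hj t ht] at this
    exact ⟨⟨rfl, this.1⟩, this.2⟩) (by
    intro t u ht hu htu x x' he
    exact hji t u ht hu htu (congrArg Prod.fst he))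
  obtain ⟨F, g, f1, f2, fd, fv, fh, hg, hp⟩ := hN PF
  have := core1 (le_refl 10) F (f1.trans e1) (f2.trans e2) (fd.trans ed) (fv.trans ver)
    (fh.trans hub)
  have h4 := hg 4 (by omega)
  rw [hp, hpt] at this
  have h5 := hb (j (g 4))
  rw [hj _ h4] at h5
  exact h5 this

end Pool.Agent.RAC
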